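import Mathlib

/-!
# Kadison-Kastler stability of crossed product factors: the definitions of the final statement
-/

set_option autoImplicit false

open MeasureTheory

namespace Pool.Agent.KKS

variable {H : Type*} [NormedAddCommGroup H] [InnerProductSpace ℂ H] [CompleteSpace H]

/-- The closed unit ball of the von Neumann algebra `M`, as a set of operators on `H`. -/
def unitBall (M : VonNeumannAlgebra H) : Set (H →L[ℂ] H) := {x | x ∈ M ∧ ‖x‖ ≤ 1}

/-- The Kadison-Kastler distance of two von Neumann algebras on `H`: the Hausdorff distance, in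
the operator norm, of their closed unit balls. -/
noncomputable def kkDist (M N : VonNeumannAlgebra H) : ℝ :=
  Metric.hausdorffDist (unitBall M) (unitBall N)

/-- `τ` is (on `M`) a faithful normal tracial state of `M`.  Normality is expressed by
`τ x = ∑ i, ⟪ξ i, x ξ i⟫` with `∑ i, ‖ξ i‖ ^ 2 < ∞`. -/
structure IsTrace (M : VonNeumannAlgebra H) (τ : (H →L[ℂ] H) → ℂ) : Prop where
  normal : ∃ ξ : ℕ → H, Summable (fun i => ‖ξ i‖ ^ 2) ∧
    ∀ x ∈ M, τ x = ∑' i, inner ℂ (ξ i) (x (ξ i))
  one : τ 1 = 1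
  tracial : ∀ x ∈ M, ∀ y ∈ M, τ (x * y) = τ (y * x)
  faithful : ∀ x ∈ M, τ (star x * x) = 0 → x = 0

/-- The centre of `M` consists of the scalars. -/
def IsFactor (M : VonNeumannAlgebra H) : Prop :=
  ∀ z ∈ M, (∀ x ∈ M, z * x = x * z) → ∃ c : ℂ, z = c • 1

/-- A `II₁` factor: an infinite dimensional factor with a faithful normal tracial state. -/
structure IsII1Factor (M : VonNeumannAlgebra H) : Prop where
  factor : IsFactor M
  infinite : ¬ FiniteDimensional ℂ M.toStarSubalgebra
  trace : ∃ τ, IsTrace M τ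

/-- Bounded measurable complex functions. -/
def BddMeas {X : Type*} [MeasurableSpace X] (f : X → ℂ) : Prop :=
  Measurable f ∧ ∃ C : ℝ, ∀ x, ‖f x‖ ≤ C

/-- `M` is the crossed product `L^∞(X, μ) ⋊ Γ`: it contains a copy `π` of `L^∞(X, μ)` and a unitary
representation `u` of `Γ` which implements the action, both together generate `M`, and there is
a faithful normal tracial state `τ` on `M` with `τ (π f * u g) = 0` for `g ≠ 1` and
`τ (π f) = ∫ f dμ`. -/
structure IsCrossedProduct {X Γ : Type*} [MeasurableSpace X] [Group Γ] [MulAction Γ X]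
    (μ : Measure X) (M : VonNeumannAlgebra H) (π : (X → ℂ) → H →L[ℂ] H) (u : Γ → H →L[ℂ] H) :
    Prop where
  map_add : ∀ f g, BddMeas f → BddMeas g → π (f + g) = π f + π g
  map_mul : ∀ f g, BddMeas f → BddMeas g → π (f * g) = π f * π g
  map_smul : ∀ (c : ℂ) f, BddMeas f → π (c • f) = c • π f
  map_star : ∀ f, BddMeas f → π (star f) = star (π f)
  map_one : π 1 = 1
  map_ae : ∀ f g, BddMeas f → BddMeas g → f =ᵐ[μ] g → π f = π g
  u_one : u 1 = 1
  u_mul : ∀ g h, u (g * h) = u g * u h
  u_star : ∀ g, star (u g) = u g⁻¹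
  covariant : ∀ g f, BddMeas f → u g * π f * star (u g) = π (fun x => f (g⁻¹ • x))
  generates : (M : Set (H →L[ℂ] H)) =
    Set.centralizer (Set.centralizer ({a | ∃ f, BddMeas f ∧ a = π f} ∪ Set.range u))
  trace : ∃ τ, IsTrace M τ ∧
    (∀ f, BddMeas f → τ (π f) = ∫ x, f x ∂μ) ∧
    ∀ f g, BddMeas f → g ≠ 1 → τ (π f * u g) = 0

/-- The copy of `L^∞(X, μ)` in `M` is a maximal abelian self-adjoint subalgebra (masa) of `M`. As `M` is
generated by it and by unitaries which normalise it, it is then a Cartan masa. -/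
def IsMasaIn {X : Type*} [MeasurableSpace X] (M : VonNeumannAlgebra H)
    (π : (X → ℂ) → H →L[ℂ] H) : Prop :=
  ∀ x ∈ M, (∀ f, BddMeas f → x * π f = π f * x) → ∃ f, BddMeas f ∧ x = π f

end Pool.Agent.KKS
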