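import Pool.Agent.Lib.MP_5c1ef7_an.Defs

/-!
# P01: weak limits, traces, 2-norm
-/

set_option autoImplicit false
set_option linter.unusedSectionVars false

section

/-!
# W: weak limits of bounded sequences of operators along an ultrafilter
-/


open Filter Topology

namespace Pool.Agent.KKS

variable {H : Type*} [NormedAddCommGroup H] [InnerProductSpace ℂ H] [CompleteSpace H]

/-- the operators which commute with all elements of the star closed set `S` -/
noncomputable def cVN (S : Set (H →L[ℂ] H)) (hS : ∀ x ∈ S, star x ∈ S) : VonNeumannAlgebra H :=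
  { StarSubalgebra.centralizer ℂ S with
    centralizer_centralizer' := by
      have h0 : (StarSubalgebra.centralizer ℂ S : Set (H →L[ℂ] H)) = Set.centralizer S := by
        rw [StarSubalgebra.coe_centralizer]
        congr 1
        apply Set.union_eq_self_of_subset_right
        intro x hx
        simpa using hS _ (Set.mem_star.mp hx)
      change Set.centralizer (Set.centralizer
        (StarSubalgebra.centralizer ℂ S : Set (H →L[ℂ] H))) =
        (StarSubalgebra.centralizer ℂ S : Set (H →L[ℂ] H))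
      rw [h0, Set.centralizer_centralizer_centralizer] }

theorem mem_cVN {S : Set (H →L[ℂ] H)} {hS : ∀ x ∈ S, star x ∈ S} {T : H →L[ℂ] H} :
    T ∈ cVN S hS ↔ ∀ x ∈ S, T * x = x * T := by
  have h0 : (StarSubalgebra.centralizer ℂ S : Set (H →L[ℂ] H)) = Set.centralizer S := by
    rw [StarSubalgebra.coe_centralizer]
    congr 1
    apply Set.union_eq_self_of_subset_right
    intro x hx
    simpa using hS _ (Set.mem_star.mp hx)
  have h1 : T ∈ cVN S hS ↔ T ∈ (StarSubalgebra.centralizer ℂ S : Set (H →L[ℂ] H)) := Iff.rfl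
  rw [h1, h0, Set.mem_centralizer_iff]
  exact ⟨fun h x hx => (h x hx).symm, fun h x hx => (h x hx).symm⟩

/-- all bounded operators -/
noncomputable def topVN : VonNeumannAlgebra H := cVN ∅ (by simp)

theorem mem_topVN (T : H →L[ℂ] H) : T ∈ (topVN : VonNeumannAlgebra H) := by
  rw [topVN, mem_cVN]
  simp

/-- double commutant form of membership -/
theorem mem_of_comm {R : VonNeumannAlgebra H} {T : H →L[ℂ] H}
    (h : ∀ S : H →L[ℂ] H, (∀ x ∈ R, S * x = x * S) → S * T = T * S) : T ∈ R := by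
  have h2 : T ∈ Set.centralizer (Set.centralizer (R : Set (H →L[ℂ] H))) := by
    rw [Set.mem_centralizer_iff]
    intro S hS
    rw [Set.mem_centralizer_iff] at hS
    exact h S fun x hx => (hS x hx).symm
  rw [R.centralizer_centralizer] at h2
  exact h2

/-- the intersection -/
noncomputable def interVN (M N : VonNeumannAlgebra H) : VonNeumannAlgebra H :=
  cVN {S | (∀ x ∈ M, S * x = x * S) ∨ ∀ x ∈ N, S * x = x * S} (by
    intro S hS
    rcases hS with hS | hS
    · left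
      intro x hx
      have := congrArg star (hS (star x) (star_mem hx))
      simpa using this.symm
    · right
      intro x hx
      have := congrArg star (hS (star x) (star_mem hx))
      simpa using this.symm)

theorem mem_interVN {M N : VonNeumannAlgebra H} {T : H →L[ℂ] H} :
    T ∈ interVN M N ↔ T ∈ M ∧ T ∈ N := by
  rw [interVN, mem_cVN]
  constructor
  · intro h
    exact ⟨mem_of_comm fun S hS => (h S (Or.inl hS)).symm,
      mem_of_comm fun S hS => (h S (Or.inr hS)).symm⟩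
  · rintro ⟨h1, h2⟩ S (hS | hS)
    · exact (hS T h1).symm
    · exact (hS T h2).symm

/-- the free ultrafilter on `ℕ` -/
noncomputable abbrev UF : Filter ℕ := (hyperfilter ℕ : Filter ℕ)

/-- bounded sequences of operators -/
def Bdd (T : ℕ → H →L[ℂ] H) : Prop := ∃ C : ℝ, ∀ n, ‖T n‖ ≤ C

open Classical in
/-- the weak limit along the ultrafilter (0 if it does not exist) -/
noncomputable def wlim (T : ℕ → H →L[ℂ] H) : H →L[ℂ] H :=
  if h : ∃ S : H →L[ℂ] H, ∀ ξ η : H,
      Tendsto (fun n => inner ℂ ξ (T n η)) UF (𝓝 (inner ℂ ξ (S η))) then h.choose else 0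

/-- bounded scalar sequences converge along the ultrafilter -/
theorem exists_ulim {a : ℕ → ℂ} {C : ℝ} (h : ∀ n, ‖a n‖ ≤ C) :
    ∃ z : ℂ, Tendsto a UF (𝓝 z) := by
  have hc : IsCompact (Metric.closedBall (0 : ℂ) C) := isCompact_closedBall 0 C
  have hle : (((hyperfilter ℕ).map a : Ultrafilter ℂ) : Filter ℂ) ≤
      𝓟 (Metric.closedBall (0 : ℂ) C) := by
    rw [Ultrafilter.coe_map, Filter.le_principal_iff, Filter.mem_map]
    refine Filter.univ_mem' fun n => ?_
    rw [Set.mem_preimage, mem_closedBall_zero_iff]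
    exact h n
  obtain ⟨z, _, hz⟩ := hc.ultrafilter_le_nhds _ hle
  exact ⟨z, hz⟩

private theorem W_exists_wlim {T : ℕ → H →L[ℂ] H} (hT : Bdd T) :
    ∃ S : H →L[ℂ] H, ∀ ξ η : H,
      Tendsto (fun n => inner ℂ ξ (T n η)) UF (𝓝 (inner ℂ ξ (S η))) := by
  obtain ⟨C, hC⟩ := hT
  have hb : ∀ (η ξ : H) (n : ℕ), ‖inner ℂ (T n η) ξ‖ ≤ C * ‖η‖ * ‖ξ‖ := by
    intro η ξ n
    refine (norm_inner_le_norm _ _).trans ?_
    exact mul_le_mul_of_nonneg_right
      (((T n).le_opNorm η).trans (mul_le_mul_of_nonneg_right (hC n) (norm_nonneg _)))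
      (norm_nonneg _)
  choose g hg using fun η ξ => exists_ulim (hb η ξ)
  let f : H →ₗ⋆[ℂ] H →ₗ[ℂ] ℂ := LinearMap.mk₂'ₛₗ (starRingEnd ℂ) (RingHom.id ℂ) g
    (by
      intro η η' ξ
      refine tendsto_nhds_unique (hg (η + η') ξ) ?_
      refine ((hg η ξ).add (hg η' ξ)).congr fun n => ?_
      rw [map_add, inner_add_left])
    (by
      intro c η ξ
      refine tendsto_nhds_unique (hg (c • η) ξ) ?_
      refine ((hg η ξ).const_mul ((starRingEnd ℂ) c)).congr fun n => ?_
      rw [map_smul, inner_smul_left])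
    (by
      intro η ξ ξ'
      refine tendsto_nhds_unique (hg η (ξ + ξ')) ?_
      refine ((hg η ξ).add (hg η ξ')).congr fun n => ?_
      rw [inner_add_right])
    (by
      intro c η ξ
      refine tendsto_nhds_unique (hg η (c • ξ)) ?_
      refine ((hg η ξ).const_mul c).congr fun n => ?_
      rw [inner_smul_right])
  have hf : ∀ η ξ, ‖f η ξ‖ ≤ C * ‖η‖ * ‖ξ‖ := by
    intro η ξ
    exact le_of_tendsto (hg η ξ).norm (Filter.univ_mem' fun n => hb η ξ n)
  let B : H →L⋆[ℂ] H →L[ℂ] ℂ := LinearMap.mkContinuous₂ f C hf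
  refine ⟨InnerProductSpace.continuousLinearMapOfBilin B, fun ξ η => ?_⟩
  have h1 : inner ℂ (InnerProductSpace.continuousLinearMapOfBilin B η) ξ = g η ξ :=
    InnerProductSpace.continuousLinearMapOfBilin_apply B η ξ
  have h2 := (Complex.continuous_conj.tendsto _).comp (hg η ξ)
  rw [← h1] at h2
  rw [← inner_conj_symm ξ]
  refine h2.congr fun n => ?_
  exact inner_conj_symm _ _

/-- existence of the weak limit (a bounded sesquilinear form) -/
theorem wlim_spec {T : ℕ → H →L[ℂ] H} (hT : Bdd T) (ξ η : H) :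
    Tendsto (fun n => inner ℂ ξ (T n η)) UF (𝓝 (inner ℂ ξ (wlim T η))) := by
  have h := W_exists_wlim hT
  unfold wlim
  rw [dif_pos h]
  exact h.choose_spec ξ η

/-- uniqueness of the weak limit -/
theorem wlim_eq {T : ℕ → H →L[ℂ] H} {S : H →L[ℂ] H}
    (h : ∀ ξ η : H, Tendsto (fun n => inner ℂ ξ (T n η)) UF (𝓝 (inner ℂ ξ (S η)))) :
    wlim T = S := by
  have h' : ∃ S : H →L[ℂ] H, ∀ ξ η : H,
      Tendsto (fun n => inner ℂ ξ (T n η)) UF (𝓝 (inner ℂ ξ (S η))) := ⟨S, h⟩
  unfold wlim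
  rw [dif_pos h']
  ext η
  refine ext_inner_left ℂ fun ξ => ?_
  exact tendsto_nhds_unique (h'.choose_spec ξ η) (h ξ η)

theorem wlim_congr {T T' : ℕ → H →L[ℂ] H} (h : ∀ᶠ n in UF, T n = T' n) : wlim T = wlim T' := by
  have key : ∀ S : H →L[ℂ] H,
      (∀ ξ η : H, Tendsto (fun n => inner ℂ ξ (T n η)) UF (𝓝 (inner ℂ ξ (S η)))) ↔
      (∀ ξ η : H, Tendsto (fun n => inner ℂ ξ (T' n η)) UF (𝓝 (inner ℂ ξ (S η)))) := by
    intro S
    refine forall_congr' fun ξ => forall_congr' fun η => ?_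
    refine tendsto_congr' ?_
    filter_upwards [h] with n hn
    rw [hn]
  by_cases hex : ∃ S : H →L[ℂ] H, ∀ ξ η : H,
      Tendsto (fun n => inner ℂ ξ (T n η)) UF (𝓝 (inner ℂ ξ (S η)))
  · obtain ⟨S, hS⟩ := hex
    rw [wlim_eq hS, wlim_eq ((key S).1 hS)]
  · have hex' : ¬ ∃ S : H →L[ℂ] H, ∀ ξ η : H,
        Tendsto (fun n => inner ℂ ξ (T' n η)) UF (𝓝 (inner ℂ ξ (S η))) := by
      rintro ⟨S, hS⟩
      exact hex ⟨S, (key S).2 hS⟩
    unfold wlim
    rw [dif_neg hex, dif_neg hex']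

theorem wlim_const (S : H →L[ℂ] H) : wlim (fun _ => S) = S :=
  wlim_eq fun _ _ => tendsto_const_nhds

theorem wlim_of_tendsto {T : ℕ → H →L[ℂ] H} {S : H →L[ℂ] H} (h : Tendsto T UF (𝓝 S)) :
    wlim T = S := by
  refine wlim_eq fun ξ η => ?_
  have h1 : Tendsto (fun n => T n η) UF (𝓝 (S η)) :=
    ((ContinuousLinearMap.apply ℂ H η).continuous.tendsto S).comp h
  exact tendsto_const_nhds.inner h1

theorem Bdd.add {T T' : ℕ → H →L[ℂ] H} (h : Bdd T) (h' : Bdd T') :
    Bdd (fun n => T n + T' n) := by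
  obtain ⟨C, hC⟩ := h
  obtain ⟨C', hC'⟩ := h'
  exact ⟨C + C', fun n => (norm_add_le _ _).trans (add_le_add (hC n) (hC' n))⟩

theorem Bdd.sub {T T' : ℕ → H →L[ℂ] H} (h : Bdd T) (h' : Bdd T') :
    Bdd (fun n => T n - T' n) := by
  obtain ⟨C, hC⟩ := h
  obtain ⟨C', hC'⟩ := h'
  exact ⟨C + C', fun n => (norm_sub_le _ _).trans (add_le_add (hC n) (hC' n))⟩

theorem Bdd.smul {T : ℕ → H →L[ℂ] H} (h : Bdd T) (c : ℂ) : Bdd (fun n => c • T n) := by
  obtain ⟨C, hC⟩ := h
  refine ⟨‖c‖ * C, fun n => ?_⟩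
  rw [norm_smul]
  exact mul_le_mul_of_nonneg_left (hC n) (norm_nonneg _)

theorem Bdd.mul {T T' : ℕ → H →L[ℂ] H} (h : Bdd T) (h' : Bdd T') :
    Bdd (fun n => T n * T' n) := by
  obtain ⟨C, hC⟩ := h
  obtain ⟨C', hC'⟩ := h'
  refine ⟨C * C', fun n => (norm_mul_le _ _).trans ?_⟩
  exact mul_le_mul (hC n) (hC' n) (norm_nonneg _) ((norm_nonneg _).trans (hC n))

theorem Bdd.adj {T : ℕ → H →L[ℂ] H} (h : Bdd T) : Bdd (fun n => star (T n)) := by
  obtain ⟨C, hC⟩ := h
  refine ⟨C, fun n => ?_⟩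
  rw [norm_star]
  exact hC n

theorem Bdd.const (S : H →L[ℂ] H) : Bdd (fun _ : ℕ => S) := ⟨‖S‖, fun _ => le_rfl⟩

end Pool.Agent.KKS

end

section

/-!
# W2: algebraic rules and norm bounds for weak limits
-/


open Filter Topology

namespace Pool.Agent.KKS

variable {H : Type*} [NormedAddCommGroup H] [InnerProductSpace ℂ H] [CompleteSpace H]

theorem wlim_add {T T' : ℕ → H →L[ℂ] H} (h : Bdd T) (h' : Bdd T') :
    wlim (fun n => T n + T' n) = wlim T + wlim T' := by
  refine wlim_eq fun ξ η => ?_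
  have := (wlim_spec h ξ η).add (wlim_spec h' ξ η)
  simpa only [add_apply, inner_add_right] using this

theorem wlim_sub {T T' : ℕ → H →L[ℂ] H} (h : Bdd T) (h' : Bdd T') :
    wlim (fun n => T n - T' n) = wlim T - wlim T' := by
  refine wlim_eq fun ξ η => ?_
  have := (wlim_spec h ξ η).sub (wlim_spec h' ξ η)
  simpa only [sub_apply, inner_sub_right] using this

theorem wlim_smul {T : ℕ → H →L[ℂ] H} (h : Bdd T) (c : ℂ) :
    wlim (fun n => c • T n) = c • wlim T := by
  refine wlim_eq fun ξ η => ?_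
  have := (wlim_spec h ξ η).const_mul c
  simpa only [smul_apply, inner_smul_right] using this

private theorem W2_inner_star (S : H →L[ℂ] H) (ξ η : H) :
    inner ℂ ξ ((star S) η) = (starRingEnd ℂ) (inner ℂ η (S ξ)) := by
  rw [ContinuousLinearMap.star_eq_adjoint, ContinuousLinearMap.adjoint_inner_right,
    inner_conj_symm]

theorem wlim_star {T : ℕ → H →L[ℂ] H} (h : Bdd T) :
    wlim (fun n => star (T n)) = star (wlim T) := by
  refine wlim_eq fun ξ η => ?_
  have h1 := (wlim_spec h η ξ)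
  have h2 := (Complex.continuous_conj.tendsto _).comp h1
  simp only [W2_inner_star]
  exact h2

theorem wlim_mul_left {T : ℕ → H →L[ℂ] H} (h : Bdd T) (a : H →L[ℂ] H) :
    wlim (fun n => a * T n) = a * wlim T := by
  refine wlim_eq fun ξ η => ?_
  have h1 := wlim_spec h (star a ξ) η
  have h2 : ∀ S : H →L[ℂ] H, inner ℂ (star a ξ) (S η) = inner ℂ ξ ((a * S) η) := by
    intro S
    rw [ContinuousLinearMap.star_eq_adjoint, ContinuousLinearMap.adjoint_inner_left]
    rfl
  simpa only [h2] using h1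

theorem wlim_mul_right {T : ℕ → H →L[ℂ] H} (h : Bdd T) (a : H →L[ℂ] H) :
    wlim (fun n => T n * a) = wlim T * a := by
  refine wlim_eq fun ξ η => ?_
  exact wlim_spec h ξ (a η)

theorem wlim_finsum {ι : Type*} (s : Finset ι) {T : ι → ℕ → H →L[ℂ] H} (h : ∀ i, Bdd (T i)) :
    wlim (fun n => ∑ i ∈ s, T i n) = ∑ i ∈ s, wlim (T i) := by
  refine wlim_eq fun ξ η => ?_
  have h1 := tendsto_finsetSum s (fun i _ => wlim_spec (h i) ξ η)
  simpa only [sum_apply, inner_sum] using h1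

private theorem W2_norm_le {ξ : H} {x : ℕ → H} {C : ℝ}
    (h : Tendsto (fun n => inner ℂ ξ (x n)) UF (𝓝 (inner ℂ ξ ξ)))
    (hC : ∀ᶠ n in UF, ‖x n‖ ≤ C) : ‖ξ‖ ≤ C := by
  have h1 : ‖(inner ℂ ξ ξ : ℂ)‖ ≤ ‖ξ‖ * C := by
    refine le_of_tendsto h.norm ?_
    filter_upwards [hC] with n hn
    exact (norm_inner_le_norm _ _).trans (mul_le_mul_of_nonneg_left hn (norm_nonneg _))
  rw [inner_self_eq_norm_sq_to_K, norm_pow, RCLike.norm_ofReal, abs_of_nonneg (norm_nonneg _)] at h1
  rcases (norm_nonneg ξ).eq_or_lt with h0 | h0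
  · rw [← h0]
    obtain ⟨n, hn⟩ := hC.exists
    exact (norm_nonneg _).trans hn
  · rw [sq] at h1
    exact le_of_mul_le_mul_left h1 h0

theorem norm_wlim_sub_le {T : ℕ → H →L[ℂ] H} (hT : Bdd T) {S : H →L[ℂ] H} {C : ℝ}
    (h : ∀ᶠ n in UF, ‖T n - S‖ ≤ C) : ‖wlim T - S‖ ≤ C := by
  have hC : 0 ≤ C := by
    obtain ⟨n, hn⟩ := h.exists
    exact (norm_nonneg _).trans hn
  refine ContinuousLinearMap.opNorm_le_bound _ hC fun η => ?_
  refine W2_norm_le (x := fun n => (T n - S) η) ?_ ?_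
  · have h1 := (wlim_spec hT ((wlim T - S) η) η).sub_const (inner ℂ ((wlim T - S) η) (S η))
    simpa only [sub_apply, inner_sub_right] using h1
  · filter_upwards [h] with n hn
    exact (ContinuousLinearMap.le_opNorm _ _).trans
      (mul_le_mul_of_nonneg_right hn (norm_nonneg _))

/-- the bound for a bounded sequence (`norm_wlim_sub_le` with `S = 0`) -/
theorem norm_wlim_le {T : ℕ → H →L[ℂ] H} {C : ℝ} (h : ∀ n, ‖T n‖ ≤ C) : ‖wlim T‖ ≤ C := by
  have h1 := norm_wlim_sub_le (S := 0) ⟨C, h⟩ (C := C)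
    (Filter.Eventually.of_forall fun n => by simpa using h n)
  simpa using h1

end Pool.Agent.KKS

end

section

/-!
# W3: weak limits: membership, positivity
-/


open Filter Topology

namespace Pool.Agent.KKS

variable {H : Type*} [NormedAddCommGroup H] [InnerProductSpace ℂ H] [CompleteSpace H]

/-- commutation passes to weak limits -/
theorem wlim_comm {T : ℕ → H →L[ℂ] H} (hT : Bdd T) {S : H →L[ℂ] H}
    (h : ∀ᶠ n in UF, T n * S = S * T n) : wlim T * S = S * wlim T := by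
  rw [← wlim_mul_right hT, ← wlim_mul_left hT]
  exact wlim_congr h

/-- von Neumann algebras are closed under weak limits -/
theorem wlim_mem (R : VonNeumannAlgebra H) {T : ℕ → H →L[ℂ] H} (hT : Bdd T)
    (h : ∀ᶠ n in UF, T n ∈ R) : wlim T ∈ R := by
  refine mem_of_comm fun S hS => (wlim_comm hT ?_).symm
  filter_upwards [h] with n hn
  exact (hS _ hn).symm

theorem norm_wlim_apply_le {T : ℕ → H →L[ℂ] H} (hT : Bdd T) (ξ : H) {C : ℝ}
    (h : ∀ᶠ n in UF, ‖T n ξ‖ ≤ C) : ‖wlim T ξ‖ ≤ C := by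
  have h0 := wlim_spec hT (wlim T ξ) ξ
  have h1 : ‖(inner ℂ (wlim T ξ) (wlim T ξ) : ℂ)‖ ≤ ‖wlim T ξ‖ * C := by
    refine le_of_tendsto h0.norm ?_
    filter_upwards [h] with n hn
    exact (norm_inner_le_norm _ _).trans (mul_le_mul_of_nonneg_left hn (norm_nonneg _))
  rw [inner_self_eq_norm_sq_to_K, norm_pow, RCLike.norm_ofReal, abs_of_nonneg (norm_nonneg _)] at h1
  rcases (norm_nonneg (wlim T ξ)).eq_or_lt with h2 | h2
  · rw [← h2]
    obtain ⟨n, hn⟩ := h.exists
    exact (norm_nonneg _).trans hn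
  · rw [sq] at h1
    exact le_of_mul_le_mul_left h1 h2

theorem wlim_nonneg {T : ℕ → H →L[ℂ] H} (hT : Bdd T) (h : ∀ᶠ n in UF, 0 ≤ T n) :
    0 ≤ wlim T := by
  rw [ContinuousLinearMap.nonneg_iff_isPositive, ContinuousLinearMap.isPositive_iff_complex]
  intro x
  have h1 := wlim_spec hT x x
  have h2 : Tendsto (fun n => (inner ℂ (T n x) x : ℂ)) UF (𝓝 (inner ℂ (wlim T x) x)) := by
    have := (Complex.continuous_conj.tendsto _).comp h1
    simpa only [Function.comp_def, inner_conj_symm] using this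
  have h3 : ∀ᶠ n in UF, (((RCLike.re (inner ℂ (T n x) x : ℂ) : ℝ) : ℂ)) = inner ℂ (T n x) x ∧
      0 ≤ RCLike.re (inner ℂ (T n x) x : ℂ) := by
    filter_upwards [h] with n hn
    rw [ContinuousLinearMap.nonneg_iff_isPositive, ContinuousLinearMap.isPositive_iff_complex] at hn
    exact hn x
  have h4 : Tendsto (fun n => RCLike.re (inner ℂ (T n x) x : ℂ)) UF
      (𝓝 (RCLike.re (inner ℂ (wlim T x) x : ℂ))) := (RCLike.continuous_re.tendsto _).comp h2
  constructor
  · refine tendsto_nhds_unique (f := fun n => (inner ℂ (T n x) x : ℂ)) ?_ h2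
    have h5 : Tendsto (fun n => ((RCLike.re (inner ℂ (T n x) x : ℂ) : ℝ) : ℂ)) UF
        (𝓝 (((RCLike.re (inner ℂ (wlim T x) x : ℂ) : ℝ) : ℂ))) :=
      (Complex.continuous_ofReal.tendsto _).comp h4
    refine h5.congr' ?_
    filter_upwards [h3] with n hn
    exact hn.1
  · refine ge_of_tendsto h4 ?_
    filter_upwards [h3] with n hn
    exact hn.2

/-- Kadison-Schwarz for weak limits -/
theorem wlim_mul_star_le {T : ℕ → H →L[ℂ] H} (hT : Bdd T) :
    wlim T * star (wlim T) ≤ wlim (fun n => T n * star (T n)) := by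
  rw [← sub_nonneg]
  have h1 : ∀ n, (T n - wlim T) * star (T n - wlim T) =
      T n * star (T n) - T n * star (wlim T) - (wlim T * star (T n) - wlim T * star (wlim T)) := by
    intro n
    rw [star_sub]
    noncomm_ring
  have h2 : Bdd fun n => T n * star (T n) := hT.mul hT.adj
  have h3 : Bdd fun n => T n * star (wlim T) := hT.mul (Bdd.const _)
  have h4 : Bdd fun n => wlim T * star (T n) := (Bdd.const (wlim T)).mul hT.adj
  have h5 : Bdd fun n => wlim T * star (T n) - wlim T * star (wlim T) := h4.sub (Bdd.const _)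
  have h6 : wlim (fun n => (T n - wlim T) * star (T n - wlim T)) =
      wlim (fun n => T n * star (T n)) - wlim T * star (wlim T) := by
    simp only [h1]
    rw [wlim_sub (h2.sub h3) h5, wlim_sub h2 h3, wlim_sub h4 (Bdd.const _), wlim_const,
      wlim_mul_right hT, wlim_mul_left hT.adj, wlim_star hT, sub_self, sub_zero]
  rw [← h6]
  refine wlim_nonneg ?_ (Filter.Eventually.of_forall fun n => mul_star_self_nonneg _)
  simp only [h1]
  exact (h2.sub h3).sub h5

end Pool.Agent.KKS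

end

section

/-!
# Tr: projections, tracial states
-/


open Filter Topology

namespace Pool.Agent.KKS

variable {H : Type*} [NormedAddCommGroup H] [InnerProductSpace ℂ H] [CompleteSpace H]

/-- projections -/
structure PJ (e : H →L[ℂ] H) : Prop where
  idem : e * e = e
  sa : star e = e

theorem PJ.nonneg {e : H →L[ℂ] H} (h : PJ e) : 0 ≤ e := by
  have h1 := star_mul_self_nonneg e
  rwa [h.sa, h.idem] at h1

theorem PJ.norm_le {e : H →L[ℂ] H} (h : PJ e) : ‖e‖ ≤ 1 := by
  have h1 := CStarRing.norm_star_mul_self (x := e)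
  rw [h.sa, h.idem] at h1
  nlinarith [norm_nonneg e]

theorem PJ.compl {e : H →L[ℂ] H} (h : PJ e) : PJ (1 - e) := by
  constructor
  · have h1 := h.idem
    calc (1 - e) * (1 - e) = 1 - e - e + e * e := by noncomm_ring
      _ = 1 - e := by rw [h1]; abel
  · rw [star_sub, star_one, h.sa]

/-- the product of commuting projections -/
theorem PJ.mul {e p : H →L[ℂ] H} (h : PJ e) (hp : PJ p) (hc : e * p = p * e) : PJ (e * p) := by
  constructor
  · calc e * p * (e * p) = e * (p * e) * p := by noncomm_ring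
      _ = (e * e) * (p * p) := by rw [← hc]; noncomm_ring
      _ = e * p := by rw [h.idem, hp.idem]
  · rw [star_mul, h.sa, hp.sa, hc]

theorem PJ.add {e p : H →L[ℂ] H} (h : PJ e) (hp : PJ p) (hc : e * p = 0) : PJ (e + p) := by
  have hc' : p * e = 0 := by
    have := congrArg star hc
    rwa [star_mul, h.sa, hp.sa, star_zero] at this
  constructor
  · calc (e + p) * (e + p) = e * e + e * p + p * e + p * p := by noncomm_ring
      _ = e + p := by rw [hc, hc', h.idem, hp.idem]; abel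
  · rw [star_add, h.sa, hp.sa]

theorem PJ.sub {e p : H →L[ℂ] H} (h : PJ e) (hp : PJ p) (hc : e * p = p) : PJ (e - p) := by
  have hc' : p * e = p := by
    have := congrArg star hc
    rwa [star_mul, h.sa, hp.sa] at this
  constructor
  · calc (e - p) * (e - p) = e * e - e * p - p * e + p * p := by noncomm_ring
      _ = e - p := by rw [hc, hc', h.idem, hp.idem]; abel
  · rw [star_sub, h.sa, hp.sa]

/-- a partial isometry: if `v⋆ v` is a projection then so is `v v⋆`, and `v v⋆ v = v` -/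
theorem PJ.pi {v : H →L[ℂ] H} (h : PJ (star v * v)) : v * (star v * v) = v ∧ PJ (v * star v) := by
  have h1 : star (v - v * (star v * v)) * (v - v * (star v * v)) = 0 := by
    have h2 := h.idem
    rw [star_sub, star_mul, star_mul, star_star]
    calc (star v - star v * v * star v) * (v - v * (star v * v))
        = star v * v - (star v * v) * (star v * v) - (star v * v) * (star v * v) +
          (star v * v) * (star v * v) * (star v * v) := by noncomm_ring
      _ = 0 := by rw [h2, h2]; abel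
  have h3 : v * (star v * v) = v := by
    have := (CStarRing.star_mul_self_eq_zero_iff _).1 h1
    rw [sub_eq_zero] at this
    exact this.symm
  refine ⟨h3, ?_, ?_⟩
  · calc v * star v * (v * star v) = (v * (star v * v)) * star v := by noncomm_ring
      _ = v * star v := by rw [h3]
  · rw [star_mul, star_star]

variable {R : VonNeumannAlgebra H} {τ : (H →L[ℂ] H) → ℂ}

theorem IsTrace.of_le (h : IsTrace R τ) {S : VonNeumannAlgebra H} (hS : ∀ x ∈ S, x ∈ R) :
    IsTrace S τ := by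
  obtain ⟨ξ, h1, h2⟩ := h.normal
  exact ⟨⟨ξ, h1, fun x hx => h2 x (hS x hx)⟩, h.one,
    fun x hx y hy => h.tracial x (hS x hx) y (hS y hy), fun x hx => h.faithful x (hS x hx)⟩

private theorem Tr_bound (ξ : H) (x : H →L[ℂ] H) : ‖inner ℂ ξ (x ξ)‖ ≤ ‖x‖ * ‖ξ‖ ^ 2 := by
  calc ‖inner ℂ ξ (x ξ)‖ ≤ ‖ξ‖ * ‖x ξ‖ := norm_inner_le_norm _ _
    _ ≤ ‖ξ‖ * (‖x‖ * ‖ξ‖) := by
      gcongr
      exact x.le_opNorm ξ
    _ = ‖x‖ * ‖ξ‖ ^ 2 := by ring

private theorem Tr_summable {ξ : ℕ → H} (h : Summable (fun i => ‖ξ i‖ ^ 2)) (x : H →L[ℂ] H) :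
    Summable (fun i => inner ℂ (ξ i) (x (ξ i))) :=
  Summable.of_norm_bounded (h.mul_left ‖x‖) fun i => Tr_bound (ξ i) x

private theorem Tr_smul_mem {x : H →L[ℂ] H} (c : ℂ) (hx : x ∈ R) : c • x ∈ R := by
  have h1 : x ∈ R.toStarSubalgebra := hx
  have h2 : c • x ∈ R.toStarSubalgebra := R.toStarSubalgebra.toSubalgebra.smul_mem h1 c
  exact h2

theorem IsTrace.add (h : IsTrace R τ) {x y : H →L[ℂ] H} (hx : x ∈ R) (hy : y ∈ R) :
    τ (x + y) = τ x + τ y := by
  obtain ⟨ξ, h1, h2⟩ := h.normal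
  rw [h2 _ (add_mem hx hy), h2 x hx, h2 y hy, ← (Tr_summable h1 x).tsum_add (Tr_summable h1 y)]
  refine tsum_congr fun i => ?_
  rw [ContinuousLinearMap.add_apply, inner_add_right]

theorem IsTrace.smul (h : IsTrace R τ) (c : ℂ) {x : H →L[ℂ] H} (hx : x ∈ R) :
    τ (c • x) = c * τ x := by
  obtain ⟨ξ, h1, h2⟩ := h.normal
  rw [h2 _ (Tr_smul_mem c hx), h2 x hx, ← tsum_mul_left]
  refine tsum_congr fun i => ?_
  rw [ContinuousLinearMap.smul_apply, inner_smul_right]

theorem IsTrace.sub (h : IsTrace R τ) {x y : H →L[ℂ] H} (hx : x ∈ R) (hy : y ∈ R) :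
    τ (x - y) = τ x - τ y := by
  have h1 : x - y = x + (-1 : ℂ) • y := by rw [neg_one_smul]; abel
  rw [h1, h.add hx (Tr_smul_mem _ hy), h.smul _ hy]
  ring

theorem IsTrace.zero (h : IsTrace R τ) : τ 0 = 0 := by
  have h1 := h.sub (x := 0) (y := 0) (zero_mem _) (zero_mem _)
  rwa [sub_zero, sub_self] at h1

theorem IsTrace.sum (h : IsTrace R τ) {ι : Type*} (s : Finset ι) {x : ι → H →L[ℂ] H}
    (hx : ∀ i ∈ s, x i ∈ R) : τ (∑ i ∈ s, x i) = ∑ i ∈ s, τ (x i) := by
  classical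
  induction s using Finset.induction_on with
  | empty => simpa using h.zero
  | insert a s ha ih =>
    rw [Finset.sum_insert ha, Finset.sum_insert ha, h.add (hx a (Finset.mem_insert_self _ _))
      (sum_mem fun i hi => hx i (Finset.mem_insert_of_mem hi)),
      ih fun i hi => hx i (Finset.mem_insert_of_mem hi)]

theorem IsTrace.conj (h : IsTrace R τ) {x : H →L[ℂ] H} (hx : x ∈ R) :
    τ (star x) = starRingEnd ℂ (τ x) := by
  obtain ⟨ξ, h1, h2⟩ := h.normal
  rw [h2 _ (star_mem hx), h2 x hx, Complex.conj_tsum]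
  refine tsum_congr fun i => ?_
  rw [inner_conj_symm, ContinuousLinearMap.star_eq_adjoint,
    ContinuousLinearMap.adjoint_inner_right]

/-- the trace of a positive element is a nonnegative real number -/
theorem IsTrace.nonneg (h : IsTrace R τ) {x : H →L[ℂ] H} (hx : x ∈ R) (h0 : 0 ≤ x) :
    0 ≤ (τ x).re ∧ τ x = ((τ x).re : ℂ) := by
  obtain ⟨ξ, h1, h2⟩ := h.normal
  have h3 := (ContinuousLinearMap.nonneg_iff_isPositive x).1 h0
  have h4 : ∀ i, inner ℂ (ξ i) (x (ξ i)) = (((inner ℂ (ξ i) (x (ξ i))).re : ℝ) : ℂ) := by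
    intro i
    have h5 := h3.inner_nonneg_right (ξ i)
    rw [Complex.le_def] at h5
    apply Complex.ext
    · rw [Complex.ofReal_re]
    · rw [Complex.ofReal_im]
      exact h5.2.symm
  have h5 : τ x = ((∑' i, (inner ℂ (ξ i) (x (ξ i))).re : ℝ) : ℂ) := by
    rw [h2 x hx, Complex.ofReal_tsum]
    exact tsum_congr h4
  have h6 : (τ x).re = ∑' i, (inner ℂ (ξ i) (x (ξ i))).re := by
    rw [h5, Complex.ofReal_re]
  refine ⟨?_, ?_⟩
  · rw [h6]
    refine tsum_nonneg fun i => ?_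
    have h7 := h3.inner_nonneg_right (ξ i)
    rw [Complex.le_def] at h7
    exact h7.1
  · rw [h6]
    exact h5

theorem IsTrace.mono (h : IsTrace R τ) {x y : H →L[ℂ] H} (hx : x ∈ R) (hy : y ∈ R)
    (hxy : x ≤ y) : (τ x).re ≤ (τ y).re := by
  have h1 := (h.nonneg (sub_mem hy hx) (sub_nonneg.2 hxy)).1
  rw [h.sub hy hx, Complex.sub_re] at h1
  linarith

theorem IsTrace.norm_le (h : IsTrace R τ) {x : H →L[ℂ] H} (hx : x ∈ R) : ‖τ x‖ ≤ ‖x‖ := by
  obtain ⟨ξ, h1, h2⟩ := h.normal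
  have h3 : ∑' i, ‖ξ i‖ ^ 2 = 1 := by
    have h4 := h2 1 (one_mem _)
    rw [h.one] at h4
    have h5 : ((∑' i, ‖ξ i‖ ^ 2 : ℝ) : ℂ) = 1 := by
      rw [h4, Complex.ofReal_tsum]
      refine tsum_congr fun i => ?_
      rw [ContinuousLinearMap.one_apply, inner_self_eq_norm_sq_to_K]
      push_cast
      rfl
    exact_mod_cast h5
  rw [h2 x hx]
  calc ‖∑' i, inner ℂ (ξ i) (x (ξ i))‖ ≤ ∑' i, ‖x‖ * ‖ξ i‖ ^ 2 :=
        tsum_of_norm_bounded (h1.mul_left ‖x‖).hasSum fun i => Tr_bound (ξ i) x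
    _ = ‖x‖ := by rw [tsum_mul_left, h3, mul_one]

/-- a positive element of trace 0 is 0 -/
theorem IsTrace.eq_zero (h : IsTrace R τ) {x : H →L[ℂ] H} (hx : x ∈ R) (h0 : 0 ≤ x)
    (ht : (τ x).re = 0) : x = 0 := by
  set y : H →L[ℂ] H := CFC.sqrt x with hy
  have hyy : y * y = x := CFC.sqrt_mul_sqrt_self x h0
  have hys : star y = y := (IsSelfAdjoint.of_nonneg (CFC.sqrt_nonneg x)).star_eq
  have hyR : y ∈ R := by
    apply mem_of_comm
    intro S hS
    have h1 : Commute x S := (hS x hx).symm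
    exact (Commute.cfcₙ_nnreal h1 NNReal.sqrt).symm
  have h1 : τ (star y * y) = 0 := by
    rw [hys, hyy, (h.nonneg hx h0).2, ht, Complex.ofReal_zero]
  have h2 := h.faithful y hyR h1
  rw [← hyy, h2, mul_zero]

/-- `v⋆ v` and `v v⋆` have the same trace -/
theorem IsTrace.swap (h : IsTrace R τ) {v : H →L[ℂ] H} (hv : v ∈ R) :
    τ (star v * v) = τ (v * star v) := h.tracial _ (star_mem hv) _ hv

end Pool.Agent.KKS

end

section

/-!
# Tr2: continuity of the trace
-/


open Filter Topology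

namespace Pool.Agent.KKS

variable {H : Type*} [NormedAddCommGroup H] [InnerProductSpace ℂ H] [CompleteSpace H]

variable {R : VonNeumannAlgebra H} {τ : (H →L[ℂ] H) → ℂ}

/-- (W5) the trace is continuous for weak limits of bounded sequences -/
theorem IsTrace.lim (h : IsTrace R τ) {T : ℕ → H →L[ℂ] H} (hT : Bdd T) (hm : ∀ n, T n ∈ R) :
    Tendsto (fun n => τ (T n)) UF (𝓝 (τ (wlim T))) := by
  obtain ⟨ξ, h1, h2⟩ := h.normal
  have hw : wlim T ∈ R := wlim_mem R hT (Eventually.of_forall hm)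
  obtain ⟨C, hC⟩ := hT
  have h3 : (fun n => τ (T n)) = fun n => ∑' i, inner ℂ (ξ i) (T n (ξ i)) := by
    funext n
    exact h2 _ (hm n)
  rw [h3, h2 _ hw]
  apply tendsto_tsum_of_dominated_convergence (bound := fun i => C * ‖ξ i‖ ^ 2) (h1.mul_left C)
  · intro i
    exact wlim_spec ⟨C, hC⟩ (ξ i) (ξ i)
  · refine Eventually.of_forall fun n i => ?_
    calc ‖inner ℂ (ξ i) (T n (ξ i))‖ ≤ ‖ξ i‖ * ‖T n (ξ i)‖ := norm_inner_le_norm _ _
      _ ≤ ‖ξ i‖ * (‖T n‖ * ‖ξ i‖) := by
        gcongr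
        exact (T n).le_opNorm (ξ i)
      _ ≤ ‖ξ i‖ * (C * ‖ξ i‖) := by
        gcongr
        exact hC n
      _ = C * ‖ξ i‖ ^ 2 := by ring

/-- (W6) -/
theorem IsTrace.lim_eq_zero (h : IsTrace R τ) {T : ℕ → H →L[ℂ] H} (hT : Bdd T)
    (hm : ∀ n, T n ∈ R) (h0 : ∀ n, 0 ≤ T n) (hl : Tendsto (fun n => (τ (T n)).re) UF (𝓝 0)) :
    Pool.Agent.KKS.wlim T = 0 := by
  apply h.eq_zero (wlim_mem R hT (Eventually.of_forall hm))
    (wlim_nonneg hT (Eventually.of_forall h0))
  have h1 := (Complex.continuous_re.tendsto _).comp (h.lim hT hm)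
  exact tendsto_nhds_unique h1 hl

/-- bounded sequences which converge to `0` in 2-norm converge strongly -/
theorem IsTrace.strong_zero (h : IsTrace R τ) {x : ℕ → H →L[ℂ] H} (hT : Bdd x)
    (hm : ∀ n, x n ∈ R) (hl : Tendsto (fun n => (τ (star (x n) * x n)).re) UF (𝓝 0)) (ξ : H) :
    Tendsto (fun n => ‖x n ξ‖) UF (𝓝 0) := by
  have hb : Bdd (fun n => star (x n) * x n) := hT.adj.mul hT
  have h1 := h.lim_eq_zero hb (fun n => mul_mem (star_mem (hm n)) (hm n))
    (fun n => star_mul_self_nonneg (x n)) hl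
  have h2 := wlim_spec hb ξ ξ
  rw [h1] at h2
  have h3 : (fun n => inner ℂ ξ ((star (x n) * x n) ξ)) = fun n => ((‖x n ξ‖ ^ 2 : ℝ) : ℂ) := by
    funext n
    change inner ℂ ξ (star (x n) (x n ξ)) = _
    rw [ContinuousLinearMap.star_eq_adjoint, ContinuousLinearMap.adjoint_inner_right,
      inner_self_eq_norm_sq_to_K]
    push_cast
    rfl
  rw [h3] at h2
  have h4 : inner ℂ ξ ((0 : H →L[ℂ] H) ξ) = ((0 : ℝ) : ℂ) := by simp
  rw [h4] at h2
  have h5 : Tendsto (fun n => ‖x n ξ‖ ^ 2) UF (𝓝 0) := by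
    have := (Complex.continuous_re.tendsto _).comp h2
    rw [Complex.ofReal_re] at this
    exact this.congr fun n => Complex.ofReal_re _
  have h6 := (Real.continuous_sqrt.tendsto 0).comp h5
  rw [Real.sqrt_zero] at h6
  refine h6.congr fun n => ?_
  exact Real.sqrt_sq (norm_nonneg _)

end Pool.Agent.KKS

end

section

/-!
# Tr3: the 2-norm
-/


open Filter Topology

namespace Pool.Agent.KKS

variable {H : Type*} [NormedAddCommGroup H] [InnerProductSpace ℂ H] [CompleteSpace H]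

variable {R : VonNeumannAlgebra H} {τ : (H →L[ℂ] H) → ℂ}

/-- the 2-norm `‖x‖₂ = τ (x x⋆) ^ (1/2)` -/
noncomputable def n2 (τ : (H →L[ℂ] H) → ℂ) (x : H →L[ℂ] H) : ℝ := Real.sqrt (τ (x * star x)).re

theorem n2_nonneg (x : H →L[ℂ] H) : 0 ≤ n2 τ x := Real.sqrt_nonneg _

private theorem Tr3_smul_mem {x : H →L[ℂ] H} (c : ℂ) (hx : x ∈ R) : c • x ∈ R := by
  have h1 : x ∈ R.toStarSubalgebra := hx
  have h2 : c • x ∈ R.toStarSubalgebra := R.toStarSubalgebra.toSubalgebra.smul_mem h1 c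
  exact h2

theorem IsTrace.n2_sq (h : IsTrace R τ) {x : H →L[ℂ] H} (hx : x ∈ R) :
    τ (x * star x) = ((n2 τ x) ^ 2 : ℝ) := by
  obtain ⟨h1, h2⟩ := h.nonneg (mul_mem hx (star_mem hx)) (mul_star_self_nonneg x)
  rw [n2, Real.sq_sqrt h1]
  exact h2

theorem IsTrace.n2_eq_zero (h : IsTrace R τ) {x : H →L[ℂ] H} (hx : x ∈ R) (h0 : n2 τ x = 0) :
    x = 0 := by
  have h1 := h.n2_sq hx
  rw [h0] at h1
  have h2 : τ (star (star x) * star x) = 0 := by
    rw [star_star, h1]
    simp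
  have h3 := h.faithful _ (star_mem hx) h2
  have h4 := congrArg star h3
  rwa [star_star, star_zero] at h4

/-- Cauchy-Schwarz -/
theorem IsTrace.cs (h : IsTrace R τ) {x y : H →L[ℂ] H} (hx : x ∈ R) (hy : y ∈ R) :
    ‖τ (x * star y)‖ ≤ n2 τ x * n2 τ y := by
  rcases (n2_nonneg (τ := τ) y).eq_or_lt with h0 | h0
  · have h1 := h.n2_eq_zero hy h0.symm
    rw [h1, star_zero, mul_zero, h.zero, norm_zero]
    exact mul_nonneg (n2_nonneg _) (n2_nonneg _)
  · set w : ℂ := τ (x * star y) with hw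
    set A : ℝ := n2 τ x with hA
    set B : ℝ := n2 τ y with hB
    set c : ℂ := w / ((B ^ 2 : ℝ) : ℂ) with hc
    have hBC : ((B ^ 2 : ℝ) : ℂ) ≠ 0 := by
      rw [Complex.ofReal_ne_zero]
      positivity
    have hyx : τ (y * star x) = starRingEnd ℂ w := by
      rw [hw, ← h.conj (mul_mem hx (star_mem hy)), star_mul, star_star]
    have hxx := h.n2_sq hx
    have hyy := h.n2_sq hy
    have hexp : (x - c • y) * star (x - c • y) =
        x * star x - starRingEnd ℂ c • (x * star y) - c • (y * star x) +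
          (c * starRingEnd ℂ c) • (y * star y) := by
      rw [star_sub, star_smul, sub_mul, mul_sub, mul_sub, mul_smul_comm, smul_mul_assoc,
        smul_mul_smul_comm]
      simp only [Complex.star_def]
      abel
    have m1 : x * star x ∈ R := mul_mem hx (star_mem hx)
    have m2 : starRingEnd ℂ c • (x * star y) ∈ R := Tr3_smul_mem _ (mul_mem hx (star_mem hy))
    have m3 : c • (y * star x) ∈ R := Tr3_smul_mem _ (mul_mem hy (star_mem hx))
    have m4 : (c * starRingEnd ℂ c) • (y * star y) ∈ R :=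
      Tr3_smul_mem _ (mul_mem hy (star_mem hy))
    have m5 : x - c • y ∈ R := sub_mem hx (Tr3_smul_mem _ hy)
    have htr : τ ((x - c • y) * star (x - c • y)) = ((A ^ 2 - ‖w‖ ^ 2 / B ^ 2 : ℝ) : ℂ) := by
      rw [hexp, h.add (sub_mem (sub_mem m1 m2) m3) m4, h.sub (sub_mem m1 m2) m3, h.sub m1 m2,
        h.smul _ (mul_mem hx (star_mem hy)), h.smul _ (mul_mem hy (star_mem hx)),
        h.smul _ (mul_mem hy (star_mem hy)), hxx, hyy, ← hw, hyx, hc, map_div₀,
        Complex.conj_ofReal]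
      have hn : ((‖w‖ ^ 2 : ℝ) : ℂ) = w * starRingEnd ℂ w := by
        rw [Complex.mul_conj, Complex.normSq_eq_norm_sq]
      rw [Complex.ofReal_sub, Complex.ofReal_div, hn]
      field_simp
      ring
    have hpos := (h.nonneg (mul_mem m5 (star_mem m5)) (mul_star_self_nonneg _)).1
    rw [htr, Complex.ofReal_re] at hpos
    have h2 : ‖w‖ ^ 2 ≤ (A * B) ^ 2 := by
      have h3 : ‖w‖ ^ 2 / B ^ 2 ≤ A ^ 2 := by linarith
      rw [div_le_iff₀ (by positivity)] at h3
      nlinarith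
    exact abs_le_of_sq_le_sq' h2 (mul_nonneg (n2_nonneg _) (n2_nonneg _)) |>.2

theorem IsTrace.n2_add_le (h : IsTrace R τ) {x y : H →L[ℂ] H} (hx : x ∈ R) (hy : y ∈ R) :
    n2 τ (x + y) ≤ n2 τ x + n2 τ y := by
  have hsq : n2 τ (x + y) ^ 2 ≤ (n2 τ x + n2 τ y) ^ 2 := by
    have h1 := h.n2_sq (add_mem hx hy)
    have hexp : (x + y) * star (x + y) = x * star x + x * star y + y * star x + y * star y := by
      rw [star_add]
      noncomm_ring
    have hyx : τ (y * star x) = starRingEnd ℂ (τ (x * star y)) := by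
      rw [← h.conj (mul_mem hx (star_mem hy)), star_mul, star_star]
    have m1 : x * star x ∈ R := mul_mem hx (star_mem hx)
    have m2 : x * star y ∈ R := mul_mem hx (star_mem hy)
    have m3 : y * star x ∈ R := mul_mem hy (star_mem hx)
    have m4 : y * star y ∈ R := mul_mem hy (star_mem hy)
    rw [hexp, h.add (add_mem (add_mem m1 m2) m3) m4, h.add (add_mem m1 m2) m3, h.add m1 m2,
      h.n2_sq hx, h.n2_sq hy, hyx] at h1
    have h2 := congrArg Complex.re h1
    simp only [Complex.add_re, Complex.ofReal_re, Complex.conj_re] at h2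
    have h3 := h.cs hx hy
    have h4 := Complex.re_le_norm (τ (x * star y))
    nlinarith
  exact abs_le_of_sq_le_sq' hsq (add_nonneg (n2_nonneg _) (n2_nonneg _)) |>.2

theorem IsTrace.n2_sub_le (h : IsTrace R τ) {x y z : H →L[ℂ] H} (hx : x ∈ R) (hy : y ∈ R)
    (hz : z ∈ R) : n2 τ (x - z) ≤ n2 τ (x - y) + n2 τ (y - z) := by
  have h1 := h.n2_add_le (sub_mem hx hy) (sub_mem hy hz)
  rwa [sub_add_sub_cancel] at h1

theorem IsTrace.n2_smul (h : IsTrace R τ) (c : ℂ) {x : H →L[ℂ] H} (hx : x ∈ R) :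
    n2 τ (c • x) = ‖c‖ * n2 τ x := by
  have h1 : (c • x) * star (c • x) = (c * starRingEnd ℂ c) • (x * star x) := by
    rw [star_smul, smul_mul_smul_comm]
    rfl
  rw [n2, h1, h.smul _ (mul_mem hx (star_mem hx)), h.n2_sq hx, Complex.mul_conj,
    ← Complex.ofReal_mul, Complex.ofReal_re, Complex.normSq_eq_norm_sq, ← mul_pow]
  exact Real.sqrt_sq (mul_nonneg (norm_nonneg _) (n2_nonneg _))

theorem IsTrace.n2_star (h : IsTrace R τ) {x : H →L[ℂ] H} (hx : x ∈ R) :
    n2 τ (star x) = n2 τ x := by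
  rw [n2, n2, star_star, h.swap hx]

theorem IsTrace.n2_mul_left (h : IsTrace R τ) {a x : H →L[ℂ] H} (ha : a ∈ R) (hx : x ∈ R) :
    n2 τ (a * x) ≤ ‖a‖ * n2 τ x := by
  have m1 : a * x ∈ R := mul_mem ha hx
  have hsq : n2 τ (a * x) ^ 2 ≤ (‖a‖ * n2 τ x) ^ 2 := by
    have h1 : (τ ((a * x) * star (a * x))).re = n2 τ (a * x) ^ 2 := by
      rw [h.n2_sq m1, Complex.ofReal_re]
    have h2 : τ ((a * x) * star (a * x)) = τ (star x * (star a * a) * x) := by
      rw [h.tracial _ m1 _ (star_mem m1), star_mul]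
      congr 1
    have h3 := CStarAlgebra.star_left_conjugate_le_norm_smul (a := x) (b := star a * a)
      (hb := IsSelfAdjoint.star_mul_self a)
    have m2 : star x * (star a * a) * x ∈ R :=
      mul_mem (mul_mem (star_mem hx) (mul_mem (star_mem ha) ha)) hx
    have h4 : ‖star a * a‖ • (star x * x) = ((‖star a * a‖ : ℝ) : ℂ) • (star x * x) :=
      (Complex.coe_smul _ _).symm
    rw [h4] at h3
    have h5 := h.mono m2 (Tr3_smul_mem _ (mul_mem (star_mem hx) hx)) h3
    rw [h.smul _ (mul_mem (star_mem hx) hx), h.swap hx, h.n2_sq hx, CStarRing.norm_star_mul_self,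
      ← Complex.ofReal_mul, Complex.ofReal_re, ← h2, h1] at h5
    calc n2 τ (a * x) ^ 2 ≤ ‖a‖ * ‖a‖ * n2 τ x ^ 2 := h5
      _ = _ := by ring
  exact abs_le_of_sq_le_sq' hsq (mul_nonneg (norm_nonneg _) (n2_nonneg _)) |>.2

theorem IsTrace.n2_mul_right (h : IsTrace R τ) {a x : H →L[ℂ] H} (ha : a ∈ R) (hx : x ∈ R) :
    n2 τ (x * a) ≤ ‖a‖ * n2 τ x := by
  have h1 := h.n2_mul_left (star_mem ha) (star_mem hx)
  rwa [← star_mul, h.n2_star (mul_mem hx ha), h.n2_star hx, norm_star] at h1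

theorem IsTrace.n2_le_norm (h : IsTrace R τ) {x : H →L[ℂ] H} (hx : x ∈ R) :
    n2 τ x ≤ ‖x‖ := by
  have h1 := h.n2_mul_left hx (one_mem R)
  have h2 : n2 τ (1 : H →L[ℂ] H) = 1 := by
    rw [n2, star_one, mul_one, h.one, Complex.one_re, Real.sqrt_one]
  rwa [mul_one, h2, mul_one] at h1

end Pool.Agent.KKS

end
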