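import Pool.Agent.Lib.MP_5c1ef7_an.P01

/-!
# P02: polar decomposition, supports, unitaries near unitaries
-/

set_option autoImplicit false
set_option linter.unusedSectionVars false

section

/-!
# Pol: polar decomposition
-/


open Filter Topology

namespace Pool.Agent.KKS

variable {H : Type*} [NormedAddCommGroup H] [InnerProductSpace ℂ H] [CompleteSpace H]
variable {R : VonNeumannAlgebra H}

/-- the functional calculus stays in `R` -/
private theorem Pol_cfc_mem {a : H →L[ℂ] H} (ha : a ∈ R) (f : ℝ → ℝ) : cfc f a ∈ R := by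
  refine mem_of_comm fun S hS => ?_
  have h1 : Commute a S := (hS a ha).symm
  exact (h1.cfc_real f).symm

/-- the resolvents of the square root of a positive operator -/
private theorem Pol_sqrt {a : H →L[ℂ] H} (ha : a ∈ R) (h0 : 0 ≤ a) : ∃ h ∈ R, 0 ≤ h ∧ h * h = a ∧
    ∀ ε : ℝ, 0 < ε → ∃ r ∈ R, h * r = r * h ∧ h * r = 1 - (ε : ℂ) • r ∧ star r = r ∧
      ‖h * r‖ ≤ 1 := by
  have hsp : ∀ x ∈ spectrum ℝ a, 0 ≤ x := fun x hx => spectrum_nonneg_of_nonneg h0 hx
  have hsa : IsSelfAdjoint a := IsSelfAdjoint.of_nonneg h0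
  refine ⟨cfc Real.sqrt a, Pol_cfc_mem ha _, cfc_nonneg fun x _ => Real.sqrt_nonneg x, ?_, ?_⟩
  · rw [← cfc_mul Real.sqrt Real.sqrt a]
    conv_rhs => rw [← cfc_id ℝ a]
    exact cfc_congr fun x hx => Real.mul_self_sqrt (hsp x hx)
  · intro ε hε
    have hpos : ∀ x, 0 < Real.sqrt x + ε := fun x => add_pos_of_nonneg_of_pos (Real.sqrt_nonneg x) hε
    have hc : Continuous fun x : ℝ => (Real.sqrt x + ε)⁻¹ :=
      (Real.continuous_sqrt.add continuous_const).inv₀ fun x => (hpos x).ne'
    have e1 : cfc Real.sqrt a * cfc (fun x => (Real.sqrt x + ε)⁻¹) a =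
        cfc (fun x => Real.sqrt x * (Real.sqrt x + ε)⁻¹) a :=
      (cfc_mul _ _ a (by fun_prop) hc.continuousOn).symm
    refine ⟨cfc (fun x => (Real.sqrt x + ε)⁻¹) a, Pol_cfc_mem ha _, ?_, ?_, ?_, ?_⟩
    · exact cfc_commute_cfc _ _ a
    · have e2 : (ε : ℂ) • cfc (fun x => (Real.sqrt x + ε)⁻¹) a =
          ε • cfc (fun x => (Real.sqrt x + ε)⁻¹) a :=
        (RCLike.real_smul_eq_coe_smul (K := ℂ) ε _).symm
      have e3 : cfc (1 : ℝ → ℝ) a - cfc (fun x => ε * (Real.sqrt x + ε)⁻¹) a =
          cfc (fun x => (1 : ℝ → ℝ) x - ε * (Real.sqrt x + ε)⁻¹) a :=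
        (cfc_sub (1 : ℝ → ℝ) _ a (by fun_prop) (continuous_const.mul hc).continuousOn).symm
      rw [e1, e2, ← cfc_const_mul ε _ a hc.continuousOn, ← cfc_one ℝ a, e3]
      refine cfc_congr fun x _ => ?_
      have := (hpos x).ne'
      simp only [Pi.one_apply]
      field_simp
      ring
    · exact (cfc_predicate (fun x => (Real.sqrt x + ε)⁻¹) a).star_eq
    · rw [e1]
      refine norm_cfc_le zero_le_one fun x _ => ?_
      rw [Real.norm_of_nonneg (mul_nonneg (Real.sqrt_nonneg x) (inv_nonneg.2 (hpos x).le)),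
        mul_inv_le_iff₀ (hpos x), one_mul]
      linarith

/-- (P1) polar decomposition `T = v h`, `h = |T|`.
`v = wlim T (h + 1/(n+1))⁻¹`: as `T (h + ε)⁻¹ h - T = - ε T (h + ε)⁻¹` has norm `≤ ε`
(because `‖T (h + ε)⁻¹‖ ≤ 1`), `v h = T`; if `h ξ = 0` then `T (h + ε)⁻¹ ξ = 0` so `v ξ = 0`; `v` is isometric on
the range of `h`, so `v⋆ v` is the projection onto its closure. -/
theorem polar {T : H →L[ℂ] H} (hT : T ∈ R) : ∃ v ∈ R, ∃ h ∈ R, 0 ≤ h ∧ h * h = star T * T ∧
    v * h = T ∧ star v * T = h ∧ PJ (star v * v) ∧ PJ (v * star v) ∧ ‖v‖ ≤ 1 ∧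
    (∀ S : H →L[ℂ] H, T * S = 0 ↔ v * S = 0) ∧ (∀ S : H →L[ℂ] H, S * T = 0 ↔ S * v = 0) := by
  obtain ⟨h, hR, h0, hh, hr⟩ := Pol_sqrt (R := R) (mul_mem (star_mem hT) hT)
    (star_mul_self_nonneg T)
  have hsa : star h = h := (IsSelfAdjoint.of_nonneg h0).star_eq
  have hpos : ∀ n : ℕ, (0 : ℝ) < 1 / ((n : ℝ) + 1) := fun n => Nat.one_div_pos_of_nat
  choose r r1 r2 r3 r4 r5 using fun n : ℕ => hr (1 / ((n : ℝ) + 1)) (hpos n)
  -- norms
  have hB1 : Bdd fun n => h * r n := ⟨1, r5⟩
  have hn : ∀ n, ‖T * r n‖ ≤ 1 := by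
    intro n
    have e1 : star (T * r n) * (T * r n) = star (h * r n) * (h * r n) := by
      calc star (T * r n) * (T * r n) = star (r n) * (star T * T) * r n := by
            rw [star_mul]
            noncomm_ring
        _ = star (r n) * (h * h) * r n := by rw [hh]
        _ = star (h * r n) * (h * r n) := by
            rw [star_mul, hsa]
            noncomm_ring
    have e2 : ‖T * r n‖ * ‖T * r n‖ = ‖h * r n‖ * ‖h * r n‖ := by
      rw [← CStarRing.norm_star_mul_self, ← CStarRing.norm_star_mul_self, e1]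
    have e3 : ‖T * r n‖ = ‖h * r n‖ :=
      (mul_self_inj_of_nonneg (norm_nonneg _) (norm_nonneg _)).1 e2
    rw [e3]
    exact r5 n
  have hB2 : Bdd fun n => T * r n := ⟨1, hn⟩
  have hlim : Tendsto (fun n : ℕ => 1 / ((n : ℝ) + 1)) UF (𝓝 0) :=
    (tendsto_one_div_add_atTop_nhds_zero_nat (𝕜 := ℝ)).mono_left Nat.hyperfilter_le_atTop
  -- the support
  obtain ⟨s, hs⟩ : ∃ s, s = wlim fun n => h * r n := ⟨_, rfl⟩
  obtain ⟨v, hv⟩ : ∃ v, v = wlim fun n => T * r n := ⟨_, rfl⟩
  have hvR : v ∈ R := by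
    rw [hv]
    exact wlim_mem R hB2 (Filter.Eventually.of_forall fun n => mul_mem hT (r1 n))
  have key : ∀ X : H →L[ℂ] H, (∀ n, ‖X * r n‖ ≤ 1) → wlim (fun n => X * r n * h) = X := by
    intro X hX
    refine wlim_of_tendsto ?_
    have e1 : ∀ n, X * r n * h = X - ((1 / ((n : ℝ) + 1) : ℝ) : ℂ) • (X * r n) := by
      intro n
      rw [mul_assoc, ← r2, r3, mul_sub, mul_one, mul_smul_comm]
    simp only [e1]
    have e2 : Tendsto (fun n : ℕ => ((1 / ((n : ℝ) + 1) : ℝ) : ℂ) • (X * r n)) UF (𝓝 0) := by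
      refine squeeze_zero_norm (fun n => ?_) hlim
      rw [norm_smul, Complex.norm_real, Real.norm_of_nonneg (hpos n).le]
      exact mul_le_of_le_one_right (hpos n).le (hX n)
    simpa using (tendsto_const_nhds (x := X)).sub e2
  have hsh : s * h = h := by
    rw [hs, ← wlim_mul_right hB1]
    exact key h r5
  have hvh : v * h = T := by
    rw [hv, ← wlim_mul_right hB2]
    exact key T hn
  have hss : star s = s := by
    rw [hs, ← wlim_star hB1]
    congr 1
    funext n
    rw [star_mul, hsa, r4, r2]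
  have hhs : h * s = h := by
    have := congrArg star hsh
    rwa [star_mul, hss, hsa] at this
  have hs2 : s * s = s := by
    have e1 : s * s = wlim fun n => s * (h * r n) := by
      rw [wlim_mul_left hB1, ← hs]
    rw [e1]
    have e2 : (fun n => s * (h * r n)) = fun n => h * r n := by
      funext n
      rw [← mul_assoc, hsh]
    rw [e2, ← hs]
  have hvs : v * s = v := by
    have e1 : v * s = wlim fun n => v * (h * r n) := by
      rw [wlim_mul_left hB1, ← hs]
    rw [e1]
    have e2 : (fun n => v * (h * r n)) = fun n => T * r n := by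
      funext n
      rw [← mul_assoc, hvh]
    rw [e2, ← hv]
  have hvT : star v * T = h := by
    have e1 : star v * T = wlim fun n => star (T * r n) * T := by
      rw [wlim_mul_right hB2.adj, wlim_star hB2, ← hv]
    rw [e1]
    have e2 : (fun n => star (T * r n) * T) = fun n => h * r n * h := by
      funext n
      rw [star_mul, r4, mul_assoc, ← hh, ← mul_assoc, ← r2]
    rw [e2]
    exact key h r5
  have hvv : star v * v = s := by
    have e1 : star v * v * h = h := by rw [mul_assoc, hvh, hvT]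
    have e2 : star v * v * s = s := by
      have e3 : star v * v * s = wlim fun n => star v * v * (h * r n) := by
        rw [wlim_mul_left hB1, ← hs]
      rw [e3]
      have e4 : (fun n => star v * v * (h * r n)) = fun n => h * r n := by
        funext n
        rw [← mul_assoc, e1]
      rw [e4, ← hs]
    rw [mul_assoc, hvs] at e2
    exact e2
  have hpj : PJ (star v * v) := by
    rw [hvv]
    exact ⟨hs2, hss⟩
  refine ⟨v, hvR, h, hR, h0, hh, hvh, hvT, hpj, hpj.pi.2, ?_, ?_, ?_⟩
  · rw [hv]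
    exact norm_wlim_le hn
  · intro S
    constructor
    · intro hS
      have e1 : h * S = 0 := by rw [← hvT, mul_assoc, hS, mul_zero]
      have e2 : s * S = 0 := by
        rw [hs, ← wlim_mul_right hB1]
        have e3 : (fun n => h * r n * S) = fun _ => 0 := by
          funext n
          rw [r2, mul_assoc, e1, mul_zero]
        rw [e3, wlim_const]
      rw [← hvs, mul_assoc, e2, mul_zero]
    · intro hS
      have e1 : s * S = 0 := by rw [← hvv, mul_assoc, hS, mul_zero]
      rw [← hvh, ← hhs, mul_assoc, mul_assoc, e1, mul_zero, mul_zero]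
  · intro S
    constructor
    · intro hS
      rw [hv, ← wlim_mul_left hB2]
      have e3 : (fun n => S * (T * r n)) = fun _ => 0 := by
        funext n
        rw [← mul_assoc, hS, zero_mul]
      rw [e3, wlim_const]
    · intro hS
      rw [← hvh, ← mul_assoc, hS, zero_mul]

/-- the partial isometry of an operator which is bounded below on `d H` -/
theorem polar_of_bound {T d : H →L[ℂ] H} (hT : T ∈ R) (hd : PJ d) (hTd : T * d = T) {c : ℝ}
    (hc : 0 < c) (hb : ∀ ξ : H, c * ‖d ξ‖ ≤ ‖T ξ‖) :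
    ∃ v ∈ R, star v * v = d ∧ ∀ q : H →L[ℂ] H, q * T = T → q * v = v := by
  obtain ⟨v, hv, h, -, -, -, -, -, hpj, -, -, hl, hr⟩ := polar hT
  refine ⟨v, hv, ?_, ?_⟩
  · have h1 : v * (1 - d) = 0 := by
      rw [← hl, mul_sub, mul_one, hTd, sub_self]
    have h2 : T * (1 - star v * v) = 0 := by
      rw [hl, mul_sub, mul_one, hpj.pi.1, sub_self]
    have h3 : d * (1 - star v * v) = 0 := by
      ext ξ
      have h4 := hb ((1 - star v * v) ξ)
      have h5 : T ((1 - star v * v) ξ) = 0 := by
        have := congrArg (fun X : H →L[ℂ] H => X ξ) h2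
        simpa using this
      rw [h5, norm_zero] at h4
      have h6 : ‖d ((1 - star v * v) ξ)‖ ≤ 0 := by
        by_contra h7
        push Not at h7
        exact absurd h4 (not_le.2 (mul_pos hc h7))
      have h7 := norm_le_zero_iff.1 h6
      exact h7
    rw [mul_sub, mul_one, sub_eq_zero] at h1 h3
    have h8 : star v * v * d = star v * v := by rw [mul_assoc, ← h1]
    have h9 := congrArg star h3
    rw [star_mul, hpj.sa, hd.sa] at h9
    rw [← h8, ← h9]
  · intro q hq
    have h1 : (q - 1) * T = 0 := by rw [sub_mul, one_mul, hq, sub_self]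
    rw [hr, sub_mul, one_mul, sub_eq_zero] at h1
    exact h1

end Pool.Agent.KKS

end

section

/-!
# Pol2: supports, square roots of unitaries
-/


open Filter Topology

namespace Pool.Agent.KKS

variable {H : Type*} [NormedAddCommGroup H] [InnerProductSpace ℂ H] [CompleteSpace H]
variable {R : VonNeumannAlgebra H}

/-- (P3) support projection -/
theorem support {b : H →L[ℂ] H} (hb : b ∈ R) (h0 : 0 ≤ b) : ∃ s ∈ R, PJ s ∧ s * b = b ∧
    b * s = b ∧ (∀ S : H →L[ℂ] H, b * S = 0 → s * S = 0) ∧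
    ∀ ξ : H, s ξ ∈ closure (Set.range b) := by
  obtain ⟨v, hv, h, hh, hh0, hhh, hvh, hvT, hp, hp', hn, hS1, hS2⟩ := polar hb
  have hbs : star b = b := (IsSelfAdjoint.of_nonneg h0).star_eq
  have hhb : h = b := by
    apply (CFC.mul_self_eq_mul_self_iff h b hh0 h0).1
    rw [hhh, hbs]
  rw [hhb] at hvh hvT
  have hsb : star v * v * b = b := by rw [mul_assoc, hvh, hvT]
  have hbS : ∀ S : H →L[ℂ] H, b * S = 0 → star v * v * S = 0 := by
    intro S hS
    rw [mul_assoc, (hS1 S).1 hS, mul_zero]
  refine ⟨star v * v, mul_mem (star_mem hv) hv, hp, hsb, ?_, hbS, ?_⟩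
  · have := congrArg star hsb
    rw [star_mul, hp.sa, hbs] at this
    exact this
  · intro ξ
    set s := star v * v with hs
    have hker : ∀ η : H, b η = 0 → s η = 0 := by
      intro η hη
      have h1 := hbS (InnerProductSpace.rankOne ℂ η η) (by
        ext x
        simp [hη])
      have h2 := congrArg (fun T : H →L[ℂ] H => T η) h1
      simp only [mul_apply_eq_comp, InnerProductSpace.rankOne_apply, map_smul,
        zero_apply, smul_eq_zero] at h2
      rcases h2 with h2 | h2
      · rw [inner_self_eq_zero] at h2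
        rw [h2, map_zero]
      · exact h2
    have hK : s ξ ∈ (LinearMap.range (b : H →ₗ[ℂ] H))ᗮᗮ := by
      rw [Submodule.mem_orthogonal]
      intro η hη
      rw [Submodule.mem_orthogonal] at hη
      have hbη : b η = 0 := by
        have h3 := hη (b (b η)) ⟨b η, rfl⟩
        have h4 : inner ℂ (b (b η)) η = inner ℂ (b η) (b η) := by
          conv_lhs => rw [← hbs]
          rw [ContinuousLinearMap.star_eq_adjoint, ContinuousLinearMap.adjoint_inner_left,
            ← ContinuousLinearMap.star_eq_adjoint, hbs]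
        rw [h4, inner_self_eq_zero] at h3
        exact h3
      have h5 : inner ℂ η (s ξ) = inner ℂ (s η) ξ := by
        conv_rhs => rw [← hp.sa]
        rw [ContinuousLinearMap.star_eq_adjoint, ContinuousLinearMap.adjoint_inner_left]
      rw [h5, hker η hbη, inner_zero_left]
    rw [Submodule.orthogonal_orthogonal_eq_closure] at hK
    have h6 : s ξ ∈ closure ((LinearMap.range (b : H →ₗ[ℂ] H) : Submodule ℂ H) : Set H) := hK
    have h7 : ((LinearMap.range (b : H →ₗ[ℂ] H) : Submodule ℂ H) : Set H) = Set.range b := by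
      ext x
      simp
    rw [h7] at h6
    exact h6

/-- (P2) square roots of unitaries of corners.  With `T = E + y = v₁ h` (`polar`) and `q` the projection onto the
kernel of `T` in `E H` (`q = E - v₁⋆ v₁`): `y q = -q`, `T⋆ = y⋆ T`, `T` is normal, `v₁ ^ 2 = y (E - q)`,
`(v₁ + v₁⋆) h = T + T⋆ = h ^ 2`, `v = v₁ + i q`. -/
theorem sqrt_unitary {E y : H →L[ℂ] H} (hE : PJ E) (hER : E ∈ R) (hy : y ∈ R)
    (h1 : star y * y = E) (h2 : y * star y = E) :
    ∃ v ∈ R, star v * v = E ∧ v * star v = E ∧ v * v = y ∧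
      ∀ ξ : H, 0 ≤ (inner ℂ ξ (v ξ)).re := by
  have hyE : y * E = y := by
    have := (PJ.pi (v := y) (by rw [h1]; exact hE)).1
    rwa [h1] at this
  have hEy : E * y = y := by
    rw [← h2, mul_assoc, h1, hyE]
  have hEy' : E * star y = star y := by
    have := congrArg star hyE
    rwa [star_mul, hE.sa] at this
  have hyE' : star y * E = star y := by
    have := congrArg star hEy
    rwa [star_mul, hE.sa] at this
  have hTR : E + y ∈ R := add_mem hER hy
  obtain ⟨w, hw, h, hh, hh0, hhh, hvh, hvT, hp, hp', hn, hS1, hS2⟩ := polar hTR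
  set T := E + y with hT
  have hTs : star T = E + star y := by rw [hT, star_add, hE.sa]
  have hTE : T * E = T := by rw [hT, add_mul, hE.idem, hyE]
  have hET : E * T = T := by rw [hT, mul_add, hE.idem, hEy]
  have hTT : star T * T = T + star T := by
    rw [hTs, hT]
    simp only [add_mul, mul_add, hE.idem, hEy, hyE', h1]
    abel
  have hTT' : T * star T = T + star T := by
    rw [hTs, hT]
    simp only [add_mul, mul_add, hE.idem, hEy', hyE, h2]
    abel
  have hyT : star y * T = star T := by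
    rw [hTs, hT, mul_add, hyE', h1, add_comm]
  have hN : ∀ S : H →L[ℂ] H, T * S = 0 → star T * S = 0 := by
    intro S hS
    have h3 : star (star T * S) * (star T * S) = 0 := by
      rw [star_mul, star_star]
      calc star S * T * (star T * S) = star S * (T * star T) * S := by simp only [mul_assoc]
        _ = star S * star T * (T * S) := by rw [hTT', ← hTT]; simp only [mul_assoc]
        _ = 0 := by rw [hS, mul_zero]
    exact CStarRing.star_mul_self_eq_zero_iff _ |>.1 h3
  have hN' : ∀ S : H →L[ℂ] H, star T * S = 0 → T * S = 0 := by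
    intro S hS
    have h3 : star (T * S) * (T * S) = 0 := by
      rw [star_mul]
      calc star S * star T * (T * S) = star S * (star T * T) * S := by simp only [mul_assoc]
        _ = star S * T * (star T * S) := by rw [hTT, ← hTT']; simp only [mul_assoc]
        _ = 0 := by rw [hS, mul_zero]
    exact CStarRing.star_mul_self_eq_zero_iff _ |>.1 h3
  set p := star w * w with hpdef
  have hwp : w * p = w := (PJ.pi hp).1
  have hpw' : p * star w = star w := by
    have := congrArg star hwp
    rwa [star_mul, hp.sa] at this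
  have hp'w : w * star w * w = w := by rw [mul_assoc]; exact hwp
  -- `(1 - p) T = 0` and so on
  have hTp : T * (1 - p) = 0 := by
    rw [hS1]
    rw [mul_sub, mul_one, hwp, sub_self]
  have hpT : (1 - p) * T = 0 := by
    have h3 := congrArg star (hN _ hTp)
    rw [star_mul, star_star, star_sub, star_one, hp.sa, star_zero] at h3
    exact h3
  have hpw : (1 - p) * w = 0 := (hS2 _).1 hpT
  have hpw2 : p * w = w := by
    rw [sub_mul, one_mul, sub_eq_zero] at hpw
    exact hpw.symm
  have hp'T : (1 - w * star w) * T = 0 := by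
    rw [hS2, sub_mul, one_mul, hp'w, sub_self]
  have hTp' : T * (1 - w * star w) = 0 := by
    apply hN'
    have h3 := congrArg star hp'T
    rw [star_mul, star_sub, star_one, hp'.sa, star_zero] at h3
    exact h3
  have hwp' : w * (1 - w * star w) = 0 := (hS1 _).1 hTp'
  have hpp : p = w * star w := by
    have h3 : p * (w * star w) = p := by
      have h4 : p * (1 - w * star w) = 0 := by rw [hpdef, mul_assoc, hwp', mul_zero]
      rw [mul_sub, mul_one, sub_eq_zero] at h4
      exact h4.symm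
    have h5 : p * (w * star w) = w * star w := by
      rw [← mul_assoc, hpw2]
    rw [← h3, h5]
  -- commutation of `w` and `h`
  have hhs : star h = h := (IsSelfAdjoint.of_nonneg hh0).star_eq
  have hTsw : star T = h * star w := by rw [← hvh, star_mul, hhs]
  have hTph : h * p = h := by
    have h3 : h * (1 - p) = 0 := by
      rw [← hvT, mul_assoc, hTp, mul_zero]
    rw [mul_sub, mul_one, sub_eq_zero] at h3
    exact h3.symm
  have hcomm2 : h * h * w = w * (h * h) := by
    have h3 : w * (h * h) * star w = h * h := by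
      calc w * (h * h) * star w = (w * h) * (h * star w) := by simp only [mul_assoc]
        _ = T * star T := by rw [hvh, hTsw]
        _ = star T * T := by rw [hTT, hTT']
        _ = h * h := hhh.symm
    calc h * h * w = w * (h * h) * star w * w := by rw [h3]
      _ = w * (h * (h * p)) := by rw [hpdef]; simp only [mul_assoc]
      _ = w * (h * h) := by rw [hTph]
  have hcomm : h * w = w * h := by
    have h3 : Commute (h * h) w := hcomm2
    have h4 : Commute (CFC.sqrt (h * h)) w := h3.cfcₙ_nnreal _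
    rw [CFC.sqrt_mul_self h hh0] at h4
    exact h4
  have hX : ∀ X : H →L[ℂ] H, X * h = 0 → X * p = 0 := by
    intro X hXh
    have h3 : X * T = 0 := by rw [← hvh, ← hcomm, ← mul_assoc, hXh, zero_mul]
    have h4 := (hS2 X).1 h3
    rw [hpp, ← mul_assoc, h4, zero_mul]
  have hwsp : star w * p = star w := by
    rw [hpp, ← mul_assoc, ← hpdef, hpw']
  -- `star w = star y * w`
  have hcomms : star w * h = h * star w := by
    have := congrArg star hcomm
    rwa [star_mul, star_mul, hhs] at this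
  have hwy : star w = star y * w := by
    have h3 : (star w - star y * w) * h = 0 := by
      rw [sub_mul, hcomms, ← hTsw, mul_assoc, hvh, hyT, sub_self]
    have h4 := hX _ h3
    rw [sub_mul, hwsp, mul_assoc, hwp, sub_eq_zero] at h4
    exact h4
  have hEw : E * w = w := by
    have h3 : (1 - E) * T = 0 := by rw [sub_mul, one_mul, hET, sub_self]
    have h4 := (hS2 _).1 h3
    rw [sub_mul, one_mul, sub_eq_zero] at h4
    exact h4.symm
  have hwE : w * E = w := by
    have h3 : T * (1 - E) = 0 := by rw [mul_sub, mul_one, hTE, sub_self]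
    have h4 := (hS1 _).1 h3
    rw [mul_sub, mul_one, sub_eq_zero] at h4
    exact h4.symm
  have hww : w * w = y * p := by
    have h3 : y * star w = w := by
      rw [hwy, ← mul_assoc, h2, hEw]
    rw [hpdef, ← mul_assoc, h3]
  have hpE : p * E = p := by rw [hpdef, mul_assoc, hwE]
  have hEp : E * p = p := by
    have := congrArg star hpE
    rwa [star_mul, hE.sa, hp.sa] at this
  set q := E - p with hq
  have hqP : PJ q := hE.sub hp hEp
  have hqw : q * w = 0 := by rw [hq, sub_mul, hEw, hpw2, sub_self]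
  have hwq : w * q = 0 := by rw [hq, mul_sub, hwE, hwp, sub_self]
  have hqws : star w * q = 0 := by
    have := congrArg star hqw
    rwa [star_mul, hqP.sa, star_zero] at this
  have hwsq : q * star w = 0 := by
    have := congrArg star hwq
    rwa [star_mul, hqP.sa, star_zero] at this
  have hyq : y * q = - q := by
    have h3 : T * q = 0 := by
      rw [hq, mul_sub, hTE]
      rw [mul_sub, mul_one] at hTp
      exact hTp
    have hEq : E * q = q := by rw [hq, mul_sub, hE.idem, hEp]
    rw [hT, add_mul, hEq] at h3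
    exact (neg_eq_of_add_eq_zero_right h3).symm
  have hsum : w + star w = h := by
    have h3 : (w + star w - h) * h = 0 := by
      rw [sub_mul, add_mul, hvh, hcomms, ← hTsw, hhh, hTT, sub_self]
    have h4 := hX _ h3
    rw [sub_mul, add_mul, hwp, hwsp, hTph, sub_eq_zero] at h4
    exact h4
  have hqR : q ∈ R := sub_mem hER (mul_mem (star_mem hw) hw)
  have hII : ∀ x : H →L[ℂ] H, Complex.I • Complex.I • x = - x := by
    intro x
    rw [← mul_smul, Complex.I_mul_I, neg_smul, one_smul]
  have hstarI : star (Complex.I • q) = -(Complex.I • q) := by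
    rw [star_smul, hqP.sa]
    simp
  refine ⟨w + Complex.I • q, add_mem hw ?_, ?_, ?_, ?_, ?_⟩
  · exact (R.toStarSubalgebra.smul_mem (x := q) hqR Complex.I)
  · rw [star_add, hstarI]
    simp only [add_mul, mul_add, neg_mul, smul_mul_assoc, mul_smul_comm, hqws, hqw, hqP.idem,
      smul_zero, ← hpdef]
    rw [neg_zero, add_zero, zero_add, smul_neg]
    refine (congrArg (fun x => p + -x) (hII q)).trans ?_
    rw [hq]
    simp
  · rw [star_add, hstarI]
    simp only [add_mul, mul_add, mul_neg, smul_mul_assoc, mul_smul_comm, hwsq, hwq, hqP.idem,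
      smul_zero, ← hpp]
    rw [add_zero, zero_add]
    refine (congrArg (fun x => p + -x) (hII q)).trans ?_
    rw [hq]
    simp
  · simp only [add_mul, mul_add, smul_mul_assoc, mul_smul_comm, hwq, hqw, hqP.idem,
      smul_zero, hww]
    have h3 : y = y * p + y * q := by rw [← mul_add, hq, add_sub_cancel, hyE]
    conv_rhs => rw [h3, hyq]
    rw [add_zero, zero_add]
    exact congrArg (fun x => y * p + x) (hII q)
  · intro ξ
    have h3 : (inner ℂ ξ ((w + Complex.I • q) ξ)).re = (inner ℂ ξ (w ξ)).re := by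
      have hq2 : inner ℂ ξ (q ξ) = (inner ℂ (q ξ) (q ξ)) := by
        rw [← hqP.idem]
        conv_lhs => rw [mul_apply_eq_comp]
        rw [← ContinuousLinearMap.adjoint_inner_left, ← ContinuousLinearMap.star_eq_adjoint, hqP.sa,
          hqP.idem]
      rw [add_apply, inner_add_right, smul_apply,
        inner_smul_right, hq2, Complex.add_re, Complex.mul_re]
      have : (inner ℂ (q ξ) (q ξ)).im = 0 := inner_self_im (𝕜 := ℂ) _
      rw [this]
      simp
    rw [h3]
    have h4 : 0 ≤ (inner ℂ ξ (h ξ)).re := by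
      have := (ContinuousLinearMap.nonneg_iff_isPositive h).1 hh0
      exact this.re_inner_nonneg_right ξ
    rw [← hsum, add_apply, inner_add_right, Complex.add_re] at h4
    have h5 : inner ℂ ξ (star w ξ) = (starRingEnd ℂ) (inner ℂ ξ (w ξ)) := by
      rw [ContinuousLinearMap.star_eq_adjoint, ContinuousLinearMap.adjoint_inner_right,
        inner_conj_symm]
    rw [h5, Complex.conj_re] at h4
    linarith

end Pool.Agent.KKS

end

section

/-!
# Pol3: unitaries near unitaries
-/


open Filter Topology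

namespace Pool.Agent.KKS

variable {H : Type*} [NormedAddCommGroup H] [InnerProductSpace ℂ H] [CompleteSpace H]
variable {R : VonNeumannAlgebra H}

private theorem Pol3_cfc_mem {S : VonNeumannAlgebra H} {a : H →L[ℂ] H} (ha : a ∈ S) (f : ℝ → ℝ) :
    cfc f a ∈ S := by
  refine mem_of_comm fun X hX => ?_
  have h1 : Commute a X := (hX a ha).symm
  exact (h1.cfc_real f).symm

/-- square root and inverse square root of an operator near `1` -/
private theorem Pol3_sqrt {a : H →L[ℂ] H} (h0 : 0 ≤ a) (h1 : ‖a - 1‖ < 1) :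
    ∃ b c : H →L[ℂ] H, (∀ S : VonNeumannAlgebra H, a ∈ S → b ∈ S) ∧
      (∀ X : H →L[ℂ] H, a * X = X * a → b * X = X * b) ∧
      (∀ X : H →L[ℂ] H, a * X = X * a → c * X = X * c) ∧
      star b = b ∧ b * b * a = 1 ∧ b * c = 1 ∧ ‖1 - c‖ ≤ ‖a - 1‖ := by
  have hsa : IsSelfAdjoint a := IsSelfAdjoint.of_nonneg h0
  have e0 : cfc (fun x : ℝ => x - 1) a = a - 1 := by
    rw [cfc_sub (fun x : ℝ => x) (fun _ => 1) a, cfc_id' ℝ a, cfc_const_one ℝ a]
  have hsp : ∀ x ∈ spectrum ℝ a, |x - 1| ≤ ‖a - 1‖ := by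
    intro x hx
    have := norm_apply_le_norm_cfc (fun x : ℝ => x - 1) a hx
    rwa [e0, Real.norm_eq_abs] at this
  have hpos : ∀ x ∈ spectrum ℝ a, 0 < x := by
    intro x hx
    have := (abs_le.1 (hsp x hx)).1
    linarith
  have hc : ContinuousOn (fun x : ℝ => (Real.sqrt x)⁻¹) (spectrum ℝ a) :=
    Real.continuous_sqrt.continuousOn.inv₀ fun x hx => (Real.sqrt_pos.2 (hpos x hx)).ne'
  refine ⟨cfc (fun x => (Real.sqrt x)⁻¹) a, cfc Real.sqrt a, fun S hS => Pol3_cfc_mem hS _, ?_, ?_,
    (cfc_predicate (fun x : ℝ => (Real.sqrt x)⁻¹) a).star_eq, ?_, ?_, ?_⟩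
  · intro X hX
    exact (Commute.cfc_real (b := X) hX _)
  · intro X hX
    exact (Commute.cfc_real (b := X) hX _)
  · rw [← cfc_mul _ _ a hc hc]
    have e1 : cfc (fun x => (Real.sqrt x)⁻¹ * (Real.sqrt x)⁻¹) a * a =
        cfc (fun x => (Real.sqrt x)⁻¹ * (Real.sqrt x)⁻¹ * x) a := by
      have := cfc_mul (fun x : ℝ => (Real.sqrt x)⁻¹ * (Real.sqrt x)⁻¹) (fun x => x) a (hc.mul hc)
      rw [this, cfc_id' ℝ a]
    rw [e1, ← cfc_one ℝ a]
    refine cfc_congr fun x hx => ?_
    have h2 := hpos x hx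
    simp only [Pi.one_apply]
    rw [← mul_inv, Real.mul_self_sqrt h2.le, inv_mul_cancel₀ h2.ne']
  · rw [← cfc_mul _ _ a hc, ← cfc_one ℝ a]
    refine cfc_congr fun x hx => ?_
    simp only [Pi.one_apply]
    exact inv_mul_cancel₀ (Real.sqrt_pos.2 (hpos x hx)).ne'
  · have e1 : 1 - cfc Real.sqrt a = cfc (fun x => 1 - Real.sqrt x) a := by
      rw [cfc_sub (fun _ : ℝ => 1) Real.sqrt a, cfc_const_one ℝ a]
    rw [e1]
    refine norm_cfc_le (norm_nonneg _) fun x hx => ?_
    refine le_trans ?_ (hsp x hx)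
    have h2 := hpos x hx
    have h3 : x = Real.sqrt x * Real.sqrt x := (Real.mul_self_sqrt h2.le).symm
    have h4 := Real.sqrt_nonneg x
    have h5 : x - 1 = (Real.sqrt x + 1) * (Real.sqrt x - 1) := by
      nth_rw 1 [h3]
      ring
    rw [Real.norm_eq_abs, h5, abs_mul, abs_sub_comm 1 (Real.sqrt x),
      abs_of_nonneg (show 0 ≤ Real.sqrt x + 1 by linarith)]
    nlinarith [abs_nonneg (Real.sqrt x - 1)]

/-- an operator near a unitary `u` (of the corner `E B(H) E`) has a unitary polar part near `u`;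
`w = T h` with `h = |T|⁻¹` (inverse in the corner).
`‖T⋆ T - E‖ ≤ 2.1 ε`, `‖w - T‖ = ‖|T| - E‖ ≤ ‖|T|² - E‖ ≤ 2.1 ε`. -/
theorem near_unitary {E u T : H →L[ℂ] H} (hE : PJ E) (hER : E ∈ R) (hu1 : star u * u = E)
    (hu2 : u * star u = E) (hT : T ∈ R) (hTE : T * E = T) (hET : E * T = T) {ε : ℝ}
    (hε : ε ≤ 1 / 10) (hTu : ‖T - u‖ ≤ ε) :
    ∃ w ∈ R, star w * w = E ∧ w * star w = E ∧ ‖w - u‖ ≤ 4 * ε ∧
      (∀ η : ℝ, ‖star T * T - E‖ ≤ η → ‖w - T‖ ≤ η) ∧
      ∃ h : H →L[ℂ] H, w = T * h ∧
        ∀ S : VonNeumannAlgebra H, star T * T ∈ S → E ∈ S → h ∈ S := by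
  have hε0 : 0 ≤ ε := (norm_nonneg _).trans hTu
  have hun : ‖u‖ ≤ 1 := by
    have h1 : ‖u‖ * ‖u‖ ≤ 1 := by
      rw [← CStarRing.norm_star_mul_self, hu1]
      exact hE.norm_le
    nlinarith [norm_nonneg u]
  have hTn : ‖T‖ ≤ 1 + ε := by
    calc ‖T‖ = ‖u + (T - u)‖ := by rw [add_sub_cancel]
      _ ≤ _ := (norm_add_le _ _).trans (add_le_add hun hTu)
  have hδ : ‖star T * T - E‖ ≤ 21 / 10 * ε := by
    have h1 : star T * T - E = star T * (T - u) + star (T - u) * u := by
      rw [← hu1, star_sub]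
      noncomm_ring
    rw [h1]
    refine (norm_add_le _ _).trans ?_
    have h2 : ‖star T * (T - u)‖ ≤ (1 + ε) * ε := by
      refine (norm_mul_le _ _).trans ?_
      rw [norm_star]
      exact mul_le_mul hTn hTu (norm_nonneg _) (by linarith)
    have h3 : ‖star (T - u) * u‖ ≤ ε * 1 := by
      refine (norm_mul_le _ _).trans ?_
      rw [norm_star]
      exact mul_le_mul hTu hun (norm_nonneg _) hε0
    nlinarith
  have hET' : E * (star T * T) = star T * T := by
    have h1 : star (T * E) = E * star T := by rw [star_mul, hE.sa]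
    rw [hTE] at h1
    rw [← mul_assoc, ← h1]
  obtain ⟨a, ha⟩ : ∃ a, a = star T * T + (1 - E) := ⟨_, rfl⟩
  have haE : a * E = star T * T := by
    rw [ha, add_mul, mul_assoc, hTE, sub_mul, one_mul, hE.idem, sub_self, add_zero]
  have hEa : E * a = star T * T := by
    rw [ha, mul_add, hET', mul_sub, mul_one, hE.idem, sub_self, add_zero]
  have ha1 : a - 1 = star T * T - E := by
    rw [ha]
    abel
  have ha0 : 0 ≤ a := by
    rw [ha]
    exact add_nonneg (star_mul_self_nonneg T) hE.compl.nonneg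
  obtain ⟨b, c, hbS, hbX, hcX, hbs, hbba, hbc, hcn⟩ := Pol3_sqrt ha0 (by
    rw [ha1]
    linarith)
  rw [ha1] at hcn
  have hbE := hbX E (by rw [haE, hEa])
  have hcE := hcX E (by rw [haE, hEa])
  have hS : ∀ S : VonNeumannAlgebra H, star T * T ∈ S → E ∈ S → b * E ∈ S := by
    intro S h1 h2
    refine mul_mem (hbS S ?_) h2
    rw [ha]
    exact add_mem h1 (sub_mem (one_mem S) h2)
  obtain ⟨w, hw⟩ : ∃ w, w = T * (b * E) := ⟨_, rfl⟩
  have hww : star w * w = E := by
    have h1 : star w = E * b * star T := by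
      rw [hw, star_mul, star_mul, hE.sa, hbs]
    calc star w * w = E * b * (star T * T) * b * E := by rw [h1, hw]; noncomm_ring
      _ = E * b * (E * a) * b * E := by rw [hEa]
      _ = E * (b * E) * (a * b) * E := by noncomm_ring
      _ = E * (E * b) * (b * a) * E := by rw [hbE, hbX a rfl]
      _ = E * E * (b * b * a) * E := by noncomm_ring
      _ = E := by rw [hbba, hE.idem, mul_one, hE.idem]
  have hPJ : PJ (star w * w) := by
    rw [hww]
    exact hE
  have hwE : w * E = w := by
    rw [hw, mul_assoc, mul_assoc, hE.idem]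
  have hEw : E * w = w := by
    rw [hw, ← mul_assoc, hET]
  have hwc : w * c = T := by
    rw [hw, mul_assoc, mul_assoc, ← hcE, ← mul_assoc b, hbc, one_mul, hTE]
  have hPT : w * star w * T = T := by
    have h1 : w * star w * w = w := by
      rw [mul_assoc]
      exact hPJ.pi.1
    rw [← hwc, ← mul_assoc, h1]
  have hwn : ‖w‖ ≤ 1 := by
    have h1 : ‖w‖ * ‖w‖ ≤ 1 := by
      rw [← CStarRing.norm_star_mul_self, hww]
      exact hE.norm_le
    nlinarith [norm_nonneg w]
  have hww' : w * star w = E := by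
    have h1 : (E - w * star w) * u = (E - w * star w) * (u - T) := by
      rw [mul_sub, sub_mul _ _ T, hET, hPT, sub_self, sub_zero]
    have h2 : (E - w * star w) * u * star u = E - w * star w := by
      have h3 : w * star w * E = w * star w := by
        have := congrArg star hEw
        rw [star_mul, hE.sa] at this
        rw [mul_assoc, this]
      rw [mul_assoc, hu2, sub_mul, hE.idem, h3]
    have h4 : ‖E - w * star w‖ ≤ ‖E - w * star w‖ * ε := by
      conv_lhs => rw [← h2, h1]
      refine (norm_mul_le _ _).trans ?_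
      rw [norm_star]
      refine (mul_le_of_le_one_right (norm_nonneg _) hun).trans ?_
      refine (norm_mul_le _ _).trans ?_
      rw [norm_sub_rev u T]
      exact mul_le_mul_of_nonneg_left hTu (norm_nonneg _)
    have h5 : ‖E - w * star w‖ ≤ 0 := by nlinarith [norm_nonneg (E - w * star w)]
    exact (sub_eq_zero.1 (norm_le_zero_iff.1 h5)).symm
  have hwT : ∀ η : ℝ, ‖star T * T - E‖ ≤ η → ‖w - T‖ ≤ η := by
    intro η hη
    have h1 : w - T = w * (1 - c) := by rw [mul_sub, mul_one, hwc]
    rw [h1]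
    refine (norm_mul_le _ _).trans ((mul_le_of_le_one_left (norm_nonneg _) hwn).trans ?_)
    exact hcn.trans hη
  refine ⟨w, ?_, hww, hww', ?_, hwT, b * E, hw, hS⟩
  · rw [hw]
    exact mul_mem hT (hS R (mul_mem (star_mem hT) hT) hER)
  · have h1 : w - u = (w - T) + (T - u) := by abel
    rw [h1]
    refine (norm_add_le _ _).trans ?_
    have := hwT _ hδ
    linarith

end Pool.Agent.KKS

end

section

/-!
# Pol4: norms of orthogonal sums
-/


open Filter Topology

namespace Pool.Agent.KKS

variable {H : Type*} [NormedAddCommGroup H] [InnerProductSpace ℂ H] [CompleteSpace H]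
variable {R : VonNeumannAlgebra H}

private theorem Pol4_pyth {ι : Type*} (s : Finset ι) (x : ι → H)
    (h : ∀ i ∈ s, ∀ j ∈ s, i ≠ j → inner ℂ (x i) (x j) = 0) :
    ‖∑ i ∈ s, x i‖ ^ 2 = ∑ i ∈ s, ‖x i‖ ^ 2 := by
  classical
  induction s using Finset.induction_on with
  | empty => simp
  | insert a t ha ih =>
    rw [Finset.sum_insert ha, Finset.sum_insert ha, norm_add_sq (𝕜 := ℂ),
      ih fun i hi j hj => h i (Finset.mem_insert_of_mem hi) j (Finset.mem_insert_of_mem hj)]
    have h1 : inner ℂ (x a) (∑ i ∈ t, x i) = 0 := by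
      rw [inner_sum]
      refine Finset.sum_eq_zero fun i hi => h a (Finset.mem_insert_self _ _) i
        (Finset.mem_insert_of_mem hi) ?_
      rintro rfl
      exact ha hi
    rw [h1]
    simp

private theorem Pol4_inner (a b : H →L[ℂ] H) (x y : H) (h : star a * b = 0) :
    inner ℂ (a x) (b y) = 0 := by
  rw [← ContinuousLinearMap.adjoint_inner_right, ← ContinuousLinearMap.star_eq_adjoint,
    ← mul_apply_eq_comp, h]
  simp

/-- norm of a sum of operators with orthogonal initial and final projections -/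
theorem norm_sum_orth_le {ι : Type*} (s : Finset ι) {X p q : ι → H →L[ℂ] H} {C : ℝ}
    (hC : 0 ≤ C) (hp : ∀ i, PJ (p i)) (hq : ∀ i, PJ (q i))
    (hpo : ∀ i ∈ s, ∀ j ∈ s, i ≠ j → p i * p j = 0) (hqo : ∀ i ∈ s, ∀ j ∈ s, i ≠ j → q i * q j = 0)
    (hX : ∀ i ∈ s, q i * X i * p i = X i) (hn : ∀ i ∈ s, ‖X i‖ ≤ C) :
    ‖∑ i ∈ s, X i‖ ≤ C := by
  classical
  have hXp : ∀ i ∈ s, X i * p i = X i := by
    intro i hi
    conv_lhs => rw [← hX i hi]
    rw [mul_assoc, (hp i).idem, hX i hi]
  have hXq : ∀ i ∈ s, q i * X i = X i := by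
    intro i hi
    conv_lhs => rw [← hX i hi]
    rw [← mul_assoc, ← mul_assoc, (hq i).idem, hX i hi]
  have hP : PJ (∑ i ∈ s, p i) := by
    constructor
    · rw [Finset.sum_mul_sum]
      refine Finset.sum_congr rfl fun i hi => ?_
      rw [Finset.sum_eq_single_of_mem i hi fun j hj hji => hpo i hi j hj (Ne.symm hji), (hp i).idem]
    · rw [star_sum]
      exact Finset.sum_congr rfl fun i _ => (hp i).sa
  refine ContinuousLinearMap.opNorm_le_bound _ hC fun ξ => ?_
  have h1 : ‖(∑ i ∈ s, X i) ξ‖ ^ 2 = ∑ i ∈ s, ‖X i ξ‖ ^ 2 := by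
    rw [sum_apply]
    refine Pol4_pyth s _ fun i hi j hj hij => Pol4_inner _ _ _ _ ?_
    rw [← hXq i hi, ← hXq j hj, star_mul, (hq i).sa, mul_assoc, ← mul_assoc (q i),
      hqo i hi j hj hij, zero_mul, mul_zero]
  have h2 : ‖(∑ i ∈ s, p i) ξ‖ ^ 2 = ∑ i ∈ s, ‖p i ξ‖ ^ 2 := by
    rw [sum_apply]
    refine Pol4_pyth s _ fun i hi j hj hij => Pol4_inner _ _ _ _ ?_
    rw [(hp i).sa, hpo i hi j hj hij]
  have h3 : ‖(∑ i ∈ s, p i) ξ‖ ≤ ‖ξ‖ := by
    refine (ContinuousLinearMap.le_opNorm _ _).trans ?_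
    exact mul_le_of_le_one_left (norm_nonneg _) hP.norm_le
  have h4 : ∑ i ∈ s, ‖X i ξ‖ ^ 2 ≤ C ^ 2 * ∑ i ∈ s, ‖p i ξ‖ ^ 2 := by
    rw [Finset.mul_sum]
    refine Finset.sum_le_sum fun i hi => ?_
    rw [← mul_pow]
    refine pow_le_pow_left₀ (norm_nonneg _) ?_ 2
    conv_lhs => rw [← hXp i hi]
    rw [mul_apply_eq_comp]
    exact (ContinuousLinearMap.le_opNorm _ _).trans
      (mul_le_mul_of_nonneg_right (hn i hi) (norm_nonneg _))
  have h5 : ‖(∑ i ∈ s, X i) ξ‖ ^ 2 ≤ (C * ‖ξ‖) ^ 2 := by
    rw [h1, mul_pow]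
    refine h4.trans (mul_le_mul_of_nonneg_left ?_ (sq_nonneg _))
    rw [← h2]
    exact pow_le_pow_left₀ (norm_nonneg _) h3 2
  exact le_of_sq_le_sq h5 (mul_nonneg hC (norm_nonneg _))

/-- the pinching `T ↦ ∑ q i T p i` is contractive -/
theorem norm_pinch_le {ι : Type*} (s : Finset ι) {p q : ι → H →L[ℂ] H} (T : H →L[ℂ] H)
    (hp : ∀ i, PJ (p i)) (hq : ∀ i, PJ (q i)) (hpo : ∀ i ∈ s, ∀ j ∈ s, i ≠ j → p i * p j = 0)
    (hqo : ∀ i ∈ s, ∀ j ∈ s, i ≠ j → q i * q j = 0) :
    ‖∑ i ∈ s, q i * T * p i‖ ≤ ‖T‖ := by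
  refine norm_sum_orth_le s (norm_nonneg _) hp hq hpo hqo (fun i _ => ?_) fun i _ => ?_
  · rw [mul_assoc, mul_assoc (q i * T), (hp i).idem, ← mul_assoc, ← mul_assoc, (hq i).idem]
  · refine (norm_mul_le _ _).trans ?_
    refine (mul_le_of_le_one_right (norm_nonneg _) (hp i).norm_le).trans ?_
    refine (norm_mul_le _ _).trans ?_
    exact mul_le_of_le_one_left (norm_nonneg _) (hq i).norm_le

end Pool.Agent.KKS

end
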