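import Pool.Agent.Lib.MP_5c1ef7_an.P02

/-!
# P03: orthogonal sums, comparison of projections
-/

set_option autoImplicit false
set_option linter.unusedSectionVars false

section

/-!
# Comp: orthogonal sums of partial isometries
-/


open Filter Topology

namespace Pool.Agent.KKS

variable {H : Type*} [NormedAddCommGroup H] [InnerProductSpace ℂ H] [CompleteSpace H]
variable {R : VonNeumannAlgebra H} {τ : (H →L[ℂ] H) → ℂ}

/-- a sequence of partial isometries with orthogonal initial and orthogonal final projections -/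
structure OSeq (v : ℕ → H →L[ℂ] H) : Prop where
  pj : ∀ n, PJ (star (v n) * v n)
  ini : ∀ m n, m ≠ n → v m * star (v n) = 0
  fin : ∀ m n, m ≠ n → star (v m) * v n = 0

/-- the sum of an orthogonal sequence of partial isometries -/
noncomputable def osum (v : ℕ → H →L[ℂ] H) : H →L[ℂ] H :=
  wlim fun n => ∑ k ∈ Finset.range n, v k

private theorem Comp_norm_le {v : ℕ → H →L[ℂ] H} (h : OSeq v) (n : ℕ) : ‖v n‖ ≤ 1 := by
  have h1 : ‖star (v n) * v n‖ = ‖v n‖ * ‖v n‖ := CStarRing.norm_star_mul_self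
  have h2 := (h.pj n).norm_le
  rw [h1] at h2
  nlinarith [norm_nonneg (v n)]

private theorem Comp_sum_le {v : ℕ → H →L[ℂ] H} (h : OSeq v) (n : ℕ) :
    ‖∑ k ∈ Finset.range n, v k‖ ≤ 1 := by
  refine norm_sum_orth_le (p := fun i => star (v i) * v i) (q := fun i => v i * star (v i))
    (Finset.range n) zero_le_one (fun i => h.pj i) (fun i => (h.pj i).pi.2) ?_ ?_ ?_ ?_
  · intro i _ j _ hij
    rw [mul_assoc, ← mul_assoc (v i), h.ini i j hij, zero_mul, mul_zero]
  · intro i _ j _ hij
    rw [mul_assoc, ← mul_assoc (star (v i)), h.fin i j hij, zero_mul, mul_zero]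
  · intro i _
    rw [mul_assoc (v i) (star (v i)) (v i), (h.pj i).pi.1, (h.pj i).pi.1]
  · intro i _
    exact Comp_norm_le h i

theorem OSeq.bdd {v : ℕ → H →L[ℂ] H} (h : OSeq v) : Bdd fun n => ∑ k ∈ Finset.range n, v k :=
  ⟨1, Comp_sum_le h⟩

private theorem Comp_inner {v : ℕ → H →L[ℂ] H} (h : OSeq v) (ξ : H) {m n : ℕ} (hmn : m ≠ n) :
    inner ℂ (v m ξ) (v n ξ) = 0 := by
  rw [← ContinuousLinearMap.adjoint_inner_right, ← ContinuousLinearMap.star_eq_adjoint]
  have h1 : (star (v m)) (v n ξ) = (star (v m) * v n) ξ := rfl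
  rw [h1, h.fin m n hmn]
  simp

private theorem Comp_summable {v : ℕ → H →L[ℂ] H} (h : OSeq v) (ξ : H) :
    Summable fun n => v n ξ := by
  have horth : OrthogonalFamily ℂ (fun n => (Submodule.span ℂ {v n ξ} : Submodule ℂ H))
      (fun n => (Submodule.span ℂ {v n ξ} : Submodule ℂ H).subtypeₗᵢ) := by
    intro m n hmn x y
    obtain ⟨a, ha⟩ := Submodule.mem_span_singleton.1 x.2
    obtain ⟨b, hb⟩ := Submodule.mem_span_singleton.1 y.2
    change inner ℂ (x : H) (y : H) = 0
    rw [← ha, ← hb, inner_smul_left, inner_smul_right, Comp_inner h ξ hmn, mul_zero, mul_zero]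
  have h1 := horth.summable_iff_norm_sq_summable
    (fun n => (⟨v n ξ, Submodule.mem_span_singleton_self _⟩ : Submodule.span ℂ {v n ξ}))
  refine h1.2 ?_
  refine summable_of_sum_range_le (c := ‖ξ‖ ^ 2) (fun n => sq_nonneg _) fun n => ?_
  have h2 := horth.norm_sum
    (fun n => (⟨v n ξ, Submodule.mem_span_singleton_self _⟩ : Submodule.span ℂ {v n ξ}))
    (Finset.range n)
  rw [← h2]
  have h3 : (∑ i ∈ Finset.range n, (Submodule.span ℂ {v i ξ} : Submodule ℂ H).subtypeₗᵢ
      ⟨v i ξ, Submodule.mem_span_singleton_self _⟩) = (∑ k ∈ Finset.range n, v k) ξ := by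
    rw [sum_apply]
    rfl
  rw [h3]
  have h4 := (∑ k ∈ Finset.range n, v k).le_opNorm ξ
  have h5 := Comp_sum_le h n
  have h6 : ‖(∑ k ∈ Finset.range n, v k) ξ‖ ≤ ‖ξ‖ :=
    h4.trans (by nlinarith [norm_nonneg ξ])
  gcongr

theorem OSeq.strong {v : ℕ → H →L[ℂ] H} (h : OSeq v) (ξ : H) :
    Tendsto (fun n => (∑ k ∈ Finset.range n, v k) ξ) atTop (𝓝 (osum v ξ)) := by
  have h1 := (Comp_summable h ξ).hasSum.tendsto_sum_nat
  have h2 : osum v ξ = ∑' n, v n ξ := by
    refine ext_inner_left ℂ fun η => ?_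
    have h3 := wlim_spec h.bdd η ξ
    have h4 : Tendsto (fun n => inner ℂ η ((∑ k ∈ Finset.range n, v k) ξ)) UF
        (𝓝 (inner ℂ η (∑' n, v n ξ))) := by
      refine Tendsto.inner tendsto_const_nhds ?_
      simp_rw [sum_apply]
      exact h1.mono_left Nat.hyperfilter_le_atTop
    exact tendsto_nhds_unique h3 h4
  rw [h2]
  simp_rw [sum_apply]
  exact h1

theorem OSeq.adj {v : ℕ → H →L[ℂ] H} (h : OSeq v) : OSeq (fun n => star (v n)) where
  pj n := by
    rw [star_star]
    exact (h.pj n).pi.2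
  ini m n hmn := by
    rw [star_star]
    exact h.fin m n hmn
  fin m n hmn := by
    rw [star_star]
    exact h.ini m n hmn

theorem osum_adj {v : ℕ → H →L[ℂ] H} (h : OSeq v) : osum (fun n => star (v n)) = star (osum v) := by
  unfold osum
  rw [← wlim_star h.bdd]
  simp_rw [star_sum]

theorem osum_mem {v : ℕ → H →L[ℂ] H} (h : OSeq v) (hv : ∀ n, v n ∈ R) : osum v ∈ R :=
  wlim_mem R h.bdd (Filter.Eventually.of_forall fun _ => sum_mem fun k _ => hv k)

end Pool.Agent.KKS

end

section

/-!
# Comp2: orthogonal sums: rules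
-/


open Filter Topology

namespace Pool.Agent.KKS

variable {H : Type*} [NormedAddCommGroup H] [InnerProductSpace ℂ H] [CompleteSpace H]
variable {R : VonNeumannAlgebra H} {τ : (H →L[ℂ] H) → ℂ}

private theorem Comp2_oseq {v : ℕ → H →L[ℂ] H} (h : OSeq v) : OSeq (fun n => star (v n) * v n) where
  pj := by
    intro n
    have h1 : star (star (v n) * v n) * (star (v n) * v n) = star (v n) * v n := by
      rw [(h.pj n).sa, (h.pj n).idem]
    rw [h1]
    exact h.pj n
  ini := by
    intro m n hmn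
    rw [(h.pj n).sa]
    calc star (v m) * v m * (star (v n) * v n) = star (v m) * (v m * star (v n)) * v n := by
          noncomm_ring
      _ = 0 := by rw [h.ini m n hmn, mul_zero, zero_mul]
  fin := by
    intro m n hmn
    rw [(h.pj m).sa]
    calc star (v m) * v m * (star (v n) * v n) = star (v m) * (v m * star (v n)) * v n := by
          noncomm_ring
      _ = 0 := by rw [h.ini m n hmn, mul_zero, zero_mul]

private theorem Comp2_inner (S T : H →L[ℂ] H) (ξ η : H) :
    inner ℂ (S ξ) (T η) = inner ℂ ξ ((star S * T) η) := by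
  change inner ℂ (S ξ) (T η) = inner ℂ ξ (star S (T η))
  rw [ContinuousLinearMap.star_eq_adjoint, ContinuousLinearMap.adjoint_inner_right]

private theorem Comp2_ext {S T : H →L[ℂ] H} (h : ∀ ξ η : H, inner ℂ ξ (S η) = inner ℂ ξ (T η)) :
    S = T := by
  ext η
  exact ext_inner_left ℂ fun ξ => h ξ η

/-- `V⋆ V` is the sum of the `vₙ⋆ vₙ` -/
theorem osum_star_mul {v : ℕ → H →L[ℂ] H} (h : OSeq v) :
    star (osum v) * osum v = osum (fun n => star (v n) * v n) := by
  apply Comp2_ext
  intro ξ η
  rw [← Comp2_inner]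
  have h1 : Tendsto (fun n => inner ℂ ((∑ k ∈ Finset.range n, v k) ξ)
      ((∑ k ∈ Finset.range n, v k) η)) atTop (𝓝 (inner ℂ (osum v ξ) (osum v η))) :=
    (h.strong ξ).inner (h.strong η)
  have h2 : Tendsto (fun n => inner ℂ ξ ((∑ k ∈ Finset.range n, star (v k) * v k) η)) atTop
      (𝓝 (inner ℂ ξ (osum (fun n => star (v n) * v n) η))) :=
    tendsto_const_nhds.inner ((Comp2_oseq h).strong η)
  refine tendsto_nhds_unique h1 (h2.congr fun n => ?_)
  rw [Comp2_inner]
  congr 3
  rw [star_sum, Finset.sum_mul]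
  refine (Finset.sum_congr rfl fun k hk => ?_).symm
  rw [Finset.mul_sum, Finset.sum_eq_single k]
  · intro l _ hl
    exact h.fin k l (Ne.symm hl)
  · intro h0
    exact absurd hk h0

theorem osum_ini {v : ℕ → H →L[ℂ] H} (h : OSeq v) (n : ℕ) :
    osum v * (star (v n) * v n) = v n := by
  ext ξ
  have h1 := h.strong ((star (v n) * v n) ξ)
  have h2 : Tendsto (fun m => (∑ k ∈ Finset.range m, v k) ((star (v n) * v n) ξ)) atTop
      (𝓝 (v n ξ)) := by
    apply tendsto_const_nhds.congr'
    filter_upwards [eventually_gt_atTop n] with m hm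
    have h3 : (∑ k ∈ Finset.range m, v k) * (star (v n) * v n) = v n := by
      rw [Finset.sum_mul, Finset.sum_eq_single n]
      · exact (PJ.pi (h.pj n)).1
      · intro k _ hk
        rw [← mul_assoc, h.ini k n hk, zero_mul]
      · intro h0
        exact absurd (Finset.mem_range.2 hm) h0
    have h4 := congrArg (fun A : H →L[ℂ] H => A ξ) h3
    exact h4.symm
  exact tendsto_nhds_unique h1 h2

theorem osum_pj {v : ℕ → H →L[ℂ] H} (h : OSeq v) : PJ (star (osum v) * osum v) := by
  have key : osum v * (star (osum v) * osum v) = osum v := by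
    rw [osum_star_mul h]
    ext η
    have h1 : Tendsto (fun n => osum v ((∑ k ∈ Finset.range n, star (v k) * v k) η)) atTop
        (𝓝 (osum v (osum (fun n => star (v n) * v n) η))) :=
      ((osum v).continuous.tendsto _).comp ((Comp2_oseq h).strong η)
    refine tendsto_nhds_unique h1 ((h.strong η).congr fun n => ?_)
    have h2 : osum v * ∑ k ∈ Finset.range n, star (v k) * v k = ∑ k ∈ Finset.range n, v k := by
      rw [Finset.mul_sum]
      exact Finset.sum_congr rfl fun k _ => osum_ini h k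
    exact (congrArg (fun A : H →L[ℂ] H => A η) h2).symm
  constructor
  · rw [mul_assoc, key]
  · rw [star_mul, star_star]

theorem osum_mul_star {v : ℕ → H →L[ℂ] H} (h : OSeq v) :
    osum v * star (osum v) = osum (fun n => v n * star (v n)) := by
  have h1 := osum_star_mul h.adj
  rw [osum_adj h, star_star] at h1
  rw [h1]
  simp only [star_star]

/-- `V a V⋆ = wlim ∑ vₖ a vₖ⋆` if `a` commutes with the initial projections -/
theorem osum_conj_mem {A : VonNeumannAlgebra H} {v : ℕ → H →L[ℂ] H} (h : OSeq v)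
    {a : H →L[ℂ] H} (ha : ∀ n, a * (star (v n) * v n) = (star (v n) * v n) * a)
    (hA : ∀ n, v n * a * star (v n) ∈ A) : osum v * a * star (osum v) ∈ A := by
  have hS : ∀ n, (∑ k ∈ Finset.range n, v k) * a * star (∑ k ∈ Finset.range n, v k) =
      ∑ k ∈ Finset.range n, v k * a * star (v k) := by
    intro n
    rw [star_sum, Finset.sum_mul, Finset.sum_mul]
    refine Finset.sum_congr rfl fun k hk => ?_
    rw [Finset.mul_sum, Finset.sum_eq_single k]
    · intro l _ hl
      calc v k * a * star (v l) = (v k * (star (v k) * v k)) * a * star (v l) := by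
            rw [(PJ.pi (h.pj k)).1]
        _ = v k * ((star (v k) * v k) * a) * star (v l) := by noncomm_ring
        _ = v k * a * star (v k) * (v k * star (v l)) := by rw [← ha k]; noncomm_ring
        _ = 0 := by rw [h.ini k l (Ne.symm hl), mul_zero]
    · intro h0
      exact absurd hk h0
  have hb : Bdd fun n => (∑ k ∈ Finset.range n, v k) * a * star (∑ k ∈ Finset.range n, v k) :=
    (h.bdd.mul (Bdd.const a)).mul h.bdd.adj
  have hw : wlim (fun n => (∑ k ∈ Finset.range n, v k) * a * star (∑ k ∈ Finset.range n, v k)) =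
      osum v * a * star (osum v) := by
    apply wlim_eq
    intro ξ η
    have hs : ∀ ζ : H, Tendsto (fun n => (star (∑ k ∈ Finset.range n, v k)) ζ) atTop
        (𝓝 (star (osum v) ζ)) := by
      intro ζ
      have h1 := h.adj.strong ζ
      rw [osum_adj h] at h1
      refine h1.congr fun n => ?_
      rw [star_sum]
    have h1 : Tendsto (fun n => inner ℂ ((star (∑ k ∈ Finset.range n, v k)) ξ)
        (a ((star (∑ k ∈ Finset.range n, v k)) η))) atTop
        (𝓝 (inner ℂ ((star (osum v)) ξ) (a ((star (osum v)) η)))) :=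
      (hs ξ).inner ((a.continuous.tendsto _).comp (hs η))
    have h2 : ∀ S : H →L[ℂ] H, inner ℂ ((star S) ξ) (a ((star S) η)) =
        inner ℂ ξ ((S * a * star S) η) := by
      intro S
      have h3 := Comp2_inner (star S) (a * star S) ξ η
      rw [star_star, ← mul_assoc] at h3
      exact h3
    rw [h2] at h1
    exact (h1.congr fun n => h2 _).mono_left Nat.hyperfilter_le_atTop
  rw [← hw]
  refine wlim_mem A hb (Eventually.of_forall fun n => ?_)
  change (∑ k ∈ Finset.range n, v k) * a * star (∑ k ∈ Finset.range n, v k) ∈ A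
  rw [hS n]
  exact sum_mem fun k _ => hA k

theorem osum_mul_left {v : ℕ → H →L[ℂ] H} (h : OSeq v) {q : H →L[ℂ] H} (hq : ∀ n, q * v n = v n) :
    q * osum v = osum v := by
  ext ξ
  have h1 : Tendsto (fun n => q ((∑ k ∈ Finset.range n, v k) ξ)) atTop (𝓝 (q (osum v ξ))) :=
    (q.continuous.tendsto _).comp (h.strong ξ)
  refine tendsto_nhds_unique h1 ((h.strong ξ).congr fun n => ?_)
  have h2 : q * ∑ k ∈ Finset.range n, v k = ∑ k ∈ Finset.range n, v k := by
    rw [Finset.mul_sum]
    exact Finset.sum_congr rfl fun k _ => hq k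
  exact (congrArg (fun A : H →L[ℂ] H => A ξ) h2).symm

/-- additivity of the trace -/
theorem osum_trace (hτ : IsTrace R τ) {v : ℕ → H →L[ℂ] H} (h : OSeq v) (hv : ∀ n, v n ∈ R) :
    HasSum (fun n => (τ (star (v n) * v n)).re) (τ (star (osum v) * osum v)).re := by
  have hm : ∀ n, star (v n) * v n ∈ R := fun n => mul_mem (star_mem (hv n)) (hv n)
  have hnn : ∀ n, 0 ≤ (τ (star (v n) * v n)).re := fun n =>
    (hτ.nonneg (hm n) (star_mul_self_nonneg _)).1
  rw [hasSum_iff_tendsto_nat_of_nonneg hnn]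
  have h1 := hτ.lim (Comp2_oseq h).bdd (fun n => sum_mem fun k _ => hm k)
  have h2 : wlim (fun n => ∑ k ∈ Finset.range n, star (v k) * v k) =
      star (osum v) * osum v := (osum_star_mul h).symm
  rw [h2] at h1
  have h3 : Tendsto (fun n => ∑ k ∈ Finset.range n, (τ (star (v k) * v k)).re) UF
      (𝓝 (τ (star (osum v) * osum v)).re) := by
    refine ((Complex.continuous_re.tendsto _).comp h1).congr fun n => ?_
    change (τ (∑ k ∈ Finset.range n, star (v k) * v k)).re = _
    rw [hτ.sum _ (fun k _ => hm k), Complex.re_sum]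
  have hmono : Monotone (fun n => ∑ k ∈ Finset.range n, (τ (star (v k) * v k)).re) := by
    refine monotone_nat_of_le_succ fun n => ?_
    rw [Finset.sum_range_succ]
    linarith [hnn n]
  rcases tendsto_atTop_of_monotone hmono with h4 | ⟨l, h4⟩
  · exact absurd h3 (not_tendsto_nhds_of_tendsto_atTop (h4.mono_left Nat.hyperfilter_le_atTop) _)
  · rw [tendsto_nhds_unique h3 (h4.mono_left Nat.hyperfilter_le_atTop)]
    exact h4

end Pool.Agent.KKS

end

section

/-!
# Comp3: a factor does not split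
-/


open Filter Topology

namespace Pool.Agent.KKS

variable {H : Type*} [NormedAddCommGroup H] [InnerProductSpace ℂ H] [CompleteSpace H]
variable {R : VonNeumannAlgebra H} {τ : (H →L[ℂ] H) → ℂ}

/-- an operator which leaves a closed subspace and its complement invariant commutes with the
projection -/
private theorem Comp3_comp3_comm (K : Submodule ℂ H) [K.HasOrthogonalProjection] (T : H →L[ℂ] H)
    (h1 : ∀ x ∈ K, T x ∈ K) (h2 : ∀ x ∈ K, star T x ∈ K) :
    K.starProjection * T = T * K.starProjection := by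
  ext ξ
  change K.starProjection (T ξ) = T (K.starProjection ξ)
  have h3 : T (K.starProjection ξ) ∈ K := h1 _ (Submodule.starProjection_apply_mem K ξ)
  have h4 : T (ξ - K.starProjection ξ) ∈ Kᗮ := by
    rw [Submodule.mem_orthogonal]
    intro u hu
    rw [← ContinuousLinearMap.adjoint_inner_left, ← ContinuousLinearMap.star_eq_adjoint]
    have h5 : ξ - K.starProjection ξ ∈ Kᗮ := Submodule.sub_starProjection_mem_orthogonal ξ
    exact (Submodule.mem_orthogonal K _).1 h5 _ (h2 u hu)
  have h6 : T ξ = T (K.starProjection ξ) + T (ξ - K.starProjection ξ) := by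
    rw [← map_add]
    congr 1
    abel
  rw [h6, map_add, Submodule.starProjection_eq_self_iff.2 h3,
    (Submodule.starProjection_apply_eq_zero_iff K).2 h4, add_zero]

/-- (P4 a) if `S` is a multiplicative set closed under adjoints whose commutant is the commutant of
the factor `R`, and `p s e = 0` for all `s ∈ S`, then `e = 0` or `p = 0`: the projection `P` onto the closed span
of all `s e H` commutes with `S`, so with `R`; it commutes with the commutant of `R` as `e ∈ R`, so it is in `R`,
and it is a scalar. -/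
theorem exists_ne_zero (hR : IsFactor R) (S : Set (H →L[ℂ] H)) (hS1 : (1 : H →L[ℂ] H) ∈ S)
    (hSm : ∀ s ∈ S, ∀ t ∈ S, s * t ∈ S) (hSs : ∀ s ∈ S, star s ∈ S) (hSR : ∀ s ∈ S, s ∈ R)
    (hgen : ∀ T : H →L[ℂ] H, (∀ s ∈ S, T * s = s * T) → ∀ x ∈ R, T * x = x * T)
    {e p : H →L[ℂ] H} (heR : e ∈ R) (he : PJ e) (hp : PJ p) (h : ∀ s ∈ S, p * s * e = 0) :
    e = 0 ∨ p = 0 := by
  set G : Set H := {x | ∃ s ∈ S, ∃ ξ : H, x = s (e ξ)} with hG
  set K : Submodule ℂ H := (Submodule.span ℂ G).topologicalClosure with hK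
  have : CompleteSpace K := (Submodule.isClosed_topologicalClosure _).completeSpace_coe
  have hsub : G ⊆ K := fun x hx => Submodule.le_topologicalClosure _ (Submodule.subset_span hx)
  -- invariance of `K` follows from invariance of the generators
  have hinv : ∀ T : H →L[ℂ] H, (∀ x ∈ G, T x ∈ G) → ∀ x ∈ K, T x ∈ K := by
    intro T hT
    have h1 : Submodule.span ℂ G ≤ K.comap (T : H →ₗ[ℂ] H) := by
      rw [Submodule.span_le]
      intro x hx
      exact hsub (hT x hx)
    have h2 : IsClosed ((K.comap (T : H →ₗ[ℂ] H) : Submodule ℂ H) : Set H) := by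
      have : ((K.comap (T : H →ₗ[ℂ] H) : Submodule ℂ H) : Set H) = T ⁻¹' (K : Set H) := rfl
      rw [this]
      exact (Submodule.isClosed_topologicalClosure _).preimage T.continuous
    exact fun x hx => Submodule.topologicalClosure_minimal _ h1 h2 hx
  set P : H →L[ℂ] H := K.starProjection with hP
  have hPS : ∀ s ∈ S, P * s = s * P := by
    intro s hs
    apply Comp3_comp3_comm K s
    · apply hinv
      rintro x ⟨t, ht, ξ, rfl⟩
      exact ⟨s * t, hSm s hs t ht, ξ, rfl⟩
    · apply hinv
      rintro x ⟨t, ht, ξ, rfl⟩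
      exact ⟨star s * t, hSm _ (hSs s hs) t ht, ξ, rfl⟩
  have hPR : ∀ x ∈ R, P * x = x * P := hgen P hPS
  have hmem : P ∈ R := by
    apply mem_of_comm
    intro T hT
    have hT' : ∀ x ∈ R, star T * x = x * star T := by
      intro x hx
      have := congrArg star (hT (star x) (star_mem hx))
      simpa using this.symm
    symm
    have key : ∀ T : H →L[ℂ] H, (∀ x ∈ R, T * x = x * T) → ∀ x ∈ G, T x ∈ G := by
      rintro T hT x ⟨t, ht, ξ, rfl⟩
      refine ⟨t, ht, T ξ, ?_⟩
      have h1 : T * (t * e) = (t * e) * T := hT _ (mul_mem (hSR t ht) heR)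
      exact congrArg (fun A : H →L[ℂ] H => A ξ) h1
    exact Comp3_comp3_comm K T (hinv T (key T hT)) (hinv (star T) (key (star T) hT'))
  obtain ⟨c, hc⟩ := hR P hmem hPR
  have hpP : p * P = 0 := by
    have h1 : ∀ x ∈ K, p x = 0 := by
      have h2 : Submodule.span ℂ G ≤ LinearMap.ker (p : H →ₗ[ℂ] H) := by
        rw [Submodule.span_le]
        rintro x ⟨t, ht, ξ, rfl⟩
        have := congrArg (fun A : H →L[ℂ] H => A ξ) (h t ht)
        exact this
      have h3 : IsClosed ((LinearMap.ker (p : H →ₗ[ℂ] H) : Submodule ℂ H) : Set H) :=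
        ContinuousLinearMap.isClosed_ker p
      intro x hx
      exact Submodule.topologicalClosure_minimal _ h2 h3 hx
    ext ξ
    exact h1 _ (Submodule.starProjection_apply_mem K ξ)
  rw [hc, mul_smul_comm, mul_one, smul_eq_zero] at hpP
  rcases hpP with h0 | h0
  · left
    ext ξ
    have h1 : e ξ ∈ K := hsub ⟨1, hS1, ξ, rfl⟩
    have h2 : P (e ξ) = e ξ := Submodule.starProjection_eq_self_iff.2 h1
    rw [hc, h0, zero_smul] at h2
    exact h2.symm
  · right
    exact h0

end Pool.Agent.KKS

end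

section

/-!
# Comp4: comparison of projections
-/


open Filter Topology

namespace Pool.Agent.KKS

variable {H : Type*} [NormedAddCommGroup H] [InnerProductSpace ℂ H] [CompleteSpace H]
variable {R : VonNeumannAlgebra H} {τ : (H →L[ℂ] H) → ℂ}

/-- partial isometries of `R` from a part of `E` to a part of `F` -/
private def Comp4_Comp4Good (R : VonNeumannAlgebra H) (E F w : H →L[ℂ] H) : Prop :=
  w ∈ R ∧ PJ (star w * w) ∧ w * E = w ∧ F * w = w

private theorem Comp4_exists_good (hR : IsFactor R) {E F : H →L[ℂ] H} (hE : PJ E) (hF : PJ F)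
    (hER : E ∈ R) (hFR : F ∈ R) (hE0 : E ≠ 0) (hF0 : F ≠ 0) :
    ∃ w, Comp4_Comp4Good R E F w ∧ w ≠ 0 := by
  by_contra hcon
  push Not at hcon
  have h0 : ∀ s ∈ {x | x ∈ R}, F * s * E = 0 := by
    intro x hx
    have hT : F * x * E ∈ R := mul_mem (mul_mem hFR hx) hER
    obtain ⟨v, hv, h, hh, -, -, hvh, -, hpj, -, -, hk1, hk2⟩ := polar hT
    have h1 : v * (1 - E) = 0 := by
      rw [← hk1, mul_sub, mul_one, mul_assoc (F * x), hE.idem, sub_self]
    have h2 : (1 - F) * v = 0 := by
      rw [← hk2, sub_mul, one_mul, ← mul_assoc, ← mul_assoc, hF.idem, sub_self]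
    rw [mul_sub, mul_one, sub_eq_zero] at h1
    rw [sub_mul, one_mul, sub_eq_zero] at h2
    have h3 := hcon v ⟨hv, hpj, h1.symm, h2.symm⟩
    rw [← hvh, h3, zero_mul]
  have hSs : ∀ s ∈ {x | x ∈ R}, star s ∈ {x | x ∈ R} := by
    intro s hs
    have hs' : s ∈ R := hs
    exact (star_mem hs' : star s ∈ R)
  have hSm : ∀ s ∈ {x | x ∈ R}, ∀ t ∈ {x | x ∈ R}, s * t ∈ {x | x ∈ R} := by
    intro s hs t ht
    have hs' : s ∈ R := hs
    have ht' : t ∈ R := ht
    exact (mul_mem hs' ht' : s * t ∈ R)
  rcases exists_ne_zero hR {x | x ∈ R} (one_mem R) hSm hSs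
    (fun s hs => hs) (fun T hT x hx => hT x hx) hER hE hF h0 with h1 | h1
  · exact hE0 h1
  · exact hF0 h1

private theorem Comp4_le (hτ : IsTrace R τ) {E F w : H →L[ℂ] H} (hE : PJ E) (hER : E ∈ R)
    (hw : Comp4_Comp4Good R E F w) : (τ (star w * w)).re ≤ (τ E).re := by
  obtain ⟨hwR, hpj, hwE, -⟩ := hw
  refine hτ.mono (mul_mem (star_mem hwR) hwR) hER ?_
  rw [← sub_nonneg]
  refine (hE.sub hpj ?_).nonneg
  have h1 := congrArg star hwE
  rw [star_mul, hE.sa] at h1
  rw [← mul_assoc, h1]

private theorem Comp4_exists_best (hτ : IsTrace R τ) {E F : H →L[ℂ] H} (hE : PJ E) (hER : E ∈ R) :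
    ∃ w, Comp4_Comp4Good R E F w ∧
      ∀ w', Comp4_Comp4Good R E F w' → (τ (star w' * w')).re ≤ 2 * (τ (star w * w)).re := by
  have hz : Comp4_Comp4Good R E F 0 :=
    ⟨zero_mem R, by rw [mul_zero]; exact ⟨mul_zero 0, star_zero _⟩, zero_mul _, mul_zero _⟩
  set S : Set ℝ := {t | ∃ w, Comp4_Comp4Good R E F w ∧ t = (τ (star w * w)).re} with hS
  have hbdd : BddAbove S := by
    refine ⟨(τ E).re, ?_⟩
    rintro t ⟨w, hw, rfl⟩
    exact Comp4_le hτ hE hER hw
  have hne : S.Nonempty := ⟨_, 0, hz, rfl⟩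
  by_cases hs : sSup S ≤ 0
  · refine ⟨0, hz, fun w' hw' => ?_⟩
    have h1 : (τ (star w' * w')).re ≤ sSup S := le_csSup hbdd ⟨w', hw', rfl⟩
    rw [mul_zero, hτ.zero, Complex.zero_re, mul_zero]
    exact h1.trans hs
  · push Not at hs
    obtain ⟨t, ⟨w, hw, rfl⟩, ht⟩ := exists_lt_of_lt_csSup hne (half_lt_self hs)
    refine ⟨w, hw, fun w' hw' => ?_⟩
    have h1 : (τ (star w' * w')).re ≤ sSup S := le_csSup hbdd ⟨w', hw', rfl⟩
    linarith

/-- (P4) comparison of projections in a factor with a faithful normal trace -/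
theorem comparison (hR : IsFactor R) (hτ : IsTrace R τ) {e p : H →L[ℂ] H} (he : PJ e) (hp : PJ p)
    (heR : e ∈ R) (hpR : p ∈ R) (hle : (τ e).re ≤ (τ p).re) :
    ∃ v ∈ R, star v * v = e ∧ p * v = v := by
  classical
  have hbest : ∀ E F : H →L[ℂ] H, ∃ w : H →L[ℂ] H, PJ E → E ∈ R → (Comp4_Comp4Good R E F w ∧
      ∀ w', Comp4_Comp4Good R E F w' → (τ (star w' * w')).re ≤ 2 * (τ (star w * w)).re) := by
    intro E F
    by_cases h : PJ E ∧ E ∈ R
    · obtain ⟨w, hw⟩ := Comp4_exists_best (F := F) hτ h.1 h.2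
      exact ⟨w, fun _ _ => hw⟩
    · exact ⟨0, fun h1 h2 => absurd ⟨h1, h2⟩ h⟩
  choose b hb using hbest
  obtain ⟨E, F, hE0, hF0, hEs, hFs⟩ : ∃ E F : ℕ → H →L[ℂ] H, E 0 = e ∧ F 0 = p ∧
      (∀ m, E (m + 1) = E m - star (b (E m) (F m)) * (b (E m) (F m))) ∧
      ∀ m, F (m + 1) = F m - (b (E m) (F m)) * star (b (E m) (F m)) := by
    let st : ℕ → (H →L[ℂ] H) × (H →L[ℂ] H) := fun n => Nat.rec (e, p) (fun m q =>
      (q.1 - star (b q.1 q.2) * (b q.1 q.2),
        q.2 - (b q.1 q.2) * star (b q.1 q.2))) n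
    exact ⟨fun n => (st n).1, fun n => (st n).2, rfl, rfl, fun _ => rfl, fun _ => rfl⟩
  obtain ⟨v, hvdef, hes, hfs⟩ : ∃ v : ℕ → H →L[ℂ] H, (∀ m, v m = b (E m) (F m)) ∧
      (∀ m, E (m + 1) = E m - star (v m) * v m) ∧
      ∀ m, F (m + 1) = F m - v m * star (v m) := ⟨_, fun _ => rfl, hEs, hFs⟩
  have hinv : ∀ m, PJ (E m) ∧ E m ∈ R ∧ PJ (F m) ∧ F m ∈ R := by
    intro m
    induction m with
    | zero => rw [hE0, hF0]; exact ⟨he, heR, hp, hpR⟩
    | succ m ih =>
      obtain ⟨h1, h2, h3, h4⟩ := ih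
      obtain ⟨hvR, hpj, hvE, hFv⟩ : Comp4_Comp4Good R (E m) (F m) (v m) := by
        rw [hvdef]; exact (hb (E m) (F m) h1 h2).1
      rw [hes, hfs]
      refine ⟨h1.sub hpj ?_, sub_mem h2 (mul_mem (star_mem hvR) hvR), h3.sub hpj.pi.2 ?_,
        sub_mem h4 (mul_mem hvR (star_mem hvR))⟩
      · have h6 := congrArg star hvE
        rw [star_mul, h1.sa] at h6
        rw [← mul_assoc, h6]
      · rw [← mul_assoc, hFv]
  have hgood : ∀ m, Comp4_Comp4Good R (E m) (F m) (v m) := by
    intro m
    rw [hvdef]; exact (hb (E m) (F m) (hinv m).1 (hinv m).2.1).1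
  have hbst : ∀ m w', Comp4_Comp4Good R (E m) (F m) w' →
      (τ (star w' * w')).re ≤ 2 * (τ (star (v m) * v m)).re := by
    intro m
    rw [hvdef]; exact (hb (E m) (F m) (hinv m).1 (hinv m).2.1).2
  have hvR : ∀ m, v m ∈ R := fun m => (hgood m).1
  have hpj : ∀ m, PJ (star (v m) * v m) := fun m => (hgood m).2.1
  have hve : ∀ m, v m * E m = v m := fun m => (hgood m).2.2.1
  have hfv : ∀ m, F m * v m = v m := fun m => (hgood m).2.2.2
  have hesv : ∀ m, E m * star (v m) = star (v m) := by
    intro m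
    have h6 := congrArg star (hve m)
    rwa [star_mul, (hinv m).1.sa] at h6
  have hsvf : ∀ m, star (v m) * F m = star (v m) := by
    intro m
    have h6 := congrArg star (hfv m)
    rwa [star_mul, (hinv m).2.2.1.sa] at h6
  -- monotonicity
  have hemono : ∀ m k, E m * E (m + k) = E (m + k) := by
    intro m k
    induction k with
    | zero => exact (hinv m).1.idem
    | succ k ih =>
      rw [← add_assoc, hes, mul_sub, ih]
      congr 1
      rw [← hesv (m + k), ← mul_assoc, ← mul_assoc, ih]
  have hfmono : ∀ m k, F m * F (m + k) = F (m + k) := by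
    intro m k
    induction k with
    | zero => exact (hinv m).2.2.1.idem
    | succ k ih =>
      rw [← add_assoc, hfs, mul_sub, ih]
      congr 1
      rw [← hfv (m + k), ← mul_assoc, ← mul_assoc, ih]
  have hve1 : ∀ m, v m * E (m + 1) = 0 := by
    intro m
    rw [hes, mul_sub, hve, (hpj m).pi.1, sub_self]
  have hvf1 : ∀ m, star (v m) * F (m + 1) = 0 := by
    intro m
    rw [hfs, mul_sub, hsvf, ← mul_assoc]
    have h6 := congrArg star (hpj m).pi.1
    rw [star_mul, (hpj m).sa] at h6
    rw [h6, sub_self]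
  have hini : ∀ m n, m < n → v m * star (v n) = 0 := by
    intro m n hmn
    obtain ⟨k, rfl⟩ : ∃ k, n = m + 1 + k := ⟨n - (m + 1), by omega⟩
    rw [← hesv (m + 1 + k), ← hemono (m + 1) k, ← mul_assoc, ← mul_assoc, hve1, zero_mul,
      zero_mul]
  have hfin : ∀ m n, m < n → star (v m) * v n = 0 := by
    intro m n hmn
    obtain ⟨k, rfl⟩ : ∃ k, n = m + 1 + k := ⟨n - (m + 1), by omega⟩
    rw [← hfv (m + 1 + k), ← hfmono (m + 1) k, ← mul_assoc, ← mul_assoc, hvf1, zero_mul,
      zero_mul]
  have ho : OSeq v := by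
    refine ⟨hpj, fun m n hmn => ?_, fun m n hmn => ?_⟩
    · rcases lt_or_gt_of_ne hmn with h1 | h1
      · exact hini m n h1
      · have h2 := congrArg star (hini n m h1)
        rwa [star_mul, star_star, star_zero] at h2
    · rcases lt_or_gt_of_ne hmn with h1 | h1
      · exact hfin m n h1
      · have h2 := congrArg star (hfin n m h1)
        rwa [star_mul, star_star, star_zero] at h2
  have hVR : osum v ∈ R := osum_mem ho hvR
  have hVV : star (osum v) * osum v ∈ R := mul_mem (star_mem hVR) hVR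
  have hVV' : osum v * star (osum v) ∈ R := mul_mem hVR (star_mem hVR)
  have hPV : PJ (star (osum v) * osum v) := osum_pj ho
  have hEe : ∀ m, e * E m = E m := by
    intro m
    have h1 := hemono 0 m
    rwa [hE0, zero_add] at h1
  have hFf : ∀ m, p * F m = F m := by
    intro m
    have h1 := hfmono 0 m
    rwa [hF0, zero_add] at h1
  -- the remainders
  have hEV : e * star (osum v) = star (osum v) := by
    rw [← osum_adj ho]
    refine osum_mul_left ho.adj fun n => ?_
    rw [← hesv, ← mul_assoc, hEe]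
  have hFV : p * osum v = osum v := by
    refine osum_mul_left ho fun n => ?_
    rw [← hfv, ← mul_assoc, hFf]
  have hEVV : e * (star (osum v) * osum v) = star (osum v) * osum v := by
    rw [← mul_assoc, hEV]
  have hFVV : p * (osum v * star (osum v)) = osum v * star (osum v) := by
    rw [← mul_assoc, hFV]
  have hPE' : PJ (e - star (osum v) * osum v) := he.sub hPV hEVV
  have hPF' : PJ (p - osum v * star (osum v)) := hp.sub hPV.pi.2 hFVV
  have hER : e - star (osum v) * osum v ∈ R := sub_mem heR hVV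
  have hFR : p - osum v * star (osum v) ∈ R := sub_mem hpR hVV'
  -- the remainders are below all `E m`, `F m`
  have hVk : ∀ k, osum v * (star (v k) * v k) = v k := osum_ini ho
  have hVk' : ∀ k, star (osum v) * (v k * star (v k)) = star (v k) := by
    intro k
    have h0 := osum_ini ho.adj k
    rw [osum_adj ho] at h0
    have h3 : star (osum v) * (star (star (v k)) * star (v k)) = star (v k) := h0
    rwa [star_star] at h3
  have hVvk : ∀ k, star (osum v) * v k = star (v k) * v k := by
    intro k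
    have h1 := congrArg (· * v k) (hVk' k)
    simp only [mul_assoc] at h1
    rwa [(hpj k).pi.1] at h1
  have hVsk : ∀ k, osum v * star (v k) = v k * star (v k) := by
    intro k
    have h1 := congrArg (· * star (v k)) (hVk k)
    have h2 := congrArg star (hpj k).pi.1
    rw [star_mul, (hpj k).sa, mul_assoc] at h2
    simp only [mul_assoc] at h1
    rwa [h2] at h1
  have hkE : ∀ k, (star (v k) * v k) * (star (osum v) * osum v) = star (v k) * v k := by
    intro k
    have h1 : (star (osum v) * osum v) * (star (v k) * v k) = star (v k) * v k := by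
      rw [mul_assoc, hVk, hVvk]
    have h2 := congrArg star h1
    rwa [star_mul, (hpj k).sa, hPV.sa] at h2
  have hkF : ∀ k, (v k * star (v k)) * (osum v * star (osum v)) = v k * star (v k) := by
    intro k
    have h1 : (osum v * star (osum v)) * (v k * star (v k)) = v k * star (v k) := by
      rw [mul_assoc, hVk', hVsk]
    have h2 := congrArg star h1
    rwa [star_mul, (hpj k).pi.2.sa, hPV.pi.2.sa] at h2
  have hvke : ∀ k, v k * e = v k := by
    intro k
    have h2 : e * star (v k) = star (v k) := by rw [← hesv, ← mul_assoc, hEe]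
    have h3 := congrArg star h2
    rwa [star_mul, he.sa, star_star] at h3
  have hvkp : ∀ k, star (v k) * p = star (v k) := by
    intro k
    have h2 : p * v k = v k := by rw [← hfv, ← mul_assoc, hFf]
    have h3 := congrArg star h2
    rwa [star_mul, hp.sa] at h3
  have hEm : ∀ m, E m * (e - star (osum v) * osum v) = e - star (osum v) * osum v := by
    intro m
    induction m with
    | zero => rw [hE0, mul_sub, he.idem, hEVV]
    | succ m ih =>
      rw [hes, sub_mul, ih]
      have h1 : star (v m) * v m * (e - star (osum v) * osum v) = 0 := by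
        rw [mul_sub, hkE, mul_assoc, hvke, sub_self]
      rw [h1, sub_zero]
  have hFm : ∀ m, F m * (p - osum v * star (osum v)) = p - osum v * star (osum v) := by
    intro m
    induction m with
    | zero => rw [hF0, mul_sub, hp.idem, hFVV]
    | succ m ih =>
      rw [hfs, sub_mul, ih]
      have h1 : v m * star (v m) * (p - osum v * star (osum v)) = 0 := by
        rw [mul_sub, hkF, mul_assoc, hvkp, sub_self]
      rw [h1, sub_zero]
  have hsum := osum_trace hτ ho hvR
  have hzero : e - star (osum v) * osum v = 0 ∨ p - osum v * star (osum v) = 0 := by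
    by_contra hcon
    push Not at hcon
    obtain ⟨w, ⟨hwR, hwpj, hwE, hFw⟩, hw0⟩ :=
      Comp4_exists_good hR hPE' hPF' hER hFR hcon.1 hcon.2
    have hwm : ∀ m, Comp4_Comp4Good R (E m) (F m) w := by
      intro m
      refine ⟨hwR, hwpj, ?_, ?_⟩
      · have h1 := congrArg star (hEm m)
        rw [star_mul, hPE'.sa, (hinv m).1.sa] at h1
        rw [← hwE, mul_assoc, h1]
      · rw [← hFw, ← mul_assoc, hFm m]
    have h2 : Tendsto (fun n => 2 * (τ (star (v n) * v n)).re) atTop (𝓝 (2 * 0)) :=
      (hsum.summable.tendsto_atTop_zero).const_mul 2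
    rw [mul_zero] at h2
    have h3 : (τ (star w * w)).re ≤ 0 :=
      ge_of_tendsto h2 (Filter.Eventually.of_forall fun n => hbst n w (hwm n))
    have h4 := hτ.nonneg (mul_mem (star_mem hwR) hwR) hwpj.nonneg
    have h5 : (τ (star w * w)).re = 0 := le_antisymm h3 h4.1
    refine hw0 (hτ.faithful w hwR ?_)
    rw [h4.2, h5, Complex.ofReal_zero]
  have hfinal : e - star (osum v) * osum v = 0 := by
    rcases hzero with h1 | h1
    · exact h1
    · refine hτ.eq_zero hER hPE'.nonneg (le_antisymm ?_ (hτ.nonneg hER hPE'.nonneg).1)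
      rw [hτ.sub heR hVV, Complex.sub_re, hτ.swap hVR, ← sub_eq_zero.1 h1]
      linarith
  exact ⟨osum v, hVR, (sub_eq_zero.1 hfinal).symm, hFV⟩

end Pool.Agent.KKS

end
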