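import Pool.Agent.Lib.MP_5c1ef7_an.P03

/-!
# P04: crossed products with a masa, systems of matrix units
-/

set_option autoImplicit false
set_option linter.unusedSectionVars false

section

/-!
# Cm: crossed products with a masa, normalising partial isometries
-/


open Filter Topology

namespace Pool.Agent.KKS

variable {H : Type*} [NormedAddCommGroup H] [InnerProductSpace ℂ H] [CompleteSpace H]

/-- `M` is a factor with trace `τ`, `A` is a masa in `M`, the unitaries `u g` normalise `A`, and
`M` is generated by both; `A` is diffuse (`val`) and separable (`dense`). -/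
structure CM {Γ : Type*} [Group Γ] (M A : VonNeumannAlgebra H) (τ : (H →L[ℂ] H) → ℂ)
    (u : Γ → H →L[ℂ] H) : Prop where
  trace : IsTrace M τ
  factor : IsFactor M
  le : ∀ a ∈ A, a ∈ M
  comm : ∀ a ∈ A, ∀ b ∈ A, a * b = b * a
  max : ∀ x ∈ M, (∀ a ∈ A, x * a = a * x) → x ∈ A
  u_mem : ∀ g, u g ∈ M
  u_one : u 1 = 1
  u_mul : ∀ g h, u (g * h) = u g * u h
  u_star : ∀ g, star (u g) = u g⁻¹
  u_norm : ∀ g, ∀ a ∈ A, u g * a * star (u g) ∈ A
  u_free : ∀ g, g ≠ 1 → ∀ a ∈ A, τ (a * u g) = 0
  gen : ∀ T : H →L[ℂ] H, (∀ a ∈ A, T * a = a * T) → (∀ g, T * u g = u g * T) →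
    ∀ x ∈ M, T * x = x * T
  projgen : ∀ T : H →L[ℂ] H, (∀ e ∈ A, PJ e → T * e = e * T) → ∀ a ∈ A, T * a = a * T
  val : ∀ e ∈ A, PJ e → ∀ t : ℝ, 0 ≤ t → t ≤ (τ e).re →
    ∃ f ∈ A, PJ f ∧ e * f = f ∧ (τ f).re = t
  dense : ∃ p : ℕ → H →L[ℂ] H, (∀ n, p n ∈ A ∧ PJ (p n)) ∧
    ∀ e ∈ A, PJ e → ∀ ε : ℝ, 0 < ε → ∃ n, (τ ((e - p n) * (e - p n))).re < ε

/-- partial isometries of `W` which normalise `A` -/
structure GN (W A : VonNeumannAlgebra H) (v : H →L[ℂ] H) : Prop where
  mem : v ∈ W
  pj : PJ (star v * v)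
  ini : star v * v ∈ A
  fin : v * star v ∈ A
  conj : ∀ a ∈ A, v * a * star v ∈ A
  conj' : ∀ a ∈ A, star v * a * v ∈ A

theorem GN.adj {W A : VonNeumannAlgebra H} {v : H →L[ℂ] H} (h : GN W A v) : GN W A (star v) where
  mem := star_mem h.mem
  pj := by
    rw [star_star]
    exact h.pj.pi.2
  ini := by
    rw [star_star]
    exact h.fin
  fin := by
    rw [star_star]
    exact h.ini
  conj := fun a ha => by
    rw [star_star]
    exact h.conj' a ha
  conj' := fun a ha => by
    rw [star_star]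
    exact h.conj a ha

theorem GN.mul {W A : VonNeumannAlgebra H} {v w : H →L[ℂ] H} (h : GN W A v) (h' : GN W A w)
    (hA : ∀ a ∈ A, ∀ b ∈ A, a * b = b * a) : GN W A (v * w) where
  mem := mul_mem h.mem h'.mem
  pj := by
    have h1 : star (v * w) * (v * w) = star w * (star v * v) * w := by
      rw [star_mul]
      noncomm_ring
    have h2 := hA _ h.ini _ h'.fin
    have h3 : w * star w * w = w := by
      rw [mul_assoc]
      exact h'.pj.pi.1
    rw [h1]
    constructor
    · calc star w * (star v * v) * w * (star w * (star v * v) * w)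
          = star w * ((star v * v) * (w * star w)) * (star v * v) * w := by noncomm_ring
        _ = star w * ((w * star w) * (star v * v)) * (star v * v) * w := by rw [h2]
        _ = star w * (w * star w) * ((star v * v) * (star v * v)) * w := by noncomm_ring
        _ = star w * (w * star w) * (star v * v) * w := by rw [h.pj.idem]
        _ = star (w * star w * w) * (star v * v) * w := by
            rw [star_mul (w * star w), (h'.pj.pi.2).sa]
        _ = star w * (star v * v) * w := by rw [h3]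
    · rw [star_mul, star_mul, h.pj.sa, star_star]
      noncomm_ring
  ini := by
    have h1 : star (v * w) * (v * w) = star w * (star v * v) * w := by
      rw [star_mul]
      noncomm_ring
    rw [h1]
    exact h'.conj' _ h.ini
  fin := by
    have h1 : (v * w) * star (v * w) = v * (w * star w) * star v := by
      rw [star_mul]
      noncomm_ring
    rw [h1]
    exact h.conj _ h'.fin
  conj := fun a ha => by
    have h1 : (v * w) * a * star (v * w) = v * (w * a * star w) * star v := by
      rw [star_mul]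
      noncomm_ring
    rw [h1]
    exact h.conj _ (h'.conj _ ha)
  conj' := fun a ha => by
    have h1 : star (v * w) * a * (v * w) = star w * (star v * a * v) * w := by
      rw [star_mul]
      noncomm_ring
    rw [h1]
    exact h'.conj' _ (h.conj' _ ha)

theorem GN.of_proj {W A : VonNeumannAlgebra H} {e : H →L[ℂ] H} (he : e ∈ A) (h : PJ e)
    (hW : ∀ a ∈ A, a ∈ W) : GN W A e where
  mem := hW e he
  pj := by
    rw [h.sa, h.idem]
    exact h
  ini := mul_mem (star_mem he) he
  fin := mul_mem he (star_mem he)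
  conj := fun a ha => mul_mem (mul_mem he ha) (star_mem he)
  conj' := fun a ha => mul_mem (mul_mem (star_mem he) ha) he

theorem CM.unit {Γ : Type*} [Group Γ] {M A : VonNeumannAlgebra H} {τ : (H →L[ℂ] H) → ℂ}
    {u : Γ → H →L[ℂ] H} (h : CM M A τ u) (g : Γ) :
    star (u g) * u g = 1 ∧ u g * star (u g) = 1 := by
  rw [h.u_star, ← h.u_mul, ← h.u_mul, inv_mul_cancel, mul_inv_cancel, h.u_one]
  exact ⟨rfl, rfl⟩

theorem CM.gn {Γ : Type*} [Group Γ] {M A : VonNeumannAlgebra H} {τ : (H →L[ℂ] H) → ℂ}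
    {u : Γ → H →L[ℂ] H} (h : CM M A τ u) (g : Γ) : GN M A (u g) where
  mem := h.u_mem g
  pj := by
    rw [(h.unit g).1]
    exact ⟨one_mul 1, star_one _⟩
  ini := by
    rw [(h.unit g).1]
    exact one_mem A
  fin := by
    rw [(h.unit g).2]
    exact one_mem A
  conj := fun a ha => h.u_norm g a ha
  conj' := fun a ha => by
    have h1 := h.u_norm g⁻¹ a ha
    rwa [← h.u_star, star_star] at h1

/-- orthogonal sums of normalising partial isometries -/
theorem GN.osum {W A : VonNeumannAlgebra H} {v : ℕ → H →L[ℂ] H} (hv : ∀ n, GN W A (v n))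
    (ho : OSeq v) (hA : ∀ a ∈ A, ∀ b ∈ A, a * b = b * a) : GN W A (osum v) := by
  have h1 : ∀ a ∈ A, Pool.Agent.KKS.osum v * a * star (Pool.Agent.KKS.osum v) ∈ A := fun a ha =>
    osum_conj_mem ho (fun n => hA _ ha _ (hv n).ini) fun n => (hv n).conj a ha
  have h2 : ∀ a ∈ A, star (Pool.Agent.KKS.osum v) * a * Pool.Agent.KKS.osum v ∈ A := by
    intro a ha
    have h3 := osum_conj_mem (A := A) (a := a) ho.adj
      (fun n => by
        rw [star_star]
        exact hA _ ha _ (hv n).fin)
      (fun n => by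
        rw [star_star]
        exact (hv n).conj' a ha)
    rwa [osum_adj ho, star_star] at h3
  exact
    { mem := osum_mem ho fun n => (hv n).mem
      pj := osum_pj ho
      ini := by
        have := h2 1 (one_mem A)
        rwa [mul_one] at this
      fin := by
        have := h1 1 (one_mem A)
        rwa [mul_one] at this
      conj := h1
      conj' := h2 }

end Pool.Agent.KKS

end

section

/-!
# Cm2: transitivity
-/


open Filter Topology

namespace Pool.Agent.KKS

variable {H : Type*} [NormedAddCommGroup H] [InnerProductSpace ℂ H] [CompleteSpace H]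

/-- (3.2) transitivity -/
theorem trans {W A : VonNeumannAlgebra H} {τ : (H →L[ℂ] H) → ℂ} (hτ : IsTrace W τ)
    (hAW : ∀ a ∈ A, a ∈ W) (hA : ∀ a ∈ A, ∀ b ∈ A, a * b = b * a) (s : ℕ → H →L[ℂ] H)
    (hs : ∀ m, GN W A (s m))
    (herg : ∀ E ∈ A, ∀ F ∈ A, PJ E → PJ F → (∀ m, F * s m * E = 0) → E = 0 ∨ F = 0)
    {E F : H →L[ℂ] H} (hE : E ∈ A) (hF : F ∈ A) (hPE : PJ E) (hPF : PJ F) (h : τ E = τ F) :
    ∃ v, GN W A v ∧ star v * v = E ∧ v * star v = F := by
  obtain ⟨e, f, he0, hf0, hes, hfs⟩ : ∃ e f : ℕ → H →L[ℂ] H, e 0 = E ∧ f 0 = F ∧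
      (∀ m, e (m + 1) = e m - star (f m * s m * e m) * (f m * s m * e m)) ∧
      ∀ m, f (m + 1) = f m - (f m * s m * e m) * star (f m * s m * e m) := by
    let st : ℕ → (H →L[ℂ] H) × (H →L[ℂ] H) := fun n => Nat.rec (E, F) (fun m p =>
      (p.1 - star (p.2 * s m * p.1) * (p.2 * s m * p.1),
        p.2 - (p.2 * s m * p.1) * star (p.2 * s m * p.1))) n
    exact ⟨fun n => (st n).1, fun n => (st n).2, rfl, rfl, fun _ => rfl, fun _ => rfl⟩
  obtain ⟨v, hvdef, hes', hfs'⟩ : ∃ v : ℕ → H →L[ℂ] H, (∀ m, v m = f m * s m * e m) ∧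
      (∀ m, e (m + 1) = e m - star (v m) * v m) ∧
      ∀ m, f (m + 1) = f m - v m * star (v m) := ⟨_, fun _ => rfl, hes, hfs⟩
  have hvg : ∀ m, PJ (e m) → e m ∈ A → PJ (f m) → f m ∈ A → GN W A (v m) :=
    fun m h1 h2 h3 h4 => hvdef m ▸
      ((GN.of_proj h4 h3 hAW).mul (hs m) hA).mul (GN.of_proj h2 h1 hAW) hA
  have hve : ∀ m, PJ (e m) → v m * e m = v m := by
    intro m h1
    rw [hvdef, mul_assoc, h1.idem]
  have hfv : ∀ m, PJ (f m) → f m * v m = v m := by
    intro m h1
    rw [hvdef, ← mul_assoc, ← mul_assoc, h1.idem]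
  have hinv : ∀ m, PJ (e m) ∧ e m ∈ A ∧ PJ (f m) ∧ f m ∈ A := by
    intro m
    induction m with
    | zero => rw [he0, hf0]; exact ⟨hPE, hE, hPF, hF⟩
    | succ m ih =>
      obtain ⟨h1, h2, h3, h4⟩ := ih
      have hg := hvg m h1 h2 h3 h4
      rw [hes', hfs']
      refine ⟨h1.sub hg.pj ?_, sub_mem h2 hg.ini, h3.sub hg.pj.pi.2 ?_, sub_mem h4 hg.fin⟩
      · have h5 : e m * star (v m) = star (v m) := by
          have h6 := congrArg star (hve m h1)
          rwa [star_mul, h1.sa] at h6
        rw [← mul_assoc, h5]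
      · rw [← mul_assoc, hfv m h3]
  have hg : ∀ m, GN W A (v m) := fun m =>
    hvg m (hinv m).1 (hinv m).2.1 (hinv m).2.2.1 (hinv m).2.2.2
  have hve' : ∀ m, v m * e m = v m := fun m => hve m (hinv m).1
  have hfv' : ∀ m, f m * v m = v m := fun m => hfv m (hinv m).2.2.1
  have hesv : ∀ m, e m * star (v m) = star (v m) := by
    intro m
    have h6 := congrArg star (hve' m)
    rwa [star_mul, (hinv m).1.sa] at h6
  have hsvf : ∀ m, star (v m) * f m = star (v m) := by
    intro m
    have h6 := congrArg star (hfv' m)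
    rwa [star_mul, (hinv m).2.2.1.sa] at h6
  -- monotonicity
  have hemono : ∀ m k, e m * e (m + k) = e (m + k) := by
    intro m k
    induction k with
    | zero => exact (hinv m).1.idem
    | succ k ih =>
      rw [← add_assoc, hes', mul_sub, ih]
      congr 1
      rw [← hesv (m + k), ← mul_assoc, ← mul_assoc, ih]
  have hfmono : ∀ m k, f m * f (m + k) = f (m + k) := by
    intro m k
    induction k with
    | zero => exact (hinv m).2.2.1.idem
    | succ k ih =>
      rw [← add_assoc, hfs', mul_sub, ih]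
      congr 1
      rw [← hfv' (m + k), ← mul_assoc, ← mul_assoc, ih]
  have hve1 : ∀ m, v m * e (m + 1) = 0 := by
    intro m
    rw [hes', mul_sub, hve', (hg m).pj.pi.1, sub_self]
  have hvf1 : ∀ m, star (v m) * f (m + 1) = 0 := by
    intro m
    rw [hfs', mul_sub, hsvf, ← mul_assoc]
    have h6 := congrArg star (hg m).pj.pi.1
    rw [star_mul, (hg m).pj.sa] at h6
    rw [h6, sub_self]
  have hini : ∀ m n, m < n → v m * star (v n) = 0 := by
    intro m n hmn
    obtain ⟨k, rfl⟩ : ∃ k, n = m + 1 + k := ⟨n - (m + 1), by omega⟩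
    rw [← hesv (m + 1 + k), ← hemono (m + 1) k, ← mul_assoc, ← mul_assoc, hve1, zero_mul,
      zero_mul]
  have hfin : ∀ m n, m < n → star (v m) * v n = 0 := by
    intro m n hmn
    obtain ⟨k, rfl⟩ : ∃ k, n = m + 1 + k := ⟨n - (m + 1), by omega⟩
    rw [← hfv' (m + 1 + k), ← hfmono (m + 1) k, ← mul_assoc, ← mul_assoc, hvf1, zero_mul,
      zero_mul]
  have ho : OSeq v := by
    refine ⟨fun n => (hg n).pj, fun m n hmn => ?_, fun m n hmn => ?_⟩
    · rcases lt_or_gt_of_ne hmn with h1 | h1
      · exact hini m n h1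
      · have h2 := congrArg star (hini n m h1)
        rwa [star_mul, star_star, star_zero] at h2
    · rcases lt_or_gt_of_ne hmn with h1 | h1
      · exact hfin m n h1
      · have h2 := congrArg star (hfin n m h1)
        rwa [star_mul, star_star, star_zero] at h2
  have hV : GN W A (osum v) := GN.osum hg ho hA
  have hEe : ∀ m, E * e m = e m := by
    intro m
    have h1 := hemono 0 m
    rwa [he0, zero_add] at h1
  have hFf : ∀ m, F * f m = f m := by
    intro m
    have h1 := hfmono 0 m
    rwa [hf0, zero_add] at h1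
  -- the remainders
  have hEV : E * star (osum v) = star (osum v) := by
    rw [← osum_adj ho]
    refine osum_mul_left ho.adj fun n => ?_
    rw [← hesv, ← mul_assoc, hEe]
  have hFV : F * osum v = osum v := by
    refine osum_mul_left ho fun n => ?_
    rw [← hfv', ← mul_assoc, hFf]
  have hEVV : E * (star (osum v) * osum v) = star (osum v) * osum v := by
    rw [← mul_assoc, hEV]
  have hFVV : F * (osum v * star (osum v)) = osum v * star (osum v) := by
    rw [← mul_assoc, hFV]
  have hPE' : PJ (E - star (osum v) * osum v) := hPE.sub hV.pj hEVV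
  have hPF' : PJ (F - osum v * star (osum v)) := hPF.sub hV.pj.pi.2 hFVV
  have hEA : E - star (osum v) * osum v ∈ A := sub_mem hE hV.ini
  have hFA : F - osum v * star (osum v) ∈ A := sub_mem hF hV.fin
  -- the remainders are below all `e m`, `f m`
  have hkE : ∀ k, (star (v k) * v k) * (star (osum v) * osum v) = star (v k) * v k := by
    intro k
    have h1 := osum_ini ho k
    have h2 : star (osum v * (star (v k) * v k)) * (osum v * (star (v k) * v k)) =
        star (v k) * v k := by rw [h1]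
    rw [star_mul, (hg k).pj.sa, mul_assoc, ← mul_assoc (star (osum v)),
      hA _ hV.ini _ (hg k).ini, ← mul_assoc, (hg k).pj.idem] at h2
    exact h2
  have hkF : ∀ k, (v k * star (v k)) * (osum v * star (osum v)) = v k * star (v k) := by
    intro k
    have h0 := osum_ini ho.adj k
    rw [osum_adj ho] at h0
    have h1 : star (osum v) * (v k * star (v k)) = star (v k) := by
      have h3 : star (osum v) * (star (star (v k)) * star (v k)) = star (v k) := h0
      rwa [star_star] at h3
    have h2 : star (star (osum v) * (v k * star (v k))) * (star (osum v) * (v k * star (v k))) =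
        v k * star (v k) := by rw [h1, star_star]
    rw [star_mul, (hg k).pj.pi.2.sa, star_star, mul_assoc, ← mul_assoc (osum v),
      hA _ hV.fin _ (hg k).fin, ← mul_assoc, (hg k).pj.pi.2.idem] at h2
    exact h2
  have hEm : ∀ m, e m * (E - star (osum v) * osum v) = E - star (osum v) * osum v := by
    intro m
    induction m with
    | zero => rw [he0, mul_sub, hPE.idem, hEVV]
    | succ m ih =>
      rw [hes', sub_mul, ih]
      have h1 : star (v m) * v m * (E - star (osum v) * osum v) = 0 := by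
        rw [mul_sub, hkE, hA _ (hg m).ini _ hE, ← mul_assoc]
        have h2 : E * star (v m) = star (v m) := by rw [← hesv, ← mul_assoc, hEe]
        rw [h2, sub_self]
      rw [h1, sub_zero]
  have hFm : ∀ m, f m * (F - osum v * star (osum v)) = F - osum v * star (osum v) := by
    intro m
    induction m with
    | zero => rw [hf0, mul_sub, hPF.idem, hFVV]
    | succ m ih =>
      rw [hfs', sub_mul, ih]
      have h1 : v m * star (v m) * (F - osum v * star (osum v)) = 0 := by
        rw [mul_sub, hkF, hA _ (hg m).fin _ hF, ← mul_assoc]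
        have h2 : F * v m = v m := by rw [← hfv', ← mul_assoc, hFf]
        rw [h2, sub_self]
      rw [h1, sub_zero]
  have hzero : ∀ m, (F - osum v * star (osum v)) * s m * (E - star (osum v) * osum v) = 0 := by
    intro m
    have h1 : (F - osum v * star (osum v)) * f m = F - osum v * star (osum v) := by
      rw [hA _ hFA _ (hinv m).2.2.2]
      exact hFm m
    have h2 : (F - osum v * star (osum v)) * s m * (E - star (osum v) * osum v) =
        (F - osum v * star (osum v)) * f m * s m *
          (e m * (e (m + 1) * (E - star (osum v) * osum v))) := by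
      rw [h1, hEm (m + 1), hEm m]
    have h3 : (F - osum v * star (osum v)) * f m * s m *
        (e m * (e (m + 1) * (E - star (osum v) * osum v))) =
        (F - osum v * star (osum v)) * (f m * s m * e m * e (m + 1)) *
          (E - star (osum v) * osum v) := by
      simp only [mul_assoc]
    rw [h2, h3, ← hvdef, hve1, mul_zero, zero_mul]
  have hW : ∀ a ∈ A, a ∈ W := hAW
  have htr : τ (E - star (osum v) * osum v) = τ (F - osum v * star (osum v)) := by
    rw [hτ.sub (hW _ hE) (hW _ hV.ini), hτ.sub (hW _ hF) (hW _ hV.fin), h, hτ.swap hV.mem]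
  have hfinal : E - star (osum v) * osum v = 0 ∧ F - osum v * star (osum v) = 0 := by
    rcases herg _ hEA _ hFA hPE' hPF' hzero with h1 | h1
    · refine ⟨h1, hτ.eq_zero (hW _ hFA) hPF'.nonneg ?_⟩
      rw [← htr, h1, hτ.zero, Complex.zero_re]
    · refine ⟨hτ.eq_zero (hW _ hEA) hPE'.nonneg ?_, h1⟩
      rw [htr, h1, hτ.zero, Complex.zero_re]
  exact ⟨osum v, hV, (sub_eq_zero.1 hfinal.1).symm, (sub_eq_zero.1 hfinal.2).symm⟩

end Pool.Agent.KKS

end

section

/-!
# Cm3: transitivity for crossed products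
-/


open Filter Topology

namespace Pool.Agent.KKS

variable {H : Type*} [NormedAddCommGroup H] [InnerProductSpace ℂ H] [CompleteSpace H]

/-- (3.3) -/
theorem CM.erg {Γ : Type*} [Group Γ] {M A : VonNeumannAlgebra H} {τ : (H →L[ℂ] H) → ℂ}
    {u : Γ → H →L[ℂ] H} (h : CM M A τ u) {E F : H →L[ℂ] H} (hE : E ∈ A) (hF : F ∈ A) (hPE : PJ E)
    (hPF : PJ F) (h0 : ∀ g, F * u g * E = 0) : E = 0 ∨ F = 0 := by
  refine exists_ne_zero h.factor {x | ∃ a ∈ A, ∃ g, x = a * u g} ?_ ?_ ?_ ?_ ?_ (h.le E hE) hPE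
    hPF ?_
  · exact ⟨1, one_mem _, 1, by rw [h.u_one, mul_one]⟩
  · rintro _ ⟨a, ha, g, rfl⟩ _ ⟨b, hb, k, rfl⟩
    refine ⟨a * (u g * b * star (u g)), mul_mem ha (h.u_norm g b hb), g * k, ?_⟩
    have h1 := (h.unit g).1
    rw [h.u_mul]
    calc a * u g * (b * u k) = a * u g * b * 1 * u k := by noncomm_ring
      _ = a * u g * b * (star (u g) * u g) * u k := by rw [h1]
      _ = _ := by noncomm_ring
  · rintro _ ⟨a, ha, g, rfl⟩
    refine ⟨u g⁻¹ * star a * star (u g⁻¹), h.u_norm g⁻¹ _ (star_mem ha), g⁻¹, ?_⟩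
    have h1 := (h.unit g⁻¹).1
    rw [star_mul, h.u_star]
    calc u g⁻¹ * star a = u g⁻¹ * star a * 1 := by rw [mul_one]
      _ = u g⁻¹ * star a * (star (u g⁻¹) * u g⁻¹) := by rw [h1]
      _ = _ := by noncomm_ring
  · rintro _ ⟨a, ha, g, rfl⟩
    exact mul_mem (h.le a ha) (h.u_mem g)
  · intro T hT
    apply h.gen T
    · intro a ha
      have := hT (a * u 1) ⟨a, ha, 1, rfl⟩
      rwa [h.u_one, mul_one] at this
    · intro g
      have := hT (1 * u g) ⟨1, one_mem _, g, rfl⟩
      rwa [one_mul] at this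
  · rintro _ ⟨a, ha, g, rfl⟩
    calc F * (a * u g) * E = (F * a) * u g * E := by noncomm_ring
      _ = (a * F) * u g * E := by rw [h.comm F hF a ha]
      _ = a * (F * u g * E) := by noncomm_ring
      _ = 0 := by rw [h0 g, mul_zero]

/-- transitivity for `M` -/
theorem CM.trans {Γ : Type*} [Group Γ] [Countable Γ] {M A : VonNeumannAlgebra H}
    {τ : (H →L[ℂ] H) → ℂ} {u : Γ → H →L[ℂ] H} (h : CM M A τ u) {E F : H →L[ℂ] H} (hE : E ∈ A)
    (hF : F ∈ A) (hPE : PJ E) (hPF : PJ F) (h0 : τ E = τ F) :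
    ∃ v, GN M A v ∧ star v * v = E ∧ v * star v = F := by
  obtain ⟨f, hf⟩ := exists_surjective_nat Γ
  refine Pool.Agent.KKS.trans h.trace h.le h.comm (fun m => u (f m)) (fun m => h.gn (f m)) ?_ hE
    hF hPE hPF h0
  intro E' hE' F' hF' hPE' hPF' hm
  refine h.erg hE' hF' hPE' hPF' fun g => ?_
  obtain ⟨m, rfl⟩ := hf g
  exact hm m

end Pool.Agent.KKS

end

section

/-!
# Sys: systems of matrix units
-/


open Filter Topology

namespace Pool.Agent.KKS

variable {H : Type*} [NormedAddCommGroup H] [InnerProductSpace ℂ H] [CompleteSpace H]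

/-- a system of matrix units of `M` which normalise `A` -/
structure MU (M A : VonNeumannAlgebra H) {k : ℕ} (e : Fin k → Fin k → H →L[ℂ] H) : Prop where
  pos : 0 < k
  mem : ∀ i j, e i j ∈ M
  mul : ∀ i j l, e i j * e j l = e i l
  orth : ∀ i j j' l, j ≠ j' → e i j * e j' l = 0
  adj : ∀ i j, star (e i j) = e j i
  sum : ∑ i, e i i = 1
  diag : ∀ i, e i i ∈ A
  conj : ∀ i j, ∀ a ∈ A, e i j * a * e j i ∈ A

/-- `e'` refines `e` -/
def Nest {k k' : ℕ} (e : Fin k → Fin k → H →L[ℂ] H) (e' : Fin k' → Fin k' → H →L[ℂ] H) : Prop :=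
  ∃ (m : ℕ) (φ : Fin k × Fin m ≃ Fin k'), 0 < m ∧ ∀ i j, e i j = ∑ l, e' (φ (i, l)) (φ (j, l))

/-- the sequence of systems of matrix units of 3.5 -/
structure Sys (M A : VonNeumannAlgebra H) (τ : (H →L[ℂ] H) → ℂ) (k : ℕ → ℕ)
    (e : ∀ n, Fin (k n) → Fin (k n) → H →L[ℂ] H) : Prop where
  mu : ∀ n, MU M A (e n)
  kinf : Tendsto k atTop atTop
  nest : ∀ n, Nest (e n) (e (n + 1))
  dense : ∀ p ∈ A, PJ p → ∀ ε : ℝ, 0 < ε → ∀ᶠ n in atTop, ∃ J : Finset (Fin (k n)),
    (τ ((p - ∑ i ∈ J, e n i i) * (p - ∑ i ∈ J, e n i i))).re < ε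

variable {Γ : Type*} [Group Γ] {M A : VonNeumannAlgebra H} {τ : (H →L[ℂ] H) → ℂ}
  {u : Γ → H →L[ℂ] H}

variable {k : ℕ → ℕ} {e : ∀ n, Fin (k n) → Fin (k n) → H →L[ℂ] H}

theorem Nest.refl {k : ℕ} (e : Fin k → Fin k → H →L[ℂ] H) : Nest e e := by
  refine ⟨1, Equiv.prodUnique (Fin k) (Fin 1), one_pos, fun i j => ?_⟩
  simp

theorem Nest.trans {k k' k'' : ℕ} {e : Fin k → Fin k → H →L[ℂ] H}
    {e' : Fin k' → Fin k' → H →L[ℂ] H} {e'' : Fin k'' → Fin k'' → H →L[ℂ] H} (h : Nest e e')
    (h' : Nest e' e'') : Nest e e'' := by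
  obtain ⟨m, φ, hm, h1⟩ := h
  obtain ⟨m', φ', hm', h2⟩ := h'
  refine ⟨m * m', (Equiv.prodCongr (Equiv.refl _) finProdFinEquiv.symm).trans
    ((Equiv.prodAssoc _ _ _).symm.trans ((Equiv.prodCongr φ (Equiv.refl _)).trans φ')),
    Nat.mul_pos hm hm', fun i j => ?_⟩
  rw [← finProdFinEquiv.sum_comp, Fintype.sum_prod_type, h1]
  refine Finset.sum_congr rfl fun a _ => ?_
  rw [h2]
  refine Finset.sum_congr rfl fun b _ => ?_
  simp

theorem Sys.nest_le (h : Sys M A τ k e) {m n : ℕ} (hmn : m ≤ n) : Nest (e m) (e n) := by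
  induction n, hmn using Nat.le_induction with
  | base => exact Nest.refl _
  | succ n _ ih => exact ih.trans (h.nest n)

/-- all atoms have the same trace (`τ` a trace of any algebra containing the system) -/
theorem MU.trace {R : VonNeumannAlgebra H} (hR : IsTrace R τ) {k : ℕ}
    {e : Fin k → Fin k → H →L[ℂ] H} (he : MU M A e) (hm : ∀ i j, e i j ∈ R) (i : Fin k) :
    τ (e i i) = 1 / (k : ℂ) := by
  have h1 : ∀ i j, τ (e j j) = τ (e i i) := by
    intro i j
    rw [← he.mul j i j, hR.tracial _ (hm j i) _ (hm i j), he.mul]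
  have h2 : ∑ j, τ (e j j) = 1 := by
    rw [← hR.sum Finset.univ fun j _ => hm j j, he.sum, hR.one]
  rw [Finset.sum_congr rfl fun j _ => h1 i j, Finset.sum_const, Finset.card_univ,
    Fintype.card_fin, nsmul_eq_mul] at h2
  exact eq_one_div_of_mul_eq_one_right h2

theorem MU.pj {k : ℕ} {e : Fin k → Fin k → H →L[ℂ] H} (he : MU M A e) (i : Fin k) : PJ (e i i) :=
  ⟨he.mul i i i, he.adj i i⟩

/-- commuting with the fine system implies commuting with the coarse one -/
theorem Nest.comm {k k' : ℕ} {e : Fin k → Fin k → H →L[ℂ] H} {e' : Fin k' → Fin k' → H →L[ℂ] H}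
    (h : Nest e e') {T : H →L[ℂ] H} (hT : ∀ i j, T * e' i j = e' i j * T) (i j : Fin k) :
    T * e i j = e i j * T := by
  obtain ⟨m, φ, hm, h1⟩ := h
  rw [h1, Finset.mul_sum, Finset.sum_mul]
  exact Finset.sum_congr rfl fun l _ => hT _ _

theorem Nest.comm_diag {k k' : ℕ} {e : Fin k → Fin k → H →L[ℂ] H}
    {e' : Fin k' → Fin k' → H →L[ℂ] H} (h : Nest e e') {T : H →L[ℂ] H}
    (hT : ∀ i, T * e' i i = e' i i * T) (i : Fin k) : T * e i i = e i i * T := by
  obtain ⟨m, φ, hm, h1⟩ := h
  rw [h1, Finset.mul_sum, Finset.sum_mul]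
  exact Finset.sum_congr rfl fun l _ => hT _

end Pool.Agent.KKS

end

section

/-!
# Sys2: cutting projections of the masa
-/


open Filter Topology

namespace Pool.Agent.KKS

variable {H : Type*} [NormedAddCommGroup H] [InnerProductSpace ℂ H] [CompleteSpace H]

variable {Γ : Type*} [Group Γ] {M A : VonNeumannAlgebra H} {τ : (H →L[ℂ] H) → ℂ}
  {u : Γ → H →L[ℂ] H}

private theorem Sys2_pj_sum {ι : Type*} (s : Finset ι) {x : ι → H →L[ℂ] H}
    (h : ∀ i ∈ s, PJ (x i)) (ho : ∀ i ∈ s, ∀ j ∈ s, i ≠ j → x i * x j = 0) :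
    PJ (∑ i ∈ s, x i) := by
  constructor
  · rw [Finset.sum_mul]
    refine Finset.sum_congr rfl fun i hi => ?_
    rw [Finset.mul_sum, Finset.sum_eq_single i]
    · exact (h i hi).idem
    · intro j hj hji
      exact ho i hi j hj (Ne.symm hji)
    · intro h0
      exact absurd hi h0
  · rw [star_sum]
    exact Finset.sum_congr rfl fun i hi => (h i hi).sa

private theorem Sys2_right {e p : H →L[ℂ] H} (he : PJ e) (hp : PJ p) (h : e * p = p) :
    p * e = p := by
  have := congrArg star h
  rwa [star_mul, he.sa, hp.sa] at this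

/-- orthogonal pieces of equal trace (by induction from `CM.val`) -/
theorem CM.pieces (h : CM M A τ u) {f : H →L[ℂ] H} (hf : f ∈ A) (hP : PJ f) {t : ℝ} (ht : 0 ≤ t)
    (r : ℕ) (hr : r * t ≤ (τ f).re) : ∃ Y : Fin r → H →L[ℂ] H, (∀ i, Y i ∈ A ∧ PJ (Y i) ∧
      f * Y i = Y i ∧ (τ (Y i)).re = t) ∧ ∀ i j, i ≠ j → Y i * Y j = 0 := by
  induction r generalizing f with
  | zero => exact ⟨fun i => i.elim0, fun i => i.elim0, fun i => i.elim0⟩
  | succ r ih =>
    have hr' : ((r : ℝ) + 1) * t ≤ (τ f).re := by exact_mod_cast hr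
    have htf : t ≤ (τ f).re := by
      have : 0 ≤ (r : ℝ) * t := by positivity
      linarith
    obtain ⟨f', hf'A, hf'P, hff', hf't⟩ := h.val f hf hP t ht htf
    have hf'f : f' * f = f' := Sys2_right hP hf'P hff'
    have hg : PJ (f - f') := hP.sub hf'P hff'
    have hgA : f - f' ∈ A := sub_mem hf hf'A
    have hgt : (r : ℝ) * t ≤ (τ (f - f')).re := by
      rw [h.trace.sub (h.le _ hf) (h.le _ hf'A), Complex.sub_re, hf't]
      linarith
    obtain ⟨Y, hY, hYo⟩ := ih hgA hg hgt
    have h1 : ∀ i, f * Y i = Y i := by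
      intro i
      calc f * Y i = f * ((f - f') * Y i) := by rw [(hY i).2.2.1]
        _ = (f * f - f * f') * Y i := by noncomm_ring
        _ = (f - f') * Y i := by rw [hP.idem, hff']
        _ = Y i := (hY i).2.2.1
    have h2 : ∀ i, f' * Y i = 0 := by
      intro i
      calc f' * Y i = f' * ((f - f') * Y i) := by rw [(hY i).2.2.1]
        _ = (f' * f - f' * f') * Y i := by noncomm_ring
        _ = 0 := by rw [hf'f, hf'P.idem, sub_self, zero_mul]
    have h3 : ∀ i, Y i * f' = 0 := by
      intro i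
      have := congrArg star (h2 i)
      rwa [star_mul, hf'P.sa, (hY i).2.1.sa, star_zero] at this
    refine ⟨Fin.cons f' Y, ?_, ?_⟩
    · intro i
      refine Fin.cases ?_ (fun j => ?_) i
      · exact ⟨hf'A, hf'P, hff', hf't⟩
      · exact ⟨(hY j).1, (hY j).2.1, h1 j, (hY j).2.2.2⟩
    · intro i j
      refine Fin.cases ?_ (fun i => ?_) i
      · refine Fin.cases ?_ (fun j => ?_) j
        · intro h0
          exact absurd rfl h0
        · intro _
          exact h2 j
      · refine Fin.cases ?_ (fun j => ?_) j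
        · intro _
          exact h3 i
        · intro hij
          exact hYo i j fun h0 => hij (by rw [h0])

/-- the atoms of the finite algebra generated by `Z` -/
private theorem Sys2_part (h : CM M A τ u) {f : H →L[ℂ] H} (hf : f ∈ A) (hP : PJ f)
    (Z : Finset (H →L[ℂ] H)) (hZ : ∀ z ∈ Z, z ∈ A ∧ PJ z ∧ f * z = z) :
    ∃ (ι : Type) (_ : Fintype ι) (q : ι → H →L[ℂ] H), (∀ s, q s ∈ A ∧ PJ (q s)) ∧
      (∀ s t, s ≠ t → q s * q t = 0) ∧ ∑ s, q s = f ∧ ∀ z ∈ Z, ∃ J : Finset ι,
        z = ∑ s ∈ J, q s := by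
  classical
  induction Z using Finset.induction_on with
  | empty =>
    refine ⟨Unit, inferInstance, fun _ => f, fun _ => ⟨hf, hP⟩, ?_, ?_, ?_⟩
    · intro s t hst
      exact absurd (Subsingleton.elim s t) hst
    · simp
    · intro z hz
      exact absurd hz (Finset.notMem_empty z)
  | insert z Z hzZ ih =>
    obtain ⟨ι, hι, q, hq, hqo, hqs, hqZ⟩ := ih fun z' hz' => hZ z' (Finset.mem_insert_of_mem hz')
    obtain ⟨hzA, hzP, hfz⟩ := hZ z (Finset.mem_insert_self z Z)
    set w : Bool → H →L[ℂ] H := fun b => if b then z else 1 - z with hw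
    have hwA : ∀ b, w b ∈ A := by
      intro b
      cases b
      · exact sub_mem (one_mem _) hzA
      · exact hzA
    have hwP : ∀ b, PJ (w b) := by
      intro b
      cases b
      · exact hzP.compl
      · exact hzP
    have hwo : ∀ b c, b ≠ c → w b * w c = 0 := by
      intro b c hbc
      cases b <;> cases c
      · exact absurd rfl hbc
      · change (1 - z) * z = 0
        rw [sub_mul, one_mul, hzP.idem, sub_self]
      · change z * (1 - z) = 0
        rw [mul_sub, mul_one, hzP.idem, sub_self]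
      · exact absurd rfl hbc
    have hws : ∑ b, w b = 1 := by
      rw [Fintype.sum_bool]
      change z + (1 - z) = 1
      abel
    refine ⟨ι × Bool, inferInstance, fun a => q a.1 * w a.2, ?_, ?_, ?_, ?_⟩
    · intro a
      exact ⟨mul_mem (hq a.1).1 (hwA a.2),
        (hq a.1).2.mul (hwP a.2) (h.comm _ (hq a.1).1 _ (hwA a.2))⟩
    · rintro ⟨s, b⟩ ⟨s', b'⟩ hne
      have h1 : q s * w b * (q s' * w b') = (q s * q s') * (w b * w b') := by
        calc q s * w b * (q s' * w b') = q s * (w b * q s') * w b' := by noncomm_ring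
          _ = q s * (q s' * w b) * w b' := by rw [h.comm _ (hwA b) _ (hq s').1]
          _ = _ := by noncomm_ring
      rw [h1]
      by_cases hs : s = s'
      · have hb : b ≠ b' := fun hb => hne (by rw [hs, hb])
        rw [hwo b b' hb, mul_zero]
      · rw [hqo s s' hs, zero_mul]
    · rw [Fintype.sum_prod_type]
      simp only
      simp only [← Finset.mul_sum, hws, mul_one]
      exact hqs
    · intro z' hz'
      rw [Finset.mem_insert] at hz'
      rcases hz' with rfl | hz'
      · refine ⟨Finset.univ ×ˢ {true}, ?_⟩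
        rw [Finset.sum_product]
        simp only [Finset.sum_singleton]
        rw [← Finset.sum_mul, hqs]
        exact hfz.symm
      · obtain ⟨J, hJ⟩ := hqZ z' hz'
        refine ⟨J ×ˢ Finset.univ, ?_⟩
        rw [Finset.sum_product]
        simp only [← Finset.mul_sum, hws, mul_one]
        exact hJ

/-- (3.4) refinement -/
theorem CM.refine (h : CM M A τ u) {f : H →L[ℂ] H} (hf : f ∈ A) (hP : PJ f)
    (Z : Finset (H →L[ℂ] H)) (hZ : ∀ z ∈ Z, z ∈ A ∧ PJ z ∧ f * z = z) {η : ℝ} (hη : 0 < η)
    (K : ℕ) : ∃ m : ℕ, K ≤ m ∧ ∃ Y : Fin m → H →L[ℂ] H,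
      (∀ i, Y i ∈ A ∧ PJ (Y i) ∧ (τ (Y i)).re = (τ f).re / m) ∧
      (∀ i j, i ≠ j → Y i * Y j = 0) ∧ ∑ i, Y i = f ∧
      ∀ z ∈ Z, ∃ J : Finset (Fin m), (τ ((z - ∑ i ∈ J, Y i) * (z - ∑ i ∈ J, Y i))).re < η := by
  classical
  have hfM := h.le f hf
  have hfnn := (h.trace.nonneg hfM hP.nonneg).1
  rcases hfnn.eq_or_lt with h0 | hpos
  · -- the trivial case
    have hf0 : f = 0 := h.trace.eq_zero hfM hP.nonneg h0.symm
    refine ⟨K, le_rfl, fun _ => 0, ?_, ?_, ?_, ?_⟩
    · intro i
      refine ⟨zero_mem _, ⟨mul_zero _, star_zero _⟩, ?_⟩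
      rw [← h0, h.trace.zero]
      simp
    · intro i j _
      exact mul_zero _
    · rw [hf0]
      simp
    · intro z hz
      have hz0 : z = 0 := by
        have := (hZ z hz).2.2
        rw [hf0, zero_mul] at this
        exact this.symm
      refine ⟨∅, ?_⟩
      rw [hz0]
      simpa [h.trace.zero] using hη
  · obtain ⟨ι, hι, q, hq, hqo, hqs, hqZ⟩ := Sys2_part h hf hP Z hZ
    obtain ⟨m0, hm0⟩ := exists_nat_gt ((Fintype.card ι : ℝ) * (τ f).re / η)
    set m : ℕ := m0 + K + 1 with hm
    have hmpos : (0 : ℝ) < m := by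
      rw [hm]
      positivity
    have hmb : (Fintype.card ι : ℝ) * (τ f).re / m < η := by
      rw [div_lt_iff₀ hmpos]
      rw [div_lt_iff₀ hη] at hm0
      have : (m0 : ℝ) ≤ m := by
        rw [hm]
        push_cast
        have : (0 : ℝ) ≤ K := Nat.cast_nonneg K
        linarith
      nlinarith
    set t : ℝ := (τ f).re / m with ht
    have htpos : 0 < t := div_pos hpos hmpos
    have hmt : (m : ℝ) * t = (τ f).re := by
      rw [ht]
      field_simp
    have hqM : ∀ s, q s ∈ M := fun s => h.le _ (hq s).1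
    have hqnn : ∀ s, 0 ≤ (τ (q s)).re := fun s => (h.trace.nonneg (hqM s) (hq s).2.nonneg).1
    set n : ι → ℕ := fun s => ⌊(τ (q s)).re / t⌋₊ with hn
    have hn1 : ∀ s, (n s : ℝ) * t ≤ (τ (q s)).re := by
      intro s
      have := Nat.floor_le (div_nonneg (hqnn s) htpos.le)
      rwa [le_div_iff₀ htpos] at this
    have hn2 : ∀ s, (τ (q s)).re < ((n s : ℝ) + 1) * t := by
      intro s
      have := Nat.lt_floor_add_one ((τ (q s)).re / t)
      rwa [div_lt_iff₀ htpos] at this
    have hpc := fun s => h.pieces (hq s).1 (hq s).2 htpos.le (n s) (hn1 s)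
    choose Y hY hYo using hpc
    have hfq : ∀ s, f * q s = q s := by
      intro s
      rw [← hqs, Finset.sum_mul, Finset.sum_eq_single s]
      · exact (hq s).2.idem
      · intro b _ hb
        exact hqo b s hb
      · intro h0
        exact absurd (Finset.mem_univ s) h0
    -- the family of all pieces
    set Y' : (Σ s, Fin (n s)) → H →L[ℂ] H := fun a => Y a.1 a.2 with hY'
    have hYq : ∀ s i, Y s i * q s = Y s i := fun s i =>
      Sys2_right (hq s).2 (hY s i).2.1 (hY s i).2.2.1
    have hY'o : ∀ a b, a ≠ b → Y' a * Y' b = 0 := by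
      rintro ⟨s, i⟩ ⟨s', j⟩ hab
      by_cases hs : s = s'
      · subst hs
        exact hYo s i j fun h0 => hab (by rw [h0])
      · change Y s i * Y s' j = 0
        calc Y s i * Y s' j = (Y s i * q s) * (q s' * Y s' j) := by
              rw [hYq, (hY s' j).2.2.1]
          _ = Y s i * (q s * q s') * Y s' j := by noncomm_ring
          _ = 0 := by rw [hqo s s' hs, mul_zero, zero_mul]
    have hY'P : ∀ a, PJ (Y' a) := fun a => (hY a.1 a.2).2.1
    have hY'A : ∀ a, Y' a ∈ A := fun a => (hY a.1 a.2).1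
    have hY't : ∀ a, (τ (Y' a)).re = t := fun a => (hY a.1 a.2).2.2.2
    have hfY' : ∀ a, f * Y' a = Y' a := by
      rintro ⟨s, i⟩
      change f * Y s i = Y s i
      rw [← (hY s i).2.2.1, ← mul_assoc, hfq]
    set g0 : H →L[ℂ] H := ∑ a, Y' a with hg0
    have hg0A : g0 ∈ A := sum_mem fun a _ => hY'A a
    have hg0P : PJ g0 := Sys2_pj_sum _ (fun a _ => hY'P a) fun a _ b _ hab => hY'o a b hab
    have hfg0 : f * g0 = g0 := by
      rw [hg0, Finset.mul_sum]
      exact Finset.sum_congr rfl fun a _ => hfY' a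
    have hY'g0 : ∀ a, Y' a * g0 = Y' a := by
      intro a
      rw [hg0, Finset.mul_sum, Finset.sum_eq_single a]
      · exact (hY'P a).idem
      · intro b _ hb
        exact hY'o a b (Ne.symm hb)
      · intro h0
        exact absurd (Finset.mem_univ a) h0
    have hcard : Fintype.card (Σ s, Fin (n s)) = ∑ s, n s := by
      rw [Fintype.card_sigma]
      simp
    have hg0t : (τ g0).re = ((∑ s, n s : ℕ) : ℝ) * t := by
      rw [hg0, h.trace.sum _ (fun a _ => h.le _ (hY'A a)), Complex.re_sum,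
        Finset.sum_congr rfl fun a _ => hY't a, Finset.sum_const, Finset.card_univ, hcard,
        nsmul_eq_mul]
    have hgP : PJ (f - g0) := hP.sub hg0P hfg0
    have hgA : f - g0 ∈ A := sub_mem hf hg0A
    have hgt : (τ (f - g0)).re = (τ f).re - ((∑ s, n s : ℕ) : ℝ) * t := by
      rw [h.trace.sub hfM (h.le _ hg0A), Complex.sub_re, hg0t]
    have hgnn := (h.trace.nonneg (h.le _ hgA) hgP.nonneg).1
    have hNm : ∑ s, n s ≤ m := by
      rw [hgt, ← hmt] at hgnn
      have h1 : ((∑ s, n s : ℕ) : ℝ) * t ≤ (m : ℝ) * t := by linarith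
      exact_mod_cast le_of_mul_le_mul_right h1 htpos
    set r : ℕ := m - ∑ s, n s with hr
    have hrc : (r : ℝ) = (m : ℝ) - ((∑ s, n s : ℕ) : ℝ) := by
      rw [hr, Nat.cast_sub hNm]
    have hrt : (r : ℝ) * t = (τ (f - g0)).re := by
      rw [hgt, ← hmt, hrc]
      ring
    obtain ⟨X, hX, hXo⟩ := h.pieces hgA hgP htpos.le r hrt.le
    have hYX : ∀ a i, Y' a * X i = 0 := by
      intro a i
      calc Y' a * X i = Y' a * ((f - g0) * X i) := by rw [(hX i).2.2.1]
        _ = (Y' a * f - Y' a * g0) * X i := by noncomm_ring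
        _ = 0 := by rw [Sys2_right hP (hY'P a) (hfY' a), hY'g0, sub_self, zero_mul]
    have hXY : ∀ a i, X i * Y' a = 0 := by
      intro a i
      have := congrArg star (hYX a i)
      rwa [star_mul, (hY'P a).sa, (hX i).2.1.sa, star_zero] at this
    have hfX : ∀ i, f * X i = X i := by
      intro i
      calc f * X i = f * ((f - g0) * X i) := by rw [(hX i).2.2.1]
        _ = (f * f - f * g0) * X i := by noncomm_ring
        _ = (f - g0) * X i := by rw [hP.idem, hfg0]
        _ = X i := (hX i).2.2.1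
    set W : (Σ s, Fin (n s)) ⊕ Fin r → H →L[ℂ] H := Sum.elim Y' X with hW
    have hWP : ∀ a, PJ (W a) := by
      rintro (a | i)
      · exact hY'P a
      · exact (hX i).2.1
    have hWA : ∀ a, W a ∈ A := by
      rintro (a | i)
      · exact hY'A a
      · exact (hX i).1
    have hWt : ∀ a, (τ (W a)).re = t := by
      rintro (a | i)
      · exact hY't a
      · exact (hX i).2.2.2
    have hfW : ∀ a, f * W a = W a := by
      rintro (a | i)
      · exact hfY' a
      · exact hfX i
    have hWo : ∀ a b, a ≠ b → W a * W b = 0 := by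
      rintro (a | i) (b | j) hab
      · exact hY'o a b fun h0 => hab (by rw [h0])
      · exact hYX a j
      · exact hXY b i
      · exact hXo i j fun h0 => hab (by rw [h0])
    have hcW : Fintype.card ((Σ s, Fin (n s)) ⊕ Fin r) = m := by
      rw [Fintype.card_sum, hcard, Fintype.card_fin, hr]
      omega
    have hWs : ∑ a, W a = f := by
      have h1 : PJ (∑ a, W a) := Sys2_pj_sum _ (fun a _ => hWP a) fun a _ b _ hab => hWo a b hab
      have h2 : f * ∑ a, W a = ∑ a, W a := by
        rw [Finset.mul_sum]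
        exact Finset.sum_congr rfl fun a _ => hfW a
      have h3 : PJ (f - ∑ a, W a) := hP.sub h1 h2
      have h4 : ∑ a, W a ∈ M := sum_mem fun a _ => h.le _ (hWA a)
      have h5 : (τ (f - ∑ a, W a)).re = 0 := by
        rw [h.trace.sub hfM h4, Complex.sub_re, h.trace.sum _ (fun a _ => h.le _ (hWA a)),
          Complex.re_sum, Finset.sum_congr rfl fun a _ => hWt a, Finset.sum_const,
          Finset.card_univ, hcW, nsmul_eq_mul, hmt, sub_self]
      have h6 := h.trace.eq_zero (sub_mem hfM h4) h3.nonneg h5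
      exact (sub_eq_zero.1 h6).symm
    set e : ((Σ s, Fin (n s)) ⊕ Fin r) ≃ Fin m := Fintype.equivFinOfCardEq hcW with he
    refine ⟨m, by omega, fun i => W (e.symm i), ?_, ?_, ?_, ?_⟩
    · intro i
      exact ⟨hWA _, hWP _, hWt _⟩
    · intro i j hij
      exact hWo _ _ fun h0 => hij (e.symm.injective h0)
    · rw [← hWs]
      exact Equiv.sum_comp e.symm W
    · intro z hz
      obtain ⟨J, hJ⟩ := hqZ z hz
      refine ⟨(J.sigma fun s => (Finset.univ : Finset (Fin (n s)))).image (fun a => e (Sum.inl a)),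
        ?_⟩
      have hsum : ∑ i ∈ (J.sigma fun s => (Finset.univ : Finset (Fin (n s)))).image
          (fun a => e (Sum.inl a)), W (e.symm i) = ∑ s ∈ J, ∑ i, Y s i := by
        rw [Finset.sum_image, Finset.sum_sigma]
        · simp only [Equiv.symm_apply_apply, hW, hY', Sum.elim_inl]
        · intro a _ b _ hab
          exact Sum.inl_injective (e.injective hab)
      rw [hsum]
      have hd : z - ∑ s ∈ J, ∑ i, Y s i = ∑ s ∈ J, (q s - ∑ i, Y s i) := by
        rw [hJ, Finset.sum_sub_distrib]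
      rw [hd]
      have hdP : ∀ s, PJ (q s - ∑ i, Y s i) := by
        intro s
        apply (hq s).2.sub
        · exact Sys2_pj_sum _ (fun i _ => (hY s i).2.1) fun i _ j _ hij => hYo s i j hij
        · rw [Finset.mul_sum]
          exact Finset.sum_congr rfl fun i _ => (hY s i).2.2.1
      have hqd : ∀ s, q s * (q s - ∑ i, Y s i) = q s - ∑ i, Y s i := by
        intro s
        rw [mul_sub, (hq s).2.idem, Finset.mul_sum]
        congr 1
        exact Finset.sum_congr rfl fun i _ => (hY s i).2.2.1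
      have hdA : ∀ s, q s - ∑ i, Y s i ∈ A := fun s =>
        sub_mem (hq s).1 (sum_mem fun i _ => (hY s i).1)
      have hdo : ∀ s s', s ≠ s' → (q s - ∑ i, Y s i) * (q s' - ∑ i, Y s' i) = 0 := by
        intro s s' hs
        calc (q s - ∑ i, Y s i) * (q s' - ∑ i, Y s' i)
            = ((q s - ∑ i, Y s i) * q s) * (q s' * (q s' - ∑ i, Y s' i)) := by
              rw [Sys2_right (hq s).2 (hdP s) (hqd s), hqd s']
          _ = (q s - ∑ i, Y s i) * (q s * q s') * (q s' - ∑ i, Y s' i) := by noncomm_ring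
          _ = 0 := by rw [hqo s s' hs, mul_zero, zero_mul]
      have hD : PJ (∑ s ∈ J, (q s - ∑ i, Y s i)) :=
        Sys2_pj_sum _ (fun s _ => hdP s) fun s _ s' _ hs => hdo s s' hs
      rw [hD.idem, h.trace.sum _ (fun s _ => h.le _ (hdA s)), Complex.re_sum]
      have hbound : ∀ s, (τ (q s - ∑ i, Y s i)).re ≤ t := by
        intro s
        rw [h.trace.sub (hqM s) (sum_mem fun i _ => h.le _ (hY s i).1), Complex.sub_re,
          h.trace.sum _ (fun i _ => h.le _ (hY s i).1), Complex.re_sum,
          Finset.sum_congr rfl fun i _ => (hY s i).2.2.2, Finset.sum_const, Finset.card_univ,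
          Fintype.card_fin, nsmul_eq_mul]
        have := hn2 s
        linarith
      calc ∑ s ∈ J, (τ (q s - ∑ i, Y s i)).re ≤ ∑ s ∈ J, t :=
            Finset.sum_le_sum fun s _ => hbound s
        _ = (J.card : ℝ) * t := by rw [Finset.sum_const, nsmul_eq_mul]
        _ ≤ (Fintype.card ι : ℝ) * t := by
            gcongr
            exact Finset.card_le_univ J
        _ = (Fintype.card ι : ℝ) * (τ f).re / m := by
            rw [ht]
            ring
        _ < η := hmb

end Pool.Agent.KKS

end
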