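import Pool.Agent.Lib.MP_5c1ef7_an.P04

/-!
# P05: the hyperfinite subalgebra, averaging maps
-/

set_option autoImplicit false
set_option linter.unusedSectionVars false

section

/-!
# Sys3: one step of the construction of the system
-/


open Filter Topology

namespace Pool.Agent.KKS

variable {H : Type*} [NormedAddCommGroup H] [InnerProductSpace ℂ H] [CompleteSpace H]

variable {Γ : Type*} [Group Γ] {M A : VonNeumannAlgebra H} {τ : (H →L[ℂ] H) → ℂ}
  {u : Γ → H →L[ℂ] H}

/-- the new system, as products of column operators -/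
private theorem Sys3_sys3_mu {k k' m : ℕ} (φ : Fin k × Fin m ≃ Fin k') (hk' : 0 < k')
    {w : Fin k × Fin m → H →L[ℂ] H} {Y0 : H →L[ℂ] H} {e : Fin k → Fin k → H →L[ℂ] H}
    (he : MU M A e) (h1 : ∀ a, star (w a) * w a = Y0) (h2 : ∀ a b, a ≠ b → star (w a) * w b = 0)
    (h3 : ∀ a, w a * Y0 = w a) (h4 : ∀ a, w a ∈ M)
    (h5 : ∀ a, ∀ x ∈ A, w a * x * star (w a) ∈ A) (h6 : ∀ a, ∀ x ∈ A, star (w a) * x * w a ∈ A)
    (h7 : ∀ i j, ∑ l, w (i, l) * star (w (j, l)) = e i j) :
    MU M A (fun a b => w (φ.symm a) * star (w (φ.symm b))) where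
  pos := hk'
  mem := fun a b => mul_mem (h4 _) (star_mem (h4 _))
  mul := by
    intro a b c
    calc w (φ.symm a) * star (w (φ.symm b)) * (w (φ.symm b) * star (w (φ.symm c)))
        = w (φ.symm a) * (star (w (φ.symm b)) * w (φ.symm b)) * star (w (φ.symm c)) := by
          noncomm_ring
      _ = _ := by rw [h1, h3]
  orth := by
    intro a b b' c hb
    calc w (φ.symm a) * star (w (φ.symm b)) * (w (φ.symm b') * star (w (φ.symm c)))
        = w (φ.symm a) * (star (w (φ.symm b)) * w (φ.symm b')) * star (w (φ.symm c)) := by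
          noncomm_ring
      _ = _ := by rw [h2 _ _ (fun h => hb (φ.symm.injective h)), mul_zero, zero_mul]
  adj := by
    intro a b
    rw [star_mul, star_star]
  sum := by
    rw [← Equiv.sum_comp φ (fun a => w (φ.symm a) * star (w (φ.symm a)))]
    simp only [Equiv.symm_apply_apply]
    rw [Fintype.sum_prod_type]
    simp only [h7]
    exact he.sum
  diag := by
    intro a
    have := h5 (φ.symm a) 1 (one_mem _)
    rwa [mul_one] at this
  conj := by
    intro a b x hx
    have h8 := h5 (φ.symm a) _ (h6 (φ.symm b) x hx)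
    have h9 : w (φ.symm a) * star (w (φ.symm b)) * x * (w (φ.symm b) * star (w (φ.symm a))) =
        w (φ.symm a) * (star (w (φ.symm b)) * x * w (φ.symm b)) * star (w (φ.symm a)) := by
      noncomm_ring
    rw [h9]
    exact h8

/-- one step of the construction -/
theorem CM.step [Countable Γ] (h : CM M A τ u) {k : ℕ} {e : Fin k → Fin k → H →L[ℂ] H}
    (he : MU M A e) (P : Finset (H →L[ℂ] H)) (hP : ∀ p ∈ P, p ∈ A ∧ PJ p) {η : ℝ} (hη : 0 < η)
    (K : ℕ) : ∃ (k' : ℕ) (e' : Fin k' → Fin k' → H →L[ℂ] H), K ≤ k' ∧ MU M A e' ∧ Nest e e' ∧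
      ∀ p ∈ P, ∃ J : Finset (Fin k'),
        (τ ((p - ∑ i ∈ J, e' i i) * (p - ∑ i ∈ J, e' i i))).re < η := by
  classical
  have hk : 0 < k := he.pos
  set i0 : Fin k := ⟨0, hk⟩ with hi0
  set f := e i0 i0 with hf
  have hfA : f ∈ A := he.diag i0
  have hfP : PJ f := he.pj i0
  set Z : Finset (H →L[ℂ] H) :=
    (P ×ˢ (Finset.univ : Finset (Fin k))).image (fun q => e i0 q.2 * q.1 * e q.2 i0) with hZ
  have hZ' : ∀ z ∈ Z, z ∈ A ∧ PJ z ∧ f * z = z := by
    intro z hz
    rw [hZ, Finset.mem_image] at hz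
    obtain ⟨⟨p, i⟩, hq, rfl⟩ := hz
    rw [Finset.mem_product] at hq
    have hp := hP p hq.1
    refine ⟨he.conj i0 i p hp.1, ⟨?_, ?_⟩, ?_⟩
    · have h1 : p * e i i = e i i * p := h.comm p hp.1 _ (he.diag i)
      calc e i0 i * p * e i i0 * (e i0 i * p * e i i0)
          = e i0 i * p * (e i i0 * e i0 i) * p * e i i0 := by noncomm_ring
        _ = e i0 i * (p * e i i) * p * e i i0 := by rw [he.mul]; noncomm_ring
        _ = (e i0 i * e i i) * (p * p) * e i i0 := by rw [h1]; noncomm_ring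
        _ = _ := by rw [he.mul, hp.2.idem]
    · rw [star_mul, star_mul, he.adj, he.adj, hp.2.sa, mul_assoc]
    · calc f * (e i0 i * p * e i i0) = (e i0 i0 * e i0 i) * p * e i i0 := by
            rw [hf]; noncomm_ring
        _ = _ := by rw [he.mul]
  have hη' : 0 < η / k := by positivity
  obtain ⟨m, hm, Y, hY, hYo, hYs, hYJ⟩ := h.refine hfA hfP Z hZ' hη' (K + 1)
  have hKm : K ≤ m := by omega
  have hm0 : 0 < m := by omega
  set l0 : Fin m := ⟨0, hm0⟩ with hl0
  have hfY : ∀ l, f * Y l = Y l := by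
    intro l
    rw [← hYs, Finset.sum_mul, Finset.sum_eq_single l]
    · exact (hY l).2.1.idem
    · intro b _ hb
      exact hYo b l hb
    · intro hl
      exact absurd (Finset.mem_univ l) hl
  have htr : ∀ l, τ (Y l0) = τ (Y l) := by
    intro l
    have h1 := (h.trace.nonneg (h.le _ (hY l0).1) (hY l0).2.1.nonneg).2
    have h2 := (h.trace.nonneg (h.le _ (hY l).1) (hY l).2.1.nonneg).2
    rw [h1, h2, (hY l0).2.2, (hY l).2.2]
  have hex : ∀ l, ∃ v, GN M A v ∧ star v * v = Y l0 ∧ v * star v = Y l := fun l =>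
    h.trans (hY l0).1 (hY l).1 (hY l0).2.1 (hY l).2.1 (htr l)
  choose v hvG hv1 hv2 using hex
  have hvY : ∀ l, v l * Y l0 = v l := by
    intro l
    rw [← hv1 l]
    exact (PJ.pi (hvG l).pj).1
  have hYv : ∀ l, Y l * v l = v l := by
    intro l
    rw [← hv2 l, mul_assoc]
    exact (PJ.pi (hvG l).pj).1
  have hfv : ∀ l, f * v l = v l := by
    intro l
    rw [← hYv l, ← mul_assoc, hfY]
  have hvo : ∀ l l', l ≠ l' → star (v l) * v l' = 0 := by
    intro l l' hl
    have h1 : star (v l) * Y l = star (v l) := by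
      have := congrArg star (hYv l)
      rwa [star_mul, (hY l).2.1.sa] at this
    calc star (v l) * v l' = (star (v l) * Y l) * (Y l' * v l') := by rw [h1, hYv]
      _ = star (v l) * (Y l * Y l') * v l' := by noncomm_ring
      _ = 0 := by rw [hYo l l' hl, mul_zero, zero_mul]
  set w : Fin k × Fin m → H →L[ℂ] H := fun a => e a.1 i0 * v a.2 with hw
  have hws : ∀ a, star (w a) = star (v a.2) * e i0 a.1 := by
    intro a
    rw [hw]
    simp only
    rw [star_mul, he.adj]
  have hw1 : ∀ a, star (w a) * w a = Y l0 := by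
    intro a
    rw [hws, hw]
    calc star (v a.2) * e i0 a.1 * (e a.1 i0 * v a.2)
        = star (v a.2) * ((e i0 a.1 * e a.1 i0) * v a.2) := by noncomm_ring
      _ = _ := by rw [he.mul, ← hf, hfv, hv1]
  have hw2 : ∀ a b, a ≠ b → star (w a) * w b = 0 := by
    rintro ⟨i, l⟩ ⟨j, l'⟩ hab
    rw [hws, hw]
    simp only
    by_cases hij : i = j
    · subst hij
      have hll : l ≠ l' := fun hl => hab (by rw [hl])
      calc star (v l) * e i0 i * (e i i0 * v l')
          = star (v l) * ((e i0 i * e i i0) * v l') := by noncomm_ring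
        _ = _ := by rw [he.mul, ← hf, hfv, hvo l l' hll]
    · calc star (v l) * e i0 i * (e j i0 * v l')
          = star (v l) * (e i0 i * e j i0) * v l' := by noncomm_ring
        _ = _ := by rw [he.orth _ _ _ _ hij, mul_zero, zero_mul]
  have hw3 : ∀ a, w a * Y l0 = w a := by
    intro a
    rw [hw]
    simp only
    rw [mul_assoc, hvY]
  have hw4 : ∀ a, w a ∈ M := fun a => mul_mem (he.mem _ _) (hvG _).mem
  have hw5 : ∀ a, ∀ x ∈ A, w a * x * star (w a) ∈ A := by
    intro a x hx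
    rw [hws, hw]
    have h1 := he.conj a.1 i0 _ ((hvG a.2).conj x hx)
    have h2 : e a.1 i0 * v a.2 * x * (star (v a.2) * e i0 a.1) =
        e a.1 i0 * (v a.2 * x * star (v a.2)) * e i0 a.1 := by noncomm_ring
    simp only
    rw [h2]
    exact h1
  have hw6 : ∀ a, ∀ x ∈ A, star (w a) * x * w a ∈ A := by
    intro a x hx
    rw [hws, hw]
    have h1 := (hvG a.2).conj' _ (he.conj i0 a.1 x hx)
    have h2 : star (v a.2) * e i0 a.1 * x * (e a.1 i0 * v a.2) =
        star (v a.2) * (e i0 a.1 * x * e a.1 i0) * v a.2 := by noncomm_ring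
    simp only
    rw [h2]
    exact h1
  have hww : ∀ i j l, w (i, l) * star (w (j, l)) = e i i0 * Y l * e i0 j := by
    intro i j l
    rw [hws, hw]
    simp only
    rw [← hv2 l]
    noncomm_ring
  have hw7 : ∀ i j, ∑ l, w (i, l) * star (w (j, l)) = e i j := by
    intro i j
    simp only [hww]
    rw [← Finset.sum_mul, ← Finset.mul_sum, hYs, hf, he.mul, he.mul]
  set φ : Fin k × Fin m ≃ Fin (k * m) := finProdFinEquiv with hφ
  have hkm : 0 < k * m := Nat.mul_pos hk hm0
  refine ⟨k * m, fun a b => w (φ.symm a) * star (w (φ.symm b)), ?_,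
    Sys3_sys3_mu φ hkm he hw1 hw2 hw3 hw4 hw5 hw6 hw7, ⟨m, φ, hm0, ?_⟩, ?_⟩
  · exact hKm.trans (Nat.le_mul_of_pos_left m hk)
  · intro i j
    simp only [Equiv.symm_apply_apply]
    exact (hw7 i j).symm
  · intro p hp
    have hpA := (hP p hp).1
    have hJ : ∀ i : Fin k, ∃ J : Finset (Fin m),
        (τ ((e i0 i * p * e i i0 - ∑ l ∈ J, Y l) * (e i0 i * p * e i i0 - ∑ l ∈ J, Y l))).re
          < η / k := by
      intro i
      apply hYJ
      rw [hZ, Finset.mem_image]
      exact ⟨(p, i), Finset.mem_product.2 ⟨hp, Finset.mem_univ _⟩, rfl⟩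
    choose J hJ using hJ
    refine ⟨(Finset.univ.sigma J).image (fun q => φ (q.1, q.2)), ?_⟩
    set d : Fin k → H →L[ℂ] H := fun i => e i0 i * p * e i i0 - ∑ l ∈ J i, Y l with hd
    have hdA : ∀ i, d i ∈ A := by
      intro i
      exact sub_mem (he.conj i0 i p hpA) (sum_mem fun l _ => (hY l).1)
    have hfd : ∀ i, f * d i = d i := by
      intro i
      rw [hd]
      simp only
      rw [mul_sub, Finset.mul_sum]
      congr 1
      · calc f * (e i0 i * p * e i i0) = (e i0 i0 * e i0 i) * p * e i i0 := by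
              rw [hf]; noncomm_ring
          _ = _ := by rw [he.mul]
      · exact Finset.sum_congr rfl fun l _ => hfY l
    have hdf : ∀ i, d i * f = d i := by
      intro i
      rw [h.comm _ (hdA i) _ hfA, hfd]
    have hD : p - ∑ i ∈ (Finset.univ.sigma J).image (fun q => φ (q.1, q.2)),
        w (φ.symm i) * star (w (φ.symm i)) = ∑ i, e i i0 * d i * e i0 i := by
      have h1 : ∑ i ∈ (Finset.univ.sigma J).image (fun q => φ (q.1, q.2)),
          w (φ.symm i) * star (w (φ.symm i)) = ∑ i, ∑ l ∈ J i, e i i0 * Y l * e i0 i := by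
        rw [Finset.sum_image, Finset.sum_sigma]
        · simp only [Equiv.symm_apply_apply, hww]
        · rintro ⟨i, l⟩ _ ⟨j, l'⟩ _ hq
          have := φ.injective hq
          simp only [Prod.mk.injEq] at this
          obtain ⟨rfl, rfl⟩ := this
          rfl
      have h2 : p = ∑ i, e i i0 * (e i0 i * p * e i i0) * e i0 i := by
        have h3 : ∀ i, e i i0 * (e i0 i * p * e i i0) * e i0 i = e i i * p := by
          intro i
          calc e i i0 * (e i0 i * p * e i i0) * e i0 i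
              = (e i i0 * e i0 i) * p * (e i i0 * e i0 i) := by noncomm_ring
            _ = e i i * (p * e i i) := by rw [he.mul, mul_assoc]
            _ = (e i i * e i i) * p := by
              rw [h.comm p hpA _ (he.diag i), mul_assoc]
            _ = e i i * p := by rw [he.mul]
        simp only [h3]
        rw [← Finset.sum_mul, he.sum, one_mul]
      rw [h1]
      nth_rewrite 1 [h2]
      rw [← Finset.sum_sub_distrib]
      apply Finset.sum_congr rfl
      intro i _
      rw [hd]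
      simp only
      rw [mul_sub, sub_mul, Finset.mul_sum, Finset.sum_mul]
    rw [hD]
    have hD2 : (∑ i, e i i0 * d i * e i0 i) * (∑ i, e i i0 * d i * e i0 i) =
        ∑ i, e i i0 * (d i * d i) * e i0 i := by
      rw [Finset.sum_mul]
      apply Finset.sum_congr rfl
      intro i _
      rw [Finset.mul_sum, Finset.sum_eq_single i]
      · calc e i i0 * d i * e i0 i * (e i i0 * d i * e i0 i)
            = e i i0 * d i * ((e i0 i * e i i0) * d i) * e i0 i := by noncomm_ring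
          _ = e i i0 * d i * d i * e i0 i := by rw [he.mul, ← hf, hfd]
          _ = _ := by noncomm_ring
      · intro j _ hj
        calc e i i0 * d i * e i0 i * (e j i0 * d j * e i0 j)
            = e i i0 * d i * (e i0 i * e j i0) * d j * e i0 j := by noncomm_ring
          _ = 0 := by rw [he.orth _ _ _ _ hj.symm]; simp
      · intro hi
        exact absurd (Finset.mem_univ i) hi
    rw [hD2, h.trace.sum]
    · have h3 : ∀ i, τ (e i i0 * (d i * d i) * e i0 i) = τ (d i * d i) := by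
        intro i
        rw [h.trace.tracial _ (mul_mem (he.mem _ _) (mul_mem (h.le _ (hdA i)) (h.le _ (hdA i))))
          _ (he.mem _ _)]
        congr 1
        calc e i0 i * (e i i0 * (d i * d i)) = (e i0 i * e i i0) * d i * d i := by noncomm_ring
          _ = _ := by rw [he.mul, ← hf, hfd]
      simp only [h3]
      rw [Complex.re_sum]
      calc ∑ i, (τ (d i * d i)).re < ∑ _i : Fin k, η / k := by
            apply Finset.sum_lt_sum_of_nonempty
            · exact ⟨i0, Finset.mem_univ _⟩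
            · intro i _
              exact hJ i
        _ = η := by
            rw [Finset.sum_const, Finset.card_univ, Fintype.card_fin, nsmul_eq_mul]
            field_simp
    · intro i _
      exact mul_mem (mul_mem (he.mem _ _) (mul_mem (h.le _ (hdA i)) (h.le _ (hdA i)))) (he.mem _ _)

end Pool.Agent.KKS

end

section

/-!
# Sys4: existence of the system
-/


open Filter Topology

namespace Pool.Agent.KKS

variable {H : Type*} [NormedAddCommGroup H] [InnerProductSpace ℂ H] [CompleteSpace H]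

variable {Γ : Type*} [Group Γ] {M A : VonNeumannAlgebra H} {τ : (H →L[ℂ] H) → ℂ}
  {u : Γ → H →L[ℂ] H}

/-- a system of matrix units, bundled -/
private structure Sys4_St (M A : VonNeumannAlgebra H) where
  k : ℕ
  e : Fin k → Fin k → H →L[ℂ] H
  mu : MU M A e

private theorem Sys4_start :
    MU M A (fun (_ : Fin 1) (_ : Fin 1) => (1 : H →L[ℂ] H)) where
  pos := Nat.one_pos
  mem := fun _ _ => one_mem _
  mul := fun _ _ _ => mul_one _
  orth := fun _ j j' _ hj => absurd (Subsingleton.elim j j') hj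
  adj := fun _ _ => star_one _
  sum := by simp
  diag := fun _ => one_mem _
  conj := fun _ _ a ha => by simpa using ha

private theorem Sys4_sa {k : ℕ} {e : Fin k → Fin k → H →L[ℂ] H} (he : MU M A e)
    (J : Finset (Fin k)) : star (∑ i ∈ J, e i i) = ∑ i ∈ J, e i i := by
  rw [star_sum]
  exact Finset.sum_congr rfl fun i _ => he.adj i i

/-- (3.5) existence of the system -/
theorem CM.exists_sys [Countable Γ] (h : CM M A τ u) :
    ∃ (k : ℕ → ℕ) (e : ∀ n, Fin (k n) → Fin (k n) → H →L[ℂ] H), Sys M A τ k e := by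
  classical
  obtain ⟨p, hp, hpd⟩ := h.dense
  have hstep : ∀ (n : ℕ) (s : Sys4_St M A), ∃ s' : Sys4_St M A, n ≤ s'.k ∧ Nest s.e s'.e ∧
      ∀ N ≤ n, ∃ J : Finset (Fin s'.k),
        (τ ((p N - ∑ i ∈ J, s'.e i i) * (p N - ∑ i ∈ J, s'.e i i))).re < 1 / ((n : ℝ) + 1) := by
    intro n s
    obtain ⟨k', e', h1, h2, h3, h4⟩ := h.step s.mu ((Finset.range (n + 1)).image p)
      (by
        intro q hq
        obtain ⟨i, _, rfl⟩ := Finset.mem_image.1 hq
        exact hp i) (η := 1 / ((n : ℝ) + 1)) (by positivity) n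
    refine ⟨⟨k', e', h2⟩, h1, h3, ?_⟩
    intro N hN
    exact h4 (p N) (Finset.mem_image.2 ⟨N, Finset.mem_range.2 (by omega), rfl⟩)
  choose nx hnx1 hnx2 hnx3 using hstep
  set st : ℕ → Sys4_St M A := fun n => Nat.rec ⟨1, _, Sys4_start⟩ (fun n s => nx n s) n with hst
  have hsucc : ∀ n, st (n + 1) = nx n (st n) := fun n => rfl
  refine ⟨fun n => (st n).k, fun n => (st n).e, fun n => (st n).mu, ?_, ?_, ?_⟩
  · rw [← tendsto_add_atTop_iff_nat 1]
    refine tendsto_atTop_mono (fun n => ?_) tendsto_id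
    exact hnx1 n (st n)
  · intro n
    exact hnx2 n (st n)
  · intro q hqA hqP ε hε
    obtain ⟨N, hN⟩ := hpd q hqA hqP (ε / 4) (by positivity)
    obtain ⟨N', hN'⟩ := exists_nat_one_div_lt (show (0 : ℝ) < ε / 4 by positivity)
    rw [eventually_atTop]
    refine ⟨N + N' + 1, ?_⟩
    intro n hn
    obtain ⟨n, rfl⟩ : ∃ n', n = n' + 1 := ⟨n - 1, by omega⟩
    have hnN : N ≤ n := by omega
    have hnN' : N' ≤ n := by omega
    obtain ⟨J, hJ⟩ := hnx3 n (st n) N hnN
    refine ⟨J, ?_⟩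
    change (τ ((p N - ∑ i ∈ J, (st (n + 1)).e i i) * (p N - ∑ i ∈ J, (st (n + 1)).e i i))).re <
      1 / ((n : ℝ) + 1) at hJ
    set D : H →L[ℂ] H := ∑ i ∈ J, (st (n + 1)).e i i with hD
    have hDs : star D = D := Sys4_sa (st (n + 1)).mu J
    have hDA : D ∈ A := sum_mem fun i _ => (st (n + 1)).mu.diag i
    have hDM : D ∈ M := h.le D hDA
    have hqM : q ∈ M := h.le q hqA
    have hpM : p N ∈ M := h.le _ (hp N).1
    have hJ' : (τ ((p N - D) * (p N - D))).re < ε / 4 := by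
      refine hJ.trans_le (le_trans ?_ hN'.le)
      apply one_div_le_one_div_of_le (by positivity)
      have : (N' : ℝ) ≤ n := by exact_mod_cast hnN'
      linarith
    have hsa : ∀ x y : H →L[ℂ] H, star x = x → star y = y →
        (x - y) * (x - y) = (x - y) * star (x - y) := by
      intro x y hx hy
      rw [star_sub, hx, hy]
    rw [hsa _ _ (hp N).2.sa hDs] at hJ'
    rw [hsa _ _ hqP.sa (hp N).2.sa] at hN
    rw [hsa _ _ hqP.sa hDs]
    have e1 := h.trace.n2_sq (sub_mem hqM hpM)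
    have e2 := h.trace.n2_sq (sub_mem hpM hDM)
    have e3 := h.trace.n2_sq (sub_mem hqM hDM)
    have f1 : (τ ((q - p N) * star (q - p N))).re = n2 τ (q - p N) ^ 2 := by
      rw [e1, Complex.ofReal_re]
    have f2 : (τ ((p N - D) * star (p N - D))).re = n2 τ (p N - D) ^ 2 := by
      rw [e2, Complex.ofReal_re]
    have f3 : (τ ((q - D) * star (q - D))).re = n2 τ (q - D) ^ 2 := by
      rw [e3, Complex.ofReal_re]
    rw [f1] at hN
    rw [f2] at hJ'
    rw [f3]
    have htri := h.trace.n2_sub_le hqM hpM hDM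
    have g1 := n2_nonneg (τ := τ) (q - p N)
    have g2 := n2_nonneg (τ := τ) (p N - D)
    have g3 := n2_nonneg (τ := τ) (q - D)
    nlinarith [sq_nonneg (n2 τ (q - p N) - n2 τ (p N - D))]

end Pool.Agent.KKS

end

section

/-!
# Sys5: commutants of the system
-/


open Filter Topology

namespace Pool.Agent.KKS

variable {H : Type*} [NormedAddCommGroup H] [InnerProductSpace ℂ H] [CompleteSpace H]

variable {Γ : Type*} [Group Γ] {M A : VonNeumannAlgebra H} {τ : (H →L[ℂ] H) → ℂ}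
  {u : Γ → H →L[ℂ] H}

variable {k : ℕ → ℕ} {e : ∀ n, Fin (k n) → Fin (k n) → H →L[ℂ] H}

private theorem Sys5_smul (c : ℂ) {x : H →L[ℂ] H} (hx : x ∈ A) : c • x ∈ A :=
  mem_of_comm fun S hS => by rw [mul_smul_comm, smul_mul_assoc, hS x hx]

private theorem Sys5_pj {M A : VonNeumannAlgebra H} {k : ℕ} {e : Fin k → Fin k → H →L[ℂ] H}
    (he : MU M A e) (J : Finset (Fin k)) : PJ (∑ i ∈ J, e i i) := by
  refine ⟨?_, ?_⟩
  · rw [Finset.sum_mul]
    refine Finset.sum_congr rfl fun i hi => ?_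
    rw [Finset.mul_sum, Finset.sum_eq_single i]
    · exact he.mul i i i
    · intro j _ hj
      exact he.orth i i j j (Ne.symm hj)
    · intro h
      exact absurd hi h
  · rw [star_sum]
    exact Finset.sum_congr rfl fun i _ => he.adj i i

/-- an operator which commutes with all `e n i i` commutes with `A` (`dense`, `IsTrace.strong_zero`,
`projgen`) -/
theorem Sys.comm_A (hc : CM M A τ u) (h : Sys M A τ k e) {T : H →L[ℂ] H}
    (hT : ∀ n i, T * e n i i = e n i i * T) : ∀ a ∈ A, T * a = a * T := by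
  refine hc.projgen T fun p hp hP => ?_
  have h1 : ∀ n : ℕ, ∃ (m : ℕ) (J : Finset (Fin (k m))),
      (τ ((p - ∑ i ∈ J, e m i i) * (p - ∑ i ∈ J, e m i i))).re < 1 / ((n : ℝ) + 1) := by
    intro n
    obtain ⟨m, J, hJ⟩ := (h.dense p hp hP (1 / ((n : ℝ) + 1)) (by positivity)).exists
    exact ⟨m, J, hJ⟩
  choose m J hJ using h1
  obtain ⟨d, hd⟩ : ∃ d : ℕ → H →L[ℂ] H, ∀ n, d n = ∑ i ∈ J n, e (m n) i i :=
    ⟨_, fun _ => rfl⟩
  simp only [← hd] at hJ
  have hdP : ∀ n, PJ (d n) := fun n => by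
    rw [hd]
    exact Sys5_pj (h.mu (m n)) (J n)
  have hdA : ∀ n, d n ∈ A := fun n => by
    rw [hd]
    exact sum_mem fun i _ => (h.mu (m n)).diag i
  have hTd : ∀ n, T * d n = d n * T := by
    intro n
    rw [hd, Finset.mul_sum, Finset.sum_mul]
    exact Finset.sum_congr rfl fun i _ => hT (m n) i
  have hx : Bdd (fun n => p - d n) := (Bdd.const p).sub ⟨1, fun n => (hdP n).norm_le⟩
  have hxA : ∀ n, p - d n ∈ A := fun n => sub_mem hp (hdA n)
  have hxs : ∀ n, star (p - d n) = p - d n := fun n => by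
    rw [star_sub, hP.sa, (hdP n).sa]
  have hxn : ∀ n, 0 ≤ (τ (star (p - d n) * (p - d n))).re := fun n =>
    (hc.trace.nonneg (mul_mem (star_mem (hc.le _ (hxA n))) (hc.le _ (hxA n)))
      (star_mul_self_nonneg _)).1
  have hl : Tendsto (fun n => (τ (star (p - d n) * (p - d n))).re) UF (𝓝 0) := by
    refine squeeze_zero hxn (fun n => ?_)
      ((tendsto_one_div_add_atTop_nhds_zero_nat (𝕜 := ℝ)).mono_left Nat.hyperfilter_le_atTop)
    rw [hxs]
    exact (hJ n).le
  have h2 := fun ξ => hc.trace.strong_zero hx (fun n => hc.le _ (hxA n)) hl ξ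
  ext ξ
  have h3 : Tendsto (fun n => ‖T‖ * ‖(p - d n) ξ‖ + ‖(p - d n) (T ξ)‖) UF (𝓝 (‖T‖ * 0 + 0)) :=
    ((h2 ξ).const_mul _).add (h2 (T ξ))
  rw [mul_zero, add_zero] at h3
  have h4 : ‖(T * p) ξ - (p * T) ξ‖ ≤ 0 := by
    refine ge_of_tendsto h3 (Filter.Eventually.of_forall fun n => ?_)
    have h5 : (T * p) ξ - (p * T) ξ = T ((p - d n) ξ) - (p - d n) (T ξ) := by
      have h6 : (T * d n) ξ = (d n * T) ξ := by rw [hTd]
      have h7 : T (d n ξ) = d n (T ξ) := h6
      have h8 : (p - d n) ξ = p ξ - d n ξ := rfl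
      have h9 : (p - d n) (T ξ) = p (T ξ) - d n (T ξ) := rfl
      have h10 : (T * p) ξ = T (p ξ) := rfl
      have h11 : (p * T) ξ = p (T ξ) := rfl
      rw [h8, h9, h10, h11, map_sub, h7]
      abel
    rw [h5]
    exact (norm_sub_le _ _).trans (add_le_add (T.le_opNorm _) le_rfl)
  exact sub_eq_zero.1 (norm_le_zero_iff.1 h4)

private theorem Sys5_big (hc : CM M A τ u) (h : Sys M A τ k e) {E : H →L[ℂ] H} (hE : E ∈ A)
    (hPE : PJ E) (h0 : E ≠ 0) : ∀ᶠ n in atTop, ∃ i : Fin (k n),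
      (τ (e n i i)).re < 2 * (τ (E * e n i i)).re := by
  have hτA : IsTrace A τ := hc.trace.of_le hc.le
  have hpos : 0 < (τ E).re := by
    rcases (hτA.nonneg hE hPE.nonneg).1.lt_or_eq with h1 | h1
    · exact h1
    · exact absurd (hτA.eq_zero hE hPE.nonneg h1.symm) h0
  filter_upwards [h.dense E hE hPE _ hpos] with n hn
  obtain ⟨J, hJ⟩ := hn
  by_contra hcon
  push Not at hcon
  have hdiag : ∀ i, e n i i ∈ A := (h.mu n).diag
  have hdA : ∑ i ∈ J, e n i i ∈ A := sum_mem fun i _ => hdiag i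
  have h1 : (E - ∑ i ∈ J, e n i i) * (E - ∑ i ∈ J, e n i i) =
      (E - E * ∑ i ∈ J, e n i i) + ((∑ i ∈ J, e n i i) - E * ∑ i ∈ J, e n i i) := by
    rw [sub_mul, mul_sub, mul_sub, hPE.idem, (Sys5_pj (h.mu n) J).idem, hc.comm _ hdA _ hE]
    abel
  have h2 : τ (E * ∑ i ∈ J, e n i i) = ∑ i ∈ J, τ (E * e n i i) := by
    rw [Finset.mul_sum]
    exact hτA.sum J fun i _ => mul_mem hE (hdiag i)
  have h3 : τ (∑ i ∈ J, e n i i) = ∑ i ∈ J, τ (e n i i) := hτA.sum J fun i _ => hdiag i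
  have hEd : E * ∑ i ∈ J, e n i i ∈ A := mul_mem hE hdA
  rw [h1, hτA.add (sub_mem hE hEd) (sub_mem hdA hEd), hτA.sub hE hEd, hτA.sub hdA hEd, h2, h3,
    Complex.add_re, Complex.sub_re, Complex.sub_re, Complex.re_sum, Complex.re_sum] at hJ
  have h4 : 2 * ∑ i ∈ J, (τ (E * e n i i)).re ≤ ∑ i ∈ J, (τ (e n i i)).re := by
    rw [Finset.mul_sum]
    exact Finset.sum_le_sum fun i _ => hcon i
  linarith

/-- (3.6) -/
theorem Sys.erg (hc : CM M A τ u) (h : Sys M A τ k e) {E F : H →L[ℂ] H} (hE : E ∈ A) (hF : F ∈ A)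
    (hPE : PJ E) (hPF : PJ F) (h0 : ∀ n i j, F * e n i j * E = 0) : E = 0 ∨ F = 0 := by
  by_contra hcon
  push Not at hcon
  have hτA : IsTrace A τ := hc.trace.of_le hc.le
  obtain ⟨n, ⟨i, hi⟩, l, hl⟩ := ((Sys5_big hc h hE hPE hcon.1).and
    (Sys5_big hc h hF hPF hcon.2)).exists
  have hmu := h.mu n
  have hdiag : ∀ i, e n i i ∈ A := hmu.diag
  have hPJ : ∀ i, PJ (e n i i) := hmu.pj
  -- the two projections
  have hQA : e n l i * E * e n i l ∈ A := hmu.conj l i E hE
  have hPA : F * e n l l ∈ A := mul_mem hF (hdiag l)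
  have hP : PJ (F * e n l l) := hPF.mul (hPJ l) (hc.comm _ hF _ (hdiag l))
  have hQ : PJ (e n l i * E * e n i l) := by
    refine ⟨?_, ?_⟩
    · have h1 : e n l i * E * e n i l * (e n l i * E * e n i l) =
          e n l i * E * (e n i l * e n l i) * E * e n i l := by
        simp only [mul_assoc]
      rw [h1, hmu.mul, mul_assoc (e n l i), hc.comm _ hE _ (hdiag i), mul_assoc (e n l i),
        mul_assoc (e n i i) E E, hPE.idem, ← mul_assoc (e n l i), hmu.mul]
    · rw [star_mul, star_mul, hmu.adj, hmu.adj, hPE.sa, mul_assoc]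
  have hPQ : F * e n l l * (e n l i * E * e n i l) = 0 := by
    have h1 : F * e n l l * (e n l i * E * e n i l) = F * (e n l l * e n l i) * E * e n i l := by
      simp only [mul_assoc]
    rw [h1, hmu.mul, h0, zero_mul]
  have hsum : PJ (F * e n l l + e n l i * E * e n i l) := hP.add hQ hPQ
  have hsA : F * e n l l + e n l i * E * e n i l ∈ A := add_mem hPA hQA
  have hle : (τ (F * e n l l + e n l i * E * e n i l)).re ≤ (τ (e n l l)).re := by
    refine hτA.mono hsA (hdiag l) ?_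
    rw [← sub_nonneg]
    refine ((hPJ l).sub hsum ?_).nonneg
    rw [mul_add, hc.comm _ hF _ (hdiag l), ← mul_assoc, (hPJ l).idem, ← mul_assoc, ← mul_assoc,
      hmu.mul]
  have htr : τ (e n l i * E * e n i l) = τ (E * e n i i) := by
    have h1 := hc.trace.tracial (e n l i) (hmu.mem l i) (E * e n i l)
      (mul_mem (hc.le _ hE) (hmu.mem i l))
    rw [← mul_assoc, mul_assoc E, hmu.mul] at h1
    exact h1
  have htr2 : τ (e n l l) = τ (e n i i) := by
    have h1 := hc.trace.tracial (e n l i) (hmu.mem l i) (e n i l) (hmu.mem i l)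
    rw [hmu.mul, hmu.mul] at h1
    exact h1
  rw [hτA.add hPA hQA, Complex.add_re, htr] at hle
  rw [htr2] at hle hl
  linarith

private theorem Sys5_sa_zero (hτ : IsTrace A τ) (hA : ∀ a ∈ A, ∀ b ∈ A, a * b = b * a)
    {b : H →L[ℂ] H} (hb : b ∈ A) (hsa : star b = b) (h0 : ∀ p ∈ A, PJ p → τ (b * p) = 0) :
    b = 0 := by
  obtain ⟨v, hv, h, hh, hpos, hhh, hvh, hvb, hpj, -, -, hk1, hk2⟩ := polar hb
  have hvs : star v ∈ A := star_mem hv
  have hhs : star h = h := hpos.isSelfAdjoint.star_eq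
  -- `v` is self-adjoint
  have h1 : (v - star v) * h = 0 := by
    have h2 := congrArg star hvh
    rw [star_mul, hhs, hsa, hA _ hh _ hvs] at h2
    rw [sub_mul, hvh, h2, sub_self]
  have h2 : (v - star v) * v = 0 := by
    rw [← hk2, ← hvh, ← mul_assoc, hA _ (sub_mem hv hvs) _ hv, mul_assoc, h1, mul_zero]
  have h3 : (v - star v) * star v = 0 := by
    have h4 := congrArg star h2
    rw [star_mul, star_sub, star_star, star_zero] at h4
    rw [hA _ (sub_mem hv hvs) _ hvs]
    have h5 : star v * (v - star v) = - (star v * (star v - v)) := by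
      rw [← mul_neg, neg_sub]
    rw [h5, h4, neg_zero]
  have h4 : star (v - star v) * (v - star v) = 0 := by
    rw [star_sub, star_star, hA _ (sub_mem hvs hv) _ (sub_mem hv hvs), mul_sub, h3, h2, sub_self]
  have hvsa : star v = v := by
    have h5 : ‖v - star v‖ = 0 := by
      have h6 : ‖star (v - star v) * (v - star v)‖ = ‖v - star v‖ * ‖v - star v‖ :=
        CStarRing.norm_star_mul_self
      rw [h4, norm_zero] at h6
      exact mul_self_eq_zero.1 h6.symm
    exact (sub_eq_zero.1 (norm_eq_zero.1 h5)).symm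
  -- the projections
  rw [hvsa] at hpj hvb
  have hvv : v * v * v = v := by
    have h5 := (show PJ (star v * v) by rw [hvsa]; exact hpj).pi.1
    rwa [hvsa, ← mul_assoc] at h5
  have hvvA : v * v ∈ A := mul_mem hv hv
  have hpp : ∀ s : ℂ, s * s = 1 → star s = s → PJ ((1 / 2 : ℂ) • (v * v + s • v)) := by
    intro s hs hss
    refine ⟨?_, ?_⟩
    · rw [smul_mul_smul_comm, add_mul, mul_add, mul_add, hpj.idem, mul_smul_comm, smul_mul_assoc,
        smul_mul_smul_comm, hs, one_smul, hvv, ← mul_assoc, hvv]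
      have h5 : v * v + s • v + (s • v + v * v) = (2 : ℂ) • (v * v + s • v) := by
        rw [two_smul]
        abel
      rw [h5, smul_smul]
      norm_num
    · have h6 : star (1 / 2 : ℂ) = 1 / 2 := by
        simp
      rw [star_smul, star_add, star_smul, hss, star_mul, hvsa, h6]
  have hpA : ∀ s : ℂ, (1 / 2 : ℂ) • (v * v + s • v) ∈ A := fun s =>
    Sys5_smul _ (add_mem hvvA (Sys5_smul _ hv))
  have h5 := h0 _ (hpA 1) (hpp 1 (by norm_num) (by simp))
  have h6 := h0 _ (hpA (-1)) (hpp (-1) (by norm_num) (by simp))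
  have h7 : h = b * ((1 / 2 : ℂ) • (v * v + (1 : ℂ) • v)) -
      b * ((1 / 2 : ℂ) • (v * v + (-1 : ℂ) • v)) := by
    rw [← mul_sub, ← smul_sub]
    have h8 : v * v + (1 : ℂ) • v - (v * v + (-1 : ℂ) • v) = (2 : ℂ) • v := by
      rw [two_smul, one_smul, neg_smul, one_smul]
      abel
    rw [h8, smul_smul, hA _ hb _ (Sys5_smul _ hv), smul_mul_assoc, hvb]
    norm_num
  have h8 : τ h = 0 := by
    rw [h7, hτ.sub (mul_mem hb (hpA 1)) (mul_mem hb (hpA (-1))), h5, h6, sub_zero]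
  have h9 : h = 0 := hτ.eq_zero hh hpos (by rw [h8, Complex.zero_re])
  rw [← hvh, h9, mul_zero]

private theorem Sys5_zero (hτ : IsTrace A τ) (hA : ∀ a ∈ A, ∀ b ∈ A, a * b = b * a)
    {y : H →L[ℂ] H} (hy : y ∈ A) (h0 : ∀ p ∈ A, PJ p → τ (y * p) = 0) : y = 0 := by
  have hys : star y ∈ A := star_mem hy
  have h0' : ∀ p ∈ A, PJ p → τ (star y * p) = 0 := by
    intro p hp hP
    have h1 : star y * p = star (y * p) := by
      rw [star_mul, hP.sa, hA _ hys _ hp]
    rw [h1, hτ.conj (mul_mem hy hp), h0 p hp hP, map_zero]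
  have h1 : y + star y = 0 := by
    refine Sys5_sa_zero hτ hA (add_mem hy hys) ?_ fun p hp hP => ?_
    · rw [star_add, star_star, add_comm]
    · rw [add_mul, hτ.add (mul_mem hy hp) (mul_mem hys hp), h0 p hp hP, h0' p hp hP, add_zero]
  have h2 : Complex.I • (y - star y) = 0 := by
    refine Sys5_sa_zero hτ hA (Sys5_smul _ (sub_mem hy hys)) ?_ fun p hp hP => ?_
    · rw [star_smul, star_sub, star_star]
      have h3 : star Complex.I = - Complex.I := by simp
      rw [h3, neg_smul, ← smul_neg, neg_sub]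
    · rw [smul_mul_assoc, hτ.smul _ (mul_mem (sub_mem hy hys) hp), sub_mul,
        hτ.sub (mul_mem hy hp) (mul_mem hys hp), h0 p hp hP, h0' p hp hP, sub_zero, mul_zero]
  have h3 : y - star y = 0 := by
    rcases smul_eq_zero.1 h2 with h4 | h4
    · exact absurd h4 Complex.I_ne_zero
    · exact h4
  have h4 : (2 : ℂ) • y = 0 := by
    have h5 : (2 : ℂ) • y = (y + star y) + (y - star y) := by
      rw [two_smul]
      abel
    rw [h5, h1, h3, add_zero]
  rcases smul_eq_zero.1 h4 with h5 | h5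
  · exact absurd h5 two_ne_zero
  · exact h5

/-- (3.7) -/
theorem Sys.scalar (hc : CM M A τ u) (h : Sys M A τ k e) {x : H →L[ℂ] H} (hx : x ∈ M)
    (hT : ∀ n i j, x * e n i j = e n i j * x) : x = τ x • 1 := by
  have hτA : IsTrace A τ := hc.trace.of_le hc.le
  have hxA : x ∈ A := hc.max x hx (Sys.comm_A hc h fun n i => hT n i i)
  have h1A : (τ x • (1 : H →L[ℂ] H)) ∈ A := Sys5_smul _ (one_mem A)
  -- equal traces
  have h1 : ∀ n i j, τ (x * e n i i) = τ (x * e n j j) := by
    intro n i j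
    have h2 := hc.trace.tracial (x * e n i j) (mul_mem hx ((h.mu n).mem i j)) (e n j i)
      ((h.mu n).mem j i)
    have h3 : e n j i * (x * e n i j) = x * e n j j := by
      rw [← mul_assoc, ← hT, mul_assoc, (h.mu n).mul]
    rw [mul_assoc, (h.mu n).mul, h3] at h2
    exact h2
  have h2 : ∀ n i, (k n : ℂ) * τ (x * e n i i) = τ x := by
    intro n i
    have h3 : x = ∑ j, x * e n j j := by
      rw [← Finset.mul_sum, (h.mu n).sum, mul_one]
    have h4 : τ x = ∑ j, τ (x * e n j j) := by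
      conv_lhs => rw [h3]
      exact hτA.sum _ fun j _ => mul_mem hxA ((h.mu n).diag j)
    rw [h4, Finset.sum_congr rfl fun j _ => h1 n j i, Finset.sum_const, Finset.card_univ,
      Fintype.card_fin, nsmul_eq_mul]
  have h3 : ∀ n i, τ ((x - τ x • 1) * e n i i) = 0 := by
    intro n i
    have hd := (h.mu n).diag i
    have hk : (k n : ℂ) ≠ 0 := Nat.cast_ne_zero.2 (h.mu n).pos.ne'
    rw [sub_mul, hτA.sub (mul_mem hxA hd) (mul_mem h1A hd), smul_mul_assoc, one_mul,
      hτA.smul _ hd, (h.mu n).trace hc.trace (h.mu n).mem i, ← h2 n i]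
    field_simp
    ring
  have h4 : x - τ x • 1 = 0 := by
    refine Sys5_zero hτA hc.comm (sub_mem hxA h1A) fun p hp hP => ?_
    have hyA : x - τ x • 1 ∈ A := sub_mem hxA h1A
    by_contra hne
    have hpos : 0 < ‖τ ((x - τ x • 1) * p)‖ := norm_pos_iff.2 hne
    set c := ‖τ ((x - τ x • 1) * p)‖ with hcdef
    set N := n2 τ (x - τ x • 1) with hN
    have hN0 : 0 ≤ N := n2_nonneg _
    obtain ⟨n, J, hJ⟩ := (h.dense p hp hP ((c / (N + 1)) ^ 2) (by positivity)).exists
    have hdA : ∑ i ∈ J, e n i i ∈ A := sum_mem fun i _ => (h.mu n).diag i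
    have hdP := Sys5_pj (h.mu n) J
    have h5 : τ ((x - τ x • 1) * ∑ i ∈ J, e n i i) = 0 := by
      rw [Finset.mul_sum, hτA.sum J fun i _ => mul_mem hyA ((h.mu n).diag i)]
      exact Finset.sum_eq_zero fun i _ => h3 n i
    have hsa : star (p - ∑ i ∈ J, e n i i) = p - ∑ i ∈ J, e n i i := by
      rw [star_sub, hP.sa, hdP.sa]
    have h6 := hτA.cs hyA (sub_mem hp hdA)
    rw [hsa, mul_sub, hτA.sub (mul_mem hyA hp) (mul_mem hyA hdA), h5, sub_zero, ← hcdef,
      ← hN] at h6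
    have h7 : n2 τ (p - ∑ i ∈ J, e n i i) < c / (N + 1) := by
      unfold n2
      rw [hsa, Real.sqrt_lt' (by positivity)]
      exact hJ
    have h8 : N * n2 τ (p - ∑ i ∈ J, e n i i) ≤ N * (c / (N + 1)) :=
      mul_le_mul_of_nonneg_left h7.le hN0
    have h9 : N * (c / (N + 1)) < c := by
      rw [mul_div_assoc', div_lt_iff₀ (by positivity)]
      nlinarith
    linarith
  exact sub_eq_zero.1 h4

end Pool.Agent.KKS

end

section

/-!
# Sys6: the finite groups
-/


open Filter Topology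

namespace Pool.Agent.KKS

variable {H : Type*} [NormedAddCommGroup H] [InnerProductSpace ℂ H] [CompleteSpace H]

variable {Γ : Type*} [Group Γ] {M A : VonNeumannAlgebra H} {τ : (H →L[ℂ] H) → ℂ}
  {u : Γ → H →L[ℂ] H}

variable {k : ℕ → ℕ} {e : ∀ n, Fin (k n) → Fin (k n) → H →L[ℂ] H}

/-- signed permutation unitaries -/
private noncomputable def Sys6_sg {k : ℕ} (e : Fin k → Fin k → H →L[ℂ] H)
    (p : Equiv.Perm (Fin k) × (Fin k → ℤˣ)) : H →L[ℂ] H :=
  ∑ i, ((p.2 i : ℤ) : ℂ) • e (p.1 i) i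

private theorem Sys6_sg_mul {k : ℕ} {e : Fin k → Fin k → H →L[ℂ] H} (he : MU M A e)
    (p q : Equiv.Perm (Fin k) × (Fin k → ℤˣ)) :
    Sys6_sg e p * Sys6_sg e q = Sys6_sg e (p.1 * q.1, fun i => p.2 (q.1 i) * q.2 i) := by
  unfold Sys6_sg
  rw [Finset.mul_sum]
  refine Finset.sum_congr rfl fun j _ => ?_
  rw [Finset.sum_mul, Finset.sum_eq_single (q.1 j)]
  · rw [smul_mul_assoc, mul_smul_comm, he.mul, smul_smul]
    congr 1
    push_cast
    ring
  · intro b _ hb
    rw [smul_mul_assoc, mul_smul_comm, he.orth _ _ _ _ hb, smul_zero, smul_zero]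
  · intro hj
    exact absurd (Finset.mem_univ _) hj

private theorem Sys6_sg_one {k : ℕ} {e : Fin k → Fin k → H →L[ℂ] H} (he : MU M A e) :
    Sys6_sg e (1, 1) = 1 := by
  unfold Sys6_sg
  rw [← he.sum]
  refine Finset.sum_congr rfl fun i _ => ?_
  simp

private theorem Sys6_sg_star {k : ℕ} {e : Fin k → Fin k → H →L[ℂ] H} (he : MU M A e)
    (p : Equiv.Perm (Fin k) × (Fin k → ℤˣ)) :
    star (Sys6_sg e p) = Sys6_sg e (p.1⁻¹, fun i => p.2 (p.1⁻¹ i)) := by
  unfold Sys6_sg
  rw [star_sum, ← Equiv.sum_comp p.1 (fun i => ((p.2 (p.1⁻¹ i) : ℤ) : ℂ) • e (p.1⁻¹ i) i)]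
  refine Finset.sum_congr rfl fun i _ => ?_
  rw [star_smul, he.adj]
  simp

private theorem Sys6_sg_unit {k : ℕ} {e : Fin k → Fin k → H →L[ℂ] H} (he : MU M A e)
    (p : Equiv.Perm (Fin k) × (Fin k → ℤˣ)) :
    star (Sys6_sg e p) * Sys6_sg e p = 1 ∧ Sys6_sg e p * star (Sys6_sg e p) = 1 := by
  rw [Sys6_sg_star he, Sys6_sg_mul he, Sys6_sg_mul he]
  constructor
  · rw [← Sys6_sg_one he]
    congr 1
    refine Prod.ext ?_ ?_
    · simp
    · funext i
      simp [Int.units_mul_self]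
  · rw [← Sys6_sg_one he]
    congr 1
    refine Prod.ext ?_ ?_
    · simp
    · funext i
      simp [Int.units_mul_self]

private theorem Sys6_sg_nest {k k' : ℕ} {e : Fin k → Fin k → H →L[ℂ] H}
    {e' : Fin k' → Fin k' → H →L[ℂ] H} (hn : Nest e e')
    (p : Equiv.Perm (Fin k) × (Fin k → ℤˣ)) : ∃ q, Sys6_sg e p = Sys6_sg e' q := by
  obtain ⟨m, φ, -, h⟩ := hn
  refine ⟨(φ.symm.trans ((Equiv.prodCongr p.1 (Equiv.refl _)).trans φ),
    fun j => p.2 (φ.symm j).1), ?_⟩
  unfold Sys6_sg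
  rw [← Equiv.sum_comp φ, Fintype.sum_prod_type]
  refine Finset.sum_congr rfl fun i _ => ?_
  rw [h, Finset.smul_sum]
  refine Finset.sum_congr rfl fun l _ => ?_
  simp

private theorem Sys6_sg_diff {k : ℕ} (e : Fin k → Fin k → H →L[ℂ] H) (i j : Fin k) :
    e i j = (1 / 2 : ℂ) • (Sys6_sg e (Equiv.swap i j, 1) -
      Sys6_sg e (Equiv.swap i j, fun l => if l = j then -1 else 1)) := by
  unfold Sys6_sg
  rw [← Finset.sum_sub_distrib, Finset.sum_eq_single j]
  · simp only [Equiv.swap_apply_right, Pi.one_apply, if_true, Units.val_one, Units.val_neg,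
      Int.cast_one, Int.cast_neg, one_smul, neg_smul, sub_neg_eq_add]
    rw [← two_smul ℂ (e i j), smul_smul]
    norm_num
  · intro b _ hb
    simp [hb]
  · intro hj
    exact absurd (Finset.mem_univ _) hj

private theorem Sys6_sg_mem {k : ℕ} {e : Fin k → Fin k → H →L[ℂ] H} (he : MU M A e)
    (p : Equiv.Perm (Fin k) × (Fin k → ℤˣ)) : Sys6_sg e p ∈ M :=
  sum_mem fun i _ => M.toStarSubalgebra.smul_mem (he.mem (p.1 i) i) _

/-- (3.8) the finite groups `G n = {∑ i, ± e n (σ i) i}` -/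
theorem Sys.groups (h : Sys M A τ k e) : ∃ G : ℕ → Finset (H →L[ℂ] H),
    (∀ n, (1 : H →L[ℂ] H) ∈ G n) ∧ (∀ n, ∀ x ∈ G n, ∀ y ∈ G n, x * y ∈ G n) ∧
    (∀ n, ∀ x ∈ G n, star x ∈ G n) ∧ (∀ n, ∀ x ∈ G n, star x * x = 1 ∧ x * star x = 1) ∧
    (∀ n, G n ⊆ G (n + 1)) ∧ (∀ n, ∀ x ∈ G n, x ∈ M) ∧
    ∀ n i j, e n i j ∈ Submodule.span ℂ (G n : Set (H →L[ℂ] H)) := by
  classical
  let G : ℕ → Finset (H →L[ℂ] H) := fun n => Finset.univ.image (Sys6_sg (e n))
  have hG : ∀ n x, x ∈ G n ↔ ∃ p, Sys6_sg (e n) p = x := fun n x => by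
    simp [G]
  refine ⟨G, ?_, ?_, ?_, ?_, ?_, ?_, ?_⟩
  · intro n
    exact (hG n _).mpr ⟨_, Sys6_sg_one (h.mu n)⟩
  · intro n x hx y hy
    obtain ⟨p, rfl⟩ := (hG n x).mp hx
    obtain ⟨q, rfl⟩ := (hG n y).mp hy
    exact (hG n _).mpr ⟨_, (Sys6_sg_mul (h.mu n) p q).symm⟩
  · intro n x hx
    obtain ⟨p, rfl⟩ := (hG n x).mp hx
    exact (hG n _).mpr ⟨_, (Sys6_sg_star (h.mu n) p).symm⟩
  · intro n x hx
    obtain ⟨p, rfl⟩ := (hG n x).mp hx
    exact Sys6_sg_unit (h.mu n) p
  · intro n x hx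
    obtain ⟨p, rfl⟩ := (hG n x).mp hx
    obtain ⟨q, hq⟩ := Sys6_sg_nest (h.nest n) p
    exact (hG (n + 1) _).mpr ⟨q, hq.symm⟩
  · intro n x hx
    obtain ⟨p, rfl⟩ := (hG n x).mp hx
    exact Sys6_sg_mem (h.mu n) p
  · intro n i j
    rw [Sys6_sg_diff (e n) i j]
    refine Submodule.smul_mem _ _ (Submodule.sub_mem _ (Submodule.subset_span ?_)
      (Submodule.subset_span ?_))
    · exact (hG n _).mpr ⟨_, rfl⟩
    · exact (hG n _).mpr ⟨_, rfl⟩

end Pool.Agent.KKS

end

section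

/-!
# Ex: the averaging map of the diagonal algebras
-/


open Filter Topology

namespace Pool.Agent.KKS

variable {H : Type*} [NormedAddCommGroup H] [InnerProductSpace ℂ H] [CompleteSpace H]

/-- average over the diagonal algebras -/
noncomputable def EA {k : ℕ → ℕ} (e : ∀ n, Fin (k n) → Fin (k n) → H →L[ℂ] H) (T : H →L[ℂ] H) :
    H →L[ℂ] H := wlim fun n => ∑ i, e n i i * T * e n i i

/-- average over the matrix algebras -/
noncomputable def mA {k : ℕ → ℕ} (e : ∀ n, Fin (k n) → Fin (k n) → H →L[ℂ] H) (T : H →L[ℂ] H) :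
    H →L[ℂ] H := wlim fun n => ((k n : ℂ)⁻¹) • ∑ i, ∑ j, e n j i * T * e n i j

variable {M A R : VonNeumannAlgebra H} {τ : (H →L[ℂ] H) → ℂ}
variable {k : ℕ → ℕ} {e : ∀ n, Fin (k n) → Fin (k n) → H →L[ℂ] H}

theorem Sys.EA_bdd (h : Sys M A τ k e) (T : H →L[ℂ] H) (n : ℕ) :
    ‖∑ i, e n i i * T * e n i i‖ ≤ ‖T‖ :=
  norm_pinch_le Finset.univ (p := fun i => e n i i) (q := fun i => e n i i) T
    (fun i => (h.mu n).pj i) (fun i => (h.mu n).pj i)
    (fun i _ j _ hij => (h.mu n).orth i i j j hij) (fun i _ j _ hij => (h.mu n).orth i i j j hij)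

private theorem Sys.Ex_Ex_Bdd (h : Sys M A τ k e) (T : H →L[ℂ] H) :
    Bdd (fun n => ∑ i, e n i i * T * e n i i) := ⟨‖T‖, h.EA_bdd T⟩

theorem Sys.EA_add (h : Sys M A τ k e) (S T : H →L[ℂ] H) : EA e (S + T) = EA e S + EA e T := by
  unfold EA
  rw [← wlim_add (h.Ex_Ex_Bdd S) (h.Ex_Ex_Bdd T)]
  congr 1
  funext n
  rw [← Finset.sum_add_distrib]
  exact Finset.sum_congr rfl fun i _ => by rw [mul_add, add_mul]

theorem Sys.EA_sub (h : Sys M A τ k e) (S T : H →L[ℂ] H) : EA e (S - T) = EA e S - EA e T := by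
  unfold EA
  rw [← wlim_sub (h.Ex_Ex_Bdd S) (h.Ex_Ex_Bdd T)]
  congr 1
  funext n
  rw [← Finset.sum_sub_distrib]
  exact Finset.sum_congr rfl fun i _ => by rw [mul_sub, sub_mul]

theorem Sys.EA_smul (h : Sys M A τ k e) (c : ℂ) (T : H →L[ℂ] H) : EA e (c • T) = c • EA e T := by
  unfold EA
  rw [← wlim_smul (h.Ex_Ex_Bdd T)]
  congr 1
  funext n
  rw [Finset.smul_sum]
  exact Finset.sum_congr rfl fun i _ => by rw [mul_smul_comm, smul_mul_assoc]

theorem Sys.EA_star (h : Sys M A τ k e) (T : H →L[ℂ] H) : EA e (star T) = star (EA e T) := by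
  unfold EA
  rw [← wlim_star (h.Ex_Ex_Bdd T)]
  congr 1
  funext n
  rw [star_sum]
  refine Finset.sum_congr rfl fun i _ => ?_
  rw [star_mul, star_mul, (h.mu n).adj, mul_assoc]

theorem Sys.EA_norm (h : Sys M A τ k e) (T : H →L[ℂ] H) : ‖EA e T‖ ≤ ‖T‖ :=
  norm_wlim_le (h.EA_bdd T)

theorem Sys.EA_mem (h : Sys M A τ k e) (hR : ∀ n i j, e n i j ∈ R) {T : H →L[ℂ] H} (hT : T ∈ R) :
    EA e T ∈ R :=
  wlim_mem R (h.Ex_Ex_Bdd T) (Eventually.of_forall fun n =>
    sum_mem fun i _ => mul_mem (mul_mem (hR n i i) hT) (hR n i i))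

/-- `EA T` commutes with the diagonal algebras (they increase) -/
theorem Sys.EA_comm (h : Sys M A τ k e) (T : H →L[ℂ] H) (n : ℕ) (i : Fin (k n)) :
    EA e T * e n i i = e n i i * EA e T := by
  unfold EA
  apply wlim_comm (h.Ex_Ex_Bdd T)
  have h1 : ∀ᶠ N in (atTop : Filter ℕ), n ≤ N := eventually_ge_atTop n
  refine (h1.filter_mono Nat.hyperfilter_le_atTop).mono fun N hN => ?_
  apply (h.nest_le hN).comm_diag
  intro j
  have e1 : (∑ i, e N i i * T * e N i i) * e N j j = e N j j * T * e N j j := by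
    rw [Finset.sum_mul, Finset.sum_eq_single j]
    · rw [mul_assoc, (h.mu N).mul]
    · intro b _ hb
      rw [mul_assoc, (h.mu N).orth b b j j hb, mul_zero]
    · intro hj
      exact absurd (Finset.mem_univ j) hj
  have e2 : e N j j * (∑ i, e N i i * T * e N i i) = e N j j * T * e N j j := by
    rw [Finset.mul_sum, Finset.sum_eq_single j]
    · rw [← mul_assoc, ← mul_assoc, (h.mu N).mul]
    · intro b _ hb
      rw [← mul_assoc, ← mul_assoc, (h.mu N).orth j j b b hb.symm, zero_mul, zero_mul]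
    · intro hj
      exact absurd (Finset.mem_univ j) hj
  rw [e1, e2]

theorem Sys.EA_mod (h : Sys M A τ k e) {a b : H →L[ℂ] H} (ha : ∀ n i, a * e n i i = e n i i * a)
    (hb : ∀ n i, b * e n i i = e n i i * b) (T : H →L[ℂ] H) : EA e (a * T * b) = a * EA e T * b := by
  unfold EA
  rw [← wlim_mul_left (h.Ex_Ex_Bdd T), ← wlim_mul_right ((Bdd.const a).mul (h.Ex_Ex_Bdd T))]
  congr 1
  funext n
  rw [Finset.mul_sum, Finset.sum_mul]
  refine Finset.sum_congr rfl fun i _ => ?_
  calc e n i i * (a * T * b) * e n i i = (e n i i * a) * T * (b * e n i i) := by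
        simp only [mul_assoc]
    _ = (a * e n i i) * T * (e n i i * b) := by rw [ha, hb]
    _ = a * (e n i i * T * e n i i) * b := by simp only [mul_assoc]

theorem Sys.EA_of_comm (h : Sys M A τ k e) {T : H →L[ℂ] H} (hT : ∀ n i, T * e n i i = e n i i * T) :
    EA e T = T := by
  unfold EA
  have e1 : (fun n => ∑ i, e n i i * T * e n i i) = fun _ => T := by
    funext n
    calc ∑ i, e n i i * T * e n i i = ∑ i, T * e n i i := by
          refine Finset.sum_congr rfl fun i _ => ?_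
          rw [← hT, mul_assoc, (h.mu n).mul]
      _ = T := by rw [← Finset.mul_sum, (h.mu n).sum, mul_one]
  rw [e1, wlim_const]

theorem Sys.EA_trace (h : Sys M A τ k e) {σ : (H →L[ℂ] H) → ℂ} (hR : IsTrace R σ)
    (hRe : ∀ n i j, e n i j ∈ R) {T : H →L[ℂ] H} (hT : T ∈ R) : σ (EA e T) = σ T := by
  have h1 := hR.lim (h.Ex_Ex_Bdd T) (fun n => sum_mem fun i _ =>
    mul_mem (mul_mem (hRe n i i) hT) (hRe n i i))
  have h2 : (fun n => σ (∑ i, e n i i * T * e n i i)) = fun _ => σ T := by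
    funext n
    rw [hR.sum _ fun i _ => mul_mem (mul_mem (hRe n i i) hT) (hRe n i i)]
    calc ∑ i, σ (e n i i * T * e n i i) = ∑ i, σ (e n i i * T) := by
          refine Finset.sum_congr rfl fun i _ => ?_
          rw [hR.tracial _ (mul_mem (hRe n i i) hT) _ (hRe n i i), ← mul_assoc, (h.mu n).mul]
      _ = σ (∑ i, e n i i * T) := (hR.sum _ fun i _ => mul_mem (hRe n i i) hT).symm
      _ = σ T := by rw [← Finset.sum_mul, (h.mu n).sum, one_mul]
  rw [h2] at h1
  exact tendsto_nhds_unique tendsto_const_nhds h1 |>.symm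

end Pool.Agent.KKS

end

section

/-!
# Ex2: the averaging map of the matrix algebras
-/


open Filter Topology

namespace Pool.Agent.KKS

variable {H : Type*} [NormedAddCommGroup H] [InnerProductSpace ℂ H] [CompleteSpace H]

variable {M A R : VonNeumannAlgebra H} {τ : (H →L[ℂ] H) → ℂ}
variable {k : ℕ → ℕ} {e : ∀ n, Fin (k n) → Fin (k n) → H →L[ℂ] H}

private theorem Ex2_norm_le (h : Sys M A τ k e) (n : ℕ) (i j : Fin (k n)) : ‖e n i j‖ ≤ 1 := by
  have h1 : ‖e n i j‖ * ‖e n i j‖ = ‖e n j j‖ := by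
    rw [← CStarRing.norm_star_mul_self, (h.mu n).adj, (h.mu n).mul]
  have h2 : ‖e n j j‖ ≤ 1 := ((h.mu n).pj j).norm_le
  nlinarith [norm_nonneg (e n i j)]

private theorem Ex2_smul_mem {R : VonNeumannAlgebra H} {x : H →L[ℂ] H} (c : ℂ) (hx : x ∈ R) :
    c • x ∈ R := R.toStarSubalgebra.smul_mem hx c

private theorem Ex2_knz (h : Sys M A τ k e) (n : ℕ) : (k n : ℂ) ≠ 0 :=
  Nat.cast_ne_zero.mpr (h.mu n).pos.ne'

theorem Sys.mA_bdd (h : Sys M A τ k e) (T : H →L[ℂ] H) (n : ℕ) :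
    ‖((k n : ℂ)⁻¹) • ∑ i, ∑ j, e n j i * T * e n i j‖ ≤ ‖T‖ := by
  have h1 : ∀ i : Fin (k n), ‖∑ j, e n j i * T * e n i j‖ ≤ ‖T‖ := fun i => by
    apply norm_sum_orth_le Finset.univ (p := fun j => e n j j) (q := fun j => e n j j)
      (norm_nonneg T) (fun j => (h.mu n).pj j) (fun j => (h.mu n).pj j)
      (fun i _ j _ hij => (h.mu n).orth i i j j hij) (fun i _ j _ hij => (h.mu n).orth i i j j hij)
    · intro j _
      rw [mul_assoc (e n j j), mul_assoc (e n j i * T), (h.mu n).mul, mul_assoc (e n j i),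
        ← mul_assoc (e n j j), (h.mu n).mul]
    · intro j _
      calc ‖e n j i * T * e n i j‖ ≤ ‖e n j i‖ * ‖T‖ * ‖e n i j‖ :=
            (norm_mul_le _ _).trans (mul_le_mul_of_nonneg_right (norm_mul_le _ _) (norm_nonneg _))
        _ ≤ 1 * ‖T‖ * 1 := by
            gcongr
            · exact Ex2_norm_le h n j i
            · exact Ex2_norm_le h n i j
        _ = ‖T‖ := by ring
  have hk : (0 : ℝ) < k n := Nat.cast_pos.mpr (h.mu n).pos
  calc ‖((k n : ℂ)⁻¹) • ∑ i, ∑ j, e n j i * T * e n i j‖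
      = (k n : ℝ)⁻¹ * ‖∑ i, ∑ j, e n j i * T * e n i j‖ := by
        rw [norm_smul, norm_inv, Complex.norm_natCast]
    _ ≤ (k n : ℝ)⁻¹ * ∑ i : Fin (k n), ‖T‖ := by
        gcongr
        exact (norm_sum_le _ _).trans (Finset.sum_le_sum fun i _ => h1 i)
    _ = ‖T‖ := by
        rw [Finset.sum_const, Finset.card_univ, Fintype.card_fin, nsmul_eq_mul,
          ← mul_assoc, inv_mul_cancel₀ hk.ne', one_mul]

private theorem Sys.Ex2_Ex2_Bdd (h : Sys M A τ k e) (T : H →L[ℂ] H) :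
    Bdd (fun n => ((k n : ℂ)⁻¹) • ∑ i, ∑ j, e n j i * T * e n i j) := ⟨‖T‖, h.mA_bdd T⟩

theorem Sys.mA_add (h : Sys M A τ k e) (S T : H →L[ℂ] H) : mA e (S + T) = mA e S + mA e T := by
  unfold mA
  rw [← wlim_add (h.Ex2_Ex2_Bdd S) (h.Ex2_Ex2_Bdd T)]
  congr 1
  funext n
  rw [← smul_add, ← Finset.sum_add_distrib]
  congr 1
  refine Finset.sum_congr rfl fun i _ => ?_
  rw [← Finset.sum_add_distrib]
  exact Finset.sum_congr rfl fun j _ => by rw [mul_add, add_mul]

theorem Sys.mA_smul (h : Sys M A τ k e) (c : ℂ) (T : H →L[ℂ] H) : mA e (c • T) = c • mA e T := by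
  unfold mA
  rw [← wlim_smul (h.Ex2_Ex2_Bdd T)]
  congr 1
  funext n
  rw [smul_comm c, Finset.smul_sum (r := c)]
  congr 1
  refine Finset.sum_congr rfl fun i _ => ?_
  rw [Finset.smul_sum]
  exact Finset.sum_congr rfl fun j _ => by rw [mul_smul_comm, smul_mul_assoc]

theorem Sys.mA_star (h : Sys M A τ k e) (T : H →L[ℂ] H) : mA e (star T) = star (mA e T) := by
  unfold mA
  rw [← wlim_star (h.Ex2_Ex2_Bdd T)]
  congr 1
  funext n
  rw [star_smul, star_sum]
  congr 1
  · simp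
  refine Finset.sum_congr rfl fun i _ => ?_
  rw [star_sum]
  refine Finset.sum_congr rfl fun j _ => ?_
  rw [star_mul, star_mul, (h.mu n).adj, (h.mu n).adj, mul_assoc]

theorem Sys.mA_norm (h : Sys M A τ k e) (T : H →L[ℂ] H) : ‖mA e T‖ ≤ ‖T‖ :=
  norm_wlim_le (h.mA_bdd T)

theorem Sys.mA_nonneg (h : Sys M A τ k e) {T : H →L[ℂ] H} (hT : 0 ≤ T) : 0 ≤ mA e T := by
  apply wlim_nonneg (h.Ex2_Ex2_Bdd T)
  refine Eventually.of_forall fun n => ?_
  have h1 : (0 : H →L[ℂ] H) ≤ ∑ i, ∑ j, e n j i * T * e n i j := by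
    refine Finset.sum_nonneg fun i _ => Finset.sum_nonneg fun j _ => ?_
    rw [← (h.mu n).adj i j]
    exact star_left_conjugate_nonneg hT _
  have hk : (0 : ℝ) ≤ (k n : ℝ)⁻¹ := inv_nonneg.mpr (Nat.cast_nonneg _)
  have e1 : ((k n : ℂ)⁻¹) • ∑ i, ∑ j, e n j i * T * e n i j =
      ((k n : ℝ)⁻¹) • ∑ i, ∑ j, e n j i * T * e n i j := by
    rw [← Complex.coe_smul]
    congr 1
    push_cast
    rfl
  rw [e1]
  exact smul_nonneg hk h1

theorem Sys.mA_mem (h : Sys M A τ k e) (hR : ∀ n i j, e n i j ∈ R) {T : H →L[ℂ] H} (hT : T ∈ R) :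
    mA e T ∈ R :=
  wlim_mem R (h.Ex2_Ex2_Bdd T) (Eventually.of_forall fun n => Ex2_smul_mem _
    (sum_mem fun i _ => sum_mem fun j _ => mul_mem (mul_mem (hR n j i) hT) (hR n i j)))

/-- `mA T` commutes with the matrix units: for `n ≤ N`, averaging over the fine matrix algebra of
level `N` gives operators which commute with it -/
theorem Sys.mA_comm (h : Sys M A τ k e) (T : H →L[ℂ] H) (n : ℕ) (i j : Fin (k n)) :
    mA e T * e n i j = e n i j * mA e T := by
  unfold mA
  apply wlim_comm (h.Ex2_Ex2_Bdd T)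
  have h1 : ∀ᶠ N in (atTop : Filter ℕ), n ≤ N := eventually_ge_atTop n
  refine (h1.filter_mono Nat.hyperfilter_le_atTop).mono fun N hN => ?_
  apply (h.nest_le hN).comm
  intro a b
  have e1 : (∑ i, ∑ j, e N j i * T * e N i j) * e N a b = ∑ i, e N a i * T * e N i b := by
    rw [Finset.sum_mul]
    refine Finset.sum_congr rfl fun i _ => ?_
    rw [Finset.sum_mul, Finset.sum_eq_single a]
    · rw [mul_assoc, (h.mu N).mul]
    · intro c _ hc
      rw [mul_assoc, (h.mu N).orth i c a b hc, mul_zero]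
    · intro hj
      exact absurd (Finset.mem_univ a) hj
  have e2 : e N a b * (∑ i, ∑ j, e N j i * T * e N i j) = ∑ i, e N a i * T * e N i b := by
    rw [Finset.mul_sum]
    refine Finset.sum_congr rfl fun i _ => ?_
    rw [Finset.mul_sum, Finset.sum_eq_single b]
    · rw [← mul_assoc, ← mul_assoc, (h.mu N).mul]
    · intro c _ hc
      rw [← mul_assoc, ← mul_assoc, (h.mu N).orth a b c i hc.symm, zero_mul, zero_mul]
    · intro hj
      exact absurd (Finset.mem_univ b) hj
  rw [smul_mul_assoc, mul_smul_comm, e1, e2]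

theorem Sys.mA_of_comm (h : Sys M A τ k e) {T : H →L[ℂ] H}
    (hT : ∀ n i j, T * e n i j = e n i j * T) : mA e T = T := by
  unfold mA
  have e1 : (fun n => ((k n : ℂ)⁻¹) • ∑ i, ∑ j, e n j i * T * e n i j) = fun _ => T := by
    funext n
    have e2 : ∀ i : Fin (k n), ∑ j, e n j i * T * e n i j = T := fun i => by
      calc ∑ j, e n j i * T * e n i j = ∑ j, T * e n j j := by
            refine Finset.sum_congr rfl fun j _ => ?_
            rw [← hT, mul_assoc, (h.mu n).mul]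
        _ = T := by rw [← Finset.mul_sum, (h.mu n).sum, mul_one]
    rw [Finset.sum_congr rfl fun i _ => e2 i, Finset.sum_const, Finset.card_univ, Fintype.card_fin,
      ← Nat.cast_smul_eq_nsmul ℂ, smul_smul, inv_mul_cancel₀ (Ex2_knz h n), one_smul]
  rw [e1, wlim_const]

theorem Sys.mA_trace (h : Sys M A τ k e) {σ : (H →L[ℂ] H) → ℂ} (hR : IsTrace R σ)
    (hRe : ∀ n i j, e n i j ∈ R) {T : H →L[ℂ] H} (hT : T ∈ R) : σ (mA e T) = σ T := by
  have hm : ∀ n i j, e n j i * T * e n i j ∈ R := fun n i j =>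
    mul_mem (mul_mem (hRe n j i) hT) (hRe n i j)
  have h1 := hR.lim (h.Ex2_Ex2_Bdd T) (fun n => Ex2_smul_mem _
    (sum_mem fun i _ => sum_mem fun j _ => hm n i j))
  have h2 : (fun n => σ (((k n : ℂ)⁻¹) • ∑ i, ∑ j, e n j i * T * e n i j)) = fun _ => σ T := by
    funext n
    rw [hR.smul _ (sum_mem fun i _ => sum_mem fun j _ => hm n i j),
      hR.sum _ fun i _ => sum_mem fun j _ => hm n i j]
    have e3 : ∀ i : Fin (k n), σ (∑ j, e n j i * T * e n i j) = k n * σ (e n i i * T) := fun i => by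
      rw [hR.sum _ fun j _ => hm n i j]
      have e4 : ∀ j : Fin (k n), σ (e n j i * T * e n i j) = σ (e n i i * T) := fun j => by
        rw [hR.tracial _ (mul_mem (hRe n j i) hT) _ (hRe n i j), ← mul_assoc, (h.mu n).mul]
      rw [Finset.sum_congr rfl fun j _ => e4 j, Finset.sum_const, Finset.card_univ,
        Fintype.card_fin, nsmul_eq_mul]
    rw [Finset.sum_congr rfl fun i _ => e3 i, ← Finset.mul_sum, ← mul_assoc,
      inv_mul_cancel₀ (Ex2_knz h n), one_mul, ← hR.sum _ fun i _ => mul_mem (hRe n i i) hT,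
      ← Finset.sum_mul, (h.mu n).sum, one_mul]
  rw [h2] at h1
  exact tendsto_nhds_unique tendsto_const_nhds h1 |>.symm

end Pool.Agent.KKS

end

section

/-!
# Ex3: the averaging maps on the crossed product
-/


open Filter Topology

namespace Pool.Agent.KKS

variable {H : Type*} [NormedAddCommGroup H] [InnerProductSpace ℂ H] [CompleteSpace H]

variable {M A R : VonNeumannAlgebra H} {τ : (H →L[ℂ] H) → ℂ}
variable {k : ℕ → ℕ} {e : ∀ n, Fin (k n) → Fin (k n) → H →L[ℂ] H}

variable {Γ : Type*} [Group Γ] {u : Γ → H →L[ℂ] H}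

/-- `EA` is the trace preserving conditional expectation of `M` onto `A` -/
theorem Sys.EA_M (hc : CM M A τ u) (h : Sys M A τ k e) {x : H →L[ℂ] H} (hx : x ∈ M) :
    EA e x ∈ A ∧ ∀ a ∈ A, τ (EA e x * a) = τ (x * a) := by
  have hM : ∀ n i j, e n i j ∈ M := fun n => (h.mu n).mem
  have h1 : EA e x ∈ M := h.EA_mem hM hx
  refine ⟨hc.max _ h1 (Sys.comm_A hc h fun n i => h.EA_comm x n i), fun a ha => ?_⟩
  have e1 : EA e (1 * x * a) = 1 * EA e x * a :=
    h.EA_mod (fun n i => by rw [one_mul, mul_one])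
      (fun n i => hc.comm a ha _ ((h.mu n).diag i)) x
  rw [one_mul, one_mul] at e1
  rw [← e1, h.EA_trace hc.trace hM (mul_mem hx (hc.le a ha))]

/-- the Fourier coefficients of `u g`, `g ≠ 1`, vanish -/
theorem Sys.EA_u (hc : CM M A τ u) (h : Sys M A τ k e) {g : Γ} (hg : g ≠ 1) : EA e (u g) = 0 := by
  obtain ⟨h1, h2⟩ := Sys.EA_M hc h (hc.u_mem g)
  have h3 := h2 _ (star_mem h1)
  have h4 : τ (u g * star (EA e (u g))) = 0 := by
    have e1 : u g * star (EA e (u g)) = (u g * star (EA e (u g)) * star (u g)) * u g := by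
      rw [mul_assoc _ (star (u g)), (hc.unit g).1, mul_one]
    rw [e1]
    exact hc.u_free g hg _ (hc.u_norm g _ (star_mem h1))
  rw [h4] at h3
  have h5 := hc.trace.faithful (star (EA e (u g))) (star_mem (hc.le _ h1))
    (by rw [star_star]; exact h3)
  rwa [star_eq_zero] at h5

/-- `mA x = τ x` for `x ∈ M` -/
theorem Sys.mA_M (hc : CM M A τ u) (h : Sys M A τ k e) {x : H →L[ℂ] H} (hx : x ∈ M) :
    mA e x = τ x • 1 := by
  have hM : ∀ n i j, e n i j ∈ M := fun n => (h.mu n).mem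
  have h1 := Sys.scalar hc h (h.mA_mem hM hx) (fun n i j => h.mA_comm x n i j)
  rwa [h.mA_trace hc.trace hM hx] at h1

end Pool.Agent.KKS

end
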