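import Pool.Agent.Lib.MP_5c1ef7_an.P02

/-!
# P06: averaging over locally finite groups
-/

set_option autoImplicit false
set_option linter.unusedSectionVars false

section

/-!
# Kz: means over locally finite groups of unitaries
-/


open Filter Topology

namespace Pool.Agent.KKS

variable {H : Type*} [NormedAddCommGroup H] [InnerProductSpace ℂ H] [CompleteSpace H]

/-- an increasing sequence of finite groups of unitaries -/
structure FGr (G : ℕ → Finset (H →L[ℂ] H)) : Prop where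
  one : ∀ n, (1 : H →L[ℂ] H) ∈ G n
  mul : ∀ n, ∀ x ∈ G n, ∀ y ∈ G n, x * y ∈ G n
  adj : ∀ n, ∀ x ∈ G n, star x ∈ G n
  unit : ∀ n, ∀ x ∈ G n, star x * x = 1 ∧ x * star x = 1
  incl : ∀ n, G n ⊆ G (n + 1)

/-- the union -/
def GU (G : ℕ → Finset (H →L[ℂ] H)) : Set (H →L[ℂ] H) := {x | ∃ n, x ∈ G n}

/-- the mean of a bounded function on the union -/
noncomputable def gmean (G : ℕ → Finset (H →L[ℂ] H)) (f : (H →L[ℂ] H) → H →L[ℂ] H) :
    H →L[ℂ] H := wlim fun n => (((G n).card : ℂ)⁻¹) • ∑ x ∈ G n, f x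

/-- bounded on the union -/
def BddOn (G : ℕ → Finset (H →L[ℂ] H)) (f : (H →L[ℂ] H) → H →L[ℂ] H) : Prop :=
  ∃ C : ℝ, ∀ x ∈ GU G, ‖f x‖ ≤ C

variable {G : ℕ → Finset (H →L[ℂ] H)} (R : VonNeumannAlgebra H)

private theorem Kz_card (hG : FGr G) (n : ℕ) : ((G n).card : ℂ) ≠ 0 := by
  have := Finset.card_pos.2 ⟨_, hG.one n⟩
  exact_mod_cast this.ne'

private theorem Kz_norm_le (hG : FGr G) {f : (H →L[ℂ] H) → H →L[ℂ] H} {C : ℝ}
    (h : ∀ x ∈ GU G, ‖f x‖ ≤ C) (n : ℕ) :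
    ‖(((G n).card : ℂ)⁻¹) • ∑ x ∈ G n, f x‖ ≤ C := by
  have h1 := Kz_card hG n
  have h2 : ‖∑ x ∈ G n, f x‖ ≤ (G n).card * C := by
    refine (norm_sum_le _ _).trans ?_
    rw [← nsmul_eq_mul]
    exact Finset.sum_le_card_nsmul _ _ _ fun x hx => h x ⟨n, hx⟩
  have h3 : (0 : ℝ) < (G n).card := by
    have := Finset.card_pos.2 ⟨_, hG.one n⟩
    exact_mod_cast this
  rw [norm_smul, norm_inv, Complex.norm_natCast, inv_mul_le_iff₀ h3]
  exact h2

private theorem Kz_bdd (hG : FGr G) {f : (H →L[ℂ] H) → H →L[ℂ] H} (hf : BddOn G f) :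
    Bdd fun n => (((G n).card : ℂ)⁻¹) • ∑ x ∈ G n, f x := by
  obtain ⟨C, hC⟩ := hf
  exact ⟨C, Kz_norm_le hG hC⟩

theorem FGr.mono (hG : FGr G) {m n : ℕ} (h : m ≤ n) : G m ⊆ G n := by
  induction n, h using Nat.le_induction with
  | base => exact Finset.Subset.refl _
  | succ n _ ih => exact ih.trans (hG.incl n)

theorem FGr.GU_mul (hG : FGr G) {x y : H →L[ℂ] H} (hx : x ∈ GU G) (hy : y ∈ GU G) :
    x * y ∈ GU G := by
  obtain ⟨m, hm⟩ := hx
  obtain ⟨n, hn⟩ := hy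
  exact ⟨max m n, hG.mul _ _ (hG.mono (le_max_left _ _) hm) _ (hG.mono (le_max_right _ _) hn)⟩

theorem gmean_congr (hG : FGr G) {f f' : (H →L[ℂ] H) → H →L[ℂ] H} (h : ∀ x ∈ GU G, f x = f' x) :
    gmean G f = gmean G f' := by
  unfold gmean
  refine wlim_congr (Filter.Eventually.of_forall fun n => ?_)
  rw [Finset.sum_congr rfl fun x hx => h x ⟨n, hx⟩]

theorem gmean_add (hG : FGr G) {f f' : (H →L[ℂ] H) → H →L[ℂ] H} (hf : BddOn G f)
    (hf' : BddOn G f') : gmean G (fun x => f x + f' x) = gmean G f + gmean G f' := by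
  unfold gmean
  rw [← wlim_add (Kz_bdd hG hf) (Kz_bdd hG hf')]
  simp only [Finset.sum_add_distrib, smul_add]

theorem gmean_sub (hG : FGr G) {f f' : (H →L[ℂ] H) → H →L[ℂ] H} (hf : BddOn G f)
    (hf' : BddOn G f') : gmean G (fun x => f x - f' x) = gmean G f - gmean G f' := by
  unfold gmean
  rw [← wlim_sub (Kz_bdd hG hf) (Kz_bdd hG hf')]
  simp only [Finset.sum_sub_distrib, smul_sub]

theorem gmean_const (hG : FGr G) (S : H →L[ℂ] H) : gmean G (fun _ => S) = S := by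
  unfold gmean
  have h1 : (fun n => (((G n).card : ℂ)⁻¹) • ∑ _x ∈ G n, S) = fun _ => S := by
    funext n
    rw [Finset.sum_const, ← Nat.cast_smul_eq_nsmul ℂ, smul_smul, inv_mul_cancel₀ (Kz_card hG n),
      one_smul]
  rw [h1, wlim_const]

theorem gmean_mul (hG : FGr G) {f : (H →L[ℂ] H) → H →L[ℂ] H} (hf : BddOn G f)
    (a b : H →L[ℂ] H) : gmean G (fun x => a * f x * b) = a * gmean G f * b := by
  unfold gmean
  have h1 := Kz_bdd hG hf
  rw [← wlim_mul_left h1, ← wlim_mul_right ((Bdd.const a).mul h1)]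
  congr 1
  funext n
  rw [mul_smul_comm, smul_mul_assoc, Finset.mul_sum, Finset.sum_mul]

theorem gmean_star (hG : FGr G) {f : (H →L[ℂ] H) → H →L[ℂ] H} (hf : BddOn G f) :
    gmean G (fun x => star (f x)) = star (gmean G f) := by
  unfold gmean
  have h1 := Kz_bdd hG hf
  rw [← wlim_star h1]
  congr 1
  funext n
  rw [star_smul, star_sum]
  congr 1
  rw [star_inv₀, Complex.star_def, Complex.conj_natCast]

theorem gmean_mem (hG : FGr G) {f : (H →L[ℂ] H) → H →L[ℂ] H} (hf : BddOn G f)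
    (h : ∀ x ∈ GU G, f x ∈ R) : gmean G f ∈ R := by
  unfold gmean
  refine wlim_mem R (Kz_bdd hG hf) (Filter.Eventually.of_forall fun n => ?_)
  have h1 : ∑ x ∈ G n, f x ∈ R := sum_mem fun x hx => h x ⟨n, hx⟩
  exact R.toStarSubalgebra.toSubalgebra.smul_mem h1 _

theorem norm_gmean_sub_le (hG : FGr G) {f : (H →L[ℂ] H) → H →L[ℂ] H} {S : H →L[ℂ] H} {C : ℝ}
    (h : ∀ x ∈ GU G, ‖f x - S‖ ≤ C) : ‖gmean G f - S‖ ≤ C := by
  have hf : BddOn G f := by
    refine ⟨C + ‖S‖, fun x hx => ?_⟩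
    calc ‖f x‖ = ‖(f x - S) + S‖ := by rw [sub_add_cancel]
      _ ≤ _ := (norm_add_le _ _).trans (add_le_add_left (h x hx) _)
  unfold gmean
  refine norm_wlim_sub_le (Kz_bdd hG hf) (Filter.Eventually.of_forall fun n => ?_)
  have h1 : (((G n).card : ℂ)⁻¹) • ∑ x ∈ G n, f x - S =
      (((G n).card : ℂ)⁻¹) • ∑ x ∈ G n, (f x - S) := by
    rw [Finset.sum_sub_distrib, smul_sub, Finset.sum_const, ← Nat.cast_smul_eq_nsmul ℂ, smul_smul,
      inv_mul_cancel₀ (Kz_card hG n), one_smul]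
  rw [h1]
  exact Kz_norm_le hG h n

/-- right invariance -/
theorem gmean_right (hG : FGr G) {f : (H →L[ℂ] H) → H →L[ℂ] H} (hf : BddOn G f) {g : H →L[ℂ] H}
    (hg : g ∈ GU G) : gmean G (fun x => f (x * g)) = gmean G f := by
  obtain ⟨m, hm⟩ := hg
  unfold gmean
  refine wlim_congr ?_
  have h0 : ∀ᶠ n in UF, m ≤ n := Nat.hyperfilter_le_atTop (eventually_ge_atTop m)
  filter_upwards [h0] with n hn
  have hg := hG.mono hn hm
  congr 1
  refine Finset.sum_bij' (fun x _ => x * g) (fun x _ => x * star g)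
    (fun x hx => hG.mul n x hx g hg) (fun x hx => hG.mul n x hx _ (hG.adj n g hg)) ?_ ?_ ?_
  · intro x hx
    rw [mul_assoc, (hG.unit n g hg).2, mul_one]
  · intro x hx
    rw [mul_assoc, (hG.unit n g hg).1, mul_one]
  · intro x hx
    rfl

/-- left invariance -/
theorem gmean_left (hG : FGr G) {f : (H →L[ℂ] H) → H →L[ℂ] H} (hf : BddOn G f) {g : H →L[ℂ] H}
    (hg : g ∈ GU G) : gmean G (fun x => f (g * x)) = gmean G f := by
  obtain ⟨m, hm⟩ := hg
  unfold gmean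
  refine wlim_congr ?_
  have h0 : ∀ᶠ n in UF, m ≤ n := Nat.hyperfilter_le_atTop (eventually_ge_atTop m)
  filter_upwards [h0] with n hn
  have hg := hG.mono hn hm
  congr 1
  refine Finset.sum_bij' (fun x _ => g * x) (fun x _ => star g * x)
    (fun x hx => hG.mul n g hg x hx) (fun x hx => hG.mul n _ (hG.adj n g hg) x hx) ?_ ?_ ?_
  · intro x hx
    rw [← mul_assoc, (hG.unit n g hg).1, one_mul]
  · intro x hx
    rw [← mul_assoc, (hG.unit n g hg).2, one_mul]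
  · intro x hx
    rfl

end Pool.Agent.KKS

end

section

/-!
# Kz2: one step of the averaging argument
-/


open Filter Topology

namespace Pool.Agent.KKS

variable {H : Type*} [NormedAddCommGroup H] [InnerProductSpace ℂ H] [CompleteSpace H]

variable {G : ℕ → Finset (H →L[ℂ] H)} (R : VonNeumannAlgebra H)

/-- unitary valued maps which are multiplicative up to `d` -/
structure Qr (G : ℕ → Finset (H →L[ℂ] H)) (R : VonNeumannAlgebra H)
    (ρ : (H →L[ℂ] H) → H →L[ℂ] H) (d : ℝ) : Prop where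
  mem : ∀ x ∈ GU G, ρ x ∈ R
  unit : ∀ x ∈ GU G, star (ρ x) * ρ x = 1 ∧ ρ x * star (ρ x) = 1
  near : ∀ x ∈ GU G, ∀ y ∈ GU G, ‖ρ (x * y) - ρ x * ρ y‖ ≤ d

theorem Kz2_norm_le_one {x : H →L[ℂ] H} (h : star x * x = 1) : ‖x‖ ≤ 1 := by
  have h1 : ‖x‖ * ‖x‖ = ‖(1 : H →L[ℂ] H)‖ := by
    rw [← CStarRing.norm_star_mul_self, h]
  have h2 : ‖(1 : H →L[ℂ] H)‖ ≤ 1 := ContinuousLinearMap.norm_id_le
  nlinarith [norm_nonneg x]

theorem Kz2_norm_mul_le {a b : H →L[ℂ] H} {c : ℝ} (ha : ‖a‖ ≤ 1) (hb : ‖b‖ ≤ c) :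
    ‖a * b‖ ≤ c := by
  calc ‖a * b‖ ≤ ‖a‖ * ‖b‖ := norm_mul_le _ _
    _ ≤ 1 * c := by
      apply mul_le_mul ha hb (norm_nonneg _) zero_le_one
    _ = c := one_mul _

theorem Kz2_norm_mul_le' {a b : H →L[ℂ] H} {c : ℝ} (ha : ‖a‖ ≤ c) (hb : ‖b‖ ≤ 1) :
    ‖a * b‖ ≤ c := by
  calc ‖a * b‖ ≤ ‖a‖ * ‖b‖ := norm_mul_le _ _
    _ ≤ c * 1 := by
      apply mul_le_mul ha hb (norm_nonneg _) (le_trans (norm_nonneg _) ha)
    _ = c := mul_one _

theorem Kz2_pj_one : PJ (1 : H →L[ℂ] H) := ⟨one_mul 1, star_one _⟩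

/-- one step: `ρ₁ g = gmean (x ↦ ρ(x)⋆ ρ(x g))`, then the polar part.
`ρ₁(g k) - ρ₁(g) ρ₁(k) = gmean (x ↦ (ρ(x)⋆ρ(xg) - ρ₁ g) (ρ(xg)⋆ρ(xgk) - ρ₁ k))`. -/
theorem Qr.step (hG : FGr G) {ρ : (H →L[ℂ] H) → H →L[ℂ] H} {d : ℝ} (h : Qr G R ρ d)
    (hd : d ≤ 1 / 100) : ∃ ρ' : (H →L[ℂ] H) → H →L[ℂ] H, Qr G R ρ' (d / 2) ∧
      ∀ x ∈ GU G, ‖ρ' x - ρ x‖ ≤ 2 * d := by
  classical
  have h1G : (1 : H →L[ℂ] H) ∈ GU G := ⟨0, hG.one 0⟩
  have hd0 : 0 ≤ d := le_trans (norm_nonneg _) (h.near 1 h1G 1 h1G)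
  have hn1 : ∀ x ∈ GU G, ‖ρ x‖ ≤ 1 := fun x hx => Kz2_norm_le_one (h.unit x hx).1
  have hn1s : ∀ x ∈ GU G, ‖star (ρ x)‖ ≤ 1 := fun x hx => by
    rw [norm_star]; exact hn1 x hx
  set ρ₁ : (H →L[ℂ] H) → H →L[ℂ] H := fun g => gmean G (fun x => star (ρ x) * ρ (x * g)) with hρ₁
  have hb : ∀ g ∈ GU G, ∀ x ∈ GU G, ‖star (ρ x) * ρ (x * g)‖ ≤ 1 := fun g hg x hx =>
    Kz2_norm_mul_le (hn1s x hx) (hn1 _ (hG.GU_mul hx hg))
  have hbd : ∀ g ∈ GU G, BddOn G (fun x => star (ρ x) * ρ (x * g)) := fun g hg =>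
    ⟨1, hb g hg⟩
  have hmem : ∀ g ∈ GU G, ρ₁ g ∈ R := fun g hg =>
    gmean_mem R hG (hbd g hg) fun x hx => mul_mem (star_mem (h.mem x hx))
      (h.mem _ (hG.GU_mul hx hg))
  have hone : ∀ g ∈ GU G, ‖ρ₁ g‖ ≤ 1 := fun g hg => by
    have := norm_gmean_sub_le (S := 0) (C := 1) hG
      (f := fun x => star (ρ x) * ρ (x * g)) (fun x hx => by
        rw [sub_zero]; exact hb g hg x hx)
    rwa [sub_zero] at this
  -- closeness of the integrand to `ρ g`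
  have hc : ∀ g ∈ GU G, ∀ x ∈ GU G, ‖star (ρ x) * ρ (x * g) - ρ g‖ ≤ d := fun g hg x hx => by
    have e1 : star (ρ x) * ρ (x * g) - ρ g = star (ρ x) * (ρ (x * g) - ρ x * ρ g) := by
      rw [mul_sub, ← mul_assoc, (h.unit x hx).1, one_mul]
    rw [e1]
    exact Kz2_norm_mul_le (hn1s x hx) (h.near x hx g hg)
  have hc1 : ∀ g ∈ GU G, ‖ρ₁ g - ρ g‖ ≤ d := fun g hg => norm_gmean_sub_le hG (hc g hg)
  have hc2 : ∀ g ∈ GU G, ∀ x ∈ GU G, ‖star (ρ x) * ρ (x * g) - ρ₁ g‖ ≤ 2 * d :=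
    fun g hg x hx => by
      have e1 : star (ρ x) * ρ (x * g) - ρ₁ g =
        (star (ρ x) * ρ (x * g) - ρ g) - (ρ₁ g - ρ g) := by abel
      rw [e1]
      refine le_trans (norm_sub_le _ _) ?_
      linarith [hc g hg x hx, hc1 g hg]
  -- right translation
  have htr : ∀ g ∈ GU G, ∀ k ∈ GU G,
      gmean G (fun x => star (ρ (x * g)) * ρ (x * g * k)) = ρ₁ k := fun g hg k hk =>
    gmean_right hG (hbd k hk) hg
  have hb2 : ∀ g ∈ GU G, ∀ k ∈ GU G, ∀ x ∈ GU G, ‖star (ρ (x * g)) * ρ (x * g * k)‖ ≤ 1 :=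
    fun g hg k hk x hx => hb k hk _ (hG.GU_mul hx hg)
  -- the quadratic estimate
  have hq : ∀ g ∈ GU G, ∀ k ∈ GU G, ‖ρ₁ (g * k) - ρ₁ g * ρ₁ k‖ ≤ 4 * d ^ 2 :=
    fun g hg k hk => by
    have e1 : gmean G (fun x => (star (ρ x) * ρ (x * g) - ρ₁ g) *
        (star (ρ (x * g)) * ρ (x * g * k) - ρ₁ k)) = ρ₁ (g * k) - ρ₁ g * ρ₁ k := by
      have e2 : gmean G (fun x => (star (ρ x) * ρ (x * g) - ρ₁ g) *
          (star (ρ (x * g)) * ρ (x * g * k) - ρ₁ k)) =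
          gmean G (fun x => ((star (ρ x) * ρ (x * (g * k))) -
            1 * (star (ρ x) * ρ (x * g)) * ρ₁ k) -
            (ρ₁ g * (star (ρ (x * g)) * ρ (x * g * k)) * 1 - ρ₁ g * ρ₁ k)) := by
        apply gmean_congr hG
        intro x hx
        have hu := (h.unit (x * g) (hG.GU_mul hx hg)).2
        have e3 : star (ρ x) * ρ (x * g) * (star (ρ (x * g)) * ρ (x * g * k)) =
            star (ρ x) * ρ (x * (g * k)) := by
          rw [mul_assoc, ← mul_assoc (ρ (x * g)), hu, one_mul, mul_assoc x]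
        rw [sub_mul, mul_sub, mul_sub, e3]
        simp only [one_mul, mul_one]
      have b1 : BddOn G (fun x => star (ρ x) * ρ (x * (g * k))) := hbd _ (hG.GU_mul hg hk)
      have b2 : BddOn G (fun x => 1 * (star (ρ x) * ρ (x * g)) * ρ₁ k) :=
        ⟨1, fun x hx => by
          change ‖1 * (star (ρ x) * ρ (x * g)) * ρ₁ k‖ ≤ 1
          rw [one_mul]
          exact Kz2_norm_mul_le (hb g hg x hx) (hone k hk)⟩
      have b3 : BddOn G (fun x => ρ₁ g * (star (ρ (x * g)) * ρ (x * g * k)) * 1) :=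
        ⟨1, fun x hx => by
          change ‖ρ₁ g * (star (ρ (x * g)) * ρ (x * g * k)) * 1‖ ≤ 1
          rw [mul_one]
          exact Kz2_norm_mul_le (hone g hg) (hb2 g hg k hk x hx)⟩
      have b3' : BddOn G (fun x => star (ρ (x * g)) * ρ (x * g * k)) :=
        ⟨1, fun x hx => hb2 g hg k hk x hx⟩
      have b4 : BddOn G (fun _ => ρ₁ g * ρ₁ k) := ⟨‖ρ₁ g * ρ₁ k‖, fun _ _ => le_rfl⟩
      have b5 : BddOn G (fun x => (star (ρ x) * ρ (x * (g * k))) -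
          1 * (star (ρ x) * ρ (x * g)) * ρ₁ k) := by
        obtain ⟨C1, h1⟩ := b1
        obtain ⟨C2, h2⟩ := b2
        exact ⟨C1 + C2, fun x hx => le_trans (norm_sub_le _ _) (add_le_add (h1 x hx) (h2 x hx))⟩
      have b6 : BddOn G (fun x => ρ₁ g * (star (ρ (x * g)) * ρ (x * g * k)) * 1 -
          ρ₁ g * ρ₁ k) := by
        obtain ⟨C1, h1⟩ := b3
        obtain ⟨C2, h2⟩ := b4
        exact ⟨C1 + C2, fun x hx => le_trans (norm_sub_le _ _) (add_le_add (h1 x hx) (h2 x hx))⟩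
      rw [e2, gmean_sub hG b5 b6, gmean_sub hG b1 b2, gmean_sub hG b3 b4,
        gmean_mul hG (hbd g hg), gmean_mul hG b3', gmean_const hG, htr g hg k hk, one_mul, mul_one]
      change ρ₁ (g * k) - ρ₁ g * ρ₁ k - (ρ₁ g * ρ₁ k - ρ₁ g * ρ₁ k) = _
      abel
    rw [← e1, ← sub_zero (gmean G _)]
    apply norm_gmean_sub_le hG
    intro x hx
    rw [sub_zero]
    calc _ ≤ ‖star (ρ x) * ρ (x * g) - ρ₁ g‖ * ‖star (ρ (x * g)) * ρ (x * g * k) - ρ₁ k‖ :=
          norm_mul_le _ _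
      _ ≤ (2 * d) * (2 * d) := by
          apply mul_le_mul (hc2 g hg x hx) (hc2 k hk _ (hG.GU_mul hx hg)) (norm_nonneg _)
          linarith
      _ = 4 * d ^ 2 := by ring
  -- `ρ₁ (g⁻¹) = ρ₁ g ⋆`
  have hs : ∀ g ∈ GU G, star g ∈ GU G := fun g ⟨n, hn⟩ => ⟨n, hG.adj n g hn⟩
  have hu : ∀ g ∈ GU G, star g * g = 1 ∧ g * star g = 1 := fun g ⟨n, hn⟩ => hG.unit n g hn
  have hst : ∀ g ∈ GU G, star (ρ₁ g) = ρ₁ (star g) := fun g hg => by
    have e1 := gmean_right hG (hbd _ (hs g hg)) hg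
    have e2 : gmean G (fun x => star (ρ (x * g)) * ρ (x * g * star g)) =
        gmean G (fun x => star (star (ρ x) * ρ (x * g))) := by
      apply gmean_congr hG
      intro x _
      rw [mul_assoc x, (hu g hg).2, mul_one, star_mul, star_star]
    rw [e2, gmean_star hG (hbd g hg)] at e1
    exact e1
  have h11 : ρ₁ 1 = 1 := by
    have e1 : gmean G (fun x => star (ρ x) * ρ (x * 1)) = gmean G (fun _ => 1) := by
      apply gmean_congr hG
      intro x hx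
      rw [mul_one, (h.unit x hx).1]
    change gmean G (fun x => star (ρ x) * ρ (x * 1)) = 1
    rw [e1, gmean_const hG]
  have hun : ∀ g ∈ GU G, ‖star (ρ₁ g) * ρ₁ g - 1‖ ≤ 4 * d ^ 2 := fun g hg => by
    have := hq (star g) (hs g hg) g hg
    rw [(hu g hg).1, h11, ← hst g hg] at this
    rwa [← norm_neg, neg_sub]
  -- polar part
  have hpol : ∀ g : H →L[ℂ] H, ∃ w : H →L[ℂ] H, g ∈ GU G → w ∈ R ∧ star w * w = 1 ∧
      w * star w = 1 ∧ ‖w - ρ₁ g‖ ≤ 4 * d ^ 2 := fun g => by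
    by_cases hg : g ∈ GU G
    · obtain ⟨w, hw, h1, h2, -, h4, -⟩ := near_unitary (R := R) (E := 1) (u := ρ g) (T := ρ₁ g)
        Kz2_pj_one (one_mem R) (h.unit g hg).1 (h.unit g hg).2 (hmem g hg) (mul_one _) (one_mul _)
        (ε := d) (by linarith) (hc1 g hg)
      exact ⟨w, fun _ => ⟨hw, h1, h2, h4 _ (hun g hg)⟩⟩
    · exact ⟨0, fun h => absurd h hg⟩
  choose ρ' hρ' using hpol
  refine ⟨ρ', ⟨fun x hx => (hρ' x hx).1, fun x hx => ⟨(hρ' x hx).2.1, (hρ' x hx).2.2.1⟩, ?_⟩, ?_⟩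
  · intro g hg k hk
    have hgk := hG.GU_mul hg hk
    have n1 := (hρ' g hg).2.2.2
    have n2 := (hρ' k hk).2.2.2
    have n3 := (hρ' _ hgk).2.2.2
    have n4 : ‖ρ' g‖ ≤ 1 := Kz2_norm_le_one (hρ' g hg).2.1
    have e1 : ρ' (g * k) - ρ' g * ρ' k = (ρ' (g * k) - ρ₁ (g * k)) +
        (ρ₁ (g * k) - ρ₁ g * ρ₁ k) - (ρ' g - ρ₁ g) * ρ₁ k - ρ' g * (ρ' k - ρ₁ k) := by
      rw [sub_mul, mul_sub]
      abel
    rw [e1]
    have m1 : ‖(ρ' g - ρ₁ g) * ρ₁ k‖ ≤ 4 * d ^ 2 := Kz2_norm_mul_le' n1 (hone k hk)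
    have m2 : ‖ρ' g * (ρ' k - ρ₁ k)‖ ≤ 4 * d ^ 2 := Kz2_norm_mul_le n4 n2
    have m3 := hq g hg k hk
    refine le_trans (norm_sub_le _ _) ?_
    have k1 := norm_sub_le ((ρ' (g * k) - ρ₁ (g * k)) + (ρ₁ (g * k) - ρ₁ g * ρ₁ k))
      ((ρ' g - ρ₁ g) * ρ₁ k)
    have k2 := norm_add_le (ρ' (g * k) - ρ₁ (g * k)) (ρ₁ (g * k) - ρ₁ g * ρ₁ k)
    have k3 : d ^ 2 ≤ d * (1 / 100) := by nlinarith
    linarith
  · intro g hg
    have n1 := (hρ' g hg).2.2.2
    have n2 := hc1 g hg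
    have e1 : ρ' g - ρ g = (ρ' g - ρ₁ g) + (ρ₁ g - ρ g) := by abel
    rw [e1]
    refine le_trans (norm_add_le _ _) ?_
    have k3 : d ^ 2 ≤ d * (1 / 100) := by nlinarith
    linarith

end Pool.Agent.KKS

end

section

/-!
# Kz3: limit of the averaging argument
-/


open Filter Topology

namespace Pool.Agent.KKS

variable {H : Type*} [NormedAddCommGroup H] [InnerProductSpace ℂ H] [CompleteSpace H]

variable {G : ℕ → Finset (H →L[ℂ] H)} (R : VonNeumannAlgebra H)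

/-- von Neumann algebras are norm closed -/
private theorem Kz3_mem_of_tendsto {T : ℕ → H →L[ℂ] H} {S : H →L[ℂ] H} (h : ∀ n, T n ∈ R)
    (hb : ∀ n, ‖T n‖ ≤ 1) (hT : Tendsto T atTop (𝓝 S)) : S ∈ R := by
  have h1 : wlim T = S := wlim_of_tendsto (hT.mono_left Nat.hyperfilter_le_atTop)
  rw [← h1]
  exact wlim_mem R ⟨1, hb⟩ (Eventually.of_forall h)

/-- the limit: a homomorphism near `ρ` -/
theorem Qr.hom (hG : FGr G) {ρ : (H →L[ℂ] H) → H →L[ℂ] H} {d : ℝ} (h : Qr G R ρ d)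
    (hd : d ≤ 1 / 100) : ∃ π : (H →L[ℂ] H) → H →L[ℂ] H, Qr G R π 0 ∧
      ∀ x ∈ GU G, ‖π x - ρ x‖ ≤ 4 * d := by
  classical
  have h1G : (1 : H →L[ℂ] H) ∈ GU G := ⟨0, hG.one 0⟩
  have hd0 : 0 ≤ d := le_trans (norm_nonneg _) (h.near 1 h1G 1 h1G)
  have hpow : ∀ n : ℕ, d / 2 ^ n ≤ 1 / 100 := fun n => by
    refine le_trans ?_ hd
    exact div_le_self hd0 (one_le_pow₀ (by norm_num))
  -- one step
  have hstep : ∀ (n : ℕ) (σ : (H →L[ℂ] H) → H →L[ℂ] H), ∃ σ' : (H →L[ℂ] H) → H →L[ℂ] H,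
      Qr G R σ (d / 2 ^ n) → Qr G R σ' (d / 2 ^ (n + 1)) ∧
        ∀ x ∈ GU G, ‖σ' x - σ x‖ ≤ 2 * (d / 2 ^ n) := fun n σ => by
    by_cases hq : Qr G R σ (d / 2 ^ n)
    · obtain ⟨σ', h1, h2⟩ := Qr.step R hG hq (hpow n)
      refine ⟨σ', fun _ => ⟨?_, h2⟩⟩
      rwa [pow_succ, ← div_div]
    · exact ⟨σ, fun h => absurd h hq⟩
  choose F hF using hstep
  let σ : ℕ → (H →L[ℂ] H) → H →L[ℂ] H := fun n => Nat.rec ρ (fun n s => F n s) n
  have hσ0 : σ 0 = ρ := rfl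
  have hσs : ∀ n, σ (n + 1) = F n (σ n) := fun n => rfl
  have hQ : ∀ n, Qr G R (σ n) (d / 2 ^ n) := fun n => by
    induction n with
    | zero => simpa [hσ0] using h
    | succ n ih => rw [hσs]; exact (hF n (σ n) ih).1
  have hstep' : ∀ n, ∀ x ∈ GU G, ‖σ (n + 1) x - σ n x‖ ≤ 2 * (d / 2 ^ n) := fun n x hx => by
    rw [hσs]; exact (hF n (σ n) (hQ n)).2 x hx
  have hdist : ∀ n, ∀ x ∈ GU G, dist (σ n x) (σ (n + 1) x) ≤ 4 * d / 2 / 2 ^ n := fun n x hx => by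
    rw [dist_comm, dist_eq_norm]
    refine le_trans (hstep' n x hx) (le_of_eq ?_)
    ring
  have hlim : ∀ x : H →L[ℂ] H, ∃ y : H →L[ℂ] H, x ∈ GU G → Tendsto (fun n => σ n x) atTop (𝓝 y) :=
    fun x => by
    by_cases hx : x ∈ GU G
    · have hc : CauchySeq (fun n => σ n x) := cauchySeq_of_le_geometric_two (hdist · x hx)
      obtain ⟨y, hy⟩ := cauchySeq_tendsto_of_complete hc
      exact ⟨y, fun _ => hy⟩
    · exact ⟨0, fun h => absurd h hx⟩
  choose π hπ using hlim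
  have hnorm : ∀ n, ∀ x ∈ GU G, ‖σ n x‖ ≤ 1 := fun n x hx =>
    Kz2_norm_le_one ((hQ n).unit x hx).1
  refine ⟨π, ⟨?_, ?_, ?_⟩, ?_⟩
  · intro x hx
    exact Kz3_mem_of_tendsto R (fun n => (hQ n).mem x hx) (fun n => hnorm n x hx) (hπ x hx)
  · intro x hx
    have hs : Tendsto (fun n => star (σ n x)) atTop (𝓝 (star (π x))) :=
      (continuous_star.tendsto _).comp (hπ x hx)
    constructor
    · have h1 := hs.mul (hπ x hx)
      have h2 : (fun n => star (σ n x) * σ n x) = fun _ => 1 :=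
        funext fun n => ((hQ n).unit x hx).1
      rw [h2] at h1
      exact tendsto_nhds_unique h1 tendsto_const_nhds
    · have h1 := (hπ x hx).mul hs
      have h2 : (fun n => σ n x * star (σ n x)) = fun _ => 1 :=
        funext fun n => ((hQ n).unit x hx).2
      rw [h2] at h1
      exact tendsto_nhds_unique h1 tendsto_const_nhds
  · intro x hx y hy
    have h1 : Tendsto (fun n => ‖σ n (x * y) - σ n x * σ n y‖) atTop
        (𝓝 ‖π (x * y) - π x * π y‖) :=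
      ((hπ _ (hG.GU_mul hx hy)).sub ((hπ x hx).mul (hπ y hy))).norm
    have h2 : Tendsto (fun n : ℕ => d / 2 ^ n) atTop (𝓝 0) := by
      have := (tendsto_pow_atTop_nhds_zero_of_lt_one (r := (1 / 2 : ℝ)) (by norm_num)
        (by norm_num)).const_mul d
      rw [mul_zero] at this
      refine this.congr fun n => ?_
      rw [one_div, inv_pow, div_eq_mul_inv]
    exact le_of_tendsto_of_tendsto' h1 h2 fun n => (hQ n).near x hx y hy
  · intro x hx
    have h1 := dist_le_of_le_geometric_two_of_tendsto₀ (f := fun n => σ n x) (C := 4 * d)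
      (hdist · x hx) (hπ x hx)
    rw [← dist_eq_norm, dist_comm]
    exact h1

end Pool.Agent.KKS

end

section

/-!
# Kz4: conjugation into the algebra
-/


open Filter Topology

namespace Pool.Agent.KKS

variable {H : Type*} [NormedAddCommGroup H] [InnerProductSpace ℂ H] [CompleteSpace H]

variable {G : ℕ → Finset (H →L[ℂ] H)} (R : VonNeumannAlgebra H)

/-- conclusion: `W = gmean (x ↦ π(x) x⋆)`, `U = W |W|⁻¹` -/
theorem kazhdan (hG : FGr G) {ε : ℝ} (hε : ε ≤ 1 / 1000)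
    (hnear : ∀ x ∈ GU G, ∃ y ∈ R, star y * y = 1 ∧ y * star y = 1 ∧ ‖x - y‖ ≤ ε) :
    ∃ U : H →L[ℂ] H, star U * U = 1 ∧ U * star U = 1 ∧ ‖U - 1‖ ≤ 100 * ε ∧
      ∀ x ∈ GU G, U * x * star U ∈ R := by
  classical
  have h1G : (1 : H →L[ℂ] H) ∈ GU G := ⟨0, hG.one 0⟩
  have hε0 : 0 ≤ ε := by
    obtain ⟨y, -, -, -, hy⟩ := hnear 1 h1G
    exact le_trans (norm_nonneg _) hy
  have hs : ∀ g ∈ GU G, star g ∈ GU G := fun g ⟨n, hn⟩ => ⟨n, hG.adj n g hn⟩
  have hu : ∀ g ∈ GU G, star g * g = 1 ∧ g * star g = 1 := fun g ⟨n, hn⟩ => hG.unit n g hn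
  have hgn : ∀ g ∈ GU G, ‖g‖ ≤ 1 := fun g hg => Kz2_norm_le_one (hu g hg).1
  -- the map `ρ`
  have hρ' : ∀ x : H →L[ℂ] H, ∃ y : H →L[ℂ] H, x ∈ GU G → y ∈ R ∧ star y * y = 1 ∧
      y * star y = 1 ∧ ‖x - y‖ ≤ ε := fun x => by
    by_cases hx : x ∈ GU G
    · obtain ⟨y, h1, h2⟩ := hnear x hx
      exact ⟨y, fun _ => ⟨h1, h2⟩⟩
    · exact ⟨0, fun h => absurd h hx⟩
  choose ρ hρ using hρ'
  have hQ : Qr G R ρ (3 * ε) := by
    refine ⟨fun x hx => (hρ x hx).1, fun x hx => ⟨(hρ x hx).2.1, (hρ x hx).2.2.1⟩, ?_⟩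
    intro x hx y hy
    have hxy := hG.GU_mul hx hy
    have e1 : ρ (x * y) - ρ x * ρ y = -(x * y - ρ (x * y)) + (x - ρ x) * y +
        ρ x * (y - ρ y) := by
      rw [sub_mul, mul_sub]; abel
    rw [e1]
    have n1 : ‖-(x * y - ρ (x * y))‖ ≤ ε := by rw [norm_neg]; exact (hρ _ hxy).2.2.2
    have n2 : ‖(x - ρ x) * y‖ ≤ ε := Kz2_norm_mul_le' (hρ x hx).2.2.2 (hgn y hy)
    have n3 : ‖ρ x * (y - ρ y)‖ ≤ ε :=
      Kz2_norm_mul_le (Kz2_norm_le_one (hρ x hx).2.1) (hρ y hy).2.2.2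
    refine le_trans (norm_add_le _ _) ?_
    have := norm_add_le (-(x * y - ρ (x * y))) ((x - ρ x) * y)
    linarith
  obtain ⟨π, hπ, hπρ⟩ := Qr.hom R hG hQ (by linarith)
  have hπmul : ∀ x ∈ GU G, ∀ y ∈ GU G, π (x * y) = π x * π y := fun x hx y hy => by
    have := norm_le_zero_iff.mp (hπ.near x hx y hy)
    exact sub_eq_zero.mp this
  have hπn : ∀ x ∈ GU G, ‖π x‖ ≤ 1 := fun x hx => Kz2_norm_le_one (hπ.unit x hx).1
  have hπx : ∀ x ∈ GU G, ‖π x - x‖ ≤ 13 * ε := fun x hx => by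
    have e1 : π x - x = (π x - ρ x) - (x - ρ x) := by abel
    rw [e1]
    refine le_trans (norm_sub_le _ _) ?_
    linarith [hπρ x hx, (hρ x hx).2.2.2]
  -- the intertwiner
  set W : H →L[ℂ] H := gmean G (fun x => π x * star x) with hW
  have hbd : BddOn G (fun x => π x * star x) := ⟨1, fun x hx =>
    Kz2_norm_mul_le (hπn x hx) (by rw [norm_star]; exact hgn x hx)⟩
  have hW1 : ‖W - 1‖ ≤ 13 * ε := norm_gmean_sub_le hG (fun x hx => by
    have e1 : π x * star x - 1 = (π x - x) * star x := by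
      rw [sub_mul, (hu x hx).2]
    rw [e1]
    exact Kz2_norm_mul_le' (hπx x hx) (by rw [norm_star]; exact hgn x hx))
  have hint : ∀ g ∈ GU G, π g * W = W * g := fun g hg => by
    have e1 := gmean_left hG hbd hg
    have e2 : gmean G (fun x => π (g * x) * star (g * x)) =
        gmean G (fun x => π g * (π x * star x) * star g) := by
      apply gmean_congr hG
      intro x hx
      rw [hπmul g hg x hx, star_mul]
      simp only [mul_assoc]
    rw [e2, gmean_mul hG hbd] at e1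
    calc π g * W = π g * W * (star g * g) := by rw [(hu g hg).1, mul_one]
      _ = (π g * W * star g) * g := by simp only [mul_assoc]
      _ = W * g := by rw [e1]
  have hWsW : ∀ g ∈ GU G, star W * W * g = g * (star W * W) := fun g hg => by
    have a1 : star W * π g = g * star W := by
      have h1 := hint (star g) (hs g hg)
      have h2 := congrArg star h1
      rw [star_mul, star_mul, star_star] at h2
      have h3 : star (π (star g)) = π g := by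
        have h4 : π g * π (star g) = 1 := by
          rw [← hπmul g hg _ (hs g hg), (hu g hg).2]
          have h5 : π 1 * π 1 = π 1 := by rw [← hπmul 1 h1G 1 h1G, mul_one]
          calc π 1 = (star (π 1) * π 1) * π 1 := by rw [(hπ.unit 1 h1G).1, one_mul]
            _ = star (π 1) * (π 1 * π 1) := by rw [mul_assoc]
            _ = 1 := by rw [h5, (hπ.unit 1 h1G).1]
        calc star (π (star g)) = (π g * π (star g)) * star (π (star g)) := by rw [h4, one_mul]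
          _ = π g * (π (star g) * star (π (star g))) := by rw [mul_assoc]
          _ = π g := by rw [(hπ.unit _ (hs g hg)).2, mul_one]
      rw [h3] at h2
      exact h2
    rw [mul_assoc, ← hint g hg, ← mul_assoc, a1, mul_assoc]
  obtain ⟨U, -, hU1, hU2, hU3, -, h, hUh, hhS⟩ := near_unitary (R := topVN) (E := 1) (u := 1)
    (T := W) Kz2_pj_one (mem_topVN _) (by rw [star_one, one_mul]) (by rw [star_one, one_mul])
    (mem_topVN _) (mul_one _) (one_mul _) (ε := 13 * ε) (by linarith) hW1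
  have hGs : ∀ x ∈ GU G, star x ∈ GU G := hs
  have hhc : ∀ g ∈ GU G, h * g = g * h := by
    have h1 : h ∈ cVN (GU G) hGs := hhS _
      (mem_cVN.mpr fun g hg => hWsW g hg) (one_mem _)
    exact mem_cVN.mp h1
  refine ⟨U, hU1, hU2, ?_, ?_⟩
  · refine le_trans hU3 ?_
    linarith
  · intro x hx
    have e1 : U * x = π x * U := by
      rw [hUh, mul_assoc, hhc x hx, ← mul_assoc, ← hint x hx, mul_assoc]
    rw [e1, mul_assoc, hU2, mul_one]
    exact hπ.mem x hx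

end Pool.Agent.KKS

end
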