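import Pool.Agent.Lib.MP_5c1ef7_an.P02

/-!
# P07: density in 2-norm, closing the graph of an isomorphism
-/

set_option autoImplicit false
set_option linter.unusedSectionVars false

section

/-!
# Clamp: cutting off a self-adjoint operator
-/


open Filter Topology

namespace Pool.Agent.KKS

variable {H : Type*} [NormedAddCommGroup H] [InnerProductSpace ℂ H] [CompleteSpace H]
variable {R : VonNeumannAlgebra H} {τ : (H →L[ℂ] H) → ℂ}

/-- the functional calculus stays in the algebra (if `z` is not self-adjoint or `f` not continuous then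
`cfc f z = 0`) -/
theorem cfc_mem_vn {z : H →L[ℂ] H} (hz : z ∈ R) (f : ℝ → ℝ) : cfc f z ∈ R := by
  refine mem_of_comm fun S hS => ?_
  have h1 : Commute z S := (hS z hz).symm
  exact (h1.cfc_real f).symm

/-- the cut off of a self-adjoint operator at `-1` and `1` -/
noncomputable def clamp (z : H →L[ℂ] H) : H →L[ℂ] H := cfc (fun t : ℝ => max (-1) (min t 1)) z

theorem clamp_mem {z : H →L[ℂ] H} (hz : z ∈ R) : clamp z ∈ R := cfc_mem_vn hz _

theorem clamp_sa {z : H →L[ℂ] H} : star (clamp z) = clamp z :=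
  (IsSelfAdjoint.cfc : IsSelfAdjoint (cfc (fun t : ℝ => max (-1) (min t 1)) z))

theorem clamp_norm {z : H →L[ℂ] H} : ‖clamp z‖ ≤ 1 := by
  refine norm_cfc_le zero_le_one fun x _ => ?_
  rw [Real.norm_eq_abs, abs_le]
  constructor
  · exact le_max_left _ _
  · exact max_le (by norm_num) (min_le_right _ _)

private theorem Clamp_clamp_aux (h : IsTrace R τ) {w z : H →L[ℂ] H} (hw : w ∈ R) (hz : z ∈ R)
    (hws : star w = w) (hzs : star z = z) (hw1 : ‖w‖ ≤ 1) {d : ℝ} (hd : 0 ≤ d) (s : ℝ)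
    (hs : s = 1 ∨ s = -1) (g : ℝ → ℝ) (hg : Continuous g) (hg0 : ∀ t, 0 ≤ g t)
    (hgs : ∀ t, s * t * g t = g t + g t ^ 2)
    (hk : ‖τ ((z - w) * cfc g z)‖ ≤ d * n2 τ (cfc g z)) :
    n2 τ (cfc g z) ≤ d := by
  have hz' : IsSelfAdjoint z := hzs
  have hkm : cfc g z ∈ R := cfc_mem_vn hz g
  have hks : star (cfc g z) = cfc g z := (IsSelfAdjoint.cfc : IsSelfAdjoint (cfc g z))
  set k := cfc g z with hkdef
  -- the square root of `k`
  set r := cfc (fun t => √(g t)) z with hrdef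
  have hrm : r ∈ R := cfc_mem_vn hz _
  have hrs : star r = r := (IsSelfAdjoint.cfc : IsSelfAdjoint (cfc (fun t => √(g t)) z))
  have hrc : Continuous fun t => √(g t) := by fun_prop
  have hrk : r * r = k := by
    rw [hrdef, ← cfc_mul _ _ z hrc.continuousOn hrc.continuousOn]
    rw [hkdef]
    refine cfc_congr fun t _ => ?_
    exact Real.mul_self_sqrt (hg0 t)
  -- `s z k = k + k²`
  have hzk : s • (z * k) = k + k * k := by
    have e1 : z * k = cfc (fun t => t * g t) z := by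
      rw [cfc_mul (fun t : ℝ => t) g z continuousOn_id hg.continuousOn, cfc_id' ℝ z]
    have e2 : k * k = cfc (fun t => g t * g t) z := by
      rw [cfc_mul g g z hg.continuousOn hg.continuousOn]
    rw [e1, e2, ← cfc_smul s (fun t => t * g t) z (by fun_prop), hkdef,
      ← cfc_add z g (fun t => g t * g t) (by fun_prop) (by fun_prop)]
    refine cfc_congr fun t _ => ?_
    have := hgs t
    simp only [smul_eq_mul]
    nlinarith
  -- positivity of `1 - s w`
  have hwp : 0 ≤ 1 - s • w := by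
    have h1 : IsSelfAdjoint (s • w) := by
      have : star (s • w) = s • w := by rw [star_smul, hws]; rfl
      exact this
    have h2 := h1.le_algebraMap_norm_self
    have h3 : ‖s • w‖ ≤ 1 := by
      rw [norm_smul, Real.norm_eq_abs]
      rcases hs with rfl | rfl
      · simpa using hw1
      · simpa using hw1
    have h4 : algebraMap ℝ (H →L[ℂ] H) ‖s • w‖ ≤ 1 := by
      have h5 : algebraMap ℝ (H →L[ℂ] H) ‖s • w‖ ≤ algebraMap ℝ (H →L[ℂ] H) 1 :=
        algebraMap_mono _ h3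
      rwa [map_one] at h5
    exact sub_nonneg.mpr (h2.trans h4)
  -- trace of `(1 - s w) k`
  have hsw : s • w ∈ R := by
    have : s • w = (s : ℂ) • w := (Complex.coe_smul s w).symm
    rw [this]
    exact R.toStarSubalgebra.toSubalgebra.smul_mem hw (s : ℂ)
  have h1 : 0 ≤ (τ ((1 - s • w) * k)).re := by
    have e1 : τ ((1 - s • w) * k) = τ (star r * (1 - s • w) * r) := by
      rw [← hrk, ← mul_assoc, h.tracial _ (mul_mem (sub_mem (one_mem R) hsw) hrm) _ hrm, hrs,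
        mul_assoc]
    rw [e1]
    exact (h.nonneg (mul_mem (mul_mem (star_mem hrm) (sub_mem (one_mem R) hsw)) hrm)
      (star_left_conjugate_nonneg hwp r)).1
  -- combine
  have hzw : z - w ∈ R := sub_mem hz hw
  have e3 : (s : ℂ) • ((z - w) * k) = k * star k + (1 - s • w) * k := by
    have e4 : (s : ℂ) • ((z - w) * k) = s • (z * k) - (s • w) * k := by
      rw [Complex.coe_smul, sub_mul, smul_sub, smul_mul_assoc]
    rw [e4, hzk, hks, sub_mul, one_mul]
    abel
  have e5 : (s : ℂ) * τ ((z - w) * k) = τ (k * star k) + τ ((1 - s • w) * k) := by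
    rw [← h.smul _ (mul_mem hzw hkm), e3,
      h.add (mul_mem hkm (star_mem hkm)) (mul_mem (sub_mem (one_mem R) hsw) hkm)]
  have h2 : n2 τ k ^ 2 ≤ ‖τ ((z - w) * k)‖ := by
    have h3 : ‖(s : ℂ) * τ ((z - w) * k)‖ = ‖τ ((z - w) * k)‖ := by
      rw [norm_mul, Complex.norm_real, Real.norm_eq_abs]
      rcases hs with rfl | rfl <;> simp
    rw [← h3, e5]
    have h4 := Complex.re_le_norm (τ (k * star k) + τ ((1 - s • w) * k))
    have h6 : (τ (k * star k)).re = n2 τ k ^ 2 := by rw [h.n2_sq hkm, Complex.ofReal_re]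
    rw [Complex.add_re, h6] at h4
    linarith
  have h3 : n2 τ k ^ 2 ≤ d * n2 τ k := h2.trans hk
  rcases eq_or_lt_of_le (n2_nonneg (τ := τ) k) with h4 | h4
  · rw [← h4]; exact hd
  · nlinarith

/-- (10.5) general form: if `z` is almost orthogonal ... to the positive parts of itself then it is near its clamp.
`k = (z - 1)⁺`, `z k = k + k²`, `τ (w k) ≤ τ k`, so `τ (k²) ≤ τ ((z - w) k) ≤ d ‖k‖₂`, hence `‖k‖₂ ≤ d`; the same for
`k' = (- z - 1)⁺`, and `z - clamp z = k - k'`. -/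
theorem clamp_dist' (h : IsTrace R τ) {w z : H →L[ℂ] H} (hw : w ∈ R) (hz : z ∈ R)
    (hws : star w = w) (hzs : star z = z) (hw1 : ‖w‖ ≤ 1) {d : ℝ} (hd : 0 ≤ d)
    (hk : ∀ f : ℝ → ℝ, Continuous f → ‖τ ((z - w) * cfc f z)‖ ≤ d * n2 τ (cfc f z)) :
    n2 τ (z - clamp z) ≤ 2 * d := by
  have hz' : IsSelfAdjoint z := hzs
  have c1 : Continuous fun t : ℝ => max (t - 1) 0 := by fun_prop
  have c2 : Continuous fun t : ℝ => max (-t - 1) 0 := by fun_prop
  have h1 := Clamp_clamp_aux h hw hz hws hzs hw1 hd 1 (Or.inl rfl) (fun t => max (t - 1) 0) c1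
    (fun t => le_max_right _ _) (fun t => by
      rcases le_total (t - 1) 0 with h0 | h0
      · rw [max_eq_right h0]; ring
      · rw [max_eq_left h0]; ring) (hk _ c1)
  have h2 := Clamp_clamp_aux h hw hz hws hzs hw1 hd (-1) (Or.inr rfl) (fun t => max (-t - 1) 0) c2
    (fun t => le_max_right _ _) (fun t => by
      rcases le_total (-t - 1) 0 with h0 | h0
      · rw [max_eq_right h0]; ring
      · rw [max_eq_left h0]; ring) (hk _ c2)
  set k := cfc (fun t : ℝ => max (t - 1) 0) z with hkd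
  set k' := cfc (fun t : ℝ => max (-t - 1) 0) z with hkd'
  have hkm : k ∈ R := cfc_mem_vn hz _
  have hkm' : k' ∈ R := cfc_mem_vn hz _
  have e1 : z - clamp z = k - k' := by
    have e2 : z - clamp z = cfc (fun t : ℝ => t - max (-1) (min t 1)) z := by
      rw [clamp, cfc_sub (fun t : ℝ => t) (fun t : ℝ => max (-1) (min t 1)) z continuousOn_id
        (by fun_prop), cfc_id' ℝ z]
    rw [e2, hkd, hkd', ← cfc_sub _ _ z c1.continuousOn c2.continuousOn]
    refine cfc_congr fun t _ => ?_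
    rcases le_total t 1 with h3 | h3
    · rw [min_eq_left h3, max_eq_right (show t - 1 ≤ 0 by linarith)]
      rcases le_total (-1) t with h4 | h4
      · rw [max_eq_right h4, max_eq_right (show -t - 1 ≤ 0 by linarith)]; ring
      · rw [max_eq_left h4, max_eq_left (show 0 ≤ -t - 1 by linarith)]; ring
    · rw [min_eq_right h3, max_eq_left (show 0 ≤ t - 1 by linarith),
        max_eq_right (show (-1 : ℝ) ≤ 1 by norm_num),
        max_eq_right (show -t - 1 ≤ 0 by linarith)]; ring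
  rw [e1]
  have h3 := h.n2_add_le hkm (neg_mem hkm')
  have h4 : n2 τ (-k') = n2 τ k' := by
    unfold n2
    rw [star_neg, neg_mul_neg]
  rw [h4, ← sub_eq_add_neg] at h3
  linarith

/-- (10.5) -/
theorem clamp_dist (h : IsTrace R τ) {w z : H →L[ℂ] H} (hw : w ∈ R) (hz : z ∈ R)
    (hws : star w = w) (hzs : star z = z) (hw1 : ‖w‖ ≤ 1) :
    n2 τ (z - clamp z) ≤ 2 * n2 τ (z - w) := by
  refine clamp_dist' h hw hz hws hzs hw1 (n2_nonneg _) fun f _ => ?_
  have h1 := h.cs (sub_mem hz hw) (cfc_mem_vn hz f)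
  have h2 : star (cfc f z) = cfc f z := (IsSelfAdjoint.cfc : IsSelfAdjoint (cfc f z))
  rwa [h2] at h1

/-- Kadison-Schwarz type lower semicontinuity of the 2-norm -/
theorem n2_wlim_le (h : IsTrace R τ) {T : ℕ → H →L[ℂ] H} (hT : Bdd T) (hm : ∀ n, T n ∈ R)
    {S : H →L[ℂ] H} (hS : S ∈ R) {C : ℝ} (hC : ∀ᶠ n in UF, n2 τ (T n - S) ≤ C) :
    n2 τ (wlim T - S) ≤ C := by
  have hC0 : 0 ≤ C := by
    obtain ⟨n, hn⟩ := hC.exists
    exact (n2_nonneg _).trans hn
  have hU : Bdd fun n => T n - S := hT.sub (Bdd.const S)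
  have hUm : ∀ n, T n - S ∈ R := fun n => sub_mem (hm n) hS
  have hUU : Bdd fun n => (T n - S) * star (T n - S) := hU.mul hU.adj
  have e1 : wlim T - S = wlim fun n => T n - S := by
    rw [wlim_sub hT (Bdd.const S), wlim_const]
  rw [e1]
  have hwm : (wlim fun n => T n - S) ∈ R := wlim_mem R hU (Eventually.of_forall hUm)
  have hUUm : ∀ n, (T n - S) * star (T n - S) ∈ R := fun n => mul_mem (hUm n) (star_mem (hUm n))
  have hwm2 : (wlim fun n => (T n - S) * star (T n - S)) ∈ R :=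
    wlim_mem R hUU (Eventually.of_forall hUUm)
  have h1 := h.mono (mul_mem hwm (star_mem hwm)) hwm2 (wlim_mul_star_le hU)
  have h2 := h.lim hUU hUUm
  have h3 := (Complex.continuous_re.tendsto _).comp h2
  have h4 : (τ (wlim fun n => (T n - S) * star (T n - S))).re ≤ C ^ 2 := by
    refine le_of_tendsto h3 ?_
    filter_upwards [hC] with n hn
    show (τ ((T n - S) * star (T n - S))).re ≤ C ^ 2
    rw [h.n2_sq (hUm n), Complex.ofReal_re]
    exact pow_le_pow_left₀ (n2_nonneg _) hn 2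
  unfold n2
  rw [Real.sqrt_le_left hC0]
  exact h1.trans h4

end Pool.Agent.KKS

end

section

/-!
# Dens: von Neumann density in 2-norm
-/


open Filter Topology

namespace Pool.Agent.KKS

variable {H : Type*} [NormedAddCommGroup H] [InnerProductSpace ℂ H] [CompleteSpace H]
variable {R : VonNeumannAlgebra H} {τ : (H →L[ℂ] H) → ℂ}

open scoped ENNReal

/-- `T ⊗ 1` on `ℓ²(ℕ, H)` -/
private noncomputable def Dens_dg (T : H →L[ℂ] H) :
    lp (fun _ : ℕ => H) 2 →L[ℂ] lp (fun _ : ℕ => H) 2 :=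
  lp.mapCLM 2 (fun _ => T) (norm_nonneg T) (fun _ => le_rfl)

private theorem Dens_dg_apply (T : H →L[ℂ] H) (f : lp (fun _ : ℕ => H) 2) (i : ℕ) :
    (Dens_dg T f : ℕ → H) i = T (f i) := rfl

private theorem Dens_dg_mul (S T : H →L[ℂ] H) (f : lp (fun _ : ℕ => H) 2) :
    Dens_dg (S * T) f = Dens_dg S (Dens_dg T f) := by
  ext i
  rfl

private theorem Dens_dg_single (T : H →L[ℂ] H) (i : ℕ) (ξ : H) :
    Dens_dg T (lp.single 2 i ξ) = lp.single 2 i (T ξ) := by
  refine lp.ext (funext fun j => ?_)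
  change T ((Pi.single i ξ : ℕ → H) j) = (Pi.single i (T ξ) : ℕ → H) j
  by_cases hij : j = i
  · subst hij
    rw [Pi.single_eq_same, Pi.single_eq_same]
  · rw [Pi.single_eq_of_ne hij, Pi.single_eq_of_ne hij, map_zero]

private theorem Dens_dg_inner (T : H →L[ℂ] H) (f g : lp (fun _ : ℕ => H) 2) :
    inner ℂ (Dens_dg T f) g = inner ℂ f (Dens_dg (star T) g) := by
  rw [lp.inner_eq_tsum, lp.inner_eq_tsum]
  congr 1
  funext i
  rw [Dens_dg_apply, Dens_dg_apply, ContinuousLinearMap.star_eq_adjoint,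
    ContinuousLinearMap.adjoint_inner_right]

/-- (10.4) a star subalgebra `S` of `R` with the same commutant is dense in 2-norm.
`τ = ∑ ⟪ξ i, · ξ i⟫`; `V` the closure of `{(s ξ i)_i : s ∈ S}` in `ℓ²(ℕ, H)`, `P` the projection onto `V`.  The
matrix entries of `P` commute with `S`, so with `R`; `(ξ i) ∈ V`, so `(y ξ i) = y P (ξ i) = P (y ξ i) ∈ V` for
`y ∈ R`.  (`‖(s ξ i)‖² = τ (s⋆ s) = (n2 τ s)²`.) -/
theorem dens (h : IsTrace R τ) (S : Submodule ℂ (H →L[ℂ] H)) (h1 : (1 : H →L[ℂ] H) ∈ S)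
    (hm : ∀ s ∈ S, ∀ t ∈ S, s * t ∈ S) (hs : ∀ s ∈ S, star s ∈ S) (hR : ∀ s ∈ S, s ∈ R)
    (hgen : ∀ T : H →L[ℂ] H, (∀ s ∈ S, T * s = s * T) → ∀ x ∈ R, T * x = x * T)
    {y : H →L[ℂ] H} (hy : y ∈ R) {ε : ℝ} (hε : 0 < ε) : ∃ s ∈ S, n2 τ (y - s) < ε := by
  obtain ⟨ξ, hξ, hτ⟩ := h.normal
  have h2 : (2 : ℝ≥0∞).toReal = 2 := by norm_num
  have hmem : Memℓp (fun i => ξ i) 2 := by
    refine memℓp_gen ?_
    rw [h2]
    simpa using hξ
  obtain ⟨Ξ, hΞ⟩ : ∃ Ξ : lp (fun _ : ℕ => H) 2, ∀ i, (Ξ : ℕ → H) i = ξ i :=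
    ⟨⟨fun i => ξ i, hmem⟩, fun _ => rfl⟩
  -- the norm
  have hnorm : ∀ x ∈ R, ‖Dens_dg x Ξ‖ = n2 τ x := by
    intro x hx
    have h3 : τ (x * star x) = ((‖Dens_dg x Ξ‖ ^ 2 : ℝ) : ℂ) := by
      rw [h.tracial _ hx _ (star_mem hx), hτ _ (mul_mem (star_mem hx) hx)]
      have h4 : inner ℂ (Dens_dg x Ξ) (Dens_dg x Ξ) = ((‖Dens_dg x Ξ‖ ^ 2 : ℝ) : ℂ) := by
        rw [inner_self_eq_norm_sq_to_K]
        push_cast
        rfl
      rw [← h4, lp.inner_eq_tsum]
      congr 1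
      funext i
      rw [Dens_dg_apply, hΞ]
      have h5 : (star x * x) (ξ i) = star x (x (ξ i)) := rfl
      rw [h5, ContinuousLinearMap.star_eq_adjoint, ContinuousLinearMap.adjoint_inner_right]
    unfold n2
    rw [h3, Complex.ofReal_re, Real.sqrt_sq (norm_nonneg _)]
  -- the subspace
  let Λ : (H →L[ℂ] H) →ₗ[ℂ] lp (fun _ : ℕ => H) 2 :=
    { toFun := fun T => Dens_dg T Ξ
      map_add' := fun S T => by
        refine lp.ext (funext fun i => ?_)
        rfl
      map_smul' := fun c T => by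
        refine lp.ext (funext fun i => ?_)
        rfl }
  have hΛ : ∀ T, Λ T = Dens_dg T Ξ := fun _ => rfl
  obtain ⟨V, hV⟩ : ∃ V, V = (S.map Λ).topologicalClosure := ⟨_, rfl⟩
  have hVc : IsClosed (V : Set (lp (fun _ : ℕ => H) 2)) := by
    rw [hV]
    exact Submodule.isClosed_topologicalClosure _
  have : CompleteSpace V := hVc.completeSpace_coe
  have hVcl : (V : Set (lp (fun _ : ℕ => H) 2)) = closure (S.map Λ : Set _) := by
    rw [hV, Submodule.topologicalClosure_coe]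
  have hinv : ∀ s ∈ S, ∀ x ∈ V, Dens_dg s x ∈ V := by
    intro s hsS x hx
    have hx' : x ∈ closure (S.map Λ : Set (lp (fun _ : ℕ => H) 2)) := by
      rw [← hVcl]
      exact hx
    have h3 : Dens_dg s x ∈ closure (S.map Λ : Set (lp (fun _ : ℕ => H) 2)) := by
      refine map_mem_closure (Dens_dg s).continuous hx' ?_
      rintro _ ⟨t, ht, rfl⟩
      exact ⟨s * t, hm s hsS t ht, by rw [hΛ, hΛ, Dens_dg_mul]⟩
    rw [← hVcl] at h3
    exact h3
  have hPs : ∀ s ∈ S, ∀ x, V.starProjection (Dens_dg s x) = Dens_dg s (V.starProjection x) := by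
    intro s hsS x
    refine Submodule.eq_starProjection_of_mem_of_inner_eq_zero
      (hinv s hsS _ (Submodule.starProjection_apply_mem _ _)) fun w hw => ?_
    rw [← map_sub, Dens_dg_inner]
    exact Submodule.starProjection_inner_eq_zero x _ (hinv _ (hs s hsS) w hw)
  -- the entries
  have hent : ∀ i j, ∀ x ∈ R, ∀ η : H,
      (V.starProjection (lp.single 2 i (x η)) : ℕ → H) j =
        x ((V.starProjection (lp.single 2 i η) : ℕ → H) j) := by
    intro i j x hx η
    obtain ⟨T, hT⟩ : ∃ T : H →L[ℂ] H, ∀ η,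
        T η = (V.starProjection (lp.single 2 i η) : ℕ → H) j :=
      ⟨(lp.evalCLM ℂ (fun _ : ℕ => H) 2 j).comp
        (V.starProjection.comp (lp.singleContinuousLinearMap ℂ (fun _ : ℕ => H) 2 i)),
        fun _ => rfl⟩
    have h3 : T * x = x * T := by
      refine hgen T (fun s hsS => ?_) x hx
      ext η
      change T (s η) = s (T η)
      rw [hT, hT, ← Dens_dg_single, hPs s hsS, Dens_dg_apply]
    have h4 : (T * x) η = (x * T) η := by rw [h3]
    have h5 : T (x η) = x (T η) := h4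
    rwa [hT, hT] at h5
  have hPy : V.starProjection.comp (Dens_dg y) = (Dens_dg y).comp V.starProjection := by
    refine lp.ext_continuousLinearMap (by norm_num) fun i => ?_
    ext η : 1
    change V.starProjection (Dens_dg y (lp.single 2 i η)) =
      Dens_dg y (V.starProjection (lp.single 2 i η))
    refine lp.ext (funext fun j => ?_)
    rw [Dens_dg_single, hent i j y hy η, Dens_dg_apply]
  have hΞV : Ξ ∈ V := by
    have h3 : Ξ ∈ (V : Set (lp (fun _ : ℕ => H) 2)) := by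
      rw [hVcl]
      refine subset_closure ⟨1, h1, ?_⟩
      rw [hΛ]
      refine lp.ext (funext fun i => ?_)
      rfl
    exact h3
  have hyV : Dens_dg y Ξ ∈ V := by
    have h3 : V.starProjection Ξ = Ξ := Submodule.starProjection_eq_self_iff.2 hΞV
    have h4 : (V.starProjection.comp (Dens_dg y)) Ξ =
        ((Dens_dg y).comp V.starProjection) Ξ := by rw [hPy]
    have h5 : V.starProjection (Dens_dg y Ξ) = Dens_dg y (V.starProjection Ξ) := h4
    rw [h3] at h5
    exact Submodule.starProjection_eq_self_iff.1 h5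
  have hycl : Dens_dg y Ξ ∈ closure (S.map Λ : Set (lp (fun _ : ℕ => H) 2)) := by
    rw [← hVcl]
    exact hyV
  obtain ⟨_, ⟨s, hsS, rfl⟩, hd⟩ := Metric.mem_closure_iff.1 hycl ε hε
  refine ⟨s, hsS, ?_⟩
  rw [hΛ, dist_eq_norm] at hd
  have h3 : Dens_dg y Ξ - Dens_dg s Ξ = Dens_dg (y - s) Ξ := by
    rw [← hΛ, ← hΛ, ← hΛ, map_sub]
  rw [h3, hnorm _ (sub_mem hy (hR s hsS))] at hd
  exact hd

end Pool.Agent.KKS

end

section

/-!
# Rel: closing the graph of a trace preserving isomorphism of dense subalgebras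
-/


open Filter Topology

namespace Pool.Agent.KKS

variable {H : Type*} [NormedAddCommGroup H] [InnerProductSpace ℂ H] [CompleteSpace H]

/-- the graph of a trace preserving isomorphism between subalgebras of `M` and `N` -/
structure GrS (M N : VonNeumannAlgebra H) (τ : (H →L[ℂ] H) → ℂ)
    (G : Submodule ℂ ((H →L[ℂ] H) × (H →L[ℂ] H))) : Prop where
  trM : IsTrace M τ
  trN : IsTrace N τ
  one : ((1, 1) : (H →L[ℂ] H) × (H →L[ℂ] H)) ∈ G
  mul : ∀ p ∈ G, ∀ q ∈ G, (p.1 * q.1, p.2 * q.2) ∈ G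
  adj : ∀ p ∈ G, (star p.1, star p.2) ∈ G
  memM : ∀ p ∈ G, p.1 ∈ M
  memN : ∀ p ∈ G, p.2 ∈ N
  tr : ∀ p ∈ G, τ p.1 = τ p.2

/-- `(y, z)` is in the closure of the graph in 2-norm -/
structure Rel (M N : VonNeumannAlgebra H) (τ : (H →L[ℂ] H) → ℂ)
    (G : Submodule ℂ ((H →L[ℂ] H) × (H →L[ℂ] H))) (y z : H →L[ℂ] H) : Prop where
  memM : y ∈ M
  memN : z ∈ N
  approx : ∀ ε : ℝ, 0 < ε → ∃ p ∈ G, n2 τ (y - p.1) < ε ∧ n2 τ (z - p.2) < ε

/-- the swapped graph -/
def sw (G : Submodule ℂ ((H →L[ℂ] H) × (H →L[ℂ] H))) :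
    Submodule ℂ ((H →L[ℂ] H) × (H →L[ℂ] H)) :=
  G.comap (LinearEquiv.prodComm ℂ (H →L[ℂ] H) (H →L[ℂ] H)).toLinearMap

theorem mem_sw {G : Submodule ℂ ((H →L[ℂ] H) × (H →L[ℂ] H))}
    {p : (H →L[ℂ] H) × (H →L[ℂ] H)} : p ∈ sw G ↔ (p.2, p.1) ∈ G := Iff.rfl

variable {M N : VonNeumannAlgebra H} {τ : (H →L[ℂ] H) → ℂ}
  {G : Submodule ℂ ((H →L[ℂ] H) × (H →L[ℂ] H))}

theorem GrS.swap (h : GrS M N τ G) : GrS N M τ (sw G) :=
  { trM := h.trN
    trN := h.trM
    one := h.one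
    mul := fun p hp q hq => h.mul (p.2, p.1) hp (q.2, q.1) hq
    adj := fun p hp => h.adj (p.2, p.1) hp
    memM := fun p hp => h.memN (p.2, p.1) hp
    memN := fun p hp => h.memM (p.2, p.1) hp
    tr := fun p hp => (h.tr (p.2, p.1) hp).symm }

theorem Rel.swap {y z : H →L[ℂ] H} (h : Rel M N τ G y z) : Rel N M τ (sw G) z y :=
  { memM := h.memN
    memN := h.memM
    approx := fun ε hε => by
      obtain ⟨p, hp, h1, h2⟩ := h.approx ε hε
      exact ⟨(p.2, p.1), hp, h2, h1⟩ }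

private theorem Rel_rel_n2_zero {R : VonNeumannAlgebra H} (h : IsTrace R τ) :
    n2 τ (0 : H →L[ℂ] H) = 0 := by
  unfold n2
  rw [zero_mul, h.zero, Complex.zero_re, Real.sqrt_zero]

private theorem Rel_rel_n2_one {R : VonNeumannAlgebra H} (h : IsTrace R τ) :
    n2 τ (1 : H →L[ℂ] H) = 1 := by
  unfold n2
  rw [star_one, one_mul, h.one, Complex.one_re, Real.sqrt_one]

theorem Rel.of_mem (hG : GrS M N τ G) {p : (H →L[ℂ] H) × (H →L[ℂ] H)} (hp : p ∈ G) :
    Rel M N τ G p.1 p.2 :=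
  { memM := hG.memM p hp
    memN := hG.memN p hp
    approx := fun ε hε => ⟨p, hp, by rw [sub_self, Rel_rel_n2_zero hG.trM]; exact hε,
      by rw [sub_self, Rel_rel_n2_zero hG.trN]; exact hε⟩ }

theorem Rel.add (hG : GrS M N τ G) {y z y' z' : H →L[ℂ] H} (h : Rel M N τ G y z)
    (h' : Rel M N τ G y' z') : Rel M N τ G (y + y') (z + z') := by
  refine ⟨add_mem h.memM h'.memM, add_mem h.memN h'.memN, fun ε hε => ?_⟩
  obtain ⟨p, hp, h1, h2⟩ := h.approx (ε / 2) (by linarith)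
  obtain ⟨q, hq, h3, h4⟩ := h'.approx (ε / 2) (by linarith)
  refine ⟨p + q, G.add_mem hp hq, ?_, ?_⟩
  · have h5 := hG.trM.n2_add_le (sub_mem h.memM (hG.memM p hp))
      (sub_mem h'.memM (hG.memM q hq))
    have e1 : y + y' - (p + q).1 = y - p.1 + (y' - q.1) := by
      rw [Prod.fst_add]; abel
    rw [e1]; linarith
  · have h5 := hG.trN.n2_add_le (sub_mem h.memN (hG.memN p hp))
      (sub_mem h'.memN (hG.memN q hq))
    have e1 : z + z' - (p + q).2 = z - p.2 + (z' - q.2) := by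
      rw [Prod.snd_add]; abel
    rw [e1]; linarith

private theorem Rel_rel_smul_mem {R : VonNeumannAlgebra H} (c : ℂ) {x : H →L[ℂ] H} (hx : x ∈ R) :
    c • x ∈ R :=
  R.toStarSubalgebra.toSubalgebra.smul_mem hx c

theorem Rel.smul (hG : GrS M N τ G) (c : ℂ) {y z : H →L[ℂ] H} (h : Rel M N τ G y z) :
    Rel M N τ G (c • y) (c • z) := by
  refine ⟨Rel_rel_smul_mem c h.memM, Rel_rel_smul_mem c h.memN, fun ε hε => ?_⟩
  have hc : 0 < ‖c‖ + 1 := by positivity
  obtain ⟨p, hp, h1, h2⟩ := h.approx (ε / (‖c‖ + 1)) (div_pos hε hc)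
  have key : ∀ t : ℝ, 0 ≤ t → t < ε / (‖c‖ + 1) → ‖c‖ * t < ε := by
    intro t ht0 ht
    rw [lt_div_iff₀ hc] at ht
    nlinarith [norm_nonneg c]
  refine ⟨c • p, G.smul_mem c hp, ?_, ?_⟩
  · have e1 : c • y - (c • p).1 = c • (y - p.1) := by
      rw [Prod.smul_fst, smul_sub]
    rw [e1, hG.trM.n2_smul c (sub_mem h.memM (hG.memM p hp))]
    exact key _ (n2_nonneg _) h1
  · have e1 : c • z - (c • p).2 = c • (z - p.2) := by
      rw [Prod.smul_snd, smul_sub]
    rw [e1, hG.trN.n2_smul c (sub_mem h.memN (hG.memN p hp))]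
    exact key _ (n2_nonneg _) h2

theorem Rel.sub (hG : GrS M N τ G) {y z y' z' : H →L[ℂ] H} (h : Rel M N τ G y z)
    (h' : Rel M N τ G y' z') : Rel M N τ G (y - y') (z - z') := by
  have h1 := Rel.add hG h (Rel.smul hG (-1) h')
  have e1 : ∀ a b : H →L[ℂ] H, a + (-1 : ℂ) • b = a - b := by
    intro a b
    rw [neg_one_smul, sub_eq_add_neg]
  rwa [e1, e1] at h1

theorem Rel.adj (hG : GrS M N τ G) {y z : H →L[ℂ] H} (h : Rel M N τ G y z) :
    Rel M N τ G (star y) (star z) := by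
  refine ⟨star_mem h.memM, star_mem h.memN, fun ε hε => ?_⟩
  obtain ⟨p, hp, h1, h2⟩ := h.approx ε hε
  refine ⟨(star p.1, star p.2), hG.adj p hp, ?_, ?_⟩
  · rw [← star_sub, hG.trM.n2_star (sub_mem h.memM (hG.memM p hp))]
    exact h1
  · rw [← star_sub, hG.trN.n2_star (sub_mem h.memN (hG.memN p hp))]
    exact h2

private theorem Rel_rel_mul_aux {R : VonNeumannAlgebra H} (h : IsTrace R τ)
    {y y' p q : H →L[ℂ] H} (hy : y ∈ R) (hy' : y' ∈ R) (hp : p ∈ R) (hq : q ∈ R) :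
    n2 τ (y * y' - p * q) ≤ ‖y'‖ * n2 τ (y - p) + ‖p‖ * n2 τ (y' - q) := by
  have e1 : y * y' - p * q = (y - p) * y' + p * (y' - q) := by noncomm_ring
  rw [e1]
  have h1 := h.n2_mul_right (a := y') hy' (sub_mem hy hp)
  have h2 := h.n2_mul_left (a := p) hp (sub_mem hy' hq)
  have h3 := h.n2_add_le (mul_mem (sub_mem hy hp) hy') (mul_mem hp (sub_mem hy' hq))
  linarith

theorem Rel.mul (hG : GrS M N τ G) {y z y' z' : H →L[ℂ] H} (h : Rel M N τ G y z)
    (h' : Rel M N τ G y' z') : Rel M N τ G (y * y') (z * z') := by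
  refine ⟨mul_mem h.memM h'.memM, mul_mem h.memN h'.memN, fun ε hε => ?_⟩
  obtain ⟨p, hp, h1, h2⟩ := h.approx (ε / 2 / (‖y'‖ + ‖z'‖ + 1)) (by positivity)
  obtain ⟨q, hq, h3, h4⟩ := h'.approx (ε / 2 / (‖p.1‖ + ‖p.2‖ + 1)) (by positivity)
  have key : ∀ A a s : ℝ, 0 ≤ A → A ≤ a → 0 ≤ s → s < ε / 2 / (a + 1) → A * s < ε / 2 := by
    intro A a s hA ha hs hs'
    have ha1 : 0 < a + 1 := by linarith
    rw [lt_div_iff₀ ha1] at hs'
    nlinarith
  refine ⟨(p.1 * q.1, p.2 * q.2), hG.mul p hp q hq, ?_, ?_⟩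
  · have h5 := Rel_rel_mul_aux hG.trM h.memM h'.memM (hG.memM p hp) (hG.memM q hq)
    have h6 := key ‖y'‖ _ _ (norm_nonneg _) (by linarith [norm_nonneg z']) (n2_nonneg _) h1
    have h7 := key ‖p.1‖ _ _ (norm_nonneg _) (by linarith [norm_nonneg p.2]) (n2_nonneg _) h3
    show n2 τ (y * y' - p.1 * q.1) < ε
    linarith
  · have h5 := Rel_rel_mul_aux hG.trN h.memN h'.memN (hG.memN p hp) (hG.memN q hq)
    have h6 := key ‖z'‖ _ _ (norm_nonneg _) (by linarith [norm_nonneg y']) (n2_nonneg _) h2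
    have h7 := key ‖p.2‖ _ _ (norm_nonneg _) (by linarith [norm_nonneg p.1]) (n2_nonneg _) h4
    show n2 τ (z * z' - p.2 * q.2) < ε
    linarith

private theorem Rel_rel_trace_le {R : VonNeumannAlgebra H} (h : IsTrace R τ)
    {x : H →L[ℂ] H} (hx : x ∈ R) : ‖τ x‖ ≤ n2 τ x := by
  have h1 := h.cs hx (one_mem R)
  rwa [star_one, mul_one, Rel_rel_n2_one h, mul_one] at h1

theorem Rel.trace (hG : GrS M N τ G) {y z : H →L[ℂ] H} (h : Rel M N τ G y z) : τ y = τ z := by
  rw [← sub_eq_zero, ← norm_eq_zero]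
  refine le_antisymm (le_of_forall_pos_le_add fun ε hε => ?_) (norm_nonneg _)
  obtain ⟨p, hp, h1, h2⟩ := h.approx (ε / 2) (by linarith)
  have h3 := Rel_rel_trace_le hG.trM (sub_mem h.memM (hG.memM p hp))
  have h4 := Rel_rel_trace_le hG.trN (sub_mem h.memN (hG.memN p hp))
  rw [hG.trM.sub h.memM (hG.memM p hp)] at h3
  rw [hG.trN.sub h.memN (hG.memN p hp)] at h4
  have e1 : τ y - τ z = (τ y - τ p.1) - (τ z - τ p.2) := by
    rw [hG.tr p hp]; ring
  rw [e1]
  have h5 := norm_sub_le (τ y - τ p.1) (τ z - τ p.2)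
  linarith

theorem Rel.n2_eq (hG : GrS M N τ G) {y z : H →L[ℂ] H} (h : Rel M N τ G y z) :
    n2 τ y = n2 τ z := by
  unfold n2
  rw [(Rel.mul hG h (Rel.adj hG h)).trace hG]

theorem Rel.unique (hG : GrS M N τ G) {y z z' : H →L[ℂ] H} (h : Rel M N τ G y z)
    (h' : Rel M N τ G y z') : z = z' := by
  have h1 := Rel.sub hG h h'
  have h2 := h1.n2_eq hG
  rw [sub_self, Rel_rel_n2_zero hG.trM] at h2
  exact sub_eq_zero.mp (hG.trN.n2_eq_zero h1.memN h2.symm)

theorem Rel.unique' (hG : GrS M N τ G) {y y' z : H →L[ℂ] H} (h : Rel M N τ G y z)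
    (h' : Rel M N τ G y' z) : y = y' := by
  have h1 := Rel.sub hG h h'
  have h2 := h1.n2_eq hG
  rw [sub_self, Rel_rel_n2_zero hG.trN] at h2
  exact sub_eq_zero.mp (hG.trM.n2_eq_zero h1.memM h2)

end Pool.Agent.KKS

end

section

/-!
# Rel2: functional calculus for partners
-/


open Filter Topology

namespace Pool.Agent.KKS

variable {H : Type*} [NormedAddCommGroup H] [InnerProductSpace ℂ H] [CompleteSpace H]
variable {M N : VonNeumannAlgebra H} {τ : (H →L[ℂ] H) → ℂ}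
  {G : Submodule ℂ ((H →L[ℂ] H) × (H →L[ℂ] H))}

/-- limits in 2-norm -/
theorem Rel.of_approx (hG : GrS M N τ G) {y z : H →L[ℂ] H} (hy : y ∈ M) (hz : z ∈ N)
    (h : ∀ ε : ℝ, 0 < ε → ∃ y' z', Rel M N τ G y' z' ∧ n2 τ (y - y') < ε ∧ n2 τ (z - z') < ε) :
    Rel M N τ G y z := by
  refine ⟨hy, hz, fun ε hε => ?_⟩
  obtain ⟨y', z', hr, h1, h2⟩ := h (ε / 2) (by linarith)
  obtain ⟨p, hp, h3, h4⟩ := hr.approx (ε / 2) (by linarith)
  refine ⟨p, hp, ?_, ?_⟩
  · have := hG.trM.n2_sub_le hy hr.memM (hG.memM p hp)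
    linarith
  · have := hG.trN.n2_sub_le hz hr.memN (hG.memN p hp)
    linarith

private theorem Rel2_rel2_pow (hG : GrS M N τ G) {y z : H →L[ℂ] H} (h : Rel M N τ G y z) (n : ℕ) :
    Rel M N τ G (y ^ n) (z ^ n) := by
  induction n with
  | zero =>
    rw [pow_zero, pow_zero]
    exact Rel.of_mem hG hG.one
  | succ n ih =>
    rw [pow_succ, pow_succ]
    exact Rel.mul hG ih h

private theorem Rel2_rel2_aeval (hG : GrS M N τ G) {y z : H →L[ℂ] H} (h : Rel M N τ G y z)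
    (p : Polynomial ℝ) : Rel M N τ G (Polynomial.aeval y p) (Polynomial.aeval z p) := by
  induction p using Polynomial.induction_on' with
  | add p q hp hq =>
    rw [map_add, map_add]
    exact Rel.add hG hp hq
  | monomial n a =>
    rw [Polynomial.aeval_monomial, Polynomial.aeval_monomial, ← Algebra.smul_def,
      ← Algebra.smul_def]
    have h1 := Rel.smul hG (a : ℂ) (Rel2_rel2_pow hG h n)
    rwa [Complex.coe_smul, Complex.coe_smul] at h1

private theorem Rel2_rel2_spec {y : H →L[ℂ] H} {x : ℝ} (hx : x ∈ spectrum ℝ y) : |x| ≤ ‖y‖ := by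
  have h1 := spectrum.norm_le_norm_mul_of_mem hx
  have h2 : ‖(1 : H →L[ℂ] H)‖ ≤ 1 := ContinuousLinearMap.norm_id_le
  rw [Real.norm_eq_abs] at h1
  have h3 : ‖y‖ * ‖(1 : H →L[ℂ] H)‖ ≤ ‖y‖ * 1 := mul_le_mul_of_nonneg_left h2 (norm_nonneg _)
  linarith

/-- the functional calculus, by polynomial approximation on an interval which contains both spectra -/
theorem Rel.cfc_rel (hG : GrS M N τ G) {y z : H →L[ℂ] H} (h : Rel M N τ G y z) (hy : star y = y)
    (hz : star z = z) {f : ℝ → ℝ} (hf : Continuous f) : Rel M N τ G (cfc f y) (cfc f z) := by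
  refine Rel.of_approx hG (cfc_mem_vn h.memM f) (cfc_mem_vn h.memN f) fun ε hε => ?_
  set r := max ‖y‖ ‖z‖ with hr
  obtain ⟨p, hp⟩ := exists_polynomial_near_of_continuousOn (-r) r f hf.continuousOn (ε / 2)
    (by linarith)
  have key : ∀ w : H →L[ℂ] H, star w = w → ‖w‖ ≤ r →
      ‖cfc f w - Polynomial.aeval w p‖ ≤ ε / 2 := by
    intro w hw hwr
    have hw' : IsSelfAdjoint w := hw
    rw [← cfc_polynomial (R := ℝ) p w hw',
      ← cfc_sub f (fun x => p.eval x) w hf.continuousOn p.continuous.continuousOn]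
    refine norm_cfc_le (by linarith) fun x hx => ?_
    have h1 := Rel2_rel2_spec hx
    have h2 : x ∈ Set.Icc (-r) r := by
      rw [Set.mem_Icc, ← abs_le]
      linarith
    have h3 := hp x h2
    rw [Real.norm_eq_abs, abs_sub_comm]
    exact h3.le
  refine ⟨Polynomial.aeval y p, Polynomial.aeval z p, Rel2_rel2_aeval hG h p, ?_, ?_⟩
  · have h1 := key y hy (le_max_left _ _)
    have h2 := hG.trM.n2_le_norm (sub_mem (cfc_mem_vn h.memM f) (Rel2_rel2_aeval hG h p).memM)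
    linarith
  · have h1 := key z hz (le_max_right _ _)
    have h2 := hG.trN.n2_le_norm (sub_mem (cfc_mem_vn h.memN f) (Rel2_rel2_aeval hG h p).memN)
    linarith

theorem Rel.clamp_rel (hG : GrS M N τ G) {y z : H →L[ℂ] H} (h : Rel M N τ G y z)
    (hy : star y = y) (hz : star z = z) : Rel M N τ G (clamp y) (clamp z) :=
  Rel.cfc_rel hG h hy hz (by fun_prop)

end Pool.Agent.KKS

end

section

/-!
# Rel3: totality
-/


open Filter Topology

namespace Pool.Agent.KKS

variable {H : Type*} [NormedAddCommGroup H] [InnerProductSpace ℂ H] [CompleteSpace H]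
variable {M N : VonNeumannAlgebra H} {τ : (H →L[ℂ] H) → ℂ}
  {G : Submodule ℂ ((H →L[ℂ] H) × (H →L[ℂ] H))}

/-- symmetrisation: `c • (p + star p)` -/
private theorem Rel3_sym (hG : GrS M N τ G) {y : H →L[ℂ] H} (hy : y ∈ M) (c : ℂ) (d : ℂ)
    (hd1 : ‖d‖ = 1)
    (hd : ∀ ε : ℝ, 0 < ε → ∃ p ∈ G, n2 τ (y - p.1) < ε) :
    ∀ ε : ℝ, 0 < ε → ∃ p ∈ G, n2 τ (c • (y + d • star y) - p.1) < ε := by
  intro ε hε
  obtain ⟨p, hp, hpe⟩ := hd (ε / (2 * ‖c‖ + 1)) (by positivity)
  refine ⟨c • (p + d • (star p.1, star p.2)), G.smul_mem _ (G.add_mem hp (G.smul_mem _ (hG.adj p hp))), ?_⟩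
  have hpM := hG.memM p hp
  have h1 : c • (y + d • star y) - (c • (p + d • ((star p.1, star p.2) : (H →L[ℂ] H) × (H →L[ℂ] H)))).1
      = c • ((y - p.1) + d • star (y - p.1)) := by
    simp only [Prod.smul_fst, Prod.fst_add, star_sub, smul_add, smul_sub]
    abel
  have hm : y - p.1 ∈ M := sub_mem hy hpM
  have hm2 : star (y - p.1) ∈ M := star_mem hm
  have hm3 : d • star (y - p.1) ∈ M := M.toStarSubalgebra.smul_mem hm2 d
  have hm4 : (y - p.1) + d • star (y - p.1) ∈ M := add_mem hm hm3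
  rw [h1, hG.trM.n2_smul c hm4]
  have h2 : n2 τ ((y - p.1) + d • star (y - p.1)) ≤ 2 * n2 τ (y - p.1) := by
    refine (hG.trM.n2_add_le hm hm3).trans ?_
    rw [hG.trM.n2_smul d hm2, hG.trM.n2_star hm, hd1]
    linarith
  have hc : 0 ≤ ‖c‖ := norm_nonneg c
  have h3 : (0 : ℝ) < 2 * ‖c‖ + 1 := by positivity
  have h5 : n2 τ (y - p.1) * (2 * ‖c‖ + 1) < ε := by
    rwa [lt_div_iff₀ h3] at hpe
  have h6 := n2_nonneg (τ := τ) (y - p.1)
  nlinarith

/-- every self-adjoint `y` of norm `≤ 1` which is a limit in 2-norm of elements of the domain has a partner: take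
`pₙ ∈ G` self-adjoint with `‖y - pₙ.1‖₂ → 0`, then `clamp pₙ.1 → y` in 2-norm (`clamp_dist`), `clamp pₙ.2` is
bounded by 1 and Cauchy in 2-norm, its weak limit is the partner (`n2_wlim_le`) -/
theorem Rel.total_sa (hG : GrS M N τ G) {y : H →L[ℂ] H} (hy : y ∈ M) (hys : star y = y)
    (hy1 : ‖y‖ ≤ 1) (hd : ∀ ε : ℝ, 0 < ε → ∃ p ∈ G, n2 τ (y - p.1) < ε) :
    ∃ z, Rel M N τ G y z ∧ star z = z ∧ ‖z‖ ≤ 1 := by
  -- self-adjoint approximants
  have key : ∀ n : ℕ, ∃ p ∈ G, star p.1 = p.1 ∧ star p.2 = p.2 ∧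
      n2 τ (y - p.1) < 1 / ((n : ℝ) + 1) := by
    intro n
    obtain ⟨p, hp, hpe⟩ := hd (1 / ((n : ℝ) + 1)) (by positivity)
    refine ⟨(1 / 2 : ℂ) • (p + (star p.1, star p.2)),
      G.smul_mem _ (G.add_mem hp (hG.adj p hp)), ?_, ?_, ?_⟩
    · simp [star_smul, add_comm]
    · simp [star_smul, add_comm]
    · have hm : y - p.1 ∈ M := sub_mem hy (hG.memM p hp)
      have h1 : y - ((1 / 2 : ℂ) • (p + ((star p.1, star p.2) : (H →L[ℂ] H) × (H →L[ℂ] H)))).1
          = (1 / 2 : ℂ) • ((y - p.1) + star (y - p.1)) := by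
        have h2 : y = (1 / 2 : ℂ) • (y + star y) := by
          rw [hys, ← two_smul ℂ y, smul_smul]
          norm_num
        simp only [Prod.smul_fst, Prod.fst_add, star_sub]
        conv_lhs => rw [h2]
        rw [← smul_sub]
        congr 1
        abel
      rw [h1, hG.trM.n2_smul _ (add_mem hm (star_mem hm))]
      have h3 := hG.trM.n2_add_le hm (star_mem hm)
      rw [hG.trM.n2_star hm] at h3
      have h4 : ‖(1 / 2 : ℂ)‖ = 1 / 2 := by norm_num
      rw [h4]
      linarith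
  choose p hpG hp1 hp2 hpe using key
  have hR : ∀ n, Rel M N τ G (clamp (p n).1) (clamp (p n).2) := fun n =>
    Rel.clamp_rel hG (Rel.of_mem hG (hpG n)) (hp1 n) (hp2 n)
  have hyM : ∀ n, clamp (p n).1 ∈ M := fun n => (hR n).memM
  have hzN : ∀ n, clamp (p n).2 ∈ N := fun n => (hR n).memN
  have hyd : ∀ n : ℕ, n2 τ (y - clamp (p n).1) ≤ 3 / ((n : ℝ) + 1) := by
    intro n
    have hpM := hG.memM _ (hpG n)
    have h1 := clamp_dist hG.trM hy hpM hys (hp1 n) hy1
    have h2 := hG.trM.n2_sub_le hy hpM (hyM n)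
    have h3 : n2 τ ((p n).1 - y) = n2 τ (y - (p n).1) := by
      have h4 : (p n).1 - y = (-1 : ℂ) • (y - (p n).1) := by
        simp
      rw [h4, hG.trM.n2_smul _ (sub_mem hy hpM)]
      simp
    have h5 := hpe n
    rw [h3] at h1
    have h6 : 3 / ((n : ℝ) + 1) = 3 * (1 / ((n : ℝ) + 1)) := by ring
    rw [h6]
    linarith
  have hsym : ∀ a b : H →L[ℂ] H, a ∈ M → b ∈ M → n2 τ (a - b) = n2 τ (b - a) := by
    intro a b ha hb
    have h4 : a - b = (-1 : ℂ) • (b - a) := by simp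
    rw [h4, hG.trM.n2_smul _ (sub_mem hb ha)]
    simp
  have hzd : ∀ n m : ℕ, m ≤ n → n2 τ (clamp (p n).2 - clamp (p m).2) ≤ 6 / ((m : ℝ) + 1) := by
    intro n m hmn
    have h1 := Rel.n2_eq hG (Rel.sub hG (hR n) (hR m))
    rw [← h1]
    have h2 := hG.trM.n2_sub_le (hyM n) hy (hyM m)
    rw [hsym _ _ (hyM n) hy] at h2
    have h3 := hyd n
    have h4 := hyd m
    have h5 : 3 / ((n : ℝ) + 1) ≤ 3 / ((m : ℝ) + 1) := by
      apply div_le_div_of_nonneg_left (by norm_num) (by positivity)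
      have : (m : ℝ) ≤ n := by exact_mod_cast hmn
      linarith
    have h6 : 6 / ((m : ℝ) + 1) = 3 / ((m : ℝ) + 1) + 3 / ((m : ℝ) + 1) := by ring
    rw [h6]
    linarith
  have hB : Bdd (fun n => clamp (p n).2) := ⟨1, fun n => clamp_norm⟩
  have hwN : wlim (fun n => clamp (p n).2) ∈ N :=
    wlim_mem N hB (Eventually.of_forall hzN)
  refine ⟨wlim (fun n => clamp (p n).2), ?_, ?_, ?_⟩
  · refine Rel.of_approx hG hy hwN ?_
    intro ε hε
    obtain ⟨m, hm⟩ := exists_nat_gt (6 / ε)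
    have hm' : 6 / ((m : ℝ) + 1) < ε := by
      rw [div_lt_iff₀ (by positivity)]
      rw [div_lt_iff₀ hε] at hm
      nlinarith
    refine ⟨clamp (p m).1, clamp (p m).2, hR m, ?_, ?_⟩
    · refine lt_of_le_of_lt (hyd m) (lt_of_le_of_lt ?_ hm')
      apply div_le_div_of_nonneg_right (by norm_num) (by positivity)
    · refine lt_of_le_of_lt (n2_wlim_le hG.trN hB hzN (hzN m) (C := 6 / ((m : ℝ) + 1)) ?_) hm'
      have h1 : ∀ᶠ n in (atTop : Filter ℕ), m ≤ n := eventually_ge_atTop m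
      have h2 : ∀ᶠ n in UF, m ≤ n := h1.filter_mono Nat.hyperfilter_le_atTop
      filter_upwards [h2] with n hn
      exact hzd n m hn
  · rw [← wlim_star hB]
    congr 1
    funext n
    exact clamp_sa
  · exact norm_wlim_le fun n => clamp_norm

/-- every `y` of the 2-norm closure of the domain has a partner -/
theorem Rel.total (hG : GrS M N τ G) {y : H →L[ℂ] H} (hy : y ∈ M)
    (hd : ∀ ε : ℝ, 0 < ε → ∃ p ∈ G, n2 τ (y - p.1) < ε) :
    ∃ z, Rel M N τ G y z ∧ ‖z‖ ≤ 2 * ‖y‖ := by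
  by_cases hy0 : y = 0
  · subst hy0
    refine ⟨0, ?_, by simp⟩
    exact Rel.of_mem hG (p := (0, 0)) G.zero_mem
  have hc : 0 < ‖y‖ := norm_pos_iff.mpr hy0
  set c : ℝ := ‖y‖ with hcdef
  have hcC : (c : ℂ) ≠ 0 := by exact_mod_cast hc.ne'
  have hsm : ∀ (r : ℂ) (x : H →L[ℂ] H), x ∈ M → r • x ∈ M := fun r x hx =>
    M.toStarSubalgebra.smul_mem hx r
  -- real part
  obtain ⟨za, hza, hzas, hza1⟩ := Rel.total_sa hG (y := (1 / (2 * c) : ℂ) • (y + (1 : ℂ) • star y))
    (hsm _ _ (add_mem hy (hsm _ _ (star_mem hy)))) (by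
      simp [star_smul, add_comm, Complex.conj_ofReal]) (by
      rw [norm_smul]
      have h1 : ‖y + (1 : ℂ) • star y‖ ≤ 2 * c := by
        refine (norm_add_le _ _).trans ?_
        rw [one_smul, norm_star]
        linarith
      have h2 : ‖(1 / (2 * c) : ℂ)‖ = 1 / (2 * c) := by
        rw [norm_div, norm_mul]
        simp [abs_of_pos hc]
      rw [h2]
      calc 1 / (2 * c) * ‖y + (1 : ℂ) • star y‖ ≤ 1 / (2 * c) * (2 * c) := by
            apply mul_le_mul_of_nonneg_left h1 (by positivity)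
        _ = 1 := by field_simp)
    (Rel3_sym hG hy _ 1 (by simp) hd)
  obtain ⟨zb, hzb, hzbs, hzb1⟩ := Rel.total_sa hG
    (y := (-Complex.I / (2 * c) : ℂ) • (y + (-1 : ℂ) • star y))
    (hsm _ _ (add_mem hy (hsm _ _ (star_mem hy)))) (by
      simp only [star_smul, star_add, star_star, star_neg, star_one, RCLike.star_def, map_div₀, map_neg,
        Complex.conj_I, map_mul, Complex.conj_ofReal, map_ofNat, neg_neg]
      simp only [neg_smul, one_smul, smul_add, smul_neg, neg_div]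
      abel) (by
      rw [norm_smul]
      have h1 : ‖y + (-1 : ℂ) • star y‖ ≤ 2 * c := by
        refine (norm_add_le _ _).trans ?_
        rw [neg_smul, one_smul, norm_neg, norm_star]
        linarith
      have h2 : ‖(-Complex.I / (2 * c) : ℂ)‖ = 1 / (2 * c) := by
        rw [norm_div, norm_mul]
        simp [abs_of_pos hc]
      rw [h2]
      calc 1 / (2 * c) * ‖y + (-1 : ℂ) • star y‖ ≤ 1 / (2 * c) * (2 * c) := by
            apply mul_le_mul_of_nonneg_left h1 (by positivity)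
        _ = 1 := by field_simp)
    (Rel3_sym hG hy _ (-1) (by simp) hd)
  refine ⟨(c : ℂ) • za + (Complex.I * c) • zb, ?_, ?_⟩
  · have h1 := Rel.add hG (Rel.smul hG (c : ℂ) hza) (Rel.smul hG (Complex.I * c) hzb)
    have h2 : (c : ℂ) • ((1 / (2 * c) : ℂ) • (y + (1 : ℂ) • star y)) +
        (Complex.I * c) • ((-Complex.I / (2 * c) : ℂ) • (y + (-1 : ℂ) • star y)) = y := by
      rw [smul_smul, smul_smul]
      have h3 : (c : ℂ) * (1 / (2 * c)) = 1 / 2 := by field_simp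
      have h4 : (Complex.I * c : ℂ) * (-Complex.I / (2 * c)) = 1 / 2 := by
        have : (Complex.I * c : ℂ) * (-Complex.I / (2 * c)) = -(Complex.I * Complex.I) * (c / (2 * c)) := by
          ring
        rw [this, Complex.I_mul_I]
        field_simp
      rw [h3, h4, ← smul_add]
      have h5 : y + (1 : ℂ) • star y + (y + (-1 : ℂ) • star y) = (2 : ℂ) • y := by
        rw [neg_smul, one_smul, two_smul]
        abel
      rw [h5, smul_smul]
      norm_num
    rwa [h2] at h1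
  · refine (norm_add_le _ _).trans ?_
    rw [norm_smul, norm_smul, norm_mul, Complex.norm_I, one_mul]
    have h1 : ‖(c : ℂ)‖ = c := by simp [abs_of_pos hc]
    rw [h1]
    nlinarith

end Pool.Agent.KKS

end

section

/-!
# Rel4: the isomorphism
-/


open Filter Topology

namespace Pool.Agent.KKS

variable {H : Type*} [NormedAddCommGroup H] [InnerProductSpace ℂ H] [CompleteSpace H]
variable {M N : VonNeumannAlgebra H} {τ : (H →L[ℂ] H) → ℂ}
  {G : Submodule ℂ ((H →L[ℂ] H) × (H →L[ℂ] H))}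

/-- (11) -/
theorem Rel.iso (hG : GrS M N τ G)
    (hM : ∀ y ∈ M, ∀ ε : ℝ, 0 < ε → ∃ p ∈ G, n2 τ (y - p.1) < ε)
    (hN : ∀ z ∈ N, ∀ ε : ℝ, 0 < ε → ∃ p ∈ G, n2 τ (z - p.2) < ε) :
    Nonempty (M.toStarSubalgebra ≃⋆ₐ[ℂ] N.toStarSubalgebra) := by
  have h1 : ∀ y : M.toStarSubalgebra, ∃ z : N.toStarSubalgebra, Rel M N τ G y z := by
    intro y
    obtain ⟨z, hz, -⟩ := Rel.total hG y.2 (hM y y.2)
    exact ⟨⟨z, hz.memN⟩, hz⟩
  have h2 : ∀ z : N.toStarSubalgebra, ∃ y : M.toStarSubalgebra, Rel M N τ G y z := by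
    intro z
    obtain ⟨y, hy, -⟩ := Rel.total hG.swap z.2 (fun ε hε => by
      obtain ⟨p, hp, hp'⟩ := hN z z.2 ε hε
      exact ⟨(p.2, p.1), hp, hp'⟩)
    have h3 := hy.swap
    have h4 : sw (sw G) = G := rfl
    rw [h4] at h3
    exact ⟨⟨y, h3.memM⟩, h3⟩
  choose f hf using h1
  choose g hg using h2
  refine ⟨{ toFun := f
            invFun := g
            left_inv := fun y => Subtype.ext (Rel.unique' hG (hg (f y)) (hf y))
            right_inv := fun z => Subtype.ext (Rel.unique hG (hf (g z)) (hg z))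
            map_mul' := fun y y' => Subtype.ext
              (Rel.unique hG (hf (y * y')) (Rel.mul hG (hf y) (hf y')))
            map_add' := fun y y' => Subtype.ext
              (Rel.unique hG (hf (y + y')) (Rel.add hG (hf y) (hf y')))
            map_star' := fun y => Subtype.ext
              (Rel.unique hG (hf (star y)) (Rel.adj hG (hf y)))
            map_smul' := fun c y => Subtype.ext
              (Rel.unique hG (hf (c • y)) (Rel.smul hG c (hf y))) }⟩

end Pool.Agent.KKS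

end
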