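import Pool.Agent.Lib.MP_5c1ef7_an.P02

/-!
# P08: the function L
-/

set_option autoImplicit false
set_option linter.unusedSectionVars false

section

/-!
# L: positive functionals
-/


open Filter Topology

namespace Pool.Agent.KKS

variable {H : Type*} [NormedAddCommGroup H] [InnerProductSpace ℂ H] [CompleteSpace H]
variable {R : VonNeumannAlgebra H} {τ : (H →L[ℂ] H) →L[ℂ] ℂ}

/-- positive functionals -/
def PosF (τ : (H →L[ℂ] H) →L[ℂ] ℂ) : Prop :=
  ∀ T : H →L[ℂ] H, 0 ≤ (τ (star T * T)).re ∧ (τ (star T * T)).im = 0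

theorem PosF.nonneg (h : PosF τ) {T : H →L[ℂ] H} (hT : 0 ≤ T) : 0 ≤ (τ T).re ∧ (τ T).im = 0 := by
  obtain ⟨S, rfl⟩ := CStarAlgebra.nonneg_iff_eq_star_mul_self.mp hT
  exact h S

theorem PosF.mono (h : PosF τ) {S T : H →L[ℂ] H} (hST : S ≤ T) : (τ S).re ≤ (τ T).re := by
  have h1 := (h.nonneg (sub_nonneg.mpr hST)).1
  rw [map_sub, Complex.sub_re] at h1
  linarith

theorem PosF.real (h : PosF τ) {T : H →L[ℂ] H} (hT : star T = T) : (τ T).im = 0 := by
  have h1 := (h (1 + T)).2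
  have h2 := (h (1 - T)).2
  have e1 : star (1 + T) * (1 + T) - star (1 - T) * (1 - T) = (4 : ℂ) • T := by
    rw [star_add, star_sub, star_one, hT]
    rw [show (4 : ℂ) • T = T + T + T + T by
      rw [show (4 : ℂ) = 1 + 1 + 1 + 1 by norm_num, add_smul, add_smul, add_smul, one_smul]]
    noncomm_ring
  have h3 : (τ (star (1 + T) * (1 + T) - star (1 - T) * (1 - T))).im = 0 := by
    rw [map_sub, Complex.sub_im, h1, h2, sub_zero]
  rw [e1, map_smul, smul_eq_mul, Complex.mul_im] at h3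
  norm_num at h3
  exact h3

theorem PosF.conj (h : PosF τ) (T : H →L[ℂ] H) : τ (star T) = starRingEnd ℂ (τ T) := by
  have h1 := h.real (T := T + star T) (by rw [star_add, star_star, add_comm])
  have h2 := h.real (T := Complex.I • (T - star T)) (by
    rw [star_smul, star_sub, star_star]
    rw [show star Complex.I = - Complex.I from Complex.conj_I, neg_smul, ← smul_neg, neg_sub])
  rw [map_add, Complex.add_im] at h1
  rw [map_smul, map_sub, smul_eq_mul, Complex.mul_im] at h2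
  simp only [Complex.I_re, Complex.I_im, zero_mul, one_mul, zero_add, Complex.sub_re] at h2
  apply Complex.ext
  · rw [Complex.conj_re]; linarith
  · rw [Complex.conj_im]; linarith

/-- Cauchy-Schwarz -/
theorem PosF.cs (h : PosF τ) (S T : H →L[ℂ] H) :
    ‖τ (star S * T)‖ ^ 2 ≤ (τ (star S * S)).re * (τ (star T * T)).re := by
  set z := τ (star S * T) with hz
  set a := (τ (star S * S)).re with ha
  set b := (τ (star T * T)).re with hb
  have hz' : τ (star T * S) = starRingEnd ℂ z := by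
    rw [hz, ← h.conj, star_mul, star_star]
  have key : ∀ c : ℂ, 0 ≤ a + 2 * (c * z).re + ‖c‖ ^ 2 * b := by
    intro c
    have h1 := (h (S + c • T)).1
    have e1 : star (S + c • T) * (S + c • T) =
        star S * S + c • (star S * T) + (starRingEnd ℂ c) • (star T * S)
          + (starRingEnd ℂ c * c) • (star T * T) := by
      rw [star_add, star_smul]
      simp only [add_mul, mul_add, smul_mul_assoc, mul_smul_comm, smul_smul, Complex.star_def,
        smul_add]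
      rw [mul_comm c (starRingEnd ℂ c)]
      abel
    rw [e1, map_add, map_add, map_add, map_smul, map_smul, map_smul, hz'] at h1
    simp only [Complex.add_re, smul_eq_mul] at h1
    have e2 : (starRingEnd ℂ c * c * τ (star T * T)).re = ‖c‖ ^ 2 * b := by
      rw [mul_comm (starRingEnd ℂ c) c, Complex.mul_conj, Complex.re_ofReal_mul,
        Complex.normSq_eq_norm_sq]
    have e3 : (starRingEnd ℂ c * starRingEnd ℂ z).re = (c * z).re := by
      rw [← map_mul, Complex.conj_re]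
    rw [e2, e3] at h1
    linarith
  have hb0 : 0 ≤ b := (h T).1
  have ha0 : 0 ≤ a := (h S).1
  have key2 : ∀ t : ℝ, 0 ≤ a + 2 * (t * ‖z‖ ^ 2) + t ^ 2 * ‖z‖ ^ 2 * b := by
    intro t
    have h1 := key ((t : ℂ) * starRingEnd ℂ z)
    have e1 : ((t : ℂ) * starRingEnd ℂ z * z).re = t * ‖z‖ ^ 2 := by
      rw [mul_assoc, mul_comm (starRingEnd ℂ z) z, Complex.mul_conj, Complex.re_ofReal_mul,
        Complex.ofReal_re, Complex.normSq_eq_norm_sq]
    have e2 : ‖(t : ℂ) * starRingEnd ℂ z‖ ^ 2 = t ^ 2 * ‖z‖ ^ 2 := by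
      rw [norm_mul, mul_pow, Complex.norm_real, Real.norm_eq_abs, sq_abs, RCLike.norm_conj]
    rw [e1, e2] at h1
    exact h1
  rcases eq_or_lt_of_le hb0 with hb1 | hb1
  · -- b = 0
    rw [← hb1] at key2 ⊢
    by_contra hcon
    rw [not_le, mul_zero] at hcon
    have h2 := key2 (-(a + 1) / (‖z‖ ^ 2))
    have h3 : -(a + 1) / ‖z‖ ^ 2 * ‖z‖ ^ 2 = -(a + 1) := div_mul_cancel₀ _ hcon.ne' 
    rw [h3] at h2
    linarith
  · have h2 := key2 (-1 / b)
    have e1 : a + 2 * (-1 / b * ‖z‖ ^ 2) + (-1 / b) ^ 2 * ‖z‖ ^ 2 * b = a - ‖z‖ ^ 2 / b := by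
      field_simp
      ring
    rw [e1] at h2
    have h3 : ‖z‖ ^ 2 / b ≤ a := by linarith
    rwa [div_le_iff₀ hb1] at h3

/-- `|τ T| ≤ ‖T‖ τ(E)` for `T ∈ E B(H) E` -/
theorem PosF.corner (h : PosF τ) {E T : H →L[ℂ] H} (hE : PJ E) (hT : E * T * E = T) :
    ‖τ T‖ ≤ ‖T‖ * (τ E).re := by
  have hE0 : 0 ≤ (τ E).re := (h.nonneg hE.nonneg).1
  have hTE : T * E = T := by
    rw [← hT, mul_assoc, hE.idem]
  have hET : E * T = T := by
    rw [← hT, ← mul_assoc, ← mul_assoc, hE.idem]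
  have h1 := h.cs E T
  have e1 : star E * T = T := by rw [hE.sa, hET]
  have e2 : star E * E = E := by rw [hE.sa, hE.idem]
  rw [e1, e2] at h1
  -- `T⋆ T ≤ ‖T‖² E`
  have h2 : star T * T ≤ (‖T‖ ^ 2 : ℝ) • E := by
    have h3 : star T * T ≤ (‖star T * T‖ : ℝ) • (1 : H →L[ℂ] H) := by
      have := (IsSelfAdjoint.star_mul_self T).le_algebraMap_norm_self
      rwa [Algebra.algebraMap_eq_smul_one] at this
    have h4 := star_left_conjugate_le_conjugate h3 E
    have e3 : star E * (star T * T) * E = star T * T := by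
      rw [hE.sa, mul_assoc, mul_assoc, hTE, ← mul_assoc]
      have : E * star T = star T := by
        have := congrArg star hTE
        rwa [star_mul, hE.sa] at this
      rw [this]
    have e4 : star E * ((‖star T * T‖ : ℝ) • (1 : H →L[ℂ] H)) * E = (‖T‖ ^ 2 : ℝ) • E := by
      rw [mul_smul_comm, mul_one, smul_mul_assoc, e2, CStarRing.norm_star_mul_self, sq]
    rwa [e3, e4] at h4
  have h5 := h.mono h2
  have e5 : (τ ((‖T‖ ^ 2 : ℝ) • E)).re = ‖T‖ ^ 2 * (τ E).re := by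
    have : ((‖T‖ ^ 2 : ℝ) • E : H →L[ℂ] H) = ((‖T‖ ^ 2 : ℝ) : ℂ) • E := by
      rw [Complex.coe_smul]
    rw [this, map_smul, smul_eq_mul, Complex.re_ofReal_mul]
  rw [e5] at h5
  have h6 : ‖τ T‖ ^ 2 ≤ (‖T‖ * (τ E).re) ^ 2 := by
    calc ‖τ T‖ ^ 2 ≤ (τ E).re * (τ (star T * T)).re := h1
      _ ≤ (τ E).re * (‖T‖ ^ 2 * (τ E).re) := mul_le_mul_of_nonneg_left h5 hE0
      _ = (‖T‖ * (τ E).re) ^ 2 := by ring
  exact (pow_le_pow_iff_left₀ (norm_nonneg _) (mul_nonneg (norm_nonneg _) hE0) two_ne_zero).mp h6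

end Pool.Agent.KKS

end

section

/-!
# La: the function L: resolvents
-/


open Filter Topology

namespace Pool.Agent.KKS

variable {H : Type*} [NormedAddCommGroup H] [InnerProductSpace ℂ H] [CompleteSpace H]
variable {R : VonNeumannAlgebra H} {τ : (H →L[ℂ] H) →L[ℂ] ℂ}

/-- `(1 + t² X²)⁻¹` -/
noncomputable def Rt (X : H →L[ℂ] H) (t : ℝ) : H →L[ℂ] H :=
  Ring.inverse (1 + ((t : ℂ) ^ 2) • (X * X))

/-- `L(X) = ∫₀¹ τ (X (1 + t² X²)⁻¹) dt` -/
noncomputable def Lf (τ : (H →L[ℂ] H) →L[ℂ] ℂ) (X : H →L[ℂ] H) : ℝ :=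
  ∫ t in (0 : ℝ)..1, (τ (X * Rt X t)).re

private theorem La_star_D {X : H →L[ℂ] H} (hX : star X = X) (t : ℝ) :
    star (1 + ((t : ℂ) ^ 2) • (X * X)) = 1 + ((t : ℂ) ^ 2) • (X * X) := by
  rw [star_add, star_one, star_smul, star_mul, hX]
  congr 2
  rw [star_pow]
  congr 1
  exact Complex.conj_ofReal t

private theorem La_norm_D {X : H →L[ℂ] H} (hX : star X = X) (t : ℝ) (ξ : H) :
    ‖ξ‖ ≤ ‖(1 + ((t : ℂ) ^ 2) • (X * X)) ξ‖ := by
  have h1 : inner ℂ ξ ((X * X) ξ) = ((‖X ξ‖ ^ 2 : ℝ) : ℂ) := by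
    rw [mul_apply_eq_comp]
    have : inner ℂ ξ (X (X ξ)) = inner ℂ (star X ξ) (X ξ) := by
      rw [ContinuousLinearMap.star_eq_adjoint, ContinuousLinearMap.adjoint_inner_left]
    rw [this, hX, inner_self_eq_norm_sq_to_K]
    simp
  have h2 : (inner ℂ ξ ((1 + ((t : ℂ) ^ 2) • (X * X)) ξ)).re = ‖ξ‖ ^ 2 + t ^ 2 * ‖X ξ‖ ^ 2 := by
    rw [add_apply, one_apply_eq_self,
      smul_apply, inner_add_right, inner_smul_right, h1,
      inner_self_eq_norm_sq_to_K]
    rw [← Complex.ofReal_pow, ← Complex.ofReal_mul]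
    simp [← Complex.ofReal_pow]
  have h3 : (inner ℂ ξ ((1 + ((t : ℂ) ^ 2) • (X * X)) ξ)).re ≤
      ‖ξ‖ * ‖(1 + ((t : ℂ) ^ 2) • (X * X)) ξ‖ := by
    refine le_trans (Complex.re_le_norm _) ?_
    exact norm_inner_le_norm _ _
  rw [h2] at h3
  by_cases h0 : ‖ξ‖ = 0
  · rw [h0]
    exact norm_nonneg _
  · have hpos : 0 < ‖ξ‖ := lt_of_le_of_ne (norm_nonneg _) (Ne.symm h0)
    have h4 : ‖ξ‖ * ‖ξ‖ ≤ ‖ξ‖ * ‖(1 + ((t : ℂ) ^ 2) • (X * X)) ξ‖ := by
      nlinarith [mul_nonneg (sq_nonneg t) (sq_nonneg ‖X ξ‖)]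
    exact le_of_mul_le_mul_left h4 hpos

theorem Rt_isUnit {X : H →L[ℂ] H} (hX : star X = X) (t : ℝ) :
    IsUnit (1 + ((t : ℂ) ^ 2) • (X * X)) := by
  have h0 : 0 ≤ ((t : ℂ) ^ 2) • (X * X) := by
    have h1 : (0 : H →L[ℂ] H) ≤ X * X := by
      have := star_mul_self_nonneg X
      rwa [hX] at this
    have h2 : ((t : ℂ) ^ 2) • (X * X) = (t ^ 2 : ℝ) • (X * X) := by
      rw [← Complex.ofReal_pow]
      rfl
    rw [h2]
    exact smul_nonneg (sq_nonneg t) h1
  exact CStarAlgebra.isUnit_of_le (a := (1 : H →L[ℂ] H)) (by simpa using h0) 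

theorem Rt_left {X : H →L[ℂ] H} (hX : star X = X) (t : ℝ) :
    Rt X t * (1 + ((t : ℂ) ^ 2) • (X * X)) = 1 := Ring.inverse_mul_cancel _ (Rt_isUnit hX t)

theorem Rt_right {X : H →L[ℂ] H} (hX : star X = X) (t : ℝ) :
    (1 + ((t : ℂ) ^ 2) • (X * X)) * Rt X t = 1 := Ring.mul_inverse_cancel _ (Rt_isUnit hX t)

theorem Rt_norm {X : H →L[ℂ] H} (hX : star X = X) (t : ℝ) : ‖Rt X t‖ ≤ 1 := by
  refine ContinuousLinearMap.opNorm_le_bound _ zero_le_one fun ξ => ?_
  rw [one_mul]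
  refine le_trans (La_norm_D hX t (Rt X t ξ)) ?_
  rw [← mul_apply_eq_comp, Rt_right hX t, one_apply_eq_self]

theorem Rt_sa {X : H →L[ℂ] H} (hX : star X = X) (t : ℝ) : star (Rt X t) = Rt X t := by
  have h1 : (1 + ((t : ℂ) ^ 2) • (X * X)) * star (Rt X t) = 1 := by
    have := congrArg star (Rt_left hX t)
    rwa [star_mul, star_one, La_star_D hX t] at this
  calc star (Rt X t) = (Rt X t * (1 + ((t : ℂ) ^ 2) • (X * X))) * star (Rt X t) := by
        rw [Rt_left hX t, one_mul]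
    _ = Rt X t := by rw [mul_assoc, h1, mul_one]

theorem Rt_comm {X Y : H →L[ℂ] H} (hX : star X = X) (hY : Y * X = X * Y) (t : ℝ) :
    Y * Rt X t = Rt X t * Y := by
  have h1 : Y * (1 + ((t : ℂ) ^ 2) • (X * X)) = (1 + ((t : ℂ) ^ 2) • (X * X)) * Y := by
    rw [mul_add, add_mul, mul_one, one_mul, mul_smul_comm, smul_mul_assoc, ← mul_assoc, hY,
      mul_assoc, hY, mul_assoc]
  calc Y * Rt X t = Rt X t * ((1 + ((t : ℂ) ^ 2) • (X * X)) * Y) * Rt X t := by
        rw [← mul_assoc, Rt_left hX t, one_mul]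
    _ = Rt X t * Y := by rw [← h1, mul_assoc, mul_assoc, Rt_right hX t, mul_one]

theorem Rt_mem {X : H →L[ℂ] H} (hX : X ∈ R) (t : ℝ) : Rt X t ∈ R := by
  apply mem_of_comm
  intro S hS
  have h1 : S * (1 + ((t : ℂ) ^ 2) • (X * X)) = (1 + ((t : ℂ) ^ 2) • (X * X)) * S := by
    rw [mul_add, add_mul, mul_one, one_mul, mul_smul_comm, smul_mul_assoc, ← mul_assoc, hS X hX,
      mul_assoc, hS X hX, mul_assoc]
  by_cases hu : IsUnit (1 + ((t : ℂ) ^ 2) • (X * X))
  · have hl : Rt X t * (1 + ((t : ℂ) ^ 2) • (X * X)) = 1 := Ring.inverse_mul_cancel _ hu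
    have hr : (1 + ((t : ℂ) ^ 2) • (X * X)) * Rt X t = 1 := Ring.mul_inverse_cancel _ hu
    calc S * Rt X t = Rt X t * ((1 + ((t : ℂ) ^ 2) • (X * X)) * S) * Rt X t := by
          rw [← mul_assoc, hl, one_mul]
      _ = Rt X t * S := by rw [← h1, mul_assoc, mul_assoc, hr, mul_one]
  · rw [Rt, Ring.inverse_non_unit _ hu, mul_zero, zero_mul]

theorem Rt_cont {X : H →L[ℂ] H} (hX : star X = X) : Continuous (fun t : ℝ => Rt X t) := by
  rw [continuous_iff_continuousAt]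
  intro t
  obtain ⟨u, hu⟩ := Rt_isUnit hX t
  have h1 : ContinuousAt Ring.inverse (1 + ((t : ℂ) ^ 2) • (X * X)) := by
    rw [← hu]
    exact NormedRing.inverse_continuousAt u
  have h2 : ContinuousAt (fun t : ℝ => 1 + ((t : ℂ) ^ 2) • (X * X)) t := by
    fun_prop
  exact ContinuousAt.comp (f := fun t : ℝ => 1 + ((t : ℂ) ^ 2) • (X * X)) h1 h2

/-- the derivative of `t (1 + t² X²)⁻¹` is `R_t - 2 t² X² R_t²` -/
theorem Rt_deriv {X : H →L[ℂ] H} (hX : star X = X) (t : ℝ) :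
    HasDerivAt (fun t : ℝ => (t : ℂ) • Rt X t)
      (Rt X t - (2 * (t : ℂ) ^ 2) • (X * X * Rt X t * Rt X t)) t := by
  have hc : HasDerivAt (fun t : ℝ => (t : ℂ)) 1 t := Complex.ofRealCLM.hasDerivAt
  have hc2 : HasDerivAt (fun t : ℝ => (t : ℂ) ^ 2) (2 * (t : ℂ)) t := by
    have h0 : HasDerivAt (fun t : ℝ => (t : ℂ) ^ 2) _ t := hc.pow 2
    exact h0.congr_deriv (by simp)
  have hD : HasDerivAt (fun t : ℝ => 1 + ((t : ℂ) ^ 2) • (X * X)) ((2 * (t : ℂ)) • (X * X)) t :=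
    (hc2.smul_const (X * X)).const_add 1
  obtain ⟨u, hu⟩ := Rt_isUnit hX t
  have hi := hasFDerivAt_ringInverse (𝕜 := ℝ) u
  have hiu : ((u⁻¹ : (H →L[ℂ] H)ˣ) : H →L[ℂ] H) = Rt X t := by
    rw [Rt, ← hu, Ring.inverse_unit]
  have hR : HasDerivAt (fun t : ℝ => Rt X t) (-(Rt X t * ((2 * (t : ℂ)) • (X * X)) * Rt X t)) t := by
    have hi' : HasFDerivAt Ring.inverse
        (-ContinuousLinearMap.mulLeftRight ℝ (H →L[ℂ] H) (Rt X t) (Rt X t))
        (1 + ((t : ℂ) ^ 2) • (X * X)) := by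
      rw [← hiu, ← hu]
      exact hi
    have h0 : HasDerivAt (fun t : ℝ => Rt X t) _ t := hi'.comp_hasDerivAt t hD
    exact h0.congr_deriv (by simp)
  have h1 := hc.smul hR
  have h2 : Rt X t * ((2 * (t : ℂ)) • (X * X)) * Rt X t =
      (2 * (t : ℂ)) • (X * X * Rt X t * Rt X t) := by
    rw [mul_smul_comm, smul_mul_assoc]
    congr 2
    exact (Rt_comm hX (by rw [mul_assoc]) t).symm
  rw [h2] at h1
  refine h1.congr_deriv ?_
  rw [one_smul, smul_neg, smul_smul, add_comm, ← sub_eq_add_neg]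
  congr 2
  ring

end Pool.Agent.KKS

end

section

/-!
# L2: first order expansion of L
-/


open Filter Topology

namespace Pool.Agent.KKS

variable {H : Type*} [NormedAddCommGroup H] [InnerProductSpace ℂ H] [CompleteSpace H]
variable {R : VonNeumannAlgebra H} {τ : (H →L[ℂ] H) →L[ℂ] ℂ}

/-- the real part of `τ (Z ·)` as a real functional -/
private noncomputable def L2_Gf (τ : (H →L[ℂ] H) →L[ℂ] ℂ) (Z : H →L[ℂ] H) : (H →L[ℂ] H) →L[ℝ] ℝ :=
  (Complex.reCLM.comp (τ.restrictScalars ℝ)).comp (ContinuousLinearMap.mul ℝ (H →L[ℂ] H) Z)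

private theorem L2_Gf_apply (Z T : H →L[ℂ] H) : L2_Gf τ Z T = (τ (Z * T)).re := rfl

private theorem L2_Rt_diff {X Y : H →L[ℂ] H} (hX : star X = X) (hY : star Y = Y) (t : ℝ) :
    Rt Y t - Rt X t = -(((t : ℂ) ^ 2) • (Rt Y t * (Y * Y - X * X) * Rt X t)) := by
  have h1 : Rt Y t - Rt X t = Rt Y t * ((1 + ((t : ℂ) ^ 2) • (X * X)) -
      (1 + ((t : ℂ) ^ 2) • (Y * Y))) * Rt X t := by
    rw [mul_sub, sub_mul, mul_assoc, Rt_right hX, mul_one, Rt_left hY, one_mul]
  rw [h1, add_sub_add_left_eq_sub, ← smul_sub, mul_smul_comm, smul_mul_assoc, ← smul_neg]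
  congr 1
  rw [← neg_mul, ← mul_neg, neg_sub]

private theorem L2_pointwise (h : IsTrace R τ) {K : ℝ} {X Y : H →L[ℂ] H} (hXR : X ∈ R) (hYR : Y ∈ R)
    (hX : star X = X) (hY : star Y = Y) (hXK : ‖X‖ ≤ K) (hYK : ‖Y‖ ≤ K) {t : ℝ} (h0 : 0 ≤ t)
    (h1 : t ≤ 1) :
    |(τ (Y * Rt Y t)).re - (τ (X * Rt X t)).re -
      (τ ((Y - X) * (Rt X t - (2 * (t : ℂ) ^ 2) • (X * X * Rt X t * Rt X t)))).re| ≤
      ‖τ‖ * (3 * K + 4 * K ^ 3) * ‖Y - X‖ ^ 2 := by
  have hK : 0 ≤ K := (norm_nonneg X).trans hXK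
  obtain ⟨Z, hZ⟩ : ∃ Z, Z = Y - X := ⟨_, rfl⟩
  have hYZ : Y = X + Z := by rw [hZ]; abel
  have hZR : Z ∈ R := by rw [hZ]; exact sub_mem hYR hXR
  obtain ⟨P, hP⟩ : ∃ P, P = Rt X t := ⟨_, rfl⟩
  obtain ⟨Q, hQ⟩ : ∃ Q, Q = Rt Y t := ⟨_, rfl⟩
  have hPR : P ∈ R := by rw [hP]; exact Rt_mem hXR t
  have hPn : ‖P‖ ≤ 1 := by rw [hP]; exact Rt_norm hX t
  have hQn : ‖Q‖ ≤ 1 := by rw [hQ]; exact Rt_norm hY t
  have hXP : X * P = P * X := by rw [hP]; exact Rt_comm hX rfl t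
  have hd : Q - P = -(((t : ℂ) ^ 2) • (Q * (Y * Y - X * X) * P)) := by
    rw [hP, hQ]; exact L2_Rt_diff hX hY t
  have ht2 : ‖((t : ℂ) ^ 2)‖ ≤ 1 := by
    rw [norm_pow, Complex.norm_real, Real.norm_eq_abs, abs_of_nonneg h0]
    exact pow_le_one₀ h0 h1
  obtain ⟨W, hW⟩ : ∃ W, W = Y * Y - X * X := ⟨_, rfl⟩
  rw [← hW] at hd
  have hWn : ‖W‖ ≤ 2 * K * ‖Z‖ := by
    have : W = Y * Z + Z * X := by rw [hW, hZ]; noncomm_ring
    rw [this]
    refine (norm_add_le _ _).trans ?_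
    have a1 : ‖Y * Z‖ ≤ K * ‖Z‖ := (norm_mul_le _ _).trans (by gcongr)
    have a2 : ‖Z * X‖ ≤ ‖Z‖ * K := (norm_mul_le _ _).trans (by gcongr)
    linarith
  have hdn : ‖Q - P‖ ≤ 2 * K * ‖Z‖ := by
    rw [hd, norm_neg, norm_smul]
    have a1 : ‖Q * W * P‖ ≤ 1 * (2 * K * ‖Z‖) * 1 := by
      refine (norm_mul_le _ _).trans ?_
      have : ‖Q * W‖ ≤ 1 * (2 * K * ‖Z‖) := (norm_mul_le _ _).trans (by gcongr)
      gcongr
    calc ‖((t : ℂ) ^ 2)‖ * ‖Q * W * P‖ ≤ 1 * (1 * (2 * K * ‖Z‖) * 1) := by gcongr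
      _ = 2 * K * ‖Z‖ := by ring
  -- the error term
  obtain ⟨E, hE⟩ : ∃ E, E = Z * (Q - P) - ((t : ℂ) ^ 2) • (X * P * (Z * Z) * P) -
    ((t : ℂ) ^ 2) • (X * (Q - P) * W * P) := ⟨_, rfl⟩
  have hEn : ‖E‖ ≤ (3 * K + 4 * K ^ 3) * ‖Z‖ ^ 2 := by
    have a1 : ‖Z * (Q - P)‖ ≤ ‖Z‖ * (2 * K * ‖Z‖) := (norm_mul_le _ _).trans (by gcongr)
    have a2 : ‖X * P * (Z * Z) * P‖ ≤ K * 1 * (‖Z‖ * ‖Z‖) * 1 := by
      refine (norm_mul_le _ _).trans ?_
      have b1 : ‖X * P‖ ≤ K * 1 := (norm_mul_le _ _).trans (by gcongr)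
      have b2 : ‖Z * Z‖ ≤ ‖Z‖ * ‖Z‖ := norm_mul_le _ _
      have b3 : ‖X * P * (Z * Z)‖ ≤ K * 1 * (‖Z‖ * ‖Z‖) := (norm_mul_le _ _).trans (by gcongr)
      gcongr
    have a3 : ‖X * (Q - P) * W * P‖ ≤ K * (2 * K * ‖Z‖) * (2 * K * ‖Z‖) * 1 := by
      refine (norm_mul_le _ _).trans ?_
      have b1 : ‖X * (Q - P)‖ ≤ K * (2 * K * ‖Z‖) := (norm_mul_le _ _).trans (by gcongr)
      have b3 : ‖X * (Q - P) * W‖ ≤ K * (2 * K * ‖Z‖) * (2 * K * ‖Z‖) :=
        (norm_mul_le _ _).trans (by gcongr)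
      gcongr
    have a2' : ‖((t : ℂ) ^ 2) • (X * P * (Z * Z) * P)‖ ≤ 1 * (K * 1 * (‖Z‖ * ‖Z‖) * 1) := by
      rw [norm_smul]
      gcongr
    have a3' : ‖((t : ℂ) ^ 2) • (X * (Q - P) * W * P)‖ ≤
        1 * (K * (2 * K * ‖Z‖) * (2 * K * ‖Z‖) * 1) := by
      rw [norm_smul]
      gcongr
    rw [hE]
    refine (norm_sub_le _ _).trans ?_
    have a4 := norm_sub_le (Z * (Q - P)) (((t : ℂ) ^ 2) • (X * P * (Z * Z) * P))
    nlinarith
  have hmain : Y * Q - X * P = E + Z * P - ((t : ℂ) ^ 2) • (X * P * (Z * X) * P) -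
      ((t : ℂ) ^ 2) • (X * P * (X * Z) * P) := by
    have e1 : Y * Q - X * P = Z * (Q - P) + Z * P + X * (Q - P) := by
      rw [hYZ]; noncomm_ring
    have e2 : X * (Q - P) = -(((t : ℂ) ^ 2) • (X * (Q - P) * W * P)) -
        ((t : ℂ) ^ 2) • (X * P * W * P) := by
      conv_lhs => rw [hd]
      rw [mul_neg, mul_smul_comm, ← neg_add', ← smul_add]
      congr 2
      noncomm_ring
    have e3 : X * P * W * P = X * P * (Z * Z) * P + X * P * (Z * X) * P + X * P * (X * Z) * P := by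
      rw [hW, hYZ]; noncomm_ring
    rw [e1, e2, e3, hE, smul_add, smul_add]
    abel
  have ht1 : τ (X * P * (Z * X) * P) = τ (Z * (X * X * P * P)) := by
    have e1 : X * P * (Z * X) * P = (X * P) * (Z * (X * P)) := by noncomm_ring
    have e2 : (Z * (X * P)) * (X * P) = Z * (X * X * P * P) := by
      rw [mul_assoc]
      congr 1
      calc X * P * (X * P) = X * (P * X) * P := by noncomm_ring
        _ = X * X * P * P := by rw [← hXP]; noncomm_ring
    rw [e1, h.tracial (X * P) (mul_mem hXR hPR) (Z * (X * P)) (mul_mem hZR (mul_mem hXR hPR)), e2]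
  have ht2' : τ (X * P * (X * Z) * P) = τ (Z * (X * X * P * P)) := by
    have e1 : X * P * (X * Z) * P = (X * P * X) * (Z * P) := by noncomm_ring
    have e2 : (Z * P) * (X * P * X) = Z * (X * X * P * P) := by
      rw [mul_assoc]
      congr 1
      calc P * (X * P * X) = (P * X) * (P * X) := by noncomm_ring
        _ = (X * P) * (X * P) := by rw [hXP]
        _ = X * (P * X) * P := by noncomm_ring
        _ = X * X * P * P := by rw [← hXP]; noncomm_ring
    rw [e1, h.tracial (X * P * X) (mul_mem (mul_mem hXR hPR) hXR) (Z * P) (mul_mem hZR hPR), e2]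
  have hτ : τ (Y * Q) - τ (X * P) - τ (Z * (P - (2 * (t : ℂ) ^ 2) • (X * X * P * P))) = τ E := by
    rw [← map_sub, hmain, map_sub, map_sub, map_add, map_smul, map_smul, ht1, ht2', mul_sub,
      mul_smul_comm, map_sub, map_smul, smul_eq_mul, smul_eq_mul]
    ring
  have hfin : (τ (Y * Q)).re - (τ (X * P)).re -
      (τ (Z * (P - (2 * (t : ℂ) ^ 2) • (X * X * P * P)))).re = (τ E).re := by
    rw [← hτ, Complex.sub_re, Complex.sub_re]
  rw [← hZ, ← hP, ← hQ, hfin]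
  calc |(τ E).re| ≤ ‖τ E‖ := Complex.abs_re_le_norm _
    _ ≤ ‖τ‖ * ‖E‖ := τ.le_opNorm E
    _ ≤ ‖τ‖ * ((3 * K + 4 * K ^ 3) * ‖Z‖ ^ 2) := by gcongr
    _ = ‖τ‖ * (3 * K + 4 * K ^ 3) * ‖Z‖ ^ 2 := by ring

/-- `L(Y) - L(X) = τ ((Y - X)(1 + X²)⁻¹) + O(‖Y - X‖²)`.
With `Z = Y - X`, `R_t = Rt X t`, `R'_t = Rt Y t`: `R'_t - R_t = - t² R'_t (Y² - X²) R_t`, so
`Y R'_t - X R_t = Z R_t - t² X R_t (Z X + X Z) R_t + O(‖Z‖²)`, whose trace is
`τ (Z (R_t - 2 t² X² R_t²))`, and this is the derivative of `t ↦ τ (Z t R_t)`. -/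
theorem Lf_expand (h : IsTrace R τ) (K : ℝ) : ∃ C : ℝ, ∀ X ∈ R, ∀ Y ∈ R, star X = X → star Y = Y →
    ‖X‖ ≤ K → ‖Y‖ ≤ K →
      |Lf τ Y - Lf τ X - (τ ((Y - X) * Rt X 1)).re| ≤ C * ‖Y - X‖ ^ 2 := by
  refine ⟨‖τ‖ * (3 * K + 4 * K ^ 3), ?_⟩
  intro X hXR Y hYR hX hY hXK hYK
  have hc : ∀ Z X : H →L[ℂ] H, star X = X → Continuous (fun t : ℝ => (τ (Z * Rt X t)).re) := by
    intro Z X hX
    exact (L2_Gf τ Z).continuous.comp (Rt_cont hX)
  have hc2 : Continuous (fun t : ℝ =>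
      (τ ((Y - X) * (Rt X t - (2 * (t : ℂ) ^ 2) • (X * X * Rt X t * Rt X t)))).re) := by
    refine (L2_Gf τ (Y - X)).continuous.comp ?_
    have := Rt_cont hX
    fun_prop
  have hint : ∫ t in (0 : ℝ)..1,
      (τ ((Y - X) * (Rt X t - (2 * (t : ℂ) ^ 2) • (X * X * Rt X t * Rt X t)))).re =
      (τ ((Y - X) * Rt X 1)).re := by
    have hd : ∀ t : ℝ, HasDerivAt (fun t : ℝ => L2_Gf τ (Y - X) ((t : ℂ) • Rt X t))
        (τ ((Y - X) * (Rt X t - (2 * (t : ℂ) ^ 2) • (X * X * Rt X t * Rt X t)))).re t := by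
      intro t
      exact (L2_Gf τ (Y - X)).hasFDerivAt.comp_hasDerivAt t (Rt_deriv hX t)
    rw [intervalIntegral.integral_eq_sub_of_hasDerivAt (fun t _ => hd t)
      (hc2.intervalIntegrable 0 1)]
    rw [L2_Gf_apply, L2_Gf_apply]
    simp
  have e : Lf τ Y - Lf τ X - (τ ((Y - X) * Rt X 1)).re =
      ∫ t in (0 : ℝ)..1, ((τ (Y * Rt Y t)).re - (τ (X * Rt X t)).re -
        (τ ((Y - X) * (Rt X t - (2 * (t : ℂ) ^ 2) • (X * X * Rt X t * Rt X t)))).re) := by
    rw [intervalIntegral.integral_sub, intervalIntegral.integral_sub, hint]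
    · rfl
    · exact (hc Y Y hY).intervalIntegrable 0 1
    · exact (hc X X hX).intervalIntegrable 0 1
    · exact ((hc Y Y hY).sub (hc X X hX)).intervalIntegrable 0 1
    · exact hc2.intervalIntegrable 0 1
  rw [e, ← Real.norm_eq_abs]
  have := intervalIntegral.norm_integral_le_of_norm_le_const (a := (0 : ℝ)) (b := 1)
    (C := ‖τ‖ * (3 * K + 4 * K ^ 3) * ‖Y - X‖ ^ 2)
    (f := fun t : ℝ => ((τ (Y * Rt Y t)).re - (τ (X * Rt X t)).re -
        (τ ((Y - X) * (Rt X t - (2 * (t : ℂ) ^ 2) • (X * X * Rt X t * Rt X t)))).re)) (by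
      intro t ht
      rw [Set.uIoc_of_le zero_le_one] at ht
      rw [Real.norm_eq_abs]
      exact L2_pointwise h hXR hYR hX hY hXK hYK ht.1.le ht.2)
  simpa using this

end Pool.Agent.KKS

end

section

/-!
# L2a: derivative of L
-/


open Filter Topology

namespace Pool.Agent.KKS

variable {H : Type*} [NormedAddCommGroup H] [InnerProductSpace ℂ H] [CompleteSpace H]
variable {R : VonNeumannAlgebra H} {τ : (H →L[ℂ] H) →L[ℂ] ℂ}

/-- the real part of `τ (· * Z)` as a real functional -/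
private noncomputable def L2a_Gr (τ : (H →L[ℂ] H) →L[ℂ] ℂ) (Z : H →L[ℂ] H) : (H →L[ℂ] H) →L[ℝ] ℝ :=
  (Complex.reCLM.comp (τ.restrictScalars ℝ)).comp
    ((ContinuousLinearMap.mul ℝ (H →L[ℂ] H)).flip Z)

private theorem L2a_Gr_apply (Z T : H →L[ℂ] H) : L2a_Gr τ Z T = (τ (T * Z)).re := rfl

/-- (6.1) -/
theorem Lf_hasDeriv (h : IsTrace R τ) {X : ℝ → H →L[ℂ] H} {X' : H →L[ℂ] H} {s : ℝ}
    (hX : HasDerivAt X X' s) (hm : ∀ r, X r ∈ R) (hsa : ∀ r, star (X r) = X r) :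
    HasDerivAt (fun r => Lf τ (X r)) (τ (X' * Rt (X s) 1)).re s := by
  obtain ⟨C, hC⟩ := Lf_expand (τ := τ) h (‖X s‖ + 1)
  have hg : HasDerivAt (fun r => L2a_Gr τ (Rt (X s) 1) (X r)) (τ (X' * Rt (X s) 1)).re s :=
    (L2a_Gr τ (Rt (X s) 1)).hasFDerivAt.comp_hasDerivAt s hX
  have hO : (fun r => X r - X s) =O[𝓝 s] fun r => r - s := hX.isBigO_sub
  have hO2 : (fun r => ‖X r - X s‖ ^ 2) =O[𝓝 s] fun r => (r - s) ^ 2 := hO.norm_left.pow 2
  have ho : (fun r : ℝ => (r - s) ^ 2) =o[𝓝 s] fun r => r - s := by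
    have h1 : (fun r : ℝ => r - s) =o[𝓝 s] fun _ => (1 : ℝ) := by
      rw [Asymptotics.isLittleO_one_iff]
      have : Tendsto (fun r : ℝ => r - s) (𝓝 s) (𝓝 (s - s)) := by
        exact (continuous_id.sub continuous_const).tendsto s
      simpa using this
    have h2 := h1.mul_isBigO (Asymptotics.isBigO_refl (fun r : ℝ => r - s) (𝓝 s))
    simpa [pow_two] using h2
  have hev : ∀ᶠ r in 𝓝 s, ‖X r‖ ≤ ‖X s‖ + 1 := by
    have h1 : Tendsto (fun r => ‖X r‖) (𝓝 s) (𝓝 ‖X s‖) := hX.continuousAt.norm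
    exact (h1.eventually (gt_mem_nhds (lt_add_one _))).mono fun r hr => le_of_lt hr
  have herr : (fun r => Lf τ (X r) - Lf τ (X s) - (τ ((X r - X s) * Rt (X s) 1)).re) =o[𝓝 s]
      fun r => r - s := by
    refine Asymptotics.IsBigO.trans_isLittleO ?_ (hO2.trans_isLittleO ho)
    refine Asymptotics.IsBigO.of_bound C ?_
    filter_upwards [hev] with r hr
    have h1 := hC (X s) (hm s) (X r) (hm r) (hsa s) (hsa r) (by linarith) hr
    have h2 : ‖‖X r - X s‖ ^ 2‖ = ‖X r - X s‖ ^ 2 := by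
      rw [Real.norm_eq_abs, abs_of_nonneg (sq_nonneg _)]
    rw [h2, Real.norm_eq_abs]
    exact h1
  rw [hasDerivAt_iff_isLittleO] at hg ⊢
  have := herr.add hg
  refine this.congr_left fun r => ?_
  rw [L2a_Gr_apply, L2a_Gr_apply, sub_mul, map_sub, Complex.sub_re]
  ring

end Pool.Agent.KKS

end

section

/-!
# L3: rules for L
-/


open Filter Topology

namespace Pool.Agent.KKS

variable {H : Type*} [NormedAddCommGroup H] [InnerProductSpace ℂ H] [CompleteSpace H]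
variable {R : VonNeumannAlgebra H} {τ : (H →L[ℂ] H) →L[ℂ] ℂ}

private theorem L3_cont3 (Z : H →L[ℂ] H) {X : H →L[ℂ] H} (hX : star X = X) :
    Continuous (fun t : ℝ => (τ (Z * Rt X t)).re) := by
  have := Rt_cont hX
  fun_prop

theorem Lf_neg (X : H →L[ℂ] H) : Lf τ (-X) = -Lf τ X := by
  unfold Lf
  rw [← intervalIntegral.integral_neg]
  congr 1
  funext t
  have : Rt (-X) t = Rt X t := by
    unfold Rt
    rw [neg_mul_neg]
  rw [this, neg_mul, map_neg, Complex.neg_re]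

theorem Lf_zero : Lf τ (0 : H →L[ℂ] H) = 0 := by
  unfold Lf
  simp

/-- `L(X + Y) = L(X) + L(Y)` for orthogonal `X`, `Y` -/
theorem Lf_add {X Y : H →L[ℂ] H} (hX : star X = X) (hY : star Y = Y) (h0 : X * Y = 0) :
    Lf τ (X + Y) = Lf τ X + Lf τ Y := by
  have h0' : Y * X = 0 := by
    have := congrArg star h0
    rwa [star_mul, hX, hY, star_zero] at this
  have hXY : star (X + Y) = X + Y := by rw [star_add, hX, hY]
  unfold Lf
  rw [← intervalIntegral.integral_add ((L3_cont3 X hX).intervalIntegrable 0 1)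
    ((L3_cont3 Y hY).intervalIntegrable 0 1)]
  congr 1
  funext t
  rw [← Complex.add_re, ← map_add]
  congr 2
  have e1 : X * Rt X t * Y = 0 := by
    rw [Rt_comm hX rfl t, mul_assoc, h0, mul_zero]
  have e2 : Y * Rt Y t * X = 0 := by
    rw [Rt_comm hY rfl t, mul_assoc, h0', mul_zero]
  have e3 : (X * Rt X t + Y * Rt Y t) * (1 + ((t : ℂ) ^ 2) • ((X + Y) * (X + Y))) = X + Y := by
    have e4 : (X + Y) * (X + Y) = X * X + Y * Y := by
      rw [add_mul, mul_add, mul_add, h0, h0']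
      simp
    have e5 : X * Rt X t * (1 + ((t : ℂ) ^ 2) • (X * X)) = X := by
      rw [mul_assoc, Rt_left hX, mul_one]
    have e6 : Y * Rt Y t * (1 + ((t : ℂ) ^ 2) • (Y * Y)) = Y := by
      rw [mul_assoc, Rt_left hY, mul_one]
    have e7 : X * Rt X t * (Y * Y) = 0 := by rw [← mul_assoc, e1, zero_mul]
    have e8 : Y * Rt Y t * (X * X) = 0 := by rw [← mul_assoc, e2, zero_mul]
    calc (X * Rt X t + Y * Rt Y t) * (1 + ((t : ℂ) ^ 2) • ((X + Y) * (X + Y)))
        = X * Rt X t * (1 + ((t : ℂ) ^ 2) • (X * X)) +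
          Y * Rt Y t * (1 + ((t : ℂ) ^ 2) • (Y * Y)) +
          ((t : ℂ) ^ 2) • (X * Rt X t * (Y * Y)) + ((t : ℂ) ^ 2) • (Y * Rt Y t * (X * X)) := by
          rw [e4, smul_add, add_mul, mul_add, mul_add, mul_add, mul_add, mul_add, mul_add,
            mul_smul_comm, mul_smul_comm, mul_smul_comm, mul_smul_comm]
          abel
      _ = X + Y := by rw [e5, e6, e7, e8, smul_zero, add_zero, add_zero]
  calc (X + Y) * Rt (X + Y) t =
      (X * Rt X t + Y * Rt Y t) * ((1 + ((t : ℂ) ^ 2) • ((X + Y) * (X + Y))) * Rt (X + Y) t) := by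
        rw [← mul_assoc, e3]
    _ = X * Rt X t + Y * Rt Y t := by rw [Rt_right hXY, mul_one]

theorem Lf_sum {ι : Type*} (s : Finset ι) {X : ι → H →L[ℂ] H} (hX : ∀ i, star (X i) = X i)
    (h0 : ∀ i j, i ≠ j → X i * X j = 0) : Lf τ (∑ i ∈ s, X i) = ∑ i ∈ s, Lf τ (X i) := by
  classical
  induction s using Finset.induction_on with
  | empty => simp [Lf_zero]
  | insert a s ha ih =>
    rw [Finset.sum_insert ha, Finset.sum_insert ha, ← ih]
    apply Lf_add (hX a)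
    · rw [star_sum]
      exact Finset.sum_congr rfl fun i _ => hX i
    · rw [Finset.mul_sum]
      exact Finset.sum_eq_zero fun i hi => h0 a i fun h => ha (h ▸ hi)

/-- invariance under partial isometries `w` of `R` -/
theorem Lf_conj (h : IsTrace R τ) {w X : H →L[ℂ] H} (hw : w ∈ R) (hX : X ∈ R) (hXs : star X = X)
    (hwX : star w * w * X = X) : Lf τ (w * X * star w) = Lf τ X := by
  have hwX' : X * (star w * w) = X := by
    have := congrArg star hwX
    rwa [star_mul, star_mul, star_star, hXs] at this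
  have hs : star (w * X * star w) = w * X * star w := by
    rw [star_mul, star_mul, star_star, hXs, mul_assoc]
  unfold Lf
  congr 1
  funext t
  have e1 : w * X * Rt X t * star w * (1 + ((t : ℂ) ^ 2) •
      ((w * X * star w) * (w * X * star w))) = w * X * star w := by
    have e2 : (w * X * star w) * (w * X * star w) = w * X * X * star w := by
      calc (w * X * star w) * (w * X * star w) = w * (X * (star w * w)) * X * star w := by
            noncomm_ring
        _ = w * X * X * star w := by rw [hwX']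
    have e3 : w * X * Rt X t * star w * (w * X * X * star w) =
        w * X * Rt X t * (X * X) * star w := by
      calc w * X * Rt X t * star w * (w * X * X * star w) =
          w * X * Rt X t * (star w * w * X) * X * star w := by noncomm_ring
        _ = w * X * Rt X t * (X * X) * star w := by rw [hwX]; noncomm_ring
    rw [e2, mul_add, mul_one, mul_smul_comm, e3, ← smul_mul_assoc, ← add_mul, ← mul_smul_comm,
      ← mul_one (w * X * Rt X t)]
    nth_rewrite 2 [mul_one]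
    rw [← mul_add, mul_assoc (w * X), Rt_left hXs, mul_one]
  have e4 : w * X * star w * Rt (w * X * star w) t = w * X * Rt X t * star w := by
    calc w * X * star w * Rt (w * X * star w) t = w * X * Rt X t * star w * ((1 + ((t : ℂ) ^ 2) •
      ((w * X * star w) * (w * X * star w))) * Rt (w * X * star w) t) := by
          rw [← mul_assoc, e1]
      _ = w * X * Rt X t * star w := by rw [Rt_right hs, mul_one]
  have e5 : w * X * Rt X t * star w = w * (X * Rt X t * star w) := by noncomm_ring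
  have e6 : X * Rt X t * star w * w = X * Rt X t := by
    rw [Rt_comm hXs rfl t, mul_assoc, mul_assoc, hwX']
  rw [e4, e5, h.tracial w hw _ (mul_mem (mul_mem hX (Rt_mem hX t)) (star_mem hw)), e6]

/-- Lipschitz estimate in a corner: `Y R'_t - X R_t = (Y - X) R'_t + X R_t t² (X² - Y²) R'_t` has norm at most
`‖Y - X‖ (1 + 50 t²)` -/
theorem Lf_lip (h : PosF τ) {E X Y : H →L[ℂ] H} (hE : PJ E) (hX : star X = X) (hY : star Y = Y)
    (hXE : E * X * E = X) (hYE : E * Y * E = Y) (hX5 : ‖X‖ ≤ 5) (hY5 : ‖Y‖ ≤ 5) :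
    |Lf τ X - Lf τ Y| ≤ 60 * ‖X - Y‖ * (τ E).re := by
  have hE0 : 0 ≤ (τ E).re := (h.nonneg hE.nonneg).1
  have hcor : ∀ Z : H →L[ℂ] H, star Z = Z → E * Z * E = Z → ∀ t : ℝ,
      E * (Z * Rt Z t) * E = Z * Rt Z t := by
    intro Z hZ hZE t
    have e1 : E * Z = Z := by
      calc E * Z = E * E * Z * E := by
            conv_lhs => rw [← hZE]
            noncomm_ring
        _ = Z := by rw [hE.idem, hZE]
    have e2 : Z * E = Z := by
      calc Z * E = E * Z * (E * E) := by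
            conv_lhs => rw [← hZE]
            noncomm_ring
        _ = Z := by rw [hE.idem, hZE]
    rw [← mul_assoc, e1, Rt_comm hZ rfl t, mul_assoc, e2]
  have hpt : ∀ t : ℝ, 0 ≤ t → t ≤ 1 →
      ‖(τ (X * Rt X t)).re - (τ (Y * Rt Y t)).re‖ ≤ 60 * ‖X - Y‖ * (τ E).re := by
    intro t ht0 ht1
    have hd : X * Rt X t - Y * Rt Y t = (X - Y) * Rt X t -
        ((t : ℂ) ^ 2) • (Y * Rt Y t * (X * X - Y * Y) * Rt X t) := by
      have h1 : Rt X t - Rt Y t = Rt Y t * ((1 + ((t : ℂ) ^ 2) • (Y * Y)) -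
          (1 + ((t : ℂ) ^ 2) • (X * X))) * Rt X t := by
        rw [mul_sub, sub_mul, mul_assoc (Rt Y t) (1 + ((t : ℂ) ^ 2) • (X * X)), Rt_right hX,
          mul_one, Rt_left hY, one_mul]
      have h2 : Rt X t - Rt Y t = -(((t : ℂ) ^ 2) • (Rt Y t * (X * X - Y * Y) * Rt X t)) := by
        rw [h1, add_sub_add_left_eq_sub, ← smul_sub, mul_smul_comm, smul_mul_assoc, ← smul_neg]
        congr 1
        rw [← neg_mul, ← mul_neg, neg_sub]
      calc X * Rt X t - Y * Rt Y t = (X - Y) * Rt X t + Y * (Rt X t - Rt Y t) := by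
            noncomm_ring
        _ = (X - Y) * Rt X t - ((t : ℂ) ^ 2) • (Y * Rt Y t * (X * X - Y * Y) * Rt X t) := by
            rw [h2, mul_neg, mul_smul_comm, ← sub_eq_add_neg]
            simp only [mul_assoc]
    have ht2 : ‖((t : ℂ) ^ 2)‖ ≤ 1 := by
      rw [norm_pow, Complex.norm_real, Real.norm_eq_abs, abs_of_nonneg ht0]
      exact pow_le_one₀ ht0 ht1
    have hXn := Rt_norm hX t
    have hYn := Rt_norm hY t
    have hW : ‖X * X - Y * Y‖ ≤ 10 * ‖X - Y‖ := by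
      have : X * X - Y * Y = X * (X - Y) + (X - Y) * Y := by noncomm_ring
      rw [this]
      refine (norm_add_le _ _).trans ?_
      have a1 : ‖X * (X - Y)‖ ≤ 5 * ‖X - Y‖ := (norm_mul_le _ _).trans (by gcongr)
      have a2 : ‖(X - Y) * Y‖ ≤ ‖X - Y‖ * 5 := (norm_mul_le _ _).trans (by gcongr)
      linarith
    have hn : ‖X * Rt X t - Y * Rt Y t‖ ≤ 60 * ‖X - Y‖ := by
      rw [hd]
      refine (norm_sub_le _ _).trans ?_
      have a1 : ‖(X - Y) * Rt X t‖ ≤ ‖X - Y‖ * 1 := (norm_mul_le _ _).trans (by gcongr)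
      have a2 : ‖Y * Rt Y t‖ ≤ 5 * 1 := (norm_mul_le _ _).trans (by gcongr)
      have a3 : ‖Y * Rt Y t * (X * X - Y * Y)‖ ≤ 5 * 1 * (10 * ‖X - Y‖) :=
        (norm_mul_le _ _).trans (by gcongr)
      have a4 : ‖Y * Rt Y t * (X * X - Y * Y) * Rt X t‖ ≤ 5 * 1 * (10 * ‖X - Y‖) * 1 :=
        (norm_mul_le _ _).trans (by gcongr)
      have a5 : ‖((t : ℂ) ^ 2) • (Y * Rt Y t * (X * X - Y * Y) * Rt X t)‖ ≤
          1 * (5 * 1 * (10 * ‖X - Y‖) * 1) := by
        rw [norm_smul]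
        gcongr
      have := norm_nonneg (X - Y)
      linarith
    rw [← Complex.sub_re, ← map_sub, Real.norm_eq_abs]
    refine (Complex.abs_re_le_norm _).trans ?_
    refine (h.corner hE (T := X * Rt X t - Y * Rt Y t) ?_).trans ?_
    · rw [mul_sub, sub_mul, hcor X hX hXE t, hcor Y hY hYE t]
    · gcongr
  have e : Lf τ X - Lf τ Y =
      ∫ t in (0 : ℝ)..1, ((τ (X * Rt X t)).re - (τ (Y * Rt Y t)).re) := by
    rw [intervalIntegral.integral_sub ((L3_cont3 X hX).intervalIntegrable 0 1)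
      ((L3_cont3 Y hY).intervalIntegrable 0 1)]
    rfl
  rw [e, ← Real.norm_eq_abs]
  have := intervalIntegral.norm_integral_le_of_norm_le_const (a := (0 : ℝ)) (b := 1)
    (C := 60 * ‖X - Y‖ * (τ E).re)
    (f := fun t : ℝ => ((τ (X * Rt X t)).re - (τ (Y * Rt Y t)).re)) (by
      intro t ht
      rw [Set.uIoc_of_le zero_le_one] at ht
      exact hpt t ht.1.le ht.2)
  simpa using this

end Pool.Agent.KKS

end

section

/-!
# L3a: signs
-/


open Filter Topology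

namespace Pool.Agent.KKS

variable {H : Type*} [NormedAddCommGroup H] [InnerProductSpace ℂ H] [CompleteSpace H]
variable {R : VonNeumannAlgebra H} {τ : (H →L[ℂ] H) →L[ℂ] ℂ}

/-- `c` is a self-adjoint operator, bounded below, `s` its sign, `s c ≥ β` -/
structure IsSgn (c s : H →L[ℂ] H) (β : ℝ) : Prop where
  sa : star c = c
  sa' : star s = s
  sq : s * s = 1
  comm : s * c = c * s
  pos : ∀ ξ : H, β * ‖ξ‖ ^ 2 ≤ (inner ℂ ξ (s (c ξ))).re

theorem IsSgn.neg {c s : H →L[ℂ] H} {β : ℝ} (h : IsSgn c s β) : IsSgn (-c) (-s) β := by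
  refine ⟨by rw [star_neg, h.sa], by rw [star_neg, h.sa'], by rw [neg_mul_neg, h.sq],
    by rw [neg_mul_neg, neg_mul_neg, h.comm], fun ξ => ?_⟩
  have := h.pos ξ
  simpa using this

private theorem L3a_nonneg_of {S : H →L[ℂ] H} (hS : star S = S)
    (h : ∀ ξ : H, 0 ≤ (inner ℂ ξ (S ξ)).re) : 0 ≤ S := by
  rw [ContinuousLinearMap.nonneg_iff_isPositive, ContinuousLinearMap.isPositive_def']
  refine ⟨hS, fun ξ => ?_⟩
  rw [ContinuousLinearMap.reApplyInnerSelf_apply, inner_re_symm]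
  exact h ξ

private theorem L3a_of_nonneg {S : H →L[ℂ] H} (h : 0 ≤ S) (ξ : H) : 0 ≤ (inner ℂ ξ (S ξ)).re := by
  rw [ContinuousLinearMap.nonneg_iff_isPositive] at h
  have := h.inner_nonneg_right ξ
  exact (Complex.le_def.1 this).1

private theorem L3a_inner_sub_alg (T : H →L[ℂ] H) (γ : ℝ) (ξ : H) :
    (inner ℂ ξ ((T - algebraMap ℝ (H →L[ℂ] H) γ) ξ)).re = (inner ℂ ξ (T ξ)).re - γ * ‖ξ‖ ^ 2 := by
  have e : (algebraMap ℝ (H →L[ℂ] H) γ) ξ = (γ : ℂ) • ξ := by
    rw [Algebra.algebraMap_eq_smul_one]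
    rfl
  rw [sub_apply, e, inner_sub_right, inner_smul_right, inner_self_eq_norm_sq_to_K, Complex.sub_re]
  simp [← Complex.ofReal_pow]

/-- a self-adjoint operator `T ≥ γ > 0` is invertible -/
private theorem L3a_isUnit_of_pos {T : H →L[ℂ] H} (hT : star T = T) {γ : ℝ} (hγ : 0 < γ)
    (h : ∀ ξ : H, γ * ‖ξ‖ ^ 2 ≤ (inner ℂ ξ (T ξ)).re) : IsUnit T := by
  have h1 : (algebraMap ℝ (H →L[ℂ] H) γ) ≤ T := by
    rw [← sub_nonneg]
    apply L3a_nonneg_of
    · rw [star_sub, hT]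
      congr 1
      exact IsSelfAdjoint.algebraMap _ (IsSelfAdjoint.all γ)
    · intro ξ
      rw [L3a_inner_sub_alg]
      linarith [h ξ]
  refine CStarAlgebra.isUnit_of_le _ h1 ?_
  refine ⟨?_, ?_⟩
  · rw [Algebra.algebraMap_eq_smul_one]
    exact smul_nonneg hγ.le zero_le_one
  · exact (IsUnit.mk0 γ hγ.ne').map (algebraMap ℝ (H →L[ℂ] H))

/-- a self-adjoint operator bounded below is invertible -/
private theorem L3a_isUnit_of_bdd {T : H →L[ℂ] H} (hT : star T = T) {γ : ℝ} (hγ : 0 < γ)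
    (h : ∀ ξ : H, γ * ‖ξ‖ ≤ ‖T ξ‖) : IsUnit T := by
  have h1 : IsUnit (T * T) := by
    refine L3a_isUnit_of_pos (γ := γ ^ 2) ?_ (by positivity) fun ξ => ?_
    · rw [star_mul, hT]
    · have e : (inner ℂ ξ ((T * T) ξ)).re = ‖T ξ‖ ^ 2 := by
        have : inner ℂ ξ (T (T ξ)) = inner ℂ (star T ξ) (T ξ) := by
          rw [ContinuousLinearMap.star_eq_adjoint, ContinuousLinearMap.adjoint_inner_left]
        rw [mul_apply_eq_comp, this, hT, inner_self_eq_norm_sq_to_K]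
        simp [← Complex.ofReal_pow]
      rw [e, ← mul_pow]
      have h0 : 0 ≤ γ * ‖ξ‖ := by positivity
      exact pow_le_pow_left₀ h0 (h ξ) 2
  rw [← pow_two] at h1
  exact (isUnit_pow_iff two_ne_zero).1 h1

/-- `s = c |c|⁻¹` -/
theorem exists_sgn {c : H →L[ℂ] H} (hc : c ∈ R) (hsa : star c = c) {β : ℝ} (hβ : 0 < β)
    (hb : ∀ ξ : H, β * ‖ξ‖ ≤ ‖c ξ‖) : ∃ s ∈ R, IsSgn c s β := by
  have hsa' : IsSelfAdjoint c := hsa
  have hspec : ∀ x ∈ spectrum ℝ c, β ≤ |x| := by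
    intro x hx
    by_contra hlt
    push Not at hlt
    apply hx
    have hsub : star (algebraMap ℝ (H →L[ℂ] H) x - c) = algebraMap ℝ (H →L[ℂ] H) x - c := by
      rw [star_sub, hsa]
      congr 1
      exact IsSelfAdjoint.algebraMap _ (IsSelfAdjoint.all x)
    refine L3a_isUnit_of_bdd hsub (γ := β - |x|) (by linarith) fun ξ => ?_
    have e : (algebraMap ℝ (H →L[ℂ] H) x) ξ = (x : ℂ) • ξ := by
      rw [Algebra.algebraMap_eq_smul_one]
      rfl
    rw [sub_apply, e]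
    have h1 := norm_sub_norm_le (c ξ) ((x : ℂ) • ξ)
    rw [norm_smul, Complex.norm_real, Real.norm_eq_abs] at h1
    rw [norm_sub_rev]
    have := hb ξ
    linarith
  have hne : ∀ x ∈ spectrum ℝ c, x ≠ 0 := by
    intro x hx h0
    have := hspec x hx
    rw [h0, abs_zero] at this
    linarith
  have hf : ContinuousOn (fun x : ℝ => x / |x|) (spectrum ℝ c) :=
    continuousOn_id.div continuous_abs.continuousOn fun x hx => abs_ne_zero.2 (hne x hx)
  have hmul : cfc (fun x : ℝ => x / |x|) c * c = cfc (fun x : ℝ => x / |x| * x) c := by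
    rw [cfc_mul (fun x : ℝ => x / |x|) (fun x => x) c hf continuousOn_id]
    congr 1
    exact (cfc_id' ℝ c).symm
  refine ⟨cfc (fun x : ℝ => x / |x|) c, ?_, hsa, ?_, ?_, ?_, ?_⟩
  · apply mem_of_comm
    intro S hS
    exact ((hsa'.commute_cfc (hS c hc).symm (fun x : ℝ => x / |x|))).eq.symm
  · exact cfc_predicate (fun x : ℝ => x / |x|) c
  · rw [← cfc_mul (fun x : ℝ => x / |x|) (fun x => x / |x|) c hf hf]
    rw [← cfc_one ℝ c]
    apply cfc_congr
    intro x hx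
    have h0 := hne x hx
    have h1 : |x| ≠ 0 := abs_ne_zero.2 h0
    change x / |x| * (x / |x|) = 1
    rw [div_mul_div_comm, abs_mul_abs_self, div_self (mul_ne_zero h0 h0)]
  · exact (hsa'.commute_cfc (Commute.refl c) (fun x : ℝ => x / |x|)).eq
  · intro ξ
    have h1 : algebraMap ℝ (H →L[ℂ] H) β ≤ cfc (fun x : ℝ => x / |x| * x) c := by
      refine algebraMap_le_cfc _ _ _ (fun x hx => ?_) ?_ hsa'
      · have h0 := hne x hx
        have h1 : |x| ≠ 0 := abs_ne_zero.2 h0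
        have : x / |x| * x = |x| := by
          field_simp
          exact (sq_abs x).symm
        rw [this]
        exact hspec x hx
      · exact hf.mul continuousOn_id
    rw [← hmul, ← sub_nonneg] at h1
    have h2 := L3a_of_nonneg h1 ξ
    rw [L3a_inner_sub_alg, mul_apply_eq_comp] at h2
    linarith

/-- the path from `c` to its sign: `c_r = (1 - r) c + r s`, `r ∈ [0,1]`, is bounded below -/
theorem IsSgn.path {c s : H →L[ℂ] H} {β : ℝ} (h : IsSgn c s β) (hβ : 0 < β) {r : ℝ}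
    (h0 : 0 ≤ r) (h1 : r ≤ 1) : IsUnit (((1 - r : ℝ) : ℂ) • c + (r : ℂ) • s) := by
  have hs : IsUnit s := ⟨⟨s, s, h.sq, h.sq⟩, rfl⟩
  have hT : IsUnit (((1 - r : ℝ) : ℂ) • (s * c) + (r : ℂ) • (1 : H →L[ℂ] H)) := by
    refine L3a_isUnit_of_pos (γ := min β 1) ?_ (lt_min hβ one_pos) fun ξ => ?_
    · rw [star_add, star_smul, star_smul, star_mul, h.sa, h.sa', star_one, h.comm]
      congr 2
      · exact Complex.conj_ofReal _
      · exact Complex.conj_ofReal _
    · have e : (inner ℂ ξ ((((1 - r : ℝ) : ℂ) • (s * c) + (r : ℂ) • (1 : H →L[ℂ] H)) ξ)).re =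
          (1 - r) * (inner ℂ ξ (s (c ξ))).re + r * ‖ξ‖ ^ 2 := by
        rw [add_apply, smul_apply, smul_apply, inner_add_right, inner_smul_right,
          inner_smul_right, mul_apply_eq_comp, one_apply_eq_self, inner_self_eq_norm_sq_to_K,
          Complex.add_re, Complex.re_ofReal_mul, Complex.re_ofReal_mul]
        simp [← Complex.ofReal_pow]
      rw [e]
      have h2 := h.pos ξ
      have h3 : min β 1 ≤ β := min_le_left _ _
      have h4 : min β 1 ≤ 1 := min_le_right _ _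
      have h5 : 0 ≤ ‖ξ‖ ^ 2 := sq_nonneg _
      have h6 : min β 1 * ‖ξ‖ ^ 2 ≤ (inner ℂ ξ (s (c ξ))).re :=
        (mul_le_mul_of_nonneg_right h3 h5).trans h2
      have h7 : min β 1 * ‖ξ‖ ^ 2 ≤ ‖ξ‖ ^ 2 := by
        calc min β 1 * ‖ξ‖ ^ 2 ≤ 1 * ‖ξ‖ ^ 2 := mul_le_mul_of_nonneg_right h4 h5
          _ = ‖ξ‖ ^ 2 := one_mul _
      have h8 : 0 ≤ 1 - r := by linarith
      nlinarith [mul_le_mul_of_nonneg_left h6 h8, mul_le_mul_of_nonneg_left h7 h0]
  have e : ((1 - r : ℝ) : ℂ) • c + (r : ℂ) • s =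
      s * (((1 - r : ℝ) : ℂ) • (s * c) + (r : ℂ) • (1 : H →L[ℂ] H)) := by
    rw [mul_add, mul_smul_comm, mul_smul_comm, ← mul_assoc, h.sq, one_mul, mul_one]
  rw [e]
  exact hs.mul hT

end Pool.Agent.KKS

end

section

/-!
# L3b: L of the inverse
-/


open Filter Topology

namespace Pool.Agent.KKS

variable {H : Type*} [NormedAddCommGroup H] [InnerProductSpace ℂ H] [CompleteSpace H]
variable {R : VonNeumannAlgebra H} {τ : (H →L[ℂ] H) →L[ℂ] ℂ}

private theorem L3b_inv_mem {x : H →L[ℂ] H} (hx : x ∈ R) : Ring.inverse x ∈ R := by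
  apply mem_of_comm
  intro S hS
  have h1 := hS x hx
  by_cases hu : IsUnit x
  · have hl : Ring.inverse x * x = 1 := Ring.inverse_mul_cancel _ hu
    have hr : x * Ring.inverse x = 1 := Ring.mul_inverse_cancel _ hu
    calc S * Ring.inverse x = Ring.inverse x * (x * S) * Ring.inverse x := by
          rw [← mul_assoc, hl, one_mul]
      _ = Ring.inverse x * S := by rw [← h1, mul_assoc, mul_assoc, hr, mul_one]
  · rw [Ring.inverse_non_unit _ hu, mul_zero, zero_mul]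

private theorem L3b_smul_memR (k : ℂ) {x : H →L[ℂ] H} (hx : x ∈ R) : k • x ∈ R := by
  apply mem_of_comm
  intro S hS
  rw [mul_smul_comm, smul_mul_assoc, hS x hx]

private theorem L3b_inv_sa {x : H →L[ℂ] H} (hx : star x = x) :
    star (Ring.inverse x) = Ring.inverse x := by
  rw [← Ring.inverse_star, hx]

/-- `c⁻¹ (1 + c⁻²)⁻¹ c⁻¹ = (1 + c²)⁻¹` -/
private theorem L3b_Rt_inv {x y : H →L[ℂ] H} (hx : star x = x) (hy : star y = y) (h1 : x * y = 1)
    (h2 : y * x = 1) : y * Rt y 1 * y = Rt x 1 := by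
  have e1 : (1 + (((1 : ℝ) : ℂ) ^ 2) • (x * x)) * (y * Rt y 1 * y) = 1 := by
    have e2 : (1 + (((1 : ℝ) : ℂ) ^ 2) • (x * x)) * y = x * (1 + (((1 : ℝ) : ℂ) ^ 2) • (y * y)) := by
      rw [Complex.ofReal_one, one_pow, one_smul, one_smul, add_mul, mul_add, one_mul, mul_one,
        mul_assoc, h1, mul_one, ← mul_assoc x y y, h1, one_mul, add_comm]
    calc (1 + (((1 : ℝ) : ℂ) ^ 2) • (x * x)) * (y * Rt y 1 * y) =
        ((1 + (((1 : ℝ) : ℂ) ^ 2) • (x * x)) * y) * Rt y 1 * y := by noncomm_ring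
      _ = x * ((1 + (((1 : ℝ) : ℂ) ^ 2) • (y * y)) * Rt y 1) * y := by
          rw [e2, mul_assoc x]
      _ = 1 := by rw [Rt_right hy, mul_one, h1]
  calc y * Rt y 1 * y = Rt x 1 * ((1 + (((1 : ℝ) : ℂ) ^ 2) • (x * x)) * (y * Rt y 1 * y)) := by
        rw [← mul_assoc, Rt_left hx, one_mul]
    _ = Rt x 1 := by rw [e1, mul_one]

/-- `L(s) = (π/4) τ(s)` -/
private theorem L3b_Lf_sgn {s : H →L[ℂ] H} (hs : star s = s) (hs2 : s * s = 1) :
    Lf τ s = Real.pi / 4 * (τ s).re := by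
  have e : ∀ t : ℝ, (τ (s * Rt s t)).re = (1 + t ^ 2)⁻¹ * (τ s).re := by
    intro t
    have h0 : (1 + (t : ℂ) ^ 2) ≠ 0 := by
      have : (1 + (t : ℂ) ^ 2) = ((1 + t ^ 2 : ℝ) : ℂ) := by push_cast; rfl
      rw [this]
      exact_mod_cast (by positivity : (1 + t ^ 2 : ℝ) ≠ 0)
    have h1 : Rt s t = ((1 + (t : ℂ) ^ 2)⁻¹) • (1 : H →L[ℂ] H) := by
      have h2 := Rt_left hs t
      rw [hs2] at h2
      have h3 : (1 + ((t : ℂ) ^ 2) • (1 : H →L[ℂ] H)) = (1 + (t : ℂ) ^ 2) • (1 : H →L[ℂ] H) := by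
        rw [add_smul, one_smul]
      rw [h3, mul_smul_comm, mul_one] at h2
      rw [← h2, smul_smul, inv_mul_cancel₀ h0, one_smul]
    rw [h1, mul_smul_comm, mul_one, map_smul, smul_eq_mul]
    have h4 : ((1 + (t : ℂ) ^ 2)⁻¹) = (((1 + t ^ 2)⁻¹ : ℝ) : ℂ) := by push_cast; rfl
    rw [h4, Complex.re_ofReal_mul]
  unfold Lf
  simp_rw [e]
  rw [intervalIntegral.integral_mul_const, integral_inv_one_add_sq, Real.arctan_one,
    Real.arctan_zero, sub_zero]

/-- (6.3) `L(c) + L(c⁻¹) = (π/2) τ(sgn c)`: constant along the path, and `L(s) = (π/4) τ(s)` -/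
theorem Lf_inv (h : IsTrace R τ) {c ci s : H →L[ℂ] H} {β : ℝ} (hc : c ∈ R) (hs : s ∈ R)
    (hS : IsSgn c s β) (hβ : 0 < β) (h1 : c * ci = 1) (h2 : ci * c = 1) :
    Lf τ c + Lf τ ci = Real.pi / 2 * (τ s).re := by
  have hinv : ∀ x y : H →L[ℂ] H, x * y = 1 → y * x = 1 → Ring.inverse x = y := by
    intro x y hxy hyx
    exact Ring.inverse_unit ⟨x, y, hxy, hyx⟩
  obtain ⟨p, hp⟩ : ∃ p : ℝ → H →L[ℂ] H, p = fun r : ℝ => ((1 - r : ℝ) : ℂ) • c + (r : ℂ) • s :=
    ⟨_, rfl⟩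
  have hpR : ∀ r, p r ∈ R := by
    intro r
    rw [hp]
    exact add_mem (L3b_smul_memR _ hc) (L3b_smul_memR _ hs)
  have hpsa : ∀ r, star (p r) = p r := by
    intro r
    simp only [hp]
    rw [star_add, star_smul, star_smul, hS.sa, hS.sa']
    congr 2
    · exact Complex.conj_ofReal _
    · exact Complex.conj_ofReal _
  have hpd : ∀ r, HasDerivAt p (s - c) r := by
    intro r
    rw [hp]
    have h3 : HasDerivAt (fun r : ℝ => ((1 - r : ℝ) : ℂ)) (-1) r := by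
      have := ((hasDerivAt_id r).const_sub 1).ofReal_comp
      simpa using this
    have h4 : HasDerivAt (fun r : ℝ => (r : ℂ)) 1 r := Complex.ofRealCLM.hasDerivAt
    have h5 := (h3.smul_const c).add (h4.smul_const s)
    refine h5.congr_deriv ?_
    rw [neg_smul, one_smul, one_smul]
    abel
  have hder : ∀ r ∈ Set.Icc (0 : ℝ) 1,
      HasDerivAt (fun r => Lf τ (p r) + Lf τ (Ring.inverse (p r))) 0 r := by
    intro r hr
    have hu : IsUnit (p r) := by
      rw [hp]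
      exact hS.path hβ hr.1 hr.2
    have hl : Ring.inverse (p r) * p r = 1 := Ring.inverse_mul_cancel _ hu
    have hr' : p r * Ring.inverse (p r) = 1 := Ring.mul_inverse_cancel _ hu
    have hd1 := Lf_hasDeriv (τ := τ) h (hpd r) hpR hpsa
    have hid : HasDerivAt (fun r => Ring.inverse (p r))
        (-(Ring.inverse (p r) * (s - c) * Ring.inverse (p r))) r := by
      obtain ⟨u, hu'⟩ := hu
      have hi := hasFDerivAt_ringInverse (𝕜 := ℝ) u
      have hiu : ((u⁻¹ : (H →L[ℂ] H)ˣ) : H →L[ℂ] H) = Ring.inverse (p r) := by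
        rw [← hu', Ring.inverse_unit]
      have hi' : HasFDerivAt Ring.inverse
          (-ContinuousLinearMap.mulLeftRight ℝ (H →L[ℂ] H) (Ring.inverse (p r))
            (Ring.inverse (p r))) (p r) := by
        rw [← hiu, ← hu']
        exact hi
      have h0 : HasDerivAt (fun r => Ring.inverse (p r)) _ r := hi'.comp_hasDerivAt r (hpd r)
      exact h0.congr_deriv (by simp)
    have hd2 := Lf_hasDeriv (τ := τ) h hid (fun r => L3b_inv_mem (hpR r)) (fun r => L3b_inv_sa (hpsa r))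
    refine (hd1.add hd2).congr_deriv ?_
    have e1 := L3b_Rt_inv (hpsa r) (L3b_inv_sa (hpsa r)) hr' hl
    have hiR := L3b_inv_mem (hpR r)
    have e2 : τ (-(Ring.inverse (p r) * (s - c) * Ring.inverse (p r)) *
        Rt (Ring.inverse (p r)) 1) = -τ ((s - c) * Rt (p r) 1) := by
      rw [neg_mul, map_neg]
      congr 1
      have e3 : Ring.inverse (p r) * (s - c) * Ring.inverse (p r) * Rt (Ring.inverse (p r)) 1 =
          Ring.inverse (p r) * ((s - c) * Ring.inverse (p r) * Rt (Ring.inverse (p r)) 1) := by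
        noncomm_ring
      rw [e3, h.tracial _ hiR _ (mul_mem (mul_mem (sub_mem hs hc) hiR) (Rt_mem hiR 1)), ← e1]
      simp only [mul_assoc]
    rw [e2, Complex.neg_re, add_neg_cancel]
  have hconst := constant_of_has_deriv_right_zero (a := 0) (b := 1)
    (f := fun r => Lf τ (p r) + Lf τ (Ring.inverse (p r)))
    (fun r hr => (hder r hr).continuousAt.continuousWithinAt)
    (fun r hr => (hder r ⟨hr.1, hr.2.le⟩).hasDerivWithinAt) 1 (Set.right_mem_Icc.2 zero_le_one)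
  have hp0 : p 0 = c := by rw [hp]; simp
  have hp1 : p 1 = s := by rw [hp]; simp
  simp only [hp0, hp1] at hconst
  rw [hinv c ci h1 h2, hinv s s hS.sq hS.sq, L3b_Lf_sgn hS.sa' hS.sq] at hconst
  rw [← hconst]
  ring

end Pool.Agent.KKS

end

section

/-!
# L4: the identity for L
-/


open Filter Topology

namespace Pool.Agent.KKS

variable {H : Type*} [NormedAddCommGroup H] [InnerProductSpace ℂ H] [CompleteSpace H]
variable {R : VonNeumannAlgebra H} {τ : (H →L[ℂ] H) →L[ℂ] ℂ}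

private theorem L4_inv_mem {x : H →L[ℂ] H} (hx : x ∈ R) : Ring.inverse x ∈ R := by
  apply mem_of_comm
  intro S hS
  have h1 := hS x hx
  by_cases hu : IsUnit x
  · have hl : Ring.inverse x * x = 1 := Ring.inverse_mul_cancel _ hu
    have hr : x * Ring.inverse x = 1 := Ring.mul_inverse_cancel _ hu
    calc S * Ring.inverse x = Ring.inverse x * (x * S) * Ring.inverse x := by
          rw [← mul_assoc, hl, one_mul]
      _ = Ring.inverse x * S := by rw [← h1, mul_assoc, mul_assoc, hr, mul_one]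
  · rw [Ring.inverse_non_unit _ hu, mul_zero, zero_mul]

private theorem L4_smul_memR (k : ℂ) {x : H →L[ℂ] H} (hx : x ∈ R) : k • x ∈ R := by
  apply mem_of_comm
  intro S hS
  rw [mul_smul_comm, smul_mul_assoc, hS x hx]

/-- `(X - i)⁻¹` and `(X + i)⁻¹` -/
private theorem L4_exists_Q {X : H →L[ℂ] H} (hX : star X = X) (hXR : X ∈ R) :
    ∃ Qm ∈ R, ∃ Qp ∈ R, (X - Complex.I • 1) * Qm = 1 ∧ Qm * (X - Complex.I • 1) = 1 ∧
      (X + Complex.I • 1) * Qp = 1 ∧ Qp * (X + Complex.I • 1) = 1 ∧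
      Qm - Qp = (2 * Complex.I) • Rt X 1 := by
  have hD : (1 + (((1 : ℝ) : ℂ) ^ 2) • (X * X)) = (X - Complex.I • 1) * (X + Complex.I • 1) := by
    rw [Complex.ofReal_one, one_pow, one_smul, sub_mul, mul_add, mul_add, smul_mul_assoc,
      smul_mul_assoc, mul_smul_comm, one_mul, mul_one, one_mul, smul_smul, Complex.I_mul_I,
      neg_smul, one_smul]
    abel
  have hD' : (1 + (((1 : ℝ) : ℂ) ^ 2) • (X * X)) = (X + Complex.I • 1) * (X - Complex.I • 1) := by
    rw [Complex.ofReal_one, one_pow, one_smul, add_mul, mul_sub, mul_sub, smul_mul_assoc,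
      smul_mul_assoc, mul_smul_comm, one_mul, mul_one, one_mul, smul_smul, Complex.I_mul_I,
      neg_smul, one_smul]
    abel
  have hXc : X * Rt X 1 = Rt X 1 * X := Rt_comm hX rfl 1
  have hcp : (X + Complex.I • 1) * Rt X 1 = Rt X 1 * (X + Complex.I • 1) := by
    rw [add_mul, mul_add, hXc, smul_mul_assoc, mul_smul_comm, one_mul, mul_one]
  have hcm : (X - Complex.I • 1) * Rt X 1 = Rt X 1 * (X - Complex.I • 1) := by
    rw [sub_mul, mul_sub, hXc, smul_mul_assoc, mul_smul_comm, one_mul, mul_one]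
  have hR1 : (1 : H →L[ℂ] H) ∈ R := one_mem R
  refine ⟨(X + Complex.I • 1) * Rt X 1, mul_mem (add_mem hXR (L4_smul_memR _ hR1)) (Rt_mem hXR 1),
    (X - Complex.I • 1) * Rt X 1, mul_mem (sub_mem hXR (L4_smul_memR _ hR1)) (Rt_mem hXR 1),
    ?_, ?_, ?_, ?_, ?_⟩
  · rw [← mul_assoc, ← hD, Rt_right hX]
  · rw [hcp, mul_assoc, ← hD', Rt_left hX]
  · rw [← mul_assoc, ← hD', Rt_right hX]
  · rw [hcm, mul_assoc, ← hD, Rt_left hX]
  · rw [← sub_mul, two_mul, add_smul]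
    have : X + Complex.I • (1 : H →L[ℂ] H) - (X - Complex.I • 1) =
        Complex.I • (1 : H →L[ℂ] H) + Complex.I • (1 : H →L[ℂ] H) := by abel
    rw [this, add_mul, smul_mul_assoc, one_mul]

/-- the algebraic identity for the derivative -/
private theorem L4_deriv_id (h : IsTrace R τ) {a A c ci : H →L[ℂ] H} (ha : a ∈ R) (hA : A ∈ R)
    (hAs : star A = A) (hc : c ∈ R) (hcs : star c = c) (hci : ci ∈ R) (hcis : star ci = ci)
    (h1 : c * ci = 1) (h2 : ci * c = 1) :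
    τ ((a + a * ci * (A + Complex.I • 1) + (A - Complex.I • 1) * ci * a) *
        Rt (A + (A - Complex.I • 1) * ci * (A + Complex.I • 1)) 1) =
      τ (a * Rt A 1) - τ (a * Rt (A + c) 1) := by
  have hR1 : (1 : H →L[ℂ] H) ∈ R := one_mem R
  have hsI : star (Complex.I • (1 : H →L[ℂ] H)) = -(Complex.I • (1 : H →L[ℂ] H)) := by
    rw [star_smul, star_one, ← neg_smul]
    congr 1
    exact Complex.conj_I
  have hX2s : star (A + (A - Complex.I • 1) * ci * (A + Complex.I • 1)) =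
      A + (A - Complex.I • 1) * ci * (A + Complex.I • 1) := by
    rw [star_add, star_mul, star_mul, star_add, star_sub, hsI, hAs, hcis, mul_assoc,
      ← sub_eq_add_neg, sub_neg_eq_add]
  have hX2R : A + (A - Complex.I • 1) * ci * (A + Complex.I • 1) ∈ R :=
    add_mem hA (mul_mem (mul_mem (sub_mem hA (L4_smul_memR _ hR1)) hci)
      (add_mem hA (L4_smul_memR _ hR1)))
  obtain ⟨Am, hAm, Ap, hAp, a1, a2, a3, a4, a5⟩ := L4_exists_Q (R := R) hAs hA
  obtain ⟨Bm, hBm, Bp, hBp, b1, b2, b3, b4, b5⟩ := L4_exists_Q (R := R) (X := A + c)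
    (by rw [star_add, hAs, hcs]) (add_mem hA hc)
  obtain ⟨Cm, hCm, Cp, hCp, c1, c2, c3, c4, c5⟩ := L4_exists_Q (R := R) hX2s hX2R
  obtain ⟨X, hX⟩ : ∃ X, X = A + (A - Complex.I • 1) * ci * (A + Complex.I • 1) := ⟨_, rfl⟩
  obtain ⟨j, hj⟩ : ∃ j : H →L[ℂ] H, j = Complex.I • 1 := ⟨_, rfl⟩
  rw [← hj] at a1 a2 a3 a4 b1 b2 b3 b4 c1 c2 c3 c4 hX ⊢
  rw [← hX] at c1 c2 c3 c4 ⊢
  rw [← hj, ← hX] at c5
  -- the inverses of `X ∓ i`
  have e1 : X - j = (A - j) * ci * (A + c + j) := by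
    have : (A - j) * ci * (A + c + j) = (A - j) * ci * (A + j) + (A - j) * (ci * c) := by
      noncomm_ring
    rw [this, h2, mul_one, hX]
    abel
  have e2 : X + j = (A + c - j) * ci * (A + j) := by
    have : (A + c - j) * ci * (A + j) = (A - j) * ci * (A + j) + (c * ci) * (A + j) := by
      noncomm_ring
    rw [this, h1, one_mul, hX]
    abel
  have f1 : Cm = Bp * c * Am := by
    have g : (Bp * c * Am) * (X - j) = 1 := by
      calc (Bp * c * Am) * (X - j) = Bp * c * (Am * (A - j)) * ci * (A + c + j) := by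
            rw [e1]; noncomm_ring
        _ = Bp * (c * ci) * (A + c + j) := by rw [a2, mul_one]; noncomm_ring
        _ = 1 := by rw [h1, mul_one, b4]
    calc Cm = ((Bp * c * Am) * (X - j)) * Cm := by rw [g, one_mul]
      _ = Bp * c * Am := by rw [mul_assoc, c1, mul_one]
  have f2 : Cp = Ap * c * Bm := by
    have g : (Ap * c * Bm) * (X + j) = 1 := by
      calc (Ap * c * Bm) * (X + j) = Ap * c * (Bm * (A + c - j)) * ci * (A + j) := by
            rw [e2]; noncomm_ring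
        _ = Ap * (c * ci) * (A + j) := by rw [b2, mul_one]; noncomm_ring
        _ = 1 := by rw [h1, mul_one, a4]
    calc Cp = ((Ap * c * Bm) * (X + j)) * Cp := by rw [g, one_mul]
      _ = Ap * c * Bm := by rw [mul_assoc, c3, mul_one]
  obtain ⟨X', hX'⟩ : ∃ X', X' = a + a * ci * (A + j) + (A - j) * ci * a := ⟨_, rfl⟩
  rw [← hX']
  have g1 : X' = a * ci * (A + c + j) + (A - j) * ci * a := by
    have : a * ci * (A + c + j) = a * (ci * c) + a * ci * (A + j) := by noncomm_ring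
    rw [this, h2, mul_one, hX']
  have g2 : X' = a * ci * (A + j) + (A + c - j) * ci * a := by
    have : (A + c - j) * ci * a = (c * ci) * a + (A - j) * ci * a := by noncomm_ring
    rw [this, h1, one_mul, hX']
    abel
  have hjR : j ∈ R := by rw [hj]; exact L4_smul_memR _ hR1
  have k1 : τ (X' * Cm) = τ (a * Am) + τ (a * Bp) := by
    have m1 : X' * Cm = a * Am + (A - j) * (ci * a * Bp * c * Am) := by
      calc X' * Cm = a * ci * ((A + c + j) * Bp) * c * Am + (A - j) * (ci * a * Bp * c * Am) := by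
            rw [g1, f1]; noncomm_ring
        _ = a * Am + (A - j) * (ci * a * Bp * c * Am) := by
            rw [b3, mul_one, mul_assoc a ci c, h2, mul_one]
    have m2 : (ci * a * Bp * c * Am) * (A - j) = ci * (a * Bp * c) := by
      rw [mul_assoc, a2, mul_one]
      noncomm_ring
    have m3 : (a * Bp * c) * ci = a * Bp := by rw [mul_assoc, h1, mul_one]
    rw [m1, map_add, h.tracial (A - j) (sub_mem hA hjR) _
      (mul_mem (mul_mem (mul_mem (mul_mem hci ha) hBp) hc) hAm), m2,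
      h.tracial ci hci _ (mul_mem (mul_mem ha hBp) hc), m3]
  have k2 : τ (X' * Cp) = τ (a * Bm) + τ (a * Ap) := by
    have m1 : X' * Cp = a * Bm + (A + c - j) * (ci * a * Ap * c * Bm) := by
      calc X' * Cp = a * ci * ((A + j) * Ap) * c * Bm + (A + c - j) * (ci * a * Ap * c * Bm) := by
            rw [g2, f2]; noncomm_ring
        _ = a * Bm + (A + c - j) * (ci * a * Ap * c * Bm) := by
            rw [a3, mul_one, mul_assoc a ci c, h2, mul_one]
    have m2 : (ci * a * Ap * c * Bm) * (A + c - j) = ci * (a * Ap * c) := by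
      rw [mul_assoc, b2, mul_one]
      noncomm_ring
    have m3 : (a * Ap * c) * ci = a * Ap := by rw [mul_assoc, h1, mul_one]
    rw [m1, map_add, h.tracial (A + c - j) (sub_mem (add_mem hA hc) hjR) _
      (mul_mem (mul_mem (mul_mem (mul_mem hci ha) hAp) hc) hBm), m2,
      h.tracial ci hci _ (mul_mem (mul_mem ha hAp) hc), m3]
  have l1 : (2 * Complex.I) * τ (X' * Rt X 1) = τ (X' * Cm) - τ (X' * Cp) := by
    rw [← map_sub, ← mul_sub, c5, mul_smul_comm, map_smul, smul_eq_mul]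
  have l2 : (2 * Complex.I) * τ (a * Rt A 1) = τ (a * Am) - τ (a * Ap) := by
    rw [← map_sub, ← mul_sub, a5, mul_smul_comm, map_smul, smul_eq_mul]
  have l3 : (2 * Complex.I) * τ (a * Rt (A + c) 1) = τ (a * Bm) - τ (a * Bp) := by
    rw [← map_sub, ← mul_sub, b5, mul_smul_comm, map_smul, smul_eq_mul]
  have h2I : (2 * Complex.I) ≠ 0 := mul_ne_zero two_ne_zero Complex.I_ne_zero
  apply mul_left_cancel₀ h2I
  rw [mul_sub, l1, l2, l3, k1, k2]
  ring

/-- (6.4) replace `a` by `A = r a`, `X₁ = A + c`, `X₂ = A + (A - i) c⁻¹ (A + i)`, both self-adjoint; at `r = 0` this is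
`Lf_inv` (`X₂ = c⁻¹`).  `X₂ - i = (A - i) c⁻¹ (X₁ + i)`, `X₂ + i = (X₁ - i) c⁻¹ (A + i)`,
`X₂' = a c⁻¹ (X₁ + i) + (A - i) c⁻¹ a = a c⁻¹ (A + i) + (X₁ - i) c⁻¹ a`, so
`τ (X₂' (X₂ - i)⁻¹) = τ (a (A - i)⁻¹) + τ (a (X₁ + i)⁻¹)`, `τ (X₂' (X₂ + i)⁻¹) = τ (a (X₁ - i)⁻¹) + τ (a (A + i)⁻¹)`,
`(1 + X²)⁻¹ = (1/2i) ((X - i)⁻¹ - (X + i)⁻¹)`; so the derivative of `L(X₂)` is `τ (a (1+A²)⁻¹) - τ (a (1+X₁²)⁻¹)`. -/
theorem omega_id (h : IsTrace R τ) {a c ci s : H →L[ℂ] H} {β : ℝ} (ha : a ∈ R)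
    (has : star a = a) (hc : c ∈ R) (hs : s ∈ R) (hS : IsSgn c s β) (hβ : 0 < β)
    (h1 : c * ci = 1) (h2 : ci * c = 1) :
    Lf τ (a + c) + Lf τ (a + (a - Complex.I • 1) * ci * (a + Complex.I • 1)) - Lf τ a =
      Real.pi / 2 * (τ s).re := by
  have hR1 : (1 : H →L[ℂ] H) ∈ R := one_mem R
  have hci : ci ∈ R := by
    have : Ring.inverse c = ci := Ring.inverse_unit ⟨c, ci, h1, h2⟩
    rw [← this]
    exact L4_inv_mem hc
  have hcis : star ci = ci := by
    have e : star ci * c = 1 := by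
      have := congrArg star h1
      rwa [star_mul, star_one, hS.sa] at this
    calc star ci = (star ci * c) * ci := by rw [mul_assoc, h1, mul_one]
      _ = ci := by rw [e, one_mul]
  have hsI : star (Complex.I • (1 : H →L[ℂ] H)) = -(Complex.I • (1 : H →L[ℂ] H)) := by
    rw [star_smul, star_one, ← neg_smul]
    congr 1
    exact Complex.conj_I
  obtain ⟨A, hA⟩ : ∃ A : ℝ → H →L[ℂ] H, A = fun r : ℝ => (r : ℂ) • a := ⟨_, rfl⟩
  have hAR : ∀ r, A r ∈ R := by
    intro r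
    rw [hA]
    exact L4_smul_memR _ ha
  have hAs : ∀ r, star (A r) = A r := by
    intro r
    simp only [hA]
    rw [star_smul, has]
    congr 1
    exact Complex.conj_ofReal _
  have hAd : ∀ r, HasDerivAt A a r := by
    intro r
    rw [hA]
    have h4 : HasDerivAt (fun r : ℝ => (r : ℂ)) 1 r := Complex.ofRealCLM.hasDerivAt
    exact (h4.smul_const a).congr_deriv (one_smul _ _)
  have hd1 : ∀ r, HasDerivAt (fun r => Lf τ (A r + c)) (τ (a * Rt (A r + c) 1)).re r := by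
    intro r
    exact Lf_hasDeriv (τ := τ) h ((hAd r).add_const c) (fun r => add_mem (hAR r) hc)
      (fun r => by rw [star_add, hAs, hS.sa])
  have hd3 : ∀ r, HasDerivAt (fun r => Lf τ (A r)) (τ (a * Rt (A r) 1)).re r := by
    intro r
    exact Lf_hasDeriv (τ := τ) h (hAd r) hAR hAs
  have hd2 : ∀ r, HasDerivAt
      (fun r => Lf τ (A r + (A r - Complex.I • 1) * ci * (A r + Complex.I • 1)))
      (τ (a * Rt (A r) 1) - τ (a * Rt (A r + c) 1)).re r := by
    intro r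
    have hX : HasDerivAt (fun r => A r + (A r - Complex.I • 1) * ci * (A r + Complex.I • 1))
        (a + a * ci * (A r + Complex.I • 1) + (A r - Complex.I • 1) * ci * a) r := by
      have h5 := (hAd r).add ((((hAd r).sub_const (Complex.I • 1)).mul_const ci).mul
        ((hAd r).add_const (Complex.I • 1)))
      refine h5.congr_deriv ?_
      rw [add_assoc]
    have := Lf_hasDeriv (τ := τ) h hX
      (fun r => add_mem (hAR r) (mul_mem (mul_mem (sub_mem (hAR r) (L4_smul_memR _ hR1)) hci)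
        (add_mem (hAR r) (L4_smul_memR _ hR1))))
      (fun r => by
        rw [star_add, star_mul, star_mul, star_add, star_sub, hsI, hAs, hcis, mul_assoc,
          ← sub_eq_add_neg, sub_neg_eq_add])
    rw [L4_deriv_id h ha (hAR r) (hAs r) hc hS.sa hci hcis h1 h2] at this
    exact this
  have hF : ∀ r, HasDerivAt (fun r => Lf τ (A r + c) +
      Lf τ (A r + (A r - Complex.I • 1) * ci * (A r + Complex.I • 1)) - Lf τ (A r)) 0 r := by
    intro r
    refine (((hd1 r).add (hd2 r)).sub (hd3 r)).congr_deriv ?_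
    rw [Complex.sub_re]
    ring
  have hconst := is_const_of_deriv_eq_zero (fun r => (hF r).differentiableAt)
    (fun r => (hF r).deriv) 1 0
  have hA1 : A 1 = a := by rw [hA]; simp
  have hA0 : A 0 = 0 := by rw [hA]; simp
  simp only [hA1, hA0] at hconst
  rw [hconst, zero_add, zero_add, zero_sub, zero_add, Lf_zero, sub_zero, neg_mul, smul_mul_assoc,
    one_mul, neg_mul, smul_mul_assoc, mul_smul_comm, mul_one, smul_smul, Complex.I_mul_I, neg_smul,
    neg_neg, one_smul]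
  exact Lf_inv h hc hs hS hβ h1 h2

end Pool.Agent.KKS

end
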