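import Pool.Agent.Lib.MP_5c1ef7_an.P08

/-!
# P09: unitaries of corners, the Cayley transform
-/

set_option autoImplicit false
set_option linter.unusedSectionVars false

section

/-!
# CU: unitaries of corners
-/


open Filter Topology

namespace Pool.Agent.KKS

variable {H : Type*} [NormedAddCommGroup H] [InnerProductSpace ℂ H] [CompleteSpace H]
variable {R : VonNeumannAlgebra H} {E g g' q v : H →L[ℂ] H} {K : ℝ}

/-- `g` is a unitary of the corner `E R E` -/
structure CU (R : VonNeumannAlgebra H) (E g : H →L[ℂ] H) : Prop where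
  mem : g ∈ R
  l : star g * g = E
  r : g * star g = E

/-- `E - g` is bounded below on `E H` by `1/K` -/
def Gap (E g : H →L[ℂ] H) (K : ℝ) : Prop := ∀ ξ : H, ‖E ξ‖ ≤ K * ‖(E - g) ξ‖

theorem CU.le {R' : VonNeumannAlgebra H} (h : CU R E g) (hR : ∀ x ∈ R, x ∈ R') : CU R' E g :=
  ⟨hR _ h.mem, h.l, h.r⟩

private theorem CU_smul_mem {x : H →L[ℂ] H} (c : ℂ) (hx : x ∈ R) : c • x ∈ R :=
  R.toStarSubalgebra.smul_mem hx c

theorem CU.left (h : CU R E g) (hE : PJ E) : E * g = g := by
  have h1 : PJ (star g * g) := by rw [h.l]; exact hE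
  have h2 := h1.pi.1
  calc E * g = (g * star g) * g := by rw [h.r]
    _ = g * (star g * g) := mul_assoc _ _ _
    _ = g := h2

theorem CU.right (h : CU R E g) (hE : PJ E) : g * E = g := by
  have h1 : PJ (star g * g) := by rw [h.l]; exact hE
  have h2 := h1.pi.1
  rwa [h.l] at h2

theorem CU.adj (h : CU R E g) : CU R E (star g) :=
  ⟨star_mem h.mem, by rw [star_star]; exact h.r, by rw [star_star]; exact h.l⟩

theorem CU.mul (h : CU R E g) (h' : CU R E g') (hE : PJ E) : CU R E (g * g') := by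
  refine ⟨mul_mem h.mem h'.mem, ?_, ?_⟩
  · calc star (g * g') * (g * g') = star g' * ((star g * g) * g') := by
          rw [star_mul]; noncomm_ring
      _ = E := by rw [h.l, h'.left hE, h'.l]
  · calc (g * g') * star (g * g') = g * ((g' * star g') * star g) := by
          rw [star_mul]; noncomm_ring
      _ = E := by rw [h'.r, h.adj.left hE, h.r]

theorem CU.self (hE : PJ E) (hER : E ∈ R) : CU R E E :=
  ⟨hER, by rw [hE.sa, hE.idem], by rw [hE.sa, hE.idem]⟩

theorem CU.smul (h : CU R E g) {c : ℂ} (hc : ‖c‖ = 1) : CU R E (c • g) := by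
  have h1 : (starRingEnd ℂ) c * c = 1 := by
    rw [mul_comm, Complex.mul_conj, Complex.normSq_eq_norm_sq, hc]
    simp
  have h2 : c * (starRingEnd ℂ) c = 1 := by rw [mul_comm]; exact h1
  refine ⟨CU_smul_mem c h.mem, ?_, ?_⟩
  · rw [star_smul, smul_mul_smul_comm, h.l]
    change ((starRingEnd ℂ) c * c) • E = E
    rw [h1, one_smul]
  · rw [star_smul, smul_mul_smul_comm, h.r]
    change (c * (starRingEnd ℂ) c) • E = E
    rw [h2, one_smul]

theorem CU.norm_le (h : CU R E g) (hE : PJ E) : ‖g‖ ≤ 1 := by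
  have h1 : ‖g‖ * ‖g‖ = ‖E‖ := by
    rw [← h.l, CStarRing.norm_star_mul_self]
  have h2 := hE.norm_le
  nlinarith [norm_nonneg g]

private theorem CU_sq (T : H →L[ℂ] H) (ξ : H) :
    ‖T ξ‖ ^ 2 = (inner ℂ ξ ((star T * T) ξ)).re :=
  ContinuousLinearMap.apply_norm_sq_eq_inner_adjoint_right T ξ

theorem CU.norm_apply (h : CU R E g) (hE : PJ E) (ξ : H) : ‖g ξ‖ = ‖E ξ‖ := by
  have h1 : ‖g ξ‖ ^ 2 = ‖E ξ‖ ^ 2 := by
    rw [CU_sq g, CU_sq E, h.l, hE.sa, hE.idem]
  exact (pow_left_inj₀ (norm_nonneg _) (norm_nonneg _) two_ne_zero).1 h1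

/-- conjugation by a partial isometry from `E` to `F = q q⋆` -/
theorem CU.conj (h : CU R E g) (hE : PJ E) (hq : q ∈ R) (hq1 : star q * q = E) :
    CU R (q * star q) (q * g * star q) := by
  have h1 : PJ (star q * q) := by rw [hq1]; exact hE
  have h2 : q * E = q := by
    have := h1.pi.1
    rwa [hq1] at this
  refine ⟨mul_mem (mul_mem hq h.mem) (star_mem hq), ?_, ?_⟩
  · calc star (q * g * star q) * (q * g * star q)
        = q * (star g * ((star q * q) * g)) * star q := by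
          rw [star_mul, star_mul, star_star]; noncomm_ring
      _ = q * star q := by rw [hq1, h.left hE, h.l, h2]
  · calc (q * g * star q) * star (q * g * star q)
        = q * (g * ((star q * q) * star g)) * star q := by
          rw [star_mul, star_mul, star_star]; noncomm_ring
      _ = q * star q := by rw [hq1, h.adj.left hE, h.r, h2]

/-- orthogonal sum -/
theorem CU.add {E' : H →L[ℂ] H} (h : CU R E g) (h' : CU R E' g') (hE : PJ E) (hE' : PJ E')
    (h0 : E * E' = 0) : CU R (E + E') (g + g') := by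
  have h0' : E' * E = 0 := by
    have := congrArg star h0
    rwa [star_mul, hE.sa, hE'.sa, star_zero] at this
  have e1 : star g * g' = 0 := by
    rw [← h.adj.right hE, ← h'.left hE', mul_assoc, ← mul_assoc E, h0, zero_mul, mul_zero]
  have e2 : star g' * g = 0 := by
    rw [← h'.adj.right hE', ← h.left hE, mul_assoc, ← mul_assoc E', h0', zero_mul, mul_zero]
  have e3 : g * star g' = 0 := by
    rw [← h.right hE, ← h'.adj.left hE', mul_assoc, ← mul_assoc E, h0, zero_mul, mul_zero]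
  have e4 : g' * star g = 0 := by
    rw [← h'.right hE', ← h.adj.left hE, mul_assoc, ← mul_assoc E', h0', zero_mul, mul_zero]
  refine ⟨add_mem h.mem h'.mem, ?_, ?_⟩
  · rw [star_add, add_mul, mul_add, mul_add, e1, e2, h.l, h'.l, add_zero, zero_add]
  · rw [star_add, add_mul, mul_add, mul_add, e3, e4, h.r, h'.r, add_zero, zero_add]

/-- the extension by `-1` -/
theorem CU.hat (h : CU R E g) (hE : PJ E) (hER : E ∈ R) : CU R 1 (g - (1 - E)) := by
  have e1 := h.left hE
  have e2 := h.right hE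
  have e3 := h.adj.left hE
  have e4 := h.adj.right hE
  have e5 := hE.idem
  refine ⟨sub_mem h.mem (sub_mem (one_mem R) hER), ?_, ?_⟩
  · rw [star_sub, star_sub, star_one, hE.sa]
    calc (star g - (1 - E)) * (g - (1 - E))
        = star g * g - star g + star g * E - g + 1 - E + E * g - E + E * E := by noncomm_ring
      _ = 1 := by rw [h.l, e4, e1, e5]; abel
  · rw [star_sub, star_sub, star_one, hE.sa]
    calc (g - (1 - E)) * (star g - (1 - E))
        = g * star g - g + g * E - star g + 1 - E + E * star g - E + E * E := by noncomm_ring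
      _ = 1 := by rw [h.r, e2, e3, e5]; abel

end Pool.Agent.KKS

end

section

/-!
# Gap: spectral gap at 1
-/


open Filter Topology

namespace Pool.Agent.KKS

variable {H : Type*} [NormedAddCommGroup H] [InnerProductSpace ℂ H] [CompleteSpace H]
variable {R : VonNeumannAlgebra H} {E g g' q v : H →L[ℂ] H} {K : ℝ}

private theorem Gap_sq (T : H →L[ℂ] H) (ξ : H) :
    ‖T ξ‖ ^ 2 = (inner ℂ ξ ((star T * T) ξ)).re :=
  ContinuousLinearMap.apply_norm_sq_eq_inner_adjoint_right T ξ

private theorem Gap_q {q E : H →L[ℂ] H} (hE : PJ E) (hq1 : star q * q = E) (ξ : H) :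
    ‖q ξ‖ = ‖E ξ‖ := by
  have h1 : ‖q ξ‖ ^ 2 = ‖E ξ‖ ^ 2 := by
    rw [Gap_sq q, Gap_sq E, hq1, hE.sa, hE.idem]
  exact (pow_left_inj₀ (norm_nonneg _) (norm_nonneg _) two_ne_zero).1 h1

private theorem Gap_adj_inner (T : H →L[ℂ] H) (ξ η : H) :
    inner ℂ (T ξ) η = inner ℂ ξ ((star T) η) :=
  (ContinuousLinearMap.adjoint_inner_right T ξ η).symm

/-- Pythagoras -/
private theorem Gap_pyth {E E' : H →L[ℂ] H} (hE : PJ E) (h0 : E * E' = 0) {a b : H}
    (ha : E a = a) (hb : E' b = b) : ‖a + b‖ ^ 2 = ‖a‖ ^ 2 + ‖b‖ ^ 2 := by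
  have h1 : inner ℂ a b = 0 := by
    rw [← ha, Gap_adj_inner, hE.sa, ← hb]
    have : E (E' b) = (E * E') b := rfl
    rw [this, h0]
    simp
  rw [norm_add_sq (𝕜 := ℂ), h1]
  simp

theorem Gap.adj (h : Gap E g K) (hg : CU R E g) (hE : PJ E) : Gap E (star g) K := by
  intro ξ
  have e1 : (E - star g) = - (star g * (E - g)) := by
    rw [mul_sub, hg.adj.right hE, hg.l]
    abel
  have e2 : ‖(E - star g) ξ‖ = ‖(E - g) ξ‖ := by
    rw [e1, neg_apply, norm_neg]
    change ‖(star g) ((E - g) ξ)‖ = _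
    rw [hg.adj.norm_apply hE]
    change ‖(E * (E - g)) ξ‖ = _
    rw [mul_sub, hE.idem, hg.left hE]
  rw [e2]
  exact h ξ

theorem Gap.mono {K' : ℝ} (h : Gap E g K) (hK : K ≤ K') : Gap E g K' := fun ξ =>
  (h ξ).trans (mul_le_mul_of_nonneg_right hK (norm_nonneg _))

private theorem Gap_imag_aux (E : H →L[ℂ] H) {c : ℂ} (hc : 1 ≤ ‖1 - c‖) : Gap E (c • E) 1 := by
  intro ξ
  have e1 : (E - c • E) ξ = (1 - c) • E ξ := by
    rw [sub_apply, smul_apply, sub_smul, one_smul]
  rw [e1, norm_smul, one_mul]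
  nlinarith [norm_nonneg (E ξ)]

theorem Gap.imag (hE : PJ E) : Gap E (Complex.I • E) 1 := by
  apply Gap_imag_aux
  have h := Complex.abs_re_le_norm (1 - Complex.I)
  simpa using h

theorem Gap.imag' (hE : PJ E) : Gap E (-Complex.I • E) 1 := by
  apply Gap_imag_aux
  have h := Complex.abs_re_le_norm (1 - -Complex.I)
  simpa using h

/-- `‖(E - g') ξ‖ ≥ ‖(E - g) ξ‖ - ‖(g - g') E ξ‖` -/
theorem Gap.near (h : Gap E g 1) (hg : g * E = g) (hg' : g' * E = g') (hn : ‖g - g'‖ ≤ 1 / 2) :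
    Gap E g' 2 := by
  intro ξ
  have h1 := h ξ
  have e1 : (E - g) ξ = (E - g') ξ - (g - g') (E ξ) := by
    have e2 : (g - g') (E ξ) = (g - g') ξ := by
      change ((g - g') * E) ξ = _
      rw [sub_mul, hg, hg']
    rw [e2]
    simp only [sub_apply]
    abel
  have h2 : ‖(E - g) ξ‖ ≤ ‖(E - g') ξ‖ + 1 / 2 * ‖E ξ‖ := by
    rw [e1]
    refine (norm_sub_le _ _).trans (add_le_add le_rfl ?_)
    exact ((g - g').le_opNorm _).trans (mul_le_mul_of_nonneg_right hn (norm_nonneg _))
  linarith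

theorem Gap.conj (h : Gap E g K) (hE : PJ E) (hg : CU R E g) (hq1 : star q * q = E) :
    Gap (q * star q) (q * g * star q) K := by
  have h1 : PJ (star q * q) := by rw [hq1]; exact hE
  have h2 : q * E = q := by
    have := h1.pi.1
    rwa [hq1] at this
  intro ξ
  have e1 : (q * star q - q * g * star q) ξ = q ((E - g) (star q ξ)) := by
    change _ = (q * (E - g) * star q) ξ
    rw [mul_sub, sub_mul, h2]
  have e2 : ‖q ((E - g) (star q ξ))‖ = ‖(E - g) (star q ξ)‖ := by
    rw [Gap_q hE hq1]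
    change ‖(E * (E - g)) (star q ξ)‖ = _
    rw [mul_sub, hE.idem, hg.left hE]
  have e3 : ‖(q * star q) ξ‖ = ‖E (star q ξ)‖ := by
    change ‖q (star q ξ)‖ = _
    rw [Gap_q hE hq1]
  rw [e1, e2, e3]
  exact h (star q ξ)

/-- orthogonal sum -/
theorem Gap.add {E' : H →L[ℂ] H} (hK : 0 ≤ K) (h : Gap E g K) (h' : Gap E' g' K)
    (hg : CU R E g) (hg' : CU R E' g') (hE : PJ E) (hE' : PJ E') (h0 : E * E' = 0) :
    Gap (E + E') (g + g') K := by
  intro ξ
  have e1 : ‖(E + E') ξ‖ ^ 2 = ‖E ξ‖ ^ 2 + ‖E' ξ‖ ^ 2 := by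
    rw [add_apply]
    refine Gap_pyth hE h0 ?_ ?_
    · change (E * E) ξ = _
      rw [hE.idem]
    · change (E' * E') ξ = _
      rw [hE'.idem]
  have e2 : (E + E' - (g + g')) ξ = (E - g) ξ + (E' - g') ξ := by
    simp only [sub_apply, add_apply]
    abel
  have e3 : ‖(E - g) ξ + (E' - g') ξ‖ ^ 2 = ‖(E - g) ξ‖ ^ 2 + ‖(E' - g') ξ‖ ^ 2 := by
    refine Gap_pyth hE h0 ?_ ?_
    · change (E * (E - g)) ξ = _
      rw [mul_sub, hE.idem, hg.left hE]
    · change (E' * (E' - g')) ξ = _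
      rw [mul_sub, hE'.idem, hg'.left hE']
  have h1 := h ξ
  have h2 := h' ξ
  have h3 : ‖E ξ‖ ^ 2 ≤ K ^ 2 * ‖(E - g) ξ‖ ^ 2 := by
    rw [← mul_pow]
    exact pow_le_pow_left₀ (norm_nonneg _) h1 2
  have h4 : ‖E' ξ‖ ^ 2 ≤ K ^ 2 * ‖(E' - g') ξ‖ ^ 2 := by
    rw [← mul_pow]
    exact pow_le_pow_left₀ (norm_nonneg _) h2 2
  rw [e2]
  refine le_of_sq_le_sq ?_ (mul_nonneg hK (norm_nonneg _))
  rw [e1, mul_pow, e3]
  linarith

/-- `g = - v` with `v + v⋆ ≥ 0` -/
theorem Gap.of_re (hv : CU R E v) (hE : PJ E) (h : ∀ ξ : H, 0 ≤ (inner ℂ ξ (v ξ)).re) :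
    Gap E (-v) 1 := by
  intro ξ
  rw [one_mul, sub_neg_eq_add, add_apply]
  refine le_of_sq_le_sq ?_ (norm_nonneg _)
  rw [norm_add_sq (𝕜 := ℂ)]
  have h1 : v ξ = v (E ξ) := by
    change _ = (v * E) ξ
    rw [hv.right hE]
  have h2 : 0 ≤ RCLike.re (inner ℂ (E ξ) (v ξ)) := by
    rw [h1]
    exact h (E ξ)
  nlinarith [sq_nonneg ‖v ξ‖]

theorem Gap.hat (h : Gap E g K) (hK : 1 ≤ K) (hg : CU R E g) (hE : PJ E) :
    Gap 1 (g - (1 - E)) K := by
  intro ξ
  have hF : PJ (1 - E) := hE.compl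
  have h0 : E * (1 - E) = 0 := by rw [mul_sub, mul_one, hE.idem, sub_self]
  have e1 : (1 - (g - (1 - E))) ξ = (E - g) ξ + (2 : ℂ) • (1 - E) ξ := by
    simp only [sub_apply, one_apply_eq_self, two_smul]
    abel
  have e2 : ‖(E - g) ξ + (2 : ℂ) • (1 - E) ξ‖ ^ 2 =
      ‖(E - g) ξ‖ ^ 2 + ‖(2 : ℂ) • (1 - E) ξ‖ ^ 2 := by
    refine Gap_pyth hE h0 ?_ ?_
    · change (E * (E - g)) ξ = _
      rw [mul_sub, hE.idem, hg.left hE]
    · rw [map_smul]
      congr 1
      change ((1 - E) * (1 - E)) ξ = _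
      rw [hF.idem]
  have e3 : ‖ξ‖ ^ 2 = ‖E ξ‖ ^ 2 + ‖(1 - E) ξ‖ ^ 2 := by
    rw [← Gap_pyth hE h0 (a := E ξ) (b := (1 - E) ξ)]
    · congr 2
      simp only [sub_apply, one_apply_eq_self]
      abel
    · change (E * E) ξ = _
      rw [hE.idem]
    · change ((1 - E) * (1 - E)) ξ = _
      rw [hF.idem]
  have e4 : ‖(2 : ℂ) • (1 - E) ξ‖ ^ 2 = 4 * ‖(1 - E) ξ‖ ^ 2 := by
    rw [norm_smul, mul_pow, Complex.norm_ofNat]
    norm_num
  have h3 : ‖E ξ‖ ^ 2 ≤ K ^ 2 * ‖(E - g) ξ‖ ^ 2 := by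
    rw [← mul_pow]
    exact pow_le_pow_left₀ (norm_nonneg _) (h ξ) 2
  have h4 : ‖(1 - E) ξ‖ ^ 2 ≤ K ^ 2 * (4 * ‖(1 - E) ξ‖ ^ 2) := by
    have h5 : 1 ≤ K ^ 2 := by nlinarith
    nlinarith [sq_nonneg ‖(1 - E) ξ‖]
  rw [one_apply_eq_self, e1]
  refine le_of_sq_le_sq ?_ (mul_nonneg (by linarith) (norm_nonneg _))
  rw [e3, mul_pow, e2, e4]
  linarith

/-- a unitary (normal operator) with a gap -/
theorem Gap.isUnit (h : Gap 1 g K) (hg : CU R 1 g) : IsUnit (1 - g) := by
  have hE : PJ (1 : H →L[ℂ] H) := ⟨mul_one 1, star_one _⟩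
  have h1 : ∀ ξ : H, ‖ξ‖ ≤ (max K 0) * ‖(1 - g) ξ‖ := by
    intro ξ
    have h2 := h ξ
    rw [one_apply_eq_self] at h2
    exact h2.trans (mul_le_mul_of_nonneg_right (le_max_left _ _) (norm_nonneg _))
  have h2 : ∀ ξ : H, ‖ξ‖ ≤ (max K 0) * ‖(1 - star g) ξ‖ := by
    intro ξ
    have h2 := (h.adj hg hE) ξ
    rw [one_apply_eq_self] at h2
    exact h2.trans (mul_le_mul_of_nonneg_right (le_max_left _ _) (norm_nonneg _))
  have ha : AntilipschitzWith (Real.toNNReal (max K 0)) (1 - g : H →L[ℂ] H) := by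
    apply ContinuousLinearMap.antilipschitz_of_bound
    intro x
    rw [Real.coe_toNNReal _ (le_max_right _ _)]
    exact h1 x
  rw [ContinuousLinearMap.isUnit_iff_bijective]
  refine ⟨ha.injective, ?_⟩
  let L : H →ₗ[ℂ] H := ((1 - g : H →L[ℂ] H) : H →ₗ[ℂ] H)
  have hcl : IsClosed ((LinearMap.range L : Submodule ℂ H) : Set H) := by
    have := ha.isClosed_range (1 - g : H →L[ℂ] H).uniformContinuous
    exact this
  have horth : (LinearMap.range L)ᗮ = ⊥ := by
    rw [Submodule.eq_bot_iff]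
    intro x hx
    have h3 : (1 - star g) x = 0 := by
      have h4 : inner ℂ ((1 - g) ((1 - star g) x)) x = 0 :=
        (Submodule.mem_orthogonal _ _).1 hx _ (LinearMap.mem_range_self L _)
      rw [Gap_adj_inner, star_sub, star_one] at h4
      exact inner_self_eq_zero.1 h4
    have h4 := h2 x
    rw [h3, norm_zero, mul_zero] at h4
    exact norm_le_zero_iff.1 h4
  have htop : LinearMap.range L = ⊤ := by
    have : CompleteSpace (LinearMap.range L) := hcl.completeSpace_coe
    exact (Submodule.orthogonal_eq_bot_iff).1 horth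
  exact LinearMap.range_eq_top.1 htop

end Pool.Agent.KKS

end

section

/-!
# Cay: the Cayley transform
-/


open Filter Topology

namespace Pool.Agent.KKS

variable {H : Type*} [NormedAddCommGroup H] [InnerProductSpace ℂ H] [CompleteSpace H]
variable {R : VonNeumannAlgebra H} {v w D : H →L[ℂ] H} {K K' : ℝ}

/-- `C(v) = i (1 + v)(1 - v)⁻¹ = - i + 2 i (1 - v)⁻¹` -/
noncomputable def Cay (v : H →L[ℂ] H) : H →L[ℂ] H :=
  -Complex.I • 1 + (2 * Complex.I) • Ring.inverse (1 - v)

private theorem Cay_isUnit (hv : Gap 1 v K) (h : CU R 1 v) : IsUnit (1 - v) := hv.isUnit h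

private theorem Cay_one : PJ (1 : H →L[ℂ] H) := ⟨mul_one 1, star_one _⟩

/-- the norm of `(1 - v)⁻¹` -/
theorem inv_norm (hv : Gap 1 v K) (h : CU R 1 v) (hK : 0 ≤ K) : ‖Ring.inverse (1 - v)‖ ≤ K := by
  refine ContinuousLinearMap.opNorm_le_bound _ hK fun ξ => ?_
  have h1 := hv (Ring.inverse (1 - v) ξ)
  have h2 : (1 - v) (Ring.inverse (1 - v) ξ) = ξ := by
    change ((1 - v) * Ring.inverse (1 - v)) ξ = ξ
    rw [Ring.mul_inverse_cancel _ (Cay_isUnit hv h)]
    rfl
  rw [h2] at h1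
  exact h1

private theorem Cay_key (hv : Gap 1 v K) (h : CU R 1 v) :
    Ring.inverse (1 - v) + Ring.inverse (1 - star v) = 1 := by
  have u1 := Cay_isUnit hv h
  have u2 : IsUnit (1 - star v) := (hv.adj h Cay_one).isUnit h.adj
  have h1 := Ring.mul_inverse_cancel _ u1
  have h3 := Ring.inverse_mul_cancel _ u2
  have h5 := h.r
  have e : (1 - v) * (Ring.inverse (1 - v) + Ring.inverse (1 - star v)) * (1 - star v) =
      (1 - v) * 1 * (1 - star v) := by
    calc (1 - v) * (Ring.inverse (1 - v) + Ring.inverse (1 - star v)) * (1 - star v)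
        = ((1 - v) * Ring.inverse (1 - v)) * (1 - star v) +
          (1 - v) * (Ring.inverse (1 - star v) * (1 - star v)) := by noncomm_ring
      _ = (1 - star v) + (1 - v) := by rw [h1, h3, one_mul, mul_one]
      _ = 1 - v - star v + 1 := by abel
      _ = 1 - v - star v + v * star v := by rw [h5]
      _ = (1 - v) * 1 * (1 - star v) := by noncomm_ring
  exact u1.mul_left_cancel (u2.mul_right_cancel e)

theorem Cay_adj (hv : Gap 1 v K) (h : CU R 1 v) : Cay (star v) = -Cay v := by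
  have h1 := Cay_key hv h
  have h2 : Ring.inverse (1 - star v) = 1 - Ring.inverse (1 - v) := eq_sub_of_add_eq' h1
  unfold Cay
  rw [h2]
  module

theorem Cay_sa (hv : Gap 1 v K) (h : CU R 1 v) : star (Cay v) = Cay v := by
  have h1 := Cay_key hv h
  have h2 : Ring.inverse (1 - star v) = 1 - Ring.inverse (1 - v) := eq_sub_of_add_eq' h1
  have h3 : star (Ring.inverse (1 - v)) = Ring.inverse (1 - star v) := by
    rw [← Ring.inverse_star, star_sub, star_one]
  unfold Cay
  rw [star_add, star_smul, star_smul, star_one, h3, h2]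
  have h4 : star (-Complex.I) = Complex.I := by simp
  have h5 : star (2 * Complex.I) = -(2 * Complex.I) := by simp
  rw [h4, h5]
  module

theorem Cay_mem (hv : v ∈ R) : Cay v ∈ R := by
  apply mem_of_comm
  intro S hS
  have h1 : Commute S (1 - v) := by
    change S * (1 - v) = (1 - v) * S
    rw [mul_sub, sub_mul, hS v hv, mul_one, one_mul]
  have h2 : Commute S (Ring.inverse (1 - v)) := by
    by_cases hu : IsUnit (1 - v)
    · obtain ⟨u, hu⟩ := hu
      rw [← hu] at h1 ⊢
      rw [Ring.inverse_unit]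
      exact h1.units_inv_right
    · rw [Ring.inverse_non_unit _ hu]
      exact Commute.zero_right S
  unfold Cay
  have h3 : Commute S ((2 * Complex.I) • Ring.inverse (1 - v)) := h2.smul_right _
  have h4 : Commute S (-Complex.I • (1 : H →L[ℂ] H)) := (Commute.one_right S).smul_right _
  exact h4.add_right h3

theorem Cay_norm (hv : Gap 1 v K) (h : CU R 1 v) (hK : 0 ≤ K) : ‖Cay v‖ ≤ 1 + 2 * K := by
  unfold Cay
  refine (norm_add_le _ _).trans (add_le_add ?_ ?_)
  · rw [norm_smul, norm_neg, Complex.norm_I, one_mul]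
    exact Cay_one.norm_le
  · rw [norm_smul]
    have h1 : ‖2 * Complex.I‖ = 2 := by simp
    rw [h1]
    exact mul_le_mul_of_nonneg_left (inv_norm hv h hK) (by norm_num)

theorem Cay_sub_norm (hv : Gap 1 v K) (h : CU R 1 v) (hK : 0 ≤ K) {R' : VonNeumannAlgebra H}
    (hw : Gap 1 w K') (h' : CU R' 1 w) (hK' : 0 ≤ K') :
    ‖Cay v - Cay w‖ ≤ 2 * K * K' * ‖v - w‖ := by
  have u1 := Cay_isUnit hv h
  have u2 := Cay_isUnit hw h'
  have e1 : Ring.inverse (1 - v) - Ring.inverse (1 - w) =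
      Ring.inverse (1 - v) * (v - w) * Ring.inverse (1 - w) := by
    calc Ring.inverse (1 - v) - Ring.inverse (1 - w)
        = Ring.inverse (1 - v) * ((1 - w) * Ring.inverse (1 - w)) -
          (Ring.inverse (1 - v) * (1 - v)) * Ring.inverse (1 - w) := by
          rw [Ring.mul_inverse_cancel _ u2, Ring.inverse_mul_cancel _ u1, mul_one, one_mul]
      _ = Ring.inverse (1 - v) * (v - w) * Ring.inverse (1 - w) := by noncomm_ring
  have e2 : Cay v - Cay w =
      (2 * Complex.I) • (Ring.inverse (1 - v) * (v - w) * Ring.inverse (1 - w)) := by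
    rw [← e1]
    unfold Cay
    module
  have h1 : ‖2 * Complex.I‖ = 2 := by simp
  rw [e2, norm_smul, h1]
  have h2 := inv_norm hv h hK
  have h3 := inv_norm hw h' hK'
  have h4 : ‖Ring.inverse (1 - v) * (v - w) * Ring.inverse (1 - w)‖ ≤ K * ‖v - w‖ * K' := by
    refine (norm_mul_le _ _).trans ?_
    refine mul_le_mul ((norm_mul_le _ _).trans ?_) h3 (norm_nonneg _)
      (mul_nonneg hK (norm_nonneg _))
    exact mul_le_mul_of_nonneg_right h2 (norm_nonneg _)
  linarith

theorem Cay_conj (hv : Gap 1 v K) (h : CU R 1 v) (hD : CU R 1 D) :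
    Cay (D * v * star D) = D * Cay v * star D := by
  have u1 := Cay_isUnit hv h
  have e1 : 1 - D * v * star D = D * (1 - v) * star D := by
    rw [mul_sub, sub_mul, mul_one, hD.r]
  have e2 : (1 - D * v * star D) * (D * Ring.inverse (1 - v) * star D) = 1 := by
    rw [e1]
    calc D * (1 - v) * star D * (D * Ring.inverse (1 - v) * star D)
        = D * (1 - v) * (star D * D) * Ring.inverse (1 - v) * star D := by noncomm_ring
      _ = D * ((1 - v) * Ring.inverse (1 - v)) * star D := by rw [hD.l]; noncomm_ring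
      _ = 1 := by rw [Ring.mul_inverse_cancel _ u1, mul_one, hD.r]
  have e3 : (D * Ring.inverse (1 - v) * star D) * (1 - D * v * star D) = 1 := by
    rw [e1]
    calc D * Ring.inverse (1 - v) * star D * (D * (1 - v) * star D)
        = D * Ring.inverse (1 - v) * (star D * D) * (1 - v) * star D := by noncomm_ring
      _ = D * (Ring.inverse (1 - v) * (1 - v)) * star D := by rw [hD.l]; noncomm_ring
      _ = 1 := by rw [Ring.inverse_mul_cancel _ u1, mul_one, hD.r]
  have e4 : Ring.inverse (1 - D * v * star D) = D * Ring.inverse (1 - v) * star D := by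
    have u3 : IsUnit (1 - D * v * star D) := ⟨⟨_, _, e2, e3⟩, rfl⟩
    exact u3.mul_left_cancel (by rw [Ring.mul_inverse_cancel _ u3, e2])
  unfold Cay
  rw [e4, mul_add, add_mul, mul_smul_comm, smul_mul_assoc, mul_smul_comm, smul_mul_assoc, mul_one,
    hD.r]

end Pool.Agent.KKS

end

section

/-!
# Cay2: the Cayley transform: corners and differences
-/


open Filter Topology

namespace Pool.Agent.KKS

variable {H : Type*} [NormedAddCommGroup H] [InnerProductSpace ℂ H] [CompleteSpace H]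
variable {R : VonNeumannAlgebra H} {v w D : H →L[ℂ] H} {K K' : ℝ}

/-- the Cayley transform of an extension by `-1` lives in the corner -/
theorem Cay_hat {E g : H →L[ℂ] H} (hE : PJ E) (hg : CU R E g) (hG : Gap E g K) (hK : 1 ≤ K) :
    E * Cay (g - (1 - E)) = Cay (g - (1 - E)) ∧ Cay (g - (1 - E)) * E = Cay (g - (1 - E)) := by
  have hg' : CU topVN E g := ⟨mem_topVN _, hg.l, hg.r⟩
  have hu : IsUnit (1 - (g - (1 - E))) := (hG.hat hK hg hE).isUnit (hg'.hat hE (mem_topVN _))
  have h1 := Ring.mul_inverse_cancel _ hu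
  have h2 := Ring.inverse_mul_cancel _ hu
  have e1 := hg.left hE
  have e2 := hg.right hE
  have e3 := hE.idem
  have e4 : (1 - (g - (1 - E))) * (1 - E) = (2 : ℂ) • (1 - E) := by
    have : (1 - (g - (1 - E))) * (1 - E) = (1 - E) + (1 - E) - (g - g * E) - (E - E * E) := by
      noncomm_ring
    rw [this, e2, e3, sub_self, sub_self, two_smul]
    abel
  have e5 : (1 - E) * (1 - (g - (1 - E))) = (2 : ℂ) • (1 - E) := by
    have : (1 - E) * (1 - (g - (1 - E))) = (1 - E) + (1 - E) - (g - E * g) - (E - E * E) := by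
      noncomm_ring
    rw [this, e1, e3, sub_self, sub_self, two_smul]
    abel
  have e6 : Ring.inverse (1 - (g - (1 - E))) * (1 - E) = (1 / 2 : ℂ) • (1 - E) := by
    have : (1 - E) = Ring.inverse (1 - (g - (1 - E))) * ((2 : ℂ) • (1 - E)) := by
      rw [← e4, ← mul_assoc, h2, one_mul]
    rw [mul_smul_comm] at this
    calc Ring.inverse (1 - (g - (1 - E))) * (1 - E)
        = (1 / 2 : ℂ) • ((2 : ℂ) • (Ring.inverse (1 - (g - (1 - E))) * (1 - E))) := by
          rw [smul_smul]; norm_num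
      _ = (1 / 2 : ℂ) • (1 - E) := by rw [← this]
  have e7 : (1 - E) * Ring.inverse (1 - (g - (1 - E))) = (1 / 2 : ℂ) • (1 - E) := by
    have : (1 - E) = ((2 : ℂ) • (1 - E)) * Ring.inverse (1 - (g - (1 - E))) := by
      rw [← e5, mul_assoc, h1, mul_one]
    rw [smul_mul_assoc] at this
    calc (1 - E) * Ring.inverse (1 - (g - (1 - E)))
        = (1 / 2 : ℂ) • ((2 : ℂ) • ((1 - E) * Ring.inverse (1 - (g - (1 - E))))) := by
          rw [smul_smul]; norm_num
      _ = (1 / 2 : ℂ) • (1 - E) := by rw [← this]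
  have e8 : (1 - E) * Cay (g - (1 - E)) = 0 := by
    unfold Cay
    rw [mul_add, mul_smul_comm, mul_smul_comm, e7, mul_one, smul_smul, ← add_smul]
    have : -Complex.I + 2 * Complex.I * (1 / 2) = 0 := by ring
    rw [this, zero_smul]
  have e9 : Cay (g - (1 - E)) * (1 - E) = 0 := by
    unfold Cay
    rw [add_mul, smul_mul_assoc, smul_mul_assoc, e6, one_mul, smul_smul, ← add_smul]
    have : -Complex.I + 2 * Complex.I * (1 / 2) = 0 := by ring
    rw [this, zero_smul]
  constructor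
  · rw [sub_mul, one_mul, sub_eq_zero] at e8
    exact e8.symm
  · rw [mul_sub, mul_one, sub_eq_zero] at e9
    exact e9.symm

/-- `v = (C - i)(C + i)⁻¹`, in the form `v (C + i) = C - i`, `(C + i) v = C - i` -/
theorem Cay_eq (hv : Gap 1 v K) (h : CU R 1 v) :
    v * (Cay v + Complex.I • 1) = Cay v - Complex.I • 1 ∧
      (Cay v + Complex.I • 1) * v = Cay v - Complex.I • 1 := by
  have hu := hv.isUnit h
  have h1 := Ring.mul_inverse_cancel _ hu
  have h2 := Ring.inverse_mul_cancel _ hu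
  have e1 : Cay v + Complex.I • 1 = (2 * Complex.I) • Ring.inverse (1 - v) := by
    unfold Cay
    module
  have e2 : v * Ring.inverse (1 - v) = Ring.inverse (1 - v) - 1 := by
    rw [sub_mul, one_mul] at h1
    exact (sub_eq_of_eq_add' (sub_eq_iff_eq_add.1 h1)).symm
  have e3 : Ring.inverse (1 - v) * v = Ring.inverse (1 - v) - 1 := by
    rw [mul_sub, mul_one] at h2
    exact (sub_eq_of_eq_add' (sub_eq_iff_eq_add.1 h2)).symm
  rw [e1, mul_smul_comm, smul_mul_assoc, e2, e3]
  unfold Cay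
  constructor <;> module

private theorem Cay2_inv_low {v : H →L[ℂ] H} (hu : IsUnit (1 - v)) (hv : ‖v‖ ≤ 1) (ξ : H) :
    1 / 2 * ‖ξ‖ ≤ ‖Ring.inverse (1 - v) ξ‖ := by
  have h1 : (1 - v) (Ring.inverse (1 - v) ξ) = ξ := by
    change ((1 - v) * Ring.inverse (1 - v)) ξ = ξ
    rw [Ring.mul_inverse_cancel _ hu]
    rfl
  have h2 : ‖(1 - v) (Ring.inverse (1 - v) ξ)‖ ≤ 2 * ‖Ring.inverse (1 - v) ξ‖ := by
    rw [sub_apply, one_apply_eq_self]
    refine (norm_sub_le _ _).trans ?_
    have h3 := v.le_opNorm (Ring.inverse (1 - v) ξ)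
    nlinarith [norm_nonneg (Ring.inverse (1 - v) ξ)]
  rw [h1] at h2
  linarith

/-- `c = C(w) - C(u)`, `w = u G`: `w - u = 2 i (C(u) + i)⁻¹ c (C(w) + i)⁻¹`, so `‖c⁻¹‖ ≤ 2 ‖(1 - G)⁻¹‖` -/
theorem Cay_diff_bound {u G : H →L[ℂ] H} (hu : CU R 1 u) (hw : CU R 1 w) (hG : CU R 1 G)
    (hwu : w = u * G) {K₀ : ℝ} (hgu : Gap 1 u K₀) (hgw : Gap 1 w K₀) (hgG : Gap 1 G K) (hK : 0 < K)
    (ξ : H) : 1 / (2 * K) * ‖ξ‖ ≤ ‖(Cay w - Cay u) ξ‖ := by
  have hone : PJ (1 : H →L[ℂ] H) := ⟨mul_one 1, star_one _⟩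
  have u1 := hgu.isUnit hu
  have u2 := hgw.isUnit hw
  have e1 : Ring.inverse (1 - w) - Ring.inverse (1 - u) =
      Ring.inverse (1 - w) * (w - u) * Ring.inverse (1 - u) := by
    calc Ring.inverse (1 - w) - Ring.inverse (1 - u)
        = Ring.inverse (1 - w) * ((1 - u) * Ring.inverse (1 - u)) -
          (Ring.inverse (1 - w) * (1 - w)) * Ring.inverse (1 - u) := by
          rw [Ring.mul_inverse_cancel _ u1, Ring.inverse_mul_cancel _ u2, mul_one, one_mul]
      _ = Ring.inverse (1 - w) * (w - u) * Ring.inverse (1 - u) := by noncomm_ring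
  have e2 : (Cay w - Cay u) ξ =
      (2 * Complex.I) • (Ring.inverse (1 - w) ((w - u) (Ring.inverse (1 - u) ξ))) := by
    have e3 : Cay w - Cay u =
        (2 * Complex.I) • (Ring.inverse (1 - w) * (w - u) * Ring.inverse (1 - u)) := by
      rw [← e1]
      unfold Cay
      module
    rw [e3]
    rfl
  have h1 : ‖2 * Complex.I‖ = 2 := by simp
  rw [e2, norm_smul, h1]
  have h2 := Cay2_inv_low u2 (hw.norm_le hone) ((w - u) (Ring.inverse (1 - u) ξ))
  have h3 := Cay2_inv_low u1 (hu.norm_le hone) ξ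
  have h4 : ‖(w - u) (Ring.inverse (1 - u) ξ)‖ = ‖(1 - G) (Ring.inverse (1 - u) ξ)‖ := by
    have e4 : (w - u) (Ring.inverse (1 - u) ξ) = - u ((1 - G) (Ring.inverse (1 - u) ξ)) := by
      rw [hwu]
      have : u * G - u = - (u * (1 - G)) := by noncomm_ring
      rw [this]
      rfl
    rw [e4, norm_neg, hu.norm_apply hone, one_apply_eq_self]
  have h5 := hgG (Ring.inverse (1 - u) ξ)
  rw [one_apply_eq_self] at h5
  have h6 : 1 / K * ‖Ring.inverse (1 - u) ξ‖ ≤ ‖(1 - G) (Ring.inverse (1 - u) ξ)‖ := by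
    rw [one_div, inv_mul_le_iff₀ hK]
    exact h5
  have h7 : 1 / K * (1 / 2 * ‖ξ‖) ≤ 1 / K * ‖Ring.inverse (1 - u) ξ‖ :=
    mul_le_mul_of_nonneg_left h3 (by positivity)
  have h8 : 1 / (2 * K) * ‖ξ‖ = 1 / K * (1 / 2 * ‖ξ‖) := by
    field_simp
  rw [h8]
  rw [h4] at h2
  linarith

end Pool.Agent.KKS

end

section

/-!
# Cay3: the identity for L and the Cayley transform
-/


open Filter Topology

namespace Pool.Agent.KKS

variable {H : Type*} [NormedAddCommGroup H] [InnerProductSpace ℂ H] [CompleteSpace H]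
variable {R : VonNeumannAlgebra H} {v w D : H →L[ℂ] H} {K K' : ℝ}

/-- (6.5) with `a = C(u)`, `c = C(w) - C(u)`: `C(G) = - u⋆ (a + (a - i) c⁻¹ (a + i)) u` and `omega_id` -/
theorem cayley_omega {τ : (H →L[ℂ] H) →L[ℂ] ℂ} (hτ : IsTrace R τ) {u G s : H →L[ℂ] H}
    (hu : CU R 1 u) (hw : CU R 1 w) (hG : CU R 1 G) (hwu : w = u * G) {K₀ : ℝ}
    (hgu : Gap 1 u K₀) (hgw : Gap 1 w K₀) (hgG : Gap 1 G K) {β : ℝ} (hβ : 0 < β) (hs : s ∈ R)
    (hS : IsSgn (Cay w - Cay u) s β) :
    Lf τ (Cay G) = Lf τ (Cay w) - Lf τ (Cay u) - Real.pi / 2 * (τ s).re := by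
  have u1 := hgu.isUnit hu
  have u2 := hgw.isUnit hw
  have u3 := hgG.isUnit hG
  obtain ⟨a1, a2⟩ := And.intro (Ring.mul_inverse_cancel _ u1) (Ring.inverse_mul_cancel _ u1)
  obtain ⟨b1, b2⟩ := And.intro (Ring.mul_inverse_cancel _ u2) (Ring.inverse_mul_cancel _ u2)
  obtain ⟨c1, c2⟩ := And.intro (Ring.mul_inverse_cancel _ u3) (Ring.inverse_mul_cancel _ u3)
  have hul := hu.l
  have hur := hu.r
  -- the difference of the Cayley transforms
  have e1 : Ring.inverse (1 - w) - Ring.inverse (1 - u) =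
      Ring.inverse (1 - w) * (w - u) * Ring.inverse (1 - u) := by
    calc Ring.inverse (1 - w) - Ring.inverse (1 - u)
        = Ring.inverse (1 - w) * ((1 - u) * Ring.inverse (1 - u)) -
          (Ring.inverse (1 - w) * (1 - w)) * Ring.inverse (1 - u) := by
          rw [a1, b2, mul_one, one_mul]
      _ = Ring.inverse (1 - w) * (w - u) * Ring.inverse (1 - u) := by noncomm_ring
  have e1' : Ring.inverse (1 - w) - Ring.inverse (1 - u) =
      Ring.inverse (1 - u) * (w - u) * Ring.inverse (1 - w) := by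
    calc Ring.inverse (1 - w) - Ring.inverse (1 - u)
        = (Ring.inverse (1 - u) * (1 - u)) * Ring.inverse (1 - w) -
          Ring.inverse (1 - u) * ((1 - w) * Ring.inverse (1 - w)) := by
          rw [a2, b1, mul_one, one_mul]
      _ = Ring.inverse (1 - u) * (w - u) * Ring.inverse (1 - w) := by noncomm_ring
  have hc : Cay w - Cay u =
      (2 * Complex.I) • (Ring.inverse (1 - w) * (w - u) * Ring.inverse (1 - u)) := by
    rw [← e1]
    unfold Cay
    module
  have hc' : Cay w - Cay u =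
      (2 * Complex.I) • (Ring.inverse (1 - u) * (w - u) * Ring.inverse (1 - w)) := by
    rw [← e1']
    unfold Cay
    module
  have hwu1 : w - u = - (u * (1 - G)) := by rw [hwu]; noncomm_ring
  -- the inverse of the difference
  let D : H →L[ℂ] H := -(Ring.inverse (1 - G) * star u)
  have hD1 : (w - u) * D = 1 := by
    rw [hwu1]
    calc -(u * (1 - G)) * -(Ring.inverse (1 - G) * star u)
        = u * ((1 - G) * Ring.inverse (1 - G)) * star u := by noncomm_ring
      _ = 1 := by rw [c1, mul_one, hur]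
  have hD2 : D * (w - u) = 1 := by
    rw [hwu1]
    calc -(Ring.inverse (1 - G) * star u) * -(u * (1 - G))
        = Ring.inverse (1 - G) * (star u * u) * (1 - G) := by noncomm_ring
      _ = 1 := by rw [hul, mul_one, c2]
  have hI : (2 * Complex.I) ≠ 0 := by simp
  let ci : H →L[ℂ] H := (2 * Complex.I)⁻¹ • ((1 - w) * D * (1 - u))
  have h1 : (Cay w - Cay u) * ci = 1 := by
    rw [hc']
    change ((2 * Complex.I) • (Ring.inverse (1 - u) * (w - u) * Ring.inverse (1 - w))) *
      ((2 * Complex.I)⁻¹ • ((1 - w) * D * (1 - u))) = 1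
    rw [smul_mul_smul_comm, mul_inv_cancel₀ hI, one_smul]
    calc Ring.inverse (1 - u) * (w - u) * Ring.inverse (1 - w) * ((1 - w) * D * (1 - u))
        = Ring.inverse (1 - u) * (w - u) * (Ring.inverse (1 - w) * (1 - w)) * D * (1 - u) := by
          noncomm_ring
      _ = Ring.inverse (1 - u) * ((w - u) * D) * (1 - u) := by rw [b2, mul_one]; noncomm_ring
      _ = 1 := by rw [hD1, mul_one, a2]
  have h2 : ci * (Cay w - Cay u) = 1 := by
    rw [hc]
    change ((2 * Complex.I)⁻¹ • ((1 - w) * D * (1 - u))) *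
      ((2 * Complex.I) • (Ring.inverse (1 - w) * (w - u) * Ring.inverse (1 - u))) = 1
    rw [← hc, hc', smul_mul_smul_comm, inv_mul_cancel₀ hI, one_smul]
    calc (1 - w) * D * (1 - u) * (Ring.inverse (1 - u) * (w - u) * Ring.inverse (1 - w))
        = (1 - w) * D * ((1 - u) * Ring.inverse (1 - u)) * (w - u) * Ring.inverse (1 - w) := by
          noncomm_ring
      _ = (1 - w) * (D * (w - u)) * Ring.inverse (1 - w) := by rw [a1, mul_one]; noncomm_ring
      _ = 1 := by rw [hD2, mul_one, b1]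
  -- the identity for C(G)
  have hau : Cay u + Complex.I • 1 = (2 * Complex.I) • Ring.inverse (1 - u) := by
    unfold Cay
    module
  have e2 : u * Ring.inverse (1 - u) = Ring.inverse (1 - u) - 1 := by
    rw [sub_mul, one_mul] at a1
    exact (sub_eq_of_eq_add' (sub_eq_iff_eq_add.1 a1)).symm
  have e3 : Ring.inverse (1 - u) * u = Ring.inverse (1 - u) - 1 := by
    rw [mul_sub, mul_one] at a2
    exact (sub_eq_of_eq_add' (sub_eq_iff_eq_add.1 a2)).symm
  have hau' : Cay u - Complex.I • 1 = (2 * Complex.I) • (Ring.inverse (1 - u) * u) := by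
    rw [e3]
    unfold Cay
    module
  have e4 : (Cay u - Complex.I • 1) * ci * (Cay u + Complex.I • 1) =
      (2 * Complex.I) • (Ring.inverse (1 - u) * u * (1 - w) * D) := by
    rw [hau, hau']
    change ((2 * Complex.I) • (Ring.inverse (1 - u) * u)) *
      ((2 * Complex.I)⁻¹ • ((1 - w) * D * (1 - u))) * ((2 * Complex.I) • Ring.inverse (1 - u)) = _
    rw [smul_mul_smul_comm, mul_inv_cancel₀ hI, one_smul, mul_smul_comm]
    congr 1
    calc Ring.inverse (1 - u) * u * ((1 - w) * D * (1 - u)) * Ring.inverse (1 - u)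
        = Ring.inverse (1 - u) * u * (1 - w) * D * ((1 - u) * Ring.inverse (1 - u)) := by
          noncomm_ring
      _ = Ring.inverse (1 - u) * u * (1 - w) * D := by rw [a1, mul_one]
  have e5 : Ring.inverse (1 - u) * u * (1 - w) * D =
      - (u * Ring.inverse (1 - G) * star u) - Ring.inverse (1 - u) * u := by
    have u4 : IsUnit (w - u) := ⟨⟨_, _, hD1, hD2⟩, rfl⟩
    have e6 : u * Ring.inverse (1 - G) * star u * (w - u) = - u := by
      rw [hwu1]
      calc u * Ring.inverse (1 - G) * star u * -(u * (1 - G))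
          = -(u * (Ring.inverse (1 - G) * (star u * u) * (1 - G))) := by noncomm_ring
        _ = - u := by rw [hul, mul_one, c2, mul_one]
    apply u4.mul_right_cancel
    rw [mul_assoc _ D, hD2, mul_one, sub_mul, neg_mul, e6, neg_neg]
    apply u1.mul_left_cancel
    have e7 : (1 - u) * (Ring.inverse (1 - u) * u * (1 - w)) = u * (1 - w) := by
      calc (1 - u) * (Ring.inverse (1 - u) * u * (1 - w))
          = ((1 - u) * Ring.inverse (1 - u)) * u * (1 - w) := by noncomm_ring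
        _ = u * (1 - w) := by rw [a1, one_mul]
    have e8 : (1 - u) * (u - Ring.inverse (1 - u) * u * (w - u)) = u * (1 - w) := by
      calc (1 - u) * (u - Ring.inverse (1 - u) * u * (w - u))
          = (1 - u) * u - ((1 - u) * Ring.inverse (1 - u)) * u * (w - u) := by noncomm_ring
        _ = u * (1 - w) := by rw [a1, one_mul]; noncomm_ring
    rw [e7, e8]
  let X : H →L[ℂ] H := Cay u + (Cay u - Complex.I • 1) * ci * (Cay u + Complex.I • 1)
  have hX : u * Cay G * star u = - X := by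
    change u * Cay G * star u =
      -(Cay u + (Cay u - Complex.I • 1) * ci * (Cay u + Complex.I • 1))
    rw [e4, e5, e3]
    have e9 : u * Cay G * star u =
        -Complex.I • 1 + (2 * Complex.I) • (u * Ring.inverse (1 - G) * star u) := by
      unfold Cay
      rw [mul_add, add_mul, mul_smul_comm, mul_smul_comm, smul_mul_assoc, smul_mul_assoc, mul_one,
        hur]
    rw [e9]
    unfold Cay
    module
  have hmu : Cay u ∈ R := Cay_mem hu.mem
  have hmw : Cay w ∈ R := Cay_mem hw.mem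
  have hmG : Cay G ∈ R := Cay_mem hG.mem
  have hom := omega_id hτ hmu (Cay_sa hgu hu) (sub_mem hmw hmu) hs hS hβ h1 h2
  have hsum : Cay u + (Cay w - Cay u) = Cay w := by abel
  rw [hsum] at hom
  have hLX : Lf τ X = - Lf τ (Cay G) := by
    have h3 : X = - (u * Cay G * star u) := by rw [hX, neg_neg]
    rw [h3, Lf_neg, Lf_conj hτ hu.mem hmG (Cay_sa hgG hG) (by rw [hul, one_mul])]
  change Lf τ (Cay w) + Lf τ X - Lf τ (Cay u) = _ at hom
  rw [hLX] at hom
  linarith

end Pool.Agent.KKS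

end
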