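import Pool.Agent.Lib.MP_5c1ef7_an.P09

/-!
# P10: the function ell, frames
-/

set_option autoImplicit false
set_option linter.unusedSectionVars false

section

/-!
# Ell: the function ell
-/


open Filter Topology

namespace Pool.Agent.KKS

variable {H : Type*} [NormedAddCommGroup H] [InnerProductSpace ℂ H] [CompleteSpace H]
variable {R R' : VonNeumannAlgebra H} {τ : (H →L[ℂ] H) →L[ℂ] ℂ} {E E' g g' q θ : H →L[ℂ] H}

/-- `ℓ_E(g) = L(C(g - (1 - E)))` -/
noncomputable def ell (τ : (H →L[ℂ] H) →L[ℂ] ℂ) (E g : H →L[ℂ] H) : ℝ :=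
  Lf τ (Cay (g - (1 - E)))

private theorem Ell_unique {V Y : H →L[ℂ] H} (hu : IsUnit (1 - V))
    (h : (Y + Complex.I • 1) * (1 - V) = (2 * Complex.I) • 1) : Cay V = Y := by
  have h1 := Ring.mul_inverse_cancel _ hu
  have e1 : Y + Complex.I • 1 = (2 * Complex.I) • Ring.inverse (1 - V) := by
    calc Y + Complex.I • 1 = (Y + Complex.I • 1) * ((1 - V) * Ring.inverse (1 - V)) := by
          rw [h1, mul_one]
      _ = ((Y + Complex.I • 1) * (1 - V)) * Ring.inverse (1 - V) := by noncomm_ring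
      _ = (2 * Complex.I) • Ring.inverse (1 - V) := by rw [h, smul_mul_assoc, one_mul]
  have e2 : Y = (2 * Complex.I) • Ring.inverse (1 - V) - Complex.I • 1 := eq_sub_of_add_eq e1
  rw [e2]
  unfold Cay
  module

/-- `C (ĝ) (E - g) = i (g + E)` -/
private theorem Ell_corner (hE : PJ E) (hg : CU R E g) (hG : Gap E g 2) :
    Cay (g - (1 - E)) * (E - g) = Complex.I • (g + E) := by
  have hg' : CU topVN E g := ⟨mem_topVN _, hg.l, hg.r⟩
  have hu : IsUnit (1 - (g - (1 - E))) :=
    (hG.hat (by norm_num) hg hE).isUnit (hg'.hat hE (mem_topVN _))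
  have h1 := Ring.inverse_mul_cancel _ hu
  have e1 : (Cay (g - (1 - E)) + Complex.I • 1) * (1 - (g - (1 - E))) = (2 * Complex.I) • 1 := by
    have : Cay (g - (1 - E)) + Complex.I • 1 =
        (2 * Complex.I) • Ring.inverse (1 - (g - (1 - E))) := by
      unfold Cay
      module
    rw [this, smul_mul_assoc, h1]
  have e2 : Cay (g - (1 - E)) * E = Cay (g - (1 - E)) := (Cay_hat hE hg hG (by norm_num)).2
  have e3 : E * (1 - (g - (1 - E))) = E - g := by
    have : E * (1 - (g - (1 - E))) = E - E * g + (E - E * E) := by noncomm_ring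
    rw [this, hg.left hE, hE.idem, sub_self, add_zero]
  have e4 : Cay (g - (1 - E)) * (1 - (g - (1 - E))) = Cay (g - (1 - E)) * (E - g) := by
    rw [← e3, ← mul_assoc, e2]
  rw [add_mul, e4, smul_mul_assoc, one_mul] at e1
  have e5 := eq_sub_of_add_eq e1
  rw [e5]
  module

theorem ell_adj (hE : PJ E) (hER : E ∈ R) (hg : CU R E g) (hG : Gap E g 2) :
    ell τ E (star g) = -ell τ E g := by
  unfold ell
  have e1 : star g - (1 - E) = star (g - (1 - E)) := by
    rw [star_sub, star_sub, star_one, hE.sa]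
  rw [e1, Cay_adj (hG.hat (by norm_num) hg hE) (hg.hat hE hER), Lf_neg]

/-- Lipschitz estimate: `Cay_sub_norm`, `Lf_lip` -/
theorem ell_lip (hτ : PosF τ) (hE : PJ E) (hER : E ∈ R) (hER' : E ∈ R') (hg : CU R E g)
    (hG : Gap E g 2) (hg' : CU R' E g') (hG' : Gap E g' 2) :
    |ell τ E g - ell τ E g'| ≤ 500 * ‖g - g'‖ * (τ E).re := by
  have hh := hG.hat (by norm_num) hg hE
  have hh' := hG'.hat (by norm_num) hg' hE
  have hc := hg.hat hE hER
  have hc' := hg'.hat hE hER'
  have k1 := Cay_hat hE hg hG (by norm_num)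
  have k2 := Cay_hat hE hg' hG' (by norm_num)
  have h1 := Lf_lip hτ (E := E) (X := Cay (g - (1 - E))) (Y := Cay (g' - (1 - E))) hE
    (Cay_sa hh hc) (Cay_sa hh' hc') (by rw [k1.1, k1.2]) (by rw [k2.1, k2.2])
    (by have := Cay_norm hh hc (by norm_num); linarith)
    (by have := Cay_norm hh' hc' (by norm_num); linarith)
  have h2 := Cay_sub_norm hh hc (by norm_num) hh' hc' (by norm_num)
  have h3 : g - (1 - E) - (g' - (1 - E)) = g - g' := by abel
  rw [h3] at h2
  have h4 : 0 ≤ (τ E).re := by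
    have := (hτ E).1
    rwa [hE.sa, hE.idem] at this
  unfold ell
  refine h1.trans ?_
  refine mul_le_mul_of_nonneg_right ?_ h4
  nlinarith [norm_nonneg (g - g')]

theorem ell_add (hE : PJ E) (hE' : PJ E') (h0 : E * E' = 0) (hER : E ∈ R) (hER' : E' ∈ R)
    (hg : CU R E g) (hG : Gap E g 2) (hg' : CU R E' g') (hG' : Gap E' g' 2) :
    ell τ (E + E') (g + g') = ell τ E g + ell τ E' g' := by
  have h0' : E' * E = 0 := by
    have := congrArg star h0
    rwa [star_mul, hE.sa, hE'.sa, star_zero] at this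
  have k1 := Cay_hat hE hg hG (by norm_num)
  have k2 := Cay_hat hE' hg' hG' (by norm_num)
  have hEE : PJ (E + E') := hE.add hE' h0
  have hgg : CU R (E + E') (g + g') := hg.add hg' hE hE' h0
  have hGG : Gap (E + E') (g + g') 2 := Gap.add (by norm_num) hG hG' hg hg' hE hE' h0
  have hu : IsUnit (1 - (g + g' - (1 - (E + E')))) :=
    (hGG.hat (by norm_num) hgg hEE).isUnit (hgg.hat hEE (add_mem hER hER'))
  have e1 : E * g' = 0 := by rw [← hg'.left hE', ← mul_assoc, h0, zero_mul]
  have e2 : E' * g = 0 := by rw [← hg.left hE, ← mul_assoc, h0', zero_mul]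
  have e3 : E * (1 - (g + g' - (1 - (E + E')))) = E - g := by
    have : E * (1 - (g + g' - (1 - (E + E')))) = E - E * g - E * g' + (E - E * E) - E * E' := by
      noncomm_ring
    rw [this, hg.left hE, hE.idem, e1, h0]
    abel
  have e4 : E' * (1 - (g + g' - (1 - (E + E')))) = E' - g' := by
    have : E' * (1 - (g + g' - (1 - (E + E')))) =
        E' - E' * g' - E' * g + (E' - E' * E') - E' * E := by
      noncomm_ring
    rw [this, hg'.left hE', hE'.idem, e2, h0']
    abel
  have e5 : Cay (g - (1 - E)) * (1 - (g + g' - (1 - (E + E')))) = Complex.I • (g + E) := by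
    rw [← Ell_corner hE hg hG, ← e3, ← mul_assoc, k1.2]
  have e6 : Cay (g' - (1 - E')) * (1 - (g + g' - (1 - (E + E')))) = Complex.I • (g' + E') := by
    rw [← Ell_corner hE' hg' hG', ← e4, ← mul_assoc, k2.2]
  have e7 : Cay (g + g' - (1 - (E + E'))) = Cay (g - (1 - E)) + Cay (g' - (1 - E')) := by
    apply Ell_unique hu
    rw [add_mul, add_mul, e5, e6, smul_mul_assoc, one_mul]
    module
  unfold ell
  rw [e7]
  refine Lf_add (Cay_sa (hG.hat (by norm_num) hg hE) (hg.hat hE hER))
    (Cay_sa (hG'.hat (by norm_num) hg' hE') (hg'.hat hE' hER')) ?_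
  rw [← k1.2, ← k2.1, mul_assoc, ← mul_assoc E, h0, zero_mul, mul_zero]

theorem ell_conj (hτ : IsTrace R τ) (hE : PJ E) (hER : E ∈ R) (hq : q ∈ R)
    (hq1 : star q * q = E) (hg : CU R E g) (hG : Gap E g 2) :
    ell τ (q * star q) (q * g * star q) = ell τ E g := by
  have h1 : PJ (star q * q) := by rw [hq1]; exact hE
  have h2 : q * E = q := by
    have := h1.pi.1
    rwa [hq1] at this
  have h3 : E * star q = star q := by
    have := congrArg star h2
    rwa [star_mul, hE.sa] at this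
  have hF : PJ (q * star q) := h1.pi.2
  have hgF := hg.conj hE hq hq1
  have hGF := hG.conj hE hg hq1
  have hFR : q * star q ∈ R := mul_mem hq (star_mem hq)
  have k1 := Cay_hat hE hg hG (by norm_num)
  have hu : IsUnit (1 - (q * g * star q - (1 - q * star q))) :=
    (hGF.hat (by norm_num) hgF hF).isUnit (hgF.hat hF hFR)
  have e1 : star q * (1 - (q * g * star q - (1 - q * star q))) = (E - g) * star q := by
    calc star q * (1 - (q * g * star q - (1 - q * star q)))
        = star q - (star q * q) * g * star q + (star q - (star q * q) * star q) := by noncomm_ring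
      _ = (E - g) * star q := by
        rw [hq1, hg.left hE, h3, sub_self, add_zero, sub_mul, h3]
  have e2 : q * Cay (g - (1 - E)) * star q * (1 - (q * g * star q - (1 - q * star q))) =
      Complex.I • (q * g * star q + q * star q) := by
    calc q * Cay (g - (1 - E)) * star q * (1 - (q * g * star q - (1 - q * star q)))
        = q * Cay (g - (1 - E)) *
          (star q * (1 - (q * g * star q - (1 - q * star q)))) := by rw [mul_assoc]
      _ = q * (Cay (g - (1 - E)) * (E - g)) * star q := by rw [e1]; noncomm_ring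
      _ = Complex.I • (q * g * star q + q * star q) := by
        rw [Ell_corner hE hg hG, mul_smul_comm, smul_mul_assoc, mul_add, add_mul, h2]
  have e3 : Cay (q * g * star q - (1 - q * star q)) = q * Cay (g - (1 - E)) * star q := by
    apply Ell_unique hu
    rw [add_mul, e2, smul_mul_assoc, one_mul]
    module
  unfold ell
  rw [e3]
  refine Lf_conj hτ hq (Cay_mem (sub_mem hg.mem (sub_mem (one_mem R) hER)))
    (Cay_sa (hG.hat (by norm_num) hg hE) (hg.hat hE hER)) ?_
  rw [hq1, k1.1]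

end Pool.Agent.KKS

end

section

/-!
# Ell2: exponentials and logarithms
-/


open Filter Topology

namespace Pool.Agent.KKS

variable {H : Type*} [NormedAddCommGroup H] [InnerProductSpace ℂ H] [CompleteSpace H]
variable {R R' : VonNeumannAlgebra H} {τ : (H →L[ℂ] H) →L[ℂ] ℂ} {E E' g g' q θ : H →L[ℂ] H}

/-- `exp(i θ)` -/
noncomputable def ex (θ : H →L[ℂ] H) : H →L[ℂ] H := NormedSpace.exp (Complex.I • θ)

theorem ex_zero : ex (0 : H →L[ℂ] H) = 1 := by
  unfold ex
  rw [smul_zero, NormedSpace.exp_zero]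

theorem ex_mem (hθ : θ ∈ R) : ex θ ∈ R := by
  apply mem_of_comm
  intro S hS
  have h1 : Commute S (Complex.I • θ) := by
    have : Commute S θ := hS θ hθ
    exact this.smul_right _
  exact h1.exp_right

theorem ex_star (hs : star θ = θ) : star (ex θ) = ex (-θ) := by
  unfold ex
  rw [NormedSpace.star_exp, star_smul, hs]
  congr 1
  have : star Complex.I = -Complex.I := by simp
  rw [this, neg_smul, smul_neg]

theorem ex_unit (hs : star θ = θ) : star (ex θ) * ex θ = 1 ∧ ex θ * star (ex θ) = 1 := by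
  have h1 := (selfAdjoint.expUnitary (⟨θ, hs⟩ : selfAdjoint (H →L[ℂ] H))).2
  rw [selfAdjoint.expUnitary_coe, Unitary.mem_iff] at h1
  exact h1

theorem ex_norm (hs : star θ = θ) : ‖ex θ - 1‖ ≤ ‖θ‖ := by
  by_cases hπ : ‖θ‖ ≤ Real.pi
  · have h1 := selfAdjoint.norm_sq_expUnitary_sub_one
      (x := (⟨θ, hs⟩ : selfAdjoint (H →L[ℂ] H))) hπ
    rw [selfAdjoint.expUnitary_coe] at h1
    have h2 : ‖ex θ - 1‖ ^ 2 = 2 * (1 - Real.cos ‖θ‖) := h1
    have h3 : 1 - ‖θ‖ ^ 2 / 2 ≤ Real.cos ‖θ‖ := Real.one_sub_sq_div_two_le_cos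
    refine le_of_sq_le_sq ?_ (norm_nonneg _)
    rw [h2]
    linarith
  · push Not at hπ
    have h1 := Real.pi_gt_three
    have h2 : ‖ex θ‖ ≤ 1 := by
      have h3 : ‖ex θ‖ * ‖ex θ‖ = ‖(1 : H →L[ℂ] H)‖ := by
        rw [← (ex_unit hs).1, CStarRing.norm_star_mul_self]
      have h4 : ‖(1 : H →L[ℂ] H)‖ ≤ 1 := ContinuousLinearMap.norm_id_le
      nlinarith [norm_nonneg (ex θ)]
    have h4 : ‖(1 : H →L[ℂ] H)‖ ≤ 1 := ContinuousLinearMap.norm_id_le
    have h5 := norm_sub_le (ex θ) 1
    linarith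

/-- the logarithm of a unitary near 1 (`Unitary.argSelfAdjoint`) -/
theorem exists_log {v : H →L[ℂ] H} (hv : v ∈ R) (h1 : star v * v = 1) (h2 : v * star v = 1)
    (hn : ‖v - 1‖ ≤ 1 / 2) : ∃ θ ∈ R, star θ = θ ∧ ex θ = v ∧ ‖θ‖ ≤ 2 * ‖v - 1‖ := by
  let u : unitary (H →L[ℂ] H) := ⟨v, Unitary.mem_iff.2 ⟨h1, h2⟩⟩
  have hu : ‖((u : H →L[ℂ] H) - 1)‖ < 2 := by
    change ‖v - 1‖ < 2
    linarith
  have h3 := Unitary.two_mul_one_sub_cos_norm_argSelfAdjoint hu
  have h4 := Unitary.norm_argSelfAdjoint_le_pi u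
  have h5 := expUnitary_argSelfAdjoint hu
  refine ⟨(Unitary.argSelfAdjoint u : selfAdjoint (H →L[ℂ] H)), ?_,
    (Unitary.argSelfAdjoint u).2, ?_, ?_⟩
  · apply mem_of_comm
    intro S hS
    rw [Unitary.argSelfAdjoint_coe]
    have c1 : Commute v S := (hS v hv).symm
    have c2 : Commute (star v) S := (hS (star v) (star_mem hv)).symm
    exact (c1.cfc c2 (fun z => (Complex.arg z : ℂ))).symm
  · have h6 := congrArg (fun z : unitary (H →L[ℂ] H) => (z : H →L[ℂ] H)) h5
    simp only [selfAdjoint.expUnitary_coe] at h6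
    exact h6
  · change ‖Unitary.argSelfAdjoint u‖ ≤ 2 * ‖v - 1‖
    have h7 : Real.cos ‖Unitary.argSelfAdjoint u‖ ≤
        1 - 2 / Real.pi ^ 2 * ‖Unitary.argSelfAdjoint u‖ ^ 2 := by
      apply Real.cos_le_one_sub_mul_cos_sq
      rw [abs_of_nonneg (norm_nonneg _)]
      exact h4
    change 2 * (1 - Real.cos ‖Unitary.argSelfAdjoint u‖) = ‖v - 1‖ ^ 2 at h3
    refine le_of_sq_le_sq ?_ (by positivity)
    have h8 : (1 : ℝ) / 8 ≤ 2 / Real.pi ^ 2 := by
      have hp := Real.pi_pos
      have hp4 := Real.pi_le_four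
      rw [div_le_div_iff₀ (by norm_num) (by positivity)]
      nlinarith
    have h9 : 1 / 8 * ‖Unitary.argSelfAdjoint u‖ ^ 2 ≤
        2 / Real.pi ^ 2 * ‖Unitary.argSelfAdjoint u‖ ^ 2 :=
      mul_le_mul_of_nonneg_right h8 (sq_nonneg _)
    have h10 : (2 * ‖v - 1‖) ^ 2 = 4 * ‖v - 1‖ ^ 2 := by ring
    rw [h10, ← h3]
    linarith

end Pool.Agent.KKS

end

section

/-!
# Ell3: ell of an exponential
-/


open Filter Topology

namespace Pool.Agent.KKS

variable {H : Type*} [NormedAddCommGroup H] [InnerProductSpace ℂ H] [CompleteSpace H]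
variable {R R' : VonNeumannAlgebra H} {τ : (H →L[ℂ] H) →L[ℂ] ℂ} {E E' g g' q θ : H →L[ℂ] H}

private theorem Ell3_unique {V Y : H →L[ℂ] H} (hu : IsUnit (1 - V))
    (h : (Y + Complex.I • 1) * (1 - V) = (2 * Complex.I) • 1) : Cay V = Y := by
  have h1 := Ring.mul_inverse_cancel _ hu
  have e1 : Y + Complex.I • 1 = (2 * Complex.I) • Ring.inverse (1 - V) := by
    calc Y + Complex.I • 1 = (Y + Complex.I • 1) * ((1 - V) * Ring.inverse (1 - V)) := by
          rw [h1, mul_one]
      _ = ((Y + Complex.I • 1) * (1 - V)) * Ring.inverse (1 - V) := by noncomm_ring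
      _ = (2 * Complex.I) • Ring.inverse (1 - V) := by rw [h, smul_mul_assoc, one_mul]
  have e2 : Y = (2 * Complex.I) • Ring.inverse (1 - V) - Complex.I • 1 := eq_sub_of_add_eq e1
  rw [e2]
  unfold Cay
  module

/-- the gap of `- i W E` for `W` near `1` -/
private theorem Ell3_gap (hE : PJ E) {W : H →L[ℂ] H} (hW : ‖W - 1‖ ≤ 1) :
    Gap E (-Complex.I • (W * E)) 3 := by
  intro ξ
  have e1 : (E - -Complex.I • (W * E)) ξ =
      (1 + Complex.I) • E ξ + Complex.I • ((W - 1) (E ξ)) := by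
    have e0 : E - -Complex.I • (W * E) = (1 + Complex.I) • E + Complex.I • ((W - 1) * E) := by
      rw [sub_mul, one_mul]
      module
    rw [e0]
    rfl
  have e2 : ‖(1 + Complex.I) • E ξ‖ = Real.sqrt 2 * ‖E ξ‖ := by
    rw [norm_smul]
    congr 1
    rw [Complex.norm_def]
    congr 1
    simp [Complex.normSq_apply]
    norm_num
  have e3 : ‖Complex.I • ((W - 1) (E ξ))‖ ≤ ‖E ξ‖ := by
    rw [norm_smul, Complex.norm_I, one_mul]
    refine ((W - 1).le_opNorm _).trans ?_
    nlinarith [norm_nonneg (E ξ)]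
  have e4 : ‖(1 + Complex.I) • E ξ‖ ≤ ‖(E - -Complex.I • (W * E)) ξ‖ + ‖E ξ‖ := by
    have : (1 + Complex.I) • E ξ =
        (E - -Complex.I • (W * E)) ξ - Complex.I • ((W - 1) (E ξ)) := by
      rw [e1]; abel
    calc ‖(1 + Complex.I) • E ξ‖ = ‖(E - -Complex.I • (W * E)) ξ - Complex.I • ((W - 1) (E ξ))‖ := by
          rw [← this]
      _ ≤ _ := (norm_sub_le _ _).trans (add_le_add le_rfl e3)
  rw [e2] at e4
  have h2 : (1.4 : ℝ) ≤ Real.sqrt 2 := by
    rw [show (1.4 : ℝ) = Real.sqrt (1.4 ^ 2) by rw [Real.sqrt_sq (by norm_num)]]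
    exact Real.sqrt_le_sqrt (by norm_num)
  nlinarith [norm_nonneg (E ξ)]

private theorem Ell3_cu (hE : PJ E) {W : H →L[ℂ] H} (hWR : W ∈ R) (hER : E ∈ R)
    (h1 : star W * W = 1) (h2 : W * star W = 1) (hWE : W * E = E * W) :
    CU R E (-Complex.I • (W * E)) := by
  have h3 : star W * E = E * star W := by
    have := congrArg star hWE
    rw [star_mul, star_mul, hE.sa] at this
    exact this.symm
  have h4 : CU R E (W * E) := by
    refine ⟨mul_mem hWR hER, ?_, ?_⟩
    · rw [star_mul, hE.sa]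
      calc E * star W * (W * E) = E * (star W * W) * E := by noncomm_ring
        _ = E := by rw [h1, mul_one, hE.idem]
    · rw [star_mul, hE.sa]
      calc W * E * (E * star W) = W * (E * E) * star W := by noncomm_ring
        _ = E * (W * star W) := by rw [hE.idem, hWE]; noncomm_ring
        _ = E := by rw [h2, mul_one]
  exact h4.smul (by simp)

/-- `X' (1 + X²)⁻¹` for `X = C(v)`, `v = - i W E - (1 - E)`, `v' = W θ E` -/
private theorem Ell3_alg (hE : PJ E) {W v P v' : H →L[ℂ] H} (hs : star θ = θ)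
    (hv : v = -Complex.I • (W * E) - (1 - E)) (hP1 : (1 - v) * P = 1) (hP2 : P * (1 - v) = 1)
    (h1 : star W * W = 1) (h2 : W * star W = 1) (hWE : W * E = E * W) (hWθ : W * θ = θ * W)
    (hc : θ * E = E * θ) (hv' : v' = W * θ * E) (hsa : star (Cay v) = Cay v)
    (hCay : Cay v + Complex.I • 1 = (2 * Complex.I) • P) (hvv : v * star v = 1) :
    ((2 * Complex.I) • (P * v' * P)) * Rt (Cay v) 1 = (1 / 2 : ℂ) • (θ * E) := by
  have hvP : v * P = P * v := by
    have e1 : P - v * P = 1 := by rw [← hP1]; noncomm_ring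
    have e2 : P - P * v = 1 := by rw [← hP2]; noncomm_ring
    have e3 : P - v * P = P - P * v := by rw [e1, e2]
    exact sub_right_injective e3
  have hm : Cay v - Complex.I • 1 = (2 * Complex.I) • (v * P) := by
    have e1 : v * P = P - 1 := by
      have e1 : P - v * P = 1 := by rw [← hP1]; noncomm_ring
      exact (sub_eq_of_eq_add' (sub_eq_iff_eq_add.1 e1)).symm
    rw [e1]
    have e2 : Cay v = (2 * Complex.I) • P - Complex.I • 1 := eq_sub_of_add_eq hCay
    rw [e2]
    module
  have hprod : 1 + ((1 : ℝ) : ℂ) ^ 2 • (Cay v * Cay v) = (-4 : ℂ) • (v * P * P) := by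
    have e1 : (Cay v - Complex.I • 1) * (Cay v + Complex.I • 1) = 1 + Cay v * Cay v := by
      simp only [sub_mul, mul_add, mul_smul_comm, smul_mul_assoc, mul_one, one_mul]
      match_scalars
      · ring
      · ring
      · linear_combination -Complex.I_sq
    rw [Complex.ofReal_one, one_pow, one_smul, ← e1, hm, hCay, smul_mul_smul_comm]
    congr 1
    ring_nf
    rw [Complex.I_sq]
    ring
  have hZ : (1 + ((1 : ℝ) : ℂ) ^ 2 • (Cay v * Cay v)) *
      ((-(1 / 4) : ℂ) • ((1 - v) * (1 - v) * star v)) = 1 := by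
    rw [hprod, smul_mul_smul_comm]
    have e1 : v * P * P * ((1 - v) * (1 - v) * star v) = 1 := by
      calc v * P * P * ((1 - v) * (1 - v) * star v)
          = v * P * (P * (1 - v)) * (1 - v) * star v := by noncomm_ring
        _ = v * (P * (1 - v)) * star v := by rw [hP2, mul_one, mul_assoc v P (1 - v), hP2]
        _ = 1 := by rw [hP2, mul_one, hvv]
    rw [e1]
    norm_num
  have hRt : Rt (Cay v) 1 = (-(1 / 4) : ℂ) • ((1 - v) * (1 - v) * star v) := by
    have e1 := Rt_left hsa 1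
    calc Rt (Cay v) 1 = Rt (Cay v) 1 * ((1 + ((1 : ℝ) : ℂ) ^ 2 • (Cay v * Cay v)) *
          ((-(1 / 4) : ℂ) • ((1 - v) * (1 - v) * star v))) := by rw [hZ, mul_one]
      _ = (Rt (Cay v) 1 * (1 + ((1 : ℝ) : ℂ) ^ 2 • (Cay v * Cay v))) *
          ((-(1 / 4) : ℂ) • ((1 - v) * (1 - v) * star v)) := (mul_assoc _ _ _).symm
      _ = _ := by rw [e1, one_mul]
  have cWE : Commute W E := hWE
  have cWθ : Commute W θ := hWθ
  have cθE : Commute θ E := hc
  have cv' : Commute v' v := by
    rw [hv, hv']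
    have c1 : Commute (W * θ * E) (W * E) := by
      apply Commute.mul_right
      · exact ((Commute.refl W).mul_left cWθ.symm).mul_left cWE.symm
      · exact (cWE.mul_left cθE).mul_left (Commute.refl E)
    have c2 : Commute (W * θ * E) E := (cWE.mul_left cθE).mul_left (Commute.refl E)
    exact (c1.smul_right _).sub_right ((Commute.one_right _).sub_right c2)
  have hstarv : star v = Complex.I • (E * star W) - (1 - E) := by
    rw [hv, star_sub, star_sub, star_one, star_smul, star_mul, hE.sa]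
    have : star (-Complex.I) = Complex.I := by simp
    rw [this]
  have hvv' : v' * star v = Complex.I • (θ * E) := by
    have e1 : W * θ * E * (1 - E) = 0 := by
      have : W * θ * E * (1 - E) = W * θ * (E - E * E) := by noncomm_ring
      rw [this, hE.idem, sub_self, mul_zero]
    have e2 : W * θ * E * (E * star W) = θ * E := by
      calc W * θ * E * (E * star W) = W * θ * (E * E) * star W := by noncomm_ring
        _ = θ * (W * E) * star W := by rw [hE.idem, hWθ]; noncomm_ring
        _ = θ * E * (W * star W) := by rw [hWE]; noncomm_ring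
        _ = θ * E := by rw [h2, mul_one]
    rw [hstarv, hv', mul_sub, mul_smul_comm, e1, e2, sub_zero]
  rw [hRt, smul_mul_smul_comm]
  have e3 : P * v' * P * ((1 - v) * (1 - v) * star v) = v' * star v := by
    calc P * v' * P * ((1 - v) * (1 - v) * star v)
        = P * v' * (P * (1 - v)) * (1 - v) * star v := by noncomm_ring
      _ = P * (v' * (1 - v)) * star v := by rw [hP2, mul_one]; noncomm_ring
      _ = (P * (1 - v)) * v' * star v := by
          have : v' * (1 - v) = (1 - v) * v' := by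
            rw [mul_sub, sub_mul, mul_one, one_mul, cv'.eq]
          rw [this]; noncomm_ring
      _ = v' * star v := by rw [hP2, one_mul]
  rw [e3, hvv', smul_smul]
  congr 1
  ring_nf
  rw [Complex.I_sq]
  ring

/-- `L(E) = (π/4) τ(E)` -/
private theorem Ell3_L (hE : PJ E) : Lf τ E = Real.pi / 4 * (τ E).re := by
  have h1 : ∀ t : ℝ, E * Rt E t = (((1 + t ^ 2)⁻¹ : ℝ) : ℂ) • E := by
    intro t
    have hr := Rt_right (X := E) hE.sa t
    rw [hE.idem] at hr
    have hne : (1 + (t : ℂ) ^ 2) ≠ 0 := by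
      have : (1 + (t : ℂ) ^ 2) = ((1 + t ^ 2 : ℝ) : ℂ) := by push_cast; rfl
      rw [this]
      exact_mod_cast (by positivity : (1 + t ^ 2 : ℝ) ≠ 0)
    have e1 : E * (1 + ((t : ℂ) ^ 2) • E) = (1 + (t : ℂ) ^ 2) • E := by
      rw [mul_add, mul_one, mul_smul_comm, hE.idem, add_smul, one_smul]
    have e2 : (1 + (t : ℂ) ^ 2) • (E * Rt E t) = E := by
      rw [← smul_mul_assoc, ← e1, mul_assoc, hr, mul_one]
    have e3 : (((1 + t ^ 2)⁻¹ : ℝ) : ℂ) = (1 + (t : ℂ) ^ 2)⁻¹ := by push_cast; rfl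
    rw [e3]
    calc E * Rt E t = (1 + (t : ℂ) ^ 2)⁻¹ • ((1 + (t : ℂ) ^ 2) • (E * Rt E t)) := by
          rw [smul_smul, inv_mul_cancel₀ hne, one_smul]
      _ = (1 + (t : ℂ) ^ 2)⁻¹ • E := by rw [e2]
  unfold Lf
  have h2 : ∀ t : ℝ, (τ (E * Rt E t)).re = (1 + t ^ 2)⁻¹ * (τ E).re := by
    intro t
    rw [h1 t, map_smul, smul_eq_mul, Complex.re_ofReal_mul]
  simp only [h2]
  rw [intervalIntegral.integral_mul_const, integral_inv_one_add_sq]
  rw [Real.arctan_one, Real.arctan_zero, sub_zero]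

/-- (6.6) `ℓ_E(- i e^{iθ} E) = (π/4) τ(E) + (1/2) τ(θ E)`.
Path `v_r = - i e^{irθ} E - (1 - E)`, `r ∈ [0,1]`; `x = C(v)`, `x' = 2 i (1 - v)⁻¹ v' (1 - v)⁻¹`,
`(1 + x²)⁻¹ = - (1/4) v⁻¹ (1 - v)²`, so `d/dr ℓ = - (i/2) τ(v⁻¹ v') = (1/2) τ(θ E)`; at `r = 0`: `C = E`,
`L(E) = (π/4) τ(E)`. -/
theorem ell_exp (hτ : IsTrace R τ) (hE : PJ E) (hER : E ∈ R) (hθ : θ ∈ R) (hs : star θ = θ)
    (hc : θ * E = E * θ) (hn : ‖θ‖ ≤ 1 / 2) :
    ell τ E (-Complex.I • (ex θ * E)) = Real.pi / 4 * (τ E).re + 1 / 2 * (τ (θ * E)).re := by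
  classical
  -- the path of unitaries
  let W : ℝ → H →L[ℂ] H := fun r => ex ((r : ℂ) • θ)
  have hsr : ∀ r : ℝ, star ((r : ℂ) • θ) = (r : ℂ) • θ := by
    intro r
    rw [star_smul, hs]
    simp
  have hWR : ∀ r, W r ∈ R := fun r => ex_mem (R.toStarSubalgebra.smul_mem hθ (r : ℂ))
  have hW1 : ∀ r, star (W r) * W r = 1 := fun r => (ex_unit (hsr r)).1
  have hW2 : ∀ r, W r * star (W r) = 1 := fun r => (ex_unit (hsr r)).2
  have hWn : ∀ r : ℝ, |r| ≤ 2 → ‖W r - 1‖ ≤ 1 := by
    intro r hr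
    refine (ex_norm (hsr r)).trans ?_
    rw [norm_smul, Complex.norm_real, Real.norm_eq_abs]
    nlinarith [norm_nonneg θ, abs_nonneg r]
  have hWE : ∀ r, W r * E = E * W r := by
    intro r
    have h1 : Commute E (Complex.I • ((r : ℂ) • θ)) := by
      have : Commute E θ := hc.symm
      exact (this.smul_right _).smul_right _
    exact h1.exp_right.symm
  have hWθ : ∀ r, W r * θ = θ * W r := by
    intro r
    have h1 : Commute θ (Complex.I • ((r : ℂ) • θ)) := ((Commute.refl θ).smul_right _).smul_right _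
    exact h1.exp_right.symm
  have hWd : ∀ s : ℝ, HasDerivAt W (W s * (Complex.I • θ)) s := by
    intro s
    have h1 := hasDerivAt_exp_smul_const (𝕂 := ℝ) (Complex.I • θ) s
    have h2 : (fun r : ℝ => NormedSpace.exp (r • (Complex.I • θ))) = W := by
      funext r
      change _ = NormedSpace.exp (Complex.I • ((r : ℂ) • θ))
      congr 1
      rw [← Complex.coe_smul, smul_comm]
    rw [h2] at h1
    have h3 : NormedSpace.exp (s • (Complex.I • θ)) = W s := congrFun h2 s
    rw [h3] at h1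
    exact h1
  let v : ℝ → H →L[ℂ] H := fun r => -Complex.I • (W r * E) - (1 - E)
  have hcu : ∀ r, CU R E (-Complex.I • (W r * E)) := fun r =>
    Ell3_cu hE (hWR r) hER (hW1 r) (hW2 r) (hWE r)
  have hvcu : ∀ r, CU R 1 (v r) := fun r => (hcu r).hat hE hER
  have hgap : ∀ r : ℝ, |r| ≤ 2 → Gap 1 (v r) 3 := fun r hr =>
    (Ell3_gap hE (hWn r hr)).hat (by norm_num) (hcu r) hE
  let X : ℝ → H →L[ℂ] H := fun r => if |r| < 2 then Cay (v r) else 0
  have hXm : ∀ r, X r ∈ R := by
    intro r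
    change (if |r| < 2 then Cay (v r) else 0) ∈ R
    split_ifs
    · exact Cay_mem (hvcu r).mem
    · exact zero_mem R
  have hXs : ∀ r, star (X r) = X r := by
    intro r
    change star (if |r| < 2 then Cay (v r) else 0) = if |r| < 2 then Cay (v r) else 0
    split_ifs with h
    · exact Cay_sa (hgap r h.le) (hvcu r)
    · exact star_zero _
  have hder : ∀ s : ℝ, |s| < 2 →
      HasDerivAt (fun r => Lf τ (X r)) (1 / 2 * (τ (θ * E)).re) s := by
    intro s hs2
    have hu := (hgap s hs2.le).isUnit (hvcu s)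
    have hP1 := Ring.mul_inverse_cancel _ hu
    have hP2 := Ring.inverse_mul_cancel _ hu
    have hvd : HasDerivAt v (W s * θ * E) s := by
      have h1 := (((hWd s).mul_const E).const_smul (-Complex.I)).sub_const (1 - E)
      have h2 : -Complex.I • (W s * (Complex.I • θ) * E) = W s * θ * E := by
        rw [mul_smul_comm, smul_mul_assoc, smul_smul, neg_mul, Complex.I_mul_I, neg_neg, one_smul]
      rw [h2] at h1
      exact h1
    have hCd : HasDerivAt (fun r => Cay (v r))
        ((2 * Complex.I) • (Ring.inverse (1 - v s) * (W s * θ * E) * Ring.inverse (1 - v s))) s := by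
      have h1 := hvd.const_sub (1 : H →L[ℂ] H)
      obtain ⟨U, hU⟩ := hu
      have h2 : HasFDerivAt (Ring.inverse : (H →L[ℂ] H) → H →L[ℂ] H)
          (-ContinuousLinearMap.mulLeftRight ℝ (H →L[ℂ] H) ↑U⁻¹ ↑U⁻¹) (1 - v s) := by
        rw [← hU]
        exact hasFDerivAt_ringInverse U
      have h3 := h2.comp_hasDerivAt s h1
      have h4 : (U⁻¹ : (H →L[ℂ] H)ˣ) = Ring.inverse (1 - v s) := by
        rw [← hU, Ring.inverse_unit]
      have h5 := (h3.const_smul (2 * Complex.I)).const_add (-Complex.I • (1 : H →L[ℂ] H))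
      rw [h4] at h5
      have h6 : (-ContinuousLinearMap.mulLeftRight ℝ (H →L[ℂ] H) (Ring.inverse (1 - v s))
          (Ring.inverse (1 - v s))) (-(W s * θ * E)) =
          Ring.inverse (1 - v s) * (W s * θ * E) * Ring.inverse (1 - v s) := by
        simp
      rw [h6] at h5
      exact h5
    have hXd : HasDerivAt X
        ((2 * Complex.I) • (Ring.inverse (1 - v s) * (W s * θ * E) * Ring.inverse (1 - v s))) s := by
      refine hCd.congr_of_eventuallyEq ?_
      have : {r : ℝ | |r| < 2} ∈ 𝓝 s := (isOpen_lt continuous_abs continuous_const).mem_nhds hs2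
      filter_upwards [this] with r hr
      exact if_pos hr
    have hL := Lf_hasDeriv hτ hXd hXm hXs
    have hXs' : X s = Cay (v s) := if_pos hs2
    have halg := Ell3_alg (θ := θ) hE (W := W s) (v := v s) (P := Ring.inverse (1 - v s))
      (v' := W s * θ * E) hs rfl hP1 hP2 (hW1 s) (hW2 s) (hWE s) (hWθ s) hc rfl
      (Cay_sa (hgap s hs2.le) (hvcu s)) (by unfold Cay; module) (hvcu s).r
    rw [hXs', halg] at hL
    have h7 : (τ ((1 / 2 : ℂ) • (θ * E))).re = 1 / 2 * (τ (θ * E)).re := by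
      rw [map_smul, smul_eq_mul]
      have : (1 / 2 : ℂ) = ((1 / 2 : ℝ) : ℂ) := by push_cast; rfl
      rw [this, Complex.re_ofReal_mul]
    rw [h7] at hL
    exact hL
  -- integrate
  have hconst := constant_of_has_deriv_right_zero (a := 0) (b := 1)
    (f := fun r : ℝ => Lf τ (X r) - r * (1 / 2 * (τ (θ * E)).re))
    (by
      intro r hr
      have h1 := (hder r (by rw [abs_of_nonneg hr.1]; linarith [hr.2])).continuousAt
      exact (h1.sub (continuousAt_id.mul continuousAt_const)).continuousWithinAt)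
    (by
      intro r hr
      have h1 := hder r (by rw [abs_of_nonneg hr.1]; linarith [hr.2])
      have h2 := h1.sub ((hasDerivAt_id r).mul_const (1 / 2 * (τ (θ * E)).re))
      rw [one_mul, sub_self] at h2
      exact h2.hasDerivWithinAt)
    1 (by simp)
  have hX1 : X 1 = Cay (-Complex.I • (ex θ * E) - (1 - E)) := by
    have h1 : X 1 = Cay (v 1) := if_pos (by norm_num)
    rw [h1]
    change Cay (-Complex.I • (ex (((1 : ℝ) : ℂ) • θ) * E) - (1 - E)) = _
    rw [Complex.ofReal_one, one_smul]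
  have hX0 : X 0 = E := by
    have h1 : X 0 = Cay (v 0) := if_pos (by norm_num)
    have h2 : v 0 = -Complex.I • E - (1 - E) := by
      change -Complex.I • (ex (((0 : ℝ) : ℂ) • θ) * E) - (1 - E) = _
      rw [Complex.ofReal_zero, zero_smul, ex_zero, one_mul]
    have hu0 := (hgap 0 (by norm_num)).isUnit (hvcu 0)
    rw [h1]
    rw [h2] at hu0 ⊢
    apply Ell3_unique hu0
    have h3 : 1 - (-Complex.I • E - (1 - E)) = (2 : ℂ) • 1 - E + Complex.I • E := by module
    rw [h3]
    rw [add_mul, mul_add, mul_sub, smul_mul_assoc, one_mul, mul_smul_comm, mul_one,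
      mul_smul_comm, hE.idem, smul_add, smul_sub, smul_smul, smul_smul, Complex.I_mul_I]
    module
  simp only [hX1, hX0] at hconst
  unfold ell
  rw [Ell3_L hE] at hconst
  linarith

end Pool.Agent.KKS

end

section

/-!
# Fr: frames of eight orthogonal copies of a corner
-/


open Filter Topology

namespace Pool.Agent.KKS

variable {H : Type*} [NormedAddCommGroup H] [InnerProductSpace ℂ H] [CompleteSpace H]
variable {R : VonNeumannAlgebra H} {τ : (H →L[ℂ] H) →L[ℂ] ℂ} {E : H →L[ℂ] H}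
  {r g g' : Fin 8 → H →L[ℂ] H} {K : ℝ}

/-- eight partial isometries of `R` with initial projection `E` and orthogonal ranges -/
structure Frame (R : VonNeumannAlgebra H) (E : H →L[ℂ] H) (r : Fin 8 → H →L[ℂ] H) : Prop where
  pj : PJ E
  memE : E ∈ R
  mem : ∀ j, r j ∈ R
  ini : ∀ j, star (r j) * r j = E
  orth : ∀ i j, i ≠ j → star (r i) * r j = 0

theorem Frame.le {R' : VonNeumannAlgebra H} (h : Frame R E r) (hR : ∀ x ∈ R, x ∈ R') :
    Frame R' E r :=
  ⟨h.pj, hR _ h.memE, fun j => hR _ (h.mem j), h.ini, h.orth⟩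

theorem Frame.right (h : Frame R E r) (j : Fin 8) : r j * E = r j := by
  have h1 : PJ (star (r j) * r j) := by rw [h.ini]; exact h.pj
  have h2 := h1.pi.1
  rwa [h.ini] at h2

/-- the sum of the ranges -/
noncomputable def fF (r : Fin 8 → H →L[ℂ] H) : H →L[ℂ] H := ∑ j, r j * star (r j)

/-- the cyclic shift -/
noncomputable def SF (r : Fin 8 → H →L[ℂ] H) : H →L[ℂ] H := ∑ j, r (j + 1) * star (r j)

/-- `exp(i π / 8)` -/
noncomputable def ζ8 : ℂ := Complex.exp (Complex.I * (Real.pi / 8))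

/-- `u = ζ S + i (1 - f)` -/
noncomputable def uF (r : Fin 8 → H →L[ℂ] H) : H →L[ℂ] H := ζ8 • SF r + Complex.I • (1 - fF r)

/-- `w₀ = ζ S - i (1 - f)` -/
noncomputable def w0F (r : Fin 8 → H →L[ℂ] H) : H →L[ℂ] H := ζ8 • SF r - Complex.I • (1 - fF r)

/-- `Ĝ = ∑ r_j g_j r_j⋆ - (1 - f)` -/
noncomputable def hF (r g : Fin 8 → H →L[ℂ] H) : H →L[ℂ] H :=
  ∑ j, r j * g j * star (r j) - (1 - fF r)

/-- `w = u Ĝ = ζ ∑ r_{j+1} g_j r_j⋆ - i (1 - f)` -/
noncomputable def wF (r g : Fin 8 → H →L[ℂ] H) : H →L[ℂ] H := uF r * hF r g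

private theorem Fr_left (h : Frame R E r) (j : Fin 8) : E * star (r j) = star (r j) := by
  have := congrArg star (h.right j)
  rwa [star_mul, h.pj.sa] at this

private theorem Fr_range (h : Frame R E r) (j : Fin 8) : PJ (r j * star (r j)) := by
  have h1 : PJ (star (r j) * r j) := by rw [h.ini]; exact h.pj
  exact h1.pi.2

private theorem Fr_orth (h : Frame R E r) {i j : Fin 8} (hij : i ≠ j) :
    r i * star (r i) * (r j * star (r j)) = 0 := by
  calc r i * star (r i) * (r j * star (r j)) = r i * (star (r i) * r j) * star (r j) := by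
        noncomm_ring
    _ = 0 := by rw [h.orth i j hij, mul_zero, zero_mul]

private theorem Fr_sum_orth (h : Frame R E r) {s : Finset (Fin 8)} {a : Fin 8} (ha : a ∉ s) :
    r a * star (r a) * ∑ j ∈ s, r j * star (r j) = 0 := by
  rw [Finset.mul_sum]
  refine Finset.sum_eq_zero fun j hj => Fr_orth h ?_
  rintro rfl
  exact ha hj

private theorem Fr_pj (h : Frame R E r) (s : Finset (Fin 8)) :
    PJ (∑ j ∈ s, r j * star (r j)) := by
  classical
  induction s using Finset.induction_on with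
  | empty => rw [Finset.sum_empty]; exact ⟨mul_zero 0, star_zero _⟩
  | insert a s ha ih =>
    rw [Finset.sum_insert ha]
    exact (Fr_range h a).add ih (Fr_sum_orth h ha)

theorem Frame.fF_pj (h : Frame R E r) : PJ (fF r) := Fr_pj h Finset.univ

theorem Frame.fF_mem (h : Frame R E r) : fF r ∈ R :=
  sum_mem fun j _ => mul_mem (h.mem j) (star_mem (h.mem j))

private theorem Fr_cu (h : Frame R E r) (hg : ∀ j, CU R E (g j)) (s : Finset (Fin 8)) :
    CU R (∑ j ∈ s, r j * star (r j)) (∑ j ∈ s, r j * g j * star (r j)) := by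
  classical
  induction s using Finset.induction_on with
  | empty =>
    rw [Finset.sum_empty, Finset.sum_empty]
    exact ⟨zero_mem R, by rw [mul_zero], by rw [zero_mul]⟩
  | insert a s ha ih =>
    rw [Finset.sum_insert ha, Finset.sum_insert ha]
    exact ((hg a).conj h.pj (h.mem a) (h.ini a)).add ih (Fr_range h a) (Fr_pj h s)
      (Fr_sum_orth h ha)

private theorem Fr_gap (h : Frame R E r) (hg : ∀ j, CU R E (g j)) (hG : ∀ j, Gap E (g j) K)
    (hK : 0 ≤ K) (s : Finset (Fin 8)) :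
    Gap (∑ j ∈ s, r j * star (r j)) (∑ j ∈ s, r j * g j * star (r j)) K := by
  classical
  induction s using Finset.induction_on with
  | empty =>
    rw [Finset.sum_empty, Finset.sum_empty]
    intro ξ
    simp
  | insert a s ha ih =>
    rw [Finset.sum_insert ha, Finset.sum_insert ha]
    exact Gap.add hK ((hG a).conj h.pj (hg a) (h.ini a)) ih
      ((hg a).conj h.pj (h.mem a) (h.ini a)) (Fr_cu h hg s) (Fr_range h a) (Fr_pj h s)
      (Fr_sum_orth h ha)

/-- product of sums -/
private theorem Fr_prod (h : Frame R E r) {p : Fin 8 → Fin 8} (hp : Function.Injective p)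
    (x y : Fin 8 → H →L[ℂ] H) :
    (∑ i, x i * star (r (p i))) * (∑ j, r (p j) * y j) = ∑ i, x i * E * y i := by
  rw [Finset.sum_mul]
  refine Finset.sum_congr rfl fun i _ => ?_
  rw [Finset.mul_sum, Finset.sum_eq_single i]
  · calc x i * star (r (p i)) * (r (p i) * y i) = x i * (star (r (p i)) * r (p i)) * y i := by
          noncomm_ring
      _ = x i * E * y i := by rw [h.ini]
  · intro j _ hji
    calc x i * star (r (p i)) * (r (p j) * y j) = x i * (star (r (p i)) * r (p j)) * y j := by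
          noncomm_ring
      _ = 0 := by
        rw [h.orth _ _ (fun hh => hji (hp hh).symm), mul_zero, zero_mul]
  · intro hh
    exact absurd (Finset.mem_univ _) hh

private theorem Fr_prod_id (h : Frame R E r) (x y : Fin 8 → H →L[ℂ] H) :
    (∑ i, x i * star (r i)) * (∑ j, r j * y j) = ∑ i, x i * E * y i :=
  Fr_prod h (p := id) Function.injective_id x y

private theorem Fr_shift (k : Fin 8) (F : Fin 8 → H →L[ℂ] H) : ∑ j, F (j + k) = ∑ j, F j :=
  Equiv.sum_comp (Equiv.addRight k) F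

private theorem Fr_SF_cu (h : Frame R E r) : CU R (fF r) (SF r) := by
  have hs : star (SF r) = ∑ j, r j * star (r (j + 1)) := by
    unfold SF
    rw [star_sum]
    refine Finset.sum_congr rfl fun j _ => ?_
    rw [star_mul, star_star]
  refine ⟨sum_mem fun j _ => mul_mem (h.mem _) (star_mem (h.mem j)), ?_, ?_⟩
  · rw [hs]
    unfold SF
    rw [Fr_prod h (p := fun j => j + 1) (add_left_injective 1) (fun j => r j)
      (fun j => star (r j))]
    unfold fF
    refine Finset.sum_congr rfl fun j _ => ?_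
    rw [h.right]
  · rw [hs]
    unfold SF
    rw [Fr_prod_id h (fun j => r (j + 1)) (fun j => star (r (j + 1)))]
    have h1 : ∀ j : Fin 8, r (j + 1) * E * star (r (j + 1)) = r (j + 1) * star (r (j + 1)) :=
      fun j => by rw [h.right]
    rw [Finset.sum_congr rfl fun j _ => h1 j]
    exact Fr_shift 1 (fun j => r j * star (r j))

private theorem Fr_ζ : ‖ζ8‖ = 1 := by
  unfold ζ8
  have : Complex.I * (Real.pi / 8) = ((Real.pi / 8 : ℝ) : ℂ) * Complex.I := by
    push_cast
    ring
  rw [this, Complex.norm_exp_ofReal_mul_I]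

private theorem Fr_ζ8 : ζ8 ^ 8 = -1 := by
  unfold ζ8
  rw [← Complex.exp_nat_mul, ← Complex.exp_pi_mul_I]
  congr 1
  push_cast
  ring

private theorem Fr_compl (h : Frame R E r) : fF r * (1 - fF r) = 0 := by
  rw [mul_sub, mul_one, h.fF_pj.idem, sub_self]

private theorem Fr_add (h : Frame R E r) : fF r + (1 - fF r) = 1 := by abel

theorem Frame.uF_cu (h : Frame R E r) : CU R 1 (uF r) := by
  have h1 : CU R (fF r) (ζ8 • SF r) := (Fr_SF_cu h).smul Fr_ζ
  have h2 : CU R (1 - fF r) (Complex.I • (1 - fF r)) :=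
    (CU.self h.fF_pj.compl (sub_mem (one_mem R) h.fF_mem)).smul (by simp)
  have h3 := h1.add h2 h.fF_pj h.fF_pj.compl (Fr_compl h)
  rw [Fr_add h] at h3
  exact h3

private theorem Fr_w0F (r : Fin 8 → H →L[ℂ] H) :
    w0F r = ζ8 • SF r + -Complex.I • (1 - fF r) := by
  unfold w0F
  rw [neg_smul, sub_eq_add_neg]

theorem Frame.w0F_cu (h : Frame R E r) : CU R 1 (w0F r) := by
  have h1 : CU R (fF r) (ζ8 • SF r) := (Fr_SF_cu h).smul Fr_ζ
  have h2 : CU R (1 - fF r) (-Complex.I • (1 - fF r)) :=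
    (CU.self h.fF_pj.compl (sub_mem (one_mem R) h.fF_mem)).smul (by simp)
  have h3 := h1.add h2 h.fF_pj h.fF_pj.compl (Fr_compl h)
  rw [Fr_add h] at h3
  rw [Fr_w0F]
  exact h3

private theorem Fr_pow (h : Frame R E r) (k : ℕ) :
    (SF r) ^ (k + 1) = ∑ j, r (j + (k + 1) • (1 : Fin 8)) * star (r j) := by
  induction k with
  | zero =>
    rw [zero_add, pow_one, one_nsmul]
    rfl
  | succ k ih =>
    rw [pow_succ', ih]
    have h1 : SF r = ∑ j, r (j + (k + 1) • (1 : Fin 8) + 1) *
        star (r (j + (k + 1) • (1 : Fin 8))) := by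
      unfold SF
      exact (Fr_shift ((k + 1) • (1 : Fin 8)) (fun j => r (j + 1) * star (r j))).symm
    rw [h1, Fr_prod h (p := fun j => j + (k + 1) • (1 : Fin 8)) (add_left_injective _)
      (fun j => r (j + (k + 1) • (1 : Fin 8) + 1)) (fun j => star (r j))]
    refine Finset.sum_congr rfl fun j _ => ?_
    rw [h.right, succ_nsmul _ (k + 1), add_assoc]

private theorem Fr_pow8 (h : Frame R E r) : (SF r) ^ 8 = fF r := by
  rw [Fr_pow h 7]
  unfold fF
  refine Finset.sum_congr rfl fun j _ => ?_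
  have : (7 + 1) • (1 : Fin 8) = 0 := by decide
  rw [this, add_zero]

private theorem Fr_gapS (h : Frame R E r) : Gap (fF r) (ζ8 • SF r) 4 := by
  intro ξ
  have hcu : CU R (fF r) (ζ8 • SF r) := (Fr_SF_cu h).smul Fr_ζ
  have h8 : (ζ8 • SF r) ^ 8 = - fF r := by
    rw [smul_pow, Fr_pow8 h, Fr_ζ8, neg_smul, one_smul]
  have h1 : (∑ k ∈ Finset.range 8, (ζ8 • SF r) ^ k) * (fF r - ζ8 • SF r) = (2 : ℂ) • fF r := by
    have e1 : fF r - ζ8 • SF r = -((ζ8 • SF r - 1) * fF r) := by
      rw [sub_mul, one_mul, hcu.right h.fF_pj]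
      abel
    rw [e1, mul_neg, ← mul_assoc, geom_sum_mul, h8, sub_mul, neg_mul, h.fF_pj.idem, one_mul]
    module
  have h2 : ‖∑ k ∈ Finset.range 8, (ζ8 • SF r) ^ k‖ ≤ 8 := by
    refine (norm_sum_le _ _).trans ?_
    have h3 : ∀ k ∈ Finset.range 8, ‖(ζ8 • SF r) ^ k‖ ≤ 1 := by
      intro k hk
      clear hk
      induction k with
      | zero => rw [pow_zero]; exact ContinuousLinearMap.norm_id_le
      | succ k ih =>
        rw [pow_succ]
        refine (norm_mul_le _ _).trans ?_
        have h4 := hcu.norm_le h.fF_pj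
        exact mul_le_one₀ ih (norm_nonneg _) h4
    refine (Finset.sum_le_sum h3).trans ?_
    simp
  generalize (∑ k ∈ Finset.range 8, (ζ8 • SF r) ^ k) = Q at h1 h2
  have h3 : (2 : ℂ) • (fF r) ξ = Q ((fF r - ζ8 • SF r) ξ) :=
    (DFunLike.congr_fun h1 ξ).symm
  have h4 : 2 * ‖(fF r) ξ‖ ≤ 8 * ‖(fF r - ζ8 • SF r) ξ‖ := by
    have h5 : ‖(2 : ℂ) • (fF r) ξ‖ = 2 * ‖(fF r) ξ‖ := by
      rw [norm_smul, Complex.norm_ofNat]
    rw [← h5, h3]
    exact (ContinuousLinearMap.le_opNorm _ _).trans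
      (mul_le_mul_of_nonneg_right h2 (norm_nonneg _))
  linarith

/-- `(ζ S)⁸ = - f`, so `(f - ζ S)⁻¹ = (1/2) ∑_{k<8} (ζ S)^k` in the corner of `f`; on `1 - f`: `|1 - i|, |1 + i| ≥ 1` -/
theorem Frame.uF_gap (h : Frame R E r) : Gap 1 (uF r) 4 := by
  have h1 : CU R (fF r) (ζ8 • SF r) := (Fr_SF_cu h).smul Fr_ζ
  have h2 : CU R (1 - fF r) (Complex.I • (1 - fF r)) :=
    (CU.self h.fF_pj.compl (sub_mem (one_mem R) h.fF_mem)).smul (by simp)
  have h3 := Gap.add (by norm_num) (Fr_gapS h)
    ((Gap.imag h.fF_pj.compl).mono (by norm_num)) h1 h2 h.fF_pj h.fF_pj.compl (Fr_compl h)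
  rw [Fr_add h] at h3
  exact h3

theorem Frame.w0F_gap (h : Frame R E r) : Gap 1 (w0F r) 4 := by
  have h1 : CU R (fF r) (ζ8 • SF r) := (Fr_SF_cu h).smul Fr_ζ
  have h2 : CU R (1 - fF r) (-Complex.I • (1 - fF r)) :=
    (CU.self h.fF_pj.compl (sub_mem (one_mem R) h.fF_mem)).smul (by simp)
  have h3 := Gap.add (by norm_num) (Fr_gapS h)
    ((Gap.imag' h.fF_pj.compl).mono (by norm_num)) h1 h2 h.fF_pj h.fF_pj.compl (Fr_compl h)
  rw [Fr_add h] at h3
  rw [Fr_w0F]
  exact h3

theorem Frame.hF_cu (h : Frame R E r) (hg : ∀ j, CU R E (g j)) : CU R 1 (hF r g) :=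
  (Fr_cu h hg Finset.univ).hat h.fF_pj h.fF_mem

theorem Frame.hF_gap (h : Frame R E r) (hg : ∀ j, CU R E (g j)) (hG : ∀ j, Gap E (g j) K)
    (hK : 1 ≤ K) : Gap 1 (hF r g) K :=
  (Fr_gap h hg hG (by linarith) Finset.univ).hat hK (Fr_cu h hg Finset.univ) h.fF_pj

end Pool.Agent.KKS

end

section

/-!
# Fr2: the unitary w
-/


open Filter Topology

namespace Pool.Agent.KKS

variable {H : Type*} [NormedAddCommGroup H] [InnerProductSpace ℂ H] [CompleteSpace H]
variable {R : VonNeumannAlgebra H} {τ : (H →L[ℂ] H) →L[ℂ] ℂ} {E : H →L[ℂ] H}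
  {r g g' : Fin 8 → H →L[ℂ] H} {K : ℝ}

private theorem Fr2_left (h : Frame R E r) (j : Fin 8) : E * star (r j) = star (r j) := by
  have := congrArg star (h.right j)
  rwa [star_mul, h.pj.sa] at this

private theorem Fr2_range (h : Frame R E r) (j : Fin 8) : PJ (r j * star (r j)) := by
  have h1 : PJ (star (r j) * r j) := by rw [h.ini]; exact h.pj
  exact h1.pi.2

private theorem Fr2_orth (h : Frame R E r) {i j : Fin 8} (hij : i ≠ j) :
    r i * star (r i) * (r j * star (r j)) = 0 := by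
  calc r i * star (r i) * (r j * star (r j)) = r i * (star (r i) * r j) * star (r j) := by
        noncomm_ring
    _ = 0 := by rw [h.orth i j hij, mul_zero, zero_mul]

private theorem Fr2_sum_orth (h : Frame R E r) {s : Finset (Fin 8)} {a : Fin 8} (ha : a ∉ s) :
    r a * star (r a) * ∑ j ∈ s, r j * star (r j) = 0 := by
  rw [Finset.mul_sum]
  refine Finset.sum_eq_zero fun j hj => Fr2_orth h ?_
  rintro rfl
  exact ha hj

private theorem Fr2_pj (h : Frame R E r) (s : Finset (Fin 8)) :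
    PJ (∑ j ∈ s, r j * star (r j)) := by
  classical
  induction s using Finset.induction_on with
  | empty => rw [Finset.sum_empty]; exact ⟨mul_zero 0, star_zero _⟩
  | insert a s ha ih =>
    rw [Finset.sum_insert ha]
    exact (Fr2_range h a).add ih (Fr2_sum_orth h ha)

private theorem Fr2_cu (h : Frame R E r) (hg : ∀ j, CU R E (g j)) (s : Finset (Fin 8)) :
    CU R (∑ j ∈ s, r j * star (r j)) (∑ j ∈ s, r j * g j * star (r j)) := by
  classical
  induction s using Finset.induction_on with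
  | empty =>
    rw [Finset.sum_empty, Finset.sum_empty]
    exact ⟨zero_mem R, by rw [mul_zero], by rw [zero_mul]⟩
  | insert a s ha ih =>
    rw [Finset.sum_insert ha, Finset.sum_insert ha]
    exact ((hg a).conj h.pj (h.mem a) (h.ini a)).add ih (Fr2_range h a) (Fr2_pj h s)
      (Fr2_sum_orth h ha)

/-- product of sums -/
private theorem Fr2_prod (h : Frame R E r) {p : Fin 8 → Fin 8} (hp : Function.Injective p)
    (x y : Fin 8 → H →L[ℂ] H) :
    (∑ i, x i * star (r (p i))) * (∑ j, r (p j) * y j) = ∑ i, x i * E * y i := by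
  rw [Finset.sum_mul]
  refine Finset.sum_congr rfl fun i _ => ?_
  rw [Finset.mul_sum, Finset.sum_eq_single i]
  · calc x i * star (r (p i)) * (r (p i) * y i) = x i * (star (r (p i)) * r (p i)) * y i := by
          noncomm_ring
      _ = x i * E * y i := by rw [h.ini]
  · intro j _ hji
    calc x i * star (r (p i)) * (r (p j) * y j) = x i * (star (r (p i)) * r (p j)) * y j := by
          noncomm_ring
      _ = 0 := by
        rw [h.orth _ _ (fun hh => hji (hp hh).symm), mul_zero, zero_mul]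
  · intro hh
    exact absurd (Finset.mem_univ _) hh

private theorem Fr2_prod_id (h : Frame R E r) (x y : Fin 8 → H →L[ℂ] H) :
    (∑ i, x i * star (r i)) * (∑ j, r j * y j) = ∑ i, x i * E * y i :=
  Fr2_prod h (p := id) Function.injective_id x y

private theorem Fr2_shift (k : Fin 8) (F : Fin 8 → H →L[ℂ] H) : ∑ j, F (j + k) = ∑ j, F j :=
  Equiv.sum_comp (Equiv.addRight k) F

private theorem Fr2_f (h : Frame R E r) : fF r * fF r = fF r := h.fF_pj.idem

private theorem Fr2_SF (h : Frame R E r) : SF r * fF r = SF r ∧ fF r * SF r = SF r := by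
  have e1 : SF r * fF r = SF r := by
    unfold SF fF
    rw [Fr2_prod_id h (fun j => r (j + 1)) (fun j => star (r j))]
    refine Finset.sum_congr rfl fun j _ => ?_
    rw [h.right]
  have e2 : fF r = ∑ j, r (j + 1) * star (r (j + 1)) := by
    unfold fF
    exact (Fr2_shift 1 (fun j => r j * star (r j))).symm
  refine ⟨e1, ?_⟩
  rw [e2]
  unfold SF
  rw [Fr2_prod h (p := fun j => j + 1) (add_left_injective 1) (fun j => r (j + 1))
    (fun j => star (r j))]
  refine Finset.sum_congr rfl fun j _ => ?_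
  rw [h.right]

private theorem Fr2_ζ : ‖ζ8‖ = 1 := by
  unfold ζ8
  have : Complex.I * (Real.pi / 8) = ((Real.pi / 8 : ℝ) : ℂ) * Complex.I := by
    push_cast
    ring
  rw [this, Complex.norm_exp_ofReal_mul_I]

theorem Frame.wF_eq (h : Frame R E r) (hg : ∀ j, CU R E (g j)) :
    wF r g = ζ8 • (∑ j, r (j + 1) * g j * star (r j)) - Complex.I • (1 - fF r) := by
  have hcu : CU R (fF r) (∑ j, r j * g j * star (r j)) := Fr2_cu h hg Finset.univ
  have e1 : SF r * ∑ j, r j * g j * star (r j) = ∑ j, r (j + 1) * g j * star (r j) := by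
    have e2 : ∑ j, r j * g j * star (r j) = ∑ j, r j * (g j * star (r j)) :=
      Finset.sum_congr rfl fun j _ => mul_assoc _ _ _
    rw [e2]
    unfold SF
    rw [Fr2_prod_id h (fun j => r (j + 1)) (fun j => g j * star (r j))]
    refine Finset.sum_congr rfl fun j _ => ?_
    rw [h.right, mul_assoc]
  have e3 : SF r * (1 - fF r) = 0 := by rw [mul_sub, mul_one, (Fr2_SF h).1, sub_self]
  have e4 : (1 - fF r) * ∑ j, r j * g j * star (r j) = 0 := by
    rw [sub_mul, one_mul, hcu.left h.fF_pj, sub_self]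
  unfold wF uF hF
  rw [add_mul, mul_sub (ζ8 • SF r), mul_sub (Complex.I • (1 - fF r)), smul_mul_assoc,
    smul_mul_assoc, smul_mul_assoc, smul_mul_assoc, e1, e3, e4, h.fF_pj.compl.idem]
  rw [smul_zero, smul_zero, sub_zero, zero_sub, ← sub_eq_add_neg]

/-- `w = D w₀ D⋆`, `D = ∑ r_j d_j r_j⋆ + (1 - f)`, `d_0 = E`, `d_{j+1} = g_j d_j` -/
theorem Frame.wF_conj (h : Frame R E r) (hg : ∀ j, CU R E (g j))
    (hp : g 7 * g 6 * g 5 * g 4 * g 3 * g 2 * g 1 * g 0 = E) :
    ∃ D, CU R 1 D ∧ wF r g = D * w0F r * star D := by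
  let d : Fin 8 → H →L[ℂ] H := ![E, g 0, g 1 * g 0, g 2 * (g 1 * g 0), g 3 * (g 2 * (g 1 * g 0)),
    g 4 * (g 3 * (g 2 * (g 1 * g 0))), g 5 * (g 4 * (g 3 * (g 2 * (g 1 * g 0)))),
    g 6 * (g 5 * (g 4 * (g 3 * (g 2 * (g 1 * g 0)))))]
  have hE := h.pj
  have c0 : CU R E (d 0) := CU.self hE h.memE
  have c1 : CU R E (d 1) := hg 0
  have c2 : CU R E (d 2) := (hg 1).mul c1 hE
  have c3 : CU R E (d 3) := (hg 2).mul c2 hE
  have c4 : CU R E (d 4) := (hg 3).mul c3 hE
  have c5 : CU R E (d 5) := (hg 4).mul c4 hE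
  have c6 : CU R E (d 6) := (hg 5).mul c5 hE
  have c7 : CU R E (d 7) := (hg 6).mul c6 hE
  have hd : ∀ j, CU R E (d j) := by
    intro j
    fin_cases j
    · exact c0
    · exact c1
    · exact c2
    · exact c3
    · exact c4
    · exact c5
    · exact c6
    · exact c7
  have hstep : ∀ j, d (j + 1) = g j * d j := by
    intro j
    fin_cases j
    · change g 0 = g 0 * E
      rw [(hg 0).right hE]
    · rfl
    · rfl
    · rfl
    · rfl
    · rfl
    · rfl
    · change E = g 7 * (g 6 * (g 5 * (g 4 * (g 3 * (g 2 * (g 1 * g 0))))))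
      rw [← hp]
      simp only [mul_assoc]
  have hcu : CU R (fF r) (∑ j, r j * d j * star (r j)) := Fr2_cu h hd Finset.univ
  have hc1 : CU R (1 - fF r) (1 - fF r) :=
    CU.self h.fF_pj.compl (sub_mem (one_mem R) h.fF_mem)
  have h0 : fF r * (1 - fF r) = 0 := by rw [mul_sub, mul_one, h.fF_pj.idem, sub_self]
  have hD := hcu.add hc1 h.fF_pj h.fF_pj.compl h0
  have h1 : fF r + (1 - fF r) = 1 := by abel
  rw [h1] at hD
  refine ⟨_, hD, ?_⟩
  rw [h.wF_eq hg]
  -- the products
  set G := ∑ j, r j * d j * star (r j) with hGdef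
  have hGs : star G = ∑ j, r j * (star (d j) * star (r j)) := by
    rw [hGdef, star_sum]
    refine Finset.sum_congr rfl fun j _ => ?_
    rw [star_mul, star_mul, star_star]
  have hG' : G = ∑ j, r (j + 1) * d (j + 1) * star (r (j + 1)) := by
    rw [hGdef]
    exact (Fr2_shift 1 (fun j => r j * d j * star (r j))).symm
  have e1 : G * SF r = ∑ j, r (j + 1) * d (j + 1) * star (r j) := by
    rw [hG']
    unfold SF
    rw [Fr2_prod h (p := fun j => j + 1) (add_left_injective 1)
      (fun j => r (j + 1) * d (j + 1)) (fun j => star (r j))]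
    refine Finset.sum_congr rfl fun j _ => ?_
    rw [mul_assoc (r (j + 1)), (hd (j + 1)).right hE]
  have e2 : G * SF r * star G = ∑ j, r (j + 1) * g j * star (r j) := by
    rw [e1, hGs]
    rw [Fr2_prod_id h (fun j => r (j + 1) * d (j + 1)) (fun j => star (d j) * star (r j))]
    refine Finset.sum_congr rfl fun j _ => ?_
    rw [hstep j]
    calc r (j + 1) * (g j * d j) * E * (star (d j) * star (r j))
        = r (j + 1) * g j * ((d j * E) * star (d j)) * star (r j) := by noncomm_ring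
      _ = r (j + 1) * (g j * E) * star (r j) := by
        rw [(hd j).right hE, (hd j).r]; noncomm_ring
      _ = r (j + 1) * g j * star (r j) := by rw [(hg j).right hE]
  have k1 := hcu.left h.fF_pj
  have k2 := hcu.right h.fF_pj
  have k3 := hcu.adj.left h.fF_pj
  have k4 := hcu.adj.right h.fF_pj
  have k5 := (Fr2_SF h).1
  have k6 := (Fr2_SF h).2
  have k7 := h.fF_pj.idem
  have m1 : G * (1 - fF r) = 0 := by rw [mul_sub, mul_one, k2, sub_self]
  have m2 : (1 - fF r) * star G = 0 := by rw [sub_mul, one_mul, k3, sub_self]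
  have m3 : SF r * (1 - fF r) = 0 := by rw [mul_sub, mul_one, k5, sub_self]
  have m4 : (1 - fF r) * SF r = 0 := by rw [sub_mul, one_mul, k6, sub_self]
  have m5 := h.fF_pj.compl.idem
  unfold w0F
  rw [star_add, h.fF_pj.compl.sa, ← e2]
  have n1 : (G + (1 - fF r)) * (ζ8 • SF r - Complex.I • (1 - fF r)) =
      ζ8 • (G * SF r) - Complex.I • (1 - fF r) := by
    rw [add_mul, mul_sub G, mul_sub (1 - fF r), mul_smul_comm, mul_smul_comm, mul_smul_comm,
      mul_smul_comm, m1, m4, m5, smul_zero, smul_zero, sub_zero, zero_sub, ← sub_eq_add_neg]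
  have m6 : G * SF r * (1 - fF r) = 0 := by rw [mul_assoc, m3, mul_zero]
  rw [n1, sub_mul (ζ8 • (G * SF r)), mul_add (ζ8 • (G * SF r)), mul_add (Complex.I • (1 - fF r)),
    smul_mul_assoc, smul_mul_assoc, smul_mul_assoc,
    smul_mul_assoc, m6, m2, m5, smul_zero, smul_zero, add_zero, zero_add]

theorem Frame.wF_cu (h : Frame R E r) (hg : ∀ j, CU R E (g j)) : CU R 1 (wF r g) :=
  h.uF_cu.mul (h.hF_cu hg) ⟨mul_one 1, star_one _⟩

theorem Frame.wF_gap (h : Frame R E r) (hg : ∀ j, CU R E (g j))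
    (hp : g 7 * g 6 * g 5 * g 4 * g 3 * g 2 * g 1 * g 0 = E) : Gap 1 (wF r g) 4 := by
  obtain ⟨D, hD, hw⟩ := h.wF_conj hg hp
  have h1 := h.w0F_gap.conj ⟨mul_one 1, star_one _⟩ h.w0F_cu hD.l
  rw [hD.r] at h1
  rw [hw]
  exact h1

theorem Frame.wF_L (hτ : IsTrace R τ) (h : Frame R E r) (hg : ∀ j, CU R E (g j))
    (hp : g 7 * g 6 * g 5 * g 4 * g 3 * g 2 * g 1 * g 0 = E) :
    Lf τ (Cay (wF r g)) = Lf τ (Cay (w0F r)) := by
  obtain ⟨D, hD, hw⟩ := h.wF_conj hg hp
  rw [hw, Cay_conj h.w0F_gap h.w0F_cu hD]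
  exact Lf_conj hτ hD.mem (Cay_mem h.w0F_cu.mem) (Cay_sa h.w0F_gap h.w0F_cu)
    (by rw [hD.l, one_mul])

/-- `norm_sum_orth_le` with `p = r_j r_j⋆`, `q = r_{j+1} r_{j+1}⋆` -/
theorem Frame.wF_norm (h : Frame R E r) {R' : VonNeumannAlgebra H} (h' : Frame R' E r)
    (hg : ∀ j, CU R E (g j)) (hg' : ∀ j, CU R' E (g' j)) {C : ℝ} (hC : 0 ≤ C)
    (hn : ∀ j, ‖g j - g' j‖ ≤ C) : ‖wF r g - wF r g'‖ ≤ C := by
  have e1 : wF r g - wF r g' = ζ8 • ∑ j, r (j + 1) * (g j - g' j) * star (r j) := by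
    rw [h.wF_eq hg, h'.wF_eq hg']
    have e2 : ∑ j, r (j + 1) * (g j - g' j) * star (r j) =
        ∑ j, r (j + 1) * g j * star (r j) - ∑ j, r (j + 1) * g' j * star (r j) := by
      rw [← Finset.sum_sub_distrib]
      refine Finset.sum_congr rfl fun j _ => ?_
      rw [mul_sub, sub_mul]
    rw [e2, sub_sub_sub_cancel_right, ← smul_sub]
  have hr : ∀ j, ‖r j‖ ≤ 1 := by
    intro j
    have h1 : ‖r j‖ * ‖r j‖ = ‖E‖ := by
      rw [← h.ini j, CStarRing.norm_star_mul_self]
    have h2 := h.pj.norm_le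
    nlinarith [norm_nonneg (r j)]
  rw [e1, norm_smul, Fr2_ζ, one_mul]
  refine norm_sum_orth_le Finset.univ (p := fun j => r j * star (r j))
    (q := fun j => r (j + 1) * star (r (j + 1))) hC (fun j => Fr2_range h j)
    (fun j => Fr2_range h (j + 1)) (fun i _ j _ hij => Fr2_orth h hij)
    (fun i _ j _ hij => Fr2_orth h (fun hh => hij (add_left_injective 1 hh))) ?_ ?_
  · intro j _
    calc r (j + 1) * star (r (j + 1)) * (r (j + 1) * (g j - g' j) * star (r j)) *
          (r j * star (r j))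
        = r (j + 1) * (star (r (j + 1)) * r (j + 1)) * (g j - g' j) *
          ((star (r j) * r j) * star (r j)) := by noncomm_ring
      _ = r (j + 1) * (g j - g' j) * star (r j) := by
        rw [h.ini, h.ini, h.right, Fr2_left h]
  · intro j _
    refine (norm_mul_le _ _).trans ?_
    rw [norm_star]
    have h1 := hr j
    have h2 := hr (j + 1)
    have h3 : ‖r (j + 1) * (g j - g' j)‖ ≤ C := by
      refine (norm_mul_le _ _).trans ?_
      have := hn j
      nlinarith [norm_nonneg (r (j + 1)), norm_nonneg (g j - g' j)]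
    nlinarith [norm_nonneg (r j), norm_nonneg (r (j + 1) * (g j - g' j))]

end Pool.Agent.KKS

end

section

/-!
# Fr3: the sum of the ell
-/


open Filter Topology

namespace Pool.Agent.KKS

variable {H : Type*} [NormedAddCommGroup H] [InnerProductSpace ℂ H] [CompleteSpace H]
variable {R : VonNeumannAlgebra H} {τ : (H →L[ℂ] H) →L[ℂ] ℂ} {E : H →L[ℂ] H}
  {r g g' : Fin 8 → H →L[ℂ] H} {K : ℝ}

/-- products of orthogonal sums -/
private theorem Fr3_mul (h : Frame R E r) (a b : Fin 8 → H →L[ℂ] H) (hb : ∀ j, E * b j = b j) :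
    (∑ j, r j * a j * star (r j)) * (∑ j, r j * b j * star (r j)) =
      ∑ j, r j * (a j * b j) * star (r j) := by
  rw [Finset.sum_mul_sum]
  refine Finset.sum_congr rfl fun i _ => ?_
  rw [Finset.sum_eq_single i]
  · calc r i * a i * star (r i) * (r i * b i * star (r i))
        = r i * a i * (star (r i) * r i) * b i * star (r i) := by simp only [mul_assoc]
      _ = r i * a i * (E * b i) * star (r i) := by rw [h.ini i]; simp only [mul_assoc]
      _ = r i * (a i * b i) * star (r i) := by rw [hb i]; simp only [mul_assoc]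
  · intro j _ hj
    calc r i * a i * star (r i) * (r j * b j * star (r j))
        = r i * a i * (star (r i) * r j) * b j * star (r j) := by simp only [mul_assoc]
      _ = 0 := by rw [h.orth i j (Ne.symm hj)]; simp
  · intro hi
    exact absurd (Finset.mem_univ i) hi

/-- the projection on the complement kills the orthogonal sums -/
private theorem Fr3_fF_mul (h : Frame R E r) (b : Fin 8 → H →L[ℂ] H) (hb : ∀ j, E * b j = b j) :
    fF r * (∑ j, r j * b j * star (r j)) = ∑ j, r j * b j * star (r j) := by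
  have h1 : fF r = ∑ j, r j * E * star (r j) := by
    unfold fF
    exact Finset.sum_congr rfl fun j _ => by rw [h.right j]
  rw [h1, Fr3_mul h (fun _ => E) b hb]
  exact Finset.sum_congr rfl fun j _ => by rw [hb j]

/-- the Cayley transform of the orthogonal sum -/
private theorem Fr3_Cay (h : Frame R E r) (hg : ∀ j, CU R E (g j)) (hG : ∀ j, Gap E (g j) 2) :
    Cay (hF r g) = ∑ j, r j * Cay (g j - (1 - E)) * star (r j) := by
  have hE := h.pj
  have hgap : Gap 1 (hF r g) 2 := h.hF_gap hg hG one_le_two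
  have hcu := h.hF_cu hg
  have hunit : IsUnit (1 - hF r g) := hgap.isUnit hcu
  have hX : ∀ j, E * Cay (g j - (1 - E)) = Cay (g j - (1 - E)) := fun j =>
    (Cay_hat hE (hg j) (hG j) one_le_two).1
  -- the identity in the corner
  have hcor : ∀ j, (E - g j) * (Cay (g j - (1 - E)) + Complex.I • 1) = (2 * Complex.I) • E := by
    intro j
    have hu : IsUnit (1 - (g j - (1 - E))) :=
      ((hG j).hat one_le_two (hg j) hE).isUnit ((hg j).hat hE h.memE)
    have h1 : (1 - (g j - (1 - E))) * (Cay (g j - (1 - E)) + Complex.I • 1) =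
        (2 * Complex.I) • 1 := by
      unfold Cay
      have h2 : -Complex.I • (1 : H →L[ℂ] H) +
          (2 * Complex.I) • Ring.inverse (1 - (g j - (1 - E))) + Complex.I • 1 =
          (2 * Complex.I) • Ring.inverse (1 - (g j - (1 - E))) := by
        rw [neg_smul]
        abel
      rw [h2, mul_smul_comm, Ring.mul_inverse_cancel _ hu]
    have h3 : E * (1 - (g j - (1 - E))) = E - g j := by
      have h4 : E * g j = g j := (hg j).left hE
      have h5 : E * E = E := hE.idem
      rw [mul_sub, mul_sub, mul_sub, mul_one, h4, h5]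
      abel
    rw [← h3, mul_assoc, h1, mul_smul_comm, mul_one]
  set Y : H →L[ℂ] H := ∑ j, r j * Cay (g j - (1 - E)) * star (r j) with hY
  have hfY : fF r * Y = Y := Fr3_fF_mul h _ hX
  have hEg : ∀ j, E * (E - g j) = E - g j := by
    intro j
    rw [mul_sub, hE.idem, (hg j).left hE]
  have h1v : 1 - hF r g = (∑ j, r j * (E - g j) * star (r j)) + (2 : ℂ) • (1 - fF r) := by
    have h6 : (∑ j, r j * (E - g j) * star (r j)) = fF r - ∑ j, r j * g j * star (r j) := by
      unfold fF
      rw [← Finset.sum_sub_distrib]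
      refine Finset.sum_congr rfl fun j _ => ?_
      rw [mul_sub, sub_mul, h.right j]
    rw [h6, hF, two_smul]
    abel
  have hprod : (1 - hF r g) * (Y + Complex.I • 1) = (2 * Complex.I) • 1 := by
    have h7 : (∑ j, r j * (E - g j) * star (r j)) * Y =
        ∑ j, r j * ((E - g j) * Cay (g j - (1 - E))) * star (r j) := Fr3_mul h _ _ hX
    have h8 : (1 - fF r) * Y = 0 := by rw [sub_mul, one_mul, hfY, sub_self]
    have h9 : (∑ j, r j * (E - g j) * star (r j)) * (Y + Complex.I • 1) =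
        (2 * Complex.I) • fF r := by
      rw [mul_add, h7, mul_smul_comm, mul_one, Finset.smul_sum, ← Finset.sum_add_distrib]
      unfold fF
      rw [Finset.smul_sum]
      refine Finset.sum_congr rfl fun j _ => ?_
      have h10 := hcor j
      calc r j * ((E - g j) * Cay (g j - (1 - E))) * star (r j) +
            Complex.I • (r j * (E - g j) * star (r j))
          = r j * ((E - g j) * (Cay (g j - (1 - E)) + Complex.I • 1)) * star (r j) := by
            rw [mul_add (E - g j), mul_smul_comm, mul_one, mul_add, add_mul, mul_smul_comm,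
              smul_mul_assoc]
        _ = (2 * Complex.I) • (r j * star (r j)) := by
            rw [h10, mul_smul_comm, h.right j, smul_mul_assoc]
    rw [h1v, add_mul, h9, smul_mul_assoc, mul_add, h8, zero_add, mul_smul_comm, mul_one,
      ← mul_smul, ← smul_add]
    congr 1
    abel
  have hinv : (2 * Complex.I) • Ring.inverse (1 - hF r g) = Y + Complex.I • 1 := by
    have h11 := congrArg (fun T => Ring.inverse (1 - hF r g) * T) hprod
    simp only [mul_smul_comm, mul_one] at h11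
    rw [← h11, ← mul_assoc, Ring.inverse_mul_cancel _ hunit, one_mul]
  unfold Cay at hinv ⊢
  rw [hinv, neg_smul]
  abel

/-- `C(Ĝ) = ∑ r_j C(g_j - (1 - E)) r_j⋆` (orthogonal summands), `Lf_sum`, `Lf_conj` -/
theorem Frame.hF_L (hτ : IsTrace R τ) (h : Frame R E r) (hg : ∀ j, CU R E (g j))
    (hG : ∀ j, Gap E (g j) 2) : Lf τ (Cay (hF r g)) = ∑ j, ell τ E (g j) := by
  have hE := h.pj
  have hX : ∀ j, E * Cay (g j - (1 - E)) = Cay (g j - (1 - E)) := fun j =>
    (Cay_hat hE (hg j) (hG j) one_le_two).1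
  have hsa : ∀ j, star (Cay (g j - (1 - E))) = Cay (g j - (1 - E)) := fun j =>
    Cay_sa ((hG j).hat one_le_two (hg j) hE) ((hg j).hat hE h.memE)
  rw [Fr3_Cay h hg hG, Lf_sum]
  · refine Finset.sum_congr rfl fun j _ => ?_
    rw [ell]
    refine Lf_conj hτ (h.mem j) (Cay_mem ((hg j).hat hE h.memE).mem) (hsa j) ?_
    rw [h.ini j]
    exact hX j
  · intro j
    rw [star_mul, star_mul, star_star, hsa j, mul_assoc]
  · intro i j hij
    calc r i * Cay (g i - (1 - E)) * star (r i) * (r j * Cay (g j - (1 - E)) * star (r j))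
        = r i * Cay (g i - (1 - E)) * (star (r i) * r j) * Cay (g j - (1 - E)) * star (r j) := by
          simp only [mul_assoc]
      _ = 0 := by rw [h.orth i j hij]; simp

/-- combination of all the above with `cayley_omega` -/
theorem Frame.sum_ell (hτ : IsTrace R τ) (h : Frame R E r) (hg : ∀ j, CU R E (g j))
    (hG : ∀ j, Gap E (g j) K) (hK : 1 ≤ K) (hK2 : K ≤ 2)
    (hp : g 7 * g 6 * g 5 * g 4 * g 3 * g 2 * g 1 * g 0 = E) :
    ∃ s ∈ R, IsSgn (Cay (wF r g) - Cay (uF r)) s (1 / (2 * K)) ∧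
      ‖Cay (wF r g) - Cay (uF r)‖ ≤ 18 ∧
      ∑ j, ell τ E (g j) =
        Lf τ (Cay (w0F r)) - Lf τ (Cay (uF r)) - Real.pi / 2 * (τ s).re := by
  have hK0 : 0 < K := by linarith
  have hu := h.uF_cu
  have hw := h.wF_cu hg
  have hGc := h.hF_cu hg
  have hgu := h.uF_gap
  have hgw := h.wF_gap hg hp
  have hgG := h.hF_gap hg hG hK
  have hwu : wF r g = uF r * hF r g := rfl
  have hβ : 0 < 1 / (2 * K) := by positivity
  obtain ⟨s, hs, hS⟩ := exists_sgn (sub_mem (Cay_mem hw.mem) (Cay_mem hu.mem))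
    (by rw [star_sub, Cay_sa hgw hw, Cay_sa hgu hu]) hβ
    (Cay_diff_bound hu hw hGc hwu hgu hgw hgG hK0)
  refine ⟨s, hs, hS, ?_, ?_⟩
  · have h1 := Cay_norm hgw hw (by norm_num)
    have h2 := Cay_norm hgu hu (by norm_num)
    have h3 := norm_sub_le (Cay (wF r g)) (Cay (uF r))
    linarith
  · rw [← h.hF_L hτ hg fun j => (hG j).mono hK2,
      cayley_omega hτ hu hw hGc hwu hgu hgw hgG hβ hs hS, h.wF_L hτ hg hp]

end Pool.Agent.KKS

end
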