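import Pool.Agent.Lib.MP_5c1ef7_an.P05
import Pool.Agent.Lib.MP_5c1ef7_an.P06
import Pool.Agent.Lib.MP_5c1ef7_an.P10

/-!
# P11: the situation after the conjugation, the relation
-/

set_option autoImplicit false
set_option linter.unusedSectionVars false

section

/-!
# Sit: the situation after the conjugation
-/


open Filter Topology

namespace Pool.Agent.KKS

variable {H : Type*} [NormedAddCommGroup H] [InnerProductSpace ℂ H] [CompleteSpace H]
variable {Γ : Type*} [Group Γ] {M N A : VonNeumannAlgebra H} {u : Γ → H →L[ℂ] H}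
  {k : ℕ → ℕ} {e : ∀ n, Fin (k n) → Fin (k n) → H →L[ℂ] H} {κ : ℝ}

/-- `M` and `N` are near each other with constant `κ` (with norm control) -/
structure Near (M N : VonNeumannAlgebra H) (κ : ℝ) : Prop where
  MN : ∀ x ∈ M, ∃ y ∈ N, ‖y‖ ≤ ‖x‖ ∧ ‖x - y‖ ≤ κ * ‖x‖
  NM : ∀ y ∈ N, ∃ x ∈ M, ‖x‖ ≤ ‖y‖ ∧ ‖x - y‖ ≤ κ * ‖y‖

/-- the situation from section 5 on -/
structure Sit (M N A : VonNeumannAlgebra H) (τ : (H →L[ℂ] H) →L[ℂ] ℂ) (u : Γ → H →L[ℂ] H)
    (k : ℕ → ℕ) (e : ∀ n, Fin (k n) → Fin (k n) → H →L[ℂ] H) (κ : ℝ) : Prop where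
  cm : CM M A τ u
  sys : Sys M A τ k e
  trN : IsTrace N τ
  facN : IsFactor N
  eN : ∀ n i j, e n i j ∈ N
  AN : ∀ a ∈ A, a ∈ N
  masaN : ∀ x ∈ N, (∀ a ∈ A, x * a = a * x) → x ∈ A
  near : Near M N κ
  κ0 : 0 ≤ κ
  κ1 : κ ≤ 1 / 10 ^ 8
  pos : PosF τ

/-- (5.1) `A ⊆ N` -/
theorem A_le_N {τM : (H →L[ℂ] H) → ℂ} (hc : CM M A τM u) (hs : Sys M A τM k e)
    (he : ∀ n i j, e n i j ∈ N) : ∀ a ∈ A, a ∈ N := by
  intro a ha
  refine mem_of_comm fun S hS => ?_
  exact hs.comm_A hc (fun n i => hS _ (he n i i)) a ha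

/-- if `T` is at distance `≤ (1/2)^n C` of operators which commute with `S` then it commutes with `S` -/
private theorem Sit_comm_of_near {T S : H →L[ℂ] H} {C : ℝ}
    (h : ∀ n : ℕ, ∃ a : H →L[ℂ] H, S * a = a * S ∧ ‖T - a‖ ≤ (1 / 2) ^ n * C) :
    S * T = T * S := by
  have hb : ∀ n : ℕ, ‖S * T - T * S‖ ≤ (1 / 2 : ℝ) ^ n * (2 * ‖S‖ * C) := by
    intro n
    obtain ⟨a, ha, hn⟩ := h n
    have e1 : S * T - T * S = S * (T - a) - (T - a) * S := by
      rw [mul_sub, sub_mul, ha]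
      abel
    rw [e1]
    calc ‖S * (T - a) - (T - a) * S‖ ≤ ‖S * (T - a)‖ + ‖(T - a) * S‖ := norm_sub_le _ _
      _ ≤ ‖S‖ * ‖T - a‖ + ‖T - a‖ * ‖S‖ := add_le_add (norm_mul_le _ _) (norm_mul_le _ _)
      _ = 2 * ‖S‖ * ‖T - a‖ := by ring
      _ ≤ 2 * ‖S‖ * ((1 / 2) ^ n * C) := by
        apply mul_le_mul_of_nonneg_left hn (by positivity)
      _ = (1 / 2 : ℝ) ^ n * (2 * ‖S‖ * C) := by ring
  have hlim : Tendsto (fun n : ℕ => (1 / 2 : ℝ) ^ n * (2 * ‖S‖ * C)) atTop (𝓝 0) := by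
    have h1 := (tendsto_pow_atTop_nhds_zero_of_lt_one (r := (1 / 2 : ℝ)) (by norm_num)
      (by norm_num)).mul_const (2 * ‖S‖ * C)
    simpa using h1
  have h0 : ‖S * T - T * S‖ ≤ 0 := ge_of_tendsto' hlim hb
  exact sub_eq_zero.mp (norm_le_zero_iff.mp h0)

/-- (5.1) `A' ∩ N = A`: for `T ∈ A' ∩ N` choose `y ∈ M` near, `T = EA T ≈ EA y ∈ A` within `κ ‖T‖`; the distance
`d` of the unit ball of `A' ∩ N` to `A`: iterate `T ↦ T - EA y` -/
theorem masa_N {τM : (H →L[ℂ] H) → ℂ} (hc : CM M A τM u) (hs : Sys M A τM k e)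
    (he : ∀ n i j, e n i j ∈ N) (hn : Near M N κ) (hκ : κ ≤ 1 / 2) :
    ∀ x ∈ N, (∀ a ∈ A, x * a = a * x) → x ∈ A := by
  intro x hx hxA
  have hAN := A_le_N hc hs he
  have hstep : ∀ n : ℕ, ∃ a ∈ A, ‖x - a‖ ≤ (1 / 2) ^ n * ‖x‖ := by
    intro n
    induction n with
    | zero => exact ⟨0, zero_mem _, by simp⟩
    | succ n ih =>
      obtain ⟨a, ha, hn'⟩ := ih
      have hxa : x - a ∈ N := sub_mem hx (hAN a ha)
      obtain ⟨y, hy, -, hyd⟩ := hn.NM _ hxa
      have hE : EA e (x - a) = x - a := by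
        refine hs.EA_of_comm fun m i => ?_
        have hd := (hs.mu m).diag i
        rw [sub_mul, mul_sub, hxA _ hd, hc.comm a ha _ hd]
      refine ⟨a + EA e y, add_mem ha (hs.EA_M hc hy).1, ?_⟩
      have e1 : x - (a + EA e y) = - EA e (y - (x - a)) := by
        rw [hs.EA_sub, hE]
        abel
      rw [e1, norm_neg]
      calc ‖EA e (y - (x - a))‖ ≤ ‖y - (x - a)‖ := hs.EA_norm _
        _ ≤ κ * ‖x - a‖ := hyd
        _ ≤ 1 / 2 * ‖x - a‖ := mul_le_mul_of_nonneg_right hκ (norm_nonneg _)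
        _ ≤ 1 / 2 * ((1 / 2) ^ n * ‖x‖) := mul_le_mul_of_nonneg_left hn' (by norm_num)
        _ = (1 / 2) ^ (n + 1) * ‖x‖ := by ring
  refine mem_of_comm fun S hS => Sit_comm_of_near (C := ‖x‖) fun n => ?_
  obtain ⟨a, ha, hn'⟩ := hstep n
  exact ⟨a, hS a ha, hn'⟩

/-- (5.2) if `T ∈ N` commutes with the matrix units then `T` is a scalar: `T = mA T ≈ mA y = τ(y)` -/
theorem scalar_N {τM : (H →L[ℂ] H) → ℂ} (hc : CM M A τM u) (hs : Sys M A τM k e)
    (he : ∀ n i j, e n i j ∈ N) (hn : Near M N κ) (hκ : κ ≤ 1 / 2) {T : H →L[ℂ] H} (hT : T ∈ N)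
    (hcm : ∀ n i j, T * e n i j = e n i j * T) : ∃ c : ℂ, T = c • 1 := by
  have hstep : ∀ n : ℕ, ∃ c : ℂ, ‖T - c • (1 : H →L[ℂ] H)‖ ≤ (1 / 2) ^ n * ‖T‖ := by
    intro n
    induction n with
    | zero => exact ⟨0, by simp⟩
    | succ n ih =>
      obtain ⟨c, hn'⟩ := ih
      have h1 : c • (1 : H →L[ℂ] H) ∈ N := N.toStarSubalgebra.smul_mem (one_mem N) c
      have hxa : T - c • (1 : H →L[ℂ] H) ∈ N := sub_mem hT h1
      obtain ⟨y, hy, -, hyd⟩ := hn.NM _ hxa
      have hcm' : ∀ m i j, (T - c • (1 : H →L[ℂ] H)) * e m i j =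
          e m i j * (T - c • (1 : H →L[ℂ] H)) := by
        intro m i j
        rw [sub_mul, mul_sub, hcm m i j]
        simp
      have hE : mA e (T - c • (1 : H →L[ℂ] H)) = T - c • (1 : H →L[ℂ] H) := hs.mA_of_comm hcm'
      have hM : mA e y = τM y • 1 := hs.mA_M hc hy
      have hneg : mA e (-(T - c • (1 : H →L[ℂ] H))) = -(T - c • (1 : H →L[ℂ] H)) := by
        have h2 := hs.mA_smul (-1) (T - c • (1 : H →L[ℂ] H))
        simpa [hE] using h2
      refine ⟨c + τM y, ?_⟩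
      have e1 : T - (c + τM y) • (1 : H →L[ℂ] H) = - mA e (y - (T - c • (1 : H →L[ℂ] H))) := by
        rw [sub_eq_add_neg y, hs.mA_add, hneg, hM, add_smul]
        abel
      rw [e1, norm_neg]
      calc ‖mA e (y - (T - c • (1 : H →L[ℂ] H)))‖ ≤ ‖y - (T - c • (1 : H →L[ℂ] H))‖ :=
            hs.mA_norm _
        _ ≤ κ * ‖T - c • (1 : H →L[ℂ] H)‖ := hyd
        _ ≤ 1 / 2 * ‖T - c • (1 : H →L[ℂ] H)‖ := mul_le_mul_of_nonneg_right hκ (norm_nonneg _)
        _ ≤ 1 / 2 * ((1 / 2) ^ n * ‖T‖) := mul_le_mul_of_nonneg_left hn' (by norm_num)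
        _ = (1 / 2) ^ (n + 1) * ‖T‖ := by ring
  have hTM : T ∈ M := by
    refine mem_of_comm fun S _ => Sit_comm_of_near (C := ‖T‖) fun n => ?_
    obtain ⟨c, hn'⟩ := hstep n
    exact ⟨c • 1, by simp, hn'⟩
  exact ⟨τM T, hs.scalar hc hTM hcm⟩

end Pool.Agent.KKS

end

section

/-!
# Sita: the state
-/


open Filter Topology

namespace Pool.Agent.KKS

variable {H : Type*} [NormedAddCommGroup H] [InnerProductSpace ℂ H] [CompleteSpace H]
variable {Γ : Type*} [Group Γ] {M N A : VonNeumannAlgebra H} {u : Γ → H →L[ℂ] H}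
  {k : ℕ → ℕ} {e : ∀ n, Fin (k n) → Fin (k n) → H →L[ℂ] H} {κ : ℝ}

private theorem Sita_trace {R : VonNeumannAlgebra H} {σ τ : (H →L[ℂ] H) → ℂ} (h : IsTrace R σ)
    (h' : ∀ x ∈ R, τ x = σ x) : IsTrace R τ := by
  obtain ⟨ξ, h1, h2⟩ := h.normal
  refine ⟨⟨ξ, h1, fun x hx => (h' x hx).trans (h2 x hx)⟩, (h' 1 (one_mem R)).trans h.one, ?_, ?_⟩
  · intro x hx y hy
    rw [h' _ (mul_mem hx hy), h' _ (mul_mem hy hx), h.tracial x hx y hy]
  · intro x hx h0
    rw [h' _ (mul_mem (star_mem hx) hx)] at h0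
    exact h.faithful x hx h0

private theorem Sita_cm {σ τ : (H →L[ℂ] H) → ℂ} (h : CM M A σ u)
    (h' : ∀ x ∈ M, τ x = σ x) : CM M A τ u where
  trace := Sita_trace h.trace h'
  factor := h.factor
  le := h.le
  comm := h.comm
  max := h.max
  u_mem := h.u_mem
  u_one := h.u_one
  u_mul := h.u_mul
  u_star := h.u_star
  u_norm := h.u_norm
  u_free := fun g hg a ha => by
    rw [h' _ (mul_mem (h.le a ha) (h.u_mem g))]
    exact h.u_free g hg a ha
  gen := h.gen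
  projgen := h.projgen
  val := fun e he hp t h0 h1 => by
    rw [h' _ (h.le e he)] at h1
    obtain ⟨f, hf, hpf, hef, hτ⟩ := h.val e he hp t h0 h1
    exact ⟨f, hf, hpf, hef, by rw [h' _ (h.le f hf)]; exact hτ⟩
  dense := by
    obtain ⟨p, hp, hd⟩ := h.dense
    refine ⟨p, hp, fun e he hpe ε hε => ?_⟩
    obtain ⟨n, hn⟩ := hd e he hpe ε hε
    refine ⟨n, ?_⟩
    have h1 : e - p n ∈ M := sub_mem (h.le e he) (h.le _ (hp n).1)
    rw [h' _ (mul_mem h1 h1)]
    exact hn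

private theorem Sita_sys {σ τ : (H →L[ℂ] H) → ℂ} (hc : ∀ a ∈ A, a ∈ M) (h : Sys M A σ k e)
    (h' : ∀ x ∈ M, τ x = σ x) : Sys M A τ k e where
  mu := h.mu
  kinf := h.kinf
  nest := h.nest
  dense := fun p hp hpj ε hε => by
    filter_upwards [h.dense p hp hpj ε hε] with n hn
    obtain ⟨J, hJ⟩ := hn
    refine ⟨J, ?_⟩
    have h1 : p - ∑ i ∈ J, e n i i ∈ M :=
      sub_mem (hc p hp) (sum_mem fun i _ => (h.mu n).mem i i)
    rw [h' _ (mul_mem h1 h1)]
    exact hJ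

/-- (5.2) the state `τ(T) = ⟪ξ₀, mA T ξ₀⟫` -/
theorem exists_sit {τM τN : (H →L[ℂ] H) → ℂ} (hc : CM M A τM u) (hs : Sys M A τM k e)
    (hN : IsTrace N τN) (hF : IsFactor N) (he : ∀ n i j, e n i j ∈ N) (hn : Near M N κ)
    (hκ0 : 0 ≤ κ) (hκ : κ ≤ 1 / 10 ^ 8) :
    ∃ τ : (H →L[ℂ] H) →L[ℂ] ℂ, Sit M N A τ u k e κ := by
  have hκ2 : κ ≤ 1 / 2 := hκ.trans (by norm_num)
  have hex : ∃ ξ : H, ‖ξ‖ = 1 := by
    by_contra hcon
    have h1 : ∀ ξ : H, ξ = 0 := by
      intro ξ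
      by_contra hξ
      apply hcon
      exact ⟨((‖ξ‖ : ℂ)⁻¹) • ξ, by
        rw [norm_smul, norm_inv, Complex.norm_real, norm_norm]
        exact inv_mul_cancel₀ (norm_ne_zero_iff.2 hξ)⟩
    have h2 : (1 : H →L[ℂ] H) = 0 := by
      ext ξ
      exact (h1 _).trans (h1 _).symm
    have h3 := hc.trace.one
    rw [h2, hc.trace.zero] at h3
    exact zero_ne_one h3
  obtain ⟨ξ₀, hξ⟩ := hex
  have hξξ : inner ℂ ξ₀ ξ₀ = (1 : ℂ) := by
    rw [inner_self_eq_norm_sq_to_K, hξ]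
    simp
  let τ : (H →L[ℂ] H) →L[ℂ] ℂ := LinearMap.mkContinuous
    { toFun := fun T => inner ℂ ξ₀ (mA e T ξ₀)
      map_add' := fun S T => by
        rw [hs.mA_add]
        exact inner_add_right _ _ _
      map_smul' := fun c T => by
        rw [hs.mA_smul]
        exact inner_smul_right _ _ _ } 1 (fun T => by
    change ‖inner ℂ ξ₀ (mA e T ξ₀)‖ ≤ 1 * ‖T‖
    calc ‖inner ℂ ξ₀ (mA e T ξ₀)‖ ≤ ‖ξ₀‖ * ‖mA e T ξ₀‖ := norm_inner_le_norm _ _
      _ ≤ 1 * (‖mA e T‖ * ‖ξ₀‖) := by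
          rw [hξ]
          apply mul_le_mul_of_nonneg_left _ zero_le_one
          rw [← hξ]
          exact ContinuousLinearMap.le_opNorm _ _
      _ ≤ 1 * ‖T‖ := by
          rw [hξ, mul_one]
          exact mul_le_mul_of_nonneg_left (hs.mA_norm T) zero_le_one)
  have hτ : ∀ T, τ T = inner ℂ ξ₀ (mA e T ξ₀) := fun T => rfl
  have hsc : ∀ (T : H →L[ℂ] H) (c : ℂ), mA e T = c • 1 → τ T = c := by
    intro T c h1
    rw [hτ, h1]
    change inner ℂ ξ₀ (c • ξ₀) = c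
    rw [inner_smul_right, hξξ, mul_one]
  have hM : ∀ x ∈ M, τ x = τM x := fun x hx => hsc x _ (hs.mA_M hc hx)
  have hNN : ∀ x ∈ N, τ x = τN x := by
    intro x hx
    obtain ⟨c, hc1⟩ := scalar_N hc hs he hn hκ2 (hs.mA_mem he hx) (fun n i j => hs.mA_comm x n i j)
    have h1 := hs.mA_trace hN he hx
    rw [hc1, hN.smul c (one_mem N), hN.one, mul_one] at h1
    rw [hsc x c hc1, h1]
  refine ⟨τ, ?_⟩
  exact
    { cm := Sita_cm hc hM
      sys := Sita_sys hc.le hs hM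
      trN := Sita_trace hN hNN
      facN := hF
      eN := he
      AN := A_le_N hc hs he
      masaN := masa_N hc hs he hn hκ2
      near := hn
      κ0 := hκ0
      κ1 := hκ
      pos := by
        intro T
        have h1 : 0 ≤ star T * T := star_mul_self_nonneg T
        have h2 := hs.mA_nonneg h1
        rw [ContinuousLinearMap.nonneg_iff_isPositive] at h2
        have h3 := (ContinuousLinearMap.isPositive_iff_complex _).1 h2 ξ₀
        rw [hτ]
        have h5 : inner ℂ ξ₀ (mA e (star T * T) ξ₀) =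
            starRingEnd ℂ (inner ℂ (mA e (star T * T) ξ₀) ξ₀) := (inner_conj_symm _ _).symm
        rw [h5, Complex.conj_re, Complex.conj_im]
        obtain ⟨h6, h7⟩ := h3
        refine ⟨h7, ?_⟩
        rw [← h6]
        simp }

end Pool.Agent.KKS

end

section

/-!
# Sit2: Lemma P
-/


open Filter Topology

namespace Pool.Agent.KKS

variable {H : Type*} [NormedAddCommGroup H] [InnerProductSpace ℂ H] [CompleteSpace H]
variable {Γ : Type*} [Group Γ] {M N A : VonNeumannAlgebra H} {u : Γ → H →L[ℂ] H}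
  {τ : (H →L[ℂ] H) →L[ℂ] ℂ} {k : ℕ → ℕ} {e : ∀ n, Fin (k n) → Fin (k n) → H →L[ℂ] H} {κ : ℝ}

private theorem Sit2_sum_pj {M A : VonNeumannAlgebra H} {k : ℕ}
    {e : Fin k → Fin k → H →L[ℂ] H} (he : MU M A e) (J : Finset (Fin k)) :
    PJ (∑ i ∈ J, e i i) := by
  constructor
  · rw [Finset.sum_mul]
    refine Finset.sum_congr rfl fun i hi => ?_
    rw [Finset.mul_sum, Finset.sum_eq_single i]
    · exact he.mul i i i
    · intro j _ hj
      exact he.orth i i j j (Ne.symm hj)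
    · intro h
      exact absurd hi h
  · rw [star_sum]
    exact Finset.sum_congr rfl fun i _ => he.adj i i

/-- values of the trace on sums of diagonal matrix units: for every projection of trace `t` and `n` there is
a sum `d` of diagonal matrix units of level `n` with `t - 1/k n ≤ τ d ≤ t` -/
theorem Sit.exists_diag (h : Sit M N A τ u k e κ) {t : ℝ} (h0 : 0 ≤ t) (h1 : t ≤ 1) (n : ℕ) :
    ∃ d, d ∈ A ∧ PJ d ∧ t - 1 / (k n) ≤ (τ d).re ∧ (τ d).re ≤ t := by
  have he := h.sys.mu n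
  have hk : (0 : ℝ) < k n := by exact_mod_cast he.pos
  have hj : ⌊t * k n⌋₊ ≤ k n := by
    have h2 : t * k n ≤ k n := by nlinarith
    have h3 := (Nat.floor_le (mul_nonneg h0 hk.le)).trans h2
    exact_mod_cast h3
  obtain ⟨J, -, hJ⟩ := Finset.exists_subset_card_eq (s := (Finset.univ : Finset (Fin (k n))))
    (n := ⌊t * k n⌋₊) (by simpa using hj)
  have hτ : (τ (∑ i ∈ J, e n i i)).re = (⌊t * k n⌋₊ : ℝ) / k n := by
    rw [map_sum]
    have h3 : ∀ i ∈ J, τ (e n i i) = 1 / (k n : ℂ) := fun i _ =>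
      MU.trace h.cm.trace he he.mem i
    rw [Finset.sum_congr rfl h3, Finset.sum_const, hJ, nsmul_eq_mul]
    have h4 : ((⌊t * k n⌋₊ : ℕ) : ℂ) * (1 / (k n : ℂ)) =
        (((⌊t * k n⌋₊ : ℝ) / (k n : ℝ) : ℝ) : ℂ) := by
      push_cast
      ring
    rw [h4, Complex.ofReal_re]
  refine ⟨∑ i ∈ J, e n i i, sum_mem fun i _ => he.diag i, Sit2_sum_pj he J, ?_, ?_⟩
  · rw [hτ, sub_le_iff_le_add, ← add_div, le_div_iff₀ hk]
    exact (Nat.lt_floor_add_one (t * k n)).le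
  · rw [hτ, div_le_iff₀ hk]
    exact Nat.floor_le (mul_nonneg h0 hk.le)

private theorem Sit2_proj {s : H →L[ℂ] H} (hsa : star s = s) (hsq : s * s = 1) :
    PJ ((1 / 2 : ℂ) • (1 - s)) := by
  constructor
  · rw [smul_mul_smul_comm, sub_mul, mul_sub, mul_sub, hsq, mul_one, one_mul]
    have : (1 : H →L[ℂ] H) - s - (s - 1) = (2 : ℂ) • (1 - s) := by
      rw [two_smul]
      abel
    rw [mul_one, this, smul_smul]
    norm_num
  · rw [star_smul, star_sub, star_one, hsa]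
    congr 1
    simp

private theorem Sit2_inner_star (T : H →L[ℂ] H) (ξ η : H) :
    inner ℂ ξ (star T η) = inner ℂ (T ξ) η := by
  rw [ContinuousLinearMap.star_eq_adjoint, ContinuousLinearMap.adjoint_inner_right]

private theorem Sit2_norm_eq {v d : H →L[ℂ] H} (hd : PJ d) (hv : star v * v = d) (ξ : H) :
    ‖v ξ‖ = ‖d ξ‖ := by
  have h1 : (‖v ξ‖ : ℝ) ^ 2 = ‖d ξ‖ ^ 2 := by
    have h2 : inner ℂ (v ξ) (v ξ) = inner ℂ (d ξ) (d ξ) := by
      rw [← Sit2_inner_star v, ← Sit2_inner_star d, hd.sa]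
      have h3 : star v (v ξ) = d ξ := by
        rw [← hv]; rfl
      have h4 : d (d ξ) = d ξ := by
        conv_rhs => rw [← hd.idem]
        rfl
      rw [h3, h4]
    rw [inner_self_eq_norm_sq_to_K, inner_self_eq_norm_sq_to_K] at h2
    exact_mod_cast h2
  exact (pow_left_inj₀ (norm_nonneg _) (norm_nonneg _) two_ne_zero).1 h1

/-- the lower bound of the cut down isometry -/
private theorem Sit2_bound {c c' s s' η : H →L[ℂ] H} (ξ : H)
    (hS : IsSgn c s (1 / 2)) (hS' : IsSgn c' s' (1 / 4)) (hn : ‖c - c'‖ ≤ 1 / 8)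
    (h18 : ‖c'‖ ≤ 18) (hη : ((1 / 2 : ℂ) • (1 - s)) * η = η) :
    ‖η ξ‖ ≤ 7 * ‖((1 / 2 : ℂ) • (1 - s')) (η ξ)‖ := by
  set x := η ξ with hx
  have hsx : s x = -x := by
    have h1 : ((1 / 2 : ℂ) • (1 - s)) x = x := by
      rw [hx]
      conv_rhs => rw [← hη]
      rfl
    have h2 : (1 / 2 : ℂ) • (x - s x) = x := h1
    have h3 : x - s x = (2 : ℂ) • x := by
      conv_rhs => rw [← h2]
      rw [smul_smul]
      norm_num
    rw [two_smul] at h3
    have h4 : s x = x - (x + x) := by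
      rw [← h3]
      abel
    rw [h4]
    abel
  have hc1 : (inner ℂ x (c x)).re ≤ -(1 / 2) * ‖x‖ ^ 2 := by
    have h1 := hS.pos x
    have h2 : s (c x) = -c x := by
      have h3 : s (c x) = c (s x) := by
        change (s * c) x = (c * s) x
        rw [hS.comm]
      rw [h3, hsx, map_neg]
    rw [h2, inner_neg_right, Complex.neg_re] at h1
    linarith
  have hc2 : (inner ℂ x (c' x)).re ≤ -(3 / 8) * ‖x‖ ^ 2 := by
    have h1 : c' x = c x - (c - c') x := by
      rw [sub_apply]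
      abel
    have h2 : ‖inner ℂ x ((c - c') x)‖ ≤ 1 / 8 * ‖x‖ ^ 2 := by
      calc ‖inner ℂ x ((c - c') x)‖ ≤ ‖x‖ * ‖(c - c') x‖ := norm_inner_le_norm _ _
        _ ≤ ‖x‖ * (1 / 8 * ‖x‖) := by
            apply mul_le_mul_of_nonneg_left _ (norm_nonneg _)
            exact (ContinuousLinearMap.le_opNorm _ _).trans
              (mul_le_mul_of_nonneg_right hn (norm_nonneg _))
        _ = 1 / 8 * ‖x‖ ^ 2 := by ring
    rw [h1, inner_sub_right, Complex.sub_re]
    have h3 := (abs_le.1 ((Complex.abs_re_le_norm _).trans h2)).1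
    nlinarith
  set p := (1 / 2 : ℂ) • ((1 : H →L[ℂ] H) - s') with hp
  have hpj : PJ p := Sit2_proj hS'.sa' hS'.sq
  have hcp : c' * p = p * c' := by
    rw [hp, mul_smul_comm, smul_mul_assoc, mul_sub, sub_mul, hS'.comm, mul_one, one_mul]
  have hdec : (inner ℂ x (c' x)).re =
      (inner ℂ (p x) (c' (p x))).re + (inner ℂ (x - p x) (c' (x - p x))).re := by
    have h1 : inner ℂ (p x) (c' (x - p x)) = (0 : ℂ) := by
      have h2 : inner ℂ (p x) (c' (x - p x)) = inner ℂ x (p (c' (x - p x))) := by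
        rw [← hpj.sa, Sit2_inner_star, hpj.sa]
      have h3 : p (c' (x - p x)) = 0 := by
        have h4 : p (c' (x - p x)) = c' (p (x - p x)) := by
          change (p * c') (x - p x) = (c' * p) (x - p x)
          rw [hcp]
        have h5 : p (p x) = p x := by
          change (p * p) x = p x
          rw [hpj.idem]
        rw [h4, map_sub, h5, sub_self, map_zero]
      rw [h2, h3, inner_zero_right]
    have h1' : inner ℂ (x - p x) (c' (p x)) = (0 : ℂ) := by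
      have h2 : c' (p x) = p (c' x) := by
        change (c' * p) x = (p * c') x
        rw [hcp]
      have h3 : inner ℂ (x - p x) (p (c' x)) = inner ℂ (p (x - p x)) (c' x) := by
        rw [← Sit2_inner_star p, hpj.sa]
      have h5 : p (p x) = p x := by
        change (p * p) x = p x
        rw [hpj.idem]
      rw [h2, h3, map_sub, h5, sub_self, inner_zero_left]
    have h6 : inner ℂ x (c' x) = inner ℂ (p x + (x - p x)) (c' (p x + (x - p x))) := by
      rw [add_sub_cancel]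
    rw [h6, map_add, inner_add_left, inner_add_right, inner_add_right, h1, h1', add_zero,
      zero_add, Complex.add_re]
  have hpos : 0 ≤ (inner ℂ (x - p x) (c' (x - p x))).re := by
    have h1 := hS'.pos (x - p x)
    have h2 : s' (c' (x - p x)) = c' (x - p x) := by
      have h3 : s' (c' (x - p x)) = c' (s' (x - p x)) := by
        change (s' * c') _ = (c' * s') _
        rw [hS'.comm]
      have h4 : s' (x - p x) = x - p x := by
        have h5 : (s' * (1 - p)) = 1 - p := by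
          rw [hp]
          have : (1 : H →L[ℂ] H) - (1 / 2 : ℂ) • (1 - s') = (1 / 2 : ℂ) • (1 + s') := by
            rw [smul_sub, smul_add]
            have h7 : (1 : H →L[ℂ] H) = (1 / 2 : ℂ) • 1 + (1 / 2 : ℂ) • 1 := by
              rw [← add_smul]
              norm_num
            nth_rewrite 1 [h7]
            abel
          rw [this, mul_smul_comm, mul_add, hS'.sq, mul_one, add_comm]
        have h6 : s' (x - p x) = (s' * (1 - p)) x := rfl
        rw [h6, h5]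
        rfl
      rw [h3, h4]
    rw [h2] at h1
    exact le_trans (by positivity) h1
  have hneg : -(18 * ‖p x‖ ^ 2) ≤ (inner ℂ (p x) (c' (p x))).re := by
    have h2 : ‖inner ℂ (p x) (c' (p x))‖ ≤ 18 * ‖p x‖ ^ 2 := by
      calc ‖inner ℂ (p x) (c' (p x))‖ ≤ ‖p x‖ * ‖c' (p x)‖ := norm_inner_le_norm _ _
        _ ≤ ‖p x‖ * (18 * ‖p x‖) := by
            apply mul_le_mul_of_nonneg_left _ (norm_nonneg _)
            exact (ContinuousLinearMap.le_opNorm _ _).trans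
              (mul_le_mul_of_nonneg_right h18 (norm_nonneg _))
        _ = 18 * ‖p x‖ ^ 2 := by ring
    exact (abs_le.1 ((Complex.abs_re_le_norm _).trans h2)).1
  have h3 : ‖x‖ ^ 2 ≤ (7 * ‖p x‖) ^ 2 := by nlinarith
  exact (pow_le_pow_iff_left₀ (norm_nonneg _) (by positivity) two_ne_zero).1 h3

/-- (5.3) one half.  `d` a projection of `A` with `τ d ≤ τ p`, `v ∈ M`, `v⋆v = d`, `vv⋆ ≤ p` (`comparison`), `v'' ∈ N`
near `v`, `T = p' v'' d`.  For a unit vector `ξ ∈ d H`: `⟪c' vξ, vξ⟫ ≤ - 1/2 + 1/8 = - 3/8` and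
`⟪c' k, k⟫ ≥ - 18 ‖p' k‖²`, so `‖p' v ξ‖ ≥ 1/7`, `‖T ξ‖ ≥ 1/8`; `polar_of_bound` gives `w ∈ N`, `w⋆w = d`, `p' w = w`.
So `τ d ≤ τ p'`; then `exists_diag`. -/
theorem Sit.lemmaP_le (h : Sit M N A τ u k e κ) {c c' s s' : H →L[ℂ] H} (hc : c ∈ M)
    (hc' : c' ∈ N) (hs : s ∈ M) (hs' : s' ∈ N) (hS : IsSgn c s (1 / 2))
    (hS' : IsSgn c' s' (1 / 4)) (hn : ‖c - c'‖ ≤ 1 / 8) (h18 : ‖c'‖ ≤ 18) :
    (τ s').re ≤ (τ s).re := by
  set p := (1 / 2 : ℂ) • ((1 : H →L[ℂ] H) - s) with hp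
  set p' := (1 / 2 : ℂ) • ((1 : H →L[ℂ] H) - s') with hp'
  have hpj : PJ p := Sit2_proj hS.sa' hS.sq
  have hpj' : PJ p' := Sit2_proj hS'.sa' hS'.sq
  have hpM : p ∈ M := by
    exact M.toStarSubalgebra.smul_mem (sub_mem (one_mem _) hs) _
  have hpN : p' ∈ N := by
    exact N.toStarSubalgebra.smul_mem (sub_mem (one_mem _) hs') _
  have h1 : τ 1 = 1 := h.cm.trace.one
  have hτp : (τ p).re = (1 - (τ s).re) / 2 := by
    rw [hp, map_smul, map_sub, h1, smul_eq_mul]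
    simp
    ring
  have hτp' : (τ p').re = (1 - (τ s').re) / 2 := by
    rw [hp', map_smul, map_sub, h1, smul_eq_mul]
    simp
    ring
  have hmain : ∀ n, (τ p).re - 1 / (k n) ≤ (τ p').re := by
    intro n
    have h0 : 0 ≤ (τ p).re := (h.cm.trace.nonneg hpM hpj.nonneg).1
    have h2 : (τ p).re ≤ 1 := by
      have h3 := (h.cm.trace.nonneg (sub_mem (one_mem M) hpM) hpj.compl.nonneg).1
      rw [map_sub, h1, Complex.sub_re, Complex.one_re] at h3
      linarith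
    obtain ⟨d, hdA, hd, hd1, hd2⟩ := h.exists_diag h0 h2 n
    refine hd1.trans ?_
    obtain ⟨v, hv, hvd, hpv⟩ := comparison h.cm.factor h.cm.trace hd hpj (h.cm.le d hdA) hpM hd2
    obtain ⟨v', hv', hv1, hv2⟩ := h.near.MN v hv
    have hvn : ‖v‖ ≤ 1 := by
      have h4 : ‖v‖ * ‖v‖ = ‖d‖ := by
        rw [← hvd, CStarRing.norm_star_mul_self]
      have h5 := hd.norm_le
      nlinarith [norm_nonneg v]
    have hvd' : v * d = v := by
      rw [← hvd]
      exact (PJ.pi (hvd ▸ hd)).1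
    have hdN : d ∈ N := h.AN d hdA
    have hT : p' * v' * d ∈ N := mul_mem (mul_mem hpN hv') hdN
    have hTd : p' * v' * d * d = p' * v' * d := by rw [mul_assoc, hd.idem]
    have hpT : p' * (p' * v' * d) = p' * v' * d := by
      rw [← mul_assoc, ← mul_assoc, hpj'.idem]
    have hb : ∀ ξ : H, 1 / 8 * ‖d ξ‖ ≤ ‖(p' * v' * d) ξ‖ := by
      intro ξ
      have h5 := Sit2_bound ξ hS hS' hn h18 hpv
      rw [Sit2_norm_eq hd hvd ξ] at h5
      have h6 : v ξ = v (d ξ) := by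
        conv_lhs => rw [← hvd']
        rfl
      have h7 : (p' * v' * d) ξ = p' (v ξ) - p' ((v - v') (d ξ)) := by
        have h8 : (v - v') (d ξ) = v (d ξ) - v' (d ξ) := rfl
        rw [h6, h8, map_sub, sub_sub_cancel]
        rfl
      have h9 : ‖p' ((v - v') (d ξ))‖ ≤ κ * ‖d ξ‖ := by
        calc ‖p' ((v - v') (d ξ))‖ ≤ ‖p'‖ * ‖(v - v') (d ξ)‖ := ContinuousLinearMap.le_opNorm _ _
          _ ≤ 1 * (‖v - v'‖ * ‖d ξ‖) := by
              apply mul_le_mul hpj'.norm_le (ContinuousLinearMap.le_opNorm _ _) (norm_nonneg _)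
                zero_le_one
          _ ≤ 1 * (κ * ‖d ξ‖) := by
              apply mul_le_mul_of_nonneg_left _ zero_le_one
              apply mul_le_mul_of_nonneg_right _ (norm_nonneg _)
              refine hv2.trans ?_
              have := h.κ0
              nlinarith
          _ = κ * ‖d ξ‖ := one_mul _
      have h10 := norm_sub_norm_le (p' (v ξ)) (p' ((v - v') (d ξ)))
      rw [h7]
      have h11 := h.κ1
      have h12 : κ * ‖d ξ‖ ≤ 1 / 10 ^ 8 * ‖d ξ‖ :=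
        mul_le_mul_of_nonneg_right h11 (norm_nonneg _)
      have h13 := norm_nonneg (d ξ)
      linarith
    obtain ⟨w, hw, hwd, hwq⟩ := polar_of_bound hT hd hTd (by norm_num : (0 : ℝ) < 1 / 8) hb
    have hpw : p' * w = w := hwq p' hpT
    have hsw : τ (star w * w) = τ (w * star w) := h.trN.swap hw
    have hww : PJ (w * star w) := (PJ.pi (hwd ▸ hd)).2
    have h14 : PJ (p' - w * star w) := hpj'.sub hww (by rw [← mul_assoc, hpw])
    have h15 := (h.trN.nonneg (sub_mem hpN (mul_mem hw (star_mem hw))) h14.nonneg).1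
    rw [map_sub, ← hsw, hwd, Complex.sub_re] at h15
    linarith
  have hfin : (τ p).re ≤ (τ p').re := by
    by_contra hcon
    rw [not_le] at hcon
    have hε : 0 < (τ p).re - (τ p').re := sub_pos.2 hcon
    obtain ⟨m, hm⟩ := exists_nat_one_div_lt hε
    obtain ⟨n, hn⟩ := (h.sys.kinf.eventually_ge_atTop (m + 1)).exists
    have h2 := hmain n
    have h3 : (1 : ℝ) / (k n) ≤ 1 / ((m : ℝ) + 1) := by
      apply one_div_le_one_div_of_le (by positivity)
      exact_mod_cast hn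
    linarith
  rw [hτp, hτp'] at hfin
  linarith

/-- (5.3) -/
theorem Sit.lemmaP (h : Sit M N A τ u k e κ) {c c' s s' : H →L[ℂ] H} (hc : c ∈ M)
    (hc' : c' ∈ N) (hs : s ∈ M) (hs' : s' ∈ N) (hS : IsSgn c s (1 / 2))
    (hS' : IsSgn c' s' (1 / 4)) (hn : ‖c - c'‖ ≤ 1 / 8) (h18 : ‖c'‖ ≤ 18) :
    (τ s).re = (τ s').re := by
  refine le_antisymm ?_ (h.lemmaP_le hc hc' hs hs' hS hS' hn h18)
  have h2 := h.lemmaP_le (neg_mem hc) (neg_mem hc') (neg_mem hs) (neg_mem hs') hS.neg hS'.neg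
    (by rw [neg_sub_neg, norm_sub_rev]; exact hn) (by rw [norm_neg]; exact h18)
  simpa using h2

end Pool.Agent.KKS

end

section

/-!
# Sit3: lifts of the normalisers, transitivity
-/


open Filter Topology

namespace Pool.Agent.KKS

variable {H : Type*} [NormedAddCommGroup H] [InnerProductSpace ℂ H] [CompleteSpace H]
variable {Γ : Type*} [Group Γ] {M N A : VonNeumannAlgebra H} {u : Γ → H →L[ℂ] H}
  {τ : (H →L[ℂ] H) →L[ℂ] ℂ} {k : ℕ → ℕ} {e : ∀ n, Fin (k n) → Fin (k n) → H →L[ℂ] H} {κ : ℝ}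

private theorem Sit3_pj_one : PJ (1 : H →L[ℂ] H) := ⟨one_mul 1, star_one _⟩

private theorem Sit3_norm_unit {w : H →L[ℂ] H} (h1 : star w * w = 1) : ‖w‖ ≤ 1 := by
  have h3 := CStarRing.norm_star_mul_self (x := w)
  rw [h1] at h3
  have h2 : ‖(1 : H →L[ℂ] H)‖ ≤ 1 := ContinuousLinearMap.norm_id_le
  nlinarith [norm_nonneg w]

/-- (5.4) `y ∈ N` near `u g`, `W = wlim ∑ (u e_ii u⋆) y e_ii = u EA(u⋆ y)`, `w = W |W|⁻¹` -/
theorem Sit.exists_lift (h : Sit M N A τ u k e κ) (g : Γ) : ∃ w ∈ N, star w * w = 1 ∧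
    w * star w = 1 ∧ ‖w - u g‖ ≤ 4 * κ ∧ ∀ a ∈ A, w * a = u g * a * star (u g) * w := by
  have hκ1 := h.κ1
  have hκ0 := h.κ0
  obtain ⟨hu1, hu2⟩ := h.cm.unit g
  have hun : ‖u g‖ ≤ 1 := Sit3_norm_unit hu1
  have hun' : ‖star (u g)‖ ≤ 1 := by rw [norm_star]; exact hun
  obtain ⟨y, hy, hyn, hyu⟩ := h.near.MN (u g) (h.cm.u_mem g)
  have hyu' : ‖u g - y‖ ≤ κ := hyu.trans (by nlinarith)
  have hdiag : ∀ a ∈ A, ∀ n i, a * e n i i = e n i i * a := fun a ha n i =>
    h.cm.comm a ha _ ((h.sys.mu n).diag i)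
  have hone : ∀ n i, (1 : H →L[ℂ] H) * e n i i = e n i i * 1 := fun n i => by
    rw [one_mul, mul_one]
  set S := EA e (star (u g) * y) with hS
  set W := u g * S with hW
  have hSc : ∀ a ∈ A, S * a = a * S :=
    h.sys.comm_A h.cm (fun n i => h.sys.EA_comm _ n i)
  -- `W` is near `u g`
  have hWn : ‖W - u g‖ ≤ κ := by
    have h1 : EA e (1 : H →L[ℂ] H) = 1 := h.sys.EA_of_comm hone
    have h2 : W - u g = u g * EA e (star (u g) * y - 1) := by
      rw [h.sys.EA_sub, h1, mul_sub, mul_one]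
    have h3 : star (u g) * y - 1 = star (u g) * (y - u g) := by
      rw [mul_sub, hu1]
    rw [h2, h3]
    calc ‖u g * EA e (star (u g) * (y - u g))‖
        ≤ ‖u g‖ * ‖EA e (star (u g) * (y - u g))‖ := norm_mul_le _ _
      _ ≤ 1 * (1 * κ) := by
          apply mul_le_mul hun _ (norm_nonneg _) zero_le_one
          refine (h.sys.EA_norm _).trans ((norm_mul_le _ _).trans ?_)
          apply mul_le_mul hun' _ (norm_nonneg _) zero_le_one
          rw [norm_sub_rev]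
          exact hyu'
      _ = κ := by ring
  -- `W ∈ N`
  have hWN : W ∈ N := by
    have hT : ∀ n, u g * (∑ i, e n i i * (star (u g) * y) * e n i i) ∈ N := by
      intro n
      rw [Finset.mul_sum]
      refine sum_mem fun i _ => ?_
      have h1 : u g * (e n i i * (star (u g) * y) * e n i i) =
          (u g * e n i i * star (u g)) * y * e n i i := by noncomm_ring
      rw [h1]
      exact mul_mem (mul_mem (h.AN _ (h.cm.u_norm g _ ((h.sys.mu n).diag i))) hy)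
        (h.AN _ ((h.sys.mu n).diag i))
    have hbdd : Bdd (fun n => ∑ i, e n i i * (star (u g) * y) * e n i i) :=
      ⟨_, fun n => h.sys.EA_bdd (star (u g) * y) n⟩
    have h2 : W = wlim (fun n => u g * (∑ i, e n i i * (star (u g) * y) * e n i i)) := by
      rw [wlim_mul_left hbdd]
      rfl
    rw [h2]
    exact wlim_mem N ((Bdd.const (u g)).mul hbdd) (Filter.Eventually.of_forall hT)
  obtain ⟨w, hw, hw1, hw2, hwn, -, t, hwt, ht⟩ := near_unitary (E := 1) (u := u g) (T := W)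
    Sit3_pj_one (one_mem N) hu1 hu2 hWN (mul_one W) (one_mul W)
    (hκ1.trans (by norm_num)) hWn
  refine ⟨w, hw, hw1, hw2, hwn, ?_⟩
  -- `t` commutes with `A`
  have hWW : star W * W = star S * S := by
    rw [hW, star_mul]
    calc star S * star (u g) * (u g * S) = star S * (star (u g) * u g) * S := by noncomm_ring
      _ = star S * S := by rw [hu1, mul_one]
  have hSc' : ∀ a ∈ A, star S * a = a * star S := by
    intro a ha
    have h1 := congrArg star (hSc (star a) (star_mem ha))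
    rw [star_mul, star_mul, star_star] at h1
    exact h1.symm
  have hWA : star W * W ∈ A := by
    refine h.masaN _ (mul_mem (star_mem hWN) hWN) fun a ha => ?_
    rw [hWW]
    calc star S * S * a = star S * (S * a) := by noncomm_ring
      _ = (star S * a) * S := by rw [hSc a ha]; noncomm_ring
      _ = a * (star S * S) := by rw [hSc' a ha]; noncomm_ring
  have htA : t ∈ A := ht A hWA (one_mem A)
  intro a ha
  calc w * a = u g * S * (t * a) := by rw [hwt, hW]; noncomm_ring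
    _ = u g * (S * a) * t := by rw [h.cm.comm t htA a ha]; noncomm_ring
    _ = u g * a * S * t := by rw [hSc a ha]; noncomm_ring
    _ = u g * a * (star (u g) * u g) * S * t := by rw [hu1, mul_one]
    _ = u g * a * star (u g) * w := by rw [hwt, hW]; noncomm_ring

/-- (5.5) -/
theorem Sit.qtrans (h : Sit M N A τ u k e κ) {E F : H →L[ℂ] H} (hE : E ∈ A) (hF : F ∈ A)
    (hPE : PJ E) (hPF : PJ F) (h0 : (τ E).re = (τ F).re) :
    ∃ q, GN (interVN M N) A q ∧ star q * q = E ∧ q * star q = F := by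
  have hAW : ∀ a ∈ A, a ∈ interVN M N := fun a ha => mem_interVN.2 ⟨h.cm.le a ha, h.AN a ha⟩
  have hτ : IsTrace (interVN M N) τ := h.cm.trace.of_le fun x hx => (mem_interVN.1 hx).1
  have hτEF : τ E = τ F := by
    rw [(h.cm.trace.nonneg (h.cm.le E hE) hPE.nonneg).2,
      (h.cm.trace.nonneg (h.cm.le F hF) hPF.nonneg).2, h0]
  have hgn : ∀ n i j, GN (interVN M N) A (e n i j) := by
    intro n i j
    have hm := h.sys.mu n
    have h1 : star (e n i j) * e n i j = e n j j := by rw [hm.adj, hm.mul]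
    have h2 : e n i j * star (e n i j) = e n i i := by rw [hm.adj, hm.mul]
    exact
      { mem := mem_interVN.2 ⟨hm.mem i j, h.eN n i j⟩
        pj := by rw [h1]; exact hm.pj j
        ini := by rw [h1]; exact hm.diag j
        fin := by rw [h2]; exact hm.diag i
        conj := fun a ha => by rw [hm.adj]; exact hm.conj i j a ha
        conj' := fun a ha => by rw [hm.adj]; exact hm.conj j i a ha }
  have : Nonempty (Σ n, Fin (k n) × Fin (k n)) :=
    ⟨⟨0, ⟨⟨0, (h.sys.mu 0).pos⟩, ⟨0, (h.sys.mu 0).pos⟩⟩⟩⟩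
  obtain ⟨f, hf⟩ := exists_surjective_nat (Σ n, Fin (k n) × Fin (k n))
  refine trans hτ hAW h.cm.comm (fun m => e (f m).1 (f m).2.1 (f m).2.2)
    (fun m => hgn _ _ _) ?_ hE hF hPE hPF hτEF
  intro E hE F hF hPE hPF hm
  refine h.sys.erg h.cm hE hF hPE hPF fun n i j => ?_
  obtain ⟨m, hm'⟩ := hf ⟨n, (i, j)⟩
  have h1 := hm m
  rw [hm'] at h1
  exact h1

end Pool.Agent.KKS

end

section

/-!
# Sit3a: frames, unitaries near unitaries
-/


open Filter Topology

namespace Pool.Agent.KKS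

variable {H : Type*} [NormedAddCommGroup H] [InnerProductSpace ℂ H] [CompleteSpace H]
variable {Γ : Type*} [Group Γ] {M N A : VonNeumannAlgebra H} {u : Γ → H →L[ℂ] H}
  {τ : (H →L[ℂ] H) →L[ℂ] ℂ} {k : ℕ → ℕ} {e : ∀ n, Fin (k n) → Fin (k n) → H →L[ℂ] H} {κ : ℝ}

/-- eight orthogonal copies: `CM.pieces` (with `f = 1`), `Sit.qtrans` -/
theorem Sit.exists_frame (h : Sit M N A τ u k e κ) {E : H →L[ℂ] H} (hE : E ∈ A) (hPE : PJ E)
    (h8 : (τ E).re ≤ 1 / 8) : ∃ r : Fin 8 → H →L[ℂ] H, Frame (interVN M N) E r := by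
  have h0 : 0 ≤ (τ E).re := (h.cm.trace.nonneg (h.cm.le E hE) hPE.nonneg).1
  have hP1 : PJ (1 : H →L[ℂ] H) := ⟨one_mul 1, star_one _⟩
  have h1 : (τ 1).re = 1 := by
    rw [h.cm.trace.one, Complex.one_re]
  obtain ⟨Y, hY, hYo⟩ := h.cm.pieces (one_mem A) hP1 h0 8 (by
    rw [h1]
    push_cast
    linarith)
  have hq : ∀ j, ∃ q, GN (interVN M N) A q ∧ star q * q = E ∧ q * star q = Y j := fun j =>
    h.qtrans hE (hY j).1 hPE (hY j).2.1 (hY j).2.2.2.symm
  choose r hr hr1 hr2 using hq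
  refine ⟨r, hPE, mem_interVN.2 ⟨h.cm.le E hE, h.AN E hE⟩, fun j => (hr j).mem, hr1, ?_⟩
  intro i j hij
  have h3 : ∀ j, r j * star (r j) * r j = r j := by
    intro j
    rw [mul_assoc]
    exact (PJ.pi (hr j).pj).1
  have h4 : star (r i) * (r i * star (r i)) = star (r i) := by
    have := congrArg star (h3 i)
    rw [star_mul, star_mul, star_star] at this
    exact this
  calc star (r i) * r j = star (r i) * (r i * star (r i)) * (r j * star (r j) * r j) := by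
        rw [h4, h3]
    _ = star (r i) * ((r i * star (r i)) * (r j * star (r j))) * r j := by noncomm_ring
    _ = 0 := by rw [hr2, hr2, hYo i j hij, mul_zero, zero_mul]

/-- unitaries of a corner of `M` are near unitaries of the corner of `N` -/
theorem Sit.cu_near (h : Sit M N A τ u k e κ) {E g : H →L[ℂ] H} (hE : E ∈ A) (hPE : PJ E)
    (hg : CU M E g) : ∃ g', CU N E g' ∧ ‖g - g'‖ ≤ 4 * κ := by
  have hκ1 := h.κ1
  have hκ0 := h.κ0
  obtain ⟨x, hx, -, hxg⟩ := h.near.MN g hg.mem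
  have hgn : ‖g‖ ≤ 1 := hg.norm_le hPE
  have hxg' : ‖g - x‖ ≤ κ := hxg.trans (by nlinarith)
  have hEN : E ∈ N := h.AN E hE
  have hT : ‖E * x * E - g‖ ≤ κ := by
    have h1 : E * x * E - g = E * (x - g) * E := by
      rw [mul_sub, sub_mul, hg.left hPE, hg.right hPE]
    rw [h1]
    calc ‖E * (x - g) * E‖ ≤ ‖E * (x - g)‖ * ‖E‖ := norm_mul_le _ _
      _ ≤ (‖E‖ * ‖x - g‖) * ‖E‖ := by
          gcongr
          exact norm_mul_le _ _
      _ ≤ (1 * κ) * 1 := by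
          have h2 := hPE.norm_le
          have h3 : ‖x - g‖ ≤ κ := by rw [norm_sub_rev]; exact hxg'
          gcongr
      _ = κ := by ring
  obtain ⟨w, hw, hw1, hw2, hwn, -⟩ := near_unitary (T := E * x * E) hPE hEN hg.l hg.r
    (mul_mem (mul_mem hEN hx) hEN) (by rw [mul_assoc, hPE.idem])
    (by rw [← mul_assoc, ← mul_assoc, hPE.idem]) (hκ1.trans (by norm_num)) hT
  exact ⟨w, ⟨hw, hw1, hw2⟩, by rw [norm_sub_rev]; exact hwn⟩

end Pool.Agent.KKS

end

section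

/-!
# R8: the relation
-/


open Filter Topology

namespace Pool.Agent.KKS

variable {H : Type*} [NormedAddCommGroup H] [InnerProductSpace ℂ H] [CompleteSpace H]
variable {Γ : Type*} [Group Γ] {M N A : VonNeumannAlgebra H} {u : Γ → H →L[ℂ] H}
  {τ : (H →L[ℂ] H) →L[ℂ] ℂ} {k : ℕ → ℕ} {e : ∀ n, Fin (k n) → Fin (k n) → H →L[ℂ] H} {κ : ℝ}

/-- (7) Frame from `exists_frame`; `Frame.sum_ell` for `M` (`K = 1`) and `N` (`K = 2`); `c - c' = C(w) - C(w')`
has norm at most `2 · 4 · 4 / 300 ≤ 1/8` (`Cay_sub_norm`, `Frame.wF_norm`); `Sit.lemmaP` -/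
theorem Sit.rel8 (h : Sit M N A τ u k e κ) {E : H →L[ℂ] H} (hE : E ∈ A) (hPE : PJ E)
    (h8 : (τ E).re ≤ 1 / 8) {g g' : Fin 8 → H →L[ℂ] H} (hg : ∀ j, CU M E (g j))
    (hg' : ∀ j, CU N E (g' j)) (hG : ∀ j, Gap E (g j) 1) (hG' : ∀ j, Gap E (g' j) 2)
    (hn : ∀ j, ‖g j - g' j‖ ≤ 1 / 300)
    (hp : g 7 * g 6 * g 5 * g 4 * g 3 * g 2 * g 1 * g 0 = E)
    (hp' : g' 7 * g' 6 * g' 5 * g' 4 * g' 3 * g' 2 * g' 1 * g' 0 = E) :
    ∑ j, ell τ E (g j) = ∑ j, ell τ E (g' j) := by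
  obtain ⟨r, hr⟩ := h.exists_frame hE hPE h8
  have fM : Frame M E r := hr.le fun x hx => (mem_interVN.1 hx).1
  have fN : Frame N E r := hr.le fun x hx => (mem_interVN.1 hx).2
  obtain ⟨s, hs, hS, -, hsum⟩ := fM.sum_ell h.cm.trace hg hG le_rfl (by norm_num) hp
  obtain ⟨s', hs', hS', h18', hsum'⟩ := fN.sum_ell h.trN hg' hG' (by norm_num) le_rfl hp'
  have e1 : (1 : ℝ) / (2 * 1) = 1 / 2 := by norm_num
  have e2 : (1 : ℝ) / (2 * 2) = 1 / 4 := by norm_num
  rw [e1] at hS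
  rw [e2] at hS'
  have hc : Cay (wF r g) - Cay (uF r) ∈ M :=
    sub_mem (Cay_mem (fM.wF_cu hg).mem) (Cay_mem fM.uF_cu.mem)
  have hc' : Cay (wF r g') - Cay (uF r) ∈ N :=
    sub_mem (Cay_mem (fN.wF_cu hg').mem) (Cay_mem fN.uF_cu.mem)
  have hnorm : ‖(Cay (wF r g) - Cay (uF r)) - (Cay (wF r g') - Cay (uF r))‖ ≤ 1 / 8 := by
    rw [sub_sub_sub_cancel_right]
    have h1 := Cay_sub_norm (fM.wF_gap hg hp) (fM.wF_cu hg) (by norm_num)
      (fN.wF_gap hg' hp') (fN.wF_cu hg') (by norm_num)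
    have h2 := fM.wF_norm fN hg hg' (by norm_num : (0 : ℝ) ≤ 1 / 300) hn
    linarith
  have hτ := h.lemmaP hc hc' hs hs' hS hS' hnorm h18'
  rw [hsum, hsum', hτ]

end Pool.Agent.KKS

end
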