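import Pool.Agent.Lib.MP_5c1ef7_an.P11

/-!
# P12: the number B, the measure beta, the lifts
-/

set_option autoImplicit false
set_option linter.unusedSectionVars false

section

/-!
# B: the number B: existence
-/


open Filter Topology

namespace Pool.Agent.KKS

variable {H : Type*} [NormedAddCommGroup H] [InnerProductSpace ℂ H] [CompleteSpace H]
variable {Γ : Type*} [Group Γ] {M N A : VonNeumannAlgebra H} {u : Γ → H →L[ℂ] H}
  {τ : (H →L[ℂ] H) →L[ℂ] ℂ} {k : ℕ → ℕ} {e : ∀ n, Fin (k n) → Fin (k n) → H →L[ℂ] H} {κ : ℝ}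

/-- `b` is a value of `B_E(y, y')` -/
structure IsB (M N : VonNeumannAlgebra H) (τ : (H →L[ℂ] H) →L[ℂ] ℂ) (E y y' : H →L[ℂ] H)
    (b : ℝ) : Prop where
  ex : ∃ g₁ g₂ g₁' g₂' : H →L[ℂ] H, CU M E g₁ ∧ CU M E g₂ ∧ CU N E g₁' ∧ CU N E g₂' ∧
    Gap E g₁ 1 ∧ Gap E g₂ 1 ∧ ‖g₁ - g₁'‖ ≤ 1 / 300 ∧ ‖g₂ - g₂'‖ ≤ 1 / 300 ∧
    y = g₂ * g₁ ∧ y' = g₂' * g₁' ∧ b = ell τ E g₁' + ell τ E g₂' - ell τ E g₁ - ell τ E g₂

/-- existence (8) with the bound 8.2: `y = v * v` by `sqrt_unitary`, `g₁ = g₂ = - v`, `g₁'` by `Sit.cu_near`,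
`g₂' = y' * star g₁'` -/
theorem Sit.exists_B (h : Sit M N A τ u k e κ) {E y y' : H →L[ℂ] H} (hE : E ∈ A) (hPE : PJ E)
    (hy : CU M E y) (hy' : CU N E y') (hn : ‖y - y'‖ ≤ 1 / 1000) :
    ∃ b, IsB M N τ E y y' b ∧ |b| ≤ 500 * (‖y - y'‖ + 8 * κ) * (τ E).re := by
  have hEM : E ∈ M := h.cm.le E hE
  have hEN : E ∈ N := h.AN E hE
  have hκ := h.κ1
  have hκ0 := h.κ0
  obtain ⟨v, hv, hv1, hv2, hvv, hvp⟩ := sqrt_unitary hPE hEM hy.mem hy.l hy.r
  have hvCU : CU M E v := ⟨hv, hv1, hv2⟩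
  have hg : CU M E (-v) := ⟨neg_mem hv, by rw [star_neg, neg_mul_neg, hv1],
    by rw [star_neg, neg_mul_neg, hv2]⟩
  have hG : Gap E (-v) 1 := Gap.of_re hvCU hPE hvp
  obtain ⟨g', hg', hgn⟩ := h.cu_near hE hPE hg
  have hg2' : CU N E (y' * star g') := hy'.mul hg'.adj hPE
  have hy1 : y = (-v) * (-v) := by rw [neg_mul_neg, hvv]
  have hy2 : y' = y' * star g' * g' := by
    rw [mul_assoc, hg'.l, hy'.right hPE]
  have hg2 : (-v) = y * star (-v) := by
    rw [hy1, mul_assoc, hg.r, hg.right hPE]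
  have hn2 : ‖(-v) - y' * star g'‖ ≤ ‖y - y'‖ + 4 * κ := by
    have h1 : (-v) - y' * star g' = (y - y') * star (-v) + y' * (star (-v) - star g') := by
      calc (-v) - y' * star g' = y * star (-v) - y' * star g' := by rw [← hg2]
        _ = _ := by noncomm_ring
    rw [h1]
    refine (norm_add_le _ _).trans (add_le_add ?_ ?_)
    · refine (norm_mul_le _ _).trans ?_
      rw [norm_star]
      exact mul_le_of_le_one_right (norm_nonneg _) (hg.norm_le hPE)
    · refine (norm_mul_le _ _).trans ?_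
      rw [← star_sub, norm_star]
      refine (mul_le_of_le_one_left (norm_nonneg _) (hy'.norm_le hPE)).trans hgn
  have hb1 : ‖(-v) - g'‖ ≤ 1 / 300 := by
    refine hgn.trans ?_
    norm_num at hκ ⊢
    linarith
  have hb2 : ‖(-v) - y' * star g'‖ ≤ 1 / 300 := by
    refine hn2.trans ?_
    norm_num at hκ hn ⊢
    linarith
  have hG1 : Gap E g' 2 := Gap.near hG (hg.right hPE) (hg'.right hPE) (hb1.trans (by norm_num))
  have hG2 : Gap E (y' * star g') 2 :=
    Gap.near hG (hg.right hPE) (hg2'.right hPE) (hb2.trans (by norm_num))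
  have hGm : Gap E (-v) 2 := hG.mono (by norm_num)
  refine ⟨_, ⟨-v, -v, g', y' * star g', hg, hg, hg', hg2', hG, hG, hb1, hb2, hy1, hy2, rfl⟩, ?_⟩
  have l1 := ell_lip (τ := τ) h.pos hPE hEM hEN hg hGm hg' hG1
  have l2 := ell_lip (τ := τ) h.pos hPE hEM hEN hg hGm hg2' hG2
  have hτE : 0 ≤ (τ E).re := (h.cm.trace.nonneg hEM hPE.nonneg).1
  rw [abs_le] at l1 l2 ⊢
  have k1 : 500 * ‖(-v) - g'‖ * (τ E).re ≤ 500 * (4 * κ) * (τ E).re := by gcongr
  have k2 : 500 * ‖(-v) - y' * star g'‖ * (τ E).re ≤ 500 * (‖y - y'‖ + 4 * κ) * (τ E).re := by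
    gcongr
  constructor <;> linarith [l1.1, l1.2, l2.1, l2.2]

/-- `E = (i E) (- i E)` -/
theorem Sit.B_one (h : Sit M N A τ u k e κ) {E : H →L[ℂ] H} (hE : E ∈ A) (hPE : PJ E) :
    IsB M N τ E E E 0 := by
  have hEM : E ∈ M := h.cm.le E hE
  have hEN : E ∈ N := h.AN E hE
  have hI : ‖Complex.I‖ = 1 := Complex.norm_I
  have hI' : ‖-Complex.I‖ = 1 := by rw [norm_neg, hI]
  have hp : E = (Complex.I • E) * (-Complex.I • E) := by
    rw [smul_mul_smul_comm, hPE.idem]
    simp
  refine ⟨-Complex.I • E, Complex.I • E, -Complex.I • E, Complex.I • E,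
    (CU.self hPE hEM).smul hI', (CU.self hPE hEM).smul hI, (CU.self hPE hEN).smul hI',
    (CU.self hPE hEN).smul hI, Gap.imag' hPE, Gap.imag hPE, ?_, ?_, hp, hp, ?_⟩
  · rw [sub_self, norm_zero]; norm_num
  · rw [sub_self, norm_zero]; norm_num
  · ring

end Pool.Agent.KKS

end

section

/-!
# B2: the number B: uniqueness
-/


open Filter Topology

namespace Pool.Agent.KKS

variable {H : Type*} [NormedAddCommGroup H] [InnerProductSpace ℂ H] [CompleteSpace H]
variable {Γ : Type*} [Group Γ] {M N A : VonNeumannAlgebra H} {u : Γ → H →L[ℂ] H}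
  {τ : (H →L[ℂ] H) →L[ℂ] ℂ} {k : ℕ → ℕ} {e : ∀ n, Fin (k n) → Fin (k n) → H →L[ℂ] H} {κ : ℝ}

/-- the list of eight unitaries -/
private noncomputable def B2_vec (E g₁ g₂ g₃ g₄ g₅ g₆ : H →L[ℂ] H) : Fin 8 → H →L[ℂ] H :=
  ![star g₆, star g₅, g₁, g₂, g₃, g₄, -Complex.I • E, Complex.I • E]

private theorem B2_forall {P : (H →L[ℂ] H) → Prop} {E g₁ g₂ g₃ g₄ g₅ g₆ : H →L[ℂ] H}
    (h0 : P (star g₆)) (h1 : P (star g₅)) (h2 : P g₁) (h3 : P g₂) (h4 : P g₃) (h5 : P g₄)
    (h6 : P (-Complex.I • E)) (h7 : P (Complex.I • E)) (j : Fin 8) :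
    P (B2_vec E g₁ g₂ g₃ g₄ g₅ g₆ j) := by
  fin_cases j
  · exact h0
  · exact h1
  · exact h2
  · exact h3
  · exact h4
  · exact h5
  · exact h6
  · exact h7

private theorem B2_prod {R : VonNeumannAlgebra H} {E g₁ g₂ g₃ g₄ g₅ g₆ : H →L[ℂ] H} (hE : PJ E)
    (h4 : CU R E g₄) (h5 : CU R E g₅) (h6 : CU R E g₆)
    (h : g₄ * g₃ * (g₂ * g₁) = g₆ * g₅) :
    B2_vec E g₁ g₂ g₃ g₄ g₅ g₆ 7 * B2_vec E g₁ g₂ g₃ g₄ g₅ g₆ 6 * B2_vec E g₁ g₂ g₃ g₄ g₅ g₆ 5 *
      B2_vec E g₁ g₂ g₃ g₄ g₅ g₆ 4 * B2_vec E g₁ g₂ g₃ g₄ g₅ g₆ 3 * B2_vec E g₁ g₂ g₃ g₄ g₅ g₆ 2 *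
      B2_vec E g₁ g₂ g₃ g₄ g₅ g₆ 1 * B2_vec E g₁ g₂ g₃ g₄ g₅ g₆ 0 = E := by
  change (Complex.I • E) * (-Complex.I • E) * g₄ * g₃ * g₂ * g₁ * star g₅ * star g₆ = E
  have h1 : (Complex.I • E) * (-Complex.I • E) = E := by
    rw [smul_mul_smul_comm, hE.idem]
    simp
  rw [h1, h4.left hE]
  calc g₄ * g₃ * g₂ * g₁ * star g₅ * star g₆ = (g₄ * g₃ * (g₂ * g₁)) * star g₅ * star g₆ := by
        noncomm_ring
    _ = g₆ * (g₅ * star g₅) * star g₆ := by rw [h]; noncomm_ring
    _ = (g₆ * E) * star g₆ := by rw [h5.r]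
    _ = E := by rw [h6.right hE, h6.r]

/-- (8.1) `Sit.rel8` with `g₁, g₂, g₃, g₄, g₆⋆, g₅⋆, i E, - i E` -/
theorem Sit.B_mul (h : Sit M N A τ u k e κ) {E y₁ y₁' y₂ y₂' : H →L[ℂ] H} (hE : E ∈ A)
    (hPE : PJ E) (h8 : (τ E).re ≤ 1 / 8) {b₁ b₂ b : ℝ} (h1 : IsB M N τ E y₁ y₁' b₁)
    (h2 : IsB M N τ E y₂ y₂' b₂) (h3 : IsB M N τ E (y₂ * y₁) (y₂' * y₁') b) : b = b₂ + b₁ := by
  have hEM : E ∈ M := h.cm.le E hE
  have hEN : E ∈ N := h.AN E hE
  have hI : ‖Complex.I‖ = 1 := Complex.norm_I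
  have hI' : ‖-Complex.I‖ = 1 := by rw [norm_neg, hI]
  obtain ⟨g₁, g₂, g₁', g₂', c₁, c₂, c₁', c₂', G₁, G₂, n₁, n₂, e1, e1', rfl⟩ := h1.ex
  obtain ⟨g₃, g₄, g₃', g₄', c₃, c₄, c₃', c₄', G₃, G₄, n₃, n₄, e2, e2', rfl⟩ := h2.ex
  obtain ⟨g₅, g₆, g₅', g₆', c₅, c₆, c₅', c₆', G₅, G₆, n₅, n₆, e3, e3', rfl⟩ := h3.ex
  have near : ∀ {g g' : H →L[ℂ] H}, CU M E g → CU N E g' → Gap E g 1 → ‖g - g'‖ ≤ 1 / 300 →
      Gap E g' 2 := fun hg hg' hG hn =>
    Gap.near hG (hg.right hPE) (hg'.right hPE) (hn.trans (by norm_num))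
  have G₁' := near c₁ c₁' G₁ n₁
  have G₂' := near c₂ c₂' G₂ n₂
  have G₃' := near c₃ c₃' G₃ n₃
  have G₄' := near c₄ c₄' G₄ n₄
  have G₅' := near c₅ c₅' G₅ n₅
  have G₆' := near c₆ c₆' G₆ n₆
  have hst : ∀ {g g' : H →L[ℂ] H}, ‖g - g'‖ ≤ 1 / 300 → ‖star g - star g'‖ ≤ 1 / 300 := by
    intro g g' hn
    rw [← star_sub, norm_star]
    exact hn
  have hz : ∀ x : H →L[ℂ] H, ‖x - x‖ ≤ 1 / 300 := by
    intro x
    rw [sub_self, norm_zero]
    norm_num
  have hrel := h.rel8 hE hPE h8 (g := B2_vec E g₁ g₂ g₃ g₄ g₅ g₆)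
    (g' := B2_vec E g₁' g₂' g₃' g₄' g₅' g₆')
    (B2_forall (P := CU M E) c₆.adj c₅.adj c₁ c₂ c₃ c₄ ((CU.self hPE hEM).smul hI')
      ((CU.self hPE hEM).smul hI))
    (B2_forall (P := CU N E) c₆'.adj c₅'.adj c₁' c₂' c₃' c₄' ((CU.self hPE hEN).smul hI')
      ((CU.self hPE hEN).smul hI))
    (B2_forall (P := fun g => Gap E g 1) (G₆.adj c₆ hPE) (G₅.adj c₅ hPE) G₁ G₂ G₃ G₄
      (Gap.imag' hPE) (Gap.imag hPE))
    (B2_forall (P := fun g => Gap E g 2) (G₆'.adj c₆' hPE) (G₅'.adj c₅' hPE) G₁' G₂' G₃' G₄'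
      ((Gap.imag' hPE).mono (by norm_num)) ((Gap.imag hPE).mono (by norm_num)))
    (by
      intro j
      fin_cases j
      · exact hst n₆
      · exact hst n₅
      · exact n₁
      · exact n₂
      · exact n₃
      · exact n₄
      · exact hz _
      · exact hz _)
    (B2_prod hPE c₄ c₅ c₆ (by rw [← e1, ← e2, ← e3]))
    (B2_prod hPE c₄' c₅' c₆' (by rw [← e1', ← e2', ← e3']))
  rw [Fin.sum_univ_eight, Fin.sum_univ_eight] at hrel
  change ell τ E (star g₆) + ell τ E (star g₅) + ell τ E g₁ + ell τ E g₂ + ell τ E g₃ +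
      ell τ E g₄ + ell τ E (-Complex.I • E) + ell τ E (Complex.I • E) =
    ell τ E (star g₆') + ell τ E (star g₅') + ell τ E g₁' + ell τ E g₂' + ell τ E g₃' +
      ell τ E g₄' + ell τ E (-Complex.I • E) + ell τ E (Complex.I • E) at hrel
  rw [ell_adj hPE hEM c₆ (G₆.mono (by norm_num)), ell_adj hPE hEM c₅ (G₅.mono (by norm_num)),
    ell_adj hPE hEN c₆' G₆', ell_adj hPE hEN c₅' G₅'] at hrel
  linarith

theorem Sit.B_unique (h : Sit M N A τ u k e κ) {E y y' : H →L[ℂ] H} (hE : E ∈ A) (hPE : PJ E)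
    (h8 : (τ E).re ≤ 1 / 8) {b b' : ℝ} (h1 : IsB M N τ E y y' b) (h2 : IsB M N τ E y y' b') :
    b = b' := by
  have hy : E * y = y ∧ E * y' = y' := by
    obtain ⟨g₁, g₂, g₁', g₂', c₁, c₂, c₁', c₂', _, _, _, _, e1, e1', _⟩ := h1.ex
    constructor
    · rw [e1, ← mul_assoc, c₂.left hPE]
    · rw [e1', ← mul_assoc, c₂'.left hPE]
  have h3 := h.B_mul hE hPE h8 h1 (h.B_one hE hPE) (b := b') (by
    rw [hy.1, hy.2]
    exact h2)
  linarith

end Pool.Agent.KKS

end

section

/-!
# B3: the number B: rules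
-/


open Filter Topology

namespace Pool.Agent.KKS

variable {H : Type*} [NormedAddCommGroup H] [InnerProductSpace ℂ H] [CompleteSpace H]
variable {Γ : Type*} [Group Γ] {M N A : VonNeumannAlgebra H} {u : Γ → H →L[ℂ] H}
  {τ : (H →L[ℂ] H) →L[ℂ] ℂ} {k : ℕ → ℕ} {e : ∀ n, Fin (k n) → Fin (k n) → H →L[ℂ] H} {κ : ℝ}

private theorem B3_near {E g g' : H →L[ℂ] H} (hPE : PJ E) (hg : CU M E g) (hg' : CU N E g')
    (hG : Gap E g 1) (hn : ‖g - g'‖ ≤ 1 / 300) : Gap E g' 2 :=
  Gap.near hG (hg.right hPE) (hg'.right hPE) (hn.trans (by norm_num))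

/-- (8.3) `sqrt_unitary` in the intersection -/
theorem Sit.B_self (h : Sit M N A τ u k e κ) {E y : H →L[ℂ] H} (hE : E ∈ A) (hPE : PJ E)
    (hy : CU (interVN M N) E y) : IsB M N τ E y y 0 := by
  have hEM : E ∈ M := h.cm.le E hE
  have hEN : E ∈ N := h.AN E hE
  obtain ⟨v, hv, hv1, hv2, hvv, hvp⟩ := sqrt_unitary hPE (mem_interVN.2 ⟨hEM, hEN⟩) hy.mem hy.l
    hy.r
  have hv' := mem_interVN.1 hv
  have hvCU : CU M E v := ⟨hv'.1, hv1, hv2⟩
  have k1 : star (-v) * (-v) = E := by rw [star_neg, neg_mul_neg, hv1]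
  have k2 : (-v) * star (-v) = E := by rw [star_neg, neg_mul_neg, hv2]
  have hg : CU M E (-v) := ⟨neg_mem hv'.1, k1, k2⟩
  have hg' : CU N E (-v) := ⟨neg_mem hv'.2, k1, k2⟩
  have hG : Gap E (-v) 1 := Gap.of_re hvCU hPE hvp
  have hy1 : y = (-v) * (-v) := by rw [neg_mul_neg, hvv]
  refine ⟨-v, -v, -v, -v, hg, hg, hg', hg', hG, hG, ?_, ?_, hy1, hy1, ?_⟩
  · rw [sub_self, norm_zero]; norm_num
  · rw [sub_self, norm_zero]; norm_num
  · ring

private theorem B3_pi_norm {E q : H →L[ℂ] H} (hPE : PJ E) (hq1 : star q * q = E) : ‖q‖ ≤ 1 := by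
  have h1 := CStarRing.norm_star_mul_self (x := q)
  rw [hq1] at h1
  have h2 := hPE.norm_le
  nlinarith [norm_nonneg q]

/-- (8.4) -/
theorem Sit.B_conj (h : Sit M N A τ u k e κ) {E y y' q : H →L[ℂ] H} (hE : E ∈ A) (hPE : PJ E)
    (hq : q ∈ interVN M N) (hq1 : star q * q = E) {b : ℝ} (hb : IsB M N τ E y y' b) :
    IsB M N τ (q * star q) (q * y * star q) (q * y' * star q) b := by
  have hEM : E ∈ M := h.cm.le E hE
  have hEN : E ∈ N := h.AN E hE
  have hq' := mem_interVN.1 hq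
  have hqn := B3_pi_norm hPE hq1
  obtain ⟨g₁, g₂, g₁', g₂', c₁, c₂, c₁', c₂', G₁, G₂, n₁, n₂, e1, e1', rfl⟩ := hb.ex
  have G₁' := B3_near hPE c₁ c₁' G₁ n₁
  have G₂' := B3_near hPE c₂ c₂' G₂ n₂
  have hnorm : ∀ {g g' : H →L[ℂ] H}, ‖g - g'‖ ≤ 1 / 300 →
      ‖q * g * star q - q * g' * star q‖ ≤ 1 / 300 := by
    intro g g' hn
    have h1 : q * g * star q - q * g' * star q = q * (g - g') * star q := by noncomm_ring
    rw [h1]
    calc ‖q * (g - g') * star q‖ ≤ ‖q * (g - g')‖ * ‖star q‖ := norm_mul_le _ _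
      _ ≤ ‖q * (g - g')‖ * 1 := by
          gcongr
          rw [norm_star]
          exact hqn
      _ ≤ ‖q‖ * ‖g - g'‖ := by
          rw [mul_one]
          exact norm_mul_le _ _
      _ ≤ 1 * ‖g - g'‖ := by gcongr
      _ ≤ 1 / 300 := by rw [one_mul]; exact hn
  have hprod : ∀ {R : VonNeumannAlgebra H} {a c : H →L[ℂ] H}, CU R E a →
      q * (c * a) * star q = (q * c * star q) * (q * a * star q) := by
    intro R a c ha
    calc q * (c * a) * star q = q * (c * (E * a)) * star q := by rw [ha.left hPE]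
      _ = q * (c * (star q * q * a)) * star q := by rw [hq1]
      _ = _ := by noncomm_ring
  refine ⟨q * g₁ * star q, q * g₂ * star q, q * g₁' * star q, q * g₂' * star q,
    c₁.conj hPE hq'.1 hq1, c₂.conj hPE hq'.1 hq1, c₁'.conj hPE hq'.2 hq1,
    c₂'.conj hPE hq'.2 hq1, G₁.conj hPE c₁ hq1, G₂.conj hPE c₂ hq1, hnorm n₁, hnorm n₂, ?_, ?_, ?_⟩
  · rw [e1]
    exact hprod c₁
  · rw [e1']
    exact hprod c₁'
  · rw [ell_conj h.trN hPE hEN hq'.2 hq1 c₁' G₁', ell_conj h.trN hPE hEN hq'.2 hq1 c₂' G₂',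
      ell_conj h.cm.trace hPE hEM hq'.1 hq1 c₁ (G₁.mono (by norm_num)),
      ell_conj h.cm.trace hPE hEM hq'.1 hq1 c₂ (G₂.mono (by norm_num))]

private theorem B3_orth_norm {E E' a a' : H →L[ℂ] H} (hPE : PJ E) (hPE' : PJ E')
    (h0 : E * E' = 0) (ha : E * a * E = a) (ha' : E' * a' * E' = a') {C : ℝ} (hC : 0 ≤ C)
    (h1 : ‖a‖ ≤ C) (h2 : ‖a'‖ ≤ C) : ‖a + a'‖ ≤ C := by
  have h0' : E' * E = 0 := by
    have := congrArg star h0
    rwa [star_mul, hPE.sa, hPE'.sa, star_zero] at this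
  have h3 := norm_sum_orth_le (Finset.univ : Finset Bool)
    (X := fun b => if b then a else a') (p := fun b => if b then E else E')
    (q := fun b => if b then E else E') hC
    (by intro b; cases b <;> simp [hPE, hPE']) (by intro b; cases b <;> simp [hPE, hPE'])
    (by
      intro b _ c _ hbc
      cases b <;> cases c <;> simp_all)
    (by
      intro b _ c _ hbc
      cases b <;> cases c <;> simp_all)
    (by
      intro b _
      cases b <;> simp [ha, ha'])
    (by
      intro b _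
      cases b <;> simp [h1, h2])
  simpa using h3

/-- (8.5) -/
theorem Sit.B_add (h : Sit M N A τ u k e κ) {E E' y y' z z' : H →L[ℂ] H} (hE : E ∈ A)
    (hPE : PJ E) (hE' : E' ∈ A) (hPE' : PJ E') (h0 : E * E' = 0) {b b' : ℝ}
    (hb : IsB M N τ E y y' b) (hb' : IsB M N τ E' z z' b') :
    IsB M N τ (E + E') (y + z) (y' + z') (b + b') := by
  have hEM : E ∈ M := h.cm.le E hE
  have hEN : E ∈ N := h.AN E hE
  have hEM' : E' ∈ M := h.cm.le E' hE'
  have hEN' : E' ∈ N := h.AN E' hE'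
  have h0' : E' * E = 0 := by
    have := congrArg star h0
    rwa [star_mul, hPE.sa, hPE'.sa, star_zero] at this
  obtain ⟨g₁, g₂, g₁', g₂', c₁, c₂, c₁', c₂', G₁, G₂, n₁, n₂, e1, e1', rfl⟩ := hb.ex
  obtain ⟨f₁, f₂, f₁', f₂', d₁, d₂, d₁', d₂', F₁, F₂, m₁, m₂, e2, e2', rfl⟩ := hb'.ex
  have G₁' := B3_near hPE c₁ c₁' G₁ n₁
  have G₂' := B3_near hPE c₂ c₂' G₂ n₂
  have F₁' := B3_near hPE' d₁ d₁' F₁ m₁
  have F₂' := B3_near hPE' d₂ d₂' F₂ m₂
  have hcor : ∀ {R R' : VonNeumannAlgebra H} {P g g' : H →L[ℂ] H}, PJ P → CU R P g →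
      CU R' P g' → P * (g - g') * P = g - g' := by
    intro R R' P g g' hP hg hg'
    rw [mul_sub, sub_mul, hg.left hP, hg'.left hP, hg.right hP, hg'.right hP]
  have hnorm : ∀ {g g' f f' : H →L[ℂ] H}, CU M E g → CU N E g' → CU M E' f → CU N E' f' →
      ‖g - g'‖ ≤ 1 / 300 → ‖f - f'‖ ≤ 1 / 300 → ‖(g + f) - (g' + f')‖ ≤ 1 / 300 := by
    intro g g' f f' hg hg' hf hf' hn hm
    have h1 : (g + f) - (g' + f') = (g - g') + (f - f') := by abel
    rw [h1]
    exact B3_orth_norm hPE hPE' h0 (hcor hPE hg hg') (hcor hPE' hf hf') (by norm_num) hn hm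
  have hprod : ∀ {R : VonNeumannAlgebra H} {a c a' c' : H →L[ℂ] H}, CU R E a → CU R E c →
      CU R E' a' → CU R E' c' → c * a + c' * a' = (c + c') * (a + a') := by
    intro R a c a' c' ha hc ha' hc'
    have h1 : c * a' = 0 := by
      calc c * a' = (c * E) * (E' * a') := by rw [hc.right hPE, ha'.left hPE']
        _ = c * (E * E') * a' := by noncomm_ring
        _ = 0 := by rw [h0, mul_zero, zero_mul]
    have h2 : c' * a = 0 := by
      calc c' * a = (c' * E') * (E * a) := by rw [hc'.right hPE', ha.left hPE]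
        _ = c' * (E' * E) * a := by noncomm_ring
        _ = 0 := by rw [h0', mul_zero, zero_mul]
    calc c * a + c' * a' = c * a + 0 + (0 + c' * a') := by abel
      _ = c * a + c * a' + (c' * a + c' * a') := by rw [h1, h2]
      _ = _ := by noncomm_ring
  refine ⟨g₁ + f₁, g₂ + f₂, g₁' + f₁', g₂' + f₂', c₁.add d₁ hPE hPE' h0, c₂.add d₂ hPE hPE' h0,
    c₁'.add d₁' hPE hPE' h0, c₂'.add d₂' hPE hPE' h0,
    Gap.add (by norm_num) G₁ F₁ c₁ d₁ hPE hPE' h0, Gap.add (by norm_num) G₂ F₂ c₂ d₂ hPE hPE' h0,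
    hnorm c₁ c₁' d₁ d₁' n₁ m₁, hnorm c₂ c₂' d₂ d₂' n₂ m₂, ?_, ?_, ?_⟩
  · rw [e1, e2]
    exact hprod c₁ c₂ d₁ d₂
  · rw [e1', e2']
    exact hprod c₁' c₂' d₁' d₂'
  · rw [ell_add hPE hPE' h0 hEN hEN' c₁' G₁' d₁' F₁', ell_add hPE hPE' h0 hEN hEN' c₂' G₂' d₂' F₂',
      ell_add hPE hPE' h0 hEM hEM' c₁ (G₁.mono (by norm_num)) d₁ (F₁.mono (by norm_num)),
      ell_add hPE hPE' h0 hEM hEM' c₂ (G₂.mono (by norm_num)) d₂ (F₂.mono (by norm_num))]
    ring

/-- (8.6) `E = (i E) (- i E)`, `e^{iθ} E = (i E) (- i e^{iθ} E)`, `ell_exp` for `θ` and for `0` -/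
theorem Sit.B_exp (h : Sit M N A τ u k e κ) {E θ : H →L[ℂ] H} (hE : E ∈ A) (hPE : PJ E)
    (hθ : θ ∈ A) (hs : star θ = θ) (hn : ‖θ‖ ≤ 1 / 1000) :
    IsB M N τ E E (ex θ * E) (1 / 2 * (τ (θ * E)).re) := by
  have hEM : E ∈ M := h.cm.le E hE
  have hEN : E ∈ N := h.AN E hE
  have hI : ‖Complex.I‖ = 1 := Complex.norm_I
  have hI' : ‖-Complex.I‖ = 1 := by rw [norm_neg, hI]
  have hexA : ex θ ∈ A := ex_mem hθ
  have hexN : ex θ ∈ N := h.AN _ hexA
  have hc : ex θ * E = E * ex θ := h.cm.comm _ hexA _ hE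
  have hu := ex_unit hs
  have hcs : star (ex θ) * E = E * star (ex θ) := h.cm.comm _ (star_mem hexA) _ hE
  have cE : CU N E (ex θ * E) := by
    refine ⟨mul_mem hexN hEN, ?_, ?_⟩
    · rw [star_mul, hPE.sa]
      calc E * star (ex θ) * (ex θ * E) = E * (star (ex θ) * ex θ) * E := by noncomm_ring
        _ = E := by rw [hu.1, mul_one, hPE.idem]
    · rw [star_mul, hPE.sa]
      calc ex θ * E * (E * star (ex θ)) = ex θ * (E * E) * star (ex θ) := by noncomm_ring
        _ = E * (ex θ * star (ex θ)) := by rw [hPE.idem, hc, mul_assoc]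
        _ = E := by rw [hu.2, mul_one]
  have hp : E = (-Complex.I • E) * (Complex.I • E) := by
    rw [smul_mul_smul_comm, hPE.idem]
    simp
  have hp' : ex θ * E = (-Complex.I • (ex θ * E)) * (Complex.I • E) := by
    rw [smul_mul_smul_comm, mul_assoc, hPE.idem]
    simp
  have l1 := ell_exp (τ := τ) h.cm.trace hPE hEM (h.cm.le θ hθ) hs (h.cm.comm _ hθ _ hE)
    (hn.trans (by norm_num))
  have l0 := ell_exp (τ := τ) (θ := 0) h.cm.trace hPE hEM (zero_mem _) (star_zero _)
    (by rw [zero_mul, mul_zero]) (by rw [norm_zero]; norm_num)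
  rw [ex_zero, one_mul, zero_mul, map_zero, Complex.zero_re] at l0
  refine ⟨Complex.I • E, -Complex.I • E, Complex.I • E, -Complex.I • (ex θ * E),
    (CU.self hPE hEM).smul hI, (CU.self hPE hEM).smul hI', (CU.self hPE hEN).smul hI,
    cE.smul hI', Gap.imag hPE, Gap.imag' hPE, ?_, ?_, hp, hp', ?_⟩
  · rw [sub_self, norm_zero]; norm_num
  · have h1 : -Complex.I • E - -Complex.I • (ex θ * E) = Complex.I • ((ex θ - 1) * E) := by
      rw [sub_mul, one_mul, smul_sub, neg_smul, neg_smul]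
      abel
    rw [h1, norm_smul, hI, one_mul]
    calc ‖(ex θ - 1) * E‖ ≤ ‖ex θ - 1‖ * ‖E‖ := norm_mul_le _ _
      _ ≤ ‖θ‖ * 1 := mul_le_mul (ex_norm hs) hPE.norm_le (norm_nonneg _) (norm_nonneg _)
      _ ≤ 1 / 300 := by
        rw [mul_one]
        exact hn.trans (by norm_num)
  · rw [l1, l0]
    ring

end Pool.Agent.KKS

end

section

/-!
# Beta: the measure beta: existence and uniqueness
-/


open Filter Topology

namespace Pool.Agent.KKS

variable {H : Type*} [NormedAddCommGroup H] [InnerProductSpace ℂ H] [CompleteSpace H]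
variable {Γ : Type*} [Group Γ] {M N A : VonNeumannAlgebra H} {u : Γ → H →L[ℂ] H}
  {τ : (H →L[ℂ] H) →L[ℂ] ℂ} {k : ℕ → ℕ} {e : ∀ n, Fin (k n) → Fin (k n) → H →L[ℂ] H} {κ : ℝ}

/-- `w` is a unitary of `N` near the unitary `v` of `M`, inducing the same automorphism of `A` -/
structure LiftOf (M N A : VonNeumannAlgebra H) (v w : H →L[ℂ] H) : Prop where
  memM : v ∈ M
  unitM : star v * v = 1 ∧ v * star v = 1
  normM : ∀ a ∈ A, v * a * star v ∈ A
  normM' : ∀ a ∈ A, star v * a * v ∈ A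
  memN : w ∈ N
  unitN : star w * w = 1 ∧ w * star w = 1
  near : ‖w - v‖ ≤ 1 / 1000
  same : ∀ a ∈ A, w * a = v * a * star v * w

/-- `b` is a value of `β_{v,w}(E) = B_E(q v E, q w E)`, `q ∈ M ∩ N` from `v E v⋆` to `E` -/
structure IsBeta (M N A : VonNeumannAlgebra H) (τ : (H →L[ℂ] H) →L[ℂ] ℂ) (v w E : H →L[ℂ] H)
    (b : ℝ) : Prop where
  ex : ∃ q, GN (interVN M N) A q ∧ star q * q = v * E * star v ∧ q * star q = E ∧
    IsB M N τ E (q * v * E) (q * w * E) b

theorem LiftOf.same' {v w : H →L[ℂ] H} (hl : LiftOf M N A v w) {a : H →L[ℂ] H} (ha : a ∈ A) :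
    w * a * star w = v * a * star v := by
  rw [hl.same a ha, mul_assoc, hl.unitN.2, mul_one]

private theorem Beta_conj_pj {v E : H →L[ℂ] H} (hv : star v * v = 1) (hPE : PJ E) :
    PJ (v * E * star v) := by
  constructor
  · calc v * E * star v * (v * E * star v) = v * E * (star v * v) * E * star v := by noncomm_ring
      _ = v * (E * E) * star v := by rw [hv]; noncomm_ring
      _ = _ := by rw [hPE.idem]
  · rw [star_mul, star_mul, star_star, hPE.sa, mul_assoc]

private theorem Beta_pi_norm {E q : H →L[ℂ] H} (hPE : PJ E) (hq1 : q * star q = E) : ‖q‖ ≤ 1 := by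
  have h1 := CStarRing.norm_self_mul_star (x := q)
  rw [hq1] at h1
  have h2 := hPE.norm_le
  nlinarith [norm_nonneg q]

/-- `q v E` and `q w E` are unitaries of the corner `E` -/
theorem Sit.beta_cu (h : Sit M N A τ u k e κ) {v w E q : H →L[ℂ] H} (hl : LiftOf M N A v w)
    (hE : E ∈ A) (hPE : PJ E) (hq : q ∈ interVN M N) (h1 : star q * q = v * E * star v)
    (h2 : q * star q = E) : CU M E (q * v * E) ∧ CU N E (q * w * E) ∧
      ‖q * v * E - q * w * E‖ ≤ ‖w - v‖ := by
  have hEM : E ∈ M := h.cm.le E hE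
  have hEN : E ∈ N := h.AN E hE
  have hq' := mem_interVN.1 hq
  have hqn := Beta_pi_norm hPE h2
  have hqq : q * (v * E * star v) * star q = E := by
    rw [← h1]
    calc q * (star q * q) * star q = (q * star q) * (q * star q) := by noncomm_ring
      _ = E := by rw [h2, hPE.idem]
  have hsame := hl.same' hE
  have h1' : star q * q = w * E * star w := by rw [hsame, h1]
  have key : ∀ t : H →L[ℂ] H, star t * t = 1 → star q * q = t * E * star t →
      q * (t * E * star t) * star q = E → star (q * t * E) * (q * t * E) = E ∧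
        (q * t * E) * star (q * t * E) = E := by
    intro t ht ht1 ht2
    constructor
    · calc star (q * t * E) * (q * t * E) = star E * star t * (star q * q) * t * E := by
            rw [star_mul, star_mul]; noncomm_ring
        _ = E * (star t * t) * E * (star t * t) * E := by rw [ht1, hPE.sa]; noncomm_ring
        _ = E := by rw [ht, mul_one, mul_one, hPE.idem, hPE.idem]
    · calc (q * t * E) * star (q * t * E) = q * t * (E * star E) * star t * star q := by
            rw [star_mul, star_mul]; noncomm_ring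
        _ = q * (t * E * star t) * star q := by rw [hPE.sa, hPE.idem]; noncomm_ring
        _ = E := ht2
  have kv := key v hl.unitM.1 h1 hqq
  have kw := key w hl.unitN.1 h1' (by rw [hsame]; exact hqq)
  refine ⟨⟨mul_mem (mul_mem hq'.1 hl.memM) hEM, kv.1, kv.2⟩,
    ⟨mul_mem (mul_mem hq'.2 hl.memN) hEN, kw.1, kw.2⟩, ?_⟩
  have h3 : q * v * E - q * w * E = q * (v - w) * E := by noncomm_ring
  rw [h3]
  calc ‖q * (v - w) * E‖ ≤ ‖q * (v - w)‖ * ‖E‖ := norm_mul_le _ _
    _ ≤ ‖q * (v - w)‖ * 1 := by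
        gcongr
        exact hPE.norm_le
    _ ≤ ‖q‖ * ‖v - w‖ := by
        rw [mul_one]
        exact norm_mul_le _ _
    _ ≤ 1 * ‖v - w‖ := by gcongr
    _ = ‖w - v‖ := by rw [one_mul, norm_sub_rev]

/-- existence and bound -/
theorem Sit.exists_beta (h : Sit M N A τ u k e κ) {v w E : H →L[ℂ] H} (hl : LiftOf M N A v w)
    (hE : E ∈ A) (hPE : PJ E) :
    ∃ b, IsBeta M N A τ v w E b ∧ |b| ≤ 500 * (‖w - v‖ + 8 * κ) * (τ E).re := by
  have hEM : E ∈ M := h.cm.le E hE
  have htr : (τ (v * E * star v)).re = (τ E).re := by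
    have h1 : τ (v * E * star v) = τ (star v * (v * E)) :=
      h.cm.trace.tracial _ (mul_mem hl.memM hEM) _ (star_mem hl.memM)
    rw [h1, ← mul_assoc, hl.unitM.1, one_mul]
  obtain ⟨q, hq, hq1, hq2⟩ := h.qtrans (hl.normM E hE) hE (Beta_conj_pj hl.unitM.1 hPE) hPE htr
  obtain ⟨c1, c2, c3⟩ := h.beta_cu hl hE hPE hq.mem hq1 hq2
  obtain ⟨b, hb, hbn⟩ := h.exists_B hE hPE c1 c2 (c3.trans hl.near)
  refine ⟨b, ⟨q, hq, hq1, hq2, hb⟩, hbn.trans ?_⟩
  have hτE : 0 ≤ (τ E).re := (h.cm.trace.nonneg hEM hPE.nonneg).1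
  gcongr

/-- (9.1) -/
theorem Sit.beta_unique (h : Sit M N A τ u k e κ) {v w E : H →L[ℂ] H} (hl : LiftOf M N A v w)
    (hE : E ∈ A) (hPE : PJ E) (h8 : (τ E).re ≤ 1 / 8) {b b' : ℝ}
    (h1 : IsBeta M N A τ v w E b) (h2 : IsBeta M N A τ v w E b') : b = b' := by
  obtain ⟨q, hq, hq1, hq2, hb⟩ := h1.ex
  obtain ⟨q', hq', hq1', hq2', hb'⟩ := h2.ex
  have hp : CU (interVN M N) E (q' * star q) := by
    refine ⟨mul_mem hq'.mem (star_mem hq.mem), ?_, ?_⟩
    · rw [star_mul, star_star]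
      calc q * star q' * (q' * star q) = q * (star q' * q') * star q := by noncomm_ring
        _ = q * (star q * q) * star q := by rw [hq1', hq1]
        _ = (q * star q) * (q * star q) := by noncomm_ring
        _ = E := by rw [hq2, hPE.idem]
    · rw [star_mul, star_star]
      calc q' * star q * (q * star q') = q' * (star q * q) * star q' := by noncomm_ring
        _ = q' * (star q' * q') * star q' := by rw [hq1', hq1]
        _ = (q' * star q') * (q' * star q') := by noncomm_ring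
        _ = E := by rw [hq2', hPE.idem]
  have hprod : ∀ t : H →L[ℂ] H, star t * t = 1 → star q * q = t * E * star t →
      star q' * q' = t * E * star t → q' * star q * (q * t * E) = q' * t * E := by
    intro t ht ht1 ht2
    calc q' * star q * (q * t * E) = q' * (star q * q) * t * E := by noncomm_ring
      _ = q' * t * E * (star t * t) * E := by rw [ht1]; noncomm_ring
      _ = q' * t * (E * E) := by rw [ht]; noncomm_ring
      _ = q' * t * E := by rw [hPE.idem]
  have hsame := hl.same' hE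
  have h3 := h.B_mul hE hPE h8 hb (h.B_self hE hPE hp) (b := b') (by
    rw [hprod v hl.unitM.1 hq1 hq1', hprod w hl.unitN.1 (by rw [hsame, hq1])
      (by rw [hsame, hq1'])]
    exact hb')
  linarith

end Pool.Agent.KKS

end

section

/-!
# Betb: the measure beta: rules
-/


open Filter Topology

namespace Pool.Agent.KKS

variable {H : Type*} [NormedAddCommGroup H] [InnerProductSpace ℂ H] [CompleteSpace H]
variable {Γ : Type*} [Group Γ] {M N A : VonNeumannAlgebra H} {u : Γ → H →L[ℂ] H}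
  {τ : (H →L[ℂ] H) →L[ℂ] ℂ} {k : ℕ → ℕ} {e : ∀ n, Fin (k n) → Fin (k n) → H →L[ℂ] H} {κ : ℝ}

private theorem Betb_orth {E E' : H →L[ℂ] H} (hPE : PJ E) (hPE' : PJ E') (h0 : E * E' = 0) :
    E' * E = 0 := by
  have := congrArg star h0
  rwa [star_mul, hPE.sa, hPE'.sa, star_zero] at this

/-- (9.2) with `q = q₁ + q₂` -/
theorem Sit.beta_add (h : Sit M N A τ u k e κ) {v w E E' : H →L[ℂ] H} (hl : LiftOf M N A v w)
    (hE : E ∈ A) (hPE : PJ E) (hE' : E' ∈ A) (hPE' : PJ E') (h0 : E * E' = 0) {b b' : ℝ}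
    (h1 : IsBeta M N A τ v w E b) (h2 : IsBeta M N A τ v w E' b') :
    IsBeta M N A τ v w (E + E') (b + b') := by
  obtain ⟨q, hq, hq1, hq2, hb⟩ := h1.ex
  obtain ⟨p, hp, hp1, hp2, hb'⟩ := h2.ex
  have h0' := Betb_orth hPE hPE' h0
  -- initial and final projections
  have qi : q * (v * E * star v) = q := by
    rw [← hq1]
    exact (PJ.pi hq.pj).1
  have pi' : p * (v * E' * star v) = p := by
    rw [← hp1]
    exact (PJ.pi hp.pj).1
  have qf : E * q = q := by
    rw [← hq2, mul_assoc]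
    exact (PJ.pi hq.pj).1
  have pf : E' * p = p := by
    rw [← hp2, mul_assoc]
    exact (PJ.pi hp.pj).1
  have qf' : star q * E = star q := by
    have := congrArg star qf
    rwa [star_mul, hPE.sa] at this
  have pf' : star p * E' = star p := by
    have := congrArg star pf
    rwa [star_mul, hPE'.sa] at this
  have qi' : (v * E * star v) * star q = star q := by
    have := congrArg star qi
    rw [star_mul, star_mul, star_mul, star_star, hPE.sa] at this
    rw [mul_assoc v E (star v)]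
    exact this
  have pi'' : (v * E' * star v) * star p = star p := by
    have := congrArg star pi'
    rw [star_mul, star_mul, star_mul, star_star, hPE'.sa] at this
    rw [mul_assoc v E' (star v)]
    exact this
  have hv1 := hl.unitM.1
  have vEE : (v * E * star v) * (v * E' * star v) = 0 := by
    calc (v * E * star v) * (v * E' * star v) = v * E * (star v * v) * E' * star v := by
          noncomm_ring
      _ = v * (E * E') * star v := by rw [hv1]; noncomm_ring
      _ = 0 := by rw [h0, mul_zero, zero_mul]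
  have vEE' : (v * E' * star v) * (v * E * star v) = 0 := by
    calc (v * E' * star v) * (v * E * star v) = v * E' * (star v * v) * E * star v := by
          noncomm_ring
      _ = v * (E' * E) * star v := by rw [hv1]; noncomm_ring
      _ = 0 := by rw [h0', mul_zero, zero_mul]
  -- cross terms
  have x1 : ∀ a ∈ A, q * a * star p = 0 := by
    intro a ha
    calc q * a * star p = q * ((v * E * star v) * a) * ((v * E' * star v) * star p) := by
          rw [pi'', ← mul_assoc, qi]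
      _ = q * (a * (v * E * star v)) * ((v * E' * star v) * star p) := by
          rw [h.cm.comm _ (hl.normM E hE) _ ha]
      _ = q * a * ((v * E * star v) * (v * E' * star v)) * star p := by noncomm_ring
      _ = 0 := by rw [vEE, mul_zero, zero_mul]
  have x2 : ∀ a ∈ A, p * a * star q = 0 := by
    intro a ha
    calc p * a * star q = p * ((v * E' * star v) * a) * ((v * E * star v) * star q) := by
          rw [qi', ← mul_assoc, pi']
      _ = p * (a * (v * E' * star v)) * ((v * E * star v) * star q) := by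
          rw [h.cm.comm _ (hl.normM E' hE') _ ha]
      _ = p * a * ((v * E' * star v) * (v * E * star v)) * star q := by noncomm_ring
      _ = 0 := by rw [vEE', mul_zero, zero_mul]
  have y1 : ∀ a ∈ A, star q * a * p = 0 := by
    intro a ha
    calc star q * a * p = (star q * E) * a * (E' * p) := by rw [qf', pf]
      _ = star q * (E * a) * E' * p := by noncomm_ring
      _ = star q * a * (E * E') * p := by rw [h.cm.comm _ hE _ ha]; noncomm_ring
      _ = 0 := by rw [h0, mul_zero, zero_mul]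
  have y2 : ∀ a ∈ A, star p * a * q = 0 := by
    intro a ha
    calc star p * a * q = (star p * E') * a * (E * q) := by rw [pf', qf]
      _ = star p * (E' * a) * E * q := by noncomm_ring
      _ = star p * a * (E' * E) * q := by rw [h.cm.comm _ hE' _ ha]; noncomm_ring
      _ = 0 := by rw [h0', mul_zero, zero_mul]
  have x1' := x1 1 (one_mem _)
  have x2' := x2 1 (one_mem _)
  have y1' := y1 1 (one_mem _)
  have y2' := y2 1 (one_mem _)
  rw [mul_one] at x1' x2' y1' y2'
  have hstar : star (q + p) * (q + p) = v * (E + E') * star v := by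
    calc star (q + p) * (q + p) = star q * q + star q * p + star p * q + star p * p := by
          rw [star_add]; noncomm_ring
      _ = v * E * star v + v * E' * star v := by rw [hq1, hp1, y1', y2']; abel
      _ = _ := by noncomm_ring
  have hstar' : (q + p) * star (q + p) = E + E' := by
    calc (q + p) * star (q + p) = q * star q + q * star p + p * star q + p * star p := by
          rw [star_add]; noncomm_ring
      _ = E + E' := by rw [hq2, hp2, x1', x2']; abel
  have hPEE : PJ (E + E') := hPE.add hPE' h0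
  have hGN : GN (interVN M N) A (q + p) := by
    refine ⟨add_mem hq.mem hp.mem, ?_, ?_, ?_, ?_, ?_⟩
    · rw [hstar]
      constructor
      · calc v * (E + E') * star v * (v * (E + E') * star v)
            = v * (E + E') * (star v * v) * (E + E') * star v := by noncomm_ring
          _ = v * ((E + E') * (E + E')) * star v := by rw [hv1]; noncomm_ring
          _ = _ := by rw [hPEE.idem]
      · rw [star_mul, star_mul, star_star, hPEE.sa, mul_assoc]
    · rw [hstar]
      exact hl.normM _ (add_mem hE hE')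
    · rw [hstar']
      exact add_mem hE hE'
    · intro a ha
      have h3 : (q + p) * a * star (q + p) = q * a * star q + p * a * star p := by
        calc (q + p) * a * star (q + p)
            = q * a * star q + q * a * star p + p * a * star q + p * a * star p := by
              rw [star_add]; noncomm_ring
          _ = _ := by rw [x1 a ha, x2 a ha]; abel
      rw [h3]
      exact add_mem (hq.conj a ha) (hp.conj a ha)
    · intro a ha
      have h3 : star (q + p) * a * (q + p) = star q * a * q + star p * a * p := by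
        calc star (q + p) * a * (q + p)
            = star q * a * q + star q * a * p + star p * a * q + star p * a * p := by
              rw [star_add]; noncomm_ring
          _ = _ := by rw [y1 a ha, y2 a ha]; abel
      rw [h3]
      exact add_mem (hq.conj' a ha) (hp.conj' a ha)
  have hcross : ∀ t : H →L[ℂ] H, star t * t = 1 → v * E * star v = t * E * star t →
      v * E' * star v = t * E' * star t →
      (q + p) * t * (E + E') = q * t * E + p * t * E' := by
    intro t ht ht1 ht2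
    have h3 : q * t * E' = 0 := by
      calc q * t * E' = (q * (v * E * star v)) * t * E' := by rw [qi]
        _ = q * t * E * (star t * t) * E' := by rw [ht1]; noncomm_ring
        _ = q * t * (E * E') := by rw [ht]; noncomm_ring
        _ = 0 := by rw [h0, mul_zero]
    have h4 : p * t * E = 0 := by
      calc p * t * E = (p * (v * E' * star v)) * t * E := by rw [pi']
        _ = p * t * E' * (star t * t) * E := by rw [ht2]; noncomm_ring
        _ = p * t * (E' * E) := by rw [ht]; noncomm_ring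
        _ = 0 := by rw [h0', mul_zero]
    calc (q + p) * t * (E + E') = q * t * E + q * t * E' + p * t * E + p * t * E' := by
          noncomm_ring
      _ = _ := by rw [h3, h4]; abel
  refine ⟨q + p, hGN, hstar, hstar', ?_⟩
  rw [hcross v hv1 rfl rfl, hcross w hl.unitN.1 (hl.same' hE).symm (hl.same' hE').symm]
  exact h.B_add hE hPE hE' hPE' h0 hb hb'

/-- (9.4) -/
theorem Sit.beta_exp (h : Sit M N A τ u k e κ) {v w E θ : H →L[ℂ] H} (hl : LiftOf M N A v w)
    (hE : E ∈ A) (hPE : PJ E) (h8 : (τ E).re ≤ 1 / 8) (hθ : θ ∈ A) (hs : star θ = θ)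
    (hn : ‖θ‖ ≤ 1 / 1000) (hl' : LiftOf M N A v (w * ex θ)) {b b' : ℝ}
    (h1 : IsBeta M N A τ v w E b) (h2 : IsBeta M N A τ v (w * ex θ) E b') :
    b' = b + 1 / 2 * (τ (θ * E)).re := by
  obtain ⟨q, hq, hq1, hq2, hb⟩ := h1.ex
  have hc : ex θ * E = E * ex θ := h.cm.comm _ (ex_mem hθ) _ hE
  obtain ⟨c1, c2, c3⟩ := h.beta_cu hl' hE hPE hq.mem hq1 hq2
  obtain ⟨b₃, hb₃, _⟩ := h.exists_B hE hPE c1 c2 (c3.trans hl'.near)
  have h3 : IsBeta M N A τ v (w * ex θ) E b₃ := ⟨q, hq, hq1, hq2, hb₃⟩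
  have h4 := h.beta_unique hl' hE hPE h8 h2 h3
  have e1 : q * v * E * E = q * v * E := by rw [mul_assoc, hPE.idem]
  have e2 : q * w * E * (ex θ * E) = q * (w * ex θ) * E := by
    calc q * w * E * (ex θ * E) = q * w * (E * ex θ) * E := by noncomm_ring
      _ = q * w * ex θ * (E * E) := by rw [← hc]; noncomm_ring
      _ = q * (w * ex θ) * E := by rw [hPE.idem]; noncomm_ring
  have h5 := h.B_mul hE hPE h8 (h.B_exp hE hPE hθ hs hn) hb (b := b₃) (by
    rw [e1, e2]
    exact hb₃)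
  rw [h4, h5]

/-- (9.5) with `F = v₂ E v₂⋆`, `q = q₁ q₂`, `q₁ : F → E`, `q₂ : v₁ F v₁⋆ → F`,
`q v₁ v₂ E = (q₁ (q₂ v₁ F) q₁⋆) (q₁ v₂ E)` -/
theorem Sit.beta_mul (h : Sit M N A τ u k e κ) {v₁ w₁ v₂ w₂ E : H →L[ℂ] H}
    (hl₁ : LiftOf M N A v₁ w₁) (hl₂ : LiftOf M N A v₂ w₂)
    (hl : LiftOf M N A (v₁ * v₂) (w₁ * w₂)) (hE : E ∈ A) (hPE : PJ E) (h8 : (τ E).re ≤ 1 / 8)
    {b₁ b₂ b : ℝ} (h1 : IsBeta M N A τ v₁ w₁ (v₂ * E * star v₂) b₁)
    (h2 : IsBeta M N A τ v₂ w₂ E b₂) (h3 : IsBeta M N A τ (v₁ * v₂) (w₁ * w₂) E b) :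
    b = b₁ + b₂ := by
  obtain ⟨q₂, hq₂, hq21, hq22, hb₁⟩ := h1.ex
  obtain ⟨q₁, hq₁, hq11, hq12, hb₂⟩ := h2.ex
  set F : H →L[ℂ] H := v₂ * E * star v₂ with hF
  have hFA : F ∈ A := hl₂.normM E hE
  have hPF : PJ F := by
    rw [← hq11]
    exact hq₁.pj
  have hFq2 : F * q₂ = q₂ := by
    rw [← hq22, mul_assoc]
    exact (PJ.pi hq₂.pj).1
  have hq2F : star q₂ * F = star q₂ := by
    have := congrArg star hFq2
    rwa [star_mul, hPF.sa] at this
  have hGN : GN (interVN M N) A (q₁ * q₂) := hq₁.mul hq₂ h.cm.comm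
  have i1 : star (q₁ * q₂) * (q₁ * q₂) = (v₁ * v₂) * E * star (v₁ * v₂) := by
    rw [star_mul, star_mul]
    calc star q₂ * star q₁ * (q₁ * q₂) = star q₂ * (star q₁ * q₁) * q₂ := by noncomm_ring
      _ = (star q₂ * F) * q₂ := by rw [hq11]
      _ = v₁ * F * star v₁ := by rw [hq2F, hq21]
      _ = _ := by rw [hF]; noncomm_ring
  have i2 : (q₁ * q₂) * star (q₁ * q₂) = E := by
    rw [star_mul]
    calc q₁ * q₂ * (star q₂ * star q₁) = q₁ * (q₂ * star q₂) * star q₁ := by noncomm_ring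
      _ = q₁ * (star q₁ * q₁) * star q₁ := by rw [hq22, hq11]
      _ = (q₁ * star q₁) * (q₁ * star q₁) := by noncomm_ring
      _ = E := by rw [hq12, hPE.idem]
  obtain ⟨c1, c2, c3⟩ := h.beta_cu hl hE hPE hGN.mem i1 i2
  obtain ⟨b₃, hb₃, _⟩ := h.exists_B hE hPE c1 c2 (c3.trans hl.near)
  have h4 : IsBeta M N A τ (v₁ * v₂) (w₁ * w₂) E b₃ := ⟨_, hGN, i1, i2, hb₃⟩
  have h5 := h.beta_unique hl hE hPE h8 h3 h4
  have h6 := h.B_conj hFA hPF hq₁.mem hq11 hb₁
  rw [hq12] at h6
  have hF2 : F = w₂ * E * star w₂ := (hl₂.same' hE).symm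
  have hprod : ∀ s t : H →L[ℂ] H, star t * t = 1 → F = t * E * star t →
      q₁ * (q₂ * s * F) * star q₁ * (q₁ * t * E) = q₁ * q₂ * (s * t) * E := by
    intro s t ht htF
    calc q₁ * (q₂ * s * F) * star q₁ * (q₁ * t * E)
        = q₁ * q₂ * s * F * (star q₁ * q₁) * t * E := by noncomm_ring
      _ = q₁ * q₂ * s * (F * F) * t * E := by rw [hq11]; noncomm_ring
      _ = q₁ * q₂ * s * F * t * E := by rw [hPF.idem]
      _ = q₁ * q₂ * s * t * E * (star t * t) * E := by rw [htF]; noncomm_ring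
      _ = q₁ * q₂ * s * t * (E * E) := by rw [ht]; noncomm_ring
      _ = _ := by rw [hPE.idem]; noncomm_ring
  have h7 := h.B_mul hE hPE h8 hb₂ h6 (b := b₃) (by
    rw [hprod v₁ v₂ hl₂.unitM.1 rfl, hprod w₁ w₂ hl₂.unitN.1 hF2]
    exact hb₃)
  rw [h5, h7]

end Pool.Agent.KKS

end

section

/-!
# Beta2: the density of the measure beta
-/


open Filter Topology

namespace Pool.Agent.KKS

variable {H : Type*} [NormedAddCommGroup H] [InnerProductSpace ℂ H] [CompleteSpace H]
variable {Γ : Type*} [Group Γ] {M N A : VonNeumannAlgebra H} {u : Γ → H →L[ℂ] H}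
  {τ : (H →L[ℂ] H) →L[ℂ] ℂ} {k : ℕ → ℕ} {e : ∀ n, Fin (k n) → Fin (k n) → H →L[ℂ] H} {κ : ℝ}

/-- the sum of the diagonal matrix units in `J` -/
private noncomputable def Beta2_d {k : ℕ} (e : Fin k → Fin k → H →L[ℂ] H) (J : Finset (Fin k)) :
    H →L[ℂ] H := ∑ i ∈ J, e i i

private theorem Beta2_ee {k : ℕ} {e : Fin k → Fin k → H →L[ℂ] H} (he : MU M A e) (i j : Fin k) :
    e i i * e j j = if i = j then e j j else 0 := by
  split_ifs with h
  · subst h
    exact he.mul i i i
  · exact he.orth i i j j h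

private theorem Beta2_mem {k : ℕ} {e : Fin k → Fin k → H →L[ℂ] H} (he : MU M A e)
    (J : Finset (Fin k)) : Beta2_d e J ∈ A := by
  unfold Beta2_d
  exact sum_mem fun i _ => he.diag i

private theorem Beta2_mul {k : ℕ} {e : Fin k → Fin k → H →L[ℂ] H} (he : MU M A e)
    (c : Fin k → ℂ) (J : Finset (Fin k)) :
    (∑ i, c i • e i i) * Beta2_d e J = ∑ j ∈ J, c j • e j j := by
  unfold Beta2_d
  rw [Finset.sum_mul_sum]
  rw [Finset.sum_comm]
  refine Finset.sum_congr rfl fun j _ => ?_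
  rw [Finset.sum_eq_single j]
  · rw [smul_mul_assoc, Beta2_ee he, if_pos rfl]
  · intro i _ hij
    rw [smul_mul_assoc, Beta2_ee he, if_neg hij, smul_zero]
  · intro hj
    exact absurd (Finset.mem_univ j) hj

private theorem Beta2_single {k : ℕ} {e : Fin k → Fin k → H →L[ℂ] H} (he : MU M A e)
    {a : Fin k} {J : Finset (Fin k)} (ha : a ∉ J) : e a a * Beta2_d e J = 0 := by
  unfold Beta2_d
  rw [Finset.mul_sum]
  refine Finset.sum_eq_zero fun j hj => ?_
  rw [Beta2_ee he, if_neg]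
  rintro rfl
  exact ha hj

private theorem Beta2_pj {k : ℕ} {e : Fin k → Fin k → H →L[ℂ] H} (he : MU M A e)
    (J : Finset (Fin k)) : PJ (Beta2_d e J) := by
  induction J using Finset.induction_on with
  | empty =>
    refine ⟨?_, ?_⟩ <;> simp [Beta2_d]
  | insert a J ha ih =>
    have h1 : Beta2_d e (insert a J) = e a a + Beta2_d e J := by
      unfold Beta2_d
      rw [Finset.sum_insert ha]
    rw [h1]
    exact PJ.add (he.pj a) ih (Beta2_single he ha)

private theorem Beta2_tr {R : VonNeumannAlgebra H} {t : (H →L[ℂ] H) → ℂ} (hR : IsTrace R t) {k : ℕ}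
    {e : Fin k → Fin k → H →L[ℂ] H} (he : MU R A e)
    (J : Finset (Fin k)) : t (Beta2_d e J) = (J.card : ℂ) / k := by
  unfold Beta2_d
  rw [hR.sum J fun i _ => he.mem i i]
  rw [Finset.sum_congr rfl fun i _ => he.trace hR he.mem i]
  rw [Finset.sum_const, nsmul_eq_mul]
  ring

private theorem Beta2_tr_re {R : VonNeumannAlgebra H} {t : (H →L[ℂ] H) → ℂ} (hR : IsTrace R t) {k : ℕ}
    {e : Fin k → Fin k → H →L[ℂ] H} (he : MU R A e)
    (J : Finset (Fin k)) : (t (Beta2_d e J)).re = (J.card : ℝ) / k := by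
  rw [Beta2_tr hR he]
  have : ((J.card : ℂ) / k) = (((J.card : ℝ) / k : ℝ) : ℂ) := by push_cast; rfl
  rw [this, Complex.ofReal_re]

/-- refinement of sums of diagonal units -/
private theorem Beta2_ref {k k' : ℕ} {e : Fin k → Fin k → H →L[ℂ] H}
    {e' : Fin k' → Fin k' → H →L[ℂ] H} (h : Nest e e') (J : Finset (Fin k)) :
    ∃ J' : Finset (Fin k'), Beta2_d e J = Beta2_d e' J' := by
  obtain ⟨m, φ, hm, hφ⟩ := h
  refine ⟨(J ×ˢ Finset.univ).map φ.toEmbedding, ?_⟩
  unfold Beta2_d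
  rw [Finset.sum_map, Finset.sum_product]
  refine Finset.sum_congr rfl fun i _ => ?_
  rw [hφ i i]
  rfl

private theorem Beta2_beta {R : VonNeumannAlgebra H} {t : (H →L[ℂ] H) → ℂ} (hR : IsTrace R t)
    (_hAR : ∀ a ∈ A, a ∈ R)
    {β : (H →L[ℂ] H) → ℝ} {C : ℝ}
    (hb : ∀ E ∈ A, PJ E → (t E).re ≤ 1 / 8 → |β E| ≤ C * (t E).re)
    (hadd : ∀ E ∈ A, ∀ F ∈ A, PJ E → PJ F → E * F = 0 → (t (E + F)).re ≤ 1 / 8 →
      β (E + F) = β E + β F) {k : ℕ}
    {e : Fin k → Fin k → H →L[ℂ] H} (he : MU R A e) (J : Finset (Fin k))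
    (hJ : (t (Beta2_d e J)).re ≤ 1 / 8) : β (Beta2_d e J) = ∑ i ∈ J, β (e i i) := by
  induction J using Finset.induction_on with
  | empty =>
    have h0 : Beta2_d e (∅ : Finset (Fin k)) = 0 := by simp [Beta2_d]
    have h1 := hb 0 (zero_mem A) ⟨by simp, by simp⟩ (by rw [hR.zero]; norm_num)
    rw [hR.zero] at h1
    simp only [Complex.zero_re, mul_zero] at h1
    have h2 : β 0 = 0 := abs_eq_zero.mp (le_antisymm h1 (abs_nonneg _))
    rw [h0, h2]
    simp
  | insert a J ha ih =>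
    have h1 : Beta2_d e (insert a J) = e a a + Beta2_d e J := by
      unfold Beta2_d
      rw [Finset.sum_insert ha]
    rw [h1] at hJ ⊢
    have hk : (0 : ℝ) < k := by exact_mod_cast he.pos
    have h2 : (t (Beta2_d e J)).re ≤ 1 / 8 := by
      rw [← h1, Beta2_tr_re hR he, Finset.card_insert_of_notMem ha] at hJ
      rw [Beta2_tr_re hR he]
      refine le_trans ?_ hJ
      apply div_le_div_of_nonneg_right _ hk.le
      push_cast
      linarith
    rw [hadd _ (he.diag a) _ (Beta2_mem he J) (he.pj a) (Beta2_pj he J) (Beta2_single he ha) hJ,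
      ih h2, Finset.sum_insert ha]

/-- bounded finitely additive functions on small projections of `A` have densities (9.3):
`b = wlim ∑ᵢ k n β(e_ii) e_ii`; `τ(b d) = β(d)` for sums `d` of diagonal matrix units with `τ d ≤ 1/8`; then
approximation: `|β(E) - β(d)| ≤ C τ((E - d)²)` -/
theorem Sit.density (h : Sit M N A τ u k e κ) {β : (H →L[ℂ] H) → ℝ} {C : ℝ} (hC : 0 ≤ C)
    (hb : ∀ E ∈ A, PJ E → (τ E).re ≤ 1 / 8 → |β E| ≤ C * (τ E).re)
    (hadd : ∀ E ∈ A, ∀ F ∈ A, PJ E → PJ F → E * F = 0 → (τ (E + F)).re ≤ 1 / 8 →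
      β (E + F) = β E + β F) :
    ∃ b ∈ A, star b = b ∧ ‖b‖ ≤ C ∧
      ∀ E ∈ A, PJ E → (τ E).re ≤ 1 / 16 → β E = (τ (b * E)).re := by
  have trM : IsTrace M τ := h.cm.trace
  have trA : IsTrace A τ := trM.of_le h.cm.le
  have hmu : ∀ n, MU M A (e n) := h.sys.mu
  -- level from which on `k n ≥ 8`
  obtain ⟨n₀, hn₀⟩ : ∃ n₀, ∀ n, n₀ ≤ n → 8 ≤ k n := by
    have := h.sys.kinf.eventually_ge_atTop 8
    rw [eventually_atTop] at this
    exact this
  -- the approximating densities
  set c : ∀ n, Fin (k n) → ℝ := fun n i => k n * β (e n i i) with hc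
  set B : ℕ → (H →L[ℂ] H) := fun n =>
    if 8 ≤ k n then ∑ i, ((c n i : ℝ) : ℂ) • e n i i else 0 with hBdef
  have hcb : ∀ n, 8 ≤ k n → ∀ i, |c n i| ≤ C := by
    intro n hn i
    have hk : (0 : ℝ) < k n := by
      have : 0 < k n := by omega
      exact_mod_cast this
    have h8 : (8 : ℝ) ≤ k n := by exact_mod_cast hn
    have ht : (τ (e n i i)).re = 1 / k n := by
      rw [(hmu n).trace trM (hmu n).mem i]
      have : ((1 : ℂ) / k n) = (((1 : ℝ) / k n : ℝ) : ℂ) := by push_cast; rfl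
      rw [this, Complex.ofReal_re]
    have h1 := hb (e n i i) ((hmu n).diag i) ((hmu n).pj i) (by
      rw [ht]
      apply one_div_le_one_div_of_le (by norm_num) h8)
    rw [ht] at h1
    simp only [hc]
    rw [abs_mul, abs_of_pos hk]
    calc (k n : ℝ) * |β (e n i i)| ≤ k n * (C * (1 / k n)) := by
          apply mul_le_mul_of_nonneg_left h1 hk.le
      _ = C := by field_simp
  have hBn : ∀ n, ‖B n‖ ≤ C := by
    intro n
    simp only [hBdef]
    split_ifs with hn
    · refine norm_sum_orth_le Finset.univ hC (p := fun i => e n i i) (q := fun i => e n i i)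
        (fun i => (hmu n).pj i) (fun i => (hmu n).pj i) ?_ ?_ ?_ ?_
      · intro i _ j _ hij
        exact (hmu n).orth i i j j hij
      · intro i _ j _ hij
        exact (hmu n).orth i i j j hij
      · intro i _
        simp only [mul_smul_comm, smul_mul_assoc, (hmu n).mul]
      · intro i _
        rw [norm_smul]
        have h1 : ‖((c n i : ℝ) : ℂ)‖ ≤ C := by
          rw [Complex.norm_real]
          exact hcb n hn i
        calc ‖((c n i : ℝ) : ℂ)‖ * ‖e n i i‖ ≤ C * 1 :=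
              mul_le_mul h1 ((hmu n).pj i).norm_le (norm_nonneg _) hC
          _ = C := mul_one C
    · simpa using hC
  have hBA : ∀ n, B n ∈ A := by
    intro n
    simp only [hBdef]
    split_ifs
    · exact sum_mem fun i _ => A.toStarSubalgebra.smul_mem ((hmu n).diag i) _
    · exact zero_mem A
  have hBs : ∀ n, star (B n) = B n := by
    intro n
    simp only [hBdef]
    split_ifs
    · rw [star_sum]
      refine Finset.sum_congr rfl fun i _ => ?_
      rw [star_smul, (hmu n).adj]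
      simp
    · simp
  have hBB : Bdd B := ⟨C, hBn⟩
  -- values on diagonal sums
  have hval : ∀ n, 8 ≤ k n → ∀ J : Finset (Fin (k n)), (τ (Beta2_d (e n) J)).re ≤ 1 / 8 →
      (τ (B n * Beta2_d (e n) J)).re = β (Beta2_d (e n) J) := by
    intro n hn J hJ
    have hk : (0 : ℝ) < k n := by
      have : 0 < k n := by omega
      exact_mod_cast this
    have h1 : B n * Beta2_d (e n) J = ∑ j ∈ J, ((c n j : ℝ) : ℂ) • e n j j := by
      simp only [hBdef]
      rw [if_pos hn]
      exact Beta2_mul (hmu n) _ J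
    rw [h1, trM.sum J fun i _ => M.toStarSubalgebra.smul_mem ((hmu n).mem i i) _]
    rw [Beta2_beta trM h.cm.le hb hadd (hmu n) J hJ, Complex.re_sum]
    refine Finset.sum_congr rfl fun j _ => ?_
    rw [trM.smul _ ((hmu n).mem j j), (hmu n).trace trM (hmu n).mem j]
    have : ((c n j : ℝ) : ℂ) * (1 / (k n : ℂ)) = ((c n j * (1 / k n) : ℝ) : ℂ) := by
      push_cast; rfl
    rw [this, Complex.ofReal_re]
    simp only [hc]
    field_simp
  set b := wlim B with hbdef
  have hbA : b ∈ A := wlim_mem A hBB (Eventually.of_forall hBA)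
  have hbd : ∀ m, ∀ J : Finset (Fin (k m)), (τ (Beta2_d (e m) J)).re ≤ 1 / 8 →
      (τ (b * Beta2_d (e m) J)).re = β (Beta2_d (e m) J) := by
    intro m J hJ
    have hmemd : Beta2_d (e m) J ∈ A := Beta2_mem (hmu m) J
    have h1 := trA.lim (T := fun n => B n * Beta2_d (e m) J) (hBB.mul (Bdd.const _))
      (fun n => mul_mem (hBA n) hmemd)
    rw [wlim_mul_right hBB] at h1
    have h2 : Tendsto (fun n => (τ (B n * Beta2_d (e m) J)).re) UF
        (𝓝 (τ (b * Beta2_d (e m) J)).re) :=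
      (Complex.continuous_re.tendsto _).comp h1
    have h3 : ∀ᶠ n in UF, (τ (B n * Beta2_d (e m) J)).re = β (Beta2_d (e m) J) := by
      have h4 : ∀ᶠ n in (atTop : Filter ℕ), max n₀ m ≤ n := eventually_ge_atTop _
      have h5 : ∀ᶠ n in UF, max n₀ m ≤ n := h4.filter_mono Nat.hyperfilter_le_atTop
      filter_upwards [h5] with n hn
      have hn1 : n₀ ≤ n := le_trans (le_max_left _ _) hn
      have hn2 : m ≤ n := le_trans (le_max_right _ _) hn
      obtain ⟨J', hJ'⟩ := Beta2_ref (h.sys.nest_le hn2) J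
      rw [hJ'] at hJ ⊢
      exact hval n (hn₀ n hn1) J' hJ
    have h6 : Tendsto (fun n => (τ (B n * Beta2_d (e m) J)).re) UF
        (𝓝 (β (Beta2_d (e m) J))) :=
      Tendsto.congr' (by filter_upwards [h3] with n hn using hn.symm) tendsto_const_nhds
    exact tendsto_nhds_unique h2 h6
  refine ⟨b, hbA, ?_, norm_wlim_le hBn, ?_⟩
  · rw [hbdef, ← wlim_star hBB]
    congr 1
    funext n
    exact hBs n
  · intro E hE hPE hE16
    have hbn : ‖b‖ ≤ C := norm_wlim_le hBn
    -- it is enough to have the bound for all small δ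
    have main : ∀ δ : ℝ, 0 < δ → δ ≤ 1 / 16 →
        |β E - (τ (b * E)).re| ≤ C * δ + C * Real.sqrt δ := by
      intro δ hδ hδ1
      obtain ⟨n, J, hJ⟩ := (h.sys.dense E hE hPE δ hδ).exists
      change (τ ((E - Beta2_d (e n) J) * (E - Beta2_d (e n) J))).re < δ at hJ
      set d := Beta2_d (e n) J with hd
      have hdA : d ∈ A := Beta2_mem (hmu n) J
      have hPd : PJ d := Beta2_pj (hmu n) J
      have hcomm : E * d = d * E := h.cm.comm E hE d hdA
      -- the two differences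
      have hP1 : PJ (E * (1 - d)) := PJ.mul hPE hPd.compl (by
        rw [mul_sub, sub_mul, hcomm]; simp)
      have hP2 : PJ (d * (1 - E)) := PJ.mul hPd hPE.compl (by
        rw [mul_sub, sub_mul, hcomm]; simp)
      have hP3 : PJ (E * d) := PJ.mul hPE hPd hcomm
      have h1A : E * (1 - d) ∈ A := mul_mem hE (sub_mem (one_mem A) hdA)
      have h2A : d * (1 - E) ∈ A := mul_mem hdA (sub_mem (one_mem A) hE)
      have h3A : E * d ∈ A := mul_mem hE hdA
      have hsq : (E - d) * (E - d) = E * (1 - d) + d * (1 - E) := by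
        simp only [mul_sub, sub_mul, mul_one, hPE.idem, hPd.idem, hcomm]
        abel
      have ht1 := (trA.nonneg h1A hP1.nonneg).1
      have ht2 := (trA.nonneg h2A hP2.nonneg).1
      have ht3 := (trA.nonneg h3A hP3.nonneg).1
      have hsum : (τ (E * (1 - d))).re + (τ (d * (1 - E))).re < δ := by
        rw [hsq, trA.add h1A h2A, Complex.add_re] at hJ
        exact hJ
      have hEs : E = E * d + E * (1 - d) := by simp [mul_sub]
      have hds : d = E * d + d * (1 - E) := by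
        rw [mul_sub, hcomm]; simp
      have htE : (τ E).re = (τ (E * d)).re + (τ (E * (1 - d))).re := by
        conv_lhs => rw [hEs]
        rw [trA.add h3A h1A, Complex.add_re]
      have htd : (τ d).re = (τ (E * d)).re + (τ (d * (1 - E))).re := by
        conv_lhs => rw [hds]
        rw [trA.add h3A h2A, Complex.add_re]
      have hd8 : (τ d).re ≤ 1 / 8 := by linarith
      have ho1 : E * d * (E * (1 - d)) = 0 := by
        have : E * d * (E * (1 - d)) = E * (d * E) * (1 - d) := by noncomm_ring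
        rw [this, ← hcomm]
        have : E * (E * d) * (1 - d) = E * E * (d * (1 - d)) := by noncomm_ring
        rw [this, mul_sub, hPd.idem]
        simp
      have ho2 : E * d * (d * (1 - E)) = 0 := by
        have : E * d * (d * (1 - E)) = E * (d * d) * (1 - E) := by noncomm_ring
        rw [this, hPd.idem, hcomm]
        have : d * E * (1 - E) = d * (E * (1 - E)) := by noncomm_ring
        rw [this, mul_sub, hPE.idem]
        simp
      have hbE : β E = β (E * d) + β (E * (1 - d)) := by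
        conv_lhs => rw [hEs]
        refine hadd _ h3A _ h1A hP3 hP1 ho1 ?_
        rw [← hEs]
        linarith
      have hbD : β d = β (E * d) + β (d * (1 - E)) := by
        conv_lhs => rw [hds]
        refine hadd _ h3A _ h2A hP3 hP2 ho2 ?_
        rw [← hds]
        exact hd8
      have hb1 := hb _ h1A hP1 (by linarith)
      have hb2 := hb _ h2A hP2 (by linarith)
      have hβ : |β E - β d| ≤ C * δ := by
        rw [hbE, hbD]
        have h7 : β (E * d) + β (E * (1 - d)) - (β (E * d) + β (d * (1 - E)))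
            = β (E * (1 - d)) - β (d * (1 - E)) := by ring
        rw [h7]
        refine (abs_sub _ _).trans ?_
        nlinarith
      have hτ : |(τ (b * d)).re - (τ (b * E)).re| ≤ C * Real.sqrt δ := by
        have hsA : E - d ∈ A := sub_mem hE hdA
        have hstar : star (E - d) = E - d := by rw [star_sub, hPE.sa, hPd.sa]
        have h7 : (τ (b * d)).re - (τ (b * E)).re = -(τ (b * star (E - d))).re := by
          rw [hstar, mul_sub, trA.sub (mul_mem hbA hE) (mul_mem hbA hdA), Complex.sub_re]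
          ring
        rw [h7, abs_neg]
        have h8 := trA.cs hbA hsA
        have h9 : n2 τ b ≤ C := (trA.n2_le_norm hbA).trans hbn
        have h10 : n2 τ (E - d) ≤ Real.sqrt δ := by
          unfold n2
          rw [hstar]
          exact Real.sqrt_le_sqrt hJ.le
        calc |(τ (b * star (E - d))).re| ≤ ‖τ (b * star (E - d))‖ := Complex.abs_re_le_norm _
          _ ≤ n2 τ b * n2 τ (E - d) := h8
          _ ≤ C * Real.sqrt δ := mul_le_mul h9 h10 (n2_nonneg _) hC
      rw [hbd n J hd8] at hτ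
      have h11 : β E - (τ (b * E)).re = (β E - β d) + (β d - (τ (b * E)).re) := by ring
      rw [h11]
      exact (abs_add_le _ _).trans (add_le_add hβ hτ)
    have hlim : Tendsto (fun δ : ℝ => C * δ + C * Real.sqrt δ) (𝓝[>] 0) (𝓝 0) := by
      have h1 : ContinuousAt (fun δ : ℝ => C * δ + C * Real.sqrt δ) 0 := by fun_prop
      have h2 := h1.tendsto
      simp only [mul_zero, Real.sqrt_zero, add_zero] at h2
      exact h2.mono_left nhdsWithin_le_nhds
    have h3 : |β E - (τ (b * E)).re| ≤ 0 := by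
      refine ge_of_tendsto hlim ?_
      have h4 : ∀ᶠ δ : ℝ in 𝓝[>] 0, δ ∈ Set.Ioc (0 : ℝ) (1 / 16) :=
        Ioc_mem_nhdsGT (by norm_num)
      filter_upwards [h4] with δ hδ
      exact main δ hδ.1 hδ.2
    have h5 := abs_eq_zero.mp (le_antisymm h3 (abs_nonneg _))
    linarith

end Pool.Agent.KKS

end

section

/-!
# Beta3: uniqueness of the lift
-/


open Filter Topology

namespace Pool.Agent.KKS

variable {H : Type*} [NormedAddCommGroup H] [InnerProductSpace ℂ H] [CompleteSpace H]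
variable {Γ : Type*} [Group Γ] {M N A : VonNeumannAlgebra H} {u : Γ → H →L[ℂ] H}
  {τ : (H →L[ℂ] H) →L[ℂ] ℂ} {k : ℕ → ℕ} {e : ∀ n, Fin (k n) → Fin (k n) → H →L[ℂ] H} {κ : ℝ}

private theorem Beta3_posPart_mem {R : VonNeumannAlgebra H} {θ : H →L[ℂ] H} (hθ : θ ∈ R) :
    θ⁺ ∈ R := by
  apply mem_of_comm
  intro S hS
  have h1 : Commute θ S := (hS θ hθ).symm
  rw [CFC.posPart_def]
  exact (Commute.cfcₙ_real h1 _).symm

/-- the positive part vanishes -/
private theorem Beta3_pos (h : Sit M N A τ u k e κ) {θ : H →L[ℂ] H} (hθ : θ ∈ A)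
    (hs : star θ = θ) (h0 : ∀ E ∈ A, PJ E → (τ (θ * E)).re = 0) : θ⁺ = 0 := by
  have hsa : IsSelfAdjoint θ := hs
  have hpA : θ⁺ ∈ A := Beta3_posPart_mem hθ
  have hp0 : 0 ≤ θ⁺ := CFC.posPart_nonneg θ
  obtain ⟨s, hsA, hsP, hs1, hs2, hs3, _⟩ := support hpA hp0
  have h1 : θ⁺ * θ⁻ = 0 := CFC.posPart_mul_negPart θ
  have h2 : s * θ⁻ = 0 := hs3 _ h1
  have hdec : θ⁺ - θ⁻ = θ := CFC.posPart_sub_negPart θ hsa
  have h3 : θ * s = θ⁺ := by
    rw [h.cm.comm θ hθ s hsA]
    nth_rewrite 1 [← hdec]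
    rw [mul_sub, h2, hs1, sub_zero]
  have h4 := h0 s hsA hsP
  rw [h3] at h4
  exact h.cm.trace.eq_zero (h.cm.le _ hpA) hp0 h4

/-- a self-adjoint element of `A` which is orthogonal to the small projections vanishes -/
theorem Sit.zero_of_small (h : Sit M N A τ u k e κ) {θ : H →L[ℂ] H} (hθ : θ ∈ A)
    (hs : star θ = θ) (h0 : ∀ E ∈ A, PJ E → (τ E).re ≤ 1 / 16 → (τ (θ * E)).re = 0) : θ = 0 := by
  -- all projections
  obtain ⟨n, hn⟩ := ((tendsto_atTop.1 h.sys.kinf) 16).exists
  have hmu := h.sys.mu n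
  have hall : ∀ E ∈ A, PJ E → (τ (θ * E)).re = 0 := by
    intro E hE hPE
    have h1 : θ * E = ∑ i, θ * (E * e n i i) := by
      rw [← Finset.mul_sum, ← Finset.mul_sum, hmu.sum, mul_one]
    rw [h1, map_sum, Complex.re_sum]
    refine Finset.sum_eq_zero fun i _ => ?_
    have hei : e n i i ∈ A := hmu.diag i
    have hPi : PJ (e n i i) := hmu.pj i
    have hc : E * e n i i = e n i i * E := h.cm.comm _ hE _ hei
    have hPp : PJ (E * e n i i) := hPE.mul hPi hc
    refine h0 _ (mul_mem hE hei) hPp ?_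
    have h2 : τ (e n i i) = 1 / (k n : ℂ) := hmu.trace h.cm.trace hmu.mem i
    have h3 : PJ (e n i i - E * e n i i) := by
      refine hPi.sub hPp ?_
      rw [hc, ← mul_assoc, hPi.idem]
    have h4 := (h.cm.trace.nonneg (h.cm.le _ (sub_mem hei (mul_mem hE hei))) h3.nonneg).1
    rw [map_sub, Complex.sub_re] at h4
    have h5 : (τ (e n i i)).re = 1 / (k n : ℝ) := by
      rw [h2]
      have : (1 / (k n : ℂ)) = ((1 / (k n : ℝ) : ℝ) : ℂ) := by push_cast; rfl
      rw [this, Complex.ofReal_re]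
    rw [h5] at h4
    have h6 : (1 : ℝ) / (k n : ℝ) ≤ 1 / 16 := by
      apply one_div_le_one_div_of_le (by norm_num)
      exact_mod_cast hn
    linarith
  have h1 := Beta3_pos h hθ hs hall
  have h2 := Beta3_pos h (neg_mem hθ) (by rw [star_neg, hs]) (fun E hE hPE => by
    rw [neg_mul, map_neg, Complex.neg_re, hall E hE hPE, neg_zero])
  have h3 : θ⁻ = 0 := by
    rw [← CFC.posPart_neg]
    exact h2
  have hdec : θ⁺ - θ⁻ = θ := CFC.posPart_sub_negPart θ hs
  rw [← hdec, h1, h3, sub_zero]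

/-- (9.5), uniqueness part -/
theorem Sit.lift0_unique (h : Sit M N A τ u k e κ) {v w w' : H →L[ℂ] H} (hl : LiftOf M N A v w)
    (hl' : LiftOf M N A v w') (hn : ‖w' - w‖ ≤ 1 / 2000)
    (h0 : ∀ E ∈ A, PJ E → (τ E).re ≤ 1 / 16 → IsBeta M N A τ v w E 0)
    (h0' : ∀ E ∈ A, PJ E → (τ E).re ≤ 1 / 16 → IsBeta M N A τ v w' E 0) : w' = w := by
  have hwn : ‖star w‖ ≤ 1 := by
    have h1 := CStarRing.norm_star_mul_self (x := w)
    rw [hl.unitN.1] at h1
    have h2 : ‖(1 : H →L[ℂ] H)‖ ≤ 1 := ContinuousLinearMap.norm_id_le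
    rw [norm_star]
    nlinarith [norm_nonneg w]
  set x : H →L[ℂ] H := star w * w' with hx
  have hxN : x ∈ N := mul_mem (star_mem hl.memN) hl'.memN
  have hxc : ∀ a ∈ A, x * a = a * x := by
    intro a ha
    have h1 : star w * (v * a * star v) = a * star w := by
      rw [← hl.same' ha]
      calc star w * (w * a * star w) = (star w * w) * a * star w := by noncomm_ring
        _ = a * star w := by rw [hl.unitN.1, one_mul]
    calc x * a = star w * (w' * a) := by rw [hx, mul_assoc]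
      _ = star w * (v * a * star v * w') := by rw [hl'.same a ha]
      _ = star w * (v * a * star v) * w' := by noncomm_ring
      _ = a * x := by rw [h1, hx, mul_assoc]
  have hxA : x ∈ A := h.masaN x hxN hxc
  have hx1 : star x * x = 1 := by
    rw [hx, star_mul, star_star]
    calc star w' * w * (star w * w') = star w' * (w * star w) * w' := by noncomm_ring
      _ = 1 := by rw [hl.unitN.2, mul_one, hl'.unitN.1]
  have hx2 : x * star x = 1 := by
    rw [hx, star_mul, star_star]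
    calc star w * w' * (star w' * w) = star w * (w' * star w') * w := by noncomm_ring
      _ = 1 := by rw [hl'.unitN.2, mul_one, hl.unitN.1]
  have hxn : ‖x - 1‖ ≤ 1 / 2000 := by
    have h1 : x - 1 = star w * (w' - w) := by rw [mul_sub, hl.unitN.1]
    rw [h1]
    calc ‖star w * (w' - w)‖ ≤ ‖star w‖ * ‖w' - w‖ := norm_mul_le _ _
      _ ≤ 1 * ‖w' - w‖ := by gcongr
      _ ≤ 1 / 2000 := by rw [one_mul]; exact hn
  obtain ⟨θ, hθ, hθs, hθx, hθn⟩ := exists_log hxA hx1 hx2 (hxn.trans (by norm_num))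
  have hθn' : ‖θ‖ ≤ 1 / 1000 := by linarith
  have hw' : w' = w * ex θ := by
    rw [hθx, hx, ← mul_assoc, hl.unitN.2, one_mul]
  have hl'' : LiftOf M N A v (w * ex θ) := by rw [← hw']; exact hl'
  have hθ0 : θ = 0 := by
    refine h.zero_of_small hθ hθs fun E hE hPE hE16 => ?_
    have h1 := h.beta_exp hl hE hPE (hE16.trans (by norm_num)) hθ hθs hθn' hl''
      (h0 E hE hPE hE16) (b' := 0) (by rw [← hw']; exact h0' E hE hPE hE16)
    linarith
  rw [hw', hθ0, ex_zero, mul_one]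

end Pool.Agent.KKS

end

section

/-!
# Beta4: the corrected lift
-/


open Filter Topology

namespace Pool.Agent.KKS

variable {H : Type*} [NormedAddCommGroup H] [InnerProductSpace ℂ H] [CompleteSpace H]
variable {Γ : Type*} [Group Γ] {M N A : VonNeumannAlgebra H} {u : Γ → H →L[ℂ] H}
  {τ : (H →L[ℂ] H) →L[ℂ] ℂ} {k : ℕ → ℕ} {e : ∀ n, Fin (k n) → Fin (k n) → H →L[ℂ] H} {κ : ℝ}

private theorem Beta4_norm_unit {w : H →L[ℂ] H} (h1 : star w * w = 1) : ‖w‖ ≤ 1 := by
  have h3 := CStarRing.norm_star_mul_self (x := w)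
  rw [h1] at h3
  have h2 : ‖(1 : H →L[ℂ] H)‖ ≤ 1 := ContinuousLinearMap.norm_id_le
  nlinarith [norm_nonneg w]

private theorem Beta4_normM' (h : Sit M N A τ u k e κ) (g : Γ) :
    ∀ a ∈ A, star (u g) * a * u g ∈ A := by
  intro a ha
  have h1 := h.cm.u_norm g⁻¹ a ha
  rw [h.cm.u_star, inv_inv, ← h.cm.u_star] at h1
  exact h1

/-- (9.3), (9.4): the corrected lift -/
theorem Sit.exists_lift0 (h : Sit M N A τ u k e κ) (g : Γ) : ∃ w, LiftOf M N A (u g) w ∧
    ‖w - u g‖ ≤ 1 / 8000 ∧ ∀ E ∈ A, PJ E → (τ E).re ≤ 1 / 16 → IsBeta M N A τ (u g) w E 0 := by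
  have hκ0 := h.κ0
  have hκ1 : κ ≤ 1 / 100000000 := h.κ1.trans (by norm_num)
  obtain ⟨w, hw, hw1, hw2, hwn, hws⟩ := h.exists_lift g
  have hl : LiftOf M N A (u g) w :=
    { memM := h.cm.u_mem g
      unitM := h.cm.unit g
      normM := h.cm.u_norm g
      normM' := Beta4_normM' h g
      memN := hw
      unitN := ⟨hw1, hw2⟩
      near := by linarith
      same := hws }
  have hex : ∀ E : H →L[ℂ] H, ∃ b : ℝ, E ∈ A → PJ E → IsBeta M N A τ (u g) w E b ∧
      |b| ≤ 500 * (‖w - u g‖ + 8 * κ) * (τ E).re := by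
    intro E
    by_cases hE : E ∈ A ∧ PJ E
    · obtain ⟨b, hb⟩ := h.exists_beta hl hE.1 hE.2
      exact ⟨b, fun _ _ => hb⟩
    · exact ⟨0, fun h1 h2 => absurd ⟨h1, h2⟩ hE⟩
  choose β hβ using hex
  obtain ⟨b, hbA, hbs, hbn, hbE⟩ := h.density (β := β) (C := 6000 * κ) (by positivity)
    (fun E hE hPE _ => by
      have h1 := (hβ E hE hPE).2
      refine h1.trans ?_
      have h2 : 0 ≤ (τ E).re := (h.cm.trace.nonneg (h.cm.le E hE) hPE.nonneg).1
      apply mul_le_mul_of_nonneg_right _ h2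
      linarith)
    (fun E hE F hF hPE hPF h0 h8 => by
      have h1 := h.beta_add hl hE hPE hF hPF h0 (hβ E hE hPE).1 (hβ F hF hPF).1
      have hPEF : PJ (E + F) := hPE.add hPF h0
      exact h.beta_unique hl (add_mem hE hF) hPEF h8 (hβ _ (add_mem hE hF) hPEF).1 h1)
  set θ : H →L[ℂ] H := (-2 : ℂ) • b with hθdef
  have hθA : θ ∈ A := A.toStarSubalgebra.smul_mem hbA _
  have hθs : star θ = θ := by
    rw [hθdef, star_smul, hbs]
    congr 1
    simp
  have hθn : ‖θ‖ ≤ 12000 * κ := by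
    rw [hθdef, norm_smul]
    have : ‖(-2 : ℂ)‖ = 2 := by simp
    rw [this]
    linarith
  have hexA : ex θ ∈ A := ex_mem hθA
  obtain ⟨hu1, hu2⟩ := ex_unit hθs
  have hnear : ‖w * ex θ - u g‖ ≤ 1 / 8000 := by
    have h1 : w * ex θ - u g = w * (ex θ - 1) + (w - u g) := by noncomm_ring
    rw [h1]
    refine (norm_add_le _ _).trans ?_
    have h2 : ‖w * (ex θ - 1)‖ ≤ 1 * (12000 * κ) := by
      refine (norm_mul_le _ _).trans ?_
      exact mul_le_mul (Beta4_norm_unit hw1) ((ex_norm hθs).trans hθn) (norm_nonneg _) zero_le_one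
    linarith
  have hl' : LiftOf M N A (u g) (w * ex θ) :=
    { memM := h.cm.u_mem g
      unitM := h.cm.unit g
      normM := h.cm.u_norm g
      normM' := Beta4_normM' h g
      memN := mul_mem hw (h.AN _ hexA)
      unitN := by
        constructor
        · calc star (w * ex θ) * (w * ex θ) = star (ex θ) * (star w * w) * ex θ := by
                rw [star_mul]; noncomm_ring
            _ = 1 := by rw [hw1, mul_one, hu1]
        · calc (w * ex θ) * star (w * ex θ) = w * (ex θ * star (ex θ)) * star w := by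
                rw [star_mul]; noncomm_ring
            _ = 1 := by rw [hu2, mul_one, hw2]
      near := hnear.trans (by norm_num)
      same := fun a ha => by
        calc w * ex θ * a = w * (ex θ * a) := by noncomm_ring
          _ = (w * a) * ex θ := by rw [h.cm.comm _ hexA _ ha]; noncomm_ring
          _ = u g * a * star (u g) * (w * ex θ) := by rw [hws a ha]; noncomm_ring }
  refine ⟨w * ex θ, hl', hnear, fun E hE hPE h16 => ?_⟩
  obtain ⟨b', hb', -⟩ := h.exists_beta hl' hE hPE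
  have h1 := h.beta_exp hl hE hPE (h16.trans (by norm_num)) hθA hθs (by linarith) hl'
    (hβ E hE hPE).1 hb'
  have h2 : (τ (θ * E)).re = -2 * (τ (b * E)).re := by
    rw [hθdef, smul_mul_assoc, map_smul, smul_eq_mul, Complex.mul_re]
    simp
  rw [hbE E hE hPE h16, h2] at h1
  have h3 : b' = 0 := by rw [h1]; ring
  rw [← h3]
  exact hb'

end Pool.Agent.KKS

end

section

/-!
# Beta5: the system of lifts
-/


open Filter Topology

namespace Pool.Agent.KKS

variable {H : Type*} [NormedAddCommGroup H] [InnerProductSpace ℂ H] [CompleteSpace H]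
variable {Γ : Type*} [Group Γ] {M N A : VonNeumannAlgebra H} {u : Γ → H →L[ℂ] H}
  {τ : (H →L[ℂ] H) →L[ℂ] ℂ} {k : ℕ → ℕ} {e : ∀ n, Fin (k n) → Fin (k n) → H →L[ℂ] H} {κ : ℝ}

/-- the system of lifts -/
structure Lifts (M N A : VonNeumannAlgebra H) (τ : (H →L[ℂ] H) →L[ℂ] ℂ)
    (u v : Γ → H →L[ℂ] H) : Prop where
  lift : ∀ g, LiftOf M N A (u g) (v g)
  one : v 1 = 1
  mul : ∀ g h, v (g * h) = v g * v h
  adj : ∀ g, star (v g) = v g⁻¹
  free : ∀ g, g ≠ 1 → ∀ a ∈ A, τ (a * v g) = 0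

private theorem Beta5_norm_unit {w : H →L[ℂ] H} (h1 : star w * w = 1) : ‖w‖ ≤ 1 := by
  have h3 := CStarRing.norm_star_mul_self (x := w)
  rw [h1] at h3
  have h2 : ‖(1 : H →L[ℂ] H)‖ ≤ 1 := ContinuousLinearMap.norm_id_le
  nlinarith [norm_nonneg w]

/-- products of lifts -/
private theorem Beta5_lift_mul (h : Sit M N A τ u k e κ) {g g' : Γ} {w w' : H →L[ℂ] H}
    (hl : LiftOf M N A (u g) w) (hl' : LiftOf M N A (u g') w')
    (h1 : ‖w - u g‖ ≤ 1 / 8000) (h2 : ‖w' - u g'‖ ≤ 1 / 8000) :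
    LiftOf M N A (u (g * g')) (w * w') ∧ ‖w * w' - u (g * g')‖ ≤ 1 / 4000 := by
  have hn : ‖w * w' - u (g * g')‖ ≤ 1 / 4000 := by
    have h3 : w * w' - u (g * g') = w * (w' - u g') + (w - u g) * u g' := by
      rw [h.cm.u_mul]
      noncomm_ring
    rw [h3]
    refine (norm_add_le _ _).trans ?_
    have h4 : ‖w * (w' - u g')‖ ≤ 1 * (1 / 8000) :=
      (norm_mul_le _ _).trans
        (mul_le_mul (Beta5_norm_unit hl.unitN.1) h2 (norm_nonneg _) zero_le_one)
    have h5 : ‖(w - u g) * u g'‖ ≤ 1 / 8000 * 1 :=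
      (norm_mul_le _ _).trans
        (mul_le_mul h1 (Beta5_norm_unit hl'.unitM.1) (norm_nonneg _) (by norm_num))
    linarith
  refine ⟨?_, hn⟩
  exact
    { memM := h.cm.u_mem _
      unitM := h.cm.unit _
      normM := h.cm.u_norm _
      normM' := by
        intro a ha
        have h1 := h.cm.u_norm (g * g')⁻¹ a ha
        rw [h.cm.u_star, inv_inv, ← h.cm.u_star] at h1
        exact h1
      memN := mul_mem hl.memN hl'.memN
      unitN := by
        constructor
        · calc star (w * w') * (w * w') = star w' * (star w * w) * w' := by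
                rw [star_mul]; noncomm_ring
            _ = 1 := by rw [hl.unitN.1, mul_one, hl'.unitN.1]
        · calc (w * w') * star (w * w') = w * (w' * star w') * star w := by
                rw [star_mul]; noncomm_ring
            _ = 1 := by rw [hl'.unitN.2, mul_one, hl.unitN.2]
      near := hn.trans (by norm_num)
      same := by
        intro a ha
        have h3 : u g' * a * star (u g') ∈ A := hl'.normM a ha
        calc w * w' * a = w * (w' * a) := by noncomm_ring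
          _ = w * (u g' * a * star (u g')) * w' := by rw [hl'.same a ha]; noncomm_ring
          _ = u g * (u g' * a * star (u g')) * star (u g) * w * w' := by
              rw [hl.same _ h3]
          _ = u (g * g') * a * star (u (g * g')) * (w * w') := by
              rw [h.cm.u_mul, star_mul]; noncomm_ring }

/-- (9.6) -/
private theorem Beta5_free (h : Sit M N A τ u k e κ) {g : Γ} (hg : g ≠ 1) {w : H →L[ℂ] H}
    (hl : LiftOf M N A (u g) w) {a : H →L[ℂ] H} (ha : a ∈ A) : τ (a * w) = 0 := by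
  have hdiag : ∀ a ∈ A, ∀ n i, a * e n i i = e n i i * a := fun a ha n i =>
    h.cm.comm a ha _ ((h.sys.mu n).diag i)
  have hone : ∀ n i, (1 : H →L[ℂ] H) * e n i i = e n i i * 1 := fun n i => by
    rw [one_mul, mul_one]
  set z := EA e w with hz
  have hzN : z ∈ N := h.sys.EA_mem h.eN hl.memN
  have hzA : z ∈ A := h.masaN z hzN (h.sys.comm_A h.cm (fun n i => h.sys.EA_comm w n i))
  have hza : ∀ b ∈ A, z * b = u g * b * star (u g) * z := by
    intro b hb
    have h1 : EA e (1 * w * b) = 1 * z * b := h.sys.EA_mod hone (hdiag b hb) w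
    have h2 : EA e (u g * b * star (u g) * w * 1) = u g * b * star (u g) * z * 1 :=
      h.sys.EA_mod (hdiag _ (hl.normM b hb)) hone w
    rw [one_mul, one_mul] at h1
    rw [mul_one, mul_one] at h2
    rw [← h1, ← h2, hl.same b hb]
  set x := star z * u g with hx
  have hxM : x ∈ M := mul_mem (star_mem (h.cm.le z hzA)) (h.cm.u_mem g)
  have hxA : x ∈ A := by
    refine h.cm.max x hxM fun b hb => ?_
    have h1 := congrArg star (hza (star b) (star_mem hb))
    rw [star_mul, star_mul, star_mul, star_mul, star_star, star_star] at h1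
    -- h1 : b * star z = star z * (u g * (b * star (u g)))
    have h3 : star (u g) * u g = 1 := hl.unitM.1
    calc x * b = star z * (u g * (b * (star (u g) * u g))) := by rw [h3, hx]; noncomm_ring
      _ = star z * (u g * (b * star (u g))) * u g := by noncomm_ring
      _ = b * star z * u g := by rw [h1]
      _ = b * x := by rw [hx]; noncomm_ring
  have hx0 : x = 0 := by
    have h1 : EA e x = x := h.sys.EA_of_comm (hdiag x hxA)
    have h2 : EA e (star z * u g * 1) = star z * EA e (u g) * 1 :=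
      h.sys.EA_mod (hdiag _ (star_mem hzA)) hone (u g)
    rw [mul_one, mul_one, h.sys.EA_u h.cm hg, mul_zero] at h2
    rw [← h1, hx, h2]
  have hz0 : z = 0 := by
    have h1 : star z = 0 := by
      calc star z = star z * (u g * star (u g)) := by rw [hl.unitM.2, mul_one]
        _ = x * star (u g) := by rw [hx, mul_assoc]
        _ = 0 := by rw [hx0, zero_mul]
    rw [← star_star z, h1, star_zero]
  have h1 : EA e (a * w * 1) = a * z * 1 := h.sys.EA_mod (hdiag a ha) hone w
  rw [mul_one, mul_one] at h1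
  have h2 := h.sys.EA_trace h.trN h.eN (mul_mem (h.AN a ha) hl.memN)
  rw [h1, hz0, mul_zero, map_zero] at h2
  exact h2.symm

/-- (9.5), (9.6) -/
theorem Sit.exists_lifts (h : Sit M N A τ u k e κ) : ∃ v : Γ → H →L[ℂ] H,
    Lifts M N A τ u v := by
  choose v hl hn h0 using h.exists_lift0
  have hmul : ∀ g g', v (g * g') = v g * v g' := by
    intro g g'
    obtain ⟨hm, hmn⟩ := Beta5_lift_mul h (hl g) (hl g') (hn g) (hn g')
    symm
    refine h.lift0_unique (hl (g * g')) hm ?_ (h0 (g * g')) ?_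
    · have h1 : v g * v g' - v (g * g') = (v g * v g' - u (g * g')) - (v (g * g') - u (g * g')) := by
        abel
      rw [h1]
      refine (norm_sub_le _ _).trans ?_
      have h2 := hn (g * g')
      linarith
    · intro E hE hPE h16
      obtain ⟨b, hb, -⟩ := h.exists_beta hm hE hPE
      have hF : u g' * E * star (u g') ∈ A := h.cm.u_norm g' E hE
      have hPF : PJ (u g' * E * star (u g')) := by
        have hv := (h.cm.unit g').1
        constructor
        · calc u g' * E * star (u g') * (u g' * E * star (u g')) =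
              u g' * E * (star (u g') * u g') * E * star (u g') := by noncomm_ring
            _ = u g' * (E * E) * star (u g') := by rw [hv]; noncomm_ring
            _ = _ := by rw [hPE.idem]
        · rw [star_mul, star_mul, star_star, hPE.sa, mul_assoc]
      have htr : τ (u g' * E * star (u g')) = τ E := by
        have h1 : τ (u g' * E * star (u g')) = τ (star (u g') * (u g' * E)) :=
          h.cm.trace.tracial _ (mul_mem (h.cm.u_mem g') (h.cm.le E hE)) _
            (star_mem (h.cm.u_mem g'))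
        rw [h1, ← mul_assoc, (h.cm.unit g').1, one_mul]
      have hm' : LiftOf M N A (u g * u g') (v g * v g') := by
        rw [← h.cm.u_mul]
        exact hm
      have hb' : IsBeta M N A τ (u g * u g') (v g * v g') E b := by
        rw [← h.cm.u_mul]
        exact hb
      have h1 := h.beta_mul (hl g) (hl g') hm' hE hPE (h16.trans (by norm_num))
        (h0 g _ hF hPF (by rw [htr]; exact h16)) (h0 g' E hE hPE h16) hb'
      rw [add_zero] at h1
      rw [← h1]
      exact hb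
  have hone : v 1 = 1 := by
    have h1 := hmul 1 1
    rw [mul_one] at h1
    calc v 1 = (star (v 1) * v 1) * v 1 := by rw [(hl 1).unitN.1, one_mul]
      _ = star (v 1) * (v 1 * v 1) := by rw [mul_assoc]
      _ = star (v 1) * v 1 := by rw [← h1]
      _ = 1 := (hl 1).unitN.1
  refine ⟨v, hl, hone, hmul, fun g => ?_, fun g hg a ha => Beta5_free h hg (hl g) ha⟩
  have h1 : v g * v g⁻¹ = 1 := by rw [← hmul, mul_inv_cancel, hone]
  calc star (v g) = star (v g) * (v g * v g⁻¹) := by rw [h1, mul_one]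
    _ = (star (v g) * v g) * v g⁻¹ := by rw [mul_assoc]
    _ = v g⁻¹ := by rw [(hl g).unitN.1, one_mul]

end Pool.Agent.KKS

end
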