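import Pool.Agent.Lib.MP_5c1ef7_an.P07
import Pool.Agent.Lib.MP_5c1ef7_an.P12

/-!
# P13: Fourier coefficients, Bessel inequality
-/

set_option autoImplicit false
set_option linter.unusedSectionVars false

section

/-!
# Den: the graph
-/


open Filter Topology

namespace Pool.Agent.KKS

variable {H : Type*} [NormedAddCommGroup H] [InnerProductSpace ℂ H] [CompleteSpace H]
variable {Γ : Type*} [Group Γ] {M N A : VonNeumannAlgebra H} {u v : Γ → H →L[ℂ] H}
  {τ : (H →L[ℂ] H) →L[ℂ] ℂ} {k : ℕ → ℕ} {e : ∀ n, Fin (k n) → Fin (k n) → H →L[ℂ] H} {κ : ℝ}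

/-- the graph -/
def Gr (A : VonNeumannAlgebra H) (u v : Γ → H →L[ℂ] H) :
    Submodule ℂ ((H →L[ℂ] H) × (H →L[ℂ] H)) :=
  Submodule.span ℂ {p | ∃ a ∈ A, ∃ g, p = (a * u g, a * v g)}

private theorem Den_smul {R : VonNeumannAlgebra H} {x : H →L[ℂ] H} (hx : x ∈ R) (c : ℂ) :
    c • x ∈ R := R.toStarSubalgebra.toSubalgebra.smul_mem hx c

private theorem Den_gen {a : H →L[ℂ] H} (ha : a ∈ A) (g : Γ) :
    ((a * u g, a * v g) : (H →L[ℂ] H) × (H →L[ℂ] H)) ∈ Gr A u v :=
  Submodule.subset_span ⟨a, ha, g, rfl⟩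

theorem Sit.grS (h : Sit M N A τ u k e κ) (hv : Lifts M N A τ u v) : GrS M N τ (Gr A u v) := by
  have hcm := h.cm
  have key : ∀ (g : Γ), ∀ b ∈ A, v g * b = u g * b * star (u g) * v g := fun g b hb =>
    (hv.lift g).same b hb
  constructor
  · exact hcm.trace
  · exact h.trN
  · have h1 := Den_gen (A := A) (u := u) (v := v) (one_mem A) 1
    rwa [hcm.u_one, hv.one, mul_one] at h1
  · intro p hp q hq
    induction hp using Submodule.span_induction with
    | mem p hp =>
      obtain ⟨a, ha, g, rfl⟩ := hp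
      induction hq using Submodule.span_induction with
      | mem q hq =>
        obtain ⟨b, hb, g', rfl⟩ := hq
        have h1 := Den_gen (A := A) (u := u) (v := v)
          (mul_mem ha (hcm.u_norm g b hb)) (g * g')
        have e1 : a * (u g * b * star (u g)) * u (g * g') = a * u g * (b * u g') := by
          rw [hcm.u_mul]
          calc a * (u g * b * star (u g)) * (u g * u g')
              = a * (u g * b) * (star (u g) * u g) * u g' := by noncomm_ring
            _ = a * u g * (b * u g') := by rw [(hcm.unit g).1]; noncomm_ring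
        have e2 : a * (u g * b * star (u g)) * v (g * g') = a * v g * (b * v g') := by
          rw [hv.mul]
          calc a * (u g * b * star (u g)) * (v g * v g')
              = a * (u g * b * star (u g) * v g) * v g' := by noncomm_ring
            _ = a * v g * (b * v g') := by rw [← key g b hb]; noncomm_ring
        rw [e1, e2] at h1
        exact h1
      | zero =>
        have e : ((a * u g, a * v g).1 * (0 : (H →L[ℂ] H) × (H →L[ℂ] H)).1,
            (a * u g, a * v g).2 * (0 : (H →L[ℂ] H) × (H →L[ℂ] H)).2) =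
            (0 : (H →L[ℂ] H) × (H →L[ℂ] H)) := by ext1 <;> simp
        rw [e]
        exact (Gr A u v).zero_mem
      | add x y _ _ hx hy =>
        have := (Gr A u v).add_mem hx hy
        simpa [mul_add] using this
      | smul c x _ hx =>
        have := (Gr A u v).smul_mem c hx
        simpa using this
    | zero =>
      have e : ((0 : (H →L[ℂ] H) × (H →L[ℂ] H)).1 * q.1,
          (0 : (H →L[ℂ] H) × (H →L[ℂ] H)).2 * q.2) =
          (0 : (H →L[ℂ] H) × (H →L[ℂ] H)) := by ext1 <;> simp
      rw [e]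
      exact (Gr A u v).zero_mem
    | add x y _ _ hx hy =>
      have := (Gr A u v).add_mem hx hy
      simpa [add_mul] using this
    | smul c x _ hx =>
      have := (Gr A u v).smul_mem c hx
      simpa using this
  · intro p hp
    induction hp using Submodule.span_induction with
    | mem p hp =>
      obtain ⟨a, ha, g, rfl⟩ := hp
      have h1 := Den_gen (A := A) (u := u) (v := v)
        (hcm.u_norm g⁻¹ (star a) (star_mem ha)) g⁻¹
      have e1 : u g⁻¹ * star a * star (u g⁻¹) * u g⁻¹ = star (a * u g) := by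
        rw [star_mul, mul_assoc, (hcm.unit g⁻¹).1, mul_one, hcm.u_star]
      have e2 : u g⁻¹ * star a * star (u g⁻¹) * v g⁻¹ = star (a * v g) := by
        rw [star_mul, hv.adj, ← key g⁻¹ (star a) (star_mem ha)]
      rw [e1, e2] at h1
      exact h1
    | zero =>
      have e : (star (0 : (H →L[ℂ] H) × (H →L[ℂ] H)).1, star (0 : (H →L[ℂ] H) × (H →L[ℂ] H)).2) =
          (0 : (H →L[ℂ] H) × (H →L[ℂ] H)) := by ext1 <;> simp
      rw [e]
      exact (Gr A u v).zero_mem
    | add x y _ _ hx hy =>
      have := (Gr A u v).add_mem hx hy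
      simpa using this
    | smul c x _ hx =>
      have := (Gr A u v).smul_mem (star c) hx
      simpa using this
  · intro p hp
    induction hp using Submodule.span_induction with
    | mem p hp =>
      obtain ⟨a, ha, g, rfl⟩ := hp
      exact mul_mem (hcm.le a ha) (hcm.u_mem g)
    | zero => exact zero_mem M
    | add x y _ _ hx hy => exact add_mem hx hy
    | smul c x _ hx => exact Den_smul hx c
  · intro p hp
    induction hp using Submodule.span_induction with
    | mem p hp =>
      obtain ⟨a, ha, g, rfl⟩ := hp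
      exact mul_mem (h.AN a ha) (hv.lift g).memN
    | zero => exact zero_mem N
    | add x y _ _ hx hy => exact add_mem hx hy
    | smul c x _ hx => exact Den_smul hx c
  · intro p hp
    induction hp using Submodule.span_induction with
    | mem p hp =>
      obtain ⟨a, ha, g, rfl⟩ := hp
      by_cases hg : g = 1
      · subst hg
        simp only [hcm.u_one, hv.one]
      · show τ (a * u g) = τ (a * v g)
        rw [hcm.u_free g hg a ha, hv.free g hg a ha]
    | zero => rfl
    | add x y _ _ hx hy =>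
      show τ (x.1 + y.1) = τ (x.2 + y.2)
      rw [map_add, map_add, hx, hy]
    | smul c x _ hx =>
      show τ (c • x.1) = τ (c • x.2)
      rw [map_smul, map_smul, hx]

/-- an element of the graph is `(∑_{g ∈ F} a_g u_g, ∑_{g ∈ F} a_g v_g)` -/
theorem mem_Gr {p : (H →L[ℂ] H) × (H →L[ℂ] H)} (hp : p ∈ Gr A u v) :
    ∃ (F : Finset Γ) (a : Γ → H →L[ℂ] H), (∀ g, a g ∈ A) ∧ p.1 = ∑ g ∈ F, a g * u g ∧
      p.2 = ∑ g ∈ F, a g * v g := by
  classical
  induction hp using Submodule.span_induction with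
  | mem p hp =>
    obtain ⟨a, ha, g, rfl⟩ := hp
    exact ⟨{g}, fun _ => a, fun _ => ha, by simp, by simp⟩
  | zero => exact ⟨∅, fun _ => 0, fun _ => zero_mem A, by simp, by simp⟩
  | add x y _ _ hx hy =>
    obtain ⟨F, a, ha, h1, h2⟩ := hx
    obtain ⟨F', a', ha', h1', h2'⟩ := hy
    refine ⟨F ∪ F', fun g => (if g ∈ F then a g else 0) + (if g ∈ F' then a' g else 0),
      ?_, ?_, ?_⟩
    · intro g
      refine add_mem ?_ ?_
      · split_ifs
        · exact ha g
        · exact zero_mem A
      · split_ifs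
        · exact ha' g
        · exact zero_mem A
    · have e1 : ∀ w : Γ → H →L[ℂ] H, ∑ g ∈ F ∪ F', ((if g ∈ F then a g else 0) +
          (if g ∈ F' then a' g else 0)) * w g = ∑ g ∈ F, a g * w g + ∑ g ∈ F', a' g * w g := by
        intro w
        simp only [add_mul, Finset.sum_add_distrib, ite_mul, zero_mul]
        congr 1
        · rw [Finset.sum_ite_mem, Finset.union_inter_cancel_left]
        · rw [Finset.sum_ite_mem, Finset.union_inter_cancel_right]
      rw [e1, ← h1, ← h1']
      rfl
    · have e1 : ∀ w : Γ → H →L[ℂ] H, ∑ g ∈ F ∪ F', ((if g ∈ F then a g else 0) +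
          (if g ∈ F' then a' g else 0)) * w g = ∑ g ∈ F, a g * w g + ∑ g ∈ F', a' g * w g := by
        intro w
        simp only [add_mul, Finset.sum_add_distrib, ite_mul, zero_mul]
        congr 1
        · rw [Finset.sum_ite_mem, Finset.union_inter_cancel_left]
        · rw [Finset.sum_ite_mem, Finset.union_inter_cancel_right]
      rw [e1, ← h2, ← h2']
      rfl
  | smul c x _ hx =>
    obtain ⟨F, a, ha, h1, h2⟩ := hx
    refine ⟨F, fun g => c • a g, fun g => Den_smul (ha g) c, ?_, ?_⟩
    · show c • x.1 = _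
      rw [h1, Finset.smul_sum]
      exact Finset.sum_congr rfl fun g _ => (smul_mul_assoc _ _ _).symm
    · show c • x.2 = _
      rw [h2, Finset.smul_sum]
      exact Finset.sum_congr rfl fun g _ => (smul_mul_assoc _ _ _).symm

/-- (10.4) -/
theorem Sit.dense_M (h : Sit M N A τ u k e κ) (hv : Lifts M N A τ u v) {y : H →L[ℂ] H}
    (hy : y ∈ M) {ε : ℝ} (hε : 0 < ε) : ∃ p ∈ Gr A u v, n2 τ (y - p.1) < ε := by
  have hG := h.grS hv
  have hcm := h.cm
  obtain ⟨s, hs, hsy⟩ := dens hcm.trace ((Gr A u v).map (LinearMap.fst ℂ _ _))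
    ⟨(1, 1), hG.one, rfl⟩
    (by
      rintro _ ⟨p, hp, rfl⟩ _ ⟨q, hq, rfl⟩
      exact ⟨_, hG.mul p hp q hq, rfl⟩)
    (by
      rintro _ ⟨p, hp, rfl⟩
      exact ⟨_, hG.adj p hp, rfl⟩)
    (by
      rintro _ ⟨p, hp, rfl⟩
      exact hG.memM p hp)
    (by
      intro T hT x hx
      refine hcm.gen T ?_ ?_ x hx
      · intro a ha
        have := hT (a * u 1) ⟨_, Den_gen (v := v) ha 1, rfl⟩
        rwa [hcm.u_one, mul_one] at this
      · intro g
        have := hT (1 * u g) ⟨_, Den_gen (v := v) (one_mem A) g, rfl⟩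
        rwa [one_mul] at this)
    hy hε
  obtain ⟨p, hp, rfl⟩ := hs
  exact ⟨p, hp, hsy⟩

end Pool.Agent.KKS

end

section

/-!
# Den1: approximate freeness
-/


open Filter Topology

namespace Pool.Agent.KKS

variable {H : Type*} [NormedAddCommGroup H] [InnerProductSpace ℂ H] [CompleteSpace H]
variable {Γ : Type*} [Group Γ] {M N A : VonNeumannAlgebra H} {u v : Γ → H →L[ℂ] H}
  {τ : (H →L[ℂ] H) →L[ℂ] ℂ} {k : ℕ → ℕ} {e : ∀ n, Fin (k n) → Fin (k n) → H →L[ℂ] H} {κ : ℝ}

private theorem Den1_eq (e : ∀ n, Fin (k n) → Fin (k n) → H →L[ℂ] H) (T : H →L[ℂ] H) (n : ℕ) :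
    ∑ i, e n i i * (T * e n i i * star T) = (∑ i, e n i i * T * e n i i) * star T := by
  rw [Finset.sum_mul]
  exact Finset.sum_congr rfl fun i _ => by noncomm_ring

/-- approximate freeness: `z_n = ∑ᵢ e_ii σ_g(e_ii)`, `z_n u_g = ∑ e_ii u_g e_ii`, so `wlim z_n = EA(u_g) u_g⋆ = 0` -/
theorem Sit.approx_free (h : Sit M N A τ u k e κ) {g : Γ} (hg : g ≠ 1) :
    Tendsto (fun n => (τ (∑ i, e n i i * (u g * e n i i * star (u g)))).re) UF (𝓝 0) := by
  have hcm := h.cm
  have hb0 : Bdd (fun n => ∑ i, e n i i * u g * e n i i) :=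
    ⟨‖u g‖, fun n => h.sys.EA_bdd (u g) n⟩
  have hb : Bdd (fun n => (∑ i, e n i i * u g * e n i i) * star (u g)) := hb0.mul (Bdd.const _)
  have hmem : ∀ n i, e n i i ∈ M := fun n i => (h.sys.mu n).mem i i
  have hm : ∀ n, (∑ i, e n i i * u g * e n i i) * star (u g) ∈ M := by
    intro n
    refine mul_mem (sum_mem fun i _ => ?_) (star_mem (hcm.u_mem g))
    exact mul_mem (mul_mem (hmem n i) (hcm.u_mem g)) (hmem n i)
  have h1 := hcm.trace.lim hb hm
  have h2 : wlim (fun n => (∑ i, e n i i * u g * e n i i) * star (u g)) = 0 := by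
    rw [wlim_mul_right hb0]
    have h3 : wlim (fun n => ∑ i, e n i i * u g * e n i i) = EA e (u g) := rfl
    rw [h3, Sys.EA_u hcm h.sys hg, zero_mul]
  rw [h2] at h1
  have h3 : τ (0 : H →L[ℂ] H) = 0 := map_zero τ
  rw [h3] at h1
  have h4 := (Complex.continuous_re.tendsto 0).comp h1
  rw [Complex.zero_re] at h4
  refine h4.congr fun n => ?_
  show (τ _).re = (τ _).re
  rw [Den1_eq]

private theorem Den1_cut (hA : ∀ a ∈ A, ∀ b ∈ A, a * b = b * a) (hAM : ∀ a ∈ A, a ∈ M)
    (hτ : IsTrace M τ) {E : H →L[ℂ] H} (hE : E ∈ A) (hPE : PJ E) {ι : Type*} (s : Finset ι)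
    (q : ι → H →L[ℂ] H) (hq : ∀ i, q i ∈ A ∧ PJ (q i)) :
    ∃ r ∈ A, PJ r ∧ E * r = r ∧ (∀ i ∈ s, r * q i = 0) ∧
      (τ (E - r)).re ≤ ∑ i ∈ s, (τ (E * q i)).re := by
  classical
  induction s using Finset.induction_on with
  | empty =>
    refine ⟨E, hE, hPE, hPE.idem, fun i hi => absurd hi (Finset.notMem_empty i), ?_⟩
    simp
  | insert j s hj ih =>
    obtain ⟨r, hr, hPr, hEr, hrq, ht⟩ := ih
    have hqj := hq j
    have hrE : r * E = r := by rw [hA r hr E hE, hEr]
    have hrqj : r * q j ∈ A := mul_mem hr hqj.1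
    have hPrq : PJ (r * q j) := hPr.mul hqj.2 (hA r hr _ hqj.1)
    have hr' : r - r * q j ∈ A := sub_mem hr hrqj
    refine ⟨r - r * q j, hr', ?_, ?_, ?_, ?_⟩
    · apply hPr.sub hPrq
      rw [← mul_assoc, hPr.idem]
    · rw [mul_sub, ← mul_assoc, hEr]
    · intro i hi
      rcases Finset.mem_insert.1 hi with rfl | hi
      · rw [sub_mul, mul_assoc, hqj.2.idem, sub_self]
      · rw [sub_mul, mul_assoc, hA (q j) hqj.1 (q i) (hq i).1, ← mul_assoc, hrq i hi, zero_mul,
          sub_zero]
    · rw [Finset.sum_insert hj]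
      have e1 : E - (r - r * q j) = (E - r) + r * q j := by noncomm_ring
      rw [e1, map_add, Complex.add_re]
      have h2 : (τ (r * q j)).re ≤ (τ (E * q j)).re := by
        refine hτ.mono (hAM _ hrqj) (hAM _ (mul_mem hE hqj.1)) ?_
        rw [← sub_nonneg, ← sub_mul]
        have h3 : PJ (E - r) := hPE.sub hPr hEr
        exact (h3.mul hqj.2 (hA _ (sub_mem hE hr) _ hqj.1)).nonneg
      linarith

/-- (10.1) -/
theorem Sit.free_pieces (h : Sit M N A τ u k e κ) (F : Finset Γ) {ε : ℝ} (hε : 0 < ε) :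
    ∃ (m : ℕ) (r : Fin m → H →L[ℂ] H), (∀ i, r i ∈ A ∧ PJ (r i)) ∧
      (∀ i j, i ≠ j → r i * r j = 0) ∧ (τ (1 - ∑ i, r i)).re < ε ∧
      ∀ i, ∀ g ∈ F, ∀ g' ∈ F, g ≠ g' →
        (star (u g) * r i * u g) * (star (u g') * r i * u g') = 0 := by
  classical
  have hcm := h.cm
  let S : Finset Γ := ((F ×ˢ F).image fun p => p.1 * p.2⁻¹).erase 1
  have hS : ∀ s ∈ S, s ≠ 1 := fun s hs => (Finset.mem_erase.1 hs).1
  have h1 : Tendsto (fun n => ∑ s ∈ S, (τ (∑ i, e n i i * (u s * e n i i * star (u s)))).re)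
      UF (𝓝 0) := by
    have := tendsto_finsetSum S (fun s hs => h.approx_free (hS s hs))
    simpa using this
  obtain ⟨n, hn⟩ := (h1.eventually (gt_mem_nhds hε)).exists
  have hmu := h.sys.mu n
  have key : ∀ i : Fin (k n), ∃ r ∈ A, PJ r ∧ e n i i * r = r ∧
      (∀ s ∈ S, r * (u s * e n i i * star (u s)) = 0) ∧
      (τ (e n i i - r)).re ≤ ∑ s ∈ S, (τ (e n i i * (u s * e n i i * star (u s)))).re := by
    intro i
    refine Den1_cut hcm.comm hcm.le hcm.trace (hmu.diag i) (hmu.pj i) S
      (fun s => u s * e n i i * star (u s)) fun s => ?_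
    refine ⟨hcm.u_norm s _ (hmu.diag i), ?_, ?_⟩
    · calc u s * e n i i * star (u s) * (u s * e n i i * star (u s))
          = u s * e n i i * (star (u s) * u s) * e n i i * star (u s) := by noncomm_ring
        _ = u s * (e n i i * e n i i) * star (u s) := by rw [(hcm.unit s).1]; noncomm_ring
        _ = u s * e n i i * star (u s) := by rw [(hmu.pj i).idem]
    · rw [star_mul, star_mul, star_star, (hmu.pj i).sa]
      noncomm_ring
  choose r hrA hPr hEr hrq hrt using key
  have hrE : ∀ i, r i * e n i i = r i := fun i => by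
    rw [hcm.comm _ (hrA i) _ (hmu.diag i), hEr]
  refine ⟨k n, r, fun i => ⟨hrA i, hPr i⟩, ?_, ?_, ?_⟩
  · intro i j hij
    calc r i * r j = (r i * e n i i) * (e n j j * r j) := by rw [hrE, hEr]
      _ = r i * (e n i i * e n j j) * r j := by noncomm_ring
      _ = 0 := by rw [hmu.orth i i j j hij, mul_zero, zero_mul]
  · have e1 : (1 : H →L[ℂ] H) - ∑ i, r i = ∑ i, (e n i i - r i) := by
      rw [Finset.sum_sub_distrib, hmu.sum]
    rw [e1, map_sum, Complex.re_sum]
    refine lt_of_le_of_lt (Finset.sum_le_sum fun i _ => hrt i) ?_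
    rw [Finset.sum_comm]
    refine lt_of_le_of_lt (le_of_eq ?_) hn
    refine Finset.sum_congr rfl fun s _ => ?_
    rw [map_sum, Complex.re_sum]
  · intro i g hg g' hg' hgg
    have hs : g * g'⁻¹ ∈ S := by
      refine Finset.mem_erase.2 ⟨?_, ?_⟩
      · intro h2
        exact hgg (mul_inv_eq_one.1 h2)
      · exact Finset.mem_image.2 ⟨(g, g'), Finset.mem_product.2 ⟨hg, hg'⟩, rfl⟩
    have h2 := hrq i _ hs
    set s := g * g'⁻¹ with hsdef
    have h3 : r i * u s * r i = 0 := by
      have h4 : u s * r i = (u s * e n i i * star (u s)) * u s * r i := by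
        calc u s * r i = u s * (e n i i * r i) := by rw [hEr]
          _ = u s * e n i i * 1 * r i := by noncomm_ring
          _ = u s * e n i i * (star (u s) * u s) * r i := by rw [(hcm.unit s).1]
          _ = (u s * e n i i * star (u s)) * u s * r i := by noncomm_ring
      rw [mul_assoc, h4]
      calc r i * ((u s * e n i i * star (u s)) * u s * r i)
          = (r i * (u s * e n i i * star (u s))) * u s * r i := by noncomm_ring
        _ = 0 := by rw [h2, zero_mul, zero_mul]
    have h4 : u g * star (u g') = u s := by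
      rw [hcm.u_star, hsdef, hcm.u_mul]
    calc (star (u g) * r i * u g) * (star (u g') * r i * u g')
        = star (u g) * (r i * (u g * star (u g')) * r i) * u g' := by noncomm_ring
      _ = 0 := by rw [h4, h3, mul_zero, zero_mul]

end Pool.Agent.KKS

end

section

/-!
# Den1a: Fourier coefficients
-/


open Filter Topology

namespace Pool.Agent.KKS

variable {H : Type*} [NormedAddCommGroup H] [InnerProductSpace ℂ H] [CompleteSpace H]
variable {Γ : Type*} [Group Γ] {M N A : VonNeumannAlgebra H} {u v : Γ → H →L[ℂ] H}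
  {τ : (H →L[ℂ] H) →L[ℂ] ℂ} {k : ℕ → ℕ} {e : ∀ n, Fin (k n) → Fin (k n) → H →L[ℂ] H} {κ : ℝ}

/-- the Fourier coefficients -/
noncomputable def fc {k : ℕ → ℕ} (e : ∀ n, Fin (k n) → Fin (k n) → H →L[ℂ] H)
    (v : Γ → H →L[ℂ] H) (x : H →L[ℂ] H) (g : Γ) : H →L[ℂ] H := EA e (x * star (v g))

/-- properties of the Fourier coefficients for `N` -/
theorem Sit.fc_N (h : Sit M N A τ u k e κ) (hv : Lifts M N A τ u v) {x : H →L[ℂ] H}
    (hx : x ∈ N) (g : Γ) : fc e v x g ∈ A ∧ ∀ a ∈ A, τ (fc e v x g * a) = τ (x * star (v g) * a) := by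
  have hcm := h.cm
  have hT : x * star (v g) ∈ N := mul_mem hx (star_mem (hv.lift g).memN)
  have hN : EA e (x * star (v g)) ∈ N := h.sys.EA_mem h.eN hT
  have hc : ∀ a ∈ A, EA e (x * star (v g)) * a = a * EA e (x * star (v g)) :=
    Sys.comm_A hcm h.sys fun n i => h.sys.EA_comm _ n i
  refine ⟨h.masaN _ hN hc, ?_⟩
  intro a ha
  have hac : ∀ n i, a * e n i i = e n i i * a := fun n i =>
    hcm.comm a ha _ ((h.sys.mu n).diag i)
  have h1 : EA e (x * star (v g)) * a = EA e (x * star (v g) * a) := by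
    have := h.sys.EA_mod (a := 1) (b := a) (fun n i => by rw [one_mul, mul_one]) hac
      (x * star (v g))
    rw [one_mul, one_mul] at this
    exact this.symm
  show τ (EA e (x * star (v g)) * a) = _
  rw [h1]
  exact h.sys.EA_trace h.trN h.eN (mul_mem hT (h.AN a ha))

/-- properties of the Fourier coefficients for `M` -/
theorem Sit.fc_M (h : Sit M N A τ u k e κ) {y : H →L[ℂ] H}
    (hy : y ∈ M) (g : Γ) : fc e u y g ∈ A ∧ ∀ a ∈ A, τ (fc e u y g * a) = τ (y * star (u g) * a) :=
  Sys.EA_M h.cm h.sys (mul_mem hy (star_mem (h.cm.u_mem g)))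

end Pool.Agent.KKS

end

section

/-!
# Den1b: Bessel inequality
-/


open Filter Topology

namespace Pool.Agent.KKS

variable {H : Type*} [NormedAddCommGroup H] [InnerProductSpace ℂ H] [CompleteSpace H]
variable {Γ : Type*} [Group Γ] {M N A : VonNeumannAlgebra H} {u v : Γ → H →L[ℂ] H}
  {τ : (H →L[ℂ] H) →L[ℂ] ℂ} {k : ℕ → ℕ} {e : ∀ n, Fin (k n) → Fin (k n) → H →L[ℂ] H} {κ : ℝ}

private theorem Den1b_sum_pj {ι : Type*} (s : Finset ι) (p : ι → H →L[ℂ] H)
    (hp : ∀ i ∈ s, PJ (p i)) (h0 : ∀ i ∈ s, ∀ j ∈ s, i ≠ j → p i * p j = 0) :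
    PJ (∑ i ∈ s, p i) := by
  classical
  constructor
  · rw [Finset.sum_mul]
    refine Finset.sum_congr rfl fun i hi => ?_
    rw [Finset.mul_sum, Finset.sum_eq_single i]
    · exact (hp i hi).idem
    · intro j hj hji
      exact h0 i hi j hj hji.symm
    · intro h
      exact absurd hi h
  · rw [star_sum]
    exact Finset.sum_congr rfl fun i hi => (hp i hi).sa

/-- one piece of the Bessel inequality (10.2): `r ∈ A` a projection such that the `σ_g⁻¹(r)`, `g ∈ F`, are
orthogonal.  `P_n = ∑ᵢ (e_ii r) T (∑_g σ_g⁻¹(e_ii r))` has norm `≤ ‖r T‖` (`norm_pinch_le`), its weak limit is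
`X = ∑_g r EA(T u_g⋆) r u_g = ∑_g r T_g`, and `X X⋆ = ∑_g r T_g T_g⋆ r`. -/
theorem Sit.bessel_piece (h : Sit M N A τ u k e κ) (F : Finset Γ) {r T : H →L[ℂ] H} (hr : r ∈ A)
    (hPr : PJ r) (hf : ∀ g ∈ F, ∀ g' ∈ F, g ≠ g' →
      (star (u g) * r * u g) * (star (u g') * r * u g') = 0) :
    ∑ g ∈ F, (τ (r * (EA e (T * star (u g)) * star (EA e (T * star (u g)))))).re ≤
      ‖r * T‖ ^ 2 * (τ r).re := by
  classical
  have hcm := h.cm
  have hdiag : ∀ n i, e n i i ∈ A := fun n i => (h.sys.mu n).diag i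
  have hpj : ∀ n i, PJ (e n i i) := fun n i => (h.sys.mu n).pj i
  have hre : ∀ n i, r * e n i i = e n i i * r := fun n i => hcm.comm r hr _ (hdiag n i)
  let Tg : Γ → H →L[ℂ] H := fun g => EA e (T * star (u g))
  have hTc : ∀ g, ∀ a ∈ A, Tg g * a = a * Tg g := fun g =>
    Sys.comm_A hcm h.sys fun n i => h.sys.EA_comm _ n i
  have hTc' : ∀ g, ∀ a ∈ A, star (Tg g) * a = a * star (Tg g) := by
    intro g a ha
    have := congrArg star (hTc g (star a) (star_mem ha))
    rw [star_mul, star_mul, star_star] at this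
    exact this.symm
  -- the projections
  have hqP : ∀ n i, PJ (e n i i * r) := fun n i => (hpj n i).mul hPr (hre n i).symm
  have hpP : ∀ n i g, PJ (star (u g) * (e n i i * r) * u g) := by
    intro n i g
    constructor
    · calc star (u g) * (e n i i * r) * u g * (star (u g) * (e n i i * r) * u g)
          = star (u g) * (e n i i * r) * (u g * star (u g)) * (e n i i * r) * u g := by
            noncomm_ring
        _ = star (u g) * ((e n i i * r) * (e n i i * r)) * u g := by
            rw [(hcm.unit g).2]; noncomm_ring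
        _ = star (u g) * (e n i i * r) * u g := by rw [(hqP n i).idem]
    · rw [star_mul, star_mul, star_star, (hqP n i).sa]
      noncomm_ring
  have hporth : ∀ n i j, ∀ g ∈ F, ∀ g' ∈ F, g ≠ g' →
      (star (u g) * (e n i i * r) * u g) * (star (u g') * (e n j j * r) * u g') = 0 := by
    intro n i j g hg g' hg' hgg
    have e1 : star (u g) * (e n i i * r) * u g =
        (star (u g) * e n i i * u g) * (star (u g) * r * u g) := by
      calc star (u g) * (e n i i * r) * u g
          = star (u g) * e n i i * 1 * r * u g := by noncomm_ring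
        _ = star (u g) * e n i i * (u g * star (u g)) * r * u g := by rw [(hcm.unit g).2]
        _ = _ := by noncomm_ring
    have e2 : star (u g') * (e n j j * r) * u g' =
        (star (u g') * r * u g') * (star (u g') * e n j j * u g') := by
      calc star (u g') * (e n j j * r) * u g'
          = star (u g') * r * 1 * e n j j * u g' := by rw [← hre]; noncomm_ring
        _ = star (u g') * r * (u g' * star (u g')) * e n j j * u g' := by rw [(hcm.unit g').2]
        _ = _ := by noncomm_ring
    rw [e1, e2]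
    calc (star (u g) * e n i i * u g) * (star (u g) * r * u g) *
          ((star (u g') * r * u g') * (star (u g') * e n j j * u g'))
        = (star (u g) * e n i i * u g) * ((star (u g) * r * u g) * (star (u g') * r * u g')) *
          (star (u g') * e n j j * u g') := by noncomm_ring
      _ = 0 := by rw [hf g hg g' hg' hgg, mul_zero, zero_mul]
  have hee : ∀ n i j, i ≠ j → (e n i i * r) * (e n j j * r) = 0 := by
    intro n i j hij
    calc (e n i i * r) * (e n j j * r) = e n i i * (r * e n j j) * r := by noncomm_ring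
      _ = (e n i i * e n j j) * (r * r) := by rw [hre]; noncomm_ring
      _ = 0 := by rw [(h.sys.mu n).orth i i j j hij, zero_mul]
  let p : ∀ n, Fin (k n) → H →L[ℂ] H := fun n i => ∑ g ∈ F, star (u g) * (e n i i * r) * u g
  have hp : ∀ n i, PJ (p n i) := fun n i => Den1b_sum_pj F _ (fun g _ => hpP n i g)
    (fun g hg g' hg' hgg => hporth n i i g hg g' hg' hgg)
  have hpo : ∀ n i j, i ≠ j → p n i * p n j = 0 := by
    intro n i j hij
    show (∑ g ∈ F, star (u g) * (e n i i * r) * u g) *
      (∑ g ∈ F, star (u g) * (e n j j * r) * u g) = 0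
    rw [Finset.sum_mul]
    refine Finset.sum_eq_zero fun g hg => ?_
    rw [Finset.mul_sum]
    refine Finset.sum_eq_zero fun g' hg' => ?_
    by_cases hgg : g = g'
    · subst hgg
      calc star (u g) * (e n i i * r) * u g * (star (u g) * (e n j j * r) * u g)
          = star (u g) * (e n i i * r) * (u g * star (u g)) * (e n j j * r) * u g := by
            noncomm_ring
        _ = star (u g) * ((e n i i * r) * (e n j j * r)) * u g := by
            rw [(hcm.unit g).2]; noncomm_ring
        _ = 0 := by rw [hee n i j hij, mul_zero, zero_mul]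
    · exact hporth n i j g hg g' hg' hgg
  have hnorm : ∀ n, ‖∑ i, (e n i i * r) * (r * T) * p n i‖ ≤ ‖r * T‖ := fun n =>
    norm_pinch_le Finset.univ (r * T) (hp n) (hqP n) (fun i _ j _ hij => hpo n i j hij)
      (fun i _ j _ hij => hee n i j hij)
  -- the weak limit
  let X : H →L[ℂ] H := ∑ g ∈ F, r * Tg g * r * u g
  have hPn : ∀ n, ∑ i, (e n i i * r) * (r * T) * p n i =
      ∑ g ∈ F, (∑ i, e n i i * (r * (T * star (u g)) * 1) * e n i i) * (r * u g) := by
    intro n
    have e1 : ∀ i, (e n i i * r) * (r * T) * p n i =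
        ∑ g ∈ F, e n i i * (r * (T * star (u g)) * 1) * e n i i * (r * u g) := by
      intro i
      show (e n i i * r) * (r * T) * (∑ g ∈ F, star (u g) * (e n i i * r) * u g) = _
      rw [Finset.mul_sum]
      refine Finset.sum_congr rfl fun g _ => ?_
      calc (e n i i * r) * (r * T) * (star (u g) * (e n i i * r) * u g)
          = e n i i * (r * r) * T * star (u g) * e n i i * r * u g := by noncomm_ring
        _ = e n i i * r * T * star (u g) * e n i i * r * u g := by rw [hPr.idem]
        _ = _ := by noncomm_ring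
    rw [Finset.sum_congr rfl fun i _ => e1 i, Finset.sum_comm]
    refine Finset.sum_congr rfl fun g _ => ?_
    rw [Finset.sum_mul]
  have hbg : ∀ g, Bdd (fun n => ∑ i, e n i i * (r * (T * star (u g)) * 1) * e n i i) :=
    fun g => ⟨_, fun n => h.sys.EA_bdd (r * (T * star (u g)) * 1) n⟩
  have hX : wlim (fun n => ∑ i, (e n i i * r) * (r * T) * p n i) = X := by
    have e1 : (fun n => ∑ i, (e n i i * r) * (r * T) * p n i) =
        fun n => ∑ g ∈ F, (fun n => (∑ i, e n i i * (r * (T * star (u g)) * 1) * e n i i) *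
          (r * u g)) n := funext hPn
    rw [e1, wlim_finsum F (T := fun g n => (∑ i, e n i i * (r * (T * star (u g)) * 1) * e n i i) *
          (r * u g)) (fun g => (hbg g).mul (Bdd.const _))]
    refine Finset.sum_congr rfl fun g _ => ?_
    rw [wlim_mul_right (hbg g)]
    have e2 : wlim (fun n => ∑ i, e n i i * (r * (T * star (u g)) * 1) * e n i i) =
        EA e (r * (T * star (u g)) * 1) := rfl
    rw [e2, h.sys.EA_mod (a := r) (b := 1) (fun n i => hre n i)
      (fun n i => by rw [one_mul, mul_one])]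
    show r * Tg g * 1 * (r * u g) = r * Tg g * r * u g
    noncomm_ring
  have hXn : ‖X‖ ≤ ‖r * T‖ := by
    rw [← hX]
    exact norm_wlim_le hnorm
  -- `X X⋆`
  have hXX : X * star X = ∑ g ∈ F, r * (Tg g * star (Tg g)) := by
    have e1 : star X = ∑ g ∈ F, star (u g) * r * star (Tg g) * r := by
      show star (∑ g ∈ F, r * Tg g * r * u g) = _
      rw [star_sum]
      refine Finset.sum_congr rfl fun g _ => ?_
      rw [star_mul, star_mul, star_mul, hPr.sa]
      noncomm_ring
    rw [e1]
    show (∑ g ∈ F, r * Tg g * r * u g) * _ = _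
    rw [Finset.sum_mul]
    refine Finset.sum_congr rfl fun g hg => ?_
    rw [Finset.mul_sum, Finset.sum_eq_single g]
    · calc r * Tg g * r * u g * (star (u g) * r * star (Tg g) * r)
          = r * Tg g * r * (u g * star (u g)) * r * star (Tg g) * r := by noncomm_ring
        _ = r * Tg g * (r * r) * (star (Tg g) * r) := by rw [(hcm.unit g).2]; noncomm_ring
        _ = r * (Tg g * r) * (r * star (Tg g)) := by rw [hPr.idem, hTc' g r hr]; noncomm_ring
        _ = (r * r) * Tg g * (r * star (Tg g)) := by rw [hTc g r hr]; noncomm_ring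
        _ = r * (Tg g * r) * star (Tg g) := by rw [hPr.idem]; noncomm_ring
        _ = (r * r) * Tg g * star (Tg g) := by rw [hTc g r hr]; noncomm_ring
        _ = r * (Tg g * star (Tg g)) := by rw [hPr.idem]; noncomm_ring
    · intro g' hg' hgg
      have h1 : r * u g * star (u g') * r = 0 := by
        have h2 := hf g hg g' hg' hgg.symm
        calc r * u g * star (u g') * r
            = (u g * star (u g)) * r * u g * star (u g') * r * (u g' * star (u g')) := by
              rw [(hcm.unit g).2, (hcm.unit g').2]; noncomm_ring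
          _ = u g * ((star (u g) * r * u g) * (star (u g') * r * u g')) * star (u g') := by
              noncomm_ring
          _ = 0 := by rw [h2, mul_zero, zero_mul]
      calc r * Tg g * r * u g * (star (u g') * r * star (Tg g') * r)
          = r * Tg g * (r * u g * star (u g') * r) * star (Tg g') * r := by noncomm_ring
        _ = 0 := by rw [h1, mul_zero, zero_mul, zero_mul]
    · intro h1
      exact absurd hg h1
  have hrX : r * X = X := by
    show r * (∑ g ∈ F, r * Tg g * r * u g) = ∑ g ∈ F, r * Tg g * r * u g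
    rw [Finset.mul_sum]
    refine Finset.sum_congr rfl fun g _ => ?_
    calc r * (r * Tg g * r * u g) = (r * r) * Tg g * r * u g := by noncomm_ring
      _ = _ := by rw [hPr.idem]
  have hXr : star X * r = star X := by
    have := congrArg star hrX
    rwa [star_mul, hPr.sa] at this
  have h1 : ‖τ (X * star X)‖ ≤ ‖X * star X‖ * (τ r).re := by
    refine h.pos.corner hPr ?_
    calc r * (X * star X) * r = (r * X) * (star X * r) := by noncomm_ring
      _ = X * star X := by rw [hrX, hXr]
  have hr0 : 0 ≤ (τ r).re := (h.pos.nonneg hPr.nonneg).1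
  have h2 : ‖X * star X‖ ≤ ‖r * T‖ ^ 2 := by
    rw [CStarRing.norm_self_mul_star]
    nlinarith [norm_nonneg X, norm_nonneg (r * T)]
  calc ∑ g ∈ F, (τ (r * (EA e (T * star (u g)) * star (EA e (T * star (u g)))))).re
      = (τ (X * star X)).re := by
        rw [hXX, map_sum, Complex.re_sum]
    _ ≤ ‖τ (X * star X)‖ := Complex.re_le_norm _
    _ ≤ ‖X * star X‖ * (τ r).re := h1
    _ ≤ ‖r * T‖ ^ 2 * (τ r).re := mul_le_mul_of_nonneg_right h2 hr0

/-- (10.2) -/
theorem Sit.bessel (h : Sit M N A τ u k e κ) (F : Finset Γ) {E T : H →L[ℂ] H} (hE : E ∈ A)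
    (hPE : PJ E) :
    ∑ g ∈ F, (τ (E * (EA e (T * star (u g)) * star (EA e (T * star (u g)))))).re ≤
      ‖E * T‖ ^ 2 * (τ E).re := by
  classical
  have hcm := h.cm
  let Tg : Γ → H →L[ℂ] H := fun g => EA e (T * star (u g))
  have hTc : ∀ g, ∀ a ∈ A, Tg g * a = a * Tg g := fun g =>
    Sys.comm_A hcm h.sys fun n i => h.sys.EA_comm _ n i
  have hTc' : ∀ g, ∀ a ∈ A, star (Tg g) * a = a * star (Tg g) := by
    intro g a ha
    have := congrArg star (hTc g (star a) (star_mem ha))
    rw [star_mul, star_mul, star_star] at this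
    exact this.symm
  have hTT : ∀ g, ‖Tg g * star (Tg g)‖ ≤ ‖T‖ ^ 2 := by
    intro g
    rw [CStarRing.norm_self_mul_star]
    have h1 : ‖Tg g‖ ≤ ‖T‖ := by
      calc ‖Tg g‖ ≤ ‖T * star (u g)‖ := h.sys.EA_norm _
        _ ≤ ‖T‖ * ‖star (u g)‖ := norm_mul_le _ _
        _ ≤ ‖T‖ * 1 := by
            refine mul_le_mul_of_nonneg_left ?_ (norm_nonneg _)
            have h2 : ‖u g * star (u g)‖ ≤ 1 := by
              rw [(hcm.unit g).2]
              exact ContinuousLinearMap.norm_id_le
            rw [CStarRing.norm_self_mul_star] at h2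
            rw [norm_star]
            nlinarith [norm_nonneg (u g)]
        _ = ‖T‖ := mul_one _
    nlinarith [norm_nonneg (Tg g), norm_nonneg T]
  have hτE : 0 ≤ (τ E).re := (h.pos.nonneg hPE.nonneg).1
  have key : ∀ ε : ℝ, 0 < ε → ∑ g ∈ F, (τ (E * (Tg g * star (Tg g)))).re ≤
      ‖E * T‖ ^ 2 * (τ E).re + F.card * ‖T‖ ^ 2 * ε := by
    intro ε hε
    obtain ⟨m, r, hr, hro, hrt, hrf⟩ := h.free_pieces F hε
    set ρ := ∑ i, r i with hρ
    have hρA : ρ ∈ A := sum_mem fun i _ => (hr i).1
    have hρP : PJ ρ := Den1b_sum_pj Finset.univ r (fun i _ => (hr i).2)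
      (fun i _ j _ hij => hro i j hij)
    have hEr : ∀ i, E * r i ∈ A := fun i => mul_mem hE (hr i).1
    have hEc : ∀ i, E * r i = r i * E := fun i => hcm.comm E hE _ (hr i).1
    have hErP : ∀ i, PJ (E * r i) := fun i => hPE.mul (hr i).2 (hEc i)
    -- the pieces
    have h1 : ∀ i, ∑ g ∈ F, (τ ((E * r i) * (Tg g * star (Tg g)))).re ≤
        ‖E * T‖ ^ 2 * (τ (E * r i)).re := by
      intro i
      have h2 := h.bessel_piece F (T := T) (hEr i) (hErP i) (by
        intro g hg g' hg' hgg
        calc (star (u g) * (E * r i) * u g) * (star (u g') * (E * r i) * u g')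
            = star (u g) * E * 1 * r i * u g * (star (u g') * (r i * E) * u g') := by
              rw [← hEc i]; noncomm_ring
          _ = star (u g) * E * (u g * star (u g)) * r i * u g *
              (star (u g') * r i * 1 * E * u g') := by
              rw [(hcm.unit g).2]; noncomm_ring
          _ = star (u g) * E * (u g * star (u g)) * r i * u g *
              (star (u g') * r i * (u g' * star (u g')) * E * u g') := by
              rw [(hcm.unit g').2]
          _ = (star (u g) * E * u g) * ((star (u g) * r i * u g) * (star (u g') * r i * u g')) *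
              (star (u g') * E * u g') := by noncomm_ring
          _ = 0 := by rw [hrf i g hg g' hg' hgg, mul_zero, zero_mul])
      refine h2.trans ?_
      refine mul_le_mul_of_nonneg_right ?_ (h.pos.nonneg (hErP i).nonneg).1
      have h3 : ‖E * r i * T‖ ≤ ‖E * T‖ := by
        calc ‖E * r i * T‖ = ‖r i * (E * T)‖ := by rw [hEc i, mul_assoc]
          _ ≤ ‖r i‖ * ‖E * T‖ := norm_mul_le _ _
          _ ≤ 1 * ‖E * T‖ := mul_le_mul_of_nonneg_right (hr i).2.norm_le (norm_nonneg _)
          _ = ‖E * T‖ := one_mul _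
      nlinarith [norm_nonneg (E * r i * T), norm_nonneg (E * T)]
    have hsum : ∑ i, E * r i = E * ρ := by rw [hρ, Finset.mul_sum]
    have h2 : ∑ g ∈ F, (τ ((E * ρ) * (Tg g * star (Tg g)))).re ≤
        ‖E * T‖ ^ 2 * (τ (E * ρ)).re := by
      have e1 : ∀ g, (τ ((E * ρ) * (Tg g * star (Tg g)))).re =
          ∑ i, (τ ((E * r i) * (Tg g * star (Tg g)))).re := by
        intro g
        rw [← hsum, Finset.sum_mul, map_sum, Complex.re_sum]
      rw [Finset.sum_congr rfl fun g _ => e1 g, Finset.sum_comm]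
      refine (Finset.sum_le_sum fun i _ => h1 i).trans ?_
      rw [← Finset.mul_sum, ← Complex.re_sum, ← map_sum, hsum]
    have hEρc : E * ρ = ρ * E := hcm.comm E hE _ hρA
    have hEρP : PJ (E * ρ) := hPE.mul hρP hEρc
    have h3 : (τ (E * ρ)).re ≤ (τ E).re := by
      refine h.pos.mono ?_
      rw [← sub_nonneg]
      have h4 : E - E * ρ = E * (1 - ρ) := by noncomm_ring
      rw [h4]
      refine (hPE.mul hρP.compl ?_).nonneg
      rw [mul_sub, sub_mul, hEρc, mul_one, one_mul]
    -- the rest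
    have hq : PJ (E * (1 - ρ)) := by
      refine hPE.mul hρP.compl ?_
      rw [mul_sub, sub_mul, hEρc, mul_one, one_mul]
    have hqA : E * (1 - ρ) ∈ A := mul_mem hE (sub_mem (one_mem A) hρA)
    have hqt : (τ (E * (1 - ρ))).re ≤ ε := by
      refine le_trans (h.pos.mono ?_) hrt.le
      rw [← sub_nonneg]
      have h4 : (1 - ρ) - E * (1 - ρ) = (1 - E) * (1 - ρ) := by noncomm_ring
      rw [h4]
      refine (hPE.compl.mul hρP.compl ?_).nonneg
      have : E * ρ = ρ * E := hEρc
      calc (1 - E) * (1 - ρ) = 1 - E - ρ + E * ρ := by noncomm_ring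
        _ = 1 - E - ρ + ρ * E := by rw [this]
        _ = (1 - ρ) * (1 - E) := by noncomm_ring
    have h4 : ∀ g, (τ ((E * (1 - ρ)) * (Tg g * star (Tg g)))).re ≤ ‖T‖ ^ 2 * ε := by
      intro g
      set q := E * (1 - ρ) with hqdef
      have e1 : q * (q * (Tg g * star (Tg g))) * q = q * (Tg g * star (Tg g)) := by
        calc q * (q * (Tg g * star (Tg g))) * q
            = (q * q) * Tg g * (star (Tg g) * q) := by noncomm_ring
          _ = q * (Tg g * q) * star (Tg g) := by rw [hq.idem, hTc' g q hqA]; noncomm_ring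
          _ = (q * q) * (Tg g * star (Tg g)) := by rw [hTc g q hqA]; noncomm_ring
          _ = _ := by rw [hq.idem]
      have h5 := h.pos.corner hq e1
      have h6 : ‖q * (Tg g * star (Tg g))‖ ≤ ‖T‖ ^ 2 := by
        calc ‖q * (Tg g * star (Tg g))‖ ≤ ‖q‖ * ‖Tg g * star (Tg g)‖ := norm_mul_le _ _
          _ ≤ 1 * ‖T‖ ^ 2 := mul_le_mul hq.norm_le (hTT g) (norm_nonneg _) zero_le_one
          _ = ‖T‖ ^ 2 := one_mul _
      have hq0 : 0 ≤ (τ q).re := (h.pos.nonneg hq.nonneg).1
      calc (τ (q * (Tg g * star (Tg g)))).re ≤ ‖τ (q * (Tg g * star (Tg g)))‖ :=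
            Complex.re_le_norm _
        _ ≤ ‖q * (Tg g * star (Tg g))‖ * (τ q).re := h5
        _ ≤ ‖T‖ ^ 2 * ε := mul_le_mul h6 hqt hq0 (by positivity)
    have e2 : ∀ g, (τ (E * (Tg g * star (Tg g)))).re =
        (τ ((E * ρ) * (Tg g * star (Tg g)))).re +
          (τ ((E * (1 - ρ)) * (Tg g * star (Tg g)))).re := by
      intro g
      rw [← Complex.add_re, ← map_add]
      congr 2
      noncomm_ring
    rw [Finset.sum_congr rfl fun g _ => e2 g, Finset.sum_add_distrib]
    have h5 : ∑ g ∈ F, (τ ((E * (1 - ρ)) * (Tg g * star (Tg g)))).re ≤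
        F.card * ‖T‖ ^ 2 * ε := by
      refine (Finset.sum_le_sum fun g _ => h4 g).trans ?_
      rw [Finset.sum_const, nsmul_eq_mul, mul_assoc]
    have h6 : ‖E * T‖ ^ 2 * (τ (E * ρ)).re ≤ ‖E * T‖ ^ 2 * (τ E).re :=
      mul_le_mul_of_nonneg_left h3 (by positivity)
    linarith
  have h0 : 0 ≤ (F.card : ℝ) * ‖T‖ ^ 2 := by positivity
  refine le_of_forall_pos_le_add fun δ hδ => ?_
  have h1 := key (δ / (F.card * ‖T‖ ^ 2 + 1)) (by positivity)
  refine h1.trans ?_
  have h2 : (F.card : ℝ) * ‖T‖ ^ 2 * (δ / (F.card * ‖T‖ ^ 2 + 1)) ≤ δ := by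
    rw [mul_div_assoc', div_le_iff₀ (by positivity)]
    nlinarith
  linarith

end Pool.Agent.KKS

end

section

/-!
# Den2: comparison of Fourier coefficients
-/


open Filter Topology

namespace Pool.Agent.KKS

variable {H : Type*} [NormedAddCommGroup H] [InnerProductSpace ℂ H] [CompleteSpace H]
variable {Γ : Type*} [Group Γ] {M N A : VonNeumannAlgebra H} {u v : Γ → H →L[ℂ] H}
  {τ : (H →L[ℂ] H) →L[ℂ] ℂ} {k : ℕ → ℕ} {e : ∀ n, Fin (k n) → Fin (k n) → H →L[ℂ] H} {κ : ℝ}

private theorem Den2_comm (h : Sit M N A τ u k e κ) (hv : Lifts M N A τ u v) (g : Γ)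
    {a : H →L[ℂ] H} (ha : a ∈ A) : v g * star (u g) * a = a * (v g * star (u g)) := by
  have hcm := h.cm
  have h1 : star (u g) * a * u g ∈ A := (hv.lift g).normM' a ha
  calc v g * star (u g) * a = v g * star (u g) * a * (u g * star (u g)) := by
        rw [(hcm.unit g).2, mul_one]
    _ = (v g * (star (u g) * a * u g)) * star (u g) := by noncomm_ring
    _ = (u g * (star (u g) * a * u g) * star (u g) * v g) * star (u g) := by
        rw [(hv.lift g).same _ h1]
    _ = (u g * star (u g)) * a * (u g * star (u g)) * v g * star (u g) := by noncomm_ring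
    _ = a * (v g * star (u g)) := by rw [(hcm.unit g).2]; noncomm_ring

/-- `EA((x - y) u_g⋆) = b_g v_g u_g⋆ - a_g`, `b_g = fc e v x g`, `a_g = fc e u y g` (as `v_g u_g⋆` commutes with the
diagonal matrix units) -/
theorem Sit.EA_diff (h : Sit M N A τ u k e κ) (hv : Lifts M N A τ u v) (x y : H →L[ℂ] H) (g : Γ) :
    EA e ((x - y) * star (u g)) = fc e v x g * (v g * star (u g)) - fc e u y g := by
  have hcm := h.cm
  have e1 : (x - y) * star (u g) = 1 * (x * star (v g)) * (v g * star (u g)) - y * star (u g) := by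
    have h1 : star (v g) * v g = 1 := (hv.lift g).unitN.1
    calc (x - y) * star (u g) = x * 1 * star (u g) - y * star (u g) := by noncomm_ring
      _ = x * (star (v g) * v g) * star (u g) - y * star (u g) := by rw [h1]
      _ = _ := by noncomm_ring
  rw [e1, h.sys.EA_sub, h.sys.EA_mod (fun n i => by rw [one_mul, mul_one])
    (fun n i => Den2_comm h hv g ((h.sys.mu n).diag i)), one_mul]
  rfl

/-- Bessel for `M` -/
theorem Sit.bessel_M (h : Sit M N A τ u k e κ) (F : Finset Γ) {E y : H →L[ℂ] H} (hE : E ∈ A)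
    (hPE : PJ E) : ∑ g ∈ F, (τ (E * (fc e u y g * star (fc e u y g)))).re ≤
      ‖E * y‖ ^ 2 * (τ E).re := h.bessel F hE hPE

private theorem Den2_square {E W : H →L[ℂ] H} (hPE : PJ E) (hc : W * E = E * W) :
    E * (W * star W) = (E * W) * star (E * W) := by
  have hc' : E * star W = star W * E := by
    have := congrArg star hc
    rwa [star_mul, star_mul, hPE.sa] at this
  rw [star_mul, hPE.sa]
  calc E * (W * star W) = (E * E) * W * star W := by rw [hPE.idem, mul_assoc]
    _ = E * (E * W) * star W := by noncomm_ring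
    _ = E * (W * E) * star W := by rw [hc]
    _ = E * W * (E * star W) := by noncomm_ring
    _ = E * W * (star W * E) := by rw [hc']

/-- (10.3) -/
theorem Sit.coef_diff (h : Sit M N A τ u k e κ) (hv : Lifts M N A τ u v) (F : Finset Γ)
    {E x y : H →L[ℂ] H} (hE : E ∈ A) (hPE : PJ E) (hx : x ∈ N) (hy : y ∈ M) :
    ∑ g ∈ F, (τ (E * ((fc e v x g - fc e u y g) * star (fc e v x g - fc e u y g)))).re ≤
      (2 * ‖E * (x - y)‖ ^ 2 + 2 / 10 ^ 6 * ‖y‖ ^ 2) * (τ E).re := by
  have hcm := h.cm
  have key : ∀ g, (τ (E * ((fc e v x g - fc e u y g) * star (fc e v x g - fc e u y g)))).re ≤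
      2 * (τ (E * (EA e ((x - y) * star (u g)) * star (EA e ((x - y) * star (u g)))))).re +
        2 / 10 ^ 6 * (τ (E * (fc e u y g * star (fc e u y g)))).re := by
    intro g
    set b := fc e v x g with hb
    set a := fc e u y g with ha
    set c := v g * star (u g) with hc
    set S := EA e ((x - y) * star (u g)) with hS
    have hbA : b ∈ A := (h.fc_N hv hx g).1
    have haA : a ∈ A := (h.fc_M hy g).1
    have hS' : S = b * c - a := h.EA_diff hv x y g
    have hcc : c * star c = 1 := by
      rw [hc, star_mul, star_star]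
      calc v g * star (u g) * (u g * star (v g)) = v g * (star (u g) * u g) * star (v g) := by
            noncomm_ring
        _ = 1 := by rw [(hcm.unit g).1, mul_one, (hv.lift g).unitN.2]
    have hcn : ‖c - 1‖ ≤ 1 / 1000 := by
      have e1 : c - 1 = (v g - u g) * star (u g) := by
        rw [sub_mul, (hcm.unit g).2]
      rw [e1]
      have h2 : ‖u g * star (u g)‖ ≤ 1 := by
        rw [(hcm.unit g).2]
        exact ContinuousLinearMap.norm_id_le
      rw [CStarRing.norm_self_mul_star] at h2
      have h3 : ‖star (u g)‖ ≤ 1 := by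
        rw [norm_star]
        nlinarith [norm_nonneg (u g)]
      calc ‖(v g - u g) * star (u g)‖ ≤ ‖v g - u g‖ * ‖star (u g)‖ := norm_mul_le _ _
        _ ≤ 1 / 1000 * 1 := mul_le_mul (hv.lift g).near h3 (norm_nonneg _) (by norm_num)
        _ = 1 / 1000 := mul_one _
    have hSE : S * E = E * S :=
      Sys.comm_A hcm h.sys (fun n i => h.sys.EA_comm _ n i) E hE
    rw [Den2_square hPE (hcm.comm _ (sub_mem hbA haA) _ hE), Den2_square hPE hSE,
      Den2_square hPE (hcm.comm _ haA _ hE)]
    have e1 : (E * (b - a)) * star (E * (b - a)) =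
        (E * S - E * (a * (c - 1))) * star (E * S - E * (a * (c - 1))) := by
      have e2 : E * S - E * (a * (c - 1)) = (E * (b - a)) * c := by
        rw [hS']
        noncomm_ring
      rw [e2, star_mul (E * (b - a)) c]
      calc E * (b - a) * star (E * (b - a)) = E * (b - a) * 1 * star (E * (b - a)) := by
            rw [mul_one]
        _ = E * (b - a) * (c * star c) * star (E * (b - a)) := by rw [hcc]
        _ = _ := by noncomm_ring
    rw [e1]
    set P := E * S with hP
    set Z := E * (a * (c - 1)) with hZ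
    have h1 : (P - Z) * star (P - Z) ≤ (2 : ℂ) • (P * star P) + (2 : ℂ) • (Z * star Z) := by
      rw [← sub_nonneg]
      have e2 : (2 : ℂ) • (P * star P) + (2 : ℂ) • (Z * star Z) - (P - Z) * star (P - Z) =
          (P + Z) * star (P + Z) := by
        rw [star_sub, star_add, two_smul, two_smul]
        noncomm_ring
      rw [e2]
      exact mul_star_self_nonneg _
    have h2 : Z * star Z ≤ (1 / 10 ^ 6 : ℝ) • ((E * a) * star (E * a)) := by
      have e2 : Z * star Z = (E * a) * ((c - 1) * star (c - 1)) * star (E * a) := by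
        have e3 : Z = (E * a) * (c - 1) := by rw [hZ]; noncomm_ring
        rw [e3, star_mul]
        noncomm_ring
      have h3 : (c - 1) * star (c - 1) ≤ (1 / 10 ^ 6 : ℝ) • (1 : H →L[ℂ] H) := by
        have h4 : (c - 1) * star (c - 1) ≤ algebraMap ℝ (H →L[ℂ] H) ‖(c - 1) * star (c - 1)‖ :=
          IsSelfAdjoint.le_algebraMap_norm_self (IsSelfAdjoint.mul_star_self _)
        refine h4.trans ?_
        rw [Algebra.algebraMap_eq_smul_one]
        refine smul_le_smul_of_nonneg_right ?_ zero_le_one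
        rw [CStarRing.norm_self_mul_star]
        nlinarith [norm_nonneg (c - 1)]
      rw [e2]
      refine (star_right_conjugate_le_conjugate h3 (E * a)).trans (le_of_eq ?_)
      simp
    have h3 := h.pos.mono h1
    have h4 := h.pos.mono h2
    have e3 : (τ ((2 : ℂ) • (P * star P) + (2 : ℂ) • (Z * star Z))).re =
        2 * (τ (P * star P)).re + 2 * (τ (Z * star Z)).re := by
      rw [map_add, map_smul, map_smul]
      simp
    have e4 : (τ ((1 / 10 ^ 6 : ℝ) • ((E * a) * star (E * a)))).re =
        1 / 10 ^ 6 * (τ ((E * a) * star (E * a))).re := by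
      have e5 : (1 / 10 ^ 6 : ℝ) • ((E * a) * star (E * a)) =
          ((1 / 10 ^ 6 : ℝ) : ℂ) • ((E * a) * star (E * a)) := by
        rw [Complex.coe_smul]
      rw [e5, map_smul, smul_eq_mul, Complex.re_ofReal_mul]
    rw [e3] at h3
    rw [e4] at h4
    linarith
  refine (Finset.sum_le_sum fun g _ => key g).trans ?_
  rw [Finset.sum_add_distrib, ← Finset.mul_sum, ← Finset.mul_sum]
  have h1 := h.bessel F (T := x - y) hE hPE
  have h2 := h.bessel_M F (y := y) hE hPE
  have hτE : 0 ≤ (τ E).re := (h.pos.nonneg hPE.nonneg).1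
  have h3 : ‖E * y‖ ^ 2 * (τ E).re ≤ ‖y‖ ^ 2 * (τ E).re := by
    refine mul_le_mul_of_nonneg_right ?_ hτE
    have h4 : ‖E * y‖ ≤ ‖y‖ := by
      calc ‖E * y‖ ≤ ‖E‖ * ‖y‖ := norm_mul_le _ _
        _ ≤ 1 * ‖y‖ := mul_le_mul_of_nonneg_right hPE.norm_le (norm_nonneg _)
        _ = ‖y‖ := one_mul _
    nlinarith [norm_nonneg (E * y), norm_nonneg y]
  nlinarith

end Pool.Agent.KKS

end

section

/-!
# Den2a: Parseval, vanishing coefficients
-/


open Filter Topology

namespace Pool.Agent.KKS

variable {H : Type*} [NormedAddCommGroup H] [InnerProductSpace ℂ H] [CompleteSpace H]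
variable {Γ : Type*} [Group Γ] {M N A : VonNeumannAlgebra H} {u v : Γ → H →L[ℂ] H}
  {τ : (H →L[ℂ] H) →L[ℂ] ℂ} {k : ℕ → ℕ} {e : ∀ n, Fin (k n) → Fin (k n) → H →L[ℂ] H} {κ : ℝ}

private theorem Den2a_star_re (h : Sit M N A τ u k e κ) (x : H →L[ℂ] H) :
    (τ (star x)).re = (τ x).re := by
  rw [h.pos.conj, Complex.conj_re]

private theorem Den2a_corner {R : VonNeumannAlgebra H} {σ : (H →L[ℂ] H) → ℂ} (h : IsTrace R σ)
    {E X : H →L[ℂ] H} (hE : E ∈ R) (hPE : PJ E) (hX : X ∈ R) : σ (E * X) = σ (E * X * E) := by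
  rw [h.tracial (E * X) (mul_mem hE hX) E hE, ← mul_assoc E E X, hPE.idem]

/-- the square of a difference in the corner -/
private theorem Den2a_sq (h : Sit M N A τ u k e κ) {E a b : H →L[ℂ] H} (hE : E ∈ A) (hPE : PJ E)
    (ha : a ∈ A) (hb : b ∈ A) :
    2 * (τ (a * star b * E)).re ≤ (τ (E * (b * star b))).re + (τ (E * (a * star a))).re := by
  have hba : b - a ∈ A := sub_mem hb ha
  have h1 : 0 ≤ (τ (E * ((b - a) * star (b - a)))).re := by
    have h2 : E * ((b - a) * star (b - a)) = (E * (b - a)) * star (E * (b - a)) := by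
      rw [star_mul, hPE.sa]
      calc E * ((b - a) * star (b - a)) = (E * E) * ((b - a) * star (b - a)) := by rw [hPE.idem]
        _ = E * (E * ((b - a) * star (b - a))) := by rw [mul_assoc]
        _ = E * (((b - a) * star (b - a)) * E) := by
            rw [h.cm.comm E hE _ (mul_mem hba (star_mem hba))]
        _ = _ := by noncomm_ring
    rw [h2]
    have h3 : (0 : H →L[ℂ] H) ≤ (E * (b - a)) * star (E * (b - a)) := mul_star_self_nonneg _
    exact (h.pos.nonneg h3).1
  have h4 : E * ((b - a) * star (b - a)) =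
      E * (b * star b) + E * (a * star a) - E * (a * star b) - E * (b * star a) := by
    rw [star_sub]
    noncomm_ring
  have h5 : E * (a * star b) = a * star b * E := h.cm.comm E hE _ (mul_mem ha (star_mem hb))
  have h6 : E * (b * star a) = star (a * star b * E) := by
    rw [star_mul, star_mul, star_star, hPE.sa]
  rw [h4, map_sub, map_sub, map_add, h5, h6, Complex.sub_re, Complex.sub_re, Complex.add_re,
    Den2a_star_re h] at h1
  linarith

/-- Parseval for `M` -/
theorem Sit.parseval_M (h : Sit M N A τ u k e κ) (hv : Lifts M N A τ u v) {E y : H →L[ℂ] H}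
    (hE : E ∈ A) (hPE : PJ E) (hy : y ∈ M) {ε : ℝ} (hε : 0 < ε) : ∃ F : Finset Γ,
    (τ (E * (y * star y))).re - ε < ∑ g ∈ F, (τ (E * (fc e u y g * star (fc e u y g)))).re := by
  have hM := h.cm.trace
  have hEM : E ∈ M := h.cm.le E hE
  obtain ⟨p, hp, hpn⟩ := h.dense_M hv hy (ε := min ε 1) (lt_min hε one_pos)
  obtain ⟨F, b, hb, hp1, -⟩ := mem_Gr hp
  set P := p.1 with hP
  have hbM : ∀ g, b g ∈ M := fun g => h.cm.le _ (hb g)
  have hPM : P ∈ M := by
    rw [hp1]
    exact sum_mem fun g _ => mul_mem (hbM g) (h.cm.u_mem g)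
  set a : Γ → H →L[ℂ] H := fun g => fc e u y g with ha
  have haA : ∀ g, a g ∈ A := fun g => (h.fc_M hy g).1
  have haM : ∀ g, a g ∈ M := fun g => h.cm.le _ (haA g)
  refine ⟨F, ?_⟩
  change _ < ∑ g ∈ F, (τ (E * (a g * star (a g)))).re
  have hDM : y - P ∈ M := sub_mem hy hPM
  -- the upper bound
  have hD : (τ (E * ((y - P) * star (y - P)))).re < ε := by
    have h1 : τ (E * ((y - P) * star (y - P))) = τ ((E * (y - P)) * star (E * (y - P))) := by
      have h2 : (E * (y - P)) * star (E * (y - P)) = (E * ((y - P) * star (y - P))) * E := by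
        rw [star_mul, hPE.sa]
        noncomm_ring
      rw [h2]
      exact Den2a_corner hM hEM hPE (mul_mem hDM (star_mem hDM))
    rw [h1, hM.n2_sq (mul_mem hEM hDM), Complex.ofReal_re]
    have h3 : n2 τ (E * (y - P)) ≤ n2 τ (y - P) := by
      refine (hM.n2_mul_left hEM hDM).trans ?_
      exact mul_le_of_le_one_left (n2_nonneg _) hPE.norm_le
    have h4 : n2 τ (E * (y - P)) < ε := (h3.trans_lt hpn).trans_le (min_le_left _ _)
    have h5 : n2 τ (E * (y - P)) < 1 := (h3.trans_lt hpn).trans_le (min_le_right _ _)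
    have h6 := n2_nonneg (τ := τ) (E * (y - P))
    nlinarith
  -- expansion
  have hexp : E * ((y - P) * star (y - P)) =
      E * (y * star y) - star (y * star P * E) - E * (y * star P) + E * (P * star P) := by
    rw [star_mul, star_mul, star_star, hPE.sa, star_sub]
    noncomm_ring
  have hyP : τ (y * star P * E) = ∑ g ∈ F, τ (a g * star (b g) * E) := by
    have h1 : y * star P * E = ∑ g ∈ F, y * star (u g) * (star (b g) * E) := by
      rw [hp1, star_sum, Finset.mul_sum, Finset.sum_mul]
      refine Finset.sum_congr rfl fun g _ => ?_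
      rw [star_mul]
      noncomm_ring
    rw [h1, map_sum]
    refine Finset.sum_congr rfl fun g _ => ?_
    rw [← (h.fc_M hy g).2 _ (mul_mem (star_mem (hb g)) hE)]
    change τ (a g * _) = _
    rw [← mul_assoc]
  have hyP' : τ (E * (y * star P)) = ∑ g ∈ F, τ (a g * star (b g) * E) := by
    rw [← hyP]
    exact hM.tracial _ hEM _ (mul_mem hy (star_mem hPM))
  have hPP : τ (E * (P * star P)) = ∑ g ∈ F, τ (E * (b g * star (b g))) := by
    have h1 : E * (P * star P) =
        ∑ g ∈ F, ∑ g' ∈ F, (E * (b g * u g * star (u g'))) * star (b g') := by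
      rw [hp1, star_sum, Finset.sum_mul, Finset.mul_sum]
      refine Finset.sum_congr rfl fun g _ => ?_
      rw [Finset.mul_sum, Finset.mul_sum]
      refine Finset.sum_congr rfl fun g' _ => ?_
      rw [star_mul]
      noncomm_ring
    rw [h1, map_sum]
    refine Finset.sum_congr rfl fun g hg => ?_
    rw [map_sum, Finset.sum_eq_single g]
    · congr 1
      calc E * (b g * u g * star (u g)) * star (b g) =
          E * (b g * (u g * star (u g))) * star (b g) := by noncomm_ring
        _ = E * (b g * star (b g)) := by rw [(h.cm.unit g).2, mul_one, mul_assoc]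
    · intro g' _ hne
      have h2 : τ ((E * (b g * u g * star (u g'))) * star (b g')) =
          τ (star (b g') * (E * (b g * u g * star (u g')))) :=
        hM.tracial _ (mul_mem hEM (mul_mem (mul_mem (hbM g) (h.cm.u_mem g))
          (star_mem (h.cm.u_mem g')))) _ (star_mem (hbM g'))
      have h3 : star (b g') * (E * (b g * u g * star (u g'))) =
          (star (b g') * E * b g) * u (g * g'⁻¹) := by
        rw [h.cm.u_mul, ← h.cm.u_star]
        noncomm_ring
      rw [h2, h3]
      refine h.cm.u_free _ ?_ _ (mul_mem (mul_mem (star_mem (hb g')) hE) (hb g))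
      intro h4
      exact hne (mul_inv_eq_one.1 h4).symm
    · intro h2
      exact absurd hg h2
  have hre : (τ (E * ((y - P) * star (y - P)))).re = (τ (E * (y * star y))).re -
      2 * ∑ g ∈ F, (τ (a g * star (b g) * E)).re + ∑ g ∈ F, (τ (E * (b g * star (b g)))).re := by
    rw [hexp, map_add, map_sub, map_sub, Complex.add_re, Complex.sub_re, Complex.sub_re,
      Den2a_star_re h, hyP', hyP, hPP, Complex.re_sum, Complex.re_sum]
    ring
  have hsum : 2 * ∑ g ∈ F, (τ (a g * star (b g) * E)).re ≤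
      ∑ g ∈ F, (τ (E * (b g * star (b g)))).re + ∑ g ∈ F, (τ (E * (a g * star (a g)))).re := by
    rw [Finset.mul_sum, ← Finset.sum_add_distrib]
    exact Finset.sum_le_sum fun g _ => Den2a_sq h hE hPE (haA g) (hb g)
  linarith

/-- (10.7) -/
theorem Sit.zero_coef (h : Sit M N A τ u k e κ) (hv : Lifts M N A τ u v) {E z : H →L[ℂ] H}
    (hE : E ∈ A) (hPE : PJ E) (hz : z ∈ N) (h0 : ∀ g, fc e v z g = 0) :
    (τ (E * (z * star z))).re ≤ 3 * κ * ‖z‖ ^ 2 * (τ E).re := by
  have hκ0 := h.κ0
  have hκ1 : κ ≤ 1 := h.κ1.trans (by norm_num)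
  have hEM : E ∈ M := h.cm.le E hE
  have hEN : E ∈ N := h.AN E hE
  have hτE : 0 ≤ (τ E).re := (h.cm.trace.nonneg hEM hPE.nonneg).1
  obtain ⟨y, hy, hyn, hyz⟩ := h.near.NM z hz
  have hzy : ‖z - y‖ ≤ κ * ‖z‖ := by rw [norm_sub_rev]; exact hyz
  -- the coefficients of `y` are small
  have hcoef : ∀ F : Finset Γ, ∑ g ∈ F, (τ (E * (fc e u y g * star (fc e u y g)))).re ≤
      κ ^ 2 * ‖z‖ ^ 2 * (τ E).re := by
    intro F
    have h1 := h.bessel F (T := z - y) hE hPE
    have h2 : ∀ g, EA e ((z - y) * star (u g)) = -fc e u y g := by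
      intro g
      rw [h.EA_diff hv z y g, h0 g, zero_mul, zero_sub]
    simp only [h2, star_neg, neg_mul_neg] at h1
    refine h1.trans (mul_le_mul_of_nonneg_right ?_ hτE)
    have h3 : ‖E * (z - y)‖ ≤ κ * ‖z‖ := by
      refine (norm_mul_le _ _).trans ?_
      calc ‖E‖ * ‖z - y‖ ≤ 1 * (κ * ‖z‖) :=
            mul_le_mul hPE.norm_le hzy (norm_nonneg _) zero_le_one
        _ = κ * ‖z‖ := one_mul _
    calc ‖E * (z - y)‖ ^ 2 ≤ (κ * ‖z‖) ^ 2 := by gcongr
      _ = κ ^ 2 * ‖z‖ ^ 2 := by ring
  have hyy : (τ (E * (y * star y))).re ≤ κ ^ 2 * ‖z‖ ^ 2 * (τ E).re := by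
    refine le_of_forall_pos_le_add fun ε hε => ?_
    obtain ⟨F, hF⟩ := h.parseval_M hv hE hPE hy hε
    have := hcoef F
    linarith
  -- comparison
  have hcz : τ (E * (z * star z)) = τ (E * (z * star z) * E) :=
    Den2a_corner h.trN hEN hPE (mul_mem hz (star_mem hz))
  have hcy : τ (E * (y * star y)) = τ (E * (y * star y) * E) :=
    Den2a_corner h.cm.trace hEM hPE (mul_mem hy (star_mem hy))
  set X := E * (z * star z - y * star y) * E with hX
  have hXE : E * X * E = X := by
    calc E * X * E = (E * E) * (z * star z - y * star y) * (E * E) := by rw [hX]; noncomm_ring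
      _ = X := by rw [hPE.idem]
  have hXn : ‖X‖ ≤ 2 * κ * ‖z‖ ^ 2 := by
    have h1 : z * star z - y * star y = (z - y) * star z + y * star (z - y) := by
      rw [star_sub]
      noncomm_ring
    have h2 : ‖z * star z - y * star y‖ ≤ 2 * κ * ‖z‖ ^ 2 := by
      rw [h1]
      refine (norm_add_le _ _).trans ?_
      have h3 : ‖(z - y) * star z‖ ≤ (κ * ‖z‖) * ‖z‖ := by
        refine (norm_mul_le _ _).trans ?_
        rw [norm_star]
        gcongr
      have h4 : ‖y * star (z - y)‖ ≤ ‖z‖ * (κ * ‖z‖) := by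
        refine (norm_mul_le _ _).trans ?_
        rw [norm_star]
        gcongr
      linarith
    calc ‖X‖ ≤ ‖E * (z * star z - y * star y)‖ * ‖E‖ := norm_mul_le _ _
      _ ≤ (‖E‖ * ‖z * star z - y * star y‖) * ‖E‖ := by
          gcongr
          exact norm_mul_le _ _
      _ ≤ (1 * (2 * κ * ‖z‖ ^ 2)) * 1 := by
          have h5 := hPE.norm_le
          gcongr
      _ = 2 * κ * ‖z‖ ^ 2 := by ring
  have hXτ : (τ X).re ≤ 2 * κ * ‖z‖ ^ 2 * (τ E).re := by
    refine ((Complex.re_le_norm _).trans (h.pos.corner hPE hXE)).trans ?_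
    exact mul_le_mul_of_nonneg_right hXn hτE
  have hdiff : (τ (E * (z * star z))).re = (τ (E * (y * star y))).re + (τ X).re := by
    rw [hcz, hcy, ← Complex.add_re, ← map_add]
    congr 2
    rw [hX]
    noncomm_ring
  rw [hdiff]
  have h9 : κ ^ 2 * ‖z‖ ^ 2 * (τ E).re ≤ κ * ‖z‖ ^ 2 * (τ E).re := by
    apply mul_le_mul_of_nonneg_right _ hτE
    apply mul_le_mul_of_nonneg_right _ (by positivity)
    nlinarith
  linarith

/-- partners have the same Fourier coefficients -/
theorem Sit.fc_rel (h : Sit M N A τ u k e κ) (hv : Lifts M N A τ u v) {y z : H →L[ℂ] H}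
    (hr : Rel M N τ (Gr A u v) y z) (g : Γ) : fc e v z g = fc e u y g := by
  have hG := h.grS hv
  obtain ⟨hzA, hzt⟩ := h.fc_N hv hr.memN g
  obtain ⟨hyA, hyt⟩ := h.fc_M hr.memM g
  have hkey : ∀ a ∈ A, τ (fc e v z g * a) = τ (fc e u y g * a) := by
    intro a ha
    rw [hzt a ha, hyt a ha]
    have hl := hv.lift g⁻¹
    have h1 : star (u g) * a = (u g⁻¹ * a * star (u g⁻¹)) * u g⁻¹ := by
      rw [h.cm.u_star, mul_assoc _ (star (u g⁻¹)) (u g⁻¹), hl.unitM.1, mul_one]
    have h2 : star (v g) * a = (u g⁻¹ * a * star (u g⁻¹)) * v g⁻¹ := by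
      rw [hv.adj, hl.same a ha]
    have hmem : ((star (u g) * a, star (v g) * a) : (H →L[ℂ] H) × (H →L[ℂ] H)) ∈ Gr A u v := by
      rw [h1, h2]
      exact Submodule.subset_span ⟨_, hl.normM a ha, g⁻¹, rfl⟩
    have h3 := Rel.trace hG (Rel.mul hG hr (Rel.of_mem hG hmem))
    change τ (y * (star (u g) * a)) = τ (z * (star (v g) * a)) at h3
    rw [mul_assoc, mul_assoc, h3]
  have hd : fc e v z g - fc e u y g ∈ A := sub_mem hzA hyA
  have h4 := hkey (star (fc e v z g - fc e u y g)) (star_mem hd)
  have h5 : τ ((fc e v z g - fc e u y g) * star (fc e v z g - fc e u y g)) = 0 := by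
    rw [sub_mul, map_sub, h4, sub_self]
  have hdM : fc e v z g - fc e u y g ∈ M := h.cm.le _ hd
  have h6 : τ (star (fc e v z g - fc e u y g) * (fc e v z g - fc e u y g)) = 0 := by
    rw [h.cm.trace.tracial _ (star_mem hdM) _ hdM]
    exact h5
  exact sub_eq_zero.1 (h.cm.trace.faithful _ hdM h6)

end Pool.Agent.KKS

end

section

/-!
# Den2b: near partners
-/


open Filter Topology

namespace Pool.Agent.KKS

variable {H : Type*} [NormedAddCommGroup H] [InnerProductSpace ℂ H] [CompleteSpace H]
variable {Γ : Type*} [Group Γ] {M N A : VonNeumannAlgebra H} {u v : Γ → H →L[ℂ] H}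
  {τ : (H →L[ℂ] H) →L[ℂ] ℂ} {k : ℕ → ℕ} {e : ∀ n, Fin (k n) → Fin (k n) → H →L[ℂ] H} {κ : ℝ}

private theorem Den2b_square {E W : H →L[ℂ] H} (hPE : PJ E) (hc : W * E = E * W) :
    E * (W * star W) = (E * W) * star (E * W) := by
  have hc' : E * star W = star W * E := by
    have := congrArg star hc
    rwa [star_mul, star_mul, hPE.sa] at this
  rw [star_mul, hPE.sa]
  calc E * (W * star W) = (E * E) * W * star W := by rw [hPE.idem, mul_assoc]
    _ = E * (E * W) * star W := by noncomm_ring
    _ = E * (W * E) * star W := by rw [hc]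
    _ = E * W * (E * star W) := by noncomm_ring
    _ = E * W * (star W * E) := by rw [hc']

private theorem Den2b_norm (h : Sit M N A τ u k e κ) (F : Finset Γ) (c : Γ → H →L[ℂ] H)
    (hc : ∀ g, c g ∈ A) : τ ((∑ g ∈ F, c g * u g) * star (∑ g ∈ F, c g * u g)) =
      ∑ g ∈ F, τ (c g * star (c g)) := by
  classical
  have hcm := h.cm
  rw [star_sum, Finset.sum_mul, map_sum]
  refine Finset.sum_congr rfl fun g hg => ?_
  rw [Finset.mul_sum, map_sum, Finset.sum_eq_single g]
  · rw [star_mul]
    congr 1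
    calc c g * u g * (star (u g) * star (c g)) = c g * (u g * star (u g)) * star (c g) := by
          noncomm_ring
      _ = c g * star (c g) := by rw [(hcm.unit g).2, mul_one]
  · intro g' hg' hgg
    have h1 : u g * star (u g') = u (g * g'⁻¹) := by rw [hcm.u_star, hcm.u_mul]
    have h2 : c g * u g * star (c g' * u g') = c g * u (g * g'⁻¹) * star (c g') := by
      rw [star_mul, ← h1]
      noncomm_ring
    rw [h2]
    have h3 := hcm.trace.tracial (c g * u (g * g'⁻¹)) (mul_mem (hcm.le _ (hc g)) (hcm.u_mem _))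
      (star (c g')) (star_mem (hcm.le _ (hc g')))
    rw [h3, ← mul_assoc]
    refine hcm.u_free _ ?_ _ (mul_mem (star_mem (hc g')) (hc g))
    intro h4
    exact hgg (mul_inv_eq_one.1 h4).symm
  · intro h1
    exact absurd hg h1

/-- (10.8): `y ∈ M` near `w` with `E y = y`, `w₁` its partner (`Rel.total`); `w₀₀` the second component of an
element of the graph near `(y, w₁)`: `|τ(w w₀₀⋆) - τ(y y₀₀⋆)|² ≤ ∑ ‖b_g - a_g‖₂² ∑ ‖a⁰⁰_g‖₂²` and `coef_diff` -/
theorem Sit.near_partner (h : Sit M N A τ u k e κ) (hv : Lifts M N A τ u v) {E w : H →L[ℂ] H}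
    (hE : E ∈ A) (hPE : PJ E) (hw : w ∈ N) (hwE : E * w = w) (hw1 : ‖w‖ ≤ 1) :
    ∃ y w₁, Rel M N τ (Gr A u v) y w₁ ∧ ‖w₁‖ ≤ 2 ∧
      (τ ((w - w₁) * star (w - w₁))).re ≤ 1 / 50 * (τ E).re := by
  have hcm := h.cm
  have hG := h.grS hv
  have hκ := h.κ1
  have hκ0 := h.κ0
  have hEM : E ∈ M := hcm.le _ hE
  have hEN : E ∈ N := h.AN _ hE
  have hτE : 0 ≤ (τ E).re := (h.pos.nonneg hPE.nonneg).1
  obtain ⟨x, hx, hxn, hxw⟩ := h.near.NM w hw
  have hwn := norm_nonneg w
  have hxw' : ‖x - w‖ ≤ κ := hxw.trans (by nlinarith)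
  set y := E * x with hydef
  have hy : y ∈ M := mul_mem hEM hx
  have hEy : E * y = y := by rw [hydef, ← mul_assoc, hPE.idem]
  have hEn := hPE.norm_le
  have hyn : ‖y‖ ≤ 1 := by
    calc ‖y‖ ≤ ‖E‖ * ‖x‖ := norm_mul_le _ _
      _ ≤ 1 * 1 := mul_le_mul hEn (hxn.trans hw1) (norm_nonneg _) zero_le_one
      _ = 1 := one_mul 1
  have hwy : ‖w - y‖ ≤ κ := by
    have e1 : w - y = E * (w - x) := by rw [mul_sub, hwE]
    rw [e1]
    calc ‖E * (w - x)‖ ≤ ‖E‖ * ‖w - x‖ := norm_mul_le _ _
      _ ≤ 1 * κ := by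
          rw [norm_sub_rev w x]
          exact mul_le_mul hEn hxw' (norm_nonneg _) zero_le_one
      _ = κ := one_mul _
  obtain ⟨w₁, hr, hw₁n⟩ := Rel.total hG hy (fun ε hε => h.dense_M hv hy hε)
  have hw₁ : w₁ ∈ N := hr.memN
  refine ⟨y, w₁, hr, by linarith, ?_⟩
  -- traces
  have t1 : (τ (w₁ * star w₁)).re = (τ (y * star y)).re := by
    have := Rel.trace hG (Rel.mul hG hr (Rel.adj hG hr))
    rw [this]
  have t2 : (τ (w * star w)).re ≤ (τ (y * star y)).re + 2 * κ * (τ E).re := by
    have e1 : E * (w * star w - y * star y) * E = w * star w - y * star y := by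
      have h1 : star w * E = star w := by
        have := congrArg star hwE
        rwa [star_mul, hPE.sa] at this
      have h2 : star y * E = star y := by
        have := congrArg star hEy
        rwa [star_mul, hPE.sa] at this
      calc E * (w * star w - y * star y) * E
          = (E * w) * (star w * E) - (E * y) * (star y * E) := by noncomm_ring
        _ = _ := by rw [hwE, hEy, h1, h2]
    have h1 := h.pos.corner hPE e1
    have h2 : ‖w * star w - y * star y‖ ≤ 2 * κ := by
      have e2 : w * star w - y * star y = (w - y) * star w + y * star (w - y) := by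
        rw [star_sub]
        noncomm_ring
      rw [e2]
      calc ‖(w - y) * star w + y * star (w - y)‖
          ≤ ‖(w - y) * star w‖ + ‖y * star (w - y)‖ := norm_add_le _ _
        _ ≤ ‖w - y‖ * ‖star w‖ + ‖y‖ * ‖star (w - y)‖ :=
            add_le_add (norm_mul_le _ _) (norm_mul_le _ _)
        _ ≤ κ * 1 + 1 * κ := by
            rw [norm_star, norm_star]
            exact add_le_add (mul_le_mul hwy hw1 (norm_nonneg _) hκ0)
              (mul_le_mul hyn hwy (norm_nonneg _) zero_le_one)
        _ = 2 * κ := by ring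
    have h3 : (τ (w * star w)).re - (τ (y * star y)).re ≤ 2 * κ * (τ E).re := by
      rw [← Complex.sub_re, ← map_sub]
      calc (τ (w * star w - y * star y)).re ≤ ‖τ (w * star w - y * star y)‖ :=
            Complex.re_le_norm _
        _ ≤ ‖w * star w - y * star y‖ * (τ E).re := h1
        _ ≤ 2 * κ * (τ E).re := mul_le_mul_of_nonneg_right h2 hτE
    linarith
  have t3 : (τ (y * star y)).re ≤ (τ E).re := by
    have e1 : E * (y * star y) * E = y * star y := by
      have h2 : star y * E = star y := by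
        have := congrArg star hEy
        rwa [star_mul, hPE.sa] at this
      calc E * (y * star y) * E = (E * y) * (star y * E) := by noncomm_ring
        _ = _ := by rw [hEy, h2]
    have h1 := h.pos.corner hPE e1
    have h2 : ‖y * star y‖ ≤ 1 := by
      rw [CStarRing.norm_self_mul_star]
      nlinarith [norm_nonneg y]
    calc (τ (y * star y)).re ≤ ‖τ (y * star y)‖ := Complex.re_le_norm _
      _ ≤ ‖y * star y‖ * (τ E).re := h1
      _ ≤ 1 * (τ E).re := mul_le_mul_of_nonneg_right h2 hτE
      _ = (τ E).re := one_mul _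
  -- the main estimate
  have key : ∀ δ : ℝ, 0 < δ → δ ≤ 1 → (τ (y * star y)).re - 3 / 1000 * (τ E).re - 3 * δ ≤
      (τ (w * star w₁)).re := by
    intro δ hδ hδ1
    obtain ⟨p, hp, hp1, hp2⟩ := hr.approx δ hδ
    have hpM := hG.memM p hp
    have hpN := hG.memN p hp
    obtain ⟨F, a, haA, hpa, hpb⟩ := mem_Gr hp
    -- `τ (w w₁⋆)` and `τ (w p₂⋆)`
    have s1 : (τ (w * star p.2)).re - δ ≤ (τ (w * star w₁)).re := by
      have h1 := h.trN.cs hw (sub_mem hw₁ hpN)
      have h2 : (τ (w * star p.2)).re - (τ (w * star w₁)).re =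
          -(τ (w * star (w₁ - p.2))).re := by
        rw [star_sub, mul_sub, map_sub, Complex.sub_re]
        ring
      have h3 : n2 τ w ≤ 1 := (h.trN.n2_le_norm hw).trans hw1
      have h4 : -(τ (w * star (w₁ - p.2))).re ≤ ‖τ (w * star (w₁ - p.2))‖ :=
        (neg_le_abs _).trans (Complex.abs_re_le_norm _)
      have h5 : n2 τ w * n2 τ (w₁ - p.2) ≤ 1 * δ :=
        mul_le_mul h3 hp2.le (n2_nonneg _) zero_le_one
      linarith
    have s2 : (τ (y * star y)).re - δ ≤ (τ (y * star p.1)).re := by
      have h1 := hcm.trace.cs hy (sub_mem hy hpM)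
      have h2 : (τ (y * star y)).re - (τ (y * star p.1)).re =
          (τ (y * star (y - p.1))).re := by
        rw [star_sub, mul_sub, map_sub, Complex.sub_re]
      have h3 : n2 τ y ≤ 1 := (hcm.trace.n2_le_norm hy).trans hyn
      have h4 : (τ (y * star (y - p.1))).re ≤ ‖τ (y * star (y - p.1))‖ := Complex.re_le_norm _
      have h5 : n2 τ y * n2 τ (y - p.1) ≤ 1 * δ :=
        mul_le_mul h3 hp1.le (n2_nonneg _) zero_le_one
      linarith
    -- the coefficients
    set b : Γ → H →L[ℂ] H := fun g => fc e v w g with hb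
    set α : Γ → H →L[ℂ] H := fun g => fc e u y g with hα
    have hbA : ∀ g, b g ∈ A := fun g => (h.fc_N hv hw g).1
    have hαA : ∀ g, α g ∈ A := fun g => (h.fc_M hy g).1
    have hEe : ∀ n i, E * e n i i = e n i i * E := fun n i =>
      hcm.comm E hE _ ((h.sys.mu n).diag i)
    have hEb : ∀ g, E * b g = b g := by
      intro g
      have h1 := h.sys.EA_mod (a := E) (b := 1) hEe (fun n i => by rw [one_mul, mul_one])
        (w * star (v g))
      rw [mul_one, mul_one, ← mul_assoc, hwE] at h1
      exact h1.symm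
    have hEα : ∀ g, E * α g = α g := by
      intro g
      have h1 := h.sys.EA_mod (a := E) (b := 1) hEe (fun n i => by rw [one_mul, mul_one])
        (y * star (u g))
      rw [mul_one, mul_one, ← mul_assoc, hEy] at h1
      exact h1.symm
    have s3 : (τ (w * star p.2)).re = ∑ g ∈ F, (τ (b g * star (a g))).re := by
      rw [hpb, star_sum, Finset.mul_sum, map_sum, Complex.re_sum]
      refine Finset.sum_congr rfl fun g _ => ?_
      rw [(h.fc_N hv hw g).2 _ (star_mem (haA g)), star_mul, mul_assoc]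
    have s4 : (τ (y * star p.1)).re = ∑ g ∈ F, (τ (α g * star (a g))).re := by
      rw [hpa, star_sum, Finset.mul_sum, map_sum, Complex.re_sum]
      refine Finset.sum_congr rfl fun g _ => ?_
      rw [(h.fc_M hy g).2 _ (star_mem (haA g)), star_mul, ← mul_assoc]
    have s5 : ∀ g, (τ (α g * star (a g))).re - (τ (b g * star (a g))).re ≤
        500 * (τ (E * ((b g - α g) * star (b g - α g)))).re +
          1 / 2000 * (τ ((E * a g) * star (E * a g))).re := by
      intro g
      have hd : b g - α g ∈ A := sub_mem (hbA g) (hαA g)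
      have hEd : E * (b g - α g) = b g - α g := by rw [mul_sub, hEb, hEα]
      have hdE : (b g - α g) * E = E * (b g - α g) := hcm.comm _ hd _ hE
      rw [Den2b_square hPE hdE]
      have hX : E * (b g - α g) ∈ M := hcm.le _ (mul_mem hE hd)
      have hY : E * a g ∈ M := hcm.le _ (mul_mem hE (haA g))
      have h1 := hcm.trace.cs hX hY
      have e1 : (τ (α g * star (a g))).re - (τ (b g * star (a g))).re =
          -(τ (E * (b g - α g) * star (E * a g))).re := by
        have e2 : E * (b g - α g) * star (E * a g) = (b g - α g) * star (a g) := by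
          rw [star_mul, hPE.sa, hEd]
          calc (b g - α g) * (star (a g) * E) = (b g - α g) * (E * star (a g)) := by
                rw [hcm.comm _ (star_mem (haA g)) _ hE]
            _ = ((b g - α g) * E) * star (a g) := by noncomm_ring
            _ = (b g - α g) * star (a g) := by rw [hdE, hEd]
        rw [e2, sub_mul, map_sub, Complex.sub_re]
        ring
      rw [e1]
      have h2 : (τ (E * (b g - α g) * star (E * (b g - α g)))).re =
          n2 τ (E * (b g - α g)) ^ 2 := by
        rw [hcm.trace.n2_sq hX, Complex.ofReal_re]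
      have h3 : (τ (E * a g * star (E * a g))).re = n2 τ (E * a g) ^ 2 := by
        rw [hcm.trace.n2_sq hY, Complex.ofReal_re]
      rw [h2, h3]
      have h4 : -(τ (E * (b g - α g) * star (E * a g))).re ≤
          ‖τ (E * (b g - α g) * star (E * a g))‖ :=
        (neg_le_abs _).trans (Complex.abs_re_le_norm _)
      nlinarith [sq_nonneg (1000 * n2 τ (E * (b g - α g)) - n2 τ (E * a g))]
    have s6 : ∑ g ∈ F, (τ (E * ((b g - α g) * star (b g - α g)))).re ≤
        3 / 10 ^ 6 * (τ E).re := by
      refine (h.coef_diff hv F hE hPE hw hy).trans ?_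
      refine mul_le_mul_of_nonneg_right ?_ hτE
      have h1 : ‖E * (w - y)‖ ≤ κ := by
        rw [mul_sub, hwE, hEy]
        exact hwy
      have h2 : ‖E * (w - y)‖ ^ 2 ≤ κ ^ 2 := pow_le_pow_left₀ (norm_nonneg _) h1 2
      have h3 : ‖y‖ ^ 2 ≤ 1 := by nlinarith [norm_nonneg y]
      have h4 : κ ^ 2 ≤ (1 / 10 ^ 8) ^ 2 := pow_le_pow_left₀ hκ0 hκ 2
      norm_num at h4 ⊢
      linarith
    have s7 : ∑ g ∈ F, (τ ((E * a g) * star (E * a g))).re ≤ 2 * (τ E).re + 2 * δ ^ 2 := by
      have h1 := Den2b_norm h F (fun g => E * a g) (fun g => mul_mem hE (haA g))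
      have h2 : ∑ g ∈ F, E * a g * u g = E * p.1 := by
        rw [hpa, Finset.mul_sum]
        exact Finset.sum_congr rfl fun g _ => mul_assoc _ _ _
      rw [h2] at h1
      rw [← Complex.re_sum, ← h1]
      have hEp : E * p.1 ∈ M := mul_mem hEM hpM
      rw [hcm.trace.n2_sq hEp, Complex.ofReal_re]
      have h3 : n2 τ (E * p.1) ≤ n2 τ y + δ := by
        have e1 : E * p.1 = y + -(E * (y - p.1)) := by rw [mul_sub, hEy]; abel
        rw [e1]
        have h5 : -(E * (y - p.1)) ∈ M := neg_mem (mul_mem hEM (sub_mem hy hpM))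
        refine (hcm.trace.n2_add_le hy h5).trans ?_
        have h6 : n2 τ (-(E * (y - p.1))) ≤ δ := by
          have h7 : -(E * (y - p.1)) = (-E) * (y - p.1) := by rw [neg_mul]
          rw [h7]
          have h8 := hcm.trace.n2_mul_left (neg_mem hEM) (sub_mem hy hpM)
          rw [norm_neg] at h8
          have h9 : ‖E‖ * n2 τ (y - p.1) ≤ 1 * δ :=
            mul_le_mul hEn hp1.le (n2_nonneg _) zero_le_one
          linarith
        linarith
      have h4 : n2 τ y ^ 2 ≤ (τ E).re := by
        have h5 := hcm.trace.n2_sq hy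
        have h6 : (τ (y * star y)).re = n2 τ y ^ 2 := by rw [h5, Complex.ofReal_re]
        rw [← h6]
        exact t3
      nlinarith [n2_nonneg (τ := τ) (E * p.1), n2_nonneg (τ := τ) y, sq_nonneg (n2 τ y - δ)]
    have s8 : (τ (y * star p.1)).re - (τ (w * star p.2)).re ≤
        500 * (3 / 10 ^ 6 * (τ E).re) + 1 / 2000 * (2 * (τ E).re + 2 * δ ^ 2) := by
      rw [s3, s4, ← Finset.sum_sub_distrib]
      refine (Finset.sum_le_sum fun g _ => s5 g).trans ?_
      rw [Finset.sum_add_distrib, ← Finset.mul_sum, ← Finset.mul_sum]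
      linarith
    have s9 : δ ^ 2 ≤ δ := by
      rw [sq]
      exact mul_le_of_le_one_left hδ.le hδ1
    linarith
  have key2 : (τ (y * star y)).re - 3 / 1000 * (τ E).re ≤ (τ (w * star w₁)).re := by
    refine le_of_forall_pos_le_add fun δ hδ => ?_
    have h1 := key (min 1 (δ / 3)) (lt_min one_pos (by linarith)) (min_le_left _ _)
    have h2 : min 1 (δ / 3) ≤ δ / 3 := min_le_right _ _
    linarith
  have e1 : (τ ((w - w₁) * star (w - w₁))).re = (τ (w * star w)).re -
      2 * (τ (w * star w₁)).re + (τ (w₁ * star w₁)).re := by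
    have e2 : (w - w₁) * star (w - w₁) = w * star w - w * star w₁ - star (w * star w₁) +
        w₁ * star w₁ := by
      rw [star_sub, star_mul, star_star]
      noncomm_ring
    rw [e2, map_add, map_sub, map_sub, h.pos.conj (w * star w₁)]
    simp only [Complex.add_re, Complex.sub_re, Complex.conj_re]
    ring
  rw [e1, t1]
  have e3 : κ * (τ E).re ≤ 1 / 10 ^ 8 * (τ E).re := mul_le_mul_of_nonneg_right hκ hτE
  linarith

end Pool.Agent.KKS

end
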