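import Pool.Agent.Lib.MP_5c1ef7_an.P13

/-!
# P14: density in N, the isomorphism
-/

set_option autoImplicit false
set_option linter.unusedSectionVars false

section

/-!
# Den3: spectral projections, vanishing coefficients
-/


open Filter Topology

namespace Pool.Agent.KKS

variable {H : Type*} [NormedAddCommGroup H] [InnerProductSpace ℂ H] [CompleteSpace H]
variable {Γ : Type*} [Group Γ] {M N A : VonNeumannAlgebra H} {u v : Γ → H →L[ℂ] H}
  {τ : (H →L[ℂ] H) →L[ℂ] ℂ} {k : ℕ → ℕ} {e : ∀ n, Fin (k n) → Fin (k n) → H →L[ℂ] H} {κ : ℝ}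

/-- a spectral projection: `s = ` support of `(b - t)⁺` -/
theorem exists_spectral {R : VonNeumannAlgebra H} {b : H →L[ℂ] H} (hb : b ∈ R) (h0 : 0 ≤ b)
    {t : ℝ} (ht : t < ‖b‖) (ht0 : 0 ≤ t) : ∃ s ∈ R, PJ s ∧ s ≠ 0 ∧
      ∀ ξ : H, t * ‖s ξ‖ ^ 2 ≤ (inner ℂ (s ξ) (b (s ξ))).re := by
  have hbs : IsSelfAdjoint b := h0.isSelfAdjoint
  have hcf : Continuous fun x : ℝ => max (x - t) 0 := by fun_prop
  have hcg : Continuous fun x : ℝ => x - t := by fun_prop
  obtain ⟨p, hp⟩ : ∃ p : H →L[ℂ] H, p = cfc (fun x : ℝ => max (x - t) 0) b := ⟨_, rfl⟩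
  have hpR : p ∈ R := by
    rw [hp]
    exact cfc_mem_vn hb _
  have hp0 : 0 ≤ p := by
    rw [hp]
    exact cfc_nonneg fun x _ => le_max_right _ _
  have hps : star p = p := hp0.isSelfAdjoint.star_eq
  have hbt : b - algebraMap ℝ (H →L[ℂ] H) t = cfc (fun x : ℝ => x - t) b := by
    rw [cfc_sub (fun x : ℝ => x) (fun _ : ℝ => t) b continuousOn_id continuousOn_const,
      cfc_id' ℝ b hbs, cfc_const t b hbs]
  have hbp : (b - algebraMap ℝ (H →L[ℂ] H) t) * p = p * p := by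
    rw [hbt, hp, ← cfc_mul (fun x : ℝ => x - t) (fun x : ℝ => max (x - t) 0) b
      hcg.continuousOn hcf.continuousOn,
      ← cfc_mul (fun x : ℝ => max (x - t) 0) (fun x : ℝ => max (x - t) 0) b
      hcf.continuousOn hcf.continuousOn]
    congr 1
    funext x
    rcases le_total (x - t) 0 with h1 | h1
    · rw [max_eq_right h1, mul_zero, mul_zero]
    · rw [max_eq_left h1]
  have hpne : p ≠ 0 := by
    intro hp0'
    have h1 : b - algebraMap ℝ (H →L[ℂ] H) t ≤ 0 := by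
      rw [← hp0', hbt, hp]
      exact cfc_mono (fun x _ => le_max_left _ _) hcg.continuousOn hcf.continuousOn
    have h2 : b ≤ algebraMap ℝ (H →L[ℂ] H) t := sub_nonpos.1 h1
    have h3 := (CStarAlgebra.norm_le_iff_le_algebraMap b ht0 h0).2 h2
    linarith
  obtain ⟨s, hsR, hsP, hsp, -, -, hcl⟩ := support hpR hp0
  refine ⟨s, hsR, hsP, ?_, ?_⟩
  · rintro rfl
    exact hpne (by rw [← hsp, zero_mul])
  · have hclosed : IsClosed {η : H | t * ‖η‖ ^ 2 ≤ (inner ℂ η (b η)).re} := by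
      refine isClosed_le (by fun_prop) ?_
      exact Complex.continuous_re.comp (continuous_id.inner b.continuous)
    have hsub : Set.range p ⊆ {η : H | t * ‖η‖ ^ 2 ≤ (inner ℂ η (b η)).re} := by
      rintro _ ⟨ζ, rfl⟩
      have h1 : 0 ≤ p * (p * p) := by
        have h2 := star_left_conjugate_nonneg hp0 p
        rwa [hps, mul_assoc] at h2
      have h2 := ((ContinuousLinearMap.nonneg_iff_isPositive _).1 h1).re_inner_nonneg_right ζ
      have h3 : inner ℂ ζ ((p * (p * p)) ζ) = inner ℂ (p ζ) ((p * p) ζ) := by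
        have h4 : inner ℂ ((star p) ζ) ((p * p) ζ) = inner ℂ ζ (p ((p * p) ζ)) := by
          rw [ContinuousLinearMap.star_eq_adjoint, ContinuousLinearMap.adjoint_inner_left]
        rw [hps] at h4
        exact h4.symm
      have h5 : (p * p) ζ = b (p ζ) - (t : ℂ) • p ζ := by
        rw [← hbp]
        have h6 : (algebraMap ℝ (H →L[ℂ] H) t) (p ζ) = (t : ℂ) • p ζ := by
          rw [Algebra.algebraMap_eq_smul_one]
          rfl
        change b (p ζ) - (algebraMap ℝ (H →L[ℂ] H) t) (p ζ) = _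
        rw [h6]
      rw [h3, h5, inner_sub_right, inner_smul_right, inner_self_eq_norm_sq_to_K] at h2
      have h7 : (((t : ℂ) * ((‖p ζ‖ : ℂ)) ^ 2)).re = t * ‖p ζ‖ ^ 2 := by
        rw [← Complex.ofReal_pow, ← Complex.ofReal_mul, Complex.ofReal_re]
      have h8 : 0 ≤ (inner ℂ (p ζ) (b (p ζ)) - (t : ℂ) * ((‖p ζ‖ : ℂ)) ^ 2).re := h2
      rw [Complex.sub_re, h7] at h8
      change t * ‖p ζ‖ ^ 2 ≤ (inner ℂ (p ζ) (b (p ζ))).re
      linarith
    intro ξ
    exact closure_minimal hsub hclosed (hcl ξ)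

/-- an element of `N` with vanishing Fourier coefficients is orthogonal to the closure of the second components of
the graph, and `w₁ x` has vanishing Fourier coefficients if `w₁` has a partner -/
theorem Sit.zero_coef_mul (h : Sit M N A τ u k e κ) (hv : Lifts M N A τ u v) {x y w₁ : H →L[ℂ] H}
    (hx : x ∈ N) (h0 : ∀ g, fc e v x g = 0) (hr : Rel M N τ (Gr A u v) y w₁) :
    ∀ g, fc e v (w₁ * x) g = 0 := by
  have hvN : ∀ g, v g ∈ N := fun g => (hv.lift g).memN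
  have hAN : ∀ a ∈ A, a ∈ N := h.AN
  have hconj : ∀ g, ∀ b ∈ A, star (v g) * b * v g ∈ A := by
    intro g b hb
    have h1 := (hv.lift g⁻¹).same' hb
    have h2 := (hv.lift g⁻¹).normM b hb
    rw [← h1, ← hv.adj, star_star] at h2
    exact h2
  -- orthogonality
  have hort : ∀ g, ∀ b ∈ A, ∀ c ∈ A, ∀ s, τ (c * v s * (x * star (v g) * b)) = 0 := by
    intro g b hb c hc s
    have hbN := hAN b hb
    have hcN := hAN c hc
    have hxg : x * star (v g) * b ∈ N := mul_mem (mul_mem hx (star_mem (hvN g))) hbN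
    rw [h.trN.tracial _ (mul_mem hcN (hvN s)) _ hxg]
    have h1 : x * star (v g) * b * (c * v s) =
        x * star (v (s⁻¹ * g)) * (star (v s) * (b * c) * v s) := by
      have h2 : star (v (s⁻¹ * g)) * star (v s) = star (v g) := by
        rw [← star_mul, ← hv.mul, mul_inv_cancel_left]
      calc x * star (v g) * b * (c * v s) = x * star (v g) * (b * c) * v s := by
            simp only [mul_assoc]
        _ = x * (star (v (s⁻¹ * g)) * star (v s)) * (b * c) * v s := by rw [h2]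
        _ = x * star (v (s⁻¹ * g)) * (star (v s) * (b * c) * v s) := by
            simp only [mul_assoc]
    rw [h1, ← (h.fc_N hv hx (s⁻¹ * g)).2 _ (hconj s _ (mul_mem hb hc)), h0, zero_mul, map_zero]
  have hortG : ∀ g, ∀ b ∈ A, ∀ q ∈ Gr A u v, τ (q.2 * (x * star (v g) * b)) = 0 := by
    intro g b hb q hq
    obtain ⟨F, a, ha, -, hq2⟩ := mem_Gr hq
    rw [hq2, Finset.sum_mul, map_sum]
    exact Finset.sum_eq_zero fun s _ => hort g b hb (a s) (ha s) s
  intro g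
  have hw1 : w₁ ∈ N := hr.memN
  have hwx : w₁ * x ∈ N := mul_mem hw1 hx
  obtain ⟨hfA, hf⟩ := h.fc_N hv hwx g
  have hzero : ∀ b ∈ A, τ (fc e v (w₁ * x) g * b) = 0 := by
    intro b hb
    rw [hf b hb]
    have hT : x * star (v g) * b ∈ N := mul_mem (mul_mem hx (star_mem (hvN g))) (hAN b hb)
    obtain ⟨T, hTdef⟩ : ∃ T, T = x * star (v g) * b := ⟨_, rfl⟩
    have h1 : w₁ * x * star (v g) * b = w₁ * T := by
      rw [hTdef]
      simp only [mul_assoc]
    rw [h1]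
    rw [← hTdef] at hT
    by_contra hne
    have hpos : 0 < ‖τ (w₁ * T)‖ := norm_pos_iff.2 hne
    have hn : 0 ≤ n2 τ (star T) := n2_nonneg _
    obtain ⟨q, hq, -, hq2⟩ := hr.approx (‖τ (w₁ * T)‖ / (n2 τ (star T) + 1)) (by positivity)
    have hqN : q.2 ∈ N := (h.grS hv).memN q hq
    have h2 : τ (w₁ * T) = τ ((w₁ - q.2) * star (star T)) := by
      rw [star_star, sub_mul, map_sub, hTdef, hortG g b hb q hq, sub_zero]
    have h3 := h.trN.cs (sub_mem hw1 hqN) (star_mem hT)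
    rw [← h2] at h3
    have h4 : n2 τ (w₁ - q.2) * n2 τ (star T) ≤
        ‖τ (w₁ * T)‖ / (n2 τ (star T) + 1) * n2 τ (star T) :=
      mul_le_mul_of_nonneg_right hq2.le hn
    have h5 : ‖τ (w₁ * T)‖ / (n2 τ (star T) + 1) * n2 τ (star T) < ‖τ (w₁ * T)‖ := by
      rw [div_mul_eq_mul_div, div_lt_iff₀ (by positivity)]
      nlinarith
    linarith
  have h6 : star (fc e v (w₁ * x) g) = 0 := by
    refine h.trN.faithful _ (star_mem (hAN _ hfA)) ?_
    rw [star_star]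
    exact hzero _ (star_mem hfA)
  have h7 := congrArg star h6
  rwa [star_star, star_zero] at h7

end Pool.Agent.KKS

end

section

/-!
# Den3a: vanishing coefficients imply zero
-/


open Filter Topology

namespace Pool.Agent.KKS

variable {H : Type*} [NormedAddCommGroup H] [InnerProductSpace ℂ H] [CompleteSpace H]
variable {Γ : Type*} [Group Γ] {M N A : VonNeumannAlgebra H} {u v : Γ → H →L[ℂ] H}
  {τ : (H →L[ℂ] H) →L[ℂ] ℂ} {k : ℕ → ℕ} {e : ∀ n, Fin (k n) → Fin (k n) → H →L[ℂ] H} {κ : ℝ}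

private theorem Den3a_norm_one (h : Sit M N A τ u k e κ) (hv : Lifts M N A τ u v)
    {x : H →L[ℂ] H} (hx : x ∈ N) (h0 : ∀ g, fc e v x g = 0) (hx1 : ‖x‖ = 1) : False := by
  have hxs : star x ∈ N := star_mem hx
  have hb : x * star x ∈ N := mul_mem hx hxs
  have hb0 : 0 ≤ x * star x := mul_star_self_nonneg x
  have hbn : ‖x * star x‖ = 1 := by
    rw [CStarRing.norm_self_mul_star, hx1, mul_one]
  obtain ⟨s, hsN, hsP, hs0, hsb⟩ := exists_spectral hb hb0 (t := 9 / 10)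
    (by rw [hbn]; norm_num) (by norm_num)
  have hτs : 0 < (τ s).re := by
    rcases (h.trN.nonneg hsN hsP.nonneg).1.lt_or_eq with h1 | h1
    · exact h1
    · exact absurd (h.trN.eq_zero hsN hsP.nonneg h1.symm) hs0
  obtain ⟨n, hn⟩ : ∃ n, 1 / (τ s).re ≤ (k n : ℝ) := by
    have h1 : Tendsto (fun n => (k n : ℝ)) atTop atTop :=
      tendsto_natCast_atTop_atTop.comp h.sys.kinf
    exact (h1.eventually_ge_atTop _).exists
  have hmu := h.sys.mu n
  have hkpos : (0 : ℝ) < k n := by exact_mod_cast hmu.pos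
  obtain ⟨E, hEdef⟩ : ∃ E, E = e n ⟨0, hmu.pos⟩ ⟨0, hmu.pos⟩ := ⟨_, rfl⟩
  have hE : E ∈ A := by rw [hEdef]; exact hmu.diag _
  have hEN : E ∈ N := h.AN E hE
  have hPE : PJ E := by rw [hEdef]; exact hmu.pj _
  have hτE : (τ E).re = 1 / (k n : ℝ) := by
    have h1 : τ E = 1 / (k n : ℂ) := by
      rw [hEdef]
      exact hmu.trace h.trN (h.eN n) _
    rw [h1]
    have h2 : (1 : ℂ) / (k n : ℂ) = ((1 / (k n : ℝ) : ℝ) : ℂ) := by push_cast; rfl
    rw [h2, Complex.ofReal_re]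
  have hτE0 : 0 < (τ E).re := by rw [hτE]; positivity
  have hle : (τ E).re ≤ (τ s).re := by
    rw [hτE, div_le_iff₀ hkpos]
    rw [div_le_iff₀ hτs] at hn
    linarith
  obtain ⟨vv, hvvN, hvv1, hvv2⟩ := comparison h.facN h.trN hPE hsP hEN hsN hle
  have hpj : PJ (star vv * vv) := by rw [hvv1]; exact hPE
  have hvvE : vv * E = vv := by
    have h1 := hpj.pi.1
    rwa [hvv1] at h1
  have hwN : star vv ∈ N := star_mem hvvN
  have hEw : E * star vv = star vv := by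
    have h1 := congrArg star hvvE
    rwa [star_mul, hPE.sa] at h1
  have hwn : ‖star vv‖ ≤ 1 := by
    rw [norm_star]
    have h1 : ‖star vv * vv‖ = ‖vv‖ * ‖vv‖ := CStarRing.norm_star_mul_self
    rw [hvv1] at h1
    have h2 := hPE.norm_le
    nlinarith [norm_nonneg vv]
  obtain ⟨y, w₁, hr, hw1, hw2⟩ := h.near_partner hv hE hPE hwN hEw hwn
  have hw1N : w₁ ∈ N := hr.memN
  -- lower bound
  have hlow : 9 / 10 * (τ E).re ≤ n2 τ (star vv * x) ^ 2 := by
    have h1 : ((9 / 10 : ℝ) : ℂ) • E ≤ star vv * (x * star x) * vv := by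
      rw [← sub_nonneg, ContinuousLinearMap.nonneg_iff_isPositive,
        ContinuousLinearMap.isPositive_iff_complex]
      intro ξ
      have h2 : inner ℂ ((star vv * (x * star x) * vv - ((9 / 10 : ℝ) : ℂ) • E) ξ) ξ =
          (((inner ℂ (vv ξ) ((x * star x) (vv ξ))).re - 9 / 10 * ‖vv ξ‖ ^ 2 : ℝ) : ℂ) := by
        have h3 : (star vv * (x * star x) * vv - ((9 / 10 : ℝ) : ℂ) • E) ξ =
            star vv ((x * star x) (vv ξ)) - ((9 / 10 : ℝ) : ℂ) • star vv (vv ξ) := by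
          rw [← hvv1]
          rfl
        rw [h3, inner_sub_left, inner_smul_left, ContinuousLinearMap.star_eq_adjoint,
          ContinuousLinearMap.adjoint_inner_left, ContinuousLinearMap.adjoint_inner_left,
          inner_self_eq_norm_sq_to_K, Complex.conj_ofReal]
        have h4 : inner ℂ ((x * star x) (vv ξ)) (vv ξ) =
            ((inner ℂ (vv ξ) ((x * star x) (vv ξ))).re : ℂ) := by
          have h5 : (x * star x).IsPositive := by
            rw [← ContinuousLinearMap.nonneg_iff_isPositive]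
            exact hb0
          have h6 := h5.inner_nonneg_right (vv ξ)
          have h7 := h5.inner_nonneg_left (vv ξ)
          have h8 : inner ℂ ((x * star x) (vv ξ)) (vv ξ) =
              inner ℂ (vv ξ) ((x * star x) (vv ξ)) := by
            rw [← inner_conj_symm]
            exact Complex.conj_eq_iff_im.2 (Complex.nonneg_iff.1 h6).2.symm
          rw [h8]
          exact (Complex.conj_eq_iff_re.1
            (Complex.conj_eq_iff_im.2 (Complex.nonneg_iff.1 h6).2.symm)).symm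
        rw [h4]
        push_cast
        rfl
      rw [h2]
      have h3 := hsb (vv ξ)
      have h4 : s (vv ξ) = vv ξ := by
        have h5 : (s * vv) ξ = vv ξ := by rw [hvv2]
        exact h5
      rw [h4] at h3
      refine ⟨?_, ?_⟩
      · rfl
      · change 0 ≤ (inner ℂ (vv ξ) ((x * star x) (vv ξ))).re - 9 / 10 * ‖vv ξ‖ ^ 2
        linarith
    have h2 := h.pos.mono h1
    rw [map_smul, smul_eq_mul, Complex.re_ofReal_mul] at h2
    have h3 : star vv * (x * star x) * vv = star vv * x * star (star vv * x) := by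
      rw [star_mul, star_star]
      simp only [mul_assoc]
    rw [h3, h.trN.n2_sq (mul_mem hwN hx), Complex.ofReal_re] at h2
    exact h2
  -- the second part
  have hz : w₁ * x ∈ N := mul_mem hw1N hx
  have hzn : ‖w₁ * x‖ ≤ 2 := by
    refine (norm_mul_le _ _).trans ?_
    rw [hx1, mul_one]
    exact hw1
  have hz0 := h.zero_coef hv hE hPE hz (h.zero_coef_mul hv hx h0 hr)
  have hsec : n2 τ (E * (w₁ * x)) ^ 2 ≤ 12 * κ * (τ E).re := by
    have h1 := h.trN.n2_sq (mul_mem hEN hz)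
    have h2 : E * (w₁ * x) * star (E * (w₁ * x)) =
        E * (w₁ * x * star (w₁ * x)) * E := by
      rw [star_mul, hPE.sa]
      simp only [mul_assoc]
    have h3 : τ (E * (w₁ * x * star (w₁ * x)) * E) = τ (E * (w₁ * x * star (w₁ * x))) := by
      rw [h.trN.tracial _ (mul_mem hEN (mul_mem hz (star_mem hz))) _ hEN, ← mul_assoc, hPE.idem]
    rw [h2, h3] at h1
    rw [h1, Complex.ofReal_re] at hz0
    have hκ := h.κ0
    have h4 : ‖w₁ * x‖ ^ 2 ≤ 4 := by nlinarith [norm_nonneg (w₁ * x)]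
    have h5 : 3 * κ * ‖w₁ * x‖ ^ 2 * (τ E).re ≤ 3 * κ * 4 * (τ E).re := by
      gcongr
    linarith
  -- the first part
  have hfst : n2 τ (E * ((star vv - w₁) * x)) ^ 2 ≤ 1 / 50 * (τ E).re := by
    have hd : star vv - w₁ ∈ N := sub_mem hwN hw1N
    have h1 := h.trN.n2_mul_left hEN (mul_mem hd hx)
    have h2 := h.trN.n2_mul_right hx hd
    rw [hx1, one_mul] at h2
    have h3 := hPE.norm_le
    have h4 : 0 ≤ n2 τ ((star vv - w₁) * x) := n2_nonneg _
    have h5 : n2 τ (E * ((star vv - w₁) * x)) ≤ n2 τ (star vv - w₁) := by nlinarith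
    have h6 : 0 ≤ n2 τ (E * ((star vv - w₁) * x)) := n2_nonneg _
    have h7 := h.trN.n2_sq hd
    rw [h7, Complex.ofReal_re] at hw2
    nlinarith
  have hadd : n2 τ (star vv * x) ≤ n2 τ (E * ((star vv - w₁) * x)) + n2 τ (E * (w₁ * x)) := by
    have h1 : star vv * x = E * ((star vv - w₁) * x) + E * (w₁ * x) := by
      rw [← mul_add, ← add_mul, sub_add_cancel, ← mul_assoc, hEw]
    conv_lhs => rw [h1]
    exact h.trN.n2_add_le (mul_mem hEN (mul_mem (sub_mem hwN hw1N) hx)) (mul_mem hEN hz)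
  have hκ1 := h.κ1
  have hκ0 := h.κ0
  have ha : 0 ≤ n2 τ (E * ((star vv - w₁) * x)) := n2_nonneg _
  have hb' : 0 ≤ n2 τ (E * (w₁ * x)) := n2_nonneg _
  have hc : 0 ≤ n2 τ (star vv * x) := n2_nonneg _
  have h12 : 12 * κ * (τ E).re ≤ 1 / 50 * (τ E).re := by nlinarith
  have hsum : n2 τ (star vv * x) ^ 2 ≤
      2 * n2 τ (E * ((star vv - w₁) * x)) ^ 2 + 2 * n2 τ (E * (w₁ * x)) ^ 2 := by
    nlinarith [sq_nonneg (n2 τ (E * ((star vv - w₁) * x)) - n2 τ (E * (w₁ * x)))]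
  nlinarith

/-- (10.9): `‖x‖ = 1`, `b = x x⋆`, `s` the spectral projection for `9/10`, `E` a diagonal matrix unit with `τ E ≤ τ s`,
`vv ∈ N`, `vv⋆ vv = E`, `s vv = vv`, `w = star vv`; `w₁` from `near_partner`; `wx = E (w - w₁) x + E w₁ x`,
`9/10 τ E ≤ ‖w x‖₂² `, `‖(w - w₁) x‖₂² ≤ τ E / 50`, `‖E w₁ x‖₂² ≤ 12 κ τ E` (`zero_coef`) -/
theorem Sit.eq_zero_of_coef (h : Sit M N A τ u k e κ) (hv : Lifts M N A τ u v) {x : H →L[ℂ] H}
    (hx : x ∈ N) (h0 : ∀ g, fc e v x g = 0) : x = 0 := by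
  by_contra hne
  have hn : ‖x‖ ≠ 0 := norm_ne_zero_iff.2 hne
  have hsm : ∀ (c : ℂ) {z : H →L[ℂ] H}, z ∈ N → c • z ∈ N := fun c z hz =>
    mem_of_comm fun S hS => by rw [mul_smul_comm, smul_mul_assoc, hS z hz]
  refine Den3a_norm_one h hv (hsm ((‖x‖⁻¹ : ℝ) : ℂ) hx) (fun g => ?_) ?_
  · have h1 := h0 g
    unfold fc at h1 ⊢
    rw [smul_mul_assoc, h.sys.EA_smul, h1, smul_zero]
  · rw [norm_smul, Complex.norm_real, norm_inv, norm_norm, inv_mul_cancel₀ hn]

end Pool.Agent.KKS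

end

section

/-!
# Den3b: density in N and the isomorphism
-/


open Filter Topology

namespace Pool.Agent.KKS

variable {H : Type*} [NormedAddCommGroup H] [InnerProductSpace ℂ H] [CompleteSpace H]
variable {Γ : Type*} [Group Γ] {M N A : VonNeumannAlgebra H} {u v : Γ → H →L[ℂ] H}
  {τ : (H →L[ℂ] H) →L[ℂ] ℂ} {k : ℕ → ℕ} {e : ∀ n, Fin (k n) → Fin (k n) → H →L[ℂ] H} {κ : ℝ}

private theorem Den3b_smul {N : VonNeumannAlgebra H} (c : ℂ) {z : H →L[ℂ] H} (hz : z ∈ N) :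
    c • z ∈ N :=
  mem_of_comm fun S hS => by rw [mul_smul_comm, smul_mul_assoc, hS z hz]

private theorem Den3b_orth {M N : VonNeumannAlgebra H} {τ : (H →L[ℂ] H) → ℂ}
    {G : Submodule ℂ ((H →L[ℂ] H) × (H →L[ℂ] H))} (hG : GrS M N τ G) {w : H →L[ℂ] H}
    (hw : w ∈ N) {D δ : ℝ} (hδ : 0 ≤ δ) (hD : 0 ≤ D) (hinf : ∀ p ∈ G, D ≤ n2 τ (w - p.2))
    {p : (H →L[ℂ] H) × (H →L[ℂ] H)} (hp : p ∈ G) (hle : n2 τ (w - p.2) ^ 2 ≤ D ^ 2 + δ ^ 2)
    {q : (H →L[ℂ] H) × (H →L[ℂ] H)} (hq : q ∈ G) :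
    ‖τ ((w - p.2) * star q.2)‖ ≤ δ * n2 τ q.2 := by
  have hτ := hG.trN
  have hqN := hG.memN q hq
  have hpN := hG.memN p hp
  obtain ⟨a, ha⟩ : ∃ a, a = w - p.2 := ⟨_, rfl⟩
  obtain ⟨b, hb⟩ : ∃ b, b = q.2 := ⟨_, rfl⟩
  have haN : a ∈ N := by rw [ha]; exact sub_mem hw hpN
  have hbN : b ∈ N := by rw [hb]; exact hqN
  obtain ⟨c, hc⟩ : ∃ c, c = τ (a * star b) := ⟨_, rfl⟩
  rw [← ha, ← hb, ← hc]
  rw [← ha] at hle
  by_cases hb0 : n2 τ b = 0
  · have h1 := hτ.n2_eq_zero hbN hb0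
    rw [h1, star_zero, mul_zero, hτ.zero] at hc
    rw [hc, norm_zero]
    exact mul_nonneg hδ (n2_nonneg _)
  · have hbp : 0 < n2 τ b := lt_of_le_of_ne (n2_nonneg _) (Ne.symm hb0)
    obtain ⟨s, hs⟩ : ∃ s : ℝ, s = 1 / n2 τ b ^ 2 := ⟨_, rfl⟩
    have hcb : ((s : ℂ) * c) • b ∈ N := Den3b_smul _ hbN
    have h1 := hinf (p + ((s : ℂ) * c) • q) (G.add_mem hp (G.smul_mem _ hq))
    have h2 : w - (p + ((s : ℂ) * c) • q).2 = a - ((s : ℂ) * c) • b := by
      rw [ha, hb]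
      change w - (p.2 + ((s : ℂ) * c) • q.2) = w - p.2 - ((s : ℂ) * c) • q.2
      abel
    rw [h2] at h1
    have h3 : (n2 τ (a - ((s : ℂ) * c) • b)) ^ 2 =
        n2 τ a ^ 2 - 2 * s * ‖c‖ ^ 2 + s ^ 2 * ‖c‖ ^ 2 * n2 τ b ^ 2 := by
      have h4 := hτ.n2_sq (sub_mem haN hcb)
      have h5 : (a - ((s : ℂ) * c) • b) * star (a - ((s : ℂ) * c) • b) =
          (a * star a - (star ((s : ℂ) * c)) • (a * star b)) -
            (((s : ℂ) * c) • (b * star a) - (((s : ℂ) * c) * star ((s : ℂ) * c)) •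
              (b * star b)) := by
        rw [star_sub, star_smul, sub_mul, mul_sub, mul_sub, mul_smul_comm, smul_mul_assoc,
          smul_mul_assoc, mul_smul_comm, smul_smul]
      have hsN : ∀ (r : ℂ) {y z : H →L[ℂ] H}, y ∈ N → z ∈ N → r • (y * star z) ∈ N :=
        fun r y z hy hz => Den3b_smul r (mul_mem hy (star_mem hz))
      have h6 : τ (b * star a) = star c := by
        have h7 : b * star a = star (a * star b) := by rw [star_mul, star_star]
        rw [h7, hτ.conj (mul_mem haN (star_mem hbN)), ← hc]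
        rfl
      rw [h5, hτ.sub (sub_mem (mul_mem haN (star_mem haN)) (hsN _ haN hbN))
        (sub_mem (hsN _ hbN haN) (hsN _ hbN hbN)),
        hτ.sub (mul_mem haN (star_mem haN)) (hsN _ haN hbN),
        hτ.sub (hsN _ hbN haN) (hsN _ hbN hbN),
        hτ.smul _ (mul_mem haN (star_mem hbN)), hτ.smul _ (mul_mem hbN (star_mem haN)),
        hτ.smul _ (mul_mem hbN (star_mem hbN)), ← hc, h6, hτ.n2_sq haN, hτ.n2_sq hbN] at h4
      have h8 : c * star c = ((‖c‖ ^ 2 : ℝ) : ℂ) := by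
        have h9 : c * star c = c * (starRingEnd ℂ) c := rfl
        rw [h9, Complex.mul_conj, Complex.normSq_eq_norm_sq]
      have h10 : star ((s : ℂ) * c) = (s : ℂ) * star c := by
        rw [star_mul, mul_comm]
        congr 1
        exact Complex.conj_ofReal s
      rw [h10] at h4
      have h11 : ((n2 τ a ^ 2 : ℝ) : ℂ) - (s : ℂ) * star c * c -
          ((s : ℂ) * c * star c - (s : ℂ) * c * ((s : ℂ) * star c) * ((n2 τ b ^ 2 : ℝ) : ℂ)) =
          ((n2 τ a ^ 2 : ℝ) : ℂ) - 2 * (s : ℂ) * (c * star c) +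
            (s : ℂ) ^ 2 * (c * star c) * ((n2 τ b ^ 2 : ℝ) : ℂ) := by
        ring
      rw [h11, h8] at h4
      exact_mod_cast h4.symm
    have h4 : D ^ 2 ≤ n2 τ (a - ((s : ℂ) * c) • b) ^ 2 := by
      gcongr
    rw [h3] at h4
    have h5 : s * n2 τ b ^ 2 = 1 := by
      rw [hs]
      field_simp
    have h6 : s ^ 2 * ‖c‖ ^ 2 * n2 τ b ^ 2 = s * ‖c‖ ^ 2 := by
      calc s ^ 2 * ‖c‖ ^ 2 * n2 τ b ^ 2 = s * ‖c‖ ^ 2 * (s * n2 τ b ^ 2) := by ring
        _ = s * ‖c‖ ^ 2 := by rw [h5, mul_one]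
    rw [h6] at h4
    have h7 : s * ‖c‖ ^ 2 ≤ δ ^ 2 := by linarith
    have h8 : ‖c‖ ^ 2 ≤ (δ * n2 τ b) ^ 2 := by
      have h9 : ‖c‖ ^ 2 = s * ‖c‖ ^ 2 * n2 τ b ^ 2 := by
        calc ‖c‖ ^ 2 = (s * n2 τ b ^ 2) * ‖c‖ ^ 2 := by rw [h5, one_mul]
          _ = s * ‖c‖ ^ 2 * n2 τ b ^ 2 := by ring
      rw [h9, mul_pow]
      exact mul_le_mul_of_nonneg_right h7 (sq_nonneg _)
    exact (pow_le_pow_iff_left₀ (norm_nonneg c) (mul_nonneg hδ hbp.le) two_ne_zero).1 h8

private theorem Den3b_orth' {M N : VonNeumannAlgebra H} {τ : (H →L[ℂ] H) → ℂ}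
    {G : Submodule ℂ ((H →L[ℂ] H) × (H →L[ℂ] H))} (hG : GrS M N τ G) {a : H →L[ℂ] H}
    (ha : a ∈ N) {δ : ℝ} (hδ : 0 ≤ δ)
    (ho : ∀ q ∈ G, ‖τ (a * star q.2)‖ ≤ δ * n2 τ q.2) {b : H →L[ℂ] H} (hb : b ∈ N)
    (hap : ∀ ε : ℝ, 0 < ε → ∃ q ∈ G, n2 τ (b - q.2) < ε) :
    ‖τ (a * star b)‖ ≤ δ * n2 τ b := by
  refine le_of_forall_pos_le_add fun ε hε => ?_
  have hτ := hG.trN
  have hna : 0 ≤ n2 τ a := n2_nonneg _
  obtain ⟨q, hq, hq2⟩ := hap (ε / (δ + n2 τ a + 1)) (by positivity)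
  have hqN := hG.memN q hq
  have h1 : τ (a * star b) = τ (a * star (b - q.2)) + τ (a * star q.2) := by
    rw [← hτ.add (mul_mem ha (star_mem (sub_mem hb hqN))) (mul_mem ha (star_mem hqN)),
      star_sub, mul_sub, sub_add_cancel]
  have h2 := hτ.cs ha (sub_mem hb hqN)
  have h3 := ho q hq
  have h4 : n2 τ q.2 ≤ n2 τ b + n2 τ (b - q.2) := by
    have h5 : q.2 = b + ((-1 : ℂ)) • (b - q.2) := by
      rw [neg_one_smul]
      abel
    have h6 := hτ.n2_add_le hb (Den3b_smul (-1 : ℂ) (sub_mem hb hqN))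
    rw [← h5, hτ.n2_smul _ (sub_mem hb hqN), norm_neg, norm_one, one_mul] at h6
    exact h6
  have h5 : ‖τ (a * star b)‖ ≤ ‖τ (a * star (b - q.2))‖ + ‖τ (a * star q.2)‖ := by
    rw [h1]
    exact norm_add_le _ _
  have h6 : n2 τ (b - q.2) * (δ + n2 τ a + 1) < ε := by
    rwa [lt_div_iff₀ (by positivity)] at hq2
  have h7 : 0 ≤ n2 τ (b - q.2) := n2_nonneg _
  nlinarith

/-- self-adjoint contractions -/
private theorem Den3b_sa (h : Sit M N A τ u k e κ) (hv : Lifts M N A τ u v) {w : H →L[ℂ] H}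
    (hw : w ∈ N) (hws : star w = w) (hw1 : ‖w‖ ≤ 1) {ε : ℝ} (hε : 0 < ε) :
    ∃ p ∈ Gr A u v, n2 τ (w - p.2) < ε := by
  have hG := h.grS hv
  have hτ := h.trN
  -- the infimum
  obtain ⟨D, hD⟩ : ∃ D, D = sInf {r : ℝ | ∃ p ∈ Gr A u v, r = n2 τ (w - p.2)} := ⟨_, rfl⟩
  have hne : {r : ℝ | ∃ p ∈ Gr A u v, r = n2 τ (w - p.2)}.Nonempty :=
    ⟨_, (0 : (H →L[ℂ] H) × (H →L[ℂ] H)), (Gr A u v).zero_mem, rfl⟩
  have hbdd : BddBelow {r : ℝ | ∃ p ∈ Gr A u v, r = n2 τ (w - p.2)} := by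
    refine ⟨0, ?_⟩
    rintro r ⟨p, -, rfl⟩
    exact n2_nonneg _
  have hD0 : 0 ≤ D := by
    rw [hD]
    refine Real.sInf_nonneg ?_
    rintro r ⟨p, -, rfl⟩
    exact n2_nonneg _
  have hinf : ∀ p ∈ Gr A u v, D ≤ n2 τ (w - p.2) := fun p hp => by
    rw [hD]
    exact csInf_le hbdd ⟨p, hp, rfl⟩
  have hex : ∀ n : ℕ, ∃ p ∈ Gr A u v, star p.1 = p.1 ∧ star p.2 = p.2 ∧
      n2 τ (w - p.2) ^ 2 ≤ D ^ 2 + (1 / ((n : ℝ) + 1)) ^ 2 := by
    intro n
    have hn : 0 < 1 / ((n : ℝ) + 1) := by positivity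
    have h1 : D < √(D ^ 2 + (1 / ((n : ℝ) + 1)) ^ 2) := by
      rw [Real.lt_sqrt hD0]
      have h2 : 0 < (1 / ((n : ℝ) + 1)) ^ 2 := by positivity
      linarith
    obtain ⟨r, ⟨p, hp, rfl⟩, hr⟩ := exists_lt_of_csInf_lt hne (by rw [← hD]; exact h1)
    have hpN := hG.memN p hp
    have hpadj := hG.adj p hp
    refine ⟨(1 / 2 : ℂ) • (p + (star p.1, star p.2)),
      (Gr A u v).smul_mem _ ((Gr A u v).add_mem hp hpadj), ?_, ?_, ?_⟩
    · change star ((1 / 2 : ℂ) • (p.1 + star p.1)) = (1 / 2 : ℂ) • (p.1 + star p.1)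
      rw [star_smul, star_add, star_star, add_comm (star p.1)]
      congr 1
      simp
    · change star ((1 / 2 : ℂ) • (p.2 + star p.2)) = (1 / 2 : ℂ) • (p.2 + star p.2)
      rw [star_smul, star_add, star_star, add_comm (star p.2)]
      congr 1
      simp
    · have h2 : w - ((1 / 2 : ℂ) • (p + (star p.1, star p.2))).2 =
          (1 / 2 : ℂ) • ((w - p.2) + star (w - p.2)) := by
        change w - (1 / 2 : ℂ) • (p.2 + star p.2) = _
        rw [star_sub, hws]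
        have h3 : w = (1 / 2 : ℂ) • (w + w) := by
          rw [← two_smul ℂ w, smul_smul]
          norm_num
        conv_lhs => rw [h3]
        rw [← smul_sub]
        congr 1
        abel
      have hwp : w - p.2 ∈ N := sub_mem hw hpN
      have h3 : n2 τ (w - ((1 / 2 : ℂ) • (p + (star p.1, star p.2))).2) ≤ n2 τ (w - p.2) := by
        rw [h2, hτ.n2_smul _ (add_mem hwp (star_mem hwp))]
        have h4 := hτ.n2_add_le hwp (star_mem hwp)
        rw [hτ.n2_star hwp] at h4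
        have h5 : ‖(1 / 2 : ℂ)‖ = 1 / 2 := by norm_num
        rw [h5]
        linarith
      have h4 : n2 τ (w - p.2) ^ 2 ≤ D ^ 2 + (1 / ((n : ℝ) + 1)) ^ 2 := by
        rw [Real.lt_sqrt (n2_nonneg _)] at hr
        exact hr.le
      have h5 : n2 τ (w - ((1 / 2 : ℂ) • (p + (star p.1, star p.2))).2) ^ 2 ≤
          n2 τ (w - p.2) ^ 2 := by
        have h6 : 0 ≤ n2 τ (w - ((1 / 2 : ℂ) • (p + (star p.1, star p.2))).2) := n2_nonneg _
        gcongr
      exact h5.trans h4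
  choose p hp hp1 hp2 hpD using hex
  obtain ⟨z, hz⟩ : ∃ z : ℕ → H →L[ℂ] H, ∀ n, z n = (p n).2 := ⟨_, fun _ => rfl⟩
  obtain ⟨δ, hδ⟩ : ∃ δ : ℕ → ℝ, ∀ n, δ n = 1 / ((n : ℝ) + 1) := ⟨_, fun _ => rfl⟩
  have hδ0 : ∀ n, 0 ≤ δ n := fun n => by rw [hδ]; positivity
  have hδlim : Tendsto δ UF (𝓝 0) := by
    have h1 : δ = fun n : ℕ => 1 / ((n : ℝ) + 1) := funext hδ
    rw [h1]
    exact (tendsto_one_div_add_atTop_nhds_zero_nat (𝕜 := ℝ)).mono_left
      Nat.hyperfilter_le_atTop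
  have hzN : ∀ n, z n ∈ N := fun n => by rw [hz]; exact hG.memN _ (hp n)
  have hzs : ∀ n, star (z n) = z n := fun n => by rw [hz]; exact hp2 n
  have hzD : ∀ n, n2 τ (w - z n) ^ 2 ≤ D ^ 2 + δ n ^ 2 := fun n => by
    rw [hz, hδ]
    exact hpD n
  have ho : ∀ n, ∀ q ∈ Gr A u v, ‖τ ((w - z n) * star q.2)‖ ≤ δ n * n2 τ q.2 := by
    intro n q hq
    have h1 := hzD n
    rw [hz] at h1 ⊢
    exact Den3b_orth hG hw (hδ0 n) hD0 hinf (hp n) h1 hq
  have ho' : ∀ n, ∀ b ∈ N, (∀ ε : ℝ, 0 < ε → ∃ q ∈ Gr A u v, n2 τ (b - q.2) < ε) →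
      ‖τ ((w - z n) * star b)‖ ≤ δ n * n2 τ b := fun n b hb hap =>
    Den3b_orth' hG (sub_mem hw (hzN n)) (hδ0 n) (ho n) hb hap
  -- the clamps
  have hcl : ∀ n, n2 τ (z n - clamp (z n)) ≤ 2 * δ n := by
    intro n
    refine clamp_dist' hτ hw (hzN n) hws (hzs n) hw1 (hδ0 n) fun f hf => ?_
    have hks : star (cfc f (z n)) = cfc f (z n) := (cfc_predicate f (z n)).star_eq
    have hkN : cfc f (z n) ∈ N := cfc_mem_vn (hzN n) f
    have h1 : Rel M N τ (Gr A u v) (cfc f (p n).1) (cfc f (p n).2) :=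
      Rel.cfc_rel hG (Rel.of_mem hG (hp n)) (hp1 n) (hp2 n) hf
    have h2 := ho' n (cfc f (z n)) hkN (fun ε hε => by
      obtain ⟨q, hq, -, hq2⟩ := h1.approx ε hε
      rw [← hz] at hq2
      exact ⟨q, hq, hq2⟩)
    rw [hks] at h2
    have h3 : τ ((z n - w) * cfc f (z n)) = - τ ((w - z n) * cfc f (z n)) := by
      rw [← map_neg, ← neg_mul, neg_sub]
    rw [h3, norm_neg]
    exact h2
  have hTb : Bdd (fun n => clamp (z n)) := ⟨1, fun n => clamp_norm⟩
  have hTN : ∀ n, clamp (z n) ∈ N := fun n => clamp_mem (hzN n)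
  obtain ⟨Z, hZ⟩ : ∃ Z, Z = wlim (fun n => clamp (z n)) := ⟨_, rfl⟩
  have hZN : Z ∈ N := by
    rw [hZ]
    exact wlim_mem N hTb (Filter.Eventually.of_forall hTN)
  have hlim : ∀ b ∈ N, Tendsto (fun n => τ ((w - clamp (z n)) * b)) UF (𝓝 (τ ((w - Z) * b))) := by
    intro b hb
    have h1 : Bdd (fun n => w - clamp (z n)) := (Bdd.const w).sub hTb
    have h2 : Bdd (fun n => (w - clamp (z n)) * b) := h1.mul (Bdd.const b)
    have h3 := hτ.lim h2 (fun n => mul_mem (sub_mem hw (hTN n)) hb)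
    have h4 : wlim (fun n => (w - clamp (z n)) * b) = (w - Z) * b := by
      rw [wlim_mul_right h1, wlim_sub (Bdd.const w) hTb, wlim_const, ← hZ]
    rwa [h4] at h3
  -- orthogonality of `w - Z`
  have hZo : ∀ q ∈ Gr A u v, τ ((w - Z) * star q.2) = 0 := by
    intro q hq
    have hqN := hG.memN q hq
    have h1 := (hlim _ (star_mem hqN)).norm
    have h2 : Tendsto (fun n => 3 * δ n * n2 τ q.2) UF (𝓝 (3 * 0 * n2 τ q.2)) :=
      (hδlim.const_mul 3).mul_const _
    rw [mul_zero, zero_mul] at h2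
    have h3 : ‖τ ((w - Z) * star q.2)‖ ≤ 0 := by
      refine le_of_tendsto_of_tendsto' h1 h2 fun n => ?_
      have h4 : τ ((w - clamp (z n)) * star q.2) =
          τ ((w - z n) * star q.2) + τ ((z n - clamp (z n)) * star q.2) := by
        rw [← map_add, ← add_mul, sub_add_sub_cancel]
      have h5 := hτ.cs (sub_mem (hzN n) (hTN n)) hqN
      have h6 := ho n q hq
      have h7 := hcl n
      have h8 : 0 ≤ n2 τ q.2 := n2_nonneg _
      have h9 := norm_add_le (τ ((w - z n) * star q.2)) (τ ((z n - clamp (z n)) * star q.2))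
      rw [← h4] at h9
      nlinarith
    exact norm_le_zero_iff.1 h3
  have hwZ : w - Z = 0 := by
    have hwZN : w - Z ∈ N := sub_mem hw hZN
    refine h.eq_zero_of_coef hv hwZN fun g => ?_
    obtain ⟨hfA, hf⟩ := h.fc_N hv hwZN g
    have hzero : ∀ b ∈ A, τ (fc e v (w - Z) g * b) = 0 := by
      intro b hb
      rw [hf b hb]
      have h1 := hZo (star b * u g, star b * v g)
        (Submodule.subset_span ⟨star b, star_mem hb, g, rfl⟩)
      have h2 : star ((star b * u g, star b * v g) : (H →L[ℂ] H) × (H →L[ℂ] H)).2 =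
          star (v g) * b := by
        change star (star b * v g) = star (v g) * b
        rw [star_mul, star_star]
      rw [h2, ← mul_assoc] at h1
      exact h1
    have h6 : star (fc e v (w - Z) g) = 0 := by
      refine hτ.faithful _ (star_mem (h.AN _ hfA)) ?_
      rw [star_star]
      exact hzero _ (star_mem hfA)
    have h7 := congrArg star h6
    rwa [star_star, star_zero] at h7
  -- the distance tends to zero
  have hB : ∀ n, n2 τ (z n) ≤ 2 * n2 τ w + D + 1 := by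
    intro n
    have h1 : n2 τ (w - z n) ≤ D + 1 := by
      have h2 : δ n ≤ 1 := by
        rw [hδ, div_le_one (by positivity)]
        have : (0 : ℝ) ≤ n := Nat.cast_nonneg n
        linarith
      have h3 := hzD n
      have h4 := hδ0 n
      by_contra hcon
      push Not at hcon
      nlinarith
    have h5 : z n = w + ((-1 : ℂ)) • (w - z n) := by
      rw [neg_one_smul]
      abel
    have h6 := hτ.n2_add_le hw (Den3b_smul (-1 : ℂ) (sub_mem hw (hzN n)))
    rw [← h5, hτ.n2_smul _ (sub_mem hw (hzN n)), norm_neg, norm_one, one_mul] at h6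
    have h7 : 0 ≤ n2 τ w := n2_nonneg _
    linarith
  have hdist : ∀ n, n2 τ (w - z n) ^ 2 ≤ ‖τ ((w - clamp (z n)) * star w)‖ +
      2 * δ n * n2 τ w + δ n * (2 * n2 τ w + D + 1) := by
    intro n
    have hwz : w - z n ∈ N := sub_mem hw (hzN n)
    have h1 := hτ.n2_sq hwz
    have h2 : τ ((w - z n) * star (w - z n)) = τ ((w - clamp (z n)) * star w) -
        τ ((z n - clamp (z n)) * star w) - τ ((w - z n) * star (z n)) := by
      rw [← map_sub, ← map_sub]
      congr 1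
      rw [star_sub, ← sub_mul, mul_sub]
      congr 2
      abel
    have h3 : ‖τ ((w - z n) * star (w - z n))‖ = n2 τ (w - z n) ^ 2 := by
      rw [h1, Complex.norm_real, Real.norm_of_nonneg (sq_nonneg _)]
    have h4 : ‖τ ((w - z n) * star (z n))‖ ≤ δ n * n2 τ (z n) := by
      have h5 := ho n (p n) (hp n)
      rwa [← hz n] at h5
    have h5 := hτ.cs (sub_mem (hzN n) (hTN n)) hw
    have h6 := hcl n
    have h7 : 0 ≤ n2 τ w := n2_nonneg _
    have h8 := hB n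
    have h9 := hδ0 n
    have h10 : ‖τ ((w - clamp (z n)) * star w) - τ ((z n - clamp (z n)) * star w) -
        τ ((w - z n) * star (z n))‖ ≤ ‖τ ((w - clamp (z n)) * star w)‖ +
        ‖τ ((z n - clamp (z n)) * star w)‖ + ‖τ ((w - z n) * star (z n))‖ :=
      (norm_sub_le _ _).trans (add_le_add (norm_sub_le _ _) le_rfl)
    rw [← h2, h3] at h10
    nlinarith
  have hlast : Tendsto (fun n => ‖τ ((w - clamp (z n)) * star w)‖ +
      2 * δ n * n2 τ w + δ n * (2 * n2 τ w + D + 1)) UF (𝓝 0) := by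
    have h1 := (hlim _ (star_mem hw)).norm
    rw [hwZ, zero_mul, map_zero, norm_zero] at h1
    have h2 : Tendsto (fun n => 2 * δ n * n2 τ w) UF (𝓝 (2 * 0 * n2 τ w)) :=
      (hδlim.const_mul 2).mul_const _
    have h3 : Tendsto (fun n => δ n * (2 * n2 τ w + D + 1)) UF
        (𝓝 (0 * (2 * n2 τ w + D + 1))) := hδlim.mul_const _
    have h4 := (h1.add h2).add h3
    simpa using h4
  obtain ⟨n, hn⟩ := ((tendsto_order.1 hlast).2 (ε ^ 2) (by positivity)).exists
  refine ⟨p n, hp n, ?_⟩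
  rw [← hz]
  have h1 := (hdist n).trans_lt hn
  exact lt_of_pow_lt_pow_left₀ 2 hε.le h1

/-- (10.10) -/
theorem Sit.dense_N (h : Sit M N A τ u k e κ) (hv : Lifts M N A τ u v) {w : H →L[ℂ] H}
    (hw : w ∈ N) {ε : ℝ} (hε : 0 < ε) : ∃ p ∈ Gr A u v, n2 τ (w - p.2) < ε := by
  have hG := h.grS hv
  have hτ := h.trN
  -- self-adjoint operators
  have hsa : ∀ a ∈ N, star a = a → ∀ ε : ℝ, 0 < ε → ∃ p ∈ Gr A u v, n2 τ (a - p.2) < ε := by
    intro a ha has ε hε
    obtain ⟨c, hc⟩ : ∃ c : ℝ, c = ‖a‖ + 1 := ⟨_, rfl⟩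
    have hc0 : 0 < c := by
      rw [hc]
      positivity
    have hcC : (c : ℂ) ≠ 0 := Complex.ofReal_ne_zero.2 hc0.ne'
    have h1 : ‖((c⁻¹ : ℝ) : ℂ) • a‖ ≤ 1 := by
      rw [norm_smul, Complex.norm_real, norm_inv, Real.norm_of_nonneg hc0.le,
        inv_mul_le_iff₀ hc0, hc]
      linarith
    have h2 : star (((c⁻¹ : ℝ) : ℂ) • a) = ((c⁻¹ : ℝ) : ℂ) • a := by
      rw [star_smul, has]
      congr 1
      exact Complex.conj_ofReal _
    obtain ⟨p, hp, hp2⟩ := Den3b_sa h hv (Den3b_smul _ ha) h2 h1 (ε := ε / c) (by positivity)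
    refine ⟨(c : ℂ) • p, (Gr A u v).smul_mem _ hp, ?_⟩
    have h3 : a - ((c : ℂ) • p).2 = (c : ℂ) • (((c⁻¹ : ℝ) : ℂ) • a - p.2) := by
      rw [smul_sub, smul_smul]
      have h4 : (c : ℂ) * ((c⁻¹ : ℝ) : ℂ) = 1 := by
        rw [Complex.ofReal_inv, mul_inv_cancel₀ hcC]
      rw [h4, one_smul]
      rfl
    rw [h3, hτ.n2_smul _ (sub_mem (Den3b_smul _ ha) (hG.memN p hp)), Complex.norm_real,
      Real.norm_of_nonneg hc0.le]
    rw [lt_div_iff₀ hc0] at hp2
    linarith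
  have hws : star w ∈ N := star_mem hw
  obtain ⟨p, hp, hp2⟩ := hsa ((1 / 2 : ℂ) • (w + star w)) (Den3b_smul _ (add_mem hw hws))
    (by
      rw [star_smul, star_add, star_star, add_comm (star w)]
      congr 1
      simp) (ε / 2) (by positivity)
  obtain ⟨q, hq, hq2⟩ := hsa ((Complex.I / 2 : ℂ) • (star w - w))
    (Den3b_smul _ (sub_mem hws hw))
    (by
      rw [star_smul, star_sub, star_star]
      have h1 : star (Complex.I / 2 : ℂ) = - (Complex.I / 2) := by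
        have h2 : star (Complex.I / 2 : ℂ) = (starRingEnd ℂ) (Complex.I / 2) := rfl
        rw [h2, map_div₀, Complex.conj_I, Complex.conj_ofNat, neg_div]
      rw [h1, neg_smul, ← smul_neg, neg_sub]) (ε / 2) (by positivity)
  refine ⟨p + Complex.I • q, (Gr A u v).add_mem hp ((Gr A u v).smul_mem _ hq), ?_⟩
  have hpN := hG.memN p hp
  have hqN := hG.memN q hq
  have h1 : w - (p + Complex.I • q).2 = ((1 / 2 : ℂ) • (w + star w) - p.2) +
      Complex.I • ((Complex.I / 2 : ℂ) • (star w - w) - q.2) := by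
    change w - (p.2 + Complex.I • q.2) = _
    rw [smul_sub, smul_smul]
    have h2 : Complex.I * (Complex.I / 2) = - (1 / 2 : ℂ) := by
      rw [← mul_div_assoc, Complex.I_mul_I]
      norm_num
    have h3 : w = (1 / 2 : ℂ) • (w + star w) + (-(1 / 2 : ℂ)) • (star w - w) := by
      rw [neg_smul, ← sub_eq_add_neg, ← smul_sub]
      have h4 : w + star w - (star w - w) = (2 : ℂ) • w := by
        rw [two_smul]
        abel
      rw [h4, smul_smul]
      norm_num
    rw [h2]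
    conv_lhs => rw [h3]
    abel
  have h2 := hτ.n2_add_le (sub_mem (Den3b_smul (1 / 2 : ℂ) (add_mem hw hws)) hpN)
    (Den3b_smul Complex.I (sub_mem (Den3b_smul (Complex.I / 2) (sub_mem hws hw)) hqN))
  rw [← h1, hτ.n2_smul _ (sub_mem (Den3b_smul (Complex.I / 2) (sub_mem hws hw)) hqN),
    Complex.norm_I, one_mul] at h2
  linarith

/-- the isomorphism in the situation after the conjugation -/
theorem Sit.iso (h : Sit M N A τ u k e κ) :
    Nonempty (M.toStarSubalgebra ≃⋆ₐ[ℂ] N.toStarSubalgebra) := by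
  obtain ⟨v, hv⟩ := h.exists_lifts
  exact Rel.iso (h.grS hv) (fun y hy ε hε => h.dense_M hv hy hε)
    (fun z hz ε hε => h.dense_N hv hz hε)

end Pool.Agent.KKS

end

section

/-!
# Conj: conjugation of von Neumann algebras, closeness
-/


open Filter Topology

namespace Pool.Agent.KKS

variable {H : Type*} [NormedAddCommGroup H] [InnerProductSpace ℂ H] [CompleteSpace H]
variable {M N N₁ : VonNeumannAlgebra H} {U : H →L[ℂ] H}

private theorem Conj_cj1 (h1 : star U * U = 1) (x : H →L[ℂ] H) : star U * (U * x) = x := by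
  rw [← mul_assoc, h1, one_mul]

private theorem Conj_cj2 (h2 : U * star U = 1) (x : H →L[ℂ] H) : U * (star U * x) = x := by
  rw [← mul_assoc, h2, one_mul]

private theorem Conj_cj3 (h1 : star U * U = 1) (h2 : U * star U = 1) (x : H →L[ℂ] H) :
    ‖U * x * star U‖ = ‖x‖ := by
  have hU : U ∈ unitary (H →L[ℂ] H) := ⟨h1, h2⟩
  rw [CStarRing.norm_mul_mem_unitary _ (Unitary.star_mem hU), CStarRing.norm_mem_unitary_mul _ hU]

private theorem Conj_cj4 (h1 : star U * U = 1) (h2 : U * star U = 1) (x : H →L[ℂ] H) :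
    ‖star U * x * U‖ = ‖x‖ := by
  have hU : U ∈ unitary (H →L[ℂ] H) := ⟨h1, h2⟩
  rw [CStarRing.norm_mul_mem_unitary _ hU, CStarRing.norm_mem_unitary_mul _ (Unitary.star_mem hU)]

private theorem Conj_cj5 (h2 : U * star U = 1) (x : H →L[ℂ] H) :
    U * (star U * x * U) * star U = x := by
  calc U * (star U * x * U) * star U = (U * star U) * x * (U * star U) := by noncomm_ring
    _ = x := by rw [h2]; simp

private theorem Conj_cj6 (h1 : star U * U = 1) (x : H →L[ℂ] H) :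
    star U * (U * x * star U) * U = x := by
  calc star U * (U * x * star U) * U = (star U * U) * x * (star U * U) := by noncomm_ring
    _ = x := by rw [h1]; simp

private theorem Conj_cj7 (h1 : star U * U = 1) (x y : H →L[ℂ] H) :
    (U * x * star U) * (U * y * star U) = U * (x * y) * star U := by
  calc (U * x * star U) * (U * y * star U) = U * x * (star U * U) * y * star U := by noncomm_ring
    _ = U * (x * y) * star U := by rw [h1]; noncomm_ring

private theorem Conj_cj8 (x : H →L[ℂ] H) : star (U * x * star U) = U * star x * star U := by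
  rw [star_mul, star_mul, star_star, mul_assoc]

/-- the algebra `U⋆ N U` (as a `cVN` of `{S | U S U⋆ commutes with N}`) -/
theorem exists_conj (N : VonNeumannAlgebra H) (h1 : star U * U = 1) (h2 : U * star U = 1) :
    ∃ N₁ : VonNeumannAlgebra H, ∀ x, x ∈ N₁ ↔ U * x * star U ∈ N := by
  refine ⟨cVN {S | ∀ x ∈ N, (U * S * star U) * x = x * (U * S * star U)} ?_, fun T => ?_⟩
  · intro S hS x hx
    have h := hS (star x) (star_mem hx)
    have h' := congrArg star h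
    rw [star_mul (U * S * star U) (star x), star_mul (star x) (U * S * star U), star_star, Conj_cj8] at h'
    exact h'.symm
  · rw [mem_cVN]
    constructor
    · intro h
      apply mem_of_comm
      intro S hS
      have h3 := h (star U * S * U) (fun x hx => by rw [Conj_cj5 h2]; exact hS x hx)
      have h4 := congrArg (fun z => U * z * star U) h3
      rw [← Conj_cj7 h1 T (star U * S * U), ← Conj_cj7 h1 (star U * S * U) T, Conj_cj5 h2] at h4
      exact h4.symm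
    · intro h S hS
      have h3 := hS _ h
      rw [Conj_cj7 h1, Conj_cj7 h1] at h3
      have h4 := congrArg (fun z => star U * z * U) h3
      rw [Conj_cj6 h1, Conj_cj6 h1] at h4
      exact h4.symm

private theorem Conj_cj9 (h2 : U * star U = 1) (hN : ∀ x, x ∈ N₁ ↔ U * x * star U ∈ N)
    {y : H →L[ℂ] H} (hy : y ∈ N) : star U * y * U ∈ N₁ := by
  rw [hN, Conj_cj5 h2]; exact hy

theorem conj_factor (h1 : star U * U = 1) (h2 : U * star U = 1)
    (hN : ∀ x, x ∈ N₁ ↔ U * x * star U ∈ N) (h : IsFactor N) : IsFactor N₁ := by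
  intro z hz hc
  obtain ⟨c, hc'⟩ := h (U * z * star U) ((hN z).1 hz) (by
    intro y hy
    have h3 := hc _ (Conj_cj9 h2 hN hy)
    have h4 := congrArg (fun z => U * z * star U) h3
    rw [← Conj_cj7 h1 z (star U * y * U), ← Conj_cj7 h1 (star U * y * U) z, Conj_cj5 h2] at h4
    exact h4)
  refine ⟨c, ?_⟩
  rw [← Conj_cj6 h1 z, hc']
  simp [h1]

theorem conj_trace (h1 : star U * U = 1) (h2 : U * star U = 1)
    (hN : ∀ x, x ∈ N₁ ↔ U * x * star U ∈ N) {τ : (H →L[ℂ] H) → ℂ} (h : IsTrace N τ) :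
    IsTrace N₁ (fun x => τ (U * x * star U)) := by
  refine ⟨?_, ?_, ?_, ?_⟩
  · obtain ⟨ξ, hs, hx⟩ := h.normal
    refine ⟨fun i => (star U) (ξ i), ?_, ?_⟩
    · have h3 : ∀ i, ‖(star U) (ξ i)‖ = ‖ξ i‖ := by
        intro i
        have h4 : ‖(star U) (ξ i)‖ ^ 2 = ‖ξ i‖ ^ 2 := by
          have h5 : inner ℂ ((star U) (ξ i)) ((star U) (ξ i)) = inner ℂ (ξ i) (ξ i) := by
            rw [ContinuousLinearMap.star_eq_adjoint, ContinuousLinearMap.adjoint_inner_left,
              ← ContinuousLinearMap.star_eq_adjoint, ← mul_apply_eq_comp, h2,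
              one_apply_eq_self]
          rw [inner_self_eq_norm_sq_to_K, inner_self_eq_norm_sq_to_K] at h5
          exact_mod_cast h5
        exact (sq_eq_sq₀ (norm_nonneg _) (norm_nonneg _)).1 h4
      simpa only [h3] using hs
    · intro x hx'
      beta_reduce
      rw [hx _ ((hN x).1 hx')]
      congr 1
      ext i
      rw [ContinuousLinearMap.star_eq_adjoint, ContinuousLinearMap.adjoint_inner_left]
      rfl
  · simp only [mul_one, h2, h.one]
  · intro x hx y hy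
    rw [← Conj_cj7 h1, ← Conj_cj7 h1]
    exact h.tracial _ ((hN x).1 hx) _ ((hN y).1 hy)
  · intro x hx h3
    beta_reduce at h3
    rw [← Conj_cj7 h1, ← Conj_cj8] at h3
    have h4 := h.faithful _ ((hN x).1 hx) h3
    rw [← Conj_cj6 h1 x, h4]; simp

private theorem Conj_cj10 (h1 : star U * U = 1) (h2 : U * star U = 1) (y : H →L[ℂ] H) :
    ‖y - star U * y * U‖ ≤ 2 * ‖U - 1‖ * ‖y‖ := by
  have hU : U ∈ unitary (H →L[ℂ] H) := ⟨h1, h2⟩
  have h3 : ‖y - star U * y * U‖ = ‖U * y - y * U‖ := by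
    rw [← CStarRing.norm_mem_unitary_mul (y - star U * y * U) hU]
    congr 1
    rw [mul_sub, mul_assoc, Conj_cj2 h2]
  have h4 : U * y - y * U = (U - 1) * y - y * (U - 1) := by noncomm_ring
  rw [h3, h4]
  calc ‖(U - 1) * y - y * (U - 1)‖ ≤ ‖(U - 1) * y‖ + ‖y * (U - 1)‖ := norm_sub_le _ _
    _ ≤ ‖U - 1‖ * ‖y‖ + ‖y‖ * ‖U - 1‖ := add_le_add (norm_mul_le _ _) (norm_mul_le _ _)
    _ = 2 * ‖U - 1‖ * ‖y‖ := by ring

theorem conj_near (h1 : star U * U = 1) (h2 : U * star U = 1)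
    (hN : ∀ x, x ∈ N₁ ↔ U * x * star U ∈ N) {ε : ℝ} (h : Near M N ε) :
    Near M N₁ (ε + 2 * ‖U - 1‖) := by
  refine ⟨fun x hx => ?_, fun y hy => ?_⟩
  · obtain ⟨y, hy, h3, h4⟩ := h.MN x hx
    refine ⟨star U * y * U, Conj_cj9 h2 hN hy, by rw [Conj_cj4 h1 h2]; exact h3, ?_⟩
    calc ‖x - star U * y * U‖ = ‖(x - y) + (y - star U * y * U)‖ := by congr 1; abel
      _ ≤ ‖x - y‖ + ‖y - star U * y * U‖ := norm_add_le _ _
      _ ≤ ε * ‖x‖ + 2 * ‖U - 1‖ * ‖x‖ := by
        refine add_le_add h4 ((Conj_cj10 h1 h2 y).trans ?_)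
        exact mul_le_mul_of_nonneg_left h3 (by positivity)
      _ = (ε + 2 * ‖U - 1‖) * ‖x‖ := by ring
  · obtain ⟨x, hx, h3, h4⟩ := h.NM _ ((hN y).1 hy)
    rw [Conj_cj3 h1 h2] at h3 h4
    refine ⟨x, hx, h3, ?_⟩
    have h5 : ‖U * y * star U - y‖ ≤ 2 * ‖U - 1‖ * ‖y‖ := by
      have := Conj_cj10 h1 h2 (U * y * star U)
      rwa [Conj_cj6 h1, Conj_cj3 h1 h2] at this
    calc ‖x - y‖ = ‖(x - U * y * star U) + (U * y * star U - y)‖ := by congr 1; abel
      _ ≤ ‖x - U * y * star U‖ + ‖U * y * star U - y‖ := norm_add_le _ _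
      _ ≤ ε * ‖y‖ + 2 * ‖U - 1‖ * ‖y‖ := add_le_add h4 h5
      _ = (ε + 2 * ‖U - 1‖) * ‖y‖ := by ring

theorem conj_iso (h1 : star U * U = 1) (h2 : U * star U = 1)
    (hN : ∀ x, x ∈ N₁ ↔ U * x * star U ∈ N) :
    Nonempty (N₁.toStarSubalgebra ≃⋆ₐ[ℂ] N.toStarSubalgebra) := by
  refine ⟨{ toFun := fun x => ⟨U * x.1 * star U, (hN x.1).1 x.2⟩
            invFun := fun y => ⟨star U * y.1 * U, Conj_cj9 h2 hN y.2⟩
            left_inv := fun x => Subtype.ext (Conj_cj6 h1 x.1)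
            right_inv := fun y => Subtype.ext (Conj_cj5 h2 y.1)
            map_mul' := fun x y => Subtype.ext (Conj_cj7 h1 x.1 y.1).symm
            map_add' := fun x y => Subtype.ext ?_
            map_star' := fun x => Subtype.ext (Conj_cj8 x.1).symm
            map_smul' := fun c x => Subtype.ext ?_ }⟩
  · change U * (x.1 + y.1) * star U = U * x.1 * star U + U * y.1 * star U
    rw [mul_add, add_mul]
  · change U * (c • x.1) * star U = c • (U * x.1 * star U)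
    rw [mul_smul_comm, smul_mul_assoc]

private theorem Conj_cj11 (M : VonNeumannAlgebra H) (c : ℂ) {x : H →L[ℂ] H} (hx : x ∈ M) : c • x ∈ M :=
  M.toStarSubalgebra.smul_mem hx c

private theorem Conj_cj12 (M : VonNeumannAlgebra H) : (unitBall M).Nonempty :=
  ⟨0, M.toStarSubalgebra.zero_mem, by simp⟩

private theorem Conj_cj13 (M : VonNeumannAlgebra H) : Bornology.IsBounded (unitBall M) :=
  (Metric.isBounded_closedBall (x := (0 : H →L[ℂ] H)) (r := 1)).subset
    (fun x hx => by simpa using hx.2)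

private theorem Conj_cj14 {M N : VonNeumannAlgebra H} {ε : ℝ} (h : kkDist M N < ε) :
    ∀ x ∈ M, ∃ y ∈ N, ‖y‖ ≤ ‖x‖ ∧ ‖x - y‖ ≤ ε * ‖x‖ := by
  intro x hx
  by_cases h0 : x = 0
  · exact ⟨0, N.toStarSubalgebra.zero_mem, by simp, by simp [h0]⟩
  have hpos : 0 < ‖x‖ := norm_pos_iff.2 h0
  have hfin : Metric.hausdorffEDist (unitBall M) (unitBall N) ≠ ⊤ :=
    Metric.hausdorffEDist_ne_top_of_nonempty_of_bounded (Conj_cj12 M) (Conj_cj12 N) (Conj_cj13 M) (Conj_cj13 N)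
  have hx' : ((‖x‖⁻¹ : ℝ) : ℂ) • x ∈ unitBall M := by
    refine ⟨Conj_cj11 M _ hx, ?_⟩
    rw [norm_smul, Complex.norm_real, norm_inv, norm_norm, inv_mul_cancel₀ hpos.ne']
  obtain ⟨y, hy, hd⟩ := Metric.exists_dist_lt_of_hausdorffDist_lt hx' h hfin
  rw [dist_eq_norm] at hd
  refine ⟨((‖x‖ : ℝ) : ℂ) • y, Conj_cj11 N _ hy.1, ?_, ?_⟩
  · rw [norm_smul, Complex.norm_real, norm_norm]
    exact mul_le_of_le_one_right hpos.le hy.2
  · have h3 : x - ((‖x‖ : ℝ) : ℂ) • y = ((‖x‖ : ℝ) : ℂ) • (((‖x‖⁻¹ : ℝ) : ℂ) • x - y) := by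
      rw [smul_sub, smul_smul, ← Complex.ofReal_mul, mul_inv_cancel₀ hpos.ne', Complex.ofReal_one,
        one_smul]
    rw [h3, norm_smul, Complex.norm_real, norm_norm, mul_comm]
    exact mul_le_mul_of_nonneg_right hd.le hpos.le

/-- `Metric.exists_dist_lt_of_hausdorffDist_lt`, scaling -/
theorem near_of_kkDist {ε : ℝ} (h : kkDist M N < ε) : Near M N ε := by
  refine ⟨Conj_cj14 h, fun y hy => ?_⟩
  have h' : kkDist N M < ε := by
    rw [kkDist, Metric.hausdorffDist_comm]; exact h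
  obtain ⟨x, hx, h3, h4⟩ := Conj_cj14 h' y hy
  exact ⟨x, hx, h3, by rw [norm_sub_rev]; exact h4⟩

end Pool.Agent.KKS

end

section

/-!
# Conja: the isomorphism for CM
-/


open Filter Topology

namespace Pool.Agent.KKS

variable {H : Type*} [NormedAddCommGroup H] [InnerProductSpace ℂ H] [CompleteSpace H]
variable {M N N₁ : VonNeumannAlgebra H} {U : H →L[ℂ] H}

variable {Γ : Type*} [Group Γ] [Countable Γ] {A : VonNeumannAlgebra H} {u : Γ → H →L[ℂ] H}

/-- `CM.exists_sys`, `Sys.groups`, `kazhdan` (unitaries of `M` are within `4 / 10 ^ 12` of unitaries of `N` by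
`near_unitary`), `exists_conj`, `exists_sit` with `κ = 1 / 10 ^ 12 + 2 * ‖U - 1‖ ≤ 1 / 10 ^ 8`, `Sit.iso`, `conj_iso` -/
theorem iso_of_CM {τM τN : (H →L[ℂ] H) → ℂ} (hc : CM M A τM u) (hN : IsTrace N τN)
    (hF : IsFactor N) (hn : Near M N (1 / 10 ^ 12)) :
    Nonempty (M.toStarSubalgebra ≃⋆ₐ[ℂ] N.toStarSubalgebra) := by
  obtain ⟨k, e, hs⟩ := hc.exists_sys
  obtain ⟨G, hG1, hG2, hG3, hG4, hG5, hG6, hG7⟩ := hs.groups
  have hG : FGr G := ⟨hG1, hG2, hG3, hG4, hG5⟩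
  have hGM : ∀ x ∈ GU G, x ∈ M ∧ star x * x = 1 ∧ x * star x = 1 := by
    rintro x ⟨n, hx⟩
    exact ⟨hG6 n x hx, hG4 n x hx⟩
  obtain ⟨U, h1, h2, h3, h4⟩ := kazhdan (ε := 4 / 10 ^ 12) N hG (by norm_num) (by
    intro x hx
    obtain ⟨hxM, hx1, hx2⟩ := hGM x hx
    obtain ⟨T, hT, hT1, hT2⟩ := hn.MN x hxM
    have hxn : ‖x‖ ≤ 1 := by
      have h5 : ‖star x * x‖ = ‖x‖ * ‖x‖ := CStarRing.norm_star_mul_self
      rw [hx1] at h5
      have h6 : ‖(1 : H →L[ℂ] H)‖ ≤ 1 := ContinuousLinearMap.norm_id_le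
      nlinarith [norm_nonneg x]
    obtain ⟨w, hw, hw1, hw2, hw3, -⟩ := near_unitary (R := N) (E := 1) (u := x) (T := T)
      ⟨by simp, by simp⟩ N.toStarSubalgebra.one_mem hx1 hx2 hT (by simp) (by simp)
      (ε := 1 / 10 ^ 12) (by norm_num) (by
        rw [norm_sub_rev]
        refine hT2.trans ?_
        nlinarith)
    exact ⟨w, hw, hw1, hw2, by rw [norm_sub_rev]; refine hw3.trans (by norm_num)⟩)
  obtain ⟨N₁, hN₁⟩ := exists_conj N h1 h2
  have he : ∀ n i j, e n i j ∈ N₁ := by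
    intro n i j
    have h5 : (G n : Set (H →L[ℂ] H)) ⊆
        (N₁.toStarSubalgebra.toSubalgebra.toSubmodule : Set (H →L[ℂ] H)) := by
      intro x hx
      exact (hN₁ x).2 (h4 x ⟨n, hx⟩)
    exact Submodule.span_le.2 h5 (hG7 n i j)
  have hn' := conj_near h1 h2 hN₁ hn
  have hκ : 1 / 10 ^ 12 + 2 * ‖U - 1‖ ≤ 1 / 10 ^ 8 := by
    norm_num at h3 ⊢
    linarith
  obtain ⟨τ, hτ⟩ := exists_sit hc hs (conj_trace h1 h2 hN₁ hN) (conj_factor h1 h2 hN₁ hF) he hn'
    (by positivity) hκ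
  obtain ⟨φ⟩ := hτ.iso
  obtain ⟨ψ⟩ := conj_iso h1 h2 hN₁
  exact ⟨φ.trans ψ⟩

end Pool.Agent.KKS

end
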