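import Pool.Agent.Lib.MP_5c1ef7_an.P04
import Pool.Agent.Lib.MP_5c1ef7_an.P14

/-!
# P15: from the crossed product to the structure CM, the main theorem
-/

set_option autoImplicit false
set_option linter.unusedSectionVars false

section

/-!
# Meas: the algebra of the crossed product
-/


open MeasureTheory

namespace Pool.Agent.KKS

variable {H : Type*} [NormedAddCommGroup H] [InnerProductSpace ℂ H] [CompleteSpace H]
variable {X Γ : Type*} [MeasurableSpace X] [Group Γ] [MulAction Γ X] {μ : Measure X}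
  [IsProbabilityMeasure μ] {M A : VonNeumannAlgebra H} {π : (X → ℂ) → H →L[ℂ] H}
  {u : Γ → H →L[ℂ] H} {τ : (H →L[ℂ] H) → ℂ}

theorem IsCrossedProduct.pi_mem (h : IsCrossedProduct μ M π u) {f : X → ℂ} (hf : BddMeas f) :
    π f ∈ M := by
  have h1 : π f ∈ (M : Set (H →L[ℂ] H)) := by
    rw [h.generates]
    exact Set.subset_centralizer_centralizer (Or.inl ⟨f, hf, rfl⟩)
  exact h1

theorem IsCrossedProduct.u_mem (h : IsCrossedProduct μ M π u) (g : Γ) : u g ∈ M := by
  have h1 : u g ∈ (M : Set (H →L[ℂ] H)) := by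
    rw [h.generates]
    exact Set.subset_centralizer_centralizer (Or.inr ⟨g, rfl⟩)
  exact h1

private theorem Meas_bm_star {f : X → ℂ} (hf : BddMeas f) : BddMeas (star f) := by
  obtain ⟨hm, C, hC⟩ := hf
  refine ⟨?_, C, fun x => ?_⟩
  · have h1 : star f = fun x => (starRingEnd ℂ) (f x) := rfl
    rw [h1]
    exact Complex.continuous_conj.measurable.comp hm
  · rw [Pi.star_apply, norm_star]; exact hC x

private theorem Meas_bm_add {f g : X → ℂ} (hf : BddMeas f) (hg : BddMeas g) : BddMeas (f + g) := by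
  obtain ⟨hm, C, hC⟩ := hf
  obtain ⟨hm', C', hC'⟩ := hg
  exact ⟨hm.add hm', C + C', fun x => (norm_add_le _ _).trans (add_le_add (hC x) (hC' x))⟩

private theorem Meas_bm_mul {f g : X → ℂ} (hf : BddMeas f) (hg : BddMeas g) : BddMeas (f * g) := by
  obtain ⟨hm, C, hC⟩ := hf
  obtain ⟨hm', C', hC'⟩ := hg
  refine ⟨hm.mul hm', C * C', fun x => ?_⟩
  rw [Pi.mul_apply, norm_mul]
  exact mul_le_mul (hC x) (hC' x) (norm_nonneg _) ((norm_nonneg _).trans (hC x))

private theorem Meas_bm_smul (c : ℂ) {f : X → ℂ} (hf : BddMeas f) : BddMeas (c • f) := by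
  obtain ⟨hm, C, hC⟩ := hf
  refine ⟨hm.const_smul c, ‖c‖ * C, fun x => ?_⟩
  rw [Pi.smul_apply, norm_smul]
  exact mul_le_mul_of_nonneg_left (hC x) (norm_nonneg _)

private theorem Meas_bm_one : BddMeas (1 : X → ℂ) := ⟨measurable_one, 1, fun x => by simp⟩

private theorem Meas_bm_ind {E : Set X} (hE : MeasurableSet E) : BddMeas (E.indicator (1 : X → ℂ)) := by
  refine ⟨measurable_one.indicator hE, 1, fun x => ?_⟩
  by_cases hx : x ∈ E
  · simp [hx]
  · simp [hx]

/-- `A = π(L^∞)` is a von Neumann algebra: `cVN` of the union of the range of `π` and the commutant of `M` -/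
theorem IsCrossedProduct.exists_A (h : IsCrossedProduct μ M π u) (hm : IsMasaIn M π) :
    ∃ A : VonNeumannAlgebra H, ∀ x, x ∈ A ↔ ∃ f, BddMeas f ∧ x = π f := by
  refine ⟨cVN ({x | ∃ f, BddMeas f ∧ x = π f} ∪ {S | ∀ x ∈ M, S * x = x * S}) ?_, fun x => ?_⟩
  · rintro x (⟨f, hf, rfl⟩ | hx)
    · exact Or.inl ⟨star f, Meas_bm_star hf, (h.map_star f hf).symm⟩
    · refine Or.inr fun y hy => ?_
      have h1 := congrArg star (hx (star y) (star_mem hy))
      rw [star_mul, star_mul, star_star] at h1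
      exact h1.symm
  · rw [mem_cVN]
    constructor
    · intro hx
      apply hm x
      · apply mem_of_comm
        intro S hS
        exact (hx S (Or.inr hS)).symm
      · intro f hf
        exact hx _ (Or.inl ⟨f, hf, rfl⟩)
    · rintro ⟨f, hf, rfl⟩ y (⟨g, hg, rfl⟩ | hy)
      · rw [← h.map_mul f g hf hg, ← h.map_mul g f hg hf, mul_comm]
      · exact (hy _ (h.pi_mem hf)).symm

/-- `‖π f‖ ≤ C` if `|f| ≤ C`: `C² - |f|² = |h|²` -/
theorem IsCrossedProduct.norm_pi_le (h : IsCrossedProduct μ M π u) {f : X → ℂ} (hf : BddMeas f)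
    {C : ℝ} (hC : 0 ≤ C) (hb : ∀ x, ‖f x‖ ≤ C) : ‖π f‖ ≤ C := by
  obtain ⟨k, hk⟩ : ∃ k : X → ℂ, k = fun x => ((Real.sqrt (C ^ 2 - ‖f x‖ ^ 2) : ℝ) : ℂ) := ⟨_, rfl⟩
  have hkb : BddMeas k := by
    refine ⟨?_, C, fun x => ?_⟩
    · rw [hk]
      exact Complex.measurable_ofReal.comp ((measurable_const.sub (hf.1.norm.pow_const 2)).sqrt)
    · rw [hk]
      simp only [Complex.norm_real, Real.norm_eq_abs, abs_of_nonneg (Real.sqrt_nonneg _)]
      rw [Real.sqrt_le_left hC]
      have := sq_nonneg ‖f x‖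
      linarith
  have h1 : star f * f + star k * k = ((C ^ 2 : ℝ) : ℂ) • (1 : X → ℂ) := by
    funext x
    have h2 : (star (f x)) * f x = ((‖f x‖ ^ 2 : ℝ) : ℂ) := by
      have := Complex.conj_mul' (f x)
      rw [Complex.ofReal_pow]
      exact this
    have h3 : (star (k x)) * k x = ((C ^ 2 - ‖f x‖ ^ 2 : ℝ) : ℂ) := by
      have := Complex.conj_mul' (k x)
      have h4 : ‖k x‖ ^ 2 = C ^ 2 - ‖f x‖ ^ 2 := by
        rw [hk]
        simp only [Complex.norm_real, Real.norm_eq_abs, abs_of_nonneg (Real.sqrt_nonneg _)]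
        apply Real.sq_sqrt
        have := hb x
        have := norm_nonneg (f x)
        nlinarith
      rw [← h4, Complex.ofReal_pow]
      exact this
    simp only [Pi.add_apply, Pi.mul_apply, Pi.star_apply, Pi.smul_apply, Pi.one_apply, smul_eq_mul,
      mul_one]
    rw [h2, h3, ← Complex.ofReal_add]
    congr 1
    ring
  have h5 : star (π f) * π f + star (π k) * π k = ((C ^ 2 : ℝ) : ℂ) • (1 : H →L[ℂ] H) := by
    rw [← h.map_star f hf, ← h.map_star k hkb, ← h.map_mul _ _ (Meas_bm_star hf) hf,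
      ← h.map_mul _ _ (Meas_bm_star hkb) hkb, ← h.map_add _ _ (Meas_bm_mul (Meas_bm_star hf) hf)
      (Meas_bm_mul (Meas_bm_star hkb) hkb), h1, h.map_smul _ _ Meas_bm_one, h.map_one]
  refine ContinuousLinearMap.opNorm_le_bound _ hC fun v => ?_
  have h6 : ∀ T : H →L[ℂ] H, inner ℂ v ((star T * T) v) = ((‖T v‖ ^ 2 : ℝ) : ℂ) := by
    intro T
    rw [mul_apply_eq_comp, ContinuousLinearMap.star_eq_adjoint,
      ContinuousLinearMap.adjoint_inner_right, inner_self_eq_norm_sq_to_K]
    norm_cast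
  have h7 : ((‖π f v‖ ^ 2 : ℝ) : ℂ) + ((‖π k v‖ ^ 2 : ℝ) : ℂ) = ((C ^ 2 * ‖v‖ ^ 2 : ℝ) : ℂ) := by
    rw [← h6, ← h6, ← inner_add_right, ← add_apply, h5,
      smul_apply, one_apply_eq_self, inner_smul_right,
      inner_self_eq_norm_sq_to_K]
    push_cast
    rfl
  have h8 : ‖π f v‖ ^ 2 + ‖π k v‖ ^ 2 = C ^ 2 * ‖v‖ ^ 2 := by exact_mod_cast h7
  have h9 : ‖π f v‖ ^ 2 ≤ (C * ‖v‖) ^ 2 := by
    have := sq_nonneg ‖π k v‖
    nlinarith
  exact le_of_sq_le_sq h9 (by positivity)

private theorem Meas_comm_simple (h : IsCrossedProduct μ M π u) {T : H →L[ℂ] H}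
    (hT : ∀ E : Set X, MeasurableSet E →
      T * π (E.indicator 1) = π (E.indicator 1) * T) (s : SimpleFunc X ℂ) :
    BddMeas (s : X → ℂ) ∧ T * π s = π s * T := by
  induction s using SimpleFunc.induction with
  | const c hs =>
    rename_i s
    have h1 : ((SimpleFunc.piecewise s hs (SimpleFunc.const X c) (SimpleFunc.const X 0) :
        SimpleFunc X ℂ) : X → ℂ) = c • (s.indicator (1 : X → ℂ)) := by
      funext x
      by_cases hx : x ∈ s
      · simp [SimpleFunc.piecewise, hx]
      · simp [SimpleFunc.piecewise, hx]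
    rw [h1]
    refine ⟨Meas_bm_smul c (Meas_bm_ind hs), ?_⟩
    rw [h.map_smul c _ (Meas_bm_ind hs), mul_smul_comm, smul_mul_assoc, hT s hs]
  | add hd hf hg =>
    rename_i f g
    rw [SimpleFunc.coe_add]
    refine ⟨Meas_bm_add hf.1 hg.1, ?_⟩
    rw [h.map_add _ _ hf.1 hg.1, mul_add, add_mul, hf.2, hg.2]

private theorem Meas_exists_simple {f : X → ℂ} (hf : BddMeas f) {ε : ℝ} (hε : 0 < ε) :
    ∃ s : SimpleFunc X ℂ, ∀ x, ‖f x - s x‖ ≤ 2 * ε := by
  obtain ⟨hm, C, hC⟩ := hf
  let g : X → ℂ := fun x => ((ε * ⌊(f x).re / ε⌋ : ℝ) : ℂ) + ((ε * ⌊(f x).im / ε⌋ : ℝ) : ℂ) * Complex.I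
  have hgm : Measurable g := by
    have h1 : Measurable fun x => (ε * ⌊(f x).re / ε⌋ : ℝ) := by
      refine Measurable.const_mul ?_ ε
      exact (measurable_from_top (f := fun z : ℤ => (z : ℝ))).comp
        ((Complex.measurable_re.comp hm).div_const ε).floor
    have h2 : Measurable fun x => (ε * ⌊(f x).im / ε⌋ : ℝ) := by
      refine Measurable.const_mul ?_ ε
      exact (measurable_from_top (f := fun z : ℤ => (z : ℝ))).comp
        ((Complex.measurable_im.comp hm).div_const ε).floor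
    exact (Complex.measurable_ofReal.comp h1).add
      ((Complex.measurable_ofReal.comp h2).mul_const _)
  have hfin : (Set.range g).Finite := by
    let K : ℤ := ⌈C / ε⌉ + 1
    refine Set.Finite.subset (((Finset.Icc (-K) K) ×ˢ (Finset.Icc (-K) K)).image
      (fun p : ℤ × ℤ => ((ε * p.1 : ℝ) : ℂ) + ((ε * p.2 : ℝ) : ℂ) * Complex.I)).finite_toSet ?_
    rintro _ ⟨x, rfl⟩
    have hb : ∀ r : ℝ, |r| ≤ C → ⌊r / ε⌋ ∈ Finset.Icc (-K) K := by
      intro r hr
      rw [abs_le] at hr
      rw [Finset.mem_Icc]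
      have hce := Int.le_ceil (C / ε)
      constructor
      · rw [Int.le_floor]
        push_cast [K]
        have h3 : -(C / ε) ≤ r / ε := by
          rw [← neg_div]
          exact div_le_div_of_nonneg_right hr.1 hε.le
        linarith
      · have h3 : r / ε ≤ C / ε := div_le_div_of_nonneg_right hr.2 hε.le
        have h4 := Int.floor_le (r / ε)
        have h5 : ((⌊r / ε⌋ : ℤ) : ℝ) ≤ ((K : ℤ) : ℝ) := by
          push_cast [K]
          linarith
        exact_mod_cast h5
    simp only [Finset.coe_image, Set.mem_image, Finset.mem_coe, Finset.mem_product]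
    exact ⟨(⌊(f x).re / ε⌋, ⌊(f x).im / ε⌋),
      ⟨hb _ ((Complex.abs_re_le_norm _).trans (hC x)),
        hb _ ((Complex.abs_im_le_norm _).trans (hC x))⟩, rfl⟩
  refine ⟨⟨g, fun c => hgm (measurableSet_singleton c), hfin⟩, fun x => ?_⟩
  have hfl : ∀ r : ℝ, |r - ε * ⌊r / ε⌋| ≤ ε := by
    intro r
    have h3 := Int.floor_le (r / ε)
    have h4 := Int.lt_floor_add_one (r / ε)
    rw [le_div_iff₀ hε] at h3
    rw [div_lt_iff₀ hε] at h4
    rw [abs_le]
    constructor <;> nlinarith
  have hgx : f x - g x = ((((f x).re - ε * ⌊(f x).re / ε⌋ : ℝ)) : ℂ) +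
      ((((f x).im - ε * ⌊(f x).im / ε⌋ : ℝ)) : ℂ) * Complex.I := by
    have h3 : f x = ((f x).re : ℂ) + ((f x).im : ℂ) * Complex.I := (Complex.re_add_im (f x)).symm
    have h4 : g x = ((ε * ⌊(f x).re / ε⌋ : ℝ) : ℂ) + ((ε * ⌊(f x).im / ε⌋ : ℝ) : ℂ) * Complex.I := rfl
    rw [h4]
    nth_rewrite 1 [h3]
    push_cast
    ring
  change ‖f x - g x‖ ≤ 2 * ε
  rw [hgx]
  refine (norm_add_le _ _).trans ?_
  rw [norm_mul, Complex.norm_I, mul_one, Complex.norm_real, Complex.norm_real, Real.norm_eq_abs,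
    Real.norm_eq_abs]
  have h5 := hfl (f x).re
  have h6 := hfl (f x).im
  linarith

/-- an operator which commutes with `π 1_E` for all measurable `E` commutes with all `π f` (simple functions) -/
theorem IsCrossedProduct.comm_pi (h : IsCrossedProduct μ M π u) {T : H →L[ℂ] H}
    (hT : ∀ E : Set X, MeasurableSet E →
      T * π (E.indicator 1) = π (E.indicator 1) * T) {f : X → ℂ} (hf : BddMeas f) :
    T * π f = π f * T := by
  rw [← sub_eq_zero, ← norm_eq_zero]
  refine le_antisymm (le_of_forall_pos_le_add fun δ hδ => ?_) (norm_nonneg _)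
  obtain ⟨ε, hε, hεδ⟩ : ∃ ε : ℝ, 0 < ε ∧ 4 * ε * ‖T‖ ≤ δ := by
    refine ⟨δ / (4 * (‖T‖ + 1)), by positivity, ?_⟩
    have h1 : 0 < ‖T‖ + 1 := by positivity
    have h2 : 4 * (δ / (4 * (‖T‖ + 1))) * ‖T‖ = δ * (‖T‖ / (‖T‖ + 1)) := by
      field_simp
    rw [h2]
    have h3 : ‖T‖ / (‖T‖ + 1) ≤ 1 := by
      rw [div_le_one h1]; linarith
    nlinarith
  obtain ⟨s, hs⟩ := Meas_exists_simple hf hε
  obtain ⟨hsb, hsc⟩ := Meas_comm_simple h hT s
  have hd : BddMeas (f + (-1 : ℂ) • (s : X → ℂ)) := Meas_bm_add hf (Meas_bm_smul _ hsb)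
  have hfd : ‖π f - π s‖ ≤ 2 * ε := by
    have h1 : π f - π s = π (f + (-1 : ℂ) • (s : X → ℂ)) := by
      rw [h.map_add _ _ hf (Meas_bm_smul _ hsb), h.map_smul _ _ hsb, neg_one_smul, sub_eq_add_neg]
    rw [h1]
    refine h.norm_pi_le hd (by positivity) fun x => ?_
    have h2 : (f + (-1 : ℂ) • (s : X → ℂ)) x = f x - s x := by
      simp [sub_eq_add_neg]
    rw [h2]
    exact hs x
  have h3 : T * π f - π f * T = T * (π f - π s) - (π f - π s) * T := by
    rw [mul_sub, sub_mul, hsc]; abel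
  rw [h3, zero_add]
  calc ‖T * (π f - π s) - (π f - π s) * T‖ ≤ ‖T * (π f - π s)‖ + ‖(π f - π s) * T‖ := norm_sub_le _ _
    _ ≤ ‖T‖ * ‖π f - π s‖ + ‖π f - π s‖ * ‖T‖ := add_le_add (norm_mul_le _ _) (norm_mul_le _ _)
    _ = 2 * ‖T‖ * ‖π f - π s‖ := by ring
    _ ≤ 2 * ‖T‖ * (2 * ε) := mul_le_mul_of_nonneg_left hfd (by positivity)
    _ = 4 * ε * ‖T‖ := by ring
    _ ≤ δ := hεδ

end Pool.Agent.KKS

end

section

/-!
# Measa: projections and sets
-/


open MeasureTheory

namespace Pool.Agent.KKS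

variable {H : Type*} [NormedAddCommGroup H] [InnerProductSpace ℂ H] [CompleteSpace H]
variable {X Γ : Type*} [MeasurableSpace X] [Group Γ] [MulAction Γ X] {μ : Measure X}
  [IsProbabilityMeasure μ] {M A : VonNeumannAlgebra H} {π : (X → ℂ) → H →L[ℂ] H}
  {u : Γ → H →L[ℂ] H} {τ : (H →L[ℂ] H) → ℂ}

private theorem Measa_bma_star {f : X → ℂ} (hf : BddMeas f) : BddMeas (star f) := by
  obtain ⟨hm, C, hC⟩ := hf
  refine ⟨?_, C, fun x => ?_⟩
  · have h1 : star f = fun x => (starRingEnd ℂ) (f x) := rfl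
    rw [h1]
    exact Complex.continuous_conj.measurable.comp hm
  · rw [Pi.star_apply, norm_star]; exact hC x

private theorem Measa_bma_add {f g : X → ℂ} (hf : BddMeas f) (hg : BddMeas g) : BddMeas (f + g) := by
  obtain ⟨hm, C, hC⟩ := hf
  obtain ⟨hm', C', hC'⟩ := hg
  exact ⟨hm.add hm', C + C', fun x => (norm_add_le _ _).trans (add_le_add (hC x) (hC' x))⟩

private theorem Measa_bma_mul {f g : X → ℂ} (hf : BddMeas f) (hg : BddMeas g) : BddMeas (f * g) := by
  obtain ⟨hm, C, hC⟩ := hf
  obtain ⟨hm', C', hC'⟩ := hg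
  refine ⟨hm.mul hm', C * C', fun x => ?_⟩
  rw [Pi.mul_apply, norm_mul]
  exact mul_le_mul (hC x) (hC' x) (norm_nonneg _) ((norm_nonneg _).trans (hC x))

private theorem Measa_bma_smul (c : ℂ) {f : X → ℂ} (hf : BddMeas f) : BddMeas (c • f) := by
  obtain ⟨hm, C, hC⟩ := hf
  refine ⟨hm.const_smul c, ‖c‖ * C, fun x => ?_⟩
  rw [Pi.smul_apply, norm_smul]
  exact mul_le_mul_of_nonneg_left (hC x) (norm_nonneg _)

private theorem Measa_bma_ind {E : Set X} (hE : MeasurableSet E) : BddMeas (E.indicator (1 : X → ℂ)) := by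
  refine ⟨measurable_one.indicator hE, 1, fun x => ?_⟩
  by_cases hx : x ∈ E
  · simp [hx]
  · simp [hx]

/-- `π` is injective mod null functions (`τ (π |f|²) = ∫ |f|²`), and the projections of `A` are the `π 1_E` -/
theorem IsCrossedProduct.exists_set (h : IsCrossedProduct μ M π u) {f : X → ℂ} (hf : BddMeas f)
    (hp : PJ (π f)) : ∃ E : Set X, MeasurableSet E ∧ π f = π (E.indicator 1) := by
  obtain ⟨τ, hτ, hτi, -⟩ := h.trace
  have hd : BddMeas (f * f + (-1 : ℂ) • f) := Measa_bma_add (Measa_bma_mul hf hf) (Measa_bma_smul _ hf)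
  have h0 : π (f * f + (-1 : ℂ) • f) = 0 := by
    rw [h.map_add _ _ (Measa_bma_mul hf hf) (Measa_bma_smul _ hf), h.map_mul _ _ hf hf, h.map_smul _ _ hf, hp.1]
    simp
  have h1 : τ (π (star (f * f + (-1 : ℂ) • f) * (f * f + (-1 : ℂ) • f))) = 0 := by
    rw [h.map_mul _ _ (Measa_bma_star hd) hd, h0, mul_zero]
    obtain ⟨ξ, -, hξ⟩ := hτ.normal
    rw [hξ 0 M.toStarSubalgebra.zero_mem]
    simp
  rw [hτi _ (Measa_bma_mul (Measa_bma_star hd) hd)] at h1
  have h2 : ∀ x, (star (f * f + (-1 : ℂ) • f) * (f * f + (-1 : ℂ) • f)) x =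
      ((‖f x * f x - f x‖ ^ 2 : ℝ) : ℂ) := by
    intro x
    have h3 : (f * f + (-1 : ℂ) • f) x = f x * f x - f x := by
      simp [sub_eq_add_neg]
    rw [Pi.mul_apply, Pi.star_apply, h3, Complex.ofReal_pow]
    exact Complex.conj_mul' _
  simp_rw [h2] at h1
  rw [integral_complex_ofReal] at h1
  have h3 : ∫ x, ‖f x * f x - f x‖ ^ 2 ∂μ = 0 := by exact_mod_cast h1
  have h4 : Integrable (fun x => ‖f x * f x - f x‖ ^ 2) μ := by
    obtain ⟨C, hC⟩ := hd.2
    refine Integrable.mono' (integrable_const (C ^ 2)) ?_ (Filter.Eventually.of_forall fun x => ?_)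
    · exact (((hf.1.mul hf.1).sub hf.1).norm.pow_const 2).aestronglyMeasurable
    · have h5 : (f * f + (-1 : ℂ) • f) x = f x * f x - f x := by
        simp [sub_eq_add_neg]
      have h6 := hC x
      rw [h5] at h6
      rw [Real.norm_eq_abs, abs_of_nonneg (by positivity)]
      exact pow_le_pow_left₀ (norm_nonneg _) h6 2
  rw [integral_eq_zero_iff_of_nonneg (fun x => by positivity) h4] at h3
  refine ⟨{x | f x = 1}, hf.1 (measurableSet_singleton 1), ?_⟩
  apply h.map_ae _ _ hf (Measa_bma_ind (hf.1 (measurableSet_singleton 1)))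
  filter_upwards [h3] with x hx
  simp only [Pi.zero_apply] at hx
  have h7 : f x * f x - f x = 0 := by
    rw [← norm_eq_zero]
    exact pow_eq_zero_iff (two_ne_zero) |>.1 hx
  have h8 : f x * (f x - 1) = 0 := by rw [← h7]; ring
  by_cases h9 : f x = 1
  · simp [Set.indicator, h9]
  · rcases mul_eq_zero.1 h8 with h10 | h10
    · simp [Set.indicator, h10]
    · exact absurd (sub_eq_zero.1 h10) h9

theorem IsCrossedProduct.pi_indicator (h : IsCrossedProduct μ M π u) {E F : Set X}
    (hE : MeasurableSet E) (hF : MeasurableSet F) :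
    PJ (π (E.indicator 1)) ∧ π (E.indicator 1) * π (F.indicator 1) = π ((E ∩ F).indicator 1) := by
  have hmul : ∀ {E F : Set X}, MeasurableSet E → MeasurableSet F →
      π (E.indicator 1) * π (F.indicator 1) = π ((E ∩ F).indicator 1) := by
    intro E F hE hF
    rw [← h.map_mul _ _ (Measa_bma_ind hE) (Measa_bma_ind hF)]
    congr 1
    funext x
    by_cases hx : x ∈ E <;> by_cases hy : x ∈ F <;> simp [hx, hy]
  refine ⟨⟨?_, ?_⟩, hmul hE hF⟩
  · rw [hmul hE hE, Set.inter_self]
  · rw [← h.map_star _ (Measa_bma_ind hE)]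
    congr 1
    funext x
    by_cases hx : x ∈ E
    · simp [hx]
    · simp [hx]

theorem tau_indicator (hτ : ∀ f, BddMeas f → τ (π f) = ∫ x, f x ∂μ)
    {E : Set X} (hE : MeasurableSet E) :
    τ (π (E.indicator 1)) = ((μ.real E : ℝ) : ℂ) := by
  rw [hτ _ (Measa_bma_ind hE), integral_indicator hE]
  simp

end Pool.Agent.KKS

end

section

/-!
# Meas2: values of a measure
-/


open MeasureTheory

namespace Pool.Agent.KKS

variable {H : Type*} [NormedAddCommGroup H] [InnerProductSpace ℂ H] [CompleteSpace H]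

private lemma Meas2_cdf_continuous_of_no_atoms (m : Measure ℝ) [IsProbabilityMeasure m] (h : ∀ a, m {a} = 0) :
    Continuous (ProbabilityTheory.cdf m) := by
  rw [continuous_iff_continuousAt]
  intro a
  have hmono := (ProbabilityTheory.cdf m).mono
  rw [hmono.continuousAt_iff_leftLim_eq_rightLim, (ProbabilityTheory.cdf m).rightLim_eq]
  have h1 : (ProbabilityTheory.cdf m).measure {a} = 0 := by
    rw [ProbabilityTheory.measure_cdf]; exact h a
  rw [StieltjesFunction.measure_singleton] at h1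
  rw [ENNReal.ofReal_eq_zero] at h1
  exact le_antisymm (hmono.leftLim_le le_rfl) (by linarith)

/-- the values of a measure without atoms on a standard Borel space: with an embedding `φ : X → ℝ`
(`MeasureTheory.embeddingReal`), `s ↦ μ (E ∩ {φ ≤ s})` is continuous; intermediate value theorem -/
theorem exists_subset_measure {X : Type*} [MeasurableSpace X] [StandardBorelSpace X]
    {μ : Measure X} [IsProbabilityMeasure μ] (h0 : ∀ x, μ {x} = 0) {E : Set X}
    (hE : MeasurableSet E) {t : ℝ} (ht0 : 0 ≤ t) (ht : t ≤ μ.real E) :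
    ∃ F ⊆ E, MeasurableSet F ∧ μ.real F = t := by
  rcases ht0.eq_or_lt with h | hpos
  · exact ⟨∅, Set.empty_subset _, MeasurableSet.empty, by simp [← h]⟩
  rcases ht.eq_or_lt with h | hlt
  · exact ⟨E, le_rfl, hE, h.symm⟩
  have hEpos : 0 < μ.real E := hpos.trans hlt
  have hEne : μ E ≠ 0 := by
    intro h
    rw [measureReal_def, h] at hEpos
    simp at hEpos
  have hφ := measurableEmbedding_embeddingReal X
  haveI : IsProbabilityMeasure (ProbabilityTheory.cond μ E) := ProbabilityTheory.cond_isProbabilityMeasure hEne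
  haveI : IsProbabilityMeasure ((ProbabilityTheory.cond μ E).map (embeddingReal X)) :=
    Measure.isProbabilityMeasure_map hφ.measurable.aemeasurable
  have hatom : ∀ a, ((ProbabilityTheory.cond μ E).map (embeddingReal X)) {a} = 0 := by
    intro a
    rw [Measure.map_apply hφ.measurable (measurableSet_singleton a)]
    rw [ProbabilityTheory.cond_apply hE]
    have : μ (E ∩ (embeddingReal X) ⁻¹' {a}) = 0 := by
      refine measure_mono_null Set.inter_subset_right ?_
      by_cases ha : ∃ x, embeddingReal X x = a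
      · obtain ⟨x, hx⟩ := ha
        refine measure_mono_null ?_ (h0 x)
        intro y hy
        exact hφ.injective (by rw [hx]; exact hy)
      · have : (embeddingReal X) ⁻¹' {a} = ∅ := by
          ext y
          simp only [Set.mem_preimage, Set.mem_singleton_iff, Set.mem_empty_iff_false, iff_false]
          exact fun hy => ha ⟨y, hy⟩
        rw [this]; simp
    rw [this, mul_zero]
  have hcont := Meas2_cdf_continuous_of_no_atoms _ hatom
  have hq0 : 0 < t / μ.real E := div_pos hpos hEpos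
  have hq1 : t / μ.real E < 1 := (div_lt_one hEpos).2 hlt
  obtain ⟨s, hs⟩ : t / μ.real E ∈ Set.range
      (ProbabilityTheory.cdf ((ProbabilityTheory.cond μ E).map (embeddingReal X))) := by
    apply mem_range_of_exists_le_of_exists_ge hcont
    · exact (((ProbabilityTheory.tendsto_cdf_atBot _).eventually (gt_mem_nhds hq0)).exists).imp
        fun _ h => h.le
    · exact (((ProbabilityTheory.tendsto_cdf_atTop _).eventually (lt_mem_nhds hq1)).exists).imp
        fun _ h => h.le
  refine ⟨E ∩ (embeddingReal X) ⁻¹' (Set.Iic s), Set.inter_subset_left,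
    hE.inter (hφ.measurable measurableSet_Iic), ?_⟩
  rw [ProbabilityTheory.cdf_eq_real, measureReal_def,
    Measure.map_apply hφ.measurable measurableSet_Iic, ProbabilityTheory.cond_apply hE,
    ENNReal.toReal_mul, ENNReal.toReal_inv] at hs
  rw [measureReal_def]
  rw [measureReal_def] at hs hEpos
  field_simp at hs
  exact hs

end Pool.Agent.KKS

end

section

/-!
# Meas2a: separability
-/


open MeasureTheory

namespace Pool.Agent.KKS

variable {H : Type*} [NormedAddCommGroup H] [InnerProductSpace ℂ H] [CompleteSpace H]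

/-- a countable dense family of measurable sets (`MeasureTheory.Measure.MeasureDense`, `IsSeparable`) -/
theorem exists_dense_sets {X : Type*} [MeasurableSpace X] [StandardBorelSpace X]
    {μ : Measure X} [IsProbabilityMeasure μ] : ∃ P : ℕ → Set X, (∀ n, MeasurableSet (P n)) ∧
      ∀ E : Set X, MeasurableSet E → ∀ ε : ℝ, 0 < ε → ∃ n, μ.real (symmDiff E (P n)) < ε := by
  haveI := isSeparable_of_sigmaFinite μ
  obtain ⟨S, hc, hd⟩ := exists_countable_measureDense μ
  obtain ⟨P, hP⟩ := hc.exists_eq_range hd.nonempty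
  refine ⟨P, fun n => hd.measurable _ (hP ▸ Set.mem_range_self n), fun E hE ε hε => ?_⟩
  obtain ⟨t, ht, h⟩ := hd.approx E hE (measure_ne_top μ E) ε hε
  rw [hP] at ht
  obtain ⟨n, rfl⟩ := ht
  refine ⟨n, ?_⟩
  rw [measureReal_def]
  exact (ENNReal.lt_ofReal_iff_toReal_lt (measure_ne_top μ _)).1 h

end Pool.Agent.KKS

end

section

/-!
# Meas2b: no atoms
-/


open MeasureTheory

namespace Pool.Agent.KKS

variable {H : Type*} [NormedAddCommGroup H] [InnerProductSpace ℂ H] [CompleteSpace H]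

variable {X Γ : Type*} [MeasurableSpace X] [StandardBorelSpace X] [Group Γ] [MulAction Γ X]
  {μ : Measure X} [IsProbabilityMeasure μ] {M A : VonNeumannAlgebra H}
  {π : (X → ℂ) → H →L[ℂ] H} {u : Γ → H →L[ℂ] H}

private theorem Meas2b_bdd {E : Set X} (hE : MeasurableSet E) :
    BddMeas (E.indicator (1 : X → ℂ)) := by
  refine ⟨measurable_one.indicator hE, 1, fun x => ?_⟩
  by_cases hx : x ∈ E <;> simp [hx]

private theorem Meas2b_zero (h : IsCrossedProduct μ M π u) : π 0 = 0 := by
  have hb : BddMeas (0 : X → ℂ) := ⟨measurable_zero, 0, fun x => by simp⟩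
  have h1 := h.map_add 0 0 hb hb
  rw [add_zero] at h1
  exact left_eq_add.mp h1

private theorem Meas2b_sum (h : IsCrossedProduct μ M π u) (F : Finset X) :
    π ((F : Set X).indicator 1) = ∑ y ∈ F, π (({y} : Set X).indicator 1) := by
  classical
  induction F using Finset.induction_on with
  | empty =>
    rw [Finset.coe_empty, Set.indicator_empty, Finset.sum_empty]
    exact Meas2b_zero h
  | insert a F ha ih =>
    rw [Finset.sum_insert ha, ← ih, ← h.map_add _ _ (Meas2b_bdd (measurableSet_singleton a))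
      (Meas2b_bdd F.measurableSet)]
    congr 1
    funext y
    simp only [Finset.coe_insert, Pi.add_apply, Set.indicator_apply, Set.mem_insert_iff,
      Finset.mem_coe, Set.mem_singleton_iff, Pi.one_apply]
    by_cases h1 : y = a
    · subst h1
      simp [ha]
    · simp [h1]

/-- `π f e_y = f y • e_y` -/
private theorem Meas2b_atom (h : IsCrossedProduct μ M π u) {f : X → ℂ} (hf : BddMeas f) (y : X) :
    π f * π (({y} : Set X).indicator 1) = f y • π (({y} : Set X).indicator 1) := by
  rw [← h.map_mul f _ hf (Meas2b_bdd (measurableSet_singleton y)),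
    ← h.map_smul (f y) _ (Meas2b_bdd (measurableSet_singleton y))]
  congr 1
  funext z
  by_cases hz : z = y
  · subst hz; simp
  · simp [hz]

private theorem Meas2b_atom' (h : IsCrossedProduct μ M π u) {f : X → ℂ} (hf : BddMeas f) (y : X) :
    π (({y} : Set X).indicator 1) * π f = f y • π (({y} : Set X).indicator 1) := by
  rw [← h.map_mul _ f (Meas2b_bdd (measurableSet_singleton y)) hf,
    ← h.map_smul (f y) _ (Meas2b_bdd (measurableSet_singleton y))]
  congr 1
  funext z
  by_cases hz : z = y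
  · subst hz; simp
  · simp [hz]

/-- the corner of an atom -/
private theorem Meas2b_corner (h : IsCrossedProduct μ M π u) (hm : IsMasaIn M π) (y : X)
    {a : H →L[ℂ] H} (ha : a ∈ M) :
    ∃ c : ℂ, π (({y} : Set X).indicator 1) * a * π (({y} : Set X).indicator 1)
      = c • π (({y} : Set X).indicator 1) := by
  set e := π (({y} : Set X).indicator 1) with he
  have hbe : BddMeas (({y} : Set X).indicator (1 : X → ℂ)) :=
    Meas2b_bdd (measurableSet_singleton y)
  have heM : e ∈ M := h.pi_mem hbe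
  have hee : e * e = e := by
    have := (h.pi_indicator (measurableSet_singleton y) (measurableSet_singleton y)).1.idem
    exact this
  obtain ⟨g, hg, hgx⟩ := hm (e * a * e) (mul_mem (mul_mem heM ha) heM) (by
    intro f hf
    have h1 : e * a * e * π f = e * a * (e * π f) := by simp only [mul_assoc]
    have h2 : π f * (e * a * e) = (π f * e) * a * e := by simp only [mul_assoc]
    rw [h1, h2, he, Meas2b_atom h hf y, Meas2b_atom' h hf y]
    simp only [mul_smul_comm, smul_mul_assoc])
  refine ⟨g y, ?_⟩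
  have h3 : e * a * e = e * (e * a * e) := by
    simp only [← mul_assoc, hee]
  rw [h3, hgx, he, Meas2b_atom' h hg y]

/-- (3.0) if `μ {x} > 0` then `M` is finite dimensional.  `e = π 1_{x}`, `a e = f(x) e` for `a = π f`, so `e M e` commutes
with `A`, lies in `A` (masa) and is `ℂ e`.  The points `g x` all have measure `μ {x}`, so the orbit is finite, its
indicator gives a central projection, so it is 1.  `M = ∑ e_i M e_j`, `e_i M e_j = ℂ u_{g_i} e u_{g_j}⋆`. -/
theorem no_atoms (hM : IsII1Factor M) (h : IsCrossedProduct μ M π u) (hm : IsMasaIn M π)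
    (hmp : ∀ g : Γ, MeasurePreserving (fun x => g • x) μ μ) (x : X) : μ {x} = 0 := by
  classical
  by_contra hx
  have hpos : 0 < μ {x} := pos_iff_ne_zero.mpr hx
  -- the orbit is finite
  have horb : ∀ g : Γ, μ {g • x} = μ {x} := by
    intro g
    have h1 := (hmp g).measure_preimage (measurableSet_singleton (g • x)).nullMeasurableSet
    rw [← h1]
    congr 1
    ext y
    simp
  have hfin : (MulAction.orbit Γ x).Finite := by
    have h1 := Measure.finite_const_le_meas_of_disjoint_iUnion μ hpos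
      (As := fun y : X => ({y} : Set X)) (fun y => measurableSet_singleton y)
      (by
        intro y z hyz
        simpa using hyz) (measure_ne_top μ _)
    refine h1.subset ?_
    rintro _ ⟨g, rfl⟩
    exact (horb g).ge
  set F : Finset X := hfin.toFinset with hF
  have hFS : (F : Set X) = MulAction.orbit Γ x := hfin.coe_toFinset
  have hbF : BddMeas ((F : Set X).indicator (1 : X → ℂ)) := Meas2b_bdd F.measurableSet
  set P := π ((F : Set X).indicator 1) with hP
  have hPM : P ∈ M := h.pi_mem hbF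
  have hPP : PJ P := (h.pi_indicator F.measurableSet F.measurableSet).1
  -- P commutes with the generators
  have hPf : ∀ f, BddMeas f → P * π f = π f * P := by
    intro f hf
    rw [hP, ← h.map_mul _ _ hbF hf, ← h.map_mul _ _ hf hbF, mul_comm]
  have hus : ∀ g, star (u g) * u g = 1 := by
    intro g
    rw [h.u_star, ← h.u_mul, inv_mul_cancel, h.u_one]
  have hPu : ∀ g, P * u g = u g * P := by
    intro g
    have h1 := h.covariant g _ hbF
    have h2 : (fun y => (F : Set X).indicator (1 : X → ℂ) (g⁻¹ • y)) =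
        (F : Set X).indicator (1 : X → ℂ) := by
      funext y
      have h3 : g⁻¹ • y ∈ (F : Set X) ↔ y ∈ (F : Set X) := by
        rw [hFS]
        constructor
        · rintro ⟨g', hg'⟩
          refine ⟨g * g', ?_⟩
          change (g * g') • x = y
          change g' • x = g⁻¹ • y at hg'
          rw [mul_smul, hg', smul_inv_smul]
        · rintro ⟨g', rfl⟩
          exact ⟨g⁻¹ * g', mul_smul _ _ _⟩
      simp only [Set.indicator_apply, h3, Pi.one_apply]
    rw [h2, ← hP] at h1
    calc P * u g = u g * P * star (u g) * u g := by rw [h1]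
      _ = u g * P * (star (u g) * u g) := by simp only [mul_assoc]
      _ = u g * P := by rw [hus, mul_one]
  have hPc : ∀ y ∈ M, P * y = y * P := by
    intro y hy
    have hy' : y ∈ (M : Set (H →L[ℂ] H)) := hy
    rw [h.generates, Set.mem_centralizer_iff] at hy'
    refine hy' P ?_
    rw [Set.mem_centralizer_iff]
    rintro s (⟨f, hf, rfl⟩ | ⟨g, rfl⟩)
    · exact (hPf f hf).symm
    · exact (hPu g).symm
  obtain ⟨c, hc⟩ := hM.factor P hPM hPc
  -- P is not zero
  obtain ⟨τ, hτ, hτ1, -⟩ := h.trace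
  have hPne : P ≠ 0 := by
    intro h0
    have h1 := tau_indicator (μ := μ) hτ1 (E := (F : Set X)) F.measurableSet
    rw [← hP, h0, hτ.zero] at h1
    have h2 : μ.real (F : Set X) = 0 := by exact_mod_cast h1.symm
    have h3 : μ (F : Set X) = 0 := by
      rwa [measureReal_eq_zero_iff] at h2
    have h4 : μ {x} ≤ μ (F : Set X) := by
      apply measure_mono
      rw [hFS]
      rintro _ rfl
      exact MulAction.mem_orbit_self _
    rw [h3] at h4
    exact hx (le_antisymm h4 bot_le)
  have hP1 : P = 1 := by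
    have h1 := hPP.idem
    rw [hc] at h1 hPne ⊢
    have hc0 : c ≠ 0 := by
      rintro rfl
      simp at hPne
    have h10 : (1 : H →L[ℂ] H) ≠ 0 := by
      intro h0
      rw [h0] at hPne
      simp at hPne
    rw [smul_mul_smul_comm, one_mul] at h1
    have h2 : (c * c - c) • (1 : H →L[ℂ] H) = 0 := by rw [sub_smul, h1, sub_self]
    rcases smul_eq_zero.mp h2 with h3 | h3
    · have h4 : c * (c - 1) = 0 := by rw [← h3]; ring
      rcases mul_eq_zero.mp h4 with h5 | h5
      · exact absurd h5 hc0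
      · have : c = 1 := by linear_combination h5
        rw [this, one_smul]
    · exact absurd h3 h10
  -- the atoms
  set e : X → H →L[ℂ] H := fun y => π (({y} : Set X).indicator 1) with he
  have hsum : ∑ y ∈ F, e y = 1 := by
    rw [← hP1, hP, Meas2b_sum h F]
  -- choose the group elements
  have hg : ∀ y z : X, y ∈ F → z ∈ F → ∃ g : Γ, g • z = y := by
    intro y z hy hz
    have hy' : y ∈ MulAction.orbit Γ x := by rw [← hFS]; exact hy
    have hz' : z ∈ MulAction.orbit Γ x := by rw [← hFS]; exact hz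
    obtain ⟨g₁, rfl⟩ := hy'
    obtain ⟨g₂, rfl⟩ := hz'
    exact ⟨g₁ * g₂⁻¹, by simp [mul_smul]⟩
  have hcov : ∀ (g : Γ) (z : X), u g * e z * star (u g) = e (g • z) := by
    intro g z
    have h1 := h.covariant g _ (Meas2b_bdd (measurableSet_singleton z))
    simp only [he]
    rw [h1]
    congr 1
    funext y
    simp only [Set.indicator_apply, Set.mem_singleton_iff, Pi.one_apply]
    have : g⁻¹ • y = z ↔ y = g • z := inv_smul_eq_iff
    simp only [this]
  set G : X × X → H →L[ℂ] H := fun p =>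
    if hp : ∃ g : Γ, g • p.2 = p.1 then u hp.choose * e p.2 else 0 with hG
  have hspan : ∀ a ∈ M, a ∈ Submodule.span ℂ (G '' ((F ×ˢ F : Finset (X × X)) : Set (X × X))) := by
    intro a ha
    have h1 : a = ∑ y ∈ F, ∑ z ∈ F, e y * a * e z := by
      have h2 : a = (∑ y ∈ F, e y) * a * (∑ z ∈ F, e z) := by rw [hsum]; simp
      conv_lhs => rw [h2]
      rw [Finset.sum_mul, Finset.sum_mul]
      refine Finset.sum_congr rfl fun y _ => ?_
      rw [Finset.mul_sum]
    rw [h1]
    refine Submodule.sum_mem _ fun y hy => Submodule.sum_mem _ fun z hz => ?_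
    have hex : ∃ g : Γ, g • (y, z).2 = (y, z).1 := hg y z hy hz
    have hGval : G (y, z) = u hex.choose * e z := by
      simp only [hG]
      rw [dif_pos hex]
    set g := hex.choose with hgdef
    have hgz : g • z = y := hex.choose_spec
    have h3 : e y * a * e z = u g * (e z * (star (u g) * a) * e z) := by
      rw [← hgz, ← hcov g z]
      simp only [mul_assoc]
    obtain ⟨c, hc⟩ := Meas2b_corner h hm z (a := star (u g) * a)
      (mul_mem (star_mem (h.u_mem g)) ha)
    rw [h3]
    change e z * (star (u g) * a) * e z = c • e z at hc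
    rw [hc, mul_smul_comm, ← hGval]
    refine Submodule.smul_mem _ _ (Submodule.subset_span ?_)
    exact ⟨(y, z), by simp [hy, hz], rfl⟩
  have hfd : FiniteDimensional ℂ
      (Submodule.span ℂ (G '' ((F ×ˢ F : Finset (X × X)) : Set (X × X)))) :=
    FiniteDimensional.span_of_finite ℂ ((Finset.finite_toSet _).image _)
  apply hM.infinite
  let L : M.toStarSubalgebra →ₗ[ℂ]
      (Submodule.span ℂ (G '' ((F ×ˢ F : Finset (X × X)) : Set (X × X)))) :=
    { toFun := fun a => ⟨a.1, hspan a.1 a.2⟩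
      map_add' := fun a b => rfl
      map_smul' := fun c a => rfl }
  refine FiniteDimensional.of_injective L ?_
  intro a b hab
  have := congrArg Subtype.val hab
  exact Subtype.ext this

end Pool.Agent.KKS

end

section

/-!
# Meas2c: the structure CM
-/


open MeasureTheory

namespace Pool.Agent.KKS

variable {H : Type*} [NormedAddCommGroup H] [InnerProductSpace ℂ H] [CompleteSpace H]

variable {X Γ : Type*} [MeasurableSpace X] [StandardBorelSpace X] [Group Γ] [MulAction Γ X]
  {μ : Measure X} [IsProbabilityMeasure μ] {M A : VonNeumannAlgebra H}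
  {π : (X → ℂ) → H →L[ℂ] H} {u : Γ → H →L[ℂ] H}

private theorem Meas2c_bdd_ind {X : Type*} [MeasurableSpace X] {E : Set X}
    (hE : MeasurableSet E) : BddMeas (E.indicator (1 : X → ℂ)) := by
  refine ⟨measurable_one.indicator hE, 1, fun x => ?_⟩
  by_cases hx : x ∈ E <;> simp [hx]

private theorem Meas2c_ind_sq {X : Type*} (E P : Set X) :
    (E.indicator (1 : X → ℂ) + (-1 : ℂ) • P.indicator (1 : X → ℂ)) *
      (E.indicator (1 : X → ℂ) + (-1 : ℂ) • P.indicator (1 : X → ℂ)) =
    (symmDiff E P).indicator (1 : X → ℂ) := by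
  funext x
  by_cases h1 : x ∈ E <;> by_cases h2 : x ∈ P <;> simp [h1, h2, Set.mem_symmDiff]

/-- the structure `CM` -/
theorem exists_CM (hM : IsII1Factor M) (h : IsCrossedProduct μ M π u) (hm : IsMasaIn M π)
    (hmp : ∀ g : Γ, MeasurePreserving (fun x => g • x) μ μ) :
    ∃ (A : VonNeumannAlgebra H) (τ : (H →L[ℂ] H) → ℂ), CM M A τ u := by
  obtain ⟨A, hA⟩ := h.exists_A hm
  obtain ⟨τ, hτ, hτi, hτf⟩ := h.trace
  have hproj : ∀ E : Set X, MeasurableSet E →
      π (E.indicator 1) ∈ A ∧ PJ (π (E.indicator 1)) := fun E hE =>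
    ⟨(hA _).mpr ⟨_, Meas2c_bdd_ind hE, rfl⟩, (h.pi_indicator hE hE).1⟩
  refine ⟨A, τ, ?_⟩
  refine
    { trace := hτ
      factor := hM.factor
      le := ?_
      comm := ?_
      max := ?_
      u_mem := fun g => h.u_mem g
      u_one := h.u_one
      u_mul := h.u_mul
      u_star := h.u_star
      u_norm := ?_
      u_free := ?_
      gen := ?_
      projgen := ?_
      val := ?_
      dense := ?_ }
  · intro a ha
    obtain ⟨f, hf, rfl⟩ := (hA a).mp ha
    exact h.pi_mem hf
  · intro a ha b hb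
    obtain ⟨f, hf, rfl⟩ := (hA a).mp ha
    obtain ⟨g, hg, rfl⟩ := (hA b).mp hb
    rw [← h.map_mul f g hf hg, ← h.map_mul g f hg hf, mul_comm]
  · intro x hx hxa
    refine (hA x).mpr (hm x hx fun f hf => hxa _ ((hA _).mpr ⟨f, hf, rfl⟩))
  · intro g a ha
    obtain ⟨f, hf, rfl⟩ := (hA a).mp ha
    rw [h.covariant g f hf]
    refine (hA _).mpr ⟨_, ⟨hf.1.comp (hmp g⁻¹).measurable, ?_⟩, rfl⟩
    obtain ⟨C, hC⟩ := hf.2
    exact ⟨C, fun x => hC _⟩
  · intro g hg a ha
    obtain ⟨f, hf, rfl⟩ := (hA a).mp ha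
    exact hτf f g hf hg
  · intro T hT hTu x hx
    have hx' : x ∈ Set.centralizer (Set.centralizer
        ({a | ∃ f, BddMeas f ∧ a = π f} ∪ Set.range u)) := by
      rw [← h.generates]
      exact hx
    have hTc : T ∈ Set.centralizer ({a | ∃ f, BddMeas f ∧ a = π f} ∪ Set.range u) := by
      rw [Set.mem_centralizer_iff]
      rintro m (⟨f, hf, rfl⟩ | ⟨g, rfl⟩)
      · exact (hT _ ((hA _).mpr ⟨f, hf, rfl⟩)).symm
      · exact (hTu g).symm
    exact (Set.mem_centralizer_iff.mp hx') T hTc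
  · intro T hT a ha
    obtain ⟨f, hf, rfl⟩ := (hA a).mp ha
    exact h.comm_pi (fun E hE => hT _ (hproj E hE).1 (hproj E hE).2) hf
  · intro e he hpe t ht0 ht
    obtain ⟨f, hf, rfl⟩ := (hA e).mp he
    obtain ⟨E, hE, hEe⟩ := h.exists_set hf hpe
    rw [hEe] at ht ⊢
    rw [tau_indicator hτi hE, Complex.ofReal_re] at ht
    obtain ⟨F, hFE, hF, hFt⟩ := exists_subset_measure (no_atoms hM h hm hmp) hE ht0 ht
    refine ⟨_, (hproj F hF).1, (hproj F hF).2, ?_, ?_⟩
    · rw [(h.pi_indicator hE hF).2, Set.inter_eq_right.mpr hFE]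
    · rw [tau_indicator hτi hF, Complex.ofReal_re, hFt]
  · obtain ⟨P, hP, hPd⟩ := exists_dense_sets (μ := μ)
    refine ⟨fun n => π ((P n).indicator 1), fun n => hproj _ (hP n), ?_⟩
    intro e he hpe ε hε
    obtain ⟨f, hf, rfl⟩ := (hA e).mp he
    obtain ⟨E, hE, hEe⟩ := h.exists_set hf hpe
    obtain ⟨n, hn⟩ := hPd E hE ε hε
    refine ⟨n, ?_⟩
    have hbE := Meas2c_bdd_ind hE
    have hbP := Meas2c_bdd_ind (hP n)
    have hbP' : BddMeas ((-1 : ℂ) • (P n).indicator (1 : X → ℂ)) := by
      refine ⟨hbP.1.const_smul _, 1, fun x => ?_⟩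
      by_cases hx : x ∈ P n <;> simp [hx]
    have hbd : BddMeas (E.indicator (1 : X → ℂ) + (-1 : ℂ) • (P n).indicator (1 : X → ℂ)) := by
      refine ⟨hbE.1.add hbP'.1, 2, fun x => ?_⟩
      by_cases h1 : x ∈ E <;> by_cases h2 : x ∈ P n <;> simp [h1, h2]
    have e1 : π f - π ((P n).indicator 1) =
        π (E.indicator (1 : X → ℂ) + (-1 : ℂ) • (P n).indicator (1 : X → ℂ)) := by
      rw [h.map_add _ _ hbE hbP', h.map_smul _ _ hbP, hEe, neg_one_smul, sub_eq_add_neg]
    change (τ ((π f - π ((P n).indicator 1)) * (π f - π ((P n).indicator 1)))).re < ε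
    rw [e1, ← h.map_mul _ _ hbd hbd, Meas2c_ind_sq, tau_indicator hτi (hE.symmDiff (hP n)),
      Complex.ofReal_re]
    exact hn

end Pool.Agent.KKS

end

section

/-!
# Main: Kadison-Kastler stability of crossed product factors
-/


open MeasureTheory

namespace Pool.Agent.KKS

/-- Kadison-Kastler stability of crossed product factors with a Cartan masa from the action, with a
universal constant -/
theorem main : ∃ δ : ℝ, 0 < δ ∧
    ∀ {H : Type*} [NormedAddCommGroup H] [InnerProductSpace ℂ H] [CompleteSpace H]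
      {X Γ : Type*} [MeasurableSpace X] [StandardBorelSpace X] [Group Γ] [Countable Γ]
      [MulAction Γ X] {μ : Measure X} [IsProbabilityMeasure μ] {M N : VonNeumannAlgebra H}
      {π : (X → ℂ) → H →L[ℂ] H} {u : Γ → H →L[ℂ] H}
      (_ : ∀ g : Γ, MeasurePreserving (fun x => g • x) μ μ) (_ : IsII1Factor M)
      (_ : IsCrossedProduct μ M π u) (_ : IsMasaIn M π) (_ : IsII1Factor N)
      (_ : kkDist M N < δ), Nonempty (M.toStarSubalgebra ≃⋆ₐ[ℂ] N.toStarSubalgebra) := by
  refine ⟨1 / 10 ^ 12, by norm_num, ?_⟩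
  intro H _ _ _ X Γ _ _ _ _ _ μ _ M N π u hmp hM hcp hm hN hd
  obtain ⟨A, τ, hc⟩ := exists_CM hM hcp hm hmp
  obtain ⟨τN, hτN⟩ := hN.trace
  exact iso_of_CM hc hτN hN.factor (near_of_kkDist hd)

end Pool.Agent.KKS

end
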